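import Pool.Agent.Lib.MP_6adaea_nt.G.Frame

/-!
Definitions: two point jets of polynomial matrices, tensor powers, density, saturated modules.
-/

set_option linter.unusedSectionVars false

namespace Pool.Agent.Lib.MP_6adaea_nt.U
open Matrix Polynomial G

section rep
variable {S : Type} [CommRing S] {n ι : Type} [Fintype n] [DecidableEq n] [Fintype ι]
  [DecidableEq ι]

/-- a cyclic matrix with eigenvalues `t 0`, `t 1` -/
def cm (t : Fin 2 → S) : Matrix (Fin 2) (Fin 2) S := !![t 0, 0; 1, t 1]

/-- the characteristic polynomial of `cm t` -/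
noncomputable def qd (t : Fin 2 → S) : S[X] := (X - C (t 0)) * (X - C (t 1))

/-- substitute `cm t` for the variable -/
noncomputable def hat (t : Fin 2 → S) (A : Matrix n n S[X]) :
    Matrix (n × Fin 2) (n × Fin 2) S :=
  Matrix.of fun x y => aeval (cm t) (A x.1 y.1) x.2 y.2

/-- the tensor power of a matrix -/
def ten (M : ℕ) (g : Matrix ι ι S) : Matrix (Fin M → ι) (Fin M → ι) S :=
  Matrix.of fun j j' => ∏ a, g (j a) (j' a)

/-- the index type of `rep` -/
abbrev JJ (n : Type) (M : ℕ) : Type := Fin M → n × Fin 2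

/-- the representation `ten M ∘ hat t` -/
noncomputable def rep (M : ℕ) (t : Fin 2 → S) (A : Matrix n n S[X]) :
    Matrix (JJ n M) (JJ n M) S := ten M (hat t A)

/-- the elementary matrix -/
noncomputable def el (a b : n) (x : S[X]) : Matrix n n S[X] := 1 + single a b x

/-- the elementary matrix with a linear entry whose coefficients come from `F` -/
noncomputable def elc {F : Type} [CommRing F] (S : Type) [CommRing S] [Algebra F S] (a b : n)
    (c0 c1 : F) : Matrix n n S[X] :=
  el a b (C (algebraMap F S c0) + C (algebraMap F S c1) * X)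

/-- entrywise congruence -/
def Cong (a : S[X]) (A B : Matrix n n S[X]) : Prop := ∀ i j, a ∣ A i j - B i j

/-- change of coefficients of a polynomial matrix -/
noncomputable def pmap {S' : Type} [CommRing S'] (f : S →+* S') (A : Matrix n n S[X]) :
    Matrix n n S'[X] := A.map (Polynomial.map f)

/-- homogeneous polynomial functions of the entries -/
inductive Hom : ℕ → (Matrix ι ι S → S) → Prop
  | const (c : S) : Hom 0 fun _ => c
  | mul {d : ℕ} {f : Matrix ι ι S → S} (i j : ι) : Hom d f → Hom (d + 1) fun g => g i j * f g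
  | add {d : ℕ} {f f' : Matrix ι ι S → S} : Hom d f → Hom d f' → Hom d fun g => f g + f' g

/-- homogeneous functions of degree `D` that vanish on `H` vanish on the jets of determinant one -/
def Dense (D : ℕ) (t : Fin 2 → S) (H : Set (Matrix (n × Fin 2) (n × Fin 2) S)) : Prop :=
  ∀ f, Hom D f → (∀ h ∈ H, f h = 0) →
    ∀ s : Matrix n n S[X], qd t ∣ s.det - 1 → f (hat t s) = 0

variable {k : Type} [Field k]

/-- polynomial matrices that reduce to an element of `H` -/
def Lifts {a : k[X]} (H : Subgroup (GL n (AdjoinRoot a))) : Set (Matrix n n k[X]) :=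
  {B | ∃ h ∈ H, B.map (AdjoinRoot.mk a) = h.val}

/-- the jets of the lifts of `H` -/
def hats [Algebra k S] (t : Fin 2 → S) {a : k[X]} (H : Subgroup (GL n (AdjoinRoot a))) :
    Set (Matrix (n × Fin 2) (n × Fin 2) S) :=
  {g | ∃ B ∈ Lifts H, g = hat t (pmap (algebraMap k S) B)}

end rep

section adm
variable (k : Type) [Field k] {kb : Type} [Field kb]

/-- admissible pairs of nonconstant power series -/
def Adm (τ : Fin 2 → PowerSeries kb) : Prop :=
  (∀ i c, τ i ≠ PowerSeries.C c) ∧
    (τ 0 = τ 1 ∨ ∀ u : ℕ, τ 1 ≠ τ 0 ^ Nat.card k ^ u ∧ τ 0 ≠ τ 1 ^ Nat.card k ^ u)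

/-- congruence of matrices of power series -/
def XCong {ι : Type} (m : ℕ) (g h : Matrix ι ι (PowerSeries kb)) : Prop :=
  ∀ i j, (PowerSeries.X : PowerSeries kb) ^ m ∣ g i j - h i j

/-- polynomials in two variables -/
abbrev R2 (K : Type) [Field K] : Type := MvPolynomial (Fin 2) K

/-- evaluation at the generic point `τ` -/
noncomputable def gp (K : Type) [Field K] [Algebra kb K] (τ : Fin 2 → PowerSeries kb) :
    R2 K →ₐ[K] PowerSeries K :=
  MvPolynomial.aeval fun i => PowerSeries.map (algebraMap kb K) (τ i)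

/-- evaluation at a point with constant coordinates -/
noncomputable def pt (K : Type) [Field K] [Algebra kb K] (β : Fin 2 → kb) : R2 K →ₐ[K] K :=
  MvPolynomial.aeval fun i => algebraMap kb K (β i)

/-- `β` lies on the curve through `τ` -/
def OnC (τ : Fin 2 → PowerSeries kb) (β : Fin 2 → kb) : Prop :=
  ∀ f : R2 kb, gp kb τ f = 0 → pt kb β f = 0

end adm

section sat
variable {R J : Type} [CommRing R] [Fintype J] [DecidableEq J]

/-- submodules that contain `P • ⊤` and are saturated away from `P` -/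
def IsSat (P : Ideal R) (N : Submodule R (J → R)) : Prop :=
  (∀ x : J → R, (∀ j, x j ∈ P) → x ∈ N) ∧ ∀ (f : R) (x : J → R), f ∉ P → f • x ∈ N → x ∈ N

/-- the saturation of a set -/
def sat (P : Ideal R) (s : Set (J → R)) : Submodule R (J → R) :=
  sInf {N | IsSat P N ∧ s ⊆ N}

/-- Cramer data for the saturation of `s` -/
structure Cram {K : Type} [Field K] (P : Ideal (R2 K)) (s : Set (J → R2 K)) (D : ℕ) where
  Δ : R2 K
  Z : Matrix J J (R2 K)
  notMem : Δ ∉ P
  degΔ : Δ.totalDegree ≤ D
  degZ : ∀ i j, (Z i j).totalDegree ≤ D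
  rows : ∀ i, (Δ • (1 : Matrix J J (R2 K)) - Z) i ∈ Submodule.span (R2 K) s
  mem : ∀ x, x ∈ sat P s ↔ ∀ j, (x ᵥ* Z) j ∈ P

end sat

section drin
variable {k : Type} [Field k] [Finite k] {K : Type} [Field K] [Algebra k K]

/-- the companion matrix -/
noncomputable def Phi (θ : K) (r : ℕ) (g : ℕ → K) : Matrix (Fin r) (Fin r) K[X] :=
  Matrix.of fun i j =>
    if (i : ℕ) + 1 = r then C (g r)⁻¹ * (if (j : ℕ) = 0 then X - C θ else -C (g j))
    else if (i : ℕ) + 1 = j then 1 else 0

variable (k) in
/-- the product of the first `c` Frobenius twists of the companion matrix -/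
noncomputable def Phit (θ : K) (r : ℕ) (g : ℕ → K) : ℕ → Matrix (Fin r) (Fin r) K[X]
  | 0 => 1
  | c + 1 => pmap (frob k K : K →+* K) (Phit θ r g c) * Phi θ r g

variable (k) in
/-- the Frobenius matrix over the polynomial ring in two variables -/
noncomputable def Psi (θ : K) (r : ℕ) (g : ℕ → K) (c M : ℕ) :
    Matrix (JJ (Fin r) M) (JJ (Fin r) M) (R2 K) :=
  rep M MvPolynomial.X (pmap MvPolynomial.C (Phit k θ r g c))

variable (k) in
/-- the denominator of the inverse of `Psi` -/
noncomputable def dlt (θ : K) (c M : ℕ) : R2 K :=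
  (∏ i ∈ Finset.range c, ∏ l : Fin 2,
    (MvPolynomial.X l - MvPolynomial.C (θ ^ Nat.card k ^ i))) ^ M

variable {Ω : Type} [Field Ω] [Algebra k Ω] {φ : Ω →ₗ[k] Ω} {a : k[X]} {n : Type} [Fintype n]

/-- `σ` acts on the torsion module by the polynomial matrix `B` -/
def Act (E : Coord φ a n) (σ : Ω → Ω) (B : Matrix n n k[X]) : Prop :=
  ∀ v, σ (E.e v) = E.e (B.map (AdjoinRoot.mk a) *ᵥ v)

end drin

end Pool.Agent.Lib.MP_6adaea_nt.U
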