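import Pool.Agent.Lib.MP_6adaea_nt.U.Defs
import Pool.Agent.Lib.MP_6adaea_nt.V.All

/-!
Function fields over an algebraically closed field (helper81).
-/

set_option linter.unusedSectionVars false

namespace Pool.Agent.Lib.MP_6adaea_nt.U
open Matrix Polynomial G
open scoped TensorProduct

variable {kb K : Type} [Field kb] [Field K] [Algebra kb K]

theorem Base.isFF {θ : K} (hB : Base kb θ) : IsFF kb K := ⟨θ, hB.tr, hB.fin⟩

/-- the characteristic of an algebra over a finite field -/
theorem exists_char (k kb : Type) [Field k] [Finite k] [Field kb] [Algebra k kb] :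
    ∃ p : ℕ, Fact p.Prime ∧ CharP k p ∧ CharP kb p ∧ ∃ f : ℕ, 0 < f ∧ Nat.card k = p ^ f := by
  obtain ⟨p, hp⟩ := CharP.exists k
  have := Fintype.ofFinite k
  obtain ⟨f, h1, h2⟩ := FiniteField.card k p
  exact ⟨p, ⟨h1⟩, hp, charP_of_injective_algebraMap (algebraMap k kb).injective p, f, f.2,
    by rw [Nat.card_eq_fintype_card, h2]⟩

theorem ff_of_isFF [IsAlgClosed kb] [IsFF kb K] (p : ℕ) [Fact p.Prime] [CharP kb p] : FF kb K where
  fin := IsFF.fin p
  prod x := by
    rw [finsum_eq_sum_of_support_subset (s := (IsFF.fin (k := kb) p x).toFinset) _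
      fun v hv => by simpa using hv]
    exact IsFF.prod p x _ fun v hv => by simpa using hv
  res v _ hx := v.exists_res hx
  const _ h := IsFF.pole p h

theorem Base.ff (k : Type) [Field k] [Finite k] [Algebra k kb] [IsAlgClosed kb] {θ : K}
    (hB : Base kb θ) : FF kb K := by
  obtain ⟨p, _, _, _, -⟩ := exists_char k kb
  have := hB.isFF
  exact ff_of_isFF p

end Pool.Agent.Lib.MP_6adaea_nt.U
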