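import Pool.Agent.Lib.MP_6adaea_nt.U.Defs
import Pool.Agent.Lib.MP_6adaea_nt.V.All

/-!
Valuations of the separable closure (helper81).
-/

set_option linter.unusedSectionVars false

namespace Pool.Agent.Lib.MP_6adaea_nt.U
open Matrix Polynomial G
open scoped TensorProduct

section basic
variable {kb Ω : Type} [Field kb] [Field Ω] [Algebra kb Ω] {V : Val kb Ω}

/-- forget the constants -/
def Val.toQ (V : Val kb Ω) : QVal Ω := ⟨V.ord, V.ord_zero, V.ord_mul, V.ord_add⟩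

@[simp] theorem Val.toQ_ord (x : Ω) : V.toQ.ord x = V.ord x := rfl

theorem Val.toQ_ge {x : Ω} {m : ℚ} : V.toQ.Ge x m ↔ V.Ge x m := Iff.rfl

theorem Val.toQ_gt {x : Ω} {m : ℚ} : V.toQ.Gt x m ↔ V.Gt x m := Iff.rfl

theorem Val.toQ_over {K : Type} [Field K] [Algebra kb K] [Algebra K Ω] {v : Place kb K} :
    V.toQ.Over v ↔ V.Over v := Iff.rfl

theorem Val.toQ_stab {K : Type} [Field K] [Algebra K Ω] : V.toQ.stab K = V.inert K := rfl

/-- a rational valuation that is trivial on the constants -/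
def ofQ (W : QVal Ω) (h : ∀ c : kb, W.ord (algebraMap kb Ω c) = 0) : Val kb Ω :=
  ⟨W.ord, W.ord_zero, W.ord_mul, W.ord_add, h⟩

@[simp] theorem ofQ_ord (W : QVal Ω) (h : ∀ c : kb, W.ord (algebraMap kb Ω c) = 0) (x : Ω) :
    (ofQ W h).ord x = W.ord x := rfl

theorem Val.ord_one : V.ord 1 = 0 := by simpa using V.ord_const 1

theorem Val.ord_neg (x : Ω) : V.ord (-x) = V.ord x := V.toQ.ord_neg x

theorem Val.ord_inv (x : Ω) : V.ord x⁻¹ = -V.ord x := V.toQ.ord_inv x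

theorem Val.ord_pow (x : Ω) (m : ℕ) : V.ord (x ^ m) = m * V.ord x := V.toQ.ord_pow x m

theorem Val.ge_iff {x : Ω} (hx : x ≠ 0) {m : ℚ} : V.Ge x m ↔ m ≤ V.ord x := by simp [Val.Ge, hx]

theorem Val.ge_ord (x : Ω) : V.Ge x (V.ord x) := Or.inr le_rfl

theorem Val.Ge.mono {x : Ω} {m m' : ℚ} (h : V.Ge x m) (hm : m' ≤ m) : V.Ge x m' :=
  h.imp id hm.trans

theorem Val.Ge.add {x y : Ω} {m : ℚ} (hx : V.Ge x m) (hy : V.Ge y m) : V.Ge (x + y) m :=
  QVal.Ge.add (V := V.toQ) hx hy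

theorem Val.Ge.neg {x : Ω} {m : ℚ} (hx : V.Ge x m) : V.Ge (-x) m :=
  QVal.Ge.neg (V := V.toQ) hx

theorem Val.Ge.sub {x y : Ω} {m : ℚ} (hx : V.Ge x m) (hy : V.Ge y m) : V.Ge (x - y) m :=
  QVal.Ge.sub (V := V.toQ) hx hy

theorem Val.Ge.mul {x y : Ω} {m m' : ℚ} (hx : V.Ge x m) (hy : V.Ge y m') :
    V.Ge (x * y) (m + m') :=
  QVal.Ge.mul (V := V.toQ) hx hy

theorem Val.Ge.sum {ι : Type} {s : Finset ι} {f : ι → Ω} {m : ℚ} (h : ∀ i ∈ s, V.Ge (f i) m) :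
    V.Ge (∑ i ∈ s, f i) m :=
  QVal.Ge.sum (V := V.toQ) h

theorem Val.ge_const (c : kb) : V.Ge (algebraMap kb Ω c) 0 := Or.inr (V.ord_const c).ge

theorem Val.Over.ge_iff {K : Type} [Field K] [Algebra kb K] [Algebra K Ω] {v : Place kb K}
    (h : V.Over v) {x : K} {m : ℤ} : V.Ge (algebraMap K Ω x) m ↔ v.Ge x m :=
  QVal.Over.ge_iff (V := V.toQ) h

end basic

variable {kb K Ω : Type} [Field kb] [Field K] [Field Ω] [Algebra kb K] [Algebra kb Ω]
  [Algebra K Ω] [IsScalarTower kb K Ω] [IsAlgClosed kb] [IsGalois K Ω]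

theorem exists_val (v : Place kb K) : ∃ V : Val kb Ω, V.Over v := by
  obtain ⟨W, hW⟩ := exists_qval Ω v
  exact ⟨ofQ W hW.ord_const, hW⟩

theorem Val.conj {v : Place kb K} {V V' : Val kb Ω} (h : V.Over v) (h' : V'.Over v) :
    ∃ σ : Ω ≃ₐ[K] Ω, ∀ x, V'.ord (σ x) = V.ord x :=
  QVal.exists_conj V.toQ V'.toQ fun x => (h x).trans (h' x).symm

theorem val_ae (hK : FF kb K) (x : Ω) :
    {v : Place kb K | ∃ V : Val kb Ω, V.Over v ∧ V.ord x ≠ 0}.Finite := by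
  classical
  by_cases hx : x = 0
  · simp [hx, Val.ord_zero]
  have hi : IsIntegral K x := Algebra.IsIntegral.isIntegral x
  refine (Set.Finite.biUnion (Finset.finite_toSet (Finset.range ((minpoly K x).natDegree + 1)))
    fun i _ => hK.fin ((minpoly K x).coeff i)).subset ?_
  rintro v ⟨V, hV, h0⟩
  by_contra hc
  simp only [Set.mem_iUnion, Set.mem_ofPred_eq, not_exists, not_not] at hc
  have h1 := minpoly.aeval K x
  rw [aeval_def, eval₂_eq_sum_range] at h1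
  obtain ⟨i, hi', j, hj, hij, a1, a2, a3, -⟩ := QVal.exists_two_min (V := V.toQ) h1
    (Finset.self_mem_range_succ _) (by simp [(minpoly.monic hi).coeff_natDegree, hx])
  rw [QVal.ord_mul _ (left_ne_zero_of_mul a1) (right_ne_zero_of_mul a1),
    QVal.ord_mul _ (left_ne_zero_of_mul a2) (right_ne_zero_of_mul a2), QVal.ord_pow, QVal.ord_pow,
    Val.toQ_ord, Val.toQ_ord, Val.toQ_ord, hV, hV, hc i hi', hc j hj, add_right_inj] at a3
  exact hij (by exact_mod_cast mul_right_cancel₀ h0 a3)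

theorem Frb.exists_val {k : Type} [Field k] [Finite k] [Algebra k kb] [Algebra k K] [Algebra k Ω]
    [IsScalarTower k kb K] [IsScalarTower k kb Ω] [IsScalarTower k K Ω] (Fr : Frb k kb K Ω)
    {v : Place kb K} {V : Val kb Ω} (h : V.Over v) :
    ∃ V' : Val kb Ω, V'.Over (Fr.toK.π v) ∧ ∀ x, V'.ord (Fr.FO x) = Fr.Q * V.ord x := by
  have h1 : (V.toQ.comap (Fr.γ.symm : Ω →+* Ω)).Over (Fr.toK.π v) := fun x => by
    rw [Frb.π_ord, ← h, QVal.comap_ord, Val.toQ_ord]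
    congr 1
    change Fr.γ.symm _ = _
    rw [AlgEquiv.symm_apply_eq, Fr.compat, AlgEquiv.apply_symm_apply]
  refine ⟨ofQ _ h1.ord_const, h1, fun x => ?_⟩
  rw [ofQ_ord, Fr.FO_apply, QVal.ord_pow, QVal.comap_ord, Val.toQ_ord]
  simp

end Pool.Agent.Lib.MP_6adaea_nt.U
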