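import Pool.Agent.Lib.MP_6adaea_nt.U.Orth
import Pool.Agent.Lib.MP_6adaea_nt.U.Valu

/-!
Angles between functionals.
-/

set_option linter.unusedSectionVars false

namespace Pool.Agent.Lib.MP_6adaea_nt.U
open Matrix Polynomial G
open scoped TensorProduct

variable {kb K : Type} [Field kb] [Field K] [Algebra kb K] {B : Type} [AddCommGroup B]
  [Module K B] {B' : Type} [AddCommGroup B'] [Module K B']


variable {Ω : Type} [Field Ω] [Algebra kb Ω] [Algebra K Ω] {v : Place kb K}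

/-- the angle between `η` and `η'` is at most `s` -/
def Ang (V : Val kb Ω) (N : Nrm v B) (η η' : B →ₗ[K] Ω) (s : ℚ) : Prop :=
  ∃ a a' : ℚ, (∀ x (m : ℤ), N.Ge x m → V.Ge (η x) (m + a)) ∧
    (∀ x (m : ℤ), N.Ge x m → V.Ge (η' x) (m + a')) ∧
    ∃ (x y : B) (mx my : ℤ), N.Ge x mx ∧ N.Ge y my ∧ η x * η' y - η y * η' x ≠ 0 ∧
      V.ord (η x * η' y - η y * η' x) ≤ mx + my + a + a' + s

variable {V : Val kb Ω} {N N' : Nrm v B} {η η' : B →ₗ[K] Ω} {s : ℚ}

theorem Ang.mono {s' : ℚ} (h : Ang V N η η' s) (hs : s ≤ s') : Ang V N η η' s' := by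
  obtain ⟨a, a', h1, h2, x, y, mx, my, hx, hy, h3, h4⟩ := h
  exact ⟨a, a', h1, h2, x, y, mx, my, hx, hy, h3, by linarith⟩

/-- change of norm in both directions -/
theorem Ang.change {lo e : ℤ} (h1 : ∀ x m, N.Ge x m → N'.Ge x (m + lo))
    (h2 : ∀ x m, N'.Ge x m → N.Ge x (m - lo - e)) :
    (Ang V N η η' s → Ang V N' η η' (s + 2 * e)) ∧ (Ang V N' η η' s → Ang V N η η' (s + 2 * e)) := by
  constructor
  · rintro ⟨a, a', h3, h4, x, y, mx, my, hx, hy, h5, h6⟩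
    refine ⟨a - lo - e, a' - lo - e, fun z m hz => (h3 _ _ (h2 _ _ hz)).mono ?_,
      fun z m hz => (h4 _ _ (h2 _ _ hz)).mono ?_, x, y, mx + lo, my + lo, h1 _ _ hx, h1 _ _ hy, h5,
      ?_⟩ <;> push_cast <;> linarith
  · rintro ⟨a, a', h3, h4, x, y, mx, my, hx, hy, h5, h6⟩
    refine ⟨a + lo, a' + lo, fun z m hz => (h3 _ _ (h1 _ _ hz)).mono ?_,
      fun z m hz => (h4 _ _ (h1 _ _ hz)).mono ?_, x, y, mx - lo - e, my - lo - e, h2 _ _ hx,
      h2 _ _ hy, h5, ?_⟩ <;> push_cast <;> linarith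

private theorem ang_min (V : Val kb Ω) {ι : Type} [Fintype ι] (f : ι → Ω) (h : ∃ i, f i ≠ 0) :
    ∃ i, f i ≠ 0 ∧ ∀ j, V.Ge (f j) (V.ord (f i)) := by
  classical
  obtain ⟨a, ha⟩ := h
  obtain ⟨i, hi, hmin⟩ := Finset.exists_min_image (Finset.univ.filter fun l => f l ≠ 0)
    (fun l => V.ord (f l)) ⟨a, Finset.mem_filter.mpr ⟨Finset.mem_univ _, ha⟩⟩
  exact ⟨i, (Finset.mem_filter.mp hi).2, fun j => (em (f j = 0)).imp id fun hj =>
    hmin j (Finset.mem_filter.mpr ⟨Finset.mem_univ _, hj⟩)⟩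

private theorem ang_exp {n : ℕ} (b : Module.Basis (Fin n) K B) (η : B →ₗ[K] Ω) (x : B) :
    η x = ∑ i, algebraMap K Ω (b.repr x i) * η (b i) := by
  conv_lhs => rw [← b.sum_repr x]
  simp only [map_sum, map_smul, Algebra.smul_def]

private theorem ang_exp2 {n : ℕ} (b : Module.Basis (Fin n) K B) (η η' : B →ₗ[K] Ω) (x y : B) :
    η x * η' y - η y * η' x = ∑ q : Fin n × Fin n,
      algebraMap K Ω (b.repr x q.1) * algebraMap K Ω (b.repr y q.2) *
        (η (b q.1) * η' (b q.2) - η (b q.2) * η' (b q.1)) := by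
  rw [ang_exp b η x, ang_exp b η' y, ang_exp b η y, ang_exp b η' x, mul_comm (∑ i, _ * η (b i))
    (∑ i, algebraMap K Ω (b.repr x i) * η' (b i)), Finset.sum_mul_sum, Finset.sum_mul_sum,
    ← Finset.sum_sub_distrib, Fintype.sum_prod_type]
  refine Finset.sum_congr rfl fun i _ => ?_
  rw [← Finset.sum_sub_distrib]
  exact Finset.sum_congr rfl fun j _ => by ring

private theorem ang_ex {n : ℕ} (b : Module.Basis (Fin n) K B) {x y : B}
    (h : η x * η' y - η y * η' x ≠ 0) :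
    ∃ q : Fin n × Fin n, η (b q.1) * η' (b q.2) - η (b q.2) * η' (b q.1) ≠ 0 := by
  rw [ang_exp2 b] at h
  obtain ⟨q, -, hq⟩ := Finset.exists_ne_zero_of_sum_ne_zero h
  exact ⟨q, right_ne_zero_of_mul hq⟩

private theorem ang_basis {n : ℕ} {b : Module.Basis (Fin n) K B} (hb : N.Orth b) (i : Fin n) :
    N.Ge (b i) 0 := (hb _ _).mpr fun j => by
  rw [b.repr_self, Finsupp.single_apply]
  split_ifs
  · exact v.ge_one
  · exact v.ge_zero 0

private theorem ang_iff (hV : V.Over v) {n : ℕ} {b : Module.Basis (Fin n) K B} (hb : N.Orth b) :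
    Ang V N η η' s ↔ ∃ a a' : ℚ, (∀ i, V.Ge (η (b i)) a) ∧ (∀ i, V.Ge (η' (b i)) a') ∧
      ∃ i j, η (b i) * η' (b j) - η (b j) * η' (b i) ≠ 0 ∧
        V.ord (η (b i) * η' (b j) - η (b j) * η' (b i)) ≤ a + a' + s := by
  constructor
  · rintro ⟨a, a', h1, h2, x, y, mx, my, hx, hy, h3, h4⟩
    refine ⟨a, a', fun i => by simpa using h1 _ _ (ang_basis hb i),
      fun i => by simpa using h2 _ _ (ang_basis hb i), ?_⟩
    obtain ⟨q, h5, h6⟩ := ang_min V
      (fun q : Fin n × Fin n => η (b q.1) * η' (b q.2) - η (b q.2) * η' (b q.1)) (ang_ex b h3)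
    refine ⟨q.1, q.2, h5, ?_⟩
    have h7 : V.Ge (η x * η' y - η y * η' x)
        (mx + my + V.ord (η (b q.1) * η' (b q.2) - η (b q.2) * η' (b q.1))) := by
      rw [ang_exp2 b]
      exact Val.Ge.sum fun r _ => ((hV.ge_iff.mpr ((hb _ _).mp hx r.1)).mul
        (hV.ge_iff.mpr ((hb _ _).mp hy r.2))).mul (h6 r)
    have h8 := (Val.ge_iff h3).mp h7
    linarith
  · rintro ⟨a, a', h1, h2, i, j, h3, h4⟩
    refine ⟨a, a', fun x m hx => ?_, fun x m hx => ?_, b i, b j, 0, 0, ang_basis hb i,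
      ang_basis hb j, h3, by simpa using h4⟩
    · rw [ang_exp b]
      exact Val.Ge.sum fun r _ => (hV.ge_iff.mpr ((hb _ _).mp hx r)).mul (h1 r)
    · rw [ang_exp b]
      exact Val.Ge.sum fun r _ => (hV.ge_iff.mpr ((hb _ _).mp hx r)).mul (h2 r)

/-- In an orthonormal basis the angle is `min_(i,j) V (η b_i η' b_j - η b_j η' b_i)
- min_i V (η b_i) - min_i V (η' b_i)`, minima over the nonzero terms. It is zero when all these
nonzero terms have valuation zero. -/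
theorem exists_ang (hV : V.Over v) {n : ℕ} {b : Module.Basis (Fin n) K B} (hb : N.Orth b)
    (h : ∃ x y, η x * η' y - η y * η' x ≠ 0) : ∃ α : ℚ, 0 ≤ α ∧ (∀ s, Ang V N η η' s ↔ α ≤ s) ∧
      ((∀ i, V.ord (η (b i)) = 0) → (∀ i, V.ord (η' (b i)) = 0) →
        (∀ i j, V.ord (η (b i) * η' (b j) - η (b j) * η' (b i)) = 0) → α = 0) := by
  obtain ⟨x, y, h⟩ := h
  obtain ⟨q, h1, h2⟩ := ang_min V
    (fun q : Fin n × Fin n => η (b q.1) * η' (b q.2) - η (b q.2) * η' (b q.1)) (ang_ex b h)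
  obtain ⟨i, h3, h4⟩ := ang_min V (fun i => η (b i)) (by
    by_contra hc
    simp only [not_exists, not_not] at hc
    simp [hc] at h1)
  obtain ⟨j, h5, h6⟩ := ang_min V (fun i => η' (b i)) (by
    by_contra hc
    simp only [not_exists, not_not] at hc
    simp [hc] at h1)
  refine ⟨V.ord (η (b q.1) * η' (b q.2) - η (b q.2) * η' (b q.1)) - V.ord (η (b i)) -
    V.ord (η' (b j)), ?_, fun s => ?_, fun a1 a2 a3 => by rw [a1, a2, a3]; simp⟩
  · have h7 := (Val.ge_iff h1).mp (((h4 q.1).mul (h6 q.2)).sub ((h4 q.2).mul (h6 q.1)))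
    linarith
  · rw [ang_iff hV hb]
    constructor
    · rintro ⟨a, a', b1, b2, k, l, b3, b4⟩
      have c1 := (Val.ge_iff h3).mp (b1 i)
      have c2 := (Val.ge_iff h5).mp (b2 j)
      have c3 := (Val.ge_iff b3).mp (h2 (k, l))
      linarith
    · intro hs
      exact ⟨_, _, h4, h6, q.1, q.2, h1, by linarith⟩

/-- descent along Frobenius: `b'` plays the role of `T ∘ b` -/
theorem Ang.frob (hV : V.Over v) {v' : Place kb K} {V' : Val kb Ω} (hV' : V'.Over v')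
    {N'' : Nrm v' B} {n : ℕ} {b b' : Module.Basis (Fin n) K B} (hb : N.Orth b) (hb' : N''.Orth b')
    (F : Ω →+* Ω) {Q : ℕ} (hQ : 0 < Q) (hF : ∀ x, V'.ord (F x) = Q * V.ord x)
    {ξ ξ' : B →ₗ[K] Ω} (h1 : ∀ i, ξ (b' i) = F (η (b i))) (h2 : ∀ i, ξ' (b' i) = F (η' (b i)))
    (h : Ang V' N'' ξ ξ' s) : Ang V N η η' (s / Q) := by
  have hQ' : (0 : ℚ) < Q := by exact_mod_cast hQ
  have key : ∀ (z : Ω) (a : ℚ), V'.Ge (F z) a → V.Ge z (a / Q) := fun z a hz =>
    hz.imp (fun h0 => by simpa using h0) fun h0 => by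
      rw [div_le_iff₀ hQ', mul_comm, ← hF]
      exact h0
  obtain ⟨a, a', b1, b2, i, j, b3, b4⟩ := (ang_iff hV' hb').mp h
  rw [h1, h1, h2, h2, ← map_mul, ← map_mul, ← map_sub] at b3 b4
  refine (ang_iff hV hb).mpr ⟨a / Q, a' / Q, fun l => key _ _ (h1 l ▸ b1 l),
    fun l => key _ _ (h2 l ▸ b2 l), i, j, fun h0 => b3 (by rw [h0, map_zero]), ?_⟩
  rw [← add_div, ← add_div, le_div_iff₀ hQ', mul_comm, ← hF]
  exact b4

/-- Choose `i0` with `V (η (b i0))` minimal and `u j = η (b j) / η (b i0)`. All the minors are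
integral combinations of the minors with `i0`, so some `σ (u j) - u j` has valuation `≤ s`. -/
theorem Ang.exists_u [FiniteDimensional K B] (hV : V.Over v) {σ : Ω ≃ₐ[K] Ω}
    (hσ : σ ∈ V.inert K) (h : Ang V N η (σ.toLinearMap ∘ₗ η) s) :
    ∃ x x' : B, η x' ≠ 0 ∧ V.Ge (η x / η x') 0 ∧ σ (η x / η x') ≠ η x / η x' ∧
      V.ord (σ (η x / η x') - η x / η x') ≤ s := by
  obtain ⟨b, hb⟩ := N.exists_orth
  obtain ⟨a, a', b1, b2, i, j, b3, b4⟩ := (ang_iff hV hb).mp h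
  simp only [LinearMap.comp_apply, AlgEquiv.toLinearMap_apply] at b2 b3 b4
  obtain ⟨l, h3, h4⟩ := ang_min V (fun i => η (b i)) (by
    by_contra hc
    simp only [not_exists, not_not] at hc
    simp [hc] at b3)
  have h5 : σ (η (b l)) ≠ 0 := by simpa using h3
  have hs : V.ord (σ (η (b l))) = V.ord (η (b l)) := hσ _
  have hu : ∀ r, V.Ge (η (b r) / η (b l)) 0 := fun r => by
    have := (h4 r).mul (V.ge_ord (η (b l))⁻¹)
    rwa [Val.ord_inv, add_neg_cancel, ← div_eq_mul_inv] at this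
  have e : η (b i) * σ (η (b j)) - η (b j) * σ (η (b i)) = η (b l) * σ (η (b l)) *
      (η (b i) / η (b l) * (σ (η (b j) / η (b l)) - η (b j) / η (b l)) -
        η (b j) / η (b l) * (σ (η (b i) / η (b l)) - η (b i) / η (b l))) := by
    rw [map_div₀, map_div₀]
    field_simp
    ring
  obtain ⟨r, h6, h7⟩ := ang_min V (fun r => σ (η (b r) / η (b l)) - η (b r) / η (b l)) (by
    by_contra hc
    simp only [not_exists, not_not] at hc
    rw [e, hc, hc] at b3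
    simp at b3)
  refine ⟨b r, b l, h3, hu r, sub_ne_zero.mp h6, ?_⟩
  have h8 := ((V.ge_ord (η (b l))).mul (V.ge_ord (σ (η (b l))))).mul
    (((hu i).mul (h7 j)).sub ((hu j).mul (h7 i)))
  rw [← e] at h8
  have c1 := (Val.ge_iff b3).mp h8
  have c2 := (Val.ge_iff h3).mp (b1 l)
  have c3 := (Val.ge_iff h5).mp (b2 l)
  linarith

end Pool.Agent.Lib.MP_6adaea_nt.U
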