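import Pool.Agent.Lib.MP_6adaea_nt.U.FrameL
import Pool.Agent.Lib.MP_6adaea_nt.G.BigLevel

/-!
Bounded index implies big geometric image.
-/

set_option linter.unusedSectionVars false

namespace Pool.Agent.Lib.MP_6adaea_nt.U
open Matrix Polynomial G
open scoped TensorProduct

variable {k kb K Ω : Type} [Field k] [Finite k] [Field kb] [Field K] [Field Ω] [Algebra k kb]
  [Algebra k K] [Algebra k Ω] [Algebra kb K] [Algebra kb Ω] [Algebra K Ω]
  [IsScalarTower k kb K] [IsScalarTower k kb Ω] [IsScalarTower k K Ω] [IsScalarTower kb K Ω]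
  [IsAlgClosed kb] [Algebra.IsAlgebraic k kb] [IsSepClosed Ω] [IsGalois K Ω] {θ : K} {r : ℕ}

variable {L : Type} [Field L] [Algebra L K] [Algebra L Ω] [IsScalarTower L K Ω] [Algebra k L]
  [IsScalarTower k L Ω]

private theorem bigK_pow {k kb Ω : Type} [Field k] [Finite k] [Field kb] [Field Ω] [Algebra k kb]
    [Algebra kb Ω] [Algebra.IsAlgebraic k kb] (f : Ω →+* Ω) (c : kb) :
    ∃ a : ℕ, f (algebraMap kb Ω c) = algebraMap kb Ω c ^ a := by
  by_cases hc : c = 0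
  · exact ⟨1, by simp [hc]⟩
  have hint : IsIntegral k c := (Algebra.IsAlgebraic.isAlgebraic c).isIntegral
  have h1 : Module.Finite k (Algebra.adjoin k {c}) := Algebra.finite_adjoin_simple_of_isIntegral hint
  have h2 : Finite (Algebra.adjoin k {c}) := Module.finite_of_finite k
  obtain ⟨i, j, hij, h3⟩ := Finite.exists_ne_map_eq_of_infinite
    fun n : ℕ => (⟨c ^ n, pow_mem (Algebra.self_mem_adjoin_singleton k c) n⟩ : Algebra.adjoin k {c})
  have h4 : c ^ i = c ^ j := congrArg Subtype.val h3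
  have h5 : ∃ n, 0 < n ∧ c ^ n = 1 := by
    rcases lt_or_gt_of_ne hij with h | h
    · obtain ⟨m, rfl⟩ := Nat.exists_eq_add_of_lt h
      refine ⟨m + 1, m.succ_pos, mul_left_cancel₀ (pow_ne_zero i hc) ?_⟩
      rw [← pow_add, ← add_assoc, ← h4, mul_one]
    · obtain ⟨m, rfl⟩ := Nat.exists_eq_add_of_lt h
      refine ⟨m + 1, m.succ_pos, mul_left_cancel₀ (pow_ne_zero j hc) ?_⟩
      rw [← pow_add, ← add_assoc, h4, mul_one]
  obtain ⟨n, hn, h6⟩ := h5
  have h7 : IsOfFinOrder (algebraMap kb Ω c) :=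
    isOfFinOrder_iff_pow_eq_one.2 ⟨n, hn, by rw [← map_pow, h6, map_one]⟩
  have : NeZero (orderOf (algebraMap kb Ω c)) := ⟨h7.orderOf_pos.ne'⟩
  obtain ⟨a, -, ha⟩ := (IsPrimitiveRoot.orderOf (algebraMap kb Ω c)).eq_pow_of_pow_eq_one
    (ξ := f (algebraMap kb Ω c)) (by rw [← map_pow, pow_orderOf_eq_one, map_one])
  exact ⟨a, ha.symm⟩

include k in
/-- two `k`-automorphisms commute on `kb`: each acts on a finite subfield as a power of
Frobenius -/
theorem comm_const (σ τ : Ω ≃ₐ[L] Ω) (c : kb) :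
    (σ * τ * σ⁻¹ * τ⁻¹) (algebraMap kb Ω c) = algebraMap kb Ω c := by
  have key : ∀ s : Ω ≃ₐ[L] Ω, ∃ a : ℕ, s (algebraMap kb Ω c) = algebraMap kb Ω c ^ a :=
    fun s => bigK_pow (k := k) (s : Ω →+* Ω) c
  obtain ⟨a, ha⟩ := key σ
  obtain ⟨b, hb⟩ := key τ
  have h : (τ * σ) (algebraMap kb Ω c) = (σ * τ) (algebraMap kb Ω c) := by
    rw [AlgEquiv.mul_apply, AlgEquiv.mul_apply, ha, hb, map_pow, map_pow, ha, hb, ← pow_mul,
      ← pow_mul, mul_comm]
  obtain ⟨m, hm⟩ := key (τ * σ)⁻¹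
  have h2 : (τ * σ) ((τ * σ)⁻¹ (algebraMap kb Ω c)) = algebraMap kb Ω c := by
    rw [← AlgEquiv.mul_apply, mul_inv_cancel, AlgEquiv.one_apply]
  rw [mul_assoc, ← _root_.mul_inv_rev, AlgEquiv.mul_apply, hm, map_pow, ← h, ← map_pow, ← hm, h2]

/-- `hasSL_of_index`, `HasSL.commutator`, `card_quot_adjoinRoot`; the commutator subgroup of the
image lies in the image of the automorphisms over `K` -/
theorem bigK_of_bdd (D : DM k Ω θ r)
    (hφ : ∀ (σ : Ω ≃ₐ[L] Ω) (c : k[X]) y, σ (aeval D.φ c y) = aeval D.φ c (σ y))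
    (hK : ∀ σ : Ω ≃ₐ[L] Ω, (∀ c : kb, σ (algebraMap kb Ω c) = algebraMap kb Ω c) →
      ∀ x : K, σ (algebraMap K Ω x) = algebraMap K Ω x) {C : ℕ} (hC : Bdd L D.φ r C) :
    D.BigK := by
  refine ⟨C.factorial + 3, fun a ha hd E i j hij c => ?_⟩
  have hfin := finite_adjoinRoot ha.ne_zero
  obtain ⟨ρ, hρ⟩ := exists_rep hφ E
  have hq : ∀ I : Ideal (AdjoinRoot a), I ≠ ⊤ → C.factorial + 3 < Nat.card (AdjoinRoot a ⧸ I) :=
    card_quot_adjoinRoot ha.ne_zero fun P hP hPa =>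
      (hd P hP hPa).trans_lt (Nat.lt_pow_self (two_le_card (K := k)))
  have h1 : HasSL ρ.range := hasSL_of_index C _ (hC a ha.ne_zero E ρ hρ) fun I hI => by
    have := hq I hI
    omega
  have h2 := h1.commutator fun I hI => by
    have := hq I hI
    omega
  let N : Subgroup (Ω ≃ₐ[L] Ω) :=
    { carrier := {σ | ∀ c : kb, σ (algebraMap kb Ω c) = algebraMap kb Ω c}
      one_mem' := fun _ => rfl
      mul_mem' := fun {s t} hs ht x => by rw [AlgEquiv.mul_apply, ht x, hs x]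
      inv_mem' := fun {s} hs x => by
        rw [← hs x, ← AlgEquiv.mul_apply, inv_mul_cancel, AlgEquiv.one_apply, hs x] }
  have h3 : ⁅ρ.range, ρ.range⁆ ≤ N.map ρ := by
    rw [MonoidHom.range_eq_map, ← Subgroup.map_commutator]
    refine Subgroup.map_mono (Subgroup.commutator_le.2 fun s _ t _ x => ?_)
    exact comm_const (k := k) s t x
  obtain ⟨σ, hσ, h4⟩ := h3 (h2 _ (rt_det hij (AdjoinRoot.mk a c)))
  refine ⟨AlgEquiv.ofRingEquiv (f := (σ : Ω ≃+* Ω)) (hK σ hσ), ?_⟩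
  refine (act_iff_of_isRep hρ σ _).2 ?_
  rw [h4, rt_val, el, Matrix.map_add _ (map_add _), Matrix.map_one _ (map_zero _) (map_one _),
    Matrix.map_single]

end Pool.Agent.Lib.MP_6adaea_nt.U
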