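import Pool.Agent.Lib.MP_6adaea_nt.U.FFun

/-!
Hasse derivatives (helper81).
-/

set_option linter.unusedSectionVars false

namespace Pool.Agent.Lib.MP_6adaea_nt.U
open Matrix Polynomial G
open scoped TensorProduct

variable {k kb K Ω : Type} [Field k] [Finite k] [Field kb] [Field K] [Field Ω] [Algebra k kb]
  [Algebra k K] [Algebra k Ω] [Algebra kb K] [Algebra kb Ω] [Algebra K Ω]
  [IsScalarTower k kb K] [IsScalarTower k kb Ω] [IsScalarTower k K Ω] [IsScalarTower kb K Ω]
  [IsAlgClosed kb] [Algebra.IsAlgebraic k kb] [IsSepClosed Ω] [IsGalois K Ω] {θ : K} {r : ℕ}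

/-- Hasse derivatives from coordinates -/
theorem hs_of_coord (Fr : FrK kb K) (s s0 : K) (h0 : Fr.F s0 = s ^ Fr.Q)
    (hT : taylor s (X ^ Fr.Q - C (s ^ Fr.Q)) = X ^ Fr.Q)
    (ex : ∀ f, ∃ x : ℕ → K, f = ∑ μ ∈ Finset.range Fr.Q, s ^ μ * Fr.F (x μ))
    (uniq : ∀ x : ℕ → K, ∑ μ ∈ Finset.range Fr.Q, s ^ μ * Fr.F (x μ) = 0 → ∀ μ < Fr.Q, x μ = 0)
    (κ κ' : Place kb K →₀ ℕ) (hs : ∀ v : Place kb K, v.Ge s (-(κ' v : ℤ)))
    (hκ : ∀ (v : Place kb K) (x : ℕ → K), v.Ge (∑ μ ∈ Finset.range Fr.Q, s ^ μ * Fr.F (x μ)) 0 →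
      ∀ μ < Fr.Q, v.Ge (Fr.F (x μ)) (-(κ v : ℤ))) : Nonempty (HS Fr) := by
  have hQ := Fr.two_le
  choose x hx using ex
  have uq : ∀ f (y : ℕ → K), f = ∑ μ ∈ Finset.range Fr.Q, s ^ μ * Fr.F (y μ) →
      ∀ μ < Fr.Q, x f μ = y μ := fun f y h μ hμ =>
    sub_eq_zero.mp (uniq (fun μ => x f μ - y μ) (by
      simp only [map_sub, mul_sub, Finset.sum_sub_distrib, ← hx, ← h, sub_self]) μ hμ)
  let co : ℕ → K →+ K := fun μ => AddMonoidHom.mk' (fun f => if μ < Fr.Q then x f μ else 0)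
    fun a b => by
      split_ifs with h
      · exact uq _ (fun μ => x a μ + x b μ) (by
          simp only [map_add, mul_add, Finset.sum_add_distrib, ← hx]) μ h
      · simp
  have hco : ∀ μ f, μ < Fr.Q → co μ f = x f μ := fun μ f h => if_pos h
  let P : K →+ K[X] := AddMonoidHom.mk' (fun f => ∑ μ ∈ Finset.range Fr.Q, monomial μ (co μ f))
    fun a b => by simp [Finset.sum_add_distrib]
  have hPc : ∀ f μ, (P f).coeff μ = co μ f := fun f μ => by
    change (∑ μ ∈ Finset.range Fr.Q, monomial μ (co μ f)).coeff μ = _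
    simp only [finsetSum_coeff, coeff_monomial, Finset.sum_ite_eq', Finset.mem_range]
    split_ifs with h
    · rfl
    · exact (if_neg h).symm
  have hPd : ∀ f, (P f).natDegree < Fr.Q := fun f =>
    Nat.lt_of_le_pred (by omega) (natDegree_le_iff_coeff_eq_zero.mpr fun N hN => by
      rw [hPc]
      exact if_neg (by simp only [Nat.pred_eq_sub_one] at hN; omega))
  have hev : ∀ A : K[X], A.natDegree < Fr.Q →
      (A.map Fr.σ).eval s = ∑ μ ∈ Finset.range Fr.Q, s ^ μ * Fr.F (A.coeff μ) := fun A hA => by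
    rw [eval_eq_sum_range' (natDegree_map_le.trans_lt hA)]
    exact Finset.sum_congr rfl fun μ _ => by rw [coeff_map, mul_comm]; rfl
  have hPe : ∀ f, ((P f).map Fr.σ).eval s = f := fun f => by
    rw [hev _ (hPd f)]
    conv_rhs => rw [hx f]
    exact Finset.sum_congr rfl fun μ hμ => by rw [hPc, hco _ _ (Finset.mem_range.mp hμ)]
  have hz : ∀ A : K[X], A.natDegree < Fr.Q → (A.map Fr.σ).eval s = 0 → A = 0 := fun A hA h => by
    ext μ
    by_cases hμ : μ < Fr.Q
    · exact uniq _ ((hev A hA).symm.trans h) μ hμ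
    · exact coeff_eq_zero_of_natDegree_lt (by omega)
  have hm : (X ^ Fr.Q - C s0 : K[X]).Monic := monic_X_pow_sub_C _ (by omega)
  have hmul : ∀ f g, ∃ R : K[X], P (f * g) = P f * P g + (X ^ Fr.Q - C s0) * R := fun f g => by
    have h1 := modByMonic_add_div (P (f * g) - P f * P g) (X ^ Fr.Q - C s0)
    have h2 : (P (f * g) - P f * P g) %ₘ (X ^ Fr.Q - C s0) = 0 := by
      refine hz _ ?_ ?_
      · have := natDegree_modByMonic_lt (P (f * g) - P f * P g) hm (fun h => by
          have := congrArg natDegree h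
          rw [natDegree_X_pow_sub_C, natDegree_one] at this
          omega)
        rwa [natDegree_X_pow_sub_C] at this
      · have h3 := congrArg (fun A : K[X] => (A.map Fr.σ).eval s) h1
        have h4 : Fr.σ s0 = s ^ Fr.Q := h0
        simpa [hPe, h4] using h3
    rw [h2, zero_add] at h1
    exact ⟨_, by rw [h1]; ring⟩
  let d : ℕ → K →+ K := fun j => AddMonoidHom.mk'
    (fun f => (taylor s ((P f).map Fr.σ)).coeff j) fun a b => by simp
  have hd : ∀ j f, d j f = (taylor s ((P f).map Fr.σ)).coeff j := fun _ _ => rfl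
  refine ⟨⟨fun μ => s ^ μ, co, fun f => ?_, uniq, d, fun f => ?_, fun j y f => ?_,
    fun j hj f g => ?_, κ + Fr.Q • κ', fun j hj v f hf => ?_, fun μ hμ => ?_⟩⟩
  · conv_lhs => rw [hx f]
    exact Finset.sum_congr rfl fun μ hμ => by rw [hco _ _ (Finset.mem_range.mp hμ)]
  · rw [hd, taylor_coeff_zero, hPe]
  · have : P (Fr.F y * f) = C y * P f := sub_eq_zero.mp (hz _
      ((natDegree_sub_le _ _).trans_lt (max_lt (hPd _) ((natDegree_C_mul_le _ _).trans_lt (hPd _))))
      (by simp [hPe]))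
    rw [hd, hd, this, Polynomial.map_mul, map_C, taylor_mul, taylor_C, coeff_C_mul]
    rfl
  · obtain ⟨R, hR⟩ := hmul f g
    have h4 : Fr.σ s0 = s ^ Fr.Q := h0
    rw [hd, hR, Polynomial.map_add, Polynomial.map_mul, Polynomial.map_mul, Polynomial.map_sub,
      Polynomial.map_pow, map_X, map_C, h4, map_add, taylor_mul, taylor_mul, hT, coeff_add,
      coeff_X_pow_mul', if_neg (by omega), add_zero, coeff_mul,
      Finset.Nat.sum_antidiagonal_eq_sum_range_succ_mk]
    rfl
  · rw [hd, taylor_coeff, eval_eq_sum_range' ((natDegree_hasseDeriv_le _ _).trans_lt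
      (lt_of_le_of_lt (Nat.sub_le _ _) (natDegree_map_le.trans_lt (hPd f))))]
    refine Place.Ge.sum fun i hi => ?_
    have hi' := Finset.mem_range.mp hi
    rw [hasseDeriv_coeff, coeff_map, hPc]
    by_cases h : i + j < Fr.Q
    · have h1 := hκ v (x f) (by rwa [← hx]) _ h
      have h2 : v.Ge (((i + j).choose j : ℕ) : K) 0 := by
        simpa using v.ge_const ((i + j).choose j : ℕ)
      rw [hco _ _ h]
      refine ((h2.mul h1).mul ((hs v).pow i)).mono ?_
      have h3 : (i : ℤ) * κ' v ≤ Fr.Q * κ' v :=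
        mul_le_mul_of_nonneg_right (by exact_mod_cast hi'.le) (by positivity)
      simp only [Finsupp.add_apply, Finsupp.smul_apply, smul_eq_mul]
      push_cast
      linarith
    · rw [show co (i + j) f = 0 from if_neg h]
      simp
  · refine ⟨fun j => (taylor (-s) (X ^ j : K[X])).coeff μ, fun f => ?_⟩
    have h1 : (P f).map Fr.σ = taylor (-s) (taylor s ((P f).map Fr.σ)) := by
      rw [taylor_taylor, neg_add_cancel, taylor_zero]
    have h2 := congrArg (fun A : K[X] => A.coeff μ) h1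
    rw [as_sum_range' (taylor s ((P f).map Fr.σ)) Fr.Q (by
      rw [natDegree_taylor]
      exact natDegree_map_le.trans_lt (hPd f)), map_sum] at h2
    simp only [coeff_map, hPc, finsetSum_coeff] at h2
    refine h2.trans (Finset.sum_congr rfl fun j _ => ?_)
    rw [← smul_X_eq_monomial, map_smul, coeff_smul, smul_eq_mul, mul_comm, hd]

/-- `F K = K ^ Q`, `bs μ = s ^ μ` for a separating element `s`,
`d j f = ∑ μ, choose μ j * s ^ (μ - j) * F (co μ f)`. -/
theorem exists_hs (hB : Base kb θ) (Fr : Frb k kb K Ω) : Nonempty (HS Fr.toK) := by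
  classical
  obtain ⟨p, _, _, _, f, -, hf⟩ := exists_char k kb
  have := hB.isFF
  have : CharP K p := charP_of_injective_algebraMap (algebraMap kb K).injective p
  obtain ⟨s, hs, -⟩ := IsFF.exists_gen kb K p
  have hQ : Fr.toK.Q = p ^ (f * Fr.c) := by rw [pow_mul, ← hf]; rfl
  have hF : ∀ x, Fr.toK.F x = Fr.γK x ^ p ^ (f * Fr.c) := fun x => by
    rw [← hQ]
    exact Fr.FK_apply x
  obtain ⟨κ, hκ⟩ := IsFF.coord_bound (k := kb) hs (f * Fr.c)
  refine hs_of_coord Fr.toK s (Fr.γK.symm s) (by rw [hF, hQ, AlgEquiv.apply_symm_apply]) ?_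
    (fun y => ?_) (fun x hx μ hμ => ?_) (p ^ (f * Fr.c) • κ)
    (Finsupp.ofSupportFinite (fun v => (-v.ord s).toNat) ((IsFF.fin p s).subset fun v hv h =>
      hv (by simp [show v.ord s = 0 from h]))) (fun v => ?_) fun v x hx μ hμ => ?_
  · rw [hQ, map_sub, taylor_C, taylor_pow, taylor_X, add_pow_char_pow, ← C_pow, add_sub_cancel_right]
  · obtain ⟨g, hg, -⟩ := IsFF.exists_coord kb p hs (f * Fr.c) y
    refine ⟨fun μ => if h : μ < p ^ (f * Fr.c) then Fr.γK.symm (g ⟨μ, h⟩) else 0, ?_⟩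
    rw [hQ, Finset.sum_range, hg]
    simp [hF]
  · rw [hQ] at hx hμ
    rw [Finset.sum_range] at hx
    have h1 := (IsFF.exists_coord kb p hs (f * Fr.c) 0).unique (y₁ := fun i => Fr.γK (x i))
      (y₂ := 0) (by simpa [hF] using hx.symm) (by simp [(Fact.out : p.Prime).ne_zero])
    simpa using congrFun h1 ⟨μ, hμ⟩
  · rw [Finsupp.ofSupportFinite_coe]
    exact Place.Ge.of_le (by omega)
  · rw [hQ] at hx hμ
    rw [Finset.sum_range] at hx
    have h1 := hκ v (fun i => Fr.γK (x i)) 0 (by simpa [hF] using hx) ⟨μ, hμ⟩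
    rw [hF]
    refine (h1.pow _).mono (le_of_eq ?_)
    simp

end Pool.Agent.Lib.MP_6adaea_nt.U
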