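import Pool.Agent.Lib.MP_6adaea_nt.U.Low

/-!
The height of the horizontal part.
-/

set_option linter.unusedSectionVars false

namespace Pool.Agent.Lib.MP_6adaea_nt.U
open Matrix Polynomial G
open scoped TensorProduct

variable {kb K : Type} [Field kb] [Field K] [Algebra kb K] {B : Type} [AddCommGroup B]
  [Module K B] {B' : Type} [AddCommGroup B'] [Module K B']


/-- Fix a basis `e`; `D j (∑ c i • T (e i)) = ∑ d j (c i) • T (e i)`. Then
`D j (f • T b) = d j f • T b`, so the formula holds in every basis. For the bound scale `x` so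
that its norm is `hi`; its coordinates in `T ∘ b` (`b` from `bnd`) are integral. -/
theorem exists_D [FiniteDimensional K B] {Fr : FrK kb K} (Hs : HS Fr) {N : NFam kb K B} {C0 : ℕ}
    (t : Th N Fr C0) : ∃ D : ℕ → B →+ B, (∀ x, D 0 x = x) ∧
      (∀ j f b, D j (f • t.T b) = Hs.d j f • t.T b) ∧
      (∀ j < Fr.Q, ∀ (f : K) x, D j (f • x) = ∑ i ∈ Finset.range (j + 1), Hs.d i f • D (j - i) x) ∧
      (∀ j < Fr.Q, ∀ v x, ∃ f : K, f ≠ 0 ∧ ∀ m, (N.N v).Ge x m →
        (N.N v).Ge (D j (f • x)) (v.ord f + m - (t.hi v - t.lo v + Hs.κ v))) ∧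
      ∀ S : Submodule K B, ∀ x, (∀ j < Fr.Q, D j x ∈ S) →
        x ∈ Submodule.span K (t.T '' (S.comap t.T)) := by
  let e := Module.finBasis K B
  obtain ⟨e', he⟩ := exists_basis_T t.T t.span e
  let D : ℕ → B →+ B := fun j =>
    { toFun := fun x => ∑ i, Hs.d j (e'.repr x i) • e' i
      map_zero' := by simp
      map_add' := fun x y => by simp [add_smul, Finset.sum_add_distrib] }
  have hD : ∀ j x, D j x = ∑ i, Hs.d j (e'.repr x i) • e' i := fun _ _ => rfl
  have hT : ∀ c : Fin (Module.finrank K B) → K, t.T (∑ i, c i • e i) = ∑ i, Fr.F (c i) • e' i :=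
    fun c => by
      rw [map_sum]
      exact Finset.sum_congr rfl fun i _ => by rw [map_smulₛₗ, he]; rfl
  have h2 : ∀ j f b, D j (f • t.T b) = Hs.d j f • t.T b := fun j f b => by
    rw [← e.sum_repr b, hT, hD, Finset.smul_sum (r := Hs.d j f)]
    refine Finset.sum_congr rfl fun i _ => ?_
    rw [map_smul, Finsupp.smul_apply, e'.repr_sum_self, smul_eq_mul, mul_comm f, Hs.d_F, smul_smul,
      mul_comm]
  refine ⟨D, fun x => ?_, h2, fun j hj f x => ?_, fun j hj v x => ?_, fun S x hx => ?_⟩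
  · simp only [hD, Hs.d_zero]
    exact e'.sum_repr x
  · simp only [hD, map_smul, Finsupp.smul_apply, smul_eq_mul, Hs.d_mul j hj, Finset.sum_smul,
      Finset.smul_sum, smul_smul]
    exact Finset.sum_comm
  · obtain ⟨v, rfl⟩ := Fr.π.surjective v
    by_cases hx : x = 0
    · exact ⟨1, one_ne_zero, fun m _ => Or.inl (by rw [hx, smul_zero, map_zero])⟩
    obtain ⟨n, b, -, hb⟩ := t.bnd v
    obtain ⟨b', hb'⟩ := exists_basis_T t.T t.span b
    obtain ⟨f, hf, hf'⟩ := (Fr.π v).exists_ord_eq (t.hi (Fr.π v) - (N.N (Fr.π v)).ν x)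
    refine ⟨f, hf, fun m hm => ?_⟩
    have h3 : f • x = ∑ i, b'.repr (f • x) i • t.T (b i) := by
      simp only [← hb']
      exact (b'.sum_repr _).symm
    have h4 := (Nrm.ge_smul_iff hf).2 ((N.N (Fr.π v)).ge_self x)
    rw [h3, hf', sub_add_cancel] at h4
    have h5 := (hb _ _).2 h4
    rw [sub_self] at h5
    have h6 := (hb _ _).1 fun i => Hs.d_ge j hj _ _ (h5 i)
    rw [h3, map_sum]
    simp only [h2]
    have h7 := (Nrm.ge_iff hx).1 hm
    exact h6.mono (by omega)
  · have h3 : x = ∑ μ ∈ Finset.range Fr.Q,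
        Hs.bs μ • t.T (∑ i, Hs.co μ (e'.repr x i) • e i) := by
      simp only [hT, Finset.smul_sum, smul_smul]
      rw [Finset.sum_comm]
      simp only [← Finset.sum_smul, ← Hs.sum]
      exact (e'.sum_repr x).symm
    rw [h3]
    refine Submodule.sum_mem _ fun μ hμ => Submodule.smul_mem _ _ (Submodule.subset_span
      ⟨_, ?_, rfl⟩)
    obtain ⟨a, ha⟩ := Hs.recon μ (Finset.mem_range.1 hμ)
    have h4 : t.T (∑ i, Hs.co μ (e'.repr x i) • e i) =
        ∑ j ∈ Finset.range Fr.Q, a j • D j x := by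
      simp only [hT, ha, hD, Finset.sum_smul, Finset.smul_sum, smul_smul]
      exact Finset.sum_comm
    change t.T _ ∈ S
    rw [h4]
    exact Submodule.sum_mem _ fun j hj => Submodule.smul_mem _ _ (hx j (Finset.mem_range.1 hj))

private theorem lemW_tot (hi lo : Place kb K →₀ ℤ) (κ : Place kb K →₀ ℕ) :
    tot (hi - lo + κ.mapRange Nat.cast Nat.cast_zero) = tot hi - tot lo + (tot κ : ℕ) := by
  unfold tot
  rw [Finsupp.sum_add_index' (fun _ => rfl) fun _ _ _ => rfl,
    Finsupp.sum_sub_index fun _ _ _ => rfl, Finsupp.sum_mapRange_index fun _ => rfl]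
  simp [Finsupp.sum]

/-- `S j = {s | D i s ∈ S for i ≤ j}` is a subspace and `s ↦ D (j + 1) s mod S` is linear on
`S j` with kernel `S (j + 1)` (extend it to `B`). By `ht_map_le` into the quotient norm and
`Th.low`, `ht (S (j + 1)) ≤ ht (S j) + ht S + C`; there are at most `finrank S` proper steps.
`S (Q - 1) = span (T '' comap T S)`; finish with `le_ht_T`. -/
theorem lemW (hK : FF kb K) {Fr : FrK kb K} (Hs : HS Fr) (n C0 : ℕ) : ∃ C : ℕ,
    ∀ (B : Type) [AddCommGroup B] [Module K B] [FiniteDimensional K B], Module.finrank K B ≤ n →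
    ∀ (N : NFam kb K B) (t : Th N Fr C0) (S : Submodule K B) (H : ℚ), 0 ≤ H → N.ht S ≤ H →
      (Fr.Q : ℚ) * N.ht (S.comap t.T) ≤ (1 + Module.finrank K S) * H + C := by
  obtain ⟨C1, hC1⟩ : ∃ C1 : ℕ, C1 = n * C0 + n * (2 * C0 + tot Hs.κ) := ⟨_, rfl⟩
  refine ⟨n * C1 + n * C0, fun B _ _ _ hn N t S H hH hS => ?_⟩
  obtain ⟨D, h0, h1, h2, h3, h4⟩ := exists_D Hs t
  have hQ := Fr.two_le
  let Sj : ℕ → Submodule K B := fun j =>
    { carrier := {s | ∀ i ≤ j, i < Fr.Q → D i s ∈ S}
      add_mem' := fun ha hb i hi hi' => by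
        rw [map_add]
        exact add_mem (ha i hi hi') (hb i hi hi')
      zero_mem' := fun i _ _ => by
        rw [map_zero]
        exact zero_mem _
      smul_mem' := fun f s hs i hi hi' => by
        rw [h2 i hi']
        exact Submodule.sum_mem _ fun l _ => S.smul_mem _ (hs _ (by omega) (by omega)) }
  have hSj : ∀ j s, s ∈ Sj j ↔ ∀ i ≤ j, i < Fr.Q → D i s ∈ S := fun _ _ => Iff.rfl
  have hz : Sj 0 = S := by
    ext s
    rw [hSj]
    refine ⟨fun h => h0 s ▸ h 0 le_rfl (by omega), fun h i hi _ => ?_⟩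
    rwa [Nat.le_zero.1 hi, h0]
  obtain ⟨N', p1, p2⟩ := exists_push hK N S.mkQ ⊤ (by rw [Submodule.map_top, S.range_mkQ])
  rw [top_inf_eq, S.ker_mkQ] at p2
  have step : ∀ j, j + 1 < Fr.Q → N.ht (Sj (j + 1)) ≤ N.ht (Sj j) + N.ht S + C1 := fun j hj => by
    let ψ0 : Sj j →ₗ[K] B ⧸ S :=
      { toFun := fun s => S.mkQ (D (j + 1) s)
        map_add' := fun x y => by simp only [Submodule.coe_add, map_add]
        map_smul' := fun f s => by
          rw [Submodule.coe_smul, h2 _ hj, Finset.sum_range_succ', Hs.d_zero, map_add, map_smul,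
            RingHom.id_apply, Nat.sub_zero, add_eq_right]
          exact (Submodule.Quotient.mk_eq_zero S).2 (Submodule.sum_mem _ fun l _ =>
            S.smul_mem _ (s.2 _ (by omega) (by omega))) }
    obtain ⟨ψ, hψ⟩ := ψ0.exists_extend
    have hψ' : ∀ s ∈ Sj j, ψ s = S.mkQ (D (j + 1) s) := fun s hs =>
      LinearMap.congr_fun hψ ⟨s, hs⟩
    have hk : Sj j ⊓ LinearMap.ker ψ = Sj (j + 1) := by
      ext s
      rw [Submodule.mem_inf, LinearMap.mem_ker]
      constructor
      · rintro ⟨a1, a2⟩ i hi hi'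
        rcases Nat.lt_or_eq_of_le hi with a | rfl
        · exact a1 i (by omega) hi'
        · rw [hψ' s a1] at a2
          exact (Submodule.Quotient.mk_eq_zero S).1 a2
      · intro a
        have a1 : s ∈ Sj j := fun i hi hi' => a i (by omega) hi'
        refine ⟨a1, ?_⟩
        rw [hψ' s a1]
        exact (Submodule.Quotient.mk_eq_zero S).2 (a _ le_rfl hj)
    have a1 := ht_map_le hK N N' ψ (Sj j) (t.hi - t.lo + Hs.κ.mapRange Nat.cast Nat.cast_zero)
      fun v b hb m hm => by
        obtain ⟨f, hf, a⟩ := h3 (j + 1) hj v b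
        rw [← Nrm.ge_smul_iff hf, ← map_smul, hψ' _ (Submodule.smul_mem _ f hb), p1]
        refine ⟨_, trivial, rfl, (a m hm).mono (le_of_eq ?_)⟩
        simp only [Finsupp.add_apply, Finsupp.sub_apply, Finsupp.mapRange_apply]
        ring
    have a2 := p2 (((Sj j).map ψ).comap S.mkQ) (fun s hs => by
      rw [Submodule.mem_comap, Submodule.mkQ_apply, (Submodule.Quotient.mk_eq_zero S).2 hs]
      exact zero_mem _) le_top
    rw [Submodule.map_comap_eq_of_surjective S.mkQ_surjective] at a2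
    have a3 := t.low hK (((Sj j).map ψ).comap S.mkQ)
    rw [hk, lemW_tot, a2] at a1
    have a4 : Module.finrank K ((Sj j).map ψ) ≤ n :=
      (Submodule.finrank_map_le _ _).trans ((Submodule.finrank_le _).trans hn)
    have a5 := t.lo_ge
    have a6 := t.hi_le
    have a7 : (Module.finrank K ((Sj j).map ψ) : ℤ) * (tot t.hi - tot t.lo + (tot Hs.κ : ℕ)) ≤
        n * (2 * C0 + (tot Hs.κ : ℕ)) :=
      (mul_le_mul_of_nonneg_left (by omega) (Nat.cast_nonneg _)).trans
        (mul_le_mul_of_nonneg_right (by exact_mod_cast a4) (by positivity))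
    have a8 : (Module.finrank K B : ℤ) * C0 ≤ n * C0 :=
      mul_le_mul_of_nonneg_right (by exact_mod_cast hn) (Nat.cast_nonneg _)
    rw [hC1]
    push_cast
    linarith
  have inv : ∀ j, j < Fr.Q → (N.ht (Sj j) : ℚ) + Module.finrank K (Sj j) * (H + C1) ≤
      H + Module.finrank K S * (H + C1) := fun j => by
    induction j with
    | zero =>
      intro _
      rw [hz]
      linarith
    | succ j ih =>
      intro hj
      have a1 := ih (by omega)
      have a2 : Sj (j + 1) ≤ Sj j := fun s a i hi hi' => a i (by omega) hi'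
      rcases a2.eq_or_lt with a | a
      · rwa [a]
      · have a3 : (Module.finrank K (Sj (j + 1)) : ℚ) + 1 ≤ Module.finrank K (Sj j) := by
          exact_mod_cast Submodule.finrank_lt_finrank_of_lt a
        have a4 : (N.ht (Sj (j + 1)) : ℚ) ≤ N.ht (Sj j) + N.ht S + C1 := by
          exact_mod_cast step j hj
        have a5 := mul_le_mul_of_nonneg_right a3 (show 0 ≤ H + C1 by positivity)
        linarith
  have hl : Sj (Fr.Q - 1) = Submodule.span K (t.T '' (S.comap t.T)) := by
    refine le_antisymm (fun s hs => h4 S s fun j hj => hs j (by omega) hj)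
      (Submodule.span_le.2 ?_)
    rintro _ ⟨b, hb, rfl⟩ i - -
    rw [← one_smul K (t.T b), h1]
    exact S.smul_mem _ hb
  have a1 := inv (Fr.Q - 1) (by omega)
  have a2 : (Fr.Q : ℚ) * N.ht (S.comap t.T) - Module.finrank K (S.comap t.T) * C0 ≤
      N.ht (Sj (Fr.Q - 1)) := by
    rw [hl]
    exact_mod_cast t.le_ht_T hK (S.comap t.T)
  have a3 : (Module.finrank K (S.comap t.T) : ℚ) * C0 ≤ n * C0 :=
    mul_le_mul_of_nonneg_right (by exact_mod_cast (Submodule.finrank_le _).trans hn)
      (Nat.cast_nonneg _)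
  have a4 : (Module.finrank K S : ℚ) * C1 ≤ n * C1 :=
    mul_le_mul_of_nonneg_right (by exact_mod_cast (Submodule.finrank_le _).trans hn)
      (Nat.cast_nonneg _)
  have a5 : 0 ≤ (Module.finrank K (Sj (Fr.Q - 1)) : ℚ) * (H + C1) := by positivity
  push_cast
  linarith

end Pool.Agent.Lib.MP_6adaea_nt.U
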