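import Pool.Agent.Lib.MP_6adaea_nt.U.WdL

/-!
The map to the fibre.
-/

set_option linter.unusedSectionVars false

namespace Pool.Agent.Lib.MP_6adaea_nt.U
open Matrix Polynomial G
open scoped TensorProduct

variable {kb K : Type} [Field kb] [Field K] [Algebra kb K] {B : Type} [AddCommGroup B]
  [Module K B] {B' : Type} [AddCommGroup B'] [Module K B']

variable {J : Type} [Fintype J] [DecidableEq J] {W : Wd kb K B J} {Fr : FrK kb K}
  {Ψ Ψ' : Matrix J J (R2 K)} {C0 : ℕ}


private def qcP (β : Fin 2 → kb) (d : ℕ) (g : R2 K) : Prop :=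
  ∃ u : Fin 2 → R2 K, (∀ i, (u i).totalDegree ≤ d) ∧
    g - MvPolynomial.C (pt K β g) =
      ∑ i, (MvPolynomial.X i - MvPolynomial.C (algebraMap kb K (β i))) * u i

private theorem qcP_mono (β : Fin 2 → kb) {d d' : ℕ} (h : d ≤ d') {g : R2 K} (hg : qcP β d g) :
    qcP β d' g := by
  obtain ⟨u, hu, e⟩ := hg
  exact ⟨u, fun i => (hu i).trans h, e⟩

private theorem qcP_C (β : Fin 2 → kb) (a : K) : qcP β 0 (MvPolynomial.C a : R2 K) :=
  ⟨0, fun _ => by simp, by simp [pt]⟩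

private theorem qcP_X (β : Fin 2 → kb) (i : Fin 2) : qcP β 1 (MvPolynomial.X i : R2 K) := by
  refine ⟨Pi.single i 1, fun k => ?_, ?_⟩
  · by_cases h : k = i
    · subst h
      simp
    · simp [Pi.single_eq_of_ne h]
  · rw [Finset.sum_eq_single i]
    · simp [pt]
    · intro k _ hk
      simp [Pi.single_eq_of_ne hk]
    · simp

private theorem qcP_add (β : Fin 2 → kb) {d : ℕ} {g h : R2 K} (hg : qcP β d g)
    (hh : qcP β d h) : qcP β d (g + h) := by
  obtain ⟨u, hu, e⟩ := hg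
  obtain ⟨w, hw, e'⟩ := hh
  refine ⟨u + w, fun i => (MvPolynomial.totalDegree_add _ _).trans (max_le (hu i) (hw i)), ?_⟩
  simp only [Fin.sum_univ_two, Pi.add_apply, map_add] at e e' ⊢
  linear_combination e + e'

private theorem qcP_mul (β : Fin 2 → kb) {d d' : ℕ} {g h : R2 K} (hg : qcP β d g)
    (hh : qcP β d' h) (dh : h.totalDegree ≤ d') : qcP β (d + d') (g * h) := by
  obtain ⟨u, hu, e⟩ := hg
  obtain ⟨w, hw, e'⟩ := hh
  refine ⟨fun i => u i * h + MvPolynomial.C (pt K β g) * w i, fun i => ?_, ?_⟩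
  · refine (MvPolynomial.totalDegree_add _ _).trans (max_le ?_ ?_)
    · exact (MvPolynomial.totalDegree_mul _ _).trans (add_le_add (hu i) dh)
    · refine (MvPolynomial.totalDegree_mul _ _).trans ?_
      rw [MvPolynomial.totalDegree_C]
      have := hw i
      omega
  · simp only [Fin.sum_univ_two, map_mul] at e e' ⊢
    linear_combination h * e + MvPolynomial.C (pt K β g) * e'

private theorem qcP_pow (β : Fin 2 → kb) (i : Fin 2) (n : ℕ) :
    qcP β n (MvPolynomial.X i ^ n : R2 K) := by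
  induction n with
  | zero => simpa using qcP_C β (1 : K)
  | succ n ih =>
    rw [pow_succ]
    exact qcP_mul β ih (qcP_X β i) (by simp)

private theorem qcP_all (β : Fin 2 → kb) {d : ℕ} {g : R2 K} (hg : g.totalDegree ≤ d) :
    qcP β d g := by
  rw [g.as_sum]
  refine Finset.sum_induction _ (qcP β d) (fun a b => qcP_add β) ?_ fun s hs => ?_
  · simpa using qcP_mono β (Nat.zero_le d) (qcP_C β (0 : K))
  · have h1 : s 0 + s 1 ≤ d := by
      have := (MvPolynomial.le_totalDegree hs).trans hg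
      rwa [Finsupp.sum_fintype _ _ (fun _ => rfl), Fin.sum_univ_two] at this
    rw [MvPolynomial.monomial_eq, Finsupp.prod_fintype _ _ (fun _ => pow_zero _),
      Fin.prod_univ_two]
    refine qcP_mono β (d := 0 + (s 0 + s 1)) (by omega) (qcP_mul β (qcP_C β _)
      (qcP_mul β (qcP_pow β 0 _) (qcP_pow β 1 _) (by simp)) ?_)
    exact (MvPolynomial.totalDegree_mul _ _).trans (by simp)

private theorem qc_factor {V U A : Type} [AddCommGroup V] [Module K V] [AddCommGroup U]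
    [Module K U] [AddCommGroup A] [Module K A] (f : V →ₗ[K] U) (g : V →ₗ[K] A)
    (h : LinearMap.ker f ≤ LinearMap.ker g) : ∃ χ : U →ₗ[K] A, ∀ x, χ (f x) = g x := by
  obtain ⟨χ, hχ⟩ := LinearMap.exists_extend
    (((LinearMap.ker f).liftQ g h).comp f.quotKerEquivRange.symm.toLinearMap)
  refine ⟨χ, fun x => ?_⟩
  have := LinearMap.congr_fun hχ ⟨f x, LinearMap.mem_range_self f x⟩
  simpa [LinearMap.quotKerEquivRange_symm_apply_image] using this

private theorem qc_smul_deg {f : R2 K} {c e : ℕ} (hf : f.totalDegree ≤ c) {x : J → R2 K}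
    (hx : x ∈ degLE K J e) : f • x ∈ degLE K J (c + e) :=
  mem_degLE.2 fun j => (MvPolynomial.totalDegree_mul _ _).trans (add_le_add hf (mem_degLE.1 hx j))

private theorem qc_deg_mono {e e' : ℕ} (h : e ≤ e') {x : J → R2 K} (hx : x ∈ degLE K J e) :
    x ∈ degLE K J e' :=
  mem_degLE.2 fun j => (mem_degLE.1 hx j).trans h

private theorem qc_pt_map (Fr : FrK kb K) (β : Fin 2 → kb) (f : R2 K) :
    pt K β (MvPolynomial.map Fr.σ f) = Fr.F (pt K β f) := by
  induction f using MvPolynomial.induction_on with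
  | C a => simp [pt]
  | add p q hp hq => simp only [map_add, hp, hq]
  | mul_X p i hp =>
    simp only [map_mul, hp, MvPolynomial.map_X]
    simp [pt]

private theorem qc_pv_tau (Fr : FrK kb K) (Ψ : Matrix J J (R2 K)) (β : Fin 2 → kb)
    (x : J → R2 K) : (pt K β).toLinearMap.compLeft J (tau Fr.σ Ψ x) =
      (fun j => Fr.F ((pt K β).toLinearMap.compLeft J x j)) ᵥ* Ψ.map (pt K β) := by
  funext j
  simp [tau, Matrix.vecMul, dotProduct, qc_pt_map]

private theorem qc_pv_smul (β : Fin 2 → kb) (f : R2 K) (x : J → R2 K) :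
    (pt K β).toLinearMap.compLeft J (f • x) = pt K β f • (pt K β).toLinearMap.compLeft J x := by
  funext j
  simp

private noncomputable def qcG (Fr : FrK kb K) (P : Matrix J J K) : (J → K) →ₛₗ[Fr.σ] (J → K) where
  toFun x := (fun j => Fr.F (x j)) ᵥ* P
  map_add' x y := by
    rw [← Matrix.add_vecMul]
    congr 1
    funext j
    simp
  map_smul' a x := by
    rw [← Matrix.smul_vecMul]
    congr 1
    funext j
    simp

/-- if `x` vanishes at `β` then `x = ∑ (X i - β i) • x i` without raising the degree -/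
theorem exists_div_pt (β : Fin 2 → kb) {e : ℕ} {x : J → R2 K} (hx : x ∈ degLE K J e)
    (h : ∀ j, pt K β (x j) = 0) : ∃ u : Fin 2 → J → R2 K, (∀ i, u i ∈ degLE K J e) ∧
      x = ∑ i, (MvPolynomial.X i - MvPolynomial.C (algebraMap kb K (β i)) : R2 K) • u i := by
  choose u hu e using fun j => qcP_all β (mem_degLE.1 hx j)
  refine ⟨fun i j => u j i, fun i => mem_degLE.2 fun j => hu j i, funext fun j => ?_⟩
  have := e j
  rw [h j, map_zero, sub_zero] at this
  simpa [Finset.sum_apply] using this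

/-- For `b ∈ Sg (2 * c)` with `ev f0 b = im x`, `deg x ≤ 3 * c`, put
`ψ b = (pt β f0)⁻¹ • mk (x β)`; two choices differ by a relation of degree `3 * c`. Extend `ψ`
linearly. `FQ` is induced by `x ↦ F x ᵥ* Ψ β` (`tau_rel`, `pt β (map F f) = F (pt β f)`).
If `T b = im x1`, `deg x1 ≤ c`, then `ψ (T b) = mk (x1 β)` and `map F f0 • x1 - tau x` is a
relation. Kernel: if `x β ∈ relAt e β` use `exists_div_pt` and `S_le_Sg`; conversely apply `f0`
once more and get a relation of degree `e + 5 * c + 1`. -/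
theorem exists_psi (t : Tw W Fr Ψ C0) {c e : ℕ} (hΨ : ∀ i j, (Ψ i j).totalDegree ≤ c)
    (β : Fin 2 → kb) (hrel : W.relAt (e + 5 * c + 1) β ≤ W.relAt e β) {f0 : R2 K}
    (hd : f0.totalDegree ≤ c) (hβ : pt K β f0 ≠ 0)
    (hf : ∀ e, ∀ b ∈ t.Sg e, W.ev f0 b ∈ W.S (e + c)) :
    ∃ (ψ : B →ₗ[K] (J → K) ⧸ W.relAt e β)
      (FQ : ((J → K) ⧸ W.relAt e β) →ₛₗ[Fr.σ] ((J → K) ⧸ W.relAt e β)),
      (t.Sg c).map ψ = ⊤ ∧
      (∀ x, FQ ((W.relAt e β).mkQ x) =
        (W.relAt e β).mkQ ((fun j => Fr.F (x j)) ᵥ* Ψ.map (pt K β))) ∧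
      (∀ b ∈ t.Sg c, t.T b ∈ t.Sg (2 * c) ∧ ψ (t.T b) = FQ (ψ b)) ∧
      t.Sg (2 * c) ⊓ LinearMap.ker ψ = t.Sg (2 * c) ⊓
        ((t.Sg (e + 4 * c)).map
            (W.ev (MvPolynomial.X 0 - MvPolynomial.C (algebraMap kb K (β 0)))) ⊔
          (t.Sg (e + 4 * c)).map
            (W.ev (MvPolynomial.X 1 - MvPolynomial.C (algebraMap kb K (β 1))))).comap
          (W.ev f0) := by
  set N := W.relAt e β with hN
  set pv := (pt K β).toLinearMap.compLeft J with hpv
  obtain ⟨χ, hχ0⟩ := qc_factor (W.im.comp (degLE K J (e + 5 * c + 1)).subtype)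
    (N.mkQ.comp (pv.comp (degLE K J (e + 5 * c + 1)).subtype)) (by
      intro x hx
      have hx' : (x : J → R2 K) ∈ W.rel (e + 5 * c + 1) := ⟨x.2, hx⟩
      exact (Submodule.Quotient.mk_eq_zero N).2 (hrel ⟨x, hx', rfl⟩))
  have hχ : ∀ {d : ℕ} {x : J → R2 K}, x ∈ degLE K J d → d ≤ e + 5 * c + 1 →
      χ (W.im x) = N.mkQ (pv x) := fun hx hd => hχ0 ⟨_, qc_deg_mono hd hx⟩
  have hG : N ≤ N.comap (qcG Fr (Ψ.map (pt K β))) := by
    rintro _ ⟨x, hx, rfl⟩
    exact hrel ⟨tau Fr.σ Ψ x, W.rel_mono (by omega) (t.tau_rel hΨ hx), qc_pv_tau Fr Ψ β x⟩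
  set ψ : B →ₗ[K] (J → K) ⧸ N := (pt K β f0)⁻¹ • χ.comp (W.ev f0) with hψ
  have hψ1 : ∀ {d : ℕ} {b : B} {x : J → R2 K}, x ∈ degLE K J d → d ≤ e + 5 * c + 1 →
      W.im x = W.ev f0 b → ψ b = (pt K β f0)⁻¹ • N.mkQ (pv x) := by
    intro d b x hx hd' h
    rw [← hχ hx hd', h]
    rfl
  have hψ2 : ∀ {d : ℕ} {x : J → R2 K}, x ∈ degLE K J d → d ≤ e + 4 * c + 1 →
      ψ (W.im x) = N.mkQ (pv x) := by
    intro d x hx hd'
    rw [hψ1 (qc_smul_deg hd hx) (by omega) (W.im_smul f0 x), qc_pv_smul, map_smul, smul_smul,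
      inv_mul_cancel₀ hβ, one_smul]
  refine ⟨ψ, N.mapQ N (qcG Fr (Ψ.map (pt K β))) hG, ?_, fun x => rfl, fun b hb => ?_, ?_⟩
  · rw [eq_top_iff]
    intro q _
    obtain ⟨v, rfl⟩ := N.mkQ_surjective q
    have hv : (fun j => (MvPolynomial.C (v j) : R2 K)) ∈ degLE K J 0 :=
      mem_degLE.2 fun j => by simp
    refine ⟨W.im fun j => MvPolynomial.C (v j), ?_, ?_⟩
    · have := t.S_le_Sg hΨ 0 ⟨_, hv, rfl⟩
      rwa [zero_add] at this
    · rw [hψ2 hv (by omega)]
      congr 1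
      funext j
      simp [hpv, pt]
  · obtain ⟨x, hx, e2⟩ := hf c b hb
    obtain ⟨x1, hx1, e1⟩ : t.T b ∈ W.S c := hb
    refine ⟨?_, ?_⟩
    · rw [two_mul]
      exact t.S_le_Sg hΨ c ⟨x1, hx1, e1⟩
    · have hm : (MvPolynomial.map Fr.σ f0).totalDegree ≤ c :=
        (MvPolynomial.totalDegree_le_of_support_subset
          (MvPolynomial.support_map_subset _ _)).trans hd
      have e3 : W.im (tau Fr.σ Ψ x) = W.im (MvPolynomial.map Fr.σ f0 • x1) := by
        rw [← t.T_im, e2, t.T_ev', W.im_smul, e1]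
      have e4 := congrArg χ e3
      rw [hχ (tau_deg hΨ hx) (by omega), hχ (qc_smul_deg hm hx1) (by omega), qc_pv_smul,
        qc_pt_map, map_smul, qc_pv_tau] at e4
      have hβ' : Fr.F (pt K β f0) ≠ 0 := (map_ne_zero Fr.F).2 hβ
      rw [← e1, hψ2 hx1 (by omega), hψ1 hx (by omega) e2, LinearMap.map_smulₛₗ]
      have e5 : N.mapQ N (qcG Fr (Ψ.map (pt K β))) hG (N.mkQ (pv x)) =
          Fr.F (pt K β f0) • N.mkQ (pv x1) := e4
      rw [e5, smul_smul, map_inv₀]
      have e6 : (Fr.σ (pt K β f0))⁻¹ * Fr.F (pt K β f0) = 1 := inv_mul_cancel₀ hβ'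
      rw [e6, one_smul]
  · ext b
    simp only [Submodule.mem_inf, LinearMap.mem_ker, Submodule.mem_comap]
    refine and_congr_right fun hb => ?_
    obtain ⟨x, hx, e2⟩ := hf _ b hb
    rw [hψ1 hx (by omega) e2, smul_eq_zero, or_iff_right (inv_ne_zero hβ)]
    constructor
    · intro h
      obtain ⟨r, hr, e3⟩ : pv x ∈ N := (Submodule.Quotient.mk_eq_zero N).1 h
      have hxr : x - r ∈ degLE K J (e + 3 * c) :=
        sub_mem (qc_deg_mono (by omega) hx) (qc_deg_mono (by omega) hr.1)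
      obtain ⟨u, hu, e4⟩ := exists_div_pt β hxr fun j => by
        have := congrFun e3 j
        simp only [hpv, LinearMap.compLeft_apply, Function.comp_apply,
          AlgHom.toLinearMap_apply] at this
        rw [Pi.sub_apply, map_sub, this, sub_self]
      have e5 : W.im r = 0 := hr.2
      have e6 := congrArg W.im e4
      rw [map_sub, e5, sub_zero, e2, Fin.sum_univ_two, map_add, W.im_smul, W.im_smul] at e6
      have hS : ∀ i, W.im (u i) ∈ t.Sg (e + 4 * c) := fun i => by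
        have := t.S_le_Sg hΨ _ ⟨_, hu i, rfl⟩
        rwa [show e + 3 * c + c = e + 4 * c by ring] at this
      rw [e6]
      exact Submodule.add_mem_sup ⟨_, hS 0, rfl⟩ ⟨_, hS 1, rfl⟩
    · intro h
      obtain ⟨_, ⟨b0, hb0, rfl⟩, _, ⟨b1, hb1, rfl⟩, e3⟩ := Submodule.mem_sup.1 h
      obtain ⟨y0, hy0, e40⟩ := hf _ b0 hb0
      obtain ⟨y1, hy1, e41⟩ := hf _ b1 hb1
      have hX : ∀ i, (MvPolynomial.X i - MvPolynomial.C (algebraMap kb K (β i)) :
          R2 K).totalDegree ≤ 1 := fun i =>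
        (MvPolynomial.totalDegree_sub_C_le _ _).trans (by simp)
      have hcomm : ∀ (g : R2 K) (z : B), W.ev f0 (W.ev g z) = W.ev g (W.ev f0 z) := fun g z => by
        rw [← Module.End.mul_apply, ← map_mul, mul_comm, map_mul, Module.End.mul_apply]
      have e5 : W.im (f0 • x) =
          W.im ((MvPolynomial.X 0 - MvPolynomial.C (algebraMap kb K (β 0)) : R2 K) • y0) +
          W.im ((MvPolynomial.X 1 - MvPolynomial.C (algebraMap kb K (β 1)) : R2 K) • y1) := by
        rw [W.im_smul, W.im_smul, W.im_smul, e2, ← e3, map_add, hcomm, hcomm _ b1, e40, e41]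
      have e6 := congrArg χ e5
      have hz : ∀ i, pt K β (MvPolynomial.X i - MvPolynomial.C (algebraMap kb K (β i))) = 0 :=
        fun i => by simp [pt]
      rw [map_add, hχ (qc_smul_deg hd hx) (by omega), hχ (qc_smul_deg (hX 0) hy0) (by omega),
        hχ (qc_smul_deg (hX 1) hy1) (by omega), qc_pv_smul, qc_pv_smul, qc_pv_smul, hz, hz,
        zero_smul, zero_smul, map_zero, add_zero, map_smul] at e6
      exact (smul_eq_zero.1 e6).resolve_left hβ

end Pool.Agent.Lib.MP_6adaea_nt.U
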