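import Pool.Agent.Lib.MP_6adaea_nt.U.QuotA
import Pool.Agent.Lib.MP_6adaea_nt.U.QuotC
import Pool.Agent.Lib.MP_6adaea_nt.U.LemW

/-!
Norms of small height on the fibre.
-/

set_option linter.unusedSectionVars false

namespace Pool.Agent.Lib.MP_6adaea_nt.U
open Matrix Polynomial G
open scoped TensorProduct

variable {kb K : Type} [Field kb] [Field K] [Algebra kb K] {B : Type} [AddCommGroup B]
  [Module K B] {B' : Type} [AddCommGroup B'] [Module K B']

variable {J : Type} [Fintype J] [DecidableEq J] {W : Wd kb K B J} {Fr : FrK kb K}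
  {Ψ Ψ' : Matrix J J (R2 K)} {C0 : ℕ}


/-- `N1`, `N2` are pushed from `Sg c` and `Sg (2 * c)` (`exists_push`). With `lemW`, `ht_S`,
`finrank_S`: `Q * ht (Sg e') ≤ (1 + n') * n' * H + C` for `e' ≤ e + 4 * c`. Use `Th.low` for all
lower bounds, `ht_submod` for the intersection and the sum, `ht_comap_le` for `f0`, `ht_map_le`
with `c = 0` for `X i - β i`, and `Th.ge_T`. -/
theorem quot [Infinite kb] (hK : FF kb K) (Hs : HS Fr) (δ : R2 K) (c e n C0 : ℕ) :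
    ∃ C : ℚ, 0 ≤ C ∧
    ∀ (B : Type) [AddCommGroup B] [Module K B] [FiniteDimensional K B], Module.finrank K B ≤ n →
    ∀ (W : Wd kb K B J) (Ψ Ψ' : Matrix J J (R2 K)), Tw W Fr Ψ C0 →
      Ψ' * Ψ = δ • (1 : Matrix J J (R2 K)) → δ.totalDegree ≤ c →
      (∀ i j, (Ψ i j).totalDegree ≤ c) → (∀ i j, (Ψ' i j).totalDegree ≤ c) → IsUnit (W.ev δ) →
      ∀ β : Fin 2 → kb, pt K β δ ≠ 0 → W.relAt (e + 5 * c + 1) β ≤ W.relAt e β →
      ∀ H : ℚ, 0 ≤ H → (∀ j, W.y j ≠ 0 → -((∑ᶠ v, (W.N.N v).ν (W.y j) : ℤ) : ℚ) ≤ H) →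
      Nonempty (QD Fr (Ψ.map (pt K β)) (W.relAt e β)
        (2 * (Fintype.card J * (e + 4 * c + 1) ^ 2 + 1) ^ 2 * H / Fr.Q + C)) := by
  obtain ⟨c0, hc0, hf0⟩ := exists_f0 (J := J) hK Hs δ
  obtain ⟨CW, hCW⟩ := lemW hK Hs n C0
  have ht0 : 0 ≤ tot c0 := Finset.sum_nonneg fun v _ => hc0 v
  have ht0' : (0 : ℚ) ≤ (tot c0 : ℤ) := by exact_mod_cast ht0
  refine ⟨2 * CW + 4 * (n * C0) + n * (tot c0 : ℤ) + Fintype.card J * C0, by positivity, ?_⟩
  intro B _ _ _ hn W Ψ Ψ' t hΨ hδ h1 h2 hu β hβ hrel H hH hy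
  obtain ⟨f0, d0, u0, p0, g0, m0⟩ := hf0 B W Ψ Ψ' C0 t c hΨ h2 hu β hβ
  obtain ⟨ψ, FQ, a1, a2, a3, a4⟩ := exists_psi t h1 β hrel (d0.trans hδ) p0 m0
  have hle : t.Sg c ≤ t.Sg (2 * c) := Submodule.comap_mono (W.S_mono (by omega))
  have a1' : (t.Sg (2 * c)).map ψ = ⊤ := top_le_iff.1 (a1 ▸ Submodule.map_mono hle)
  obtain ⟨N1, b1, b2⟩ := exists_push hK W.N ψ _ a1
  obtain ⟨N2, b3, b4⟩ := exists_push hK W.N ψ _ a1'
  have hQ : (2 : ℚ) ≤ Fr.Q := by exact_mod_cast Fr.two_le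
  have hn' : (Module.finrank K B : ℚ) ≤ n := by exact_mod_cast hn
  have low : ∀ S, -(n * C0 : ℚ) ≤ W.N.ht S := fun S => by
    have h3 : -(Module.finrank K B * C0 : ℚ) ≤ W.N.ht S := by exact_mod_cast t.toTh.low hK S
    have h4 : (Module.finrank K B * C0 : ℚ) ≤ n * C0 := by gcongr
    linarith
  set m : ℚ := Fintype.card J * (e + 4 * c + 1) ^ 2 with hm
  have up : ∀ e' ≤ e + 4 * c, (W.N.ht (t.Sg e') : ℚ) ≤ (m + 1) ^ 2 * H / Fr.Q + CW := by
    intro e' he'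
    have h3 : ((Fintype.card J * (e' + 1) ^ 2 : ℕ) : ℚ) ≤ m := by
      have : (e' : ℚ) ≤ e + 4 * c := by exact_mod_cast he'
      rw [hm]
      push_cast
      gcongr
    have h4 : (Module.finrank K (W.S e') : ℚ) ≤ m :=
      le_trans (by exact_mod_cast W.finrank_S e') h3
    have h5 := hCW B hn W.N t.toTh (W.S e') (m * H) (by positivity)
      ((W.ht_S hK e' hH hy).trans (by gcongr))
    have h6 : (1 + Module.finrank K (W.S e') : ℚ) * (m * H) ≤ (m + 1) ^ 2 * H := by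
      calc _ ≤ (1 + m) * ((1 + m) * H) := by gcongr; linarith
        _ = _ := by ring
    have h7 : (CW : ℚ) ≤ CW * Fr.Q := le_mul_of_one_le_right (by positivity) (by linarith)
    rw [div_add' _ _ _ (by positivity), le_div_iff₀ (by positivity)]
    change (W.N.ht ((W.S e').comap t.T) : ℚ) * _ ≤ _
    linarith
  have hd : 0 ≤ (m + 1) ^ 2 * H / Fr.Q := by positivity
  have e2 : 2 * (m + 1) ^ 2 * H / Fr.Q = 2 * ((m + 1) ^ 2 * H / Fr.Q) := by ring
  have p1 : (0 : ℚ) ≤ n * C0 := by positivity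
  have p2 : (0 : ℚ) ≤ n * (tot c0 : ℤ) := by positivity
  have p3 : (0 : ℚ) ≤ Fintype.card J * C0 := by positivity
  have p4 : (0 : ℚ) ≤ CW := by positivity
  refine ⟨⟨N1, N2, FQ, a2, t.lo, fun v x k hx => ?_, fun v x k hx => ?_, ?_, ?_, ?_, ?_⟩⟩
  · obtain ⟨b, hb, e1, e3⟩ := (b1 v x k).1 hx
    exact (b3 v x k).2 ⟨b, hle hb, e1, e3⟩
  · obtain ⟨b, hb, rfl, e3⟩ := (b1 v x k).1 hx
    exact (b3 _ _ _).2 ⟨_, (a3 b hb).1, (a3 b hb).2, t.toTh.ge_T e3⟩
  · have h3 := b2 _ inf_le_left le_rfl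
    rw [a1] at h3
    have h4 := up c (by omega)
    have h5 := low (t.Sg c ⊓ LinearMap.ker ψ)
    rw [h3, e2]
    push_cast
    linarith
  · have h3 := b4 _ inf_le_left le_rfl
    rw [a1', a4] at h3
    have key : ∀ i, (W.N.ht ((t.Sg (e + 4 * c)).map (W.ev (MvPolynomial.X i -
        MvPolynomial.C (algebraMap kb K (β i))))) : ℚ) ≤ W.N.ht (t.Sg (e + 4 * c)) + n * C0 := by
      intro i
      have h4 := ht_map_le hK W.N W.N (W.ev (MvPolynomial.X i -
        MvPolynomial.C (algebraMap kb K (β i)))) (t.Sg (e + 4 * c)) 0 fun v b _ k hb => by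
          rw [map_sub, LinearMap.sub_apply, Finsupp.zero_apply, sub_zero]
          refine (W.ev_ge i v b k hb).sub ?_
          rw [show W.ev (MvPolynomial.C (algebraMap kb K (β i))) b = algebraMap kb K (β i) • b from
            congrArg (fun f : Module.End K B => f b) (W.ev.commutes _)]
          simpa using Nrm.Ge.smul (a := 0) (Or.inr (v.ord_const (β i)).ge) hb
      have h5 := low (t.Sg (e + 4 * c) ⊓ LinearMap.ker (W.ev (MvPolynomial.X i -
        MvPolynomial.C (algebraMap kb K (β i)))))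
      have h6 : tot (0 : Place kb K →₀ ℤ) = 0 := Finsupp.sum_zero_index
      rw [h6, mul_zero, add_zero] at h4
      have h7 := (Int.cast_le (R := ℚ)).2 h4
      push_cast at h7
      linarith
    have k0 := key 0
    have k1 := key 1
    generalize (t.Sg (e + 4 * c)).map (W.ev (MvPolynomial.X 0 -
        MvPolynomial.C (algebraMap kb K (β 0)))) = Y0 at *
    generalize (t.Sg (e + 4 * c)).map (W.ev (MvPolynomial.X 1 -
        MvPolynomial.C (algebraMap kb K (β 1)))) = Y1 at *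
    have h4 := (Int.cast_le (R := ℚ)).2 (W.N.ht_submod hK Y0 Y1)
    have h5 := (Int.cast_le (R := ℚ)).2 (ht_comap_le hK W.N (W.ev f0)
      ((Module.End.isUnit_iff _).1 u0).2 c0 hc0 (fun v b k hb => by
        simpa only [neg_add_eq_sub] using W.ev_bound (g0 v) hb) (Y0 ⊔ Y1))
    have h6 := (Int.cast_le (R := ℚ)).2
      (W.N.ht_submod hK (t.Sg (2 * c)) ((Y0 ⊔ Y1).comap (W.ev f0)))
    have h7 := low (Y0 ⊓ Y1)
    have h8 := low (t.Sg (2 * c) ⊔ (Y0 ⊔ Y1).comap (W.ev f0))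
    have h9 := up _ le_rfl
    have h10 : (Module.finrank K B : ℚ) * (tot c0 : ℤ) ≤ n * (tot c0 : ℤ) := by gcongr
    rw [h3, e2]
    push_cast at h4 h5 h6 ⊢
    linarith
  · have h3 : -(C0 : ℚ) ≤ (tot t.lo : ℤ) := by exact_mod_cast t.lo_ge
    have h4 : (Fintype.card J : ℚ) * -(C0 : ℚ) ≤ Fintype.card J * (tot t.lo : ℤ) := by gcongr
    rw [e2]
    push_cast
    linarith
  · rw [e2]
    linarith

end Pool.Agent.Lib.MP_6adaea_nt.U
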