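import Pool.Agent.Lib.MP_6adaea_nt.U.RepL
import Pool.Agent.Lib.MP_6adaea_nt.G.Gen

/-!
Generation by elementary matrices over Artinian rings.
-/

set_option linter.unusedSectionVars false

namespace Pool.Agent.Lib.MP_6adaea_nt.U
open Matrix Polynomial G
open scoped TensorProduct

variable {S S' : Type} [CommRing S] [CommRing S'] {n ι : Type} [Fintype n] [DecidableEq n]
  [Fintype ι] [DecidableEq ι]


/-- an Artinian ring has finitely many maximal ideals, so it has stable range one -/
theorem exists_unit_add_art [IsArtinianRing S] {a b c d : S} (h : c * a + d * b = 1) :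
    ∃ y, IsUnit (a + b * y) := by
  obtain ⟨m, t, ht⟩ := IsArtinian.exists_pow_succ_smul_dvd (R := S) (M := S) a 1
  refine ⟨1 - a * t, ?_⟩
  by_contra hu
  obtain ⟨I, hI, hm⟩ := exists_max_ideal_of_mem_nonunits hu
  have hp := hI.isPrime
  have h1 : a ^ m * (1 - a * t) ∈ I := by
    rw [show a ^ m * (1 - a * t) = 0 by
      simp only [smul_eq_mul, Nat.succ_eq_add_one] at ht
      linear_combination -ht]
    exact I.zero_mem
  have h2 : a ∈ I := by
    rcases hp.mem_or_mem h1 with h2 | h2
    · exact hp.mem_of_pow_mem m h2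
    · exact (I.add_mem_iff_left (I.mul_mem_left b h2)).1 hm
  refine hp.one_notMem ?_
  rcases hp.mem_or_mem ((I.add_mem_iff_right h2).1 hm) with h3 | h3
  · exact h ▸ I.add_mem (I.mul_mem_left c h2) (I.mul_mem_left d h3)
  · simpa using I.add_mem h3 (I.mul_mem_right t h2)

theorem genS_ind [IsArtinianRing S] {H : Subgroup (GL n S)} {s : S} (hH : Roots H {x | s ∣ x})
    (T : Finset n) : ∀ g : GL n S, g.val.det = 1 → GenInv s T g.val → g ∈ H := by
  induction T using Finset.induction_on with
  | empty => exact gen_diag hH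
  | insert l T hl ih =>
    have hl' := Finset.mem_insert_self l T
    have h3 : ∀ g : GL n S, g.val.det = 1 → GenInv s (insert l T) g.val → IsUnit (g.val l l) →
        (∀ i, i ≠ l → g.val i l = 0) → g ∈ H := fun g hd hg ⟨a, ha⟩ hc => by
      obtain ⟨-, u, hu, hud, hui, e⟩ := gen_col hH hl'
        (fun j => if j = l then 0 else -(a⁻¹ : Sˣ) * g.val l j) (by simp)
        (fun j => by
          split_ifs with h
          exacts [dvd_zero _, (hg.1 l j (Ne.symm h)).1.mul_left _])
        (fun j h => by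
          split_ifs at h with h1
          exacts [absurd rfl h, ((hg.1 l j (Ne.symm h1)).2 (right_ne_zero_of_mul h)).2])
      have h4 := hg.mul hui
      rw [← H.mul_mem_cancel_right hu]
      refine ih _ (by rw [Units.val_mul, det_mul, hd, hud, one_mul])
        ⟨fun i j h => ⟨(h4.1 i j h).1, fun h0 => ?_⟩, h4.2⟩
      obtain ⟨h5, h6⟩ := (h4.1 i j h).2 h0
      rw [Units.val_mul, e] at h0
      refine ⟨Finset.mem_of_mem_insert_of_ne h5 ?_, Finset.mem_of_mem_insert_of_ne h6 ?_⟩
      · rintro rfl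
        exact h0 (by rw [if_neg h.symm, ← ha]; simp)
      · rintro rfl
        exact h0 (by simp [hc i h])
    have h2 : ∀ g : GL n S, g.val.det = 1 → GenInv s (insert l T) g.val → IsUnit (g.val l l) →
        g ∈ H := fun g hd hg ⟨a, ha⟩ => by
      obtain ⟨⟨u, hu, hud, hui, -, e⟩, -⟩ := gen_col hH hl'
        (fun j => if j = l then 0 else -g.val j l * (a⁻¹ : Sˣ)) (by simp)
        (fun j => by
          split_ifs with h
          exacts [dvd_zero _, (hg.1 j l h).1.neg_right.mul_right _])
        (fun j h => by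
          split_ifs at h with h1
          exacts [absurd rfl h, ((hg.1 j l h1).2 (neg_ne_zero.1 (left_ne_zero_of_mul h))).1])
      rw [← H.mul_mem_cancel_left hu]
      refine h3 _ (by rw [Units.val_mul, det_mul, hd, hud, one_mul]) (hui.mul hg) ?_ fun i hi => ?_
      · rw [Units.val_mul, e]
        simp [← ha]
      · rw [Units.val_mul, e, if_neg hi, ← ha]
        simp
    intro g hd hg
    obtain ⟨z, hz⟩ := hg.2 l
    have h4 : g.val l l * (g⁻¹).val l l + ∑ j ∈ T, g.val l j * (g⁻¹).val j l = 1 := by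
      have h5 : (g.val * (g⁻¹).val) l l = 1 := by
        rw [← Units.val_mul, mul_inv_cancel]
        simp
      rw [← h5, mul_apply, ← Finset.sum_insert (f := fun j => g.val l j * (g⁻¹).val j l) hl]
      refine Finset.sum_subset (Finset.subset_univ _) fun j _ hj => ?_
      by_contra h6
      exact hj ((hg.1 l j fun h => hj (h ▸ hl')).2 (left_ne_zero_of_mul h6)).2
    obtain ⟨y, hy⟩ := exists_unit_add_art (a := g.val l l)
      (b := s * ∑ j ∈ T, g.val l j * (g⁻¹).val j l) (c := 1 - s ^ 2 * z * (g⁻¹).val l l)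
      (d := -(s * z)) (by linear_combination hz - s ^ 2 * z * h4)
    obtain ⟨⟨u, hu, hud, hui, e, -⟩, -⟩ := gen_col hH hl'
      (fun j => if j ∈ T then s * ((g⁻¹).val j l * y) else 0) (by simp [hl])
      (fun j => by split_ifs <;> simp)
      (fun j h => by
        split_ifs at h with h1
        exacts [Finset.mem_insert_of_mem h1, absurd rfl h])
    rw [← H.mul_mem_cancel_right hu]
    refine h2 _ (by rw [Units.val_mul, det_mul, hd, hud, one_mul]) (hg.mul hui) ?_
    rw [Units.val_mul, e]
    refine (congrArg IsUnit (congrArg _ ?_)).mp hy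
    simp only [mul_ite, mul_zero, Finset.sum_ite_mem, Finset.univ_inter, Finset.mul_sum,
      Finset.sum_mul]
    exact Finset.sum_congr rfl fun j _ => by ring

/-- repeat `gen_ind` and `mem_of_roots` of `G/Gen.lean` (with `s = 1`), replacing
`exists_unit_add` -/
theorem hasSL_of_roots_art [IsArtinianRing S] {H : Subgroup (GL n S)} (hH : Roots H Set.univ) :
    HasSL H := by
  intro g hd
  refine genS_ind (s := 1) (hH.mono (Set.subset_univ _)) Finset.univ g hd
    ⟨fun i j h => ⟨one_dvd _, fun _ => by simp⟩, fun i => by simp⟩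

/-- `AdjoinRoot (qd t)` is finite over `F`, so Artinian. The elements of `GL` all of whose lifts
`s` have `rep s ∈ P`, together with the inverse, form a subgroup. -/
theorem gen_rep (F : Type) [Field F] [Algebra F S] [Module.Finite F S] (M : ℕ) (t : Fin 2 → S)
    (P : Submonoid (Matrix (JJ n M) (JJ n M) S))
    (h : ∀ a b : n, a ≠ b → ∀ c : S[X], rep M t (el a b c) ∈ P) {s : Matrix n n S[X]}
    (hs : qd t ∣ s.det - 1) : rep M t s ∈ P := by
  have hfin : Module.Finite S (AdjoinRoot (qd t)) := (qd_monic t).finite_adjoinRoot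
  have hfin' : Module.Finite F (AdjoinRoot (qd t)) := Module.Finite.trans S _
  have hart : IsArtinianRing (AdjoinRoot (qd t)) := IsArtinianRing.of_finite F _
  have hlift : ∀ g : Matrix n n (AdjoinRoot (qd t)), ∃ B : Matrix n n S[X],
      B.map (AdjoinRoot.mk (qd t)) = g := fun g => by
    choose B hB using fun i j => AdjoinRoot.mk_surjective (g i j)
    exact ⟨of B, by ext i j; exact hB i j⟩
  let Q : Submonoid (GL n (AdjoinRoot (qd t))) :=
    { carrier := {g | ∀ B : Matrix n n S[X], B.map (AdjoinRoot.mk (qd t)) = g.val →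
        rep M t B ∈ P}
      one_mem' := fun B hB => by
        have h1 : Cong (qd t) B 1 := cong_iff_map.2 (by
          rw [hB, Matrix.map_one _ (map_zero _) (map_one _)]; rfl)
        rw [rep_congr M h1, rep_one]
        exact P.one_mem
      mul_mem' := fun {g g'} hg hg' B hB => by
        obtain ⟨A, hA⟩ := hlift g.val
        obtain ⟨A', hA'⟩ := hlift g'.val
        have h1 : Cong (qd t) B (A * A') := cong_iff_map.2 (by
          rw [hB, Matrix.map_mul, hA, hA']; rfl)
        rw [rep_congr M h1, rep_mul]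
        exact P.mul_mem (hg A hA) (hg' A' hA') }
  let H : Subgroup (GL n (AdjoinRoot (qd t))) :=
    { carrier := {g | g ∈ Q ∧ g⁻¹ ∈ Q}
      one_mem' := ⟨Q.one_mem, by rw [inv_one]; exact Q.one_mem⟩
      mul_mem' := fun {g g'} hg hg' =>
        ⟨Q.mul_mem hg.1 hg'.1, by rw [_root_.mul_inv_rev]; exact Q.mul_mem hg'.2 hg.2⟩
      inv_mem' := fun {g} hg => ⟨hg.2, by rw [inv_inv]; exact hg.1⟩ }
  have hrt : ∀ (i j : n) (hij : i ≠ j) (x : AdjoinRoot (qd t)), rt hij x ∈ Q := by
    intro i j hij x B hB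
    obtain ⟨c, rfl⟩ := AdjoinRoot.mk_surjective x
    have h1 : Cong (qd t) B (el i j c) := cong_iff_map.2 (by
      rw [hB, rt_val, el, Matrix.map_add _ (map_add _),
        Matrix.map_one _ (map_zero _) (map_one _), Matrix.map_single _ _ _ _])
    rw [rep_congr M h1]
    exact h i j hij c
  have hR : Roots H Set.univ := fun i j hij x _ =>
    ⟨hrt i j hij x, by rw [← rt_neg]; exact hrt i j hij _⟩
  have hdet : (s.map (AdjoinRoot.mk (qd t))).det = 1 := by
    have h1 := (AdjoinRoot.mk (qd t)).map_det s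
    have h2 : AdjoinRoot.mk (qd t) s.det = AdjoinRoot.mk (qd t) 1 := AdjoinRoot.mk_eq_mk.2 hs
    rw [map_one] at h2
    exact h1.symm.trans h2
  have hu : IsUnit (s.map (AdjoinRoot.mk (qd t))) :=
    (Matrix.isUnit_iff_isUnit_det _).2 (hdet ▸ isUnit_one)
  obtain ⟨g, hg⟩ := hu
  exact (hasSL_of_roots_art hR g (hg ▸ hdet)).1 s hg.symm

variable {F : Type} [Field F] [Infinite F] [Algebra F S] {W : Type} [AddCommGroup W] [Module S W]
  {M : ℕ} {t : Fin 2 → S}

theorem genS_vanish (N : ℕ) (w : ℕ → W)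
    (h : ∀ c : F, ∑ i ∈ Finset.range N, algebraMap F S c ^ i • w i = 0) :
    ∀ i ∈ Finset.range N, w i = 0 := by
  let _ : Module F W := Module.compHom W (algebraMap F S)
  intro i hi
  rw [← Module.forall_dual_apply_eq_zero_iff F]
  intro φ
  have h1 : (∑ i ∈ Finset.range N, monomial i (φ (w i)) : F[X]) = 0 := by
    refine Polynomial.funext fun c => ?_
    have h2 := congrArg φ (h c)
    rw [map_sum, map_zero] at h2
    rw [eval_finsetSum, eval_zero, ← h2]
    refine Finset.sum_congr rfl fun k _ => ?_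
    have h3 : algebraMap F S c ^ k • w k = c ^ k • w k := by
      rw [← map_pow]; rfl
    rw [eval_monomial, h3, map_smul, smul_eq_mul, mul_comm]
  have h2 := congrArg (fun p : F[X] => p.coeff i) h1
  simpa [finsetSum_coeff, coeff_monomial, hi] using h2

theorem genS_const (N : ℕ) (w : ℕ → W) (w0 : W)
    (h : ∀ c : F, ∑ i ∈ Finset.range (N + 1), algebraMap F S c ^ i • w i = w0) (c : S) :
    ∑ i ∈ Finset.range (N + 1), c ^ i • w i = w0 := by
  have e : ∀ c : S, ∑ i ∈ Finset.range (N + 1), c ^ i • (w i - if i = 0 then w0 else 0) =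
      ∑ i ∈ Finset.range (N + 1), c ^ i • w i - w0 := fun c => by
    simp only [smul_sub, Finset.sum_sub_distrib]
    congr 1
    rw [Finset.sum_range_succ']
    simp
  have h1 := genS_vanish (F := F) (S := S) (N + 1) (fun i => w i - if i = 0 then w0 else 0)
    fun c => by rw [e, h, sub_self]
  rw [← sub_eq_zero, ← e]
  exact Finset.sum_eq_zero fun i hi => by rw [h1 i hi, smul_zero]

theorem genS_expand (a b : n) (u : S[X]) : ∃ (N : ℕ) (P : ℕ → Matrix (JJ n M) (JJ n M) S),
    ∀ c : S, rep M t (el a b (C c * u)) = ∑ i ∈ Finset.range (N + 1), c ^ i • P i := by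
  obtain ⟨Q, hQ⟩ : ∃ Q : Matrix (JJ n M) (JJ n M) S[X],
      Q = rep M (fun i => C (t i)) (el a b (C X * u.map C)) := ⟨_, rfl⟩
  refine ⟨Finset.univ.sup fun p : JJ n M × JJ n M => (Q p.1 p.2).natDegree,
    fun i => of fun j j' => (Q j j').coeff i, fun c => ?_⟩
  have h1 : rep M t (el a b (C c * u)) = Q.map (evalRingHom c) := by
    have h2 : (evalRingHom c).comp C = RingHom.id S := by ext; simp
    rw [hQ, rep_map, pmap_el, Polynomial.map_mul, Polynomial.map_map, h2, Polynomial.map_id,
      map_C]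
    simp
  rw [h1]
  ext j j'
  rw [Matrix.map_apply, coe_evalRingHom, Matrix.sum_apply,
    eval_eq_sum_range' (Nat.lt_succ_of_le (Finset.le_sup
      (f := fun p : JJ n M × JJ n M => (Q p.1 p.2).natDegree) (Finset.mem_univ (j, j'))))]
  refine Finset.sum_congr rfl fun i _ => ?_
  exact mul_comm _ _

/-- `rep M t (el a b (C c * u)) = ∑ i ≤ N, c ^ i • P i` with matrices `P i` that do not depend on
`c` (`rep_map` from the polynomial ring over `S`). A polynomial with coefficients in `W` that
vanishes on `F` is zero (Vandermonde, or `F`-linear functionals). -/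
theorem poly_ext1 (L : Matrix (JJ n M) (JJ n M) S →ₗ[S] W) (w0 : W) (a b : n) (u : S[X])
    (h : ∀ c : F, L (rep M t (el a b (C (algebraMap F S c) * u))) = w0) (c : S) :
    L (rep M t (el a b (C c * u))) = w0 := by
  obtain ⟨N, P, hP⟩ := genS_expand (M := M) (t := t) a b u
  have e : ∀ c : S, L (rep M t (el a b (C c * u))) =
      ∑ i ∈ Finset.range (N + 1), c ^ i • L (P i) := fun c => by
    rw [hP, map_sum]
    exact Finset.sum_congr rfl fun i _ => map_smul _ _ _
  rw [e]
  exact genS_const (F := F) N _ w0 (fun c => by rw [← e, h]) c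

/-- `exists_lin`, `el_mul` and `poly_ext1` twice -/
theorem poly_ext (L : Matrix (JJ n M) (JJ n M) S →ₗ[S] W) (w0 : W) {a b : n} (hab : a ≠ b)
    (h : ∀ c0 c1 : F, L (rep M t (elc S a b c0 c1)) = w0) (c : S[X]) :
    L (rep M t (el a b c)) = w0 := by
  obtain ⟨c0, c1, hc⟩ := exists_lin t c
  rw [rep_congr M (cong_el hc a b)]
  have h1 : ∀ (c0 : F) (c1 : S),
      L (rep M t (el a b (C (algebraMap F S c0) * 1)) * rep M t (el a b (C c1 * X))) = w0 := by
    intro c0 c1
    refine poly_ext1 (F := F) (L ∘ₗ LinearMap.mulLeft S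
      (rep M t (el a b (C (algebraMap F S c0) * 1)))) w0 a b X (fun c1 => ?_) c1
    rw [LinearMap.comp_apply, LinearMap.mulLeft_apply, ← rep_mul, el_mul hab, mul_one]
    exact h c0 c1
  have h2 := poly_ext1 (F := F) (L ∘ₗ LinearMap.mulRight S (rep M t (el a b (C c1 * X)))) w0 a b 1
    (fun c0 => h1 c0 c1) c0
  rwa [LinearMap.comp_apply, LinearMap.mulRight_apply, ← rep_mul, el_mul hab, mul_one] at h2

/-- multiplication by a fixed vector -/
def genS_mv (w : ι → S) : Matrix ι ι S →ₗ[S] (ι → S) where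
  toFun g := g *ᵥ w
  map_add' g g' := add_mulVec g g' w
  map_smul' c g := smul_mulVec c g w

theorem stab_fix (F' : Type) [Field F'] [Algebra F' S] [Module.Finite F' S] {w : JJ n M → S}
    (h : ∀ a b : n, a ≠ b → ∀ c0 c1 : F, rep M t (elc S a b c0 c1) *ᵥ w = w)
    {s : Matrix n n S[X]} (hs : qd t ∣ s.det - 1) : rep M t s *ᵥ w = w := by
  let P : Submonoid (Matrix (JJ n M) (JJ n M) S) :=
    { carrier := {g | g *ᵥ w = w}
      one_mem' := one_mulVec w
      mul_mem' := fun {g g'} (hg : g *ᵥ w = w) (hg' : g' *ᵥ w = w) => by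
        change (g * g') *ᵥ w = w
        rw [← mulVec_mulVec, hg', hg] }
  exact gen_rep F' M t P (fun a b hab c => poly_ext (F := F) (genS_mv w) w hab (h a b hab) c) hs

theorem stab_sub (F' : Type) [Field F'] [Algebra F' S] [Module.Finite F' S]
    {Y : Submodule S (JJ n M → S)}
    (h : ∀ a b : n, a ≠ b → ∀ c0 c1 : F, ∀ y ∈ Y, rep M t (elc S a b c0 c1) *ᵥ y ∈ Y)
    {s : Matrix n n S[X]} (hs : qd t ∣ s.det - 1) : ∀ y ∈ Y, rep M t s *ᵥ y ∈ Y := by
  let P : Submonoid (Matrix (JJ n M) (JJ n M) S) :=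
    { carrier := {g | ∀ y ∈ Y, g *ᵥ y ∈ Y}
      one_mem' := fun y hy => by rwa [one_mulVec]
      mul_mem' := fun {g g'} hg hg' y hy => by
        rw [← mulVec_mulVec]
        exact hg _ (hg' y hy) }
  refine gen_rep F' M t P (fun a b hab c y hy => ?_) hs
  exact (Submodule.Quotient.mk_eq_zero Y).1 (poly_ext (F := F) (Y.mkQ ∘ₗ genS_mv y) 0 hab
    (fun c0 c1 => (Submodule.Quotient.mk_eq_zero Y).2 (h a b hab c0 c1 y hy)) c)

/-- conjugation: if `rep A *ᵥ w` is fixed by the elementary matrices then so is `w` -/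
theorem stab_conj (F' : Type) [Field F'] [Algebra F' S] [Module.Finite F' S] {w : JJ n M → S}
    {A A' : Matrix n n S[X]} (h1 : Cong (qd t) (A * A') 1) (h2 : Cong (qd t) (A' * A) 1)
    (h : ∀ a b : n, a ≠ b → ∀ c0 c1 : F,
      rep M t (elc S a b c0 c1) *ᵥ (rep M t A *ᵥ w) = rep M t A *ᵥ w)
    {s : Matrix n n S[X]} (hs : qd t ∣ s.det - 1) : rep M t s *ᵥ w = w := by
  have h3 : qd t ∣ (A * s * A').det - 1 := by
    have h4 := h1.det
    rw [det_one, det_mul] at h4
    rw [det_mul, det_mul,
      show A.det * s.det * A'.det - 1 = A.det * A'.det * (s.det - 1) + (A.det * A'.det - 1) by ring]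
    exact dvd_add (hs.mul_left _) h4
  have h5 := stab_fix (F := F) F' h h3
  have h6 : rep M t A' * rep M t A = 1 := by rw [← rep_mul, rep_congr M h2, rep_one]
  have h7 := congrArg (fun v => rep M t A' *ᵥ v) h5
  simp only [mulVec_mulVec, rep_mul] at h7
  rwa [show rep M t A' * (rep M t A * rep M t s * rep M t A' * rep M t A) =
    (rep M t A' * rep M t A) * rep M t s * (rep M t A' * rep M t A) by
      simp only [Matrix.mul_assoc], h6, Matrix.one_mul, Matrix.mul_one, one_mulVec] at h7

end Pool.Agent.Lib.MP_6adaea_nt.U
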