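import Pool.Agent.Lib.MP_6adaea_nt.U.NormF
import Pool.Agent.Lib.MP_6adaea_nt.U.GenS

/-!
Subgroups normalised by `SL` over a two point algebra.
-/

set_option linter.unusedSectionVars false

namespace Pool.Agent.Lib.MP_6adaea_nt.U
open Matrix Polynomial G
open scoped TensorProduct

variable {n : Type} [Fintype n] [DecidableEq n] {F : Type} [Field F] [Infinite F]

section aux
variable {R : Type} [CommRing R] {π : R →+* F} {ι : F →+* R} {η : R}

private lemma normI_smul (hη : ∀ x, π x = 0 → η * x = 0) {Y Z : Matrix n n R}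
    (h : Y.map π = Z.map π) : η • Y = η • Z := by
  ext u v
  have h1 : π (Y u v) = π (Z u v) := congrFun (congrFun h u) v
  have := hη (Y u v - Z u v) (by rw [map_sub, h1, sub_self])
  simp only [Matrix.smul_apply, smul_eq_mul]
  linear_combination this

private lemma normI_sq : ∃ a : Fˣ, (a : F) ^ 2 - 1 ≠ 0 := by
  classical
  obtain ⟨a, ha⟩ := Infinite.exists_notMem_finset ({0, 1, -1} : Finset F)
  simp only [Finset.mem_insert, Finset.mem_singleton, not_or] at ha
  refine ⟨Units.mk0 a ha.1, fun h => ?_⟩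
  rcases mul_self_eq_one_iff.1 ((sq a).symm.trans (sub_eq_zero.1 h)) with h | h
  exacts [ha.2.1 h, ha.2.2 h]

private lemma normI_single (f : F →+* R) (a b : n) (x : F) :
    (single a b x : Matrix n n F).map f = single a b (f x) := by
  ext u v
  simp [single, apply_ite f]

private lemma normI_single' (f : R →+* F) (a b : n) (x : R) :
    (single a b x : Matrix n n R).map f = single a b (f x) := by
  ext u v
  simp [single, apply_ite f]

private lemma normI_comm {N : Subgroup (GL n R)}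
    (hN : ∀ s : GL n R, s.val.det = 1 → ∀ x ∈ N, s * x * s⁻¹ ∈ N) {g s : GL n R} (hg : g ∈ N)
    (hs : s.val.det = 1) : g * s * g⁻¹ * s⁻¹ ∈ N := by
  have := N.mul_mem hg (hN s hs _ (N.inv_mem hg))
  simpa only [mul_assoc] using this

/-- the first layer over a ring of dual numbers -/
private def normI_lay (η : R) (h : η * η = 0) (Y : Matrix n n R) : GL n R where
  val := 1 + η • Y
  inv := 1 + η • (-Y)
  val_inv := by
    simp only [Matrix.add_mul, Matrix.mul_add, Matrix.one_mul, Matrix.mul_one, Matrix.smul_mul,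
      Matrix.mul_smul, smul_add, smul_smul, h, zero_smul]
    simp
  inv_val := by
    simp only [Matrix.add_mul, Matrix.mul_add, Matrix.one_mul, Matrix.mul_one, Matrix.smul_mul,
      Matrix.mul_smul, smul_add, smul_smul, h, zero_smul]
    simp

private lemma normI_lay_add (h : η * η = 0) (Y Z : Matrix n n R) :
    normI_lay η h (Y + Z) = normI_lay η h Y * normI_lay η h Z := by
  ext1
  simp only [normI_lay, Units.val_mul, Matrix.add_mul, Matrix.mul_add, Matrix.one_mul,
    Matrix.mul_one, Matrix.smul_mul, Matrix.mul_smul, smul_add, smul_smul, h, zero_smul]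
  abel

private lemma normI_dual (hι : ∀ x, π (ι x) = x) (hη : ∀ x, π x = 0 → η * x = 0)
    (hk : ∀ x, π x = 0 ↔ η ∣ x) (N : Subgroup (GL n R))
    (hN : ∀ s : GL n R, s.val.det = 1 → ∀ x ∈ N, s * x * s⁻¹ ∈ N) {g : GL n R} (hg : g ∈ N)
    (hs : ¬Scal (g.val.map π)) : Roots N Set.univ := by
  have h2 : η * η = 0 := hη _ ((hk _).2 dvd_rfl)
  have hr : ∀ s : GL n F, red π (red ι s) = s := fun s => by
    ext u v; simp [hι]
  have h0 : HasSL (N.map (red π)) := by
    refine hasSL_of_roots_art (roots_of_normal _ ?_ (Subgroup.mem_map_of_mem _ hg) hs)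
    rintro s hs _ ⟨x, hx, rfl⟩
    exact ⟨_, hN (red ι s) (by rw [red_det, hs, map_one]) x hx, by
      simp only [map_mul, map_inv, hr]⟩
  obtain ⟨a, ha⟩ := normI_sq (F := F)
  have h1 : ∀ (i j : n) (h : i ≠ j) (y : R), rt h (η * y) ∈ N := by
    intro i j h y
    obtain ⟨κ, hκ, e⟩ := h0 _ (tor_det h a)
    set y' := y * ι ((a : F) ^ 2 - 1)⁻¹ with hy'
    have h3 := normI_comm hN hκ (rt_det h (η * y'))
    have h4 : κ * rt h (η * y') * κ⁻¹ = rt h (η * (y' + y)) := by
      ext1
      have e1 := congrArg Units.val (tor_conj_rt h a (π y'))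
      rw [ad_val, rt_val, rt_val, ad_add, ad_id, add_right_inj] at e1
      rw [ad_val, rt_val, rt_val, ad_add, ad_id, ← smul_eq_mul, ← smul_eq_mul, ← smul_single,
        ← smul_single, ad_smul, add_right_inj]
      refine normI_smul hη ?_
      rw [ad_map, e, normI_single', normI_single', e1, hy', map_add, map_mul, hι]
      congr 1
      field_simp
      ring
    rwa [h4, ← rt_neg, ← rt_add, show η * (y' + y) + -(η * y') = η * y by ring] at h3
  have h3 : ∀ Y : Matrix n n R, (∀ i, Y i i = 0) → normI_lay η h2 Y ∈ N := by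
    intro Y hY
    rw [matrix_eq_sum_single Y, ← Finset.sum_product']
    refine Finset.sum_induction _ (fun Z => normI_lay η h2 Z ∈ N)
      (fun Y Z hY hZ => normI_lay_add h2 Y Z ▸ N.mul_mem hY hZ) ?_ fun p _ => ?_
    · have : normI_lay η h2 (0 : Matrix n n R) = 1 := Units.ext (by simp [normI_lay])
      exact this ▸ N.one_mem
    · by_cases hp : p.1 = p.2
      · have : normI_lay η h2 (single p.1 p.2 (Y p.1 p.2)) = 1 :=
          Units.ext (by simp [normI_lay, hp, hY])
        exact this ▸ N.one_mem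
      · have : normI_lay η h2 (single p.1 p.2 (Y p.1 p.2)) = rt hp (η * Y p.1 p.2) :=
          Units.ext (by simp [normI_lay, smul_single])
        exact this ▸ h1 _ _ hp _
  intro i j h x _
  set c := π x * ((a : F) ^ 2 - 1)⁻¹ with hc
  obtain ⟨u, hu, e⟩ := h0 _ (rt_det h c)
  have e5 : red π ((rt h (ι c))⁻¹ * u) = 1 := by
    rw [map_mul, map_inv, e, red_rt, hι, inv_mul_cancel]
  have e6 : ∀ k l, ∃ y, (((rt h (ι c))⁻¹ * u).val - 1) k l = η * y := fun k l => by
    refine (hk _).1 ?_
    have := congrArg (fun w : GL n F => w.val k l) e5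
    simp only [red_val, map_apply, Units.val_one] at this
    rw [Matrix.sub_apply, map_sub, this, Matrix.one_apply, Matrix.one_apply, apply_ite π, map_one,
      map_zero, sub_self]
  choose Y hY using e6
  set D : Matrix n n R := diagonal fun k => Y k k with hD
  have e7 : (rt h (ι c))⁻¹ * u = normI_lay η h2 D * normI_lay η h2 (Matrix.of Y - D) := by
    rw [← normI_lay_add, add_sub_cancel]
    ext1
    change _ = 1 + η • Matrix.of Y
    rw [← sub_eq_iff_eq_add']
    ext k l
    rw [hY, Matrix.smul_apply, smul_eq_mul, of_apply]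
  have e8 : rt h (ι c) * normI_lay η h2 D ∈ N := by
    have := N.mul_mem hu (N.inv_mem (h3 (Matrix.of Y - D) fun k => by simp [hD]))
    rwa [inv_mul_eq_iff_eq_mul.1 e7, ← mul_assoc, mul_inv_cancel_right] at this
  set t : GL n R := tor i j (Units.map ι.toMonoidHom a) with ht
  have e9 : t * normI_lay η h2 D * t⁻¹ = normI_lay η h2 D := by
    ext1
    rw [ad_val]
    change ad t (1 + η • D) = 1 + η • D
    rw [ad_add, ad_id, ad_smul]
    congr 2
    ext k l
    rw [ht, tor, ad_dg_apply]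
    by_cases hkl : k = l
    · subst hkl
      rw [mul_right_comm, Units.mul_inv, one_mul]
    · simp [hD, hkl]
  have e10 := N.mul_mem (hN t (tor_det h _) _ e8) (N.inv_mem e8)
  rw [show t * (rt h (ι c) * normI_lay η h2 D) * t⁻¹ =
      t * rt h (ι c) * t⁻¹ * (t * normI_lay η h2 D * t⁻¹) by group, e9, ht, tor_conj_rt,
    _root_.mul_inv_rev, ← mul_assoc, mul_inv_cancel_right, ← rt_neg, ← rt_add] at e10
  obtain ⟨y, hy⟩ := (hk (x - ι (π x))).1 (by rw [map_sub, hι, sub_self])
  have e11 := N.mul_mem e10 (h1 i j h y)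
  rw [← rt_add] at e11
  convert e11 using 2
  have : π x = (a : F) ^ 2 * c - c := by rw [hc]; field_simp
  have h7 : ι (π x) = ι a ^ 2 * ι c - ι c := by
    have h8 := congrArg ι this
    simpa only [map_sub, map_mul, map_pow] using h8
  change x = ι a ^ 2 * ι c + -ι c + η * y
  linear_combination hy + h7

/-- matrices supported at one point -/
private def normI_sig (ι : F →+* R) (η : R) (h : η * η = η) : Matrix n n F →* Matrix n n R where
  toFun s := 1 + η • (s.map ι - 1)
  map_one' := by simp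
  map_mul' s t := by
    simp only [Matrix.map_mul, Matrix.add_mul, Matrix.mul_add, Matrix.one_mul, Matrix.mul_one,
      Matrix.smul_mul, Matrix.mul_smul, smul_add, smul_smul, h, Matrix.sub_mul, Matrix.mul_sub,
      smul_sub]
    abel

private lemma normI_split (hι : ∀ x, π (ι x) = x) (hη : ∀ x, π x = 0 → η * x = 0)
    (h1 : π η = 1) (N : Subgroup (GL n R))
    (hN : ∀ s : GL n R, s.val.det = 1 → ∀ x ∈ N, s * x * s⁻¹ ∈ N) {g : GL n R} (hg : g ∈ N)
    (hs : ¬Scal (g.val.map π)) {a b : n} (h : a ≠ b) (x : F) : rt h (η * ι x) ∈ N := by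
  have : Nonempty n := ⟨a⟩
  have h2 : η * η = η := by
    have := hη (η - 1) (by rw [map_sub, h1, map_one, sub_self])
    linear_combination this
  set σ : GL n F →* GL n R := Units.map (normI_sig ι η h2) with hσ
  have hv : ∀ s, (σ s).val = 1 + η • (s.val.map ι - 1) := fun s => rfl
  have hr : ∀ (i j : n) (h : i ≠ j) (y : F), σ (rt h y) = rt h (η * ι y) := by
    intro i j h y
    ext1
    rw [hv, rt_val, rt_val, Matrix.map_add _ (map_add ι), normI_single,
      Matrix.map_one _ (map_zero ι) (map_one ι), add_sub_cancel_left, smul_single, smul_eq_mul]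
  have hn : HasSL (Subgroup.normalizer (N.comap σ : Set (GL n F))) := by
    refine hasSL_of_roots_art fun i j h y _ => Subgroup.mem_normalizer_iff.2 fun u => ?_
    simp only [Subgroup.mem_comap, map_mul, map_inv, hr]
    refine ⟨hN _ (rt_det _ _) _, fun hu => ?_⟩
    have := hN _ (rt_det h (-(η * ι y))) _ hu
    rw [rt_neg] at this
    simpa [mul_assoc] using this
  have hc : ∀ s : GL n F, g * σ s * g⁻¹ = σ (red π g * s * (red π g)⁻¹) := by
    intro s
    ext1
    rw [ad_val, hv, hv, ad_val, ad_add, ad_id, ad_smul, add_right_inj]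
    refine normI_smul hη ?_
    have e : ∀ Z : Matrix n n F, (Z.map ι - 1).map π = Z - 1 := fun Z => by
      ext u v
      simp [hι, Matrix.one_apply, apply_ite π]
    rw [ad_map, e, e, ad_sub, ad_id]
  obtain ⟨i, j, hij, h3⟩ := exists_not_scal (g := red π g) hs
  obtain ⟨y, hy⟩ : ∃ y : F, ¬Scal (red π g * rt hij y * (red π g)⁻¹ * (rt hij y)⁻¹).val := by
    by_contra hcon
    push Not at hcon
    obtain ⟨z, hz⟩ := normI_sq (F := F)
    have e : ∀ y : F, (red π g * rt hij y * (red π g)⁻¹ * (rt hij y)⁻¹).val =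
        1 + y • (ad (red π g) (single i j 1) - single i j 1) -
          (y * y) • (ad (red π g) (single i j 1) * single i j 1) := fun y => by
      have e1 : single i j y = y • (single i j 1 : Matrix n n F) := by simp [smul_single]
      have e2 : single i j (-y) = (-y) • (single i j 1 : Matrix n n F) := by
        rw [smul_single, smul_eq_mul, mul_one]
      rw [Units.val_mul, ad_val, rt_val, rt_inv_val, ad_add, ad_id, e1, e2, ad_smul]
      simp only [Matrix.add_mul, Matrix.mul_add, Matrix.one_mul, Matrix.mul_one, Matrix.smul_mul,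
        Matrix.mul_smul]
      module
    obtain ⟨c1, e1⟩ := hcon 1
    obtain ⟨c2, e2⟩ := hcon z
    rw [e] at e1 e2
    have hz0 : (z : F) ≠ 0 := z.ne_zero
    have hz1 : (z : F) - 1 ≠ 0 := fun h => hz (by rw [sub_eq_zero.1 h]; ring)
    refine h3 ⟨((z : F) * (z - 1))⁻¹ * ((z * z) * (c1 - 1) - (c2 - 1)), ?_⟩
    rw [← smul_smul, eq_inv_smul_iff₀ (mul_ne_zero hz0 hz1)]
    linear_combination (norm := module) ((z : F) * z) • e1 - e2
  have h4 : red π g * rt hij y * (red π g)⁻¹ * (rt hij y)⁻¹ ∈ N.comap σ := by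
    rw [Subgroup.mem_comap, map_mul, ← hc, map_inv, hr]
    exact normI_comm hN hg (rt_det _ _)
  have h5 := roots_of_normal (N.comap σ)
    (fun s hs u hu => (Subgroup.mem_normalizer_iff.1 (hn s hs) u).1 hu) h4 hy h x trivial
  rwa [Subgroup.mem_comap, hr] at h5

end aux

/-- `R = AdjoinRoot (qd β)`. If `β 0 ≠ β 1`: commutators of `g` with root elements supported at
`β i` give an element of `N` that is trivial at the other point and nonscalar at `β i`
(`exists_not_scal`); apply `roots_of_normal` to the image of `N ⊓ ker`. If `β 0 = β 1`,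
`ε = X - β`: the image of `N` mod `ε` contains `SL` (`hasSL_of_roots_art`); commutators
`⁅ν, 1 + ε • Y⁆` give `1 + ε • (ad ν Y - Y)`, so all `rt h (ε * x)` and, by conjugation, all
`1 + ε • Y` with trace zero; `rt h c` is congruent to a commutator of an element of `N` with an
element of determinant one. -/
theorem norm_inf (β : Fin 2 → F) (N : Subgroup (GL n (AdjoinRoot (qd β))))
    (hN : ∀ s : GL n (AdjoinRoot (qd β)), s.val.det = 1 → ∀ x ∈ N, s * x * s⁻¹ ∈ N)
    (i : Fin 2) {g : GL n (AdjoinRoot (qd β))} (hg : g ∈ N) {A : Matrix n n F[X]}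
    (hA : A.map (AdjoinRoot.mk (qd β)) = g.val) (hs : ¬Scal (A.map (eval (β i)))) {a b : n}
    (h : a ≠ b) (c : F[X]) (hc : ∀ l, β l ≠ β i → c.eval (β l) = 0) :
    rt h (AdjoinRoot.mk (qd β) c) ∈ N := by
  obtain ⟨j, hj, hq⟩ : ∃ j : Fin 2, (∀ l, l = i ∨ l = j) ∧
      qd β = (X - C (β j)) * (X - C (β i)) := by
    fin_cases i
    · exact ⟨1, by decide, mul_comm _ _⟩
    · exact ⟨0, by decide, rfl⟩
  set π : AdjoinRoot (qd β) →+* F :=
    AdjoinRoot.lift (RingHom.id F) (β i) (by rw [hq]; simp [eval₂_mul]) with hπ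
  have hm : ∀ f : F[X], π (AdjoinRoot.mk _ f) = f.eval (β i) := fun f => by
    rw [hπ, AdjoinRoot.lift_mk]; rfl
  have hι : ∀ x, π (AdjoinRoot.of _ x) = x := fun x => by rw [hπ, AdjoinRoot.lift_of]; rfl
  have hη : ∀ x, π x = 0 → AdjoinRoot.mk (qd β) (X - C (β j)) * x = 0 := fun x hx => by
    obtain ⟨f, rfl⟩ := AdjoinRoot.mk_surjective x
    rw [← map_mul, AdjoinRoot.mk_eq_zero, hq]
    exact mul_dvd_mul_left _ (dvd_iff_isRoot.2 ((hm f).symm.trans hx))
  have hs' : ¬Scal (g.val.map π) := by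
    rw [← hA, Matrix.map_map]
    convert hs using 3
    exact funext hm
  by_cases hβ : β j = β i
  · refine normI_dual hι hη (fun x => ⟨fun hx => ?_, ?_⟩) N hN hg hs' h _ trivial
    · obtain ⟨f, rfl⟩ := AdjoinRoot.mk_surjective x
      exact map_dvd _ (hβ ▸ dvd_iff_isRoot.2 ((hm f).symm.trans hx))
    · rintro ⟨y, rfl⟩
      rw [map_mul, hm, hβ]
      simp
  · have hne : β i - β j ≠ 0 := sub_ne_zero.2 (Ne.symm hβ)
    have h1 : π (AdjoinRoot.of _ (β i - β j)⁻¹ * AdjoinRoot.mk (qd β) (X - C (β j))) = 1 := by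
      rw [map_mul, hι, hm]
      simp [hne]
    have h2 : ∀ x, π x = 0 →
        AdjoinRoot.of _ (β i - β j)⁻¹ * AdjoinRoot.mk (qd β) (X - C (β j)) * x = 0 :=
      fun x hx => by rw [mul_assoc, hη x hx, mul_zero]
    have h3 := normI_split hι h2 h1 N hN hg hs' h (c.eval (β i))
    convert h3 using 2
    obtain ⟨d, hd⟩ := dvd_iff_isRoot.2 (hc j hβ)
    have h4 := h2 (AdjoinRoot.mk _ c - AdjoinRoot.of _ (c.eval (β i)))
      (by rw [map_sub, hm, hι, sub_self])
    have h5 := hη _ (show π (1 - AdjoinRoot.of _ (β i - β j)⁻¹ *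
      AdjoinRoot.mk (qd β) (X - C (β j))) = 0 by rw [map_sub, h1, map_one, sub_self])
    have h6 : AdjoinRoot.mk (qd β) c =
        AdjoinRoot.mk (qd β) (X - C (β j)) * AdjoinRoot.mk (qd β) d := by rw [← map_mul, ← hd]
    linear_combination h4 + AdjoinRoot.mk (qd β) d * h5 + (1 - AdjoinRoot.of _ (β i - β j)⁻¹ *
      AdjoinRoot.mk (qd β) (X - C (β j))) * h6

/-- `N` = the invertible matrices whose lifts act on `Y` by a scalar. If `el a b c` acts by `χ`
then `χ ^ p = 1` or `Y = ⊥`. -/
theorem norm_rep (p : ℕ) [Fact p.Prime] [CharP F p] {M : ℕ} (β : Fin 2 → F)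
    (Y : Submodule F (JJ n M → F))
    (hY : ∀ s : Matrix n n F[X], qd β ∣ s.det - 1 → ∀ y ∈ Y, rep M β s *ᵥ y ∈ Y) (i : Fin 2)
    {a b : n} (h : a ≠ b) {c : F[X]} (hc : ∀ l, β l ≠ β i → c.eval (β l) = 0) {y : JJ n M → F}
    (hy : y ∈ Y) (hne : rep M β (el a b c) *ᵥ y ≠ y) {A A' : Matrix n n F[X]}
    (h1 : Cong (qd β) (A * A') 1) (h2 : Cong (qd β) (A' * A) 1)
    (hA : ∃ c : F, ∀ y ∈ Y, rep M β A *ᵥ y = c • y) : Scal (A.map (eval (β i))) := by
  by_contra hs
  have hl : ∀ g : GL n (AdjoinRoot (qd β)), ∃ B : Matrix n n F[X],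
      B.map (AdjoinRoot.mk (qd β)) = g.val := fun g => by
    choose B hB using fun k l => AdjoinRoot.mk_surjective (g.val k l)
    exact ⟨Matrix.of B, Matrix.ext hB⟩
  have h1' : (1 : Matrix n n F[X]).map (AdjoinRoot.mk (qd β)) = 1 :=
    Matrix.map_one _ (map_zero _) (map_one _)
  have hi : ∀ {g : GL n (AdjoinRoot (qd β))} {B B' : Matrix n n F[X]},
      B.map (AdjoinRoot.mk (qd β)) = g.val → B'.map (AdjoinRoot.mk (qd β)) = (g⁻¹).val →
      rep M β B * rep M β B' = 1 := fun hB hB' => by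
    rw [← rep_mul, ← rep_one M β]
    refine rep_congr M (cong_iff_map.2 ?_)
    rw [Matrix.map_mul, hB, hB', h1', ← Units.val_mul, mul_inv_cancel, Units.val_one]
  let N : Subgroup (GL n (AdjoinRoot (qd β))) :=
    { carrier := {g | ∃ B : Matrix n n F[X], B.map (AdjoinRoot.mk (qd β)) = g.val ∧
        ∃ c : F, ∀ y ∈ Y, rep M β B *ᵥ y = c • y}
      one_mem' := ⟨1, h1', 1, fun y _ => by rw [rep_one, one_mulVec, one_smul]⟩
      mul_mem' := by
        rintro g g' ⟨B, hB, c, hc⟩ ⟨B', hB', c', hc'⟩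
        refine ⟨B * B', by rw [Matrix.map_mul, hB, hB', Units.val_mul], c' * c, fun y hy => ?_⟩
        rw [rep_mul, ← mulVec_mulVec, hc' y hy, mulVec_smul, hc y hy, smul_smul]
      inv_mem' := by
        rintro g ⟨B, hB, c, hc⟩
        obtain ⟨B', hB'⟩ := hl g⁻¹
        refine ⟨B', hB', c⁻¹, fun y hy => ?_⟩
        have e : c • rep M β B' *ᵥ y = y := by
          rw [← mulVec_smul, ← hc y hy, mulVec_mulVec, hi hB' (by rwa [inv_inv]), one_mulVec]
        by_cases h0 : c = 0
        · rw [h0, zero_smul] at e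
          rw [← e, mulVec_zero, smul_zero]
        · rw [eq_inv_smul_iff₀ h0, e] }
  have hN : ∀ s : GL n (AdjoinRoot (qd β)), s.val.det = 1 → ∀ x ∈ N, s * x * s⁻¹ ∈ N := by
    rintro s hs x ⟨B, hB, c, hc⟩
    obtain ⟨T, hT⟩ := hl s
    obtain ⟨T', hT'⟩ := hl s⁻¹
    refine ⟨T * B * T', by
      rw [Matrix.map_mul, Matrix.map_mul, hT, hB, hT', Units.val_mul, Units.val_mul], c,
      fun y hy => ?_⟩
    have hd : qd β ∣ T'.det - 1 := by
      rw [← AdjoinRoot.mk_eq_zero, map_sub, map_one, RingHom.map_det, RingHom.mapMatrix_apply, hT',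
        sub_eq_zero]
      have := congrArg Matrix.det (s.mul_inv)
      rwa [det_mul, hs, one_mul, det_one] at this
    rw [rep_mul, rep_mul, ← mulVec_mulVec, ← mulVec_mulVec, hc _ (hY T' hd y hy), mulVec_smul,
      mulVec_mulVec, hi hT hT', one_mulVec]
  let g : GL n (AdjoinRoot (qd β)) :=
    ⟨A.map (AdjoinRoot.mk (qd β)), A'.map (AdjoinRoot.mk (qd β)),
      by rw [← Matrix.map_mul, cong_iff_map.1 h1, h1'],
      by rw [← Matrix.map_mul, cong_iff_map.1 h2, h1']⟩
  obtain ⟨B, hB, χ, hχ⟩ := norm_inf β N hN i (g := g) ⟨A, rfl, hA⟩ rfl hs h c hc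
  have e1 : rep M β B = rep M β (el a b c) := by
    refine rep_congr M (cong_iff_map.2 ?_)
    rw [hB, rt_val, el, Matrix.map_add _ (map_add _), h1']
    congr 1
    ext u v
    simp [single, apply_ite (AdjoinRoot.mk (qd β))]
  rw [e1] at hχ
  have e2 : ∀ m : ℕ, rep M β (el a b ((m : F[X]) * c)) *ᵥ y = χ ^ m • y := by
    intro m
    induction m with
    | zero => rw [Nat.cast_zero, zero_mul, el_zero, rep_one, one_mulVec, pow_zero, one_smul]
    | succ m ih =>
      rw [Nat.cast_succ, add_mul, one_mul, ← el_mul h, rep_mul, ← mulVec_mulVec, hχ y hy,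
        mulVec_smul, ih, smul_smul, pow_succ']
  have e3 := e2 p
  rw [CharP.cast_eq_zero, zero_mul, el_zero, rep_one, one_mulVec] at e3
  have e4 : (χ - 1) ^ p • y = 0 := by rw [sub_pow_char, one_pow, sub_smul, ← e3, one_smul, sub_self]
  apply hne
  rw [hχ y hy]
  rcases smul_eq_zero.1 e4 with h0 | h0
  · rw [sub_eq_zero.1 (pow_eq_zero_iff (Fact.out : p.Prime).ne_zero |>.1 h0), one_smul]
  · rw [h0, smul_zero]

end Pool.Agent.Lib.MP_6adaea_nt.U
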