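import Pool.Agent.Lib.MP_6adaea_nt.U.WdL

/-!
Saturated modules and Cramer data.
-/

set_option linter.unusedSectionVars false

namespace Pool.Agent.Lib.MP_6adaea_nt.U
open Matrix Polynomial G
open scoped TensorProduct

variable {R J : Type} [CommRing R] [Fintype J] [DecidableEq J] {P : Ideal R}

theorem isSat_sat (s : Set (J → R)) : IsSat P (sat P s) := by
  refine ⟨fun x hx => Submodule.mem_sInf.2 fun N hN => hN.1.1 x hx, fun f x hf hx => ?_⟩
  exact Submodule.mem_sInf.2 fun N hN => hN.1.2 f x hf (Submodule.mem_sInf.1 hx N hN)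

theorem subset_sat (s : Set (J → R)) : s ⊆ sat P s := by
  intro x hx
  exact Submodule.mem_sInf.2 fun N hN => hN.2 hx

theorem sat_le {s : Set (J → R)} {N : Submodule R (J → R)} (hN : IsSat P N) (h : s ⊆ N) :
    sat P s ≤ N := by
  exact sInf_le ⟨hN, h⟩

theorem sat_mono {s s' : Set (J → R)} (h : s ⊆ s') : sat P s ≤ sat P s' := by
  exact sat_le (isSat_sat s') (h.trans (subset_sat s'))

theorem mem_sat_iff (hP : P.IsPrime) {s : Set (J → R)} {x : J → R} : x ∈ sat P s ↔
    ∃ f ∉ P, ∃ y ∈ Submodule.span R s, ∀ j, (f • x - y) j ∈ P := by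
  have h1 : (1 : R) ∉ P := (Ideal.ne_top_iff_one P).1 hP.ne_top
  constructor
  · let N : Submodule R (J → R) :=
      { carrier := {x | ∃ f ∉ P, ∃ y ∈ Submodule.span R s, ∀ j, (f • x - y) j ∈ P}
        zero_mem' := ⟨1, h1, 0, zero_mem _, fun j => by simp⟩
        add_mem' := by
          rintro a b ⟨f, hf, y, hy, ha⟩ ⟨g, hg, z, hz, hb⟩
          refine ⟨f * g, fun h => (hP.mem_or_mem h).elim hf hg, g • y + f • z,
            add_mem (Submodule.smul_mem _ _ hy) (Submodule.smul_mem _ _ hz), fun j => ?_⟩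
          convert add_mem (P.mul_mem_left g (ha j)) (P.mul_mem_left f (hb j)) using 1
          simp only [Pi.sub_apply, Pi.add_apply, Pi.smul_apply, smul_eq_mul]
          ring
        smul_mem' := by
          rintro c a ⟨f, hf, y, hy, ha⟩
          refine ⟨f, hf, c • y, Submodule.smul_mem _ _ hy, fun j => ?_⟩
          convert P.mul_mem_left c (ha j) using 1
          simp only [Pi.sub_apply, Pi.smul_apply, smul_eq_mul]
          ring }
    have hN : IsSat P N := by
      refine ⟨fun x hx => ⟨1, h1, 0, zero_mem _, fun j => by simpa using hx j⟩, ?_⟩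
      rintro g x hg ⟨f, hf, y, hy, ha⟩
      exact ⟨f * g, fun h => (hP.mem_or_mem h).elim hf hg, y, hy, by rwa [mul_smul]⟩
    exact fun hx => sat_le hN
      (fun y hy => ⟨1, h1, y, Submodule.subset_span hy, fun j => by simp⟩) hx
  · rintro ⟨f, hf, y, hy, h⟩
    refine (isSat_sat s).2 f x hf ?_
    have h2 := add_mem ((isSat_sat s).1 _ h) (Submodule.span_le.2 (subset_sat (P := P) s) hy)
    rwa [sub_add_cancel] at h2

private theorem Sat_back (hP : P.IsPrime) {F : Type} [Field F] (φ : R →+* F)
    (hφ : ∀ r, φ r = 0 ↔ r ∈ P) (hfr : ∀ c : F, ∃ a b : R, b ∉ P ∧ φ b * c = φ a)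
    {N : Submodule R (J → R)} (hN : IsSat P N) {x : J → R}
    (hx : (fun j => φ (x j)) ∈
      Submodule.span F ((fun (x : J → R) j => φ (x j)) '' (N : Set (J → R)))) : x ∈ N := by
  have h1 : (1 : R) ∉ P := (Ideal.ne_top_iff_one P).1 hP.ne_top
  have key : ∀ y ∈ Submodule.span F ((fun (x : J → R) j => φ (x j)) '' (N : Set (J → R))),
      ∃ f ∉ P, ∃ z ∈ N, ∀ j, φ f * y j = φ (z j) := by
    intro y hy
    induction hy using Submodule.span_induction with
    | mem y hy =>
      obtain ⟨z, hz, rfl⟩ := hy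
      exact ⟨1, h1, z, hz, fun j => by simp⟩
    | zero => exact ⟨1, h1, 0, zero_mem _, fun j => by simp⟩
    | add a b _ _ ha hb =>
      obtain ⟨f, hf, y, hy, ha⟩ := ha
      obtain ⟨g, hg, z, hz, hb⟩ := hb
      refine ⟨f * g, fun h => (hP.mem_or_mem h).elim hf hg, g • y + f • z,
        add_mem (N.smul_mem _ hy) (N.smul_mem _ hz), fun j => ?_⟩
      simp only [Pi.add_apply, Pi.smul_apply, smul_eq_mul, map_add, map_mul, ← ha j, ← hb j]
      ring
    | smul c a _ ha =>
      obtain ⟨f, hf, y, hy, ha⟩ := ha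
      obtain ⟨u, v, hv, hc⟩ := hfr c
      refine ⟨f * v, fun h => (hP.mem_or_mem h).elim hf hv, u • y, N.smul_mem _ hy, fun j => ?_⟩
      simp only [Pi.smul_apply, smul_eq_mul, map_mul, ← ha j, ← hc]
      ring
  obtain ⟨f, hf, z, hz, h⟩ := key _ hx
  refine hN.2 f x hf ?_
  have h2 : f • x - z ∈ N := hN.1 _ fun j => (hφ _).1 (by
    simp only [Pi.sub_apply, Pi.smul_apply, smul_eq_mul, map_sub, map_mul, h j, sub_self])
  simpa using add_mem h2 hz

private theorem Sat_ker (hP : P.IsPrime) (Z : Matrix J J R) :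
    IsSat P ((Submodule.pi Set.univ fun _ : J => P).comap Z.vecMulLinear) := by
  refine ⟨fun x hx j _ => P.sum_mem fun i _ => P.mul_mem_right _ (hx i), fun f x hf hx j _ => ?_⟩
  have h1 : f * (x ᵥ* Z) j ∈ P := by simpa [smul_vecMul] using hx j (Set.mem_univ j)
  exact (hP.mem_or_mem h1).resolve_left hf

/-- a saturated module is determined by its span over the fraction field of `R / P` -/
theorem sat_chain (hP : P.IsPrime) (N : ℕ → Submodule R (J → R)) (hN : ∀ i, IsSat P (N i))
    (h : ∀ i, N i ≤ N (i + 1)) : ∃ i ≤ Fintype.card J, N (i + 1) ≤ N i := by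
  have := Ideal.Quotient.isDomain P
  let F := FractionRing (R ⧸ P)
  let φ : R →+* F := (algebraMap (R ⧸ P) F).comp (Ideal.Quotient.mk P)
  have hφ : ∀ r, φ r = 0 ↔ r ∈ P := fun r => by
    rw [← Ideal.Quotient.eq_zero_iff_mem]
    exact map_eq_zero_iff _ (IsFractionRing.injective (R ⧸ P) F)
  have hfr : ∀ c : F, ∃ a b : R, b ∉ P ∧ φ b * c = φ a := fun c => by
    obtain ⟨a, b, hb, rfl⟩ := IsFractionRing.div_surjective (A := R ⧸ P) c
    obtain ⟨a, rfl⟩ := Ideal.Quotient.mk_surjective a
    obtain ⟨b, rfl⟩ := Ideal.Quotient.mk_surjective b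
    have hb' : b ∉ P := fun h =>
      nonZeroDivisors.ne_zero hb (Ideal.Quotient.eq_zero_iff_mem.2 h)
    exact ⟨a, b, hb', mul_div_cancel₀ _ fun h => hb' ((hφ b).1 h)⟩
  let V : ℕ → Submodule F (J → F) := fun i =>
    Submodule.span F ((fun (x : J → R) j => φ (x j)) '' (N i : Set (J → R)))
  by_contra hc
  push Not at hc
  have hlt : ∀ i ≤ Fintype.card J, V i < V (i + 1) := by
    intro i hi
    refine lt_of_le_of_ne (Submodule.span_mono (Set.image_mono (h i))) fun he => hc i hi ?_
    intro x hx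
    refine Sat_back hP φ hφ hfr (hN i) ?_
    change _ ∈ V i
    rw [he]
    exact Submodule.subset_span ⟨x, hx, rfl⟩
  have hk : ∀ i ≤ Fintype.card J + 1, i ≤ Module.finrank F (V i) := by
    intro i
    induction i with
    | zero => exact fun _ => Nat.zero_le _
    | succ i ih =>
      intro hi
      exact Nat.succ_le_of_lt ((ih (by omega)).trans_lt
        (Submodule.finrank_lt_finrank_of_lt (hlt i (by omega))))
  have h1 := (hk _ le_rfl).trans (Submodule.finrank_le _)
  rw [Module.finrank_fintype_fun_eq_card] at h1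
  omega

variable {kb K : Type} [Field kb] [Field K] [Algebra kb K] {P : Ideal (R2 K)}

private theorem Sat_deg {M : Matrix J J (R2 K)} {e : ℕ} (h : ∀ i j, (M i j).totalDegree ≤ e) :
    M.det.totalDegree ≤ Fintype.card J * e := by
  rw [det_apply]
  refine MvPolynomial.totalDegree_finsetSum_le fun σ _ => ?_
  have h1 : (∏ i, M (σ i) i).totalDegree ≤ Fintype.card J * e :=
    (MvPolynomial.totalDegree_finsetProd _ _).trans
      ((Finset.sum_le_sum fun i _ => h _ _).trans (by simp))
  rcases Int.units_eq_one_or (Equiv.Perm.sign σ) with h2 | h2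
  · rwa [h2, one_smul]
  · rwa [h2, Units.neg_smul, one_smul, MvPolynomial.totalDegree_neg]

private theorem Sat_ginv (Z : Matrix J J K) : ∃ G : Matrix J J K, Z * G * Z = Z := by
  obtain ⟨g, hg⟩ := (toLin' Z).rangeRestrict.exists_rightInverse_of_surjective
    (LinearMap.range_rangeRestrict _)
  obtain ⟨g', hg'⟩ := g.exists_extend
  refine ⟨LinearMap.toMatrix' g', toLin'.injective ?_⟩
  rw [toLin'_mul, toLin'_mul, toLin'_toMatrix']
  refine LinearMap.ext fun x => ?_
  have h1 := LinearMap.congr_fun hg' ((toLin' Z).rangeRestrict x)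
  have h2 := congrArg Subtype.val (LinearMap.congr_fun hg ((toLin' Z).rangeRestrict x))
  change toLin' Z (g' (toLin' Z x)) = toLin' Z x
  change g' (toLin' Z x) = _ at h1
  rw [h1]
  exact h2

/-- Choose `ρ` maximal with `x 1, …, x ρ ∈ s` and columns `j 1, …, j ρ` whose minor `Δ` is not in
`P`. Put `Z = Δ • 1 - A * Nm`, `Nm` with rows `x i`, `A` the adjugate placed at the rows `j i`. -/
theorem exists_cram (hP : P.IsPrime) {s : Set (J → R2 K)} {e : ℕ}
    (hs : ∀ x ∈ s, x ∈ degLE K J e) : Nonempty (Cram P s (Fintype.card J * e)) := by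
  have h1 : (1 : R2 K) ∉ P := (Ideal.ne_top_iff_one P).1 hP.ne_top
  let Q : Finset J → Prop := fun T => ∃ M : Matrix J J (R2 K),
    (∀ i ∈ T, M i ∈ s) ∧ (∀ i ∉ T, M i = Pi.single i 1) ∧ M.det ∉ P
  have h0 : Q ∅ := ⟨1, by simp, fun i _ => by
    funext j
    rw [Matrix.one_apply, Pi.single_apply]
    exact if_congr eq_comm rfl rfl, by rwa [det_one]⟩
  obtain ⟨T, -, ⟨M, hM1, hM2, hM3⟩, hT⟩ := Finite.exists_le_maximal h0
  have hsing : ∀ i j : J, ((Pi.single i 1 : J → R2 K) j).totalDegree ≤ e := fun i j => by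
    rw [Pi.single_apply]
    split_ifs <;> simp
  have hdeg : ∀ i j, (M i j).totalDegree ≤ e := fun i j => by
    by_cases hi : i ∈ T
    · exact mem_degLE.1 (hs _ (hM1 i hi)) j
    · rw [hM2 i hi]
      exact hsing i j
  let Z : Matrix J J (R2 K) := Matrix.of fun i j => if j ∈ T then 0 else M.adjugate i j
  have hrow : ∀ i, (M.det • (1 : Matrix J J (R2 K)) - Z) i = ∑ l ∈ T, M.adjugate i l • M l := by
    intro i
    funext j
    rw [← adjugate_mul, Finset.sum_apply]
    change ∑ l, M.adjugate i l * M l j - Z i j = ∑ l ∈ T, M.adjugate i l * M l j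
    rw [← Finset.sum_add_sum_compl T, add_sub_assoc, add_eq_left, sub_eq_zero]
    rw [Finset.sum_congr rfl fun l hl => by rw [hM2 l (Finset.mem_compl.1 hl)]]
    simp only [Pi.single_apply, mul_ite, mul_one, mul_zero, Finset.sum_ite_eq, Finset.mem_compl,
      Z, Matrix.of_apply, ite_not]
  have hrows : ∀ i, (M.det • (1 : Matrix J J (R2 K)) - Z) i ∈ Submodule.span (R2 K) s := by
    intro i
    rw [hrow]
    exact Submodule.sum_mem _ fun l hl =>
      Submodule.smul_mem _ _ (Submodule.subset_span (hM1 l hl))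
  refine ⟨⟨M.det, Z, hM3, Sat_deg hdeg, fun i j => ?_, hrows,
    fun x => ⟨fun hx => ?_, fun hx => ?_⟩⟩⟩
  · simp only [Z, Matrix.of_apply]
    split_ifs
    · simp
    · rw [adjugate_apply]
      refine Sat_deg fun a b => ?_
      rw [updateRow_apply]
      split_ifs
      · exact hsing i b
      · exact hdeg a b
  · refine fun j => sat_le (Sat_ker hP Z) (fun y hy j _ => ?_) hx j (Set.mem_univ j)
    change (y ᵥ* Z) j ∈ P
    by_cases hj : j ∈ T
    · simp [Z, vecMul, dotProduct, hj]
    · have h2 : (y ᵥ* Z) j = (M.updateRow j y).det := by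
        rw [← cramer_transpose_apply, cramer_eq_adjugate_mulVec, ← adjugate_transpose,
          mulVec_transpose]
        simp [Z, vecMul, dotProduct, hj]
      rw [h2]
      by_contra h3
      refine hj (hT (y := insert j T) ⟨M.updateRow j y, fun i hi => ?_, fun i hi => ?_, h3⟩
        (Finset.subset_insert j T) (Finset.mem_insert_self j T))
      · by_cases hij : i = j
        · rwa [hij, updateRow_self]
        · rw [updateRow_ne hij]
          exact hM1 i ((Finset.mem_insert.1 hi).resolve_left hij)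
      · rw [Finset.mem_insert, not_or] at hi
        rw [updateRow_ne hi.1, hM2 i hi.2]
  · refine (mem_sat_iff hP).2 ⟨M.det, hM3, x ᵥ* (M.det • (1 : Matrix J J (R2 K)) - Z), ?_,
      fun j => ?_⟩
    · rw [vecMul_eq_sum]
      exact Submodule.sum_mem _ fun i _ => Submodule.smul_mem _ _ (hrows i)
    · rw [vecMul_sub, vecMul_smul, vecMul_one, sub_sub_cancel]
      exact hx j

theorem IsSat.exists_gen {N : Submodule (R2 K) (J → R2 K)} (hN : IsSat P N) :
    ∃ (s : Set (J → R2 K)) (e : ℕ), (∀ x ∈ s, x ∈ degLE K J e) ∧ N = sat P s := by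
  obtain ⟨s, hs⟩ : N.FG := IsNoetherian.noetherian N
  refine ⟨s, s.sup fun x => Finset.univ.sup fun j => (x j).totalDegree, fun x hx => ?_, ?_⟩
  · refine mem_degLE.2 fun j => ?_
    exact (Finset.le_sup (f := fun j => (x j).totalDegree) (Finset.mem_univ j)).trans
      (Finset.le_sup (f := fun x : J → R2 K => Finset.univ.sup fun j => (x j).totalDegree) hx)
  · refine le_antisymm ?_ (sat_le hN (hs ▸ Submodule.subset_span))
    rw [← hs]
    exact Submodule.span_le.2 (subset_sat _)

theorem Cram.at_pt {s : Set (J → R2 K)} {D : ℕ} (C : Cram P s D) {β : Fin 2 → kb}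
    (hβ : ∀ f ∈ P, pt K β f = 0) (hΔ : pt K β C.Δ ≠ 0) (x : J → K) :
    x ∈ Submodule.span K ((fun (y : J → R2 K) j => pt K β (y j)) '' s) ↔
      x ᵥ* C.Z.map (pt K β) = 0 := by
  constructor
  · intro hx
    refine (Submodule.span_le (p := LinearMap.ker (C.Z.map (pt K β)).vecMulLinear)).2 ?_ hx
    rintro _ ⟨y, hy, rfl⟩
    change (fun j => pt K β (y j)) ᵥ* C.Z.map (pt K β) = 0
    funext j
    have h1 := hβ _ ((C.mem y).1 (subset_sat s hy) j)
    simpa [vecMul, dotProduct] using h1
  · intro hx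
    have h1 : ∀ y ∈ Submodule.span (R2 K) s, (fun j => pt K β (y j)) ∈
        Submodule.span K ((fun (y : J → R2 K) j => pt K β (y j)) '' s) := by
      intro y hy
      induction hy using Submodule.span_induction with
      | mem y hy => exact Submodule.subset_span ⟨y, hy, rfl⟩
      | zero =>
        simp only [Pi.zero_apply, map_zero]
        exact Submodule.zero_mem _
      | add a b _ _ ha hb =>
        simp only [Pi.add_apply, map_add]
        exact Submodule.add_mem _ ha hb
      | smul f a _ ha =>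
        simp only [Pi.smul_apply, smul_eq_mul, map_mul]
        exact Submodule.smul_mem _ (pt K β f) ha
    have h2 : x = (pt K β C.Δ)⁻¹ •
        ∑ i, x i • fun j => pt K β ((C.Δ • (1 : Matrix J J (R2 K)) - C.Z) i j) := by
      funext j
      have h3 := congrFun hx j
      simp only [vecMul, dotProduct, map_apply, Pi.zero_apply] at h3
      simp only [Pi.smul_apply, Finset.sum_apply, smul_eq_mul, Matrix.sub_apply,
        Matrix.smul_apply, map_sub, mul_sub, Finset.sum_sub_distrib, h3, sub_zero,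
        Matrix.one_apply, mul_ite, mul_one, mul_zero, apply_ite (pt K β), map_zero,
        Finset.sum_ite_eq', Finset.mem_univ, if_true]
      field_simp
    rw [h2]
    exact Submodule.smul_mem _ _ (Submodule.sum_mem _ fun i _ =>
      Submodule.smul_mem _ _ (h1 _ (C.rows i)))

theorem sat_tau (hP : P.IsPrime) {F : K →+* K} (hF : ∀ f, MvPolynomial.map F f ∈ P ↔ f ∈ P)
    {Ψ : Matrix J J (R2 K)} {s : Set (J → R2 K)} (h : ∀ x ∈ s, tau F Ψ x ∈ sat P s) :
    ∀ x ∈ sat P s, tau F Ψ x ∈ sat P s := by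
  have hs : ∀ (f : R2 K) (x : J → R2 K), tau F Ψ (f • x) = MvPolynomial.map F f • tau F Ψ x := by
    intro f x
    rw [tau, tau, ← smul_vecMul]
    congr 1
    funext j
    simp
  let N : Submodule (R2 K) (J → R2 K) :=
    { carrier := {x | tau F Ψ x ∈ sat P s}
      zero_mem' := by
        have h0 := hs 0 0
        rw [zero_smul, map_zero, zero_smul] at h0
        change tau F Ψ 0 ∈ sat P s
        rw [h0]
        exact zero_mem _
      add_mem' := by
        intro a b ha hb
        have h1 : tau F Ψ (a + b) = tau F Ψ a + tau F Ψ b := by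
          rw [tau, tau, tau, ← add_vecMul]
          congr 1
          funext j
          simp
        change tau F Ψ (a + b) ∈ sat P s
        rw [h1]
        exact add_mem ha hb
      smul_mem' := by
        intro c a ha
        change tau F Ψ (c • a) ∈ sat P s
        rw [hs]
        exact Submodule.smul_mem _ _ ha }
  have hN : IsSat P N := by
    refine ⟨fun x hx => (isSat_sat s).1 _ fun j => ?_, fun f x hf hx => ?_⟩
    · exact P.sum_mem fun i _ => P.mul_mem_right _ ((hF _).2 (hx i))
    · refine (isSat_sat s).2 (MvPolynomial.map F f) _ (fun h1 => hf ((hF f).1 h1)) ?_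
      rw [← hs]
      exact hx
  exact fun x hx => sat_le hN h hx

/-- the annihilator of the fibre is spanned by the columns of `Z` -/
theorem ann_eq_span {Ω : Type} [Field Ω] [Algebra K Ω] {N : Submodule K (J → K)}
    {Z : Matrix J J K} (h : ∀ x, x ∈ N ↔ x ᵥ* Z = 0) :
    ann Ω N = Submodule.span Ω (Set.range fun j i => algebraMap K Ω (Z i j)) := by
  refine le_antisymm (fun η hη => ?_) (Submodule.span_le.2 ?_)
  · obtain ⟨G, hG⟩ := Sat_ginv Z
    have h1 : ((1 - Z * G).map (algebraMap K Ω)) *ᵥ η = 0 := by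
      funext i
      refine hη ((1 - Z * G) i) ((h _).2 ?_)
      funext j
      change ((1 - Z * G) * Z) i j = 0
      rw [sub_mul, one_mul, hG, sub_self, Matrix.zero_apply]
    have h2 : (1 - Z * G).map (algebraMap K Ω) =
        1 - Z.map (algebraMap K Ω) * G.map (algebraMap K Ω) := by
      rw [← RingHom.mapMatrix_apply, map_sub, map_one, map_mul]
      rfl
    rw [h2, sub_mulVec, one_mulVec, sub_eq_zero, ← mulVec_mulVec, mulVec_eq_sum] at h1
    rw [h1]
    exact Submodule.sum_mem _ fun j _ => by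
      rw [op_smul_eq_smul]
      exact Submodule.smul_mem _ _ (Submodule.subset_span ⟨j, rfl⟩)
  · rintro _ ⟨j, rfl⟩ x hx
    have h1 := congrArg (algebraMap K Ω) (congrFun ((h x).1 hx) j)
    simpa [vecMul, dotProduct] using h1

end Pool.Agent.Lib.MP_6adaea_nt.U
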