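import Pool.Agent.Lib.MP_6adaea_nt.U.Dcp
import Pool.Agent.Lib.MP_6adaea_nt.U.Sat
import Pool.Agent.Lib.MP_6adaea_nt.U.NormI

/-!
A point where scalars on the fibre are scalars.
-/

set_option linter.unusedSectionVars false

namespace Pool.Agent.Lib.MP_6adaea_nt.U
open Matrix Polynomial G
open scoped TensorProduct

variable {k kb K Ω : Type} [Field k] [Finite k] [Field kb] [Field K] [Field Ω] [Algebra k kb]
  [Algebra k K] [Algebra k Ω] [Algebra kb K] [Algebra kb Ω] [Algebra K Ω]
  [IsScalarTower k kb K] [IsScalarTower k kb Ω] [IsScalarTower k K Ω] [IsScalarTower kb K Ω]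
  [IsAlgClosed kb] [Algebra.IsAlgebraic k kb] [IsSepClosed Ω] [IsGalois K Ω] {θ : K} {r : ℕ}

private theorem scal_map {n S L : Type} [Fintype n] [DecidableEq n] {M : ℕ} [CommRing S]
    [CommRing L] (φ : S →+* L) (t : Fin 2 → S) (Z : Matrix (JJ n M) (JJ n M) S)
    (A : Matrix n n S[X]) (j j' : JJ n M) :
    φ ((rep M t A * Z - Z) j j') =
      (rep M (fun i => φ (t i)) (pmap φ A) * Z.map φ - Z.map φ) j j' := by
  rw [← rep_map, ← Matrix.map_mul, ← Matrix.map_sub _ (map_sub φ), Matrix.map_apply]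

private theorem scal_two {n S L : Type} [Fintype n] [DecidableEq n] {M : ℕ} [CommRing S] [Field L]
    [Algebra kb S] [Algebra kb L] (φ : S →+* L)
    (hφ : ∀ c, φ (algebraMap kb S c) = algebraMap kb L c) (t : Fin 2 → S)
    (ht : φ (t 0) ≠ φ (t 1)) (Z : Matrix (JJ n M) (JJ n M) S) {a b : n} (hab : a ≠ b)
    (h : ∀ l (c : kb) j j',
      φ ((rep M t (el a b (C (algebraMap kb S c) * (X - C (t l)))) * Z - Z) j j') = 0)
    (c0 c1 : kb) (j j' : JJ n M) : φ ((rep M t (elc S a b c0 c1) * Z - Z) j j') = 0 := by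
  have h1 : ∀ l (c : L), rep M (fun i => φ (t i)) (el a b (C c * (X - C (φ (t l))))) * Z.map φ =
      Z.map φ := by
    intro l
    refine poly_ext1 (F := kb) (LinearMap.mulRight L (Z.map φ)) _ a b _ fun c => ?_
    rw [LinearMap.mulRight_apply, ← sub_eq_zero]
    ext j j'
    have h2 := h l c j j'
    rw [scal_map, pmap_el, Polynomial.map_mul, Polynomial.map_sub, map_C, map_C, map_X, hφ] at h2
    exact h2
  have h3 : φ (t 0) - φ (t 1) ≠ 0 := sub_ne_zero.2 ht
  have h2 : elc L a b c0 c1 =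
      el a b (C ((algebraMap kb L c0 + algebraMap kb L c1 * φ (t 0)) / (φ (t 0) - φ (t 1))) *
        (X - C (φ (t 1)))) *
      el a b (C (-(algebraMap kb L c0 + algebraMap kb L c1 * φ (t 1)) / (φ (t 0) - φ (t 1))) *
        (X - C (φ (t 0)))) := by
    rw [el_mul hab, elc]
    congr 1
    have e0 : algebraMap kb L c0 =
        -((algebraMap kb L c0 + algebraMap kb L c1 * φ (t 0)) / (φ (t 0) - φ (t 1)) * φ (t 1)) -
          -(algebraMap kb L c0 + algebraMap kb L c1 * φ (t 1)) / (φ (t 0) - φ (t 1)) * φ (t 0) := by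
      field_simp
      ring
    have e1 : algebraMap kb L c1 =
        (algebraMap kb L c0 + algebraMap kb L c1 * φ (t 0)) / (φ (t 0) - φ (t 1)) +
          -(algebraMap kb L c0 + algebraMap kb L c1 * φ (t 1)) / (φ (t 0) - φ (t 1)) := by
      field_simp
      ring
    generalize (algebraMap kb L c0 + algebraMap kb L c1 * φ (t 0)) / (φ (t 0) - φ (t 1)) = u
      at e0 e1 ⊢
    generalize -(algebraMap kb L c0 + algebraMap kb L c1 * φ (t 1)) / (φ (t 0) - φ (t 1)) = u'
      at e0 e1 ⊢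
    rw [e0, e1]
    simp only [map_sub, map_neg, map_mul, map_add]
    ring
  rw [scal_map, pmap_elc φ hφ, h2, rep_mul, Matrix.mul_assoc, h1, h1, sub_self, Matrix.zero_apply]

private theorem scal_moves {n : Type} [Fintype n] [DecidableEq n] {M : ℕ} {B : Type}
    [AddCommGroup B] [Module K B] {τ : Fin 2 → PowerSeries kb} {W : Wd kb K B (JJ n M)}
    (hP : ∀ f, gp K τ f = 0 → W.ev f = 0) {e D : ℕ} (hN : Nondeg W τ D)
    (Cr : Cram (RingHom.ker (gp K τ)) (W.rel e : Set (JJ n M → R2 K)) D) :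
    ∃ a b : n, a ≠ b ∧ ∃ (c0 c1 : kb) (j j' : JJ n M),
      gp K τ ((rep M MvPolynomial.X (elc (R2 K) a b c0 c1) * Cr.Z - Cr.Z) j j') ≠ 0 := by
  obtain ⟨a, b, hab, c0, c1, j, h⟩ := hN Cr.Δ Cr.degΔ Cr.notMem
  refine ⟨a, b, hab, c0, c1, j, ?_⟩
  by_contra h1
  push Not at h1
  apply h
  have h2 : ∀ x ∈ Submodule.span (R2 K) (W.rel e : Set (JJ n M → R2 K)), W.im x = 0 := by
    intro x hx
    induction hx using Submodule.span_induction with
    | mem x hx => exact hx.2
    | zero => exact map_zero _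
    | add x y _ _ hx hy => rw [map_add, hx, hy, add_zero]
    | smul c x _ hx => rw [W.im_smul, hx, map_zero]
  generalize rep M MvPolynomial.X (elc (R2 K) a b c0 c1) = A at h1 ⊢
  have h3 : Cr.Δ • (A - 1) j =
      (A * Cr.Z - Cr.Z) j + (A - 1) j ᵥ* (Cr.Δ • (1 : Matrix _ _ (R2 K)) - Cr.Z) := by
    change _ = _ + ((A - 1) * (Cr.Δ • (1 : Matrix _ _ (R2 K)) - Cr.Z) :
      Matrix (JJ n M) (JJ n M) (R2 K)) j
    rw [Matrix.mul_sub, Matrix.mul_smul, Matrix.mul_one, Matrix.sub_mul, Matrix.one_mul]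
    ext1 j'
    simp
  rw [← W.im_smul, h3, map_add, h2 (_ ᵥ* _), add_zero, W.im_apply]
  · exact Finset.sum_eq_zero fun j' _ => by rw [hP _ (h1 j'), LinearMap.zero_apply]
  · rw [Matrix.vecMul_eq_sum]
    exact Submodule.sum_mem _ fun i _ => Submodule.smul_mem _ _ (Cr.rows i)

private theorem scal_pick {n : Type} [Fintype n] [DecidableEq n] {M : ℕ}
    {τ : Fin 2 → PowerSeries kb} {Z : Matrix (JJ n M) (JJ n M) (R2 K)} {a b : n} (hab : a ≠ b)
    {c0 c1 : kb} {j j' : JJ n M}
    (h : gp K τ ((rep M MvPolynomial.X (elc (R2 K) a b c0 c1) * Z - Z) j j') ≠ 0) :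
    ∃ (i : Fin 2) (u : (R2 K)[X]) (j j' : JJ n M), (∀ m, (u.coeff m).totalDegree ≤ 1) ∧
      u.natDegree ≤ 1 ∧ gp K τ ((rep M MvPolynomial.X (el a b u) * Z - Z) j j') ≠ 0 ∧
      ∀ β, OnC τ β → ∀ l, β l ≠ β i → u.eval (MvPolynomial.X l) = 0 := by
  have hd : ∀ c : kb, (algebraMap kb (R2 K) c).totalDegree = 0 := fun c => by
    rw [IsScalarTower.algebraMap_apply kb K (R2 K), MvPolynomial.algebraMap_eq,
      MvPolynomial.totalDegree_C]
  by_cases hτ : τ 0 = τ 1
  · refine ⟨0, _, j, j', fun m => ?_, ?_, h, fun β hβ l hl => ?_⟩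
    · rw [coeff_add, coeff_C, coeff_C_mul_X]
      split_ifs <;> simp
      omega
    · rw [add_comm]
      exact natDegree_linear_le
    · have h1 := hβ (MvPolynomial.X 0 - MvPolynomial.X 1) (by simp [gp, hτ])
      have h2 : β 0 = β 1 := by simpa [pt, sub_eq_zero] using h1
      fin_cases l
      · exact absurd rfl hl
      · exact absurd h2.symm hl
  · have hinj := IsFractionRing.injective (PowerSeries K) (FractionRing (PowerSeries K))
    by_contra h1
    apply h
    apply hinj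
    rw [map_zero]
    refine scal_two ((algebraMap _ (FractionRing (PowerSeries K))).comp
      (gp K τ : R2 K →+* PowerSeries K))
      (fun c => ?_) _ (fun h2 => hτ ?_) Z hab (fun l c j j' => ?_) c0 c1 j j'
    · rw [RingHom.comp_apply, IsScalarTower.algebraMap_apply kb K (R2 K), RingHom.coe_coe,
        AlgHom.commutes, ← IsScalarTower.algebraMap_apply, ← IsScalarTower.algebraMap_apply]
    · have h3 : gp K τ (MvPolynomial.X 0) = gp K τ (MvPolynomial.X 1) := hinj h2
      simp only [gp, MvPolynomial.aeval_X] at h3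
      exact PowerSeries.map_injective _ (algebraMap kb K).injective h3
    · by_contra h2
      refine h1 ⟨1 - l, C (algebraMap kb (R2 K) c) * (X - C (MvPolynomial.X l)), j, j',
        fun m => ?_, ?_, fun h3 => h2 ?_, fun β _ l' hl => ?_⟩
      · rw [coeff_C_mul]
        refine (MvPolynomial.totalDegree_mul _ _).trans ?_
        rw [hd, zero_add, coeff_sub, coeff_X, coeff_C]
        split_ifs
        · omega
        all_goals simp
      · exact (natDegree_C_mul_le _ _).trans (natDegree_X_sub_C_le _)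
      · rw [RingHom.comp_apply, RingHom.coe_coe, h3, map_zero]
      · have h3 : l' = l := by
          have h4 : l' ≠ 1 - l := fun h4 => hl (by rw [h4])
          revert h4
          fin_cases l <;> fin_cases l' <;> simp
        simp [h3]

/-- Let `C` be Cramer data for `rel e`. Some `elc a b c0 c1` moves `Z` modulo the prime ideal,
otherwise `ev Δ (im row) = im (row ᵥ* Z) + im (row ᵥ* (Δ • 1 - Z)) = 0`. If `τ 0 = τ 1` take
`i = 0`, `f = Δ * entry`. Otherwise, over the fraction field of `K⟦X⟧`,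
`c0 + c1 * X = u * (X - t 1) + u' * (X - t 0)`, so by `poly_ext1` some
`el a b (C c * (X - C (t l)))`, `c ∈ kb`, moves `Z`; take `i ≠ l` and
`f = Δ * entry * (X 0 - X 1)`. At `β`: `Cram.at_pt`, `ann_eq_span`, `stab_sub`, `norm_rep`. -/
theorem scal_pt {n : Type} [Fintype n] [DecidableEq n] {M : ℕ} {B : Type} [AddCommGroup B]
    [Module K B] (τ : Fin 2 → PowerSeries kb) (W : Wd kb K B (JJ n M))
    (hP : ∀ f, gp K τ f = 0 → W.ev f = 0) (e : ℕ)
    (hN : Nondeg W τ (Fintype.card (JJ n M) * e))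
    (hS : ∀ a b : n, a ≠ b → ∀ c0 c1 : kb,
      ∀ x ∈ sat (RingHom.ker (gp K τ)) (W.rel e : Set (JJ n M → R2 K)),
        x ᵥ* rep M MvPolynomial.X (elc (R2 K) a b c0 c1) ∈
          sat (RingHom.ker (gp K τ)) (W.rel e : Set (JJ n M → R2 K)))
    (p : ℕ) [Fact p.Prime] [CharP Ω p] :
    ∃ (i : Fin 2) (f : R2 K), gp K τ f ≠ 0 ∧
      f.totalDegree ≤ 2 * (Fintype.card (JJ n M) * e) + 2 * M + 1 ∧
      ∀ β, OnC τ β → pt K β f ≠ 0 →
        (∀ x ∈ sat (RingHom.ker (gp K τ)) (W.rel e : Set (JJ n M → R2 K)),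
          (fun j => pt K β (x j)) ∈ W.relAt e β) ∧ ScalAt Ω (W.relAt e β) β i := by
  obtain ⟨Cr⟩ := exists_cram (gp_prime (K := K) (τ := τ))
    (s := (W.rel e : Set (JJ n M → R2 K))) (e := e) fun x hx => hx.1
  obtain ⟨a, b, hab, c0, c1, j0, j0', h0⟩ := scal_moves hP hN Cr
  obtain ⟨i, u, j, j', hu0, hu1, hu2, hu3⟩ := scal_pick hab h0
  refine ⟨i, Cr.Δ * (rep M MvPolynomial.X (el a b u) * Cr.Z - Cr.Z) j j', ?_, ?_,
    fun β hβ hf => ?_⟩
  · rw [map_mul]
    exact mul_ne_zero Cr.notMem hu2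
  · have h1 : ∀ l, (rep M MvPolynomial.X (el a b u) j l).totalDegree ≤ M * (1 + 1 * 1) := by
      refine rep_deg M _ (fun l => (MvPolynomial.totalDegree_X l).le) _ (fun x y m => ?_)
        (fun x y => ?_) j
      · rw [el, Matrix.add_apply, coeff_add, Matrix.one_apply, Matrix.single_apply]
        refine (MvPolynomial.totalDegree_add _ _).trans (max_le ?_ ?_)
        · split_ifs
          · rw [coeff_one]
            split_ifs <;> simp
          · simp
        · split_ifs
          · exact hu0 m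
          · simp
      · rw [el, Matrix.add_apply, Matrix.one_apply, Matrix.single_apply]
        refine (natDegree_add_le _ _).trans (max_le ?_ ?_)
        · split_ifs <;> simp
        · split_ifs
          · exact hu1
          · simp
    have h2 : ((rep M MvPolynomial.X (el a b u) * Cr.Z) j j').totalDegree ≤
        M * (1 + 1 * 1) + Fintype.card (JJ n M) * e := by
      rw [Matrix.mul_apply]
      exact MvPolynomial.totalDegree_finsetSum_le fun l _ =>
        (MvPolynomial.totalDegree_mul _ _).trans (add_le_add (h1 l) (Cr.degZ l j'))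
    have h3 := MvPolynomial.totalDegree_sub ((rep M MvPolynomial.X (el a b u) * Cr.Z) j j')
      (Cr.Z j j')
    have h4 := Cr.degZ j j'
    have h5 := Cr.degΔ
    refine (MvPolynomial.totalDegree_mul _ _).trans ?_
    rw [Matrix.sub_apply]
    omega
  rw [map_mul] at hf
  have hN' : ∀ x, x ∈ W.relAt e β ↔ x ᵥ* Cr.Z.map (pt K β) = 0 := by
    intro x
    rw [← Cr.at_pt (fun f hf => hβ.pt hf) (left_ne_zero_of_mul hf) x, Wd.relAt,
      ← Submodule.span_eq (W.rel e), Submodule.map_span, Submodule.span_eq]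
    rfl
  have h1 : ∀ x ∈ sat (RingHom.ker (gp K τ)) (W.rel e : Set (JJ n M → R2 K)),
      (fun j => pt K β (x j)) ∈ W.relAt e β := by
    intro x hx
    rw [hN']
    ext1 l
    have h2 := hβ.pt ((Cr.mem x).1 hx l)
    exact ((pt K β : R2 K →+* K).map_vecMul Cr.Z x l).symm.trans h2
  refine ⟨h1, fun A A' hA hA' hc => ?_⟩
  have : Infinite Ω := Infinite.of_injective _ (algebraMap kb Ω).injective
  let ψ : R2 K →+* Ω := (algebraMap K Ω).comp (pt K β : R2 K →+* K)
  have hψ : ∀ f, ψ f = algebraMap K Ω (pt K β f) := fun f => rfl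
  have hX : ∀ l, ψ (MvPolynomial.X l) = algebraMap kb Ω (β l) := fun l => by
    rw [hψ, pt, MvPolynomial.aeval_X, ← IsScalarTower.algebraMap_apply]
  have hC : ∀ c : kb, ψ (algebraMap kb (R2 K) c) = algebraMap kb Ω c := fun c => by
    rw [hψ, IsScalarTower.algebraMap_apply kb K (R2 K), AlgHom.commutes, Algebra.algebraMap_self,
      RingHom.id_apply, ← IsScalarTower.algebraMap_apply]
  refine norm_rep p (fun l => algebraMap kb Ω (β l)) (ann Ω (W.relAt e β))
    (fun s hs => stab_sub (F := kb) Ω (fun a b hab c0 c1 y hy => ?_) hs) i hab (c := u.map ψ)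
    (fun l hl => ?_) (y := fun l => ψ (Cr.Z l j')) (fun x hx => ?_) (fun h2 => ?_) hA hA' hc
  · rintro _ ⟨x, hx, rfl⟩
    have h2 := hy _ (h1 _ (hS a b hab c0 c1 x (subset_sat _ hx)))
    rw [Matrix.dotProduct_mulVec, ← h2, ← pmap_elc ψ hC, ← funext hX, ← rep_map]
    congr 1
    ext1 l
    exact (ψ.map_vecMul _ x l).symm
  · rw [← hX, eval_map_apply, hu3 β hβ l fun h2 => hl (by rw [h2]), map_zero]
  · have h2 := congrFun ((hN' x).1 hx) j'
    have h3 := (algebraMap K Ω).map_vecMul (Cr.Z.map (pt K β)) x j'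
    rw [h2, Pi.zero_apply, map_zero] at h3
    exact h3.symm
  · refine right_ne_zero_of_mul hf ((algebraMap K Ω).injective ?_)
    rw [map_zero, ← hψ, scal_map, pmap_el, funext hX, Matrix.sub_apply, sub_eq_zero]
    exact congrFun h2 j

end Pool.Agent.Lib.MP_6adaea_nt.U
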