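import Pool.Agent.Lib.MP_6adaea_nt.U.Pt
import Pool.Agent.Lib.MP_6adaea_nt.U.Scal
import Pool.Agent.Lib.MP_6adaea_nt.U.Quot
import Pool.Agent.Lib.MP_6adaea_nt.U.HSx

/-!
The height bound for windows.
-/

set_option linter.unusedSectionVars false

namespace Pool.Agent.Lib.MP_6adaea_nt.U
open Matrix Polynomial G
open scoped TensorProduct

variable {k kb K Ω : Type} [Field k] [Finite k] [Field kb] [Field K] [Field Ω] [Algebra k kb]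
  [Algebra k K] [Algebra k Ω] [Algebra kb K] [Algebra kb Ω] [Algebra K Ω]
  [IsScalarTower k kb K] [IsScalarTower k kb Ω] [IsScalarTower k K Ω] [IsScalarTower kb K Ω]
  [IsAlgClosed kb] [Algebra.IsAlgebraic k kb] [IsSepClosed Ω] [IsGalois K Ω] {θ : K} {r : ℕ}

theorem core_poly (a : ℚ) : ∃ m0 : ℕ, ∀ m : ℕ, m0 ≤ m → a * (m : ℚ) ^ 4 ≤ 2 ^ m := by
  have h := tendsto_pow_const_div_const_pow_of_one_lt 4 (r := (2 : ℝ)) one_lt_two
  have hp : (0 : ℝ) < 1 / (|(a : ℝ)| + 1) := by positivity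
  obtain ⟨m0, h0⟩ := Filter.eventually_atTop.1 (h.eventually (gt_mem_nhds hp))
  refine ⟨m0, fun m hm => ?_⟩
  have h1 := h0 m hm
  rw [div_lt_div_iff₀ (by positivity) (by positivity), one_mul] at h1
  have h2 : (a : ℝ) * (m : ℝ) ^ 4 ≤ 2 ^ m := by
    have h3 := le_abs_self (a : ℝ)
    have h4 : (0 : ℝ) ≤ (m : ℝ) ^ 4 := by positivity
    nlinarith
  exact_mod_cast h2

theorem core_exp (a : ℚ) (ha : 0 ≤ a) (N e M q c : ℕ) (hq : 2 ≤ q) (hc : 0 < c) : ∃ j : ℕ,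
    a * (2 * (N * (e + 4 * ((3 * (c * (j + 1)) * M : ℕ) : ℚ) + 1) ^ 2 + 1) ^ 2) ≤
      ((q ^ (c * (j + 1)) : ℕ) : ℚ) / 2 := by
  obtain ⟨m0, h0⟩ := core_poly (a * (4 * (N * (e + 12 * M + 1) ^ 2 + 1) ^ 2))
  refine ⟨m0, ?_⟩
  have hm : m0 + 1 ≤ c * (m0 + 1) := Nat.le_mul_of_pos_left _ hc
  generalize c * (m0 + 1) = m at hm
  have h1 := h0 m (by omega)
  have hm1 : (1 : ℚ) ≤ m := by exact_mod_cast (show 1 ≤ m by omega)
  have h2 : (2 : ℚ) ^ m ≤ ((q ^ m : ℕ) : ℚ) := by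
    exact_mod_cast Nat.pow_le_pow_left hq m
  have h3 : (e : ℚ) + 4 * ((3 * m * M : ℕ) : ℚ) + 1 ≤ (e + 12 * M + 1) * m := by
    push_cast
    have : (0 : ℚ) ≤ e := by positivity
    nlinarith
  have h4 : (N : ℚ) * (e + 4 * ((3 * m * M : ℕ) : ℚ) + 1) ^ 2 + 1 ≤
      (N * (e + 12 * M + 1) ^ 2 + 1) * (m : ℚ) ^ 2 := by
    have h5 : ((e : ℚ) + 4 * ((3 * m * M : ℕ) : ℚ) + 1) ^ 2 ≤ ((e + 12 * M + 1) * m) ^ 2 := by
      gcongr
    have h6 : (1 : ℚ) ≤ (m : ℚ) ^ 2 := one_le_pow₀ hm1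
    have h7 := mul_le_mul_of_nonneg_left h5 (show (0 : ℚ) ≤ N by positivity)
    nlinarith
  have h5 : ((N : ℚ) * (e + 4 * ((3 * m * M : ℕ) : ℚ) + 1) ^ 2 + 1) ^ 2 ≤
      ((N * (e + 12 * M + 1) ^ 2 + 1) * (m : ℚ) ^ 2) ^ 2 := by gcongr
  have h6 := mul_le_mul_of_nonneg_left h5 ha
  nlinarith

/-- One step. `T i` from `dn_fin` (degree `2 * |J| * e + 2 * M + 1`, `av_infinite`), `C2` the maximum
of the constants of `pt_bound` on `T 0 ∪ T 1`, `C1` from `psi_wt`; choose `j` with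
`C2 * 2 * (|J| * (e + 4 * c + 1) ^ 2 + 1) ^ 2 * C1 / Q ≤ 1 / 2`, `c = 3 * (Fr.pow j).c * M`. -/
theorem ht_step (hB : Base kb θ) (hr : 0 < r) (Fr : Frb k kb K Ω) {τ : Fin 2 → PowerSeries kb}
    (hτ : Adm k τ) (M e : ℕ) : ∃ e' : ℕ, e ≤ e' ∧ ∀ (n : ℕ) (C0 : ℕ → ℕ), ∃ C : ℚ,
      ∀ D : DM k Ω θ r, D.Fix Fr → D.Std Fr →
      ∀ (B : Type) [AddCommGroup B] [Module K B] [FiniteDimensional K B], Module.finrank K B ≤ n →
      ∀ W : Wd kb K B (JJ (Fin r) M), (∀ f, gp K τ f = 0 → W.ev f = 0) →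
      (∀ j, Nonempty (Tw W (Fr.pow j).toK (Psi k θ r D.g (Fr.pow j).c M) (C0 j))) →
      Nondeg W τ (Fintype.card (JJ (Fin r) M) * e) →
      (W.rel e' : Set (JJ (Fin r) M → R2 K)) ⊆
        sat (RingHom.ker (gp K τ)) (W.rel e : Set (JJ (Fin r) M → R2 K)) →
      D.h kb ≤ C := by
  classical
  have hK : FF kb K := (hB.ff k)
  obtain ⟨d1, hd1⟩ := pt_bound (k := k) (Ω := Ω) hB hr
  have hA := av_infinite k kb d1 r
  choose T hT1 hT2 using fun i : Fin 2 => dn_fin K (hτ.1 i) hA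
    (2 * (Fintype.card (JJ (Fin r) M) * e) + 2 * M + 1)
  obtain ⟨C2, hC2, hpt⟩ : ∃ C2 : ℚ, 0 ≤ C2 ∧ ∀ i, ∀ β ∈ T i, ∀ (Fr : Frb k kb K Ω)
      (D : DM k Ω θ r), D.Fix Fr → ∀ (N : Submodule K (JJ (Fin r) M → K)) (h : ℚ),
        QD Fr.toK ((Psi k θ r D.g Fr.c M).map (pt K β)) N h → ScalAt Ω N β i →
        D.h kb ≤ C2 * (1 + h) := by
    have key : ∀ i β, ∃ C : ℚ, 0 ≤ C ∧ (β ∈ T i → ∀ (Fr : Frb k kb K Ω)
        (D : DM k Ω θ r), D.Fix Fr → ∀ (N : Submodule K (JJ (Fin r) M → K)) (h : ℚ),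
          QD Fr.toK ((Psi k θ r D.g Fr.c M).map (pt K β)) N h → ScalAt Ω N β i →
          D.h kb ≤ C * (1 + h)) := by
      intro i β
      by_cases hβ : β ∈ T i
      · obtain ⟨C, h0, h1⟩ := hd1 β i (hT1 i β hβ).2.1 (hT1 i β hβ).2.2
        exact ⟨C, h0, fun _ => h1 M⟩
      · exact ⟨0, le_rfl, fun h => absurd h hβ⟩
    choose Cf h0 h1 using key
    refine ⟨∑ i, ∑ β ∈ T i, Cf i β,
      Finset.sum_nonneg fun i _ => Finset.sum_nonneg fun β _ => h0 i β,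
      fun i β hβ Fr D hD N h q hs => (h1 i β hβ Fr D hD N h q hs).trans ?_⟩
    have h2 := q.h0
    refine mul_le_mul_of_nonneg_right ?_ (by linarith)
    exact (Finset.single_le_sum (fun β _ => h0 i β) hβ).trans
      (Finset.single_le_sum (f := fun i => ∑ β ∈ T i, Cf i β)
        (fun i _ => Finset.sum_nonneg fun β _ => h0 i β) (Finset.mem_univ i))
  obtain ⟨C1, hC1, hwt⟩ := psi_wt (k := k) hK θ hr M
  obtain ⟨j, hj⟩ := core_exp (C2 * C1) (mul_nonneg hC2 hC1) (Fintype.card (JJ (Fin r) M)) e M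
    (Nat.card k) Fr.c (two_le_card (K := k)) Fr.c_pos
  obtain ⟨c, hc⟩ : ∃ c, c = 3 * (Fr.pow j).c * M := ⟨_, rfl⟩
  have hc2 : 2 * (Fr.pow j).c * M ≤ c := by
    rw [hc]
    exact Nat.mul_le_mul_right _ (Nat.mul_le_mul_right _ (by norm_num))
  obtain ⟨P, hP⟩ : ∃ P : ℚ,
      P = 2 * (Fintype.card (JJ (Fin r) M) * (e + 4 * (c : ℚ) + 1) ^ 2 + 1) ^ 2 := ⟨_, rfl⟩
  have hQ : (0 : ℚ) < (Fr.pow j).toK.Q := by
    have := (Fr.pow j).toK.two_le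
    exact_mod_cast (show 0 < (Fr.pow j).toK.Q by omega)
  have hj' : C2 * C1 * P ≤ ((Fr.pow j).toK.Q : ℚ) / 2 := by
    rw [hP, hc]
    exact hj
  refine ⟨e + 5 * c + 1, by omega, fun n C0 => ?_⟩
  obtain ⟨Hs⟩ := exists_hs hB (Fr.pow j)
  obtain ⟨Cq, hCq, hq⟩ := quot (J := JJ (Fin r) M) hK Hs (dlt k θ (Fr.pow j).c M) c e n (C0 j)
  refine ⟨2 * C2 * (1 + Cq) + 1 + 2 * (C2 * P * C0 j / (Fr.pow j).toK.Q),
    fun D hD hS B _ _ _ hn W hW hTw hN hrel => ?_⟩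
  obtain ⟨t⟩ := hTw j
  have hdeg : ∀ i i', (Psi k θ r D.g (Fr.pow j).c M i i').totalDegree ≤ c :=
    fun i i' => (Psi_deg _ _ i i').trans hc2
  have hst := hS τ hτ M j _ (isSat_sat (W.rel e : Set (JJ (Fin r) M → R2 K)))
    (sat_tau gp_prime (fun f => gp_map_eq_zero_iff (Fr.pow j).toK.F f)
      fun x hx => hrel (W.rel_mono (by omega) (t.tau_rel hdeg hx)))
  obtain ⟨p, hp⟩ := CharP.exists k
  have : Fact p.Prime := ⟨CharP.char_is_prime k p⟩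
  have : CharP Ω p := charP_of_injective_algebraMap (algebraMap k Ω).injective p
  obtain ⟨i, f, hf, hfd, hsc⟩ := scal_pt (Ω := Ω) τ W hW e hN hst p
  obtain ⟨β, hβ, hfβ⟩ := hT2 i f hfd hf
  obtain ⟨h1, h2⟩ := hsc β (hT1 i β hβ).1 hfβ
  obtain ⟨Ψ', hΨ1, hΨ2⟩ := Psi_inv (k := k) (θ := θ) D.ne (Fr.pow j).c M
  obtain ⟨wt, w1, w2, w3, w4⟩ := hwt D.g D.ne
  have hh : 0 ≤ D.h kb := hJ_nonneg _ _ _
  obtain ⟨qd⟩ := hq B hn W _ Ψ' t hΨ2 ((dlt_deg _ _).trans hc2) hdeg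
    (fun a b => hc ▸ hΨ1 a b) (W.unit_dlt hB.tr _ _) β (pt_dlt hB.tr _ _ β)
    (by
      rintro _ ⟨x, hx, rfl⟩
      exact h1 x (hrel hx))
    (C1 * (D.h kb + 1) + C0 j) (by positivity)
    (fun a ha => (t.h0 hK wt w1
      (fun v => w2 _ _ ((hD.pow j).ord v).1 ((hD.pow j).ord v).2)
      (fun v => w3 (Fr.pow j).c v) ha).trans (add_le_add_left (w4 a) _))
  have h3 := hpt i β hβ (Fr.pow j) D (hD.pow j) _ _ qd h2
  rw [← hP] at h3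
  have h4 : C2 * C1 * P / (Fr.pow j).toK.Q ≤ 1 / 2 := by
    rw [div_le_iff₀ hQ]
    linarith
  have h5 := mul_le_mul_of_nonneg_right h4 (show 0 ≤ D.h kb + 1 by linarith)
  have h6 : C2 * (1 + (P * (C1 * (D.h kb + 1) + C0 j) / (Fr.pow j).toK.Q + Cq)) =
      C2 * (1 + Cq) + C2 * C1 * P / (Fr.pow j).toK.Q * (D.h kb + 1) +
        C2 * P * C0 j / (Fr.pow j).toK.Q := by ring
  linarith

/-- iterate `ht_step` and use `sat_chain` -/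
theorem ht_main (hB : Base kb θ) (hr : 0 < r) (Fr : Frb k kb K Ω) {τ : Fin 2 → PowerSeries kb}
    (hτ : Adm k τ) (M : ℕ) : ∃ Dg : ℕ, ∀ (n : ℕ) (C0 : ℕ → ℕ), ∃ C : ℚ,
      ∀ D : DM k Ω θ r, D.Fix Fr → D.Std Fr →
      ∀ (B : Type) [AddCommGroup B] [Module K B] [FiniteDimensional K B], Module.finrank K B ≤ n →
      ∀ W : Wd kb K B (JJ (Fin r) M), (∀ f, gp K τ f = 0 → W.ev f = 0) →
      (∀ j, Nonempty (Tw W (Fr.pow j).toK (Psi k θ r D.g (Fr.pow j).c M) (C0 j))) →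
      Nondeg W τ Dg → D.h kb ≤ C := by
  choose nx hnx Cs hCs using ht_step hB hr Fr hτ M
  have hmono : Monotone fun i : ℕ => nx^[i] 0 := monotone_nat_of_le_succ fun i => by
    rw [Function.iterate_succ_apply']
    exact hnx _
  refine ⟨Fintype.card (JJ (Fin r) M) * nx^[Fintype.card (JJ (Fin r) M)] 0, fun n C0 =>
    ⟨∑ i ∈ Finset.range (Fintype.card (JJ (Fin r) M) + 1), |Cs (nx^[i] 0) n C0|,
      fun D hD hS B _ _ _ hn W hW hTw hN => ?_⟩⟩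
  obtain ⟨i, hi, h⟩ := sat_chain (gp_prime (K := K) (τ := τ))
    (fun i => sat (RingHom.ker (gp K τ)) (W.rel (nx^[i] 0) : Set (JJ (Fin r) M → R2 K)))
    (fun i => isSat_sat _) fun i => sat_mono (W.rel_mono (hmono i.le_succ))
  have h1 := hCs (nx^[i] 0) n C0 D hD hS B hn W hW hTw
    (fun Δ h1 h2 => hN Δ (h1.trans (Nat.mul_le_mul_left _ (hmono hi))) h2)
    fun x hx => h (subset_sat _ (by rwa [Function.iterate_succ_apply']))
  exact (h1.trans (le_abs_self _)).trans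
    (Finset.single_le_sum (f := fun i => |Cs (nx^[i] 0) n C0|) (fun _ _ => abs_nonneg _)
      (Finset.mem_range.2 (by omega)))

end Pool.Agent.Lib.MP_6adaea_nt.U
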