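import Pool.Agent.Lib.MP_6adaea_nt.U.Defs2

/-!
Reduction of the coefficients to the constants.
-/

set_option linter.unusedSectionVars false

namespace Pool.Agent.Lib.MP_6adaea_nt.U
open Matrix Polynomial G
open scoped TensorProduct

variable {kb K : Type} [Field kb] [Field K] [Algebra kb K] {τ : Fin 2 → PowerSeries kb}


/-- a `kb`-basis of the span of the coefficients -/
theorem decomp (kb : Type) [Field kb] [Algebra kb K] (f : R2 K) :
    ∃ (m : ℕ) (κ : Fin m → K) (f0 : Fin m → R2 kb), LinearIndependent kb κ ∧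
      (∀ i, (f0 i).totalDegree ≤ f.totalDegree) ∧
      f = ∑ i, MvPolynomial.C (κ i) * MvPolynomial.map (algebraMap kb K) (f0 i) := by
  classical
  let B := Module.Basis.ofVectorSpace kb K
  let s := f.support.biUnion fun m => (B.repr (f.coeff m)).support
  let e : Fin s.card ≃ s := s.equivFin.symm
  refine ⟨s.card, fun i => B (e i), fun i => ∑ m ∈ f.support,
    MvPolynomial.monomial m (B.repr (f.coeff m) (e i)),
    B.linearIndependent.comp (fun i => (e i).1) (Subtype.val_injective.comp e.injective),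
    fun i => ?_, ?_⟩
  · exact MvPolynomial.totalDegree_finsetSum_le fun m hm =>
      (MvPolynomial.totalDegree_monomial_le _ _).trans (MvPolynomial.le_totalDegree hm)
  · simp only [map_sum, MvPolynomial.map_monomial, Finset.mul_sum, MvPolynomial.C_mul_monomial]
    rw [Finset.sum_comm]
    conv_lhs => rw [f.as_sum]
    refine Finset.sum_congr rfl fun m hm => ?_
    rw [← map_sum]
    congr 1
    rw [e.sum_comp fun j : s => B j * algebraMap kb K (B.repr (f.coeff m) j),
      Finset.sum_coe_sort s fun j => B j * algebraMap kb K (B.repr (f.coeff m) j)]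
    conv_lhs => rw [← B.linearCombination_repr (f.coeff m), Finsupp.linearCombination_apply]
    rw [Finsupp.sum_of_support_subset _
      (Finset.subset_biUnion_of_mem (fun m => (B.repr (f.coeff m)).support) hm)
      (fun j a => a • B j) fun _ _ => zero_smul _ _]
    exact Finset.sum_congr rfl fun j _ => by rw [Algebra.smul_def, mul_comm]

theorem gp_map (f : R2 kb) : gp K τ (MvPolynomial.map (algebraMap kb K) f) =
    PowerSeries.map (algebraMap kb K) (gp kb τ f) := by
  induction f using MvPolynomial.induction_on with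
  | C a => simp [gp]
  | add p q hp hq => rw [map_add, map_add, map_add, map_add, hp, hq]
  | mul_X p i hp =>
    rw [map_mul, map_mul, map_mul, map_mul, hp]
    simp [gp]

theorem pt_map (β : Fin 2 → kb) (f : R2 kb) :
    pt K β (MvPolynomial.map (algebraMap kb K) f) = algebraMap kb K (pt kb β f) := by
  induction f using MvPolynomial.induction_on with
  | C a => simp [pt]
  | add p q hp hq => rw [map_add, map_add, map_add, map_add, hp, hq]
  | mul_X p i hp =>
    rw [map_mul, map_mul, map_mul, map_mul, hp]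
    simp [pt]

theorem gp_map_F {K' : Type} [Field K'] [Algebra kb K'] (F : K →ₐ[kb] K') (f : R2 K) :
    gp K' τ (MvPolynomial.map (F : K →+* K') f) = PowerSeries.map (F : K →+* K') (gp K τ f) := by
  induction f using MvPolynomial.induction_on with
  | C a => simp [gp]
  | add p q hp hq => rw [map_add, map_add, map_add, map_add, hp, hq]
  | mul_X p i hp =>
    rw [map_mul, map_mul, map_mul, map_mul, hp]
    congr 1
    ext n
    simp [gp]

theorem pt_map_F {K' : Type} [Field K'] [Algebra kb K'] (F : K →ₐ[kb] K') (β : Fin 2 → kb)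
    (f : R2 K) : pt K' β (MvPolynomial.map (F : K →+* K') f) = F (pt K β f) := by
  induction f using MvPolynomial.induction_on with
  | C a => simp [pt]
  | add p q hp hq => rw [map_add, map_add, map_add, map_add, hp, hq]
  | mul_X p i hp =>
    rw [map_mul, map_mul, map_mul, map_mul, hp]
    simp [pt]

theorem gp_map_eq_zero_iff (F : K →ₐ[kb] K) (f : R2 K) :
    gp K τ (MvPolynomial.map (F : K →+* K) f) = 0 ↔ gp K τ f = 0 := by
  rw [gp_map_F]
  exact map_eq_zero_iff _ (PowerSeries.map_injective _ (F : K →+* K).injective)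

theorem gp_prime : (RingHom.ker (gp K τ)).IsPrime := RingHom.ker_isPrime _

theorem dcp_coeff {m : ℕ} {κ : Fin m → K} (hκ : LinearIndependent kb κ)
    (f0 : Fin m → R2 kb) (n : ℕ) :
    PowerSeries.coeff n
      (gp K τ (∑ i, MvPolynomial.C (κ i) * MvPolynomial.map (algebraMap kb K) (f0 i))) = 0 ↔
      ∀ i, PowerSeries.coeff n (gp kb τ (f0 i)) = 0 := by
  have e : PowerSeries.coeff n
      (gp K τ (∑ i, MvPolynomial.C (κ i) * MvPolynomial.map (algebraMap kb K) (f0 i))) =
      ∑ i, PowerSeries.coeff n (gp kb τ (f0 i)) • κ i := by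
    rw [map_sum, map_sum]
    refine Finset.sum_congr rfl fun i _ => ?_
    rw [← MvPolynomial.smul_eq_C_mul, map_smul, map_smul, gp_map, PowerSeries.coeff_map,
      smul_eq_mul, Algebra.smul_def, mul_comm]
  rw [e]
  exact ⟨fun h => Fintype.linearIndependent_iff.1 hκ _ h, fun h => by simp [h]⟩

theorem X_pow_dvd_gp_iff {m : ℕ} {κ : Fin m → K} (hκ : LinearIndependent kb κ)
    (f0 : Fin m → R2 kb) (o : ℕ) :
    PowerSeries.X ^ o ∣
      gp K τ (∑ i, MvPolynomial.C (κ i) * MvPolynomial.map (algebraMap kb K) (f0 i)) ↔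
      ∀ i, PowerSeries.X ^ o ∣ gp kb τ (f0 i) := by
  simp only [PowerSeries.X_pow_dvd_iff, dcp_coeff hκ]
  exact ⟨fun h i n hn => h n hn i, fun h n hn i => h i n hn⟩

theorem gp_eq_zero_iff {m : ℕ} {κ : Fin m → K} (hκ : LinearIndependent kb κ)
    (f0 : Fin m → R2 kb) :
    gp K τ (∑ i, MvPolynomial.C (κ i) * MvPolynomial.map (algebraMap kb K) (f0 i)) = 0 ↔
      ∀ i, gp kb τ (f0 i) = 0 := by
  simp only [PowerSeries.ext_iff, map_zero, dcp_coeff hκ]
  exact forall_comm

theorem OnC.pt {β : Fin 2 → kb} (h : OnC τ β) {f : R2 K} (hf : gp K τ f = 0) : pt K β f = 0 := by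
  obtain ⟨m, κ, f0, hκ, -, e⟩ := decomp kb f
  rw [e] at hf ⊢
  rw [map_sum]
  refine Finset.sum_eq_zero fun i _ => ?_
  rw [map_mul, pt_map, h _ ((gp_eq_zero_iff hκ f0).1 hf i), map_zero, mul_zero]

theorem evS_eq_zero {S : Type} [CommRing S] [Algebra kb S] {t : Fin 2 → S}
    (h : ∀ f : R2 kb, gp kb τ f = 0 → MvPolynomial.aeval t f = 0) {f : R2 K}
    (hf : gp K τ f = 0) : evS kb K t f = 0 := by
  obtain ⟨m, κ, f0, hκ, -, e⟩ := decomp kb f
  rw [e] at hf ⊢
  rw [map_sum]
  refine Finset.sum_eq_zero fun i _ => ?_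
  have e' : evS kb K t (MvPolynomial.map (algebraMap kb K) (f0 i)) =
      (Algebra.TensorProduct.includeRight : S →ₐ[kb] K ⊗[kb] S) (MvPolynomial.aeval t (f0 i)) := by
    rw [evS, MvPolynomial.aeval_map_algebraMap, MvPolynomial.comp_aeval_apply]
    rfl
  rw [map_mul, e', h _ ((gp_eq_zero_iff hκ f0).1 hf i), map_zero, mul_zero]

/-- the subspaces `{f | X ^ o ∣ gp f}` of the polynomials over `kb` of degree `≤ D` decrease
to the kernel -/
theorem ord_bound (K : Type) [Field K] [Algebra kb K] (τ : Fin 2 → PowerSeries kb) (D : ℕ) :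
    ∃ o : ℕ, ∀ f : R2 K, f.totalDegree ≤ D → gp K τ f ≠ 0 → ¬PowerSeries.X ^ (o + 1) ∣ gp K τ f := by
  let V := MvPolynomial.restrictTotalDegree (Fin 2) K D
  let N : ℕ → Submodule K V := fun o =>
    ((Ideal.span {(PowerSeries.X : PowerSeries K) ^ o}).restrictScalars K).comap
      ((gp K τ).toLinearMap ∘ₗ V.subtype)
  have hN : ∀ o (f : V), f ∈ N o ↔ PowerSeries.X ^ o ∣ gp K τ f := fun o f =>
    Ideal.mem_span_singleton
  obtain ⟨o, ho⟩ := IsArtinian.monotone_stabilizes (R := K) (M := V)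
    ⟨fun o => OrderDual.toDual (N o), fun a b hab f hf =>
      (hN a f).2 ((pow_dvd_pow _ hab).trans ((hN b f).1 hf))⟩
  refine ⟨o, fun f hf h0 hd => h0 ?_⟩
  ext n
  have h1 : (⟨f, (MvPolynomial.mem_restrictTotalDegree _ _ _).2 hf⟩ : V) ∈ N o :=
    (hN _ _).2 ((pow_dvd_pow _ o.le_succ).trans hd)
  have h2 : N o = N (o + (n + 1)) := ho _ (Nat.le_add_right _ _)
  rw [h2] at h1
  exact PowerSeries.X_pow_dvd_iff.1 ((hN _ _).1 h1) n (by omega)

theorem dcp_exists_deg (k kb : Type) [Field k] [Finite k] [Field kb] [Algebra k kb]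
    [IsAlgClosed kb] (l : ℕ) (hl : l ≠ 0) : ∃ x : kb, (minpoly k x).natDegree = l := by
  obtain ⟨p, hp⟩ := CharP.exists k
  have : Fact p.Prime := ⟨CharP.char_is_prime k p⟩
  have : NeZero l := ⟨hl⟩
  obtain ⟨α, hα⟩ := Field.exists_primitive_element k (FiniteField.Extension k p l)
  let φ : FiniteField.Extension k p l →ₐ[k] kb := IsAlgClosed.lift
  refine ⟨φ α, ?_⟩
  rw [minpoly.algHom_eq φ φ.toRingHom.injective,
    (Field.primitive_element_iff_minpoly_natDegree_eq k α).1 hα, FiniteField.finrank_extension]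

/-- for a prime `l > r` there is `x` with `x ^ q ^ l = x`, `x ^ q ≠ x`; it has degree `l` -/
theorem av_infinite (k kb : Type) [Field k] [Finite k] [Field kb] [Algebra k kb] [IsAlgClosed kb]
    (d r : ℕ) : {x : kb | d ≤ (minpoly k x).natDegree ∧
      (minpoly k x).natDegree.Coprime r.factorial}.Infinite := by
  refine Set.Infinite.of_image (fun x => (minpoly k x).natDegree)
    (Set.infinite_of_forall_exists_gt fun n => ?_)
  obtain ⟨l, hl, hp⟩ := Nat.exists_infinite_primes (n + d + r + 1)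
  obtain ⟨x, hx⟩ := dcp_exists_deg k kb l hp.ne_zero
  refine ⟨l, ⟨x, ⟨by omega, ?_⟩, hx⟩, by omega⟩
  rw [hx, Nat.Prime.coprime_iff_not_dvd hp, hp.dvd_factorial]
  omega

/-- the elements of bounded degree are finite in number -/
theorem exists_deg_poly (k kb : Type) [Field k] [Finite k] [Field kb] [Algebra k kb]
    [Algebra.IsAlgebraic k kb] (d : ℕ) :
    ∃ h : kb[X], h ≠ 0 ∧ ∀ x : kb, h.eval x ≠ 0 → d ≤ (minpoly k x).natDegree := by
  classical
  have : Finite (degreeLT k d) := Module.finite_of_finite k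
  have hT : {p : k[X] | p ∈ degreeLT k d ∧ p ≠ 0}.Finite :=
    (Set.toFinite (degreeLT k d : Set k[X])).subset fun p hp => hp.1
  refine ⟨∏ p ∈ hT.toFinset, p.map (algebraMap k kb),
    Finset.prod_ne_zero_iff.2 fun p hp => map_ne_zero (hT.mem_toFinset.1 hp).2, fun x hx => ?_⟩
  by_contra hd
  have hi : IsIntegral k x := (Algebra.IsAlgebraic.isAlgebraic x).isIntegral
  refine hx ?_
  rw [eval_prod]
  refine Finset.prod_eq_zero (hT.mem_toFinset.2 ⟨mem_degreeLT.2 ?_, minpoly.ne_zero hi⟩) ?_
  · exact (natDegree_lt_iff_degree_lt (minpoly.ne_zero hi)).1 (not_le.1 hd)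
  · rw [eval_map_algebraMap, minpoly.aeval]

/-- a nonconstant power series is transcendental -/
theorem aeval_ne_zero [IsAlgClosed kb] {s : PowerSeries kb} (hs : ∀ c, s ≠ PowerSeries.C c)
    {h : kb[X]} (hh : h ≠ 0) : aeval s h ≠ 0 := by
  intro h0
  have hi : IsIntegral kb s := IsAlgebraic.isIntegral ⟨h, hh, h0⟩
  obtain ⟨c, hc⟩ := minpoly.mem_range_of_degree_eq_one kb s
    (IsAlgClosed.degree_eq_one_of_irreducible kb (minpoly.irreducible hi))
  exact hs c hc.symm

end Pool.Agent.Lib.MP_6adaea_nt.U
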