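import Pool.Agent.Lib.MP_6adaea_nt.Defs
import Pool.Agent.Lib.MP_6adaea_nt.U.RDefs

/-!
Definitions: function fields, valuations, Frobenius data, norms and heights, windows.
-/

set_option linter.unusedSectionVars false

namespace Pool.Agent.Lib.MP_6adaea_nt.U
open Matrix Polynomial G
open scoped TensorProduct

/-- the sum of the values of a finitely supported function -/
def tot {α M : Type} [AddCommMonoid M] (c : α →₀ M) : M := c.sum fun _ x => x

section ff
variable (kb K Ω : Type) [Field kb] [Field K] [Field Ω] [Algebra kb K] [Algebra kb Ω]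

/-- function fields of one variable with constant field `kb` and places of degree one -/
structure FF : Prop where
  fin : ∀ x : K, {v : Place kb K | v.ord x ≠ 0}.Finite
  prod : ∀ x : K, ∑ᶠ v : Place kb K, v.ord x = 0
  res : ∀ (v : Place kb K) (x : K), v.Ge x 0 → ∃ c : kb, v.Ge (x - algebraMap kb K c) 1
  const : ∀ x : K, (∀ v : Place kb K, v.Ge x 0) → ∃ c : kb, x = algebraMap kb K c

/-- a valuation with rational values that is trivial on `kb` (junk value `0` at `0`) -/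
@[ext] structure Val where
  ord : Ω → ℚ
  ord_zero : ord 0 = 0
  ord_mul : ∀ {f g : Ω}, f ≠ 0 → g ≠ 0 → ord (f * g) = ord f + ord g
  ord_add : ∀ {f g : Ω}, f ≠ 0 → g ≠ 0 → f + g ≠ 0 → min (ord f) (ord g) ≤ ord (f + g)
  ord_const : ∀ c : kb, ord (algebraMap kb Ω c) = 0

variable {kb K Ω}

def Val.Ge (V : Val kb Ω) (x : Ω) (m : ℚ) : Prop := x = 0 ∨ m ≤ V.ord x

def Val.Gt (V : Val kb Ω) (x : Ω) (m : ℚ) : Prop := x = 0 ∨ m < V.ord x

/-- `V` extends `v` -/
def Val.Over [Algebra K Ω] (V : Val kb Ω) (v : Place kb K) : Prop :=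
  ∀ x : K, V.ord (algebraMap K Ω x) = v.ord x

variable (K) in
/-- the stabiliser of `V`, which is its inertia group when the residue field is `kb` -/
def Val.inert [Algebra K Ω] (V : Val kb Ω) : Subgroup (Ω ≃ₐ[K] Ω) where
  carrier := {σ | ∀ x, V.ord (σ x) = V.ord x}
  one_mem' := fun _ => rfl
  mul_mem' := fun {a b} ha hb x => (ha (b x)).trans (hb x)
  inv_mem' := fun {a} ha x => by
    have := ha (a⁻¹ x)
    rw [← AlgEquiv.mul_apply, mul_inv_cancel, AlgEquiv.one_apply] at this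
    exact this.symm

variable (kb) in
/-- `K` is a finite extension of `kb(θ)` -/
structure Base (θ : K) : Prop where
  tr : Transcendental kb θ
  fin : FiniteDimensional (IntermediateField.adjoin kb {θ}) K

variable (kb K) in
/-- a `kb`-linear Frobenius map of `K` -/
structure FrK where
  Q : ℕ
  two_le : 2 ≤ Q
  F : K →ₐ[kb] K
  π : Place kb K ≃ Place kb K
  ord_F : ∀ v x, (π v).ord (F x) = Q * v.ord x

/-- the underlying ring homomorphism -/
abbrev FrK.σ (Fr : FrK kb K) : K →+* K := Fr.F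

/-- coordinates of `K` over `F K` and Hasse derivatives -/
structure HS (Fr : FrK kb K) where
  bs : ℕ → K
  co : ℕ → K →+ K
  sum : ∀ f, f = ∑ μ ∈ Finset.range Fr.Q, bs μ * Fr.F (co μ f)
  uniq : ∀ x : ℕ → K, ∑ μ ∈ Finset.range Fr.Q, bs μ * Fr.F (x μ) = 0 → ∀ μ < Fr.Q, x μ = 0
  d : ℕ → K →+ K
  d_zero : ∀ f, d 0 f = f
  d_F : ∀ j x f, d j (Fr.F x * f) = Fr.F x * d j f
  d_mul : ∀ j < Fr.Q, ∀ f g, d j (f * g) = ∑ i ∈ Finset.range (j + 1), d i f * d (j - i) g
  κ : Place kb K →₀ ℕ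
  d_ge : ∀ j < Fr.Q, ∀ (v : Place kb K) f, v.Ge f 0 → v.Ge (d j f) (-(κ v : ℤ))
  recon : ∀ μ < Fr.Q, ∃ a : ℕ → K, ∀ f, Fr.F (co μ f) = ∑ j ∈ Finset.range Fr.Q, a j * d j f

open Classical in
/-- the local height of the `J`-invariants -/
noncomputable def lam (q r : ℕ) (g : ℕ → K) (v : Place kb K) : ℚ :=
  (Finset.Icc 1 r).fold max 0 fun i =>
    if g i = 0 then 0 else (v.ord (g r) : ℚ) / (q ^ r - 1) - (v.ord (g i) : ℚ) / (q ^ i - 1)

variable (kb) in
/-- the height of the `J`-invariants -/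
noncomputable def hJ (q r : ℕ) (g : ℕ → K) : ℚ := ∑ᶠ v : Place kb K, lam q r g v

end ff

section nrm
variable {kb K : Type} [Field kb] [Field K] [Algebra kb K]

/-- a norm at one place (junk value at `0`) -/
structure Nrm (v : Place kb K) (B : Type) [AddCommGroup B] [Module K B] where
  ν : B → ℤ
  smul : ∀ {f : K} {b : B}, f ≠ 0 → b ≠ 0 → ν (f • b) = v.ord f + ν b
  add : ∀ {a b : B}, a ≠ 0 → b ≠ 0 → a + b ≠ 0 → min (ν a) (ν b) ≤ ν (a + b)
  bdd : ∀ (S : Submodule K B) (x : B), x ∉ S → BddAbove ((fun s => ν (x + s)) '' S)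

variable {B : Type} [AddCommGroup B] [Module K B] {v : Place kb K}

def Nrm.Ge (N : Nrm v B) (b : B) (m : ℤ) : Prop := b = 0 ∨ m ≤ N.ν b

/-- the distance from a subspace -/
noncomputable def Nrm.del (N : Nrm v B) (x : B) (S : Submodule K B) : ℤ :=
  sSup ((fun s => N.ν (x + s)) '' S)

/-- orthonormal bases -/
def Nrm.Orth (N : Nrm v B) {ι : Type} (b : Module.Basis ι K B) : Prop :=
  ∀ x m, N.Ge x m ↔ ∀ i, v.Ge (b.repr x i) m

variable (kb K B) in
/-- a family of norms -/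
structure NFam where
  N : ∀ v : Place kb K, Nrm v B
  ae : ∀ (S : Submodule K B) (x : B), x ∉ S → {v | (N v).del x S ≠ 0}.Finite

/-- the height of a subspace -/
noncomputable def NFam.ht (N : NFam kb K B) : Submodule K B → ℤ :=
  Classical.epsilon fun H => H ⊥ = 0 ∧
    ∀ S x, x ∉ S → H (S ⊔ Submodule.span K {x}) = H S - ∑ᶠ v, (N.N v).del x S

/-- a semilinear operator with two sided bounds -/
structure Th (N : NFam kb K B) (Fr : FrK kb K) (C0 : ℕ) where
  T : B →ₛₗ[Fr.σ] B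
  span : Submodule.span K (Set.range T) = ⊤
  lo : Place kb K →₀ ℤ
  hi : Place kb K →₀ ℤ
  bnd : ∀ v, ∃ (n : ℕ) (b : Module.Basis (Fin n) K B), (N.N v).Orth b ∧
    ∀ (c : Fin n → K) (m : ℤ),
      ((∀ i, (Fr.π v).Ge (c i) m) → (N.N (Fr.π v)).Ge (∑ i, c i • T (b i)) (m + lo (Fr.π v))) ∧
      ((N.N (Fr.π v)).Ge (∑ i, c i • T (b i)) m → ∀ i, (Fr.π v).Ge (c i) (m - hi (Fr.π v)))
  lo_ge : -(C0 : ℤ) ≤ tot lo
  hi_le : tot hi ≤ C0

variable (kb K B) in
/-- a window -/
structure Wd (J : Type) where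
  N : NFam kb K B
  ev : R2 K →ₐ[K] Module.End K B
  y : J → B
  ev_ge : ∀ i v b m, (N.N v).Ge b m → (N.N v).Ge (ev (MvPolynomial.X i) b) m
  unit : ∀ i (x : K), Transcendental kb x → IsUnit (ev (MvPolynomial.X i - MvPolynomial.C x))

variable {J : Type} [Fintype J]

/-- the map from the free module to the window -/
noncomputable def Wd.im (W : Wd kb K B J) : (J → R2 K) →ₗ[K] B where
  toFun x := ∑ j, W.ev (x j) (W.y j)
  map_add' x y := by simp [Finset.sum_add_distrib]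
  map_smul' c x := by simp [Finset.smul_sum]

variable (K J) in
/-- vectors of degree at most `e` -/
noncomputable def degLE (e : ℕ) : Submodule K (J → R2 K) :=
  Submodule.pi Set.univ fun _ => MvPolynomial.restrictTotalDegree (Fin 2) K e

/-- relations of degree at most `e` -/
noncomputable def Wd.rel (W : Wd kb K B J) (e : ℕ) : Submodule K (J → R2 K) :=
  degLE K J e ⊓ LinearMap.ker W.im

/-- the values of the relations at a point -/
noncomputable def Wd.relAt (W : Wd kb K B J) (e : ℕ) (β : Fin 2 → kb) : Submodule K (J → K) :=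
  (W.rel e).map ((pt K β).toLinearMap.compLeft J)

/-- a Frobenius operator on a window -/
structure Tw (W : Wd kb K B J) (Fr : FrK kb K) (Ψ : Matrix J J (R2 K)) (C0 : ℕ)
    extends Th W.N Fr C0 where
  T_ev : ∀ i b, T (W.ev (MvPolynomial.X i) b) = W.ev (MvPolynomial.X i) (T b)
  T_y : ∀ j, T (W.y j) = ∑ j', W.ev (Ψ j j') (W.y j')

/-- the semilinear operator on the free module -/
noncomputable def tau (F : K →+* K) (Ψ : Matrix J J (R2 K)) (x : J → R2 K) : J → R2 K :=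
  (fun j => MvPolynomial.map F (x j)) ᵥ* Ψ

/-- two norm families on the quotient by `N` with small heights -/
structure QD (Fr : FrK kb K) (P : Matrix J J K) (N : Submodule K (J → K)) (h : ℚ) where
  N1 : NFam kb K ((J → K) ⧸ N)
  N2 : NFam kb K ((J → K) ⧸ N)
  FQ : ((J → K) ⧸ N) →ₛₗ[Fr.σ] ((J → K) ⧸ N)
  FQ_mk : ∀ x, FQ (N.mkQ x) = N.mkQ ((fun j => Fr.F (x j)) ᵥ* P)
  lo : Place kb K →₀ ℤ
  le : ∀ v x m, (N1.N v).Ge x m → (N2.N v).Ge x m
  ge : ∀ v x m, (N1.N v).Ge x m → (N2.N (Fr.π v)).Ge (FQ x) (Fr.Q * m + lo (Fr.π v))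
  h1 : (N1.ht ⊤ : ℚ) ≤ h
  h2 : -(N2.ht ⊤ : ℚ) ≤ h
  h3 : -(Fintype.card J * tot lo : ℤ) ≤ h
  h0 : 0 ≤ h

/-- the window sees the action of the elementary matrices -/
def Nondeg {n : Type} [Fintype n] [DecidableEq n] {M : ℕ} (W : Wd kb K B (JJ n M))
    (τ : Fin 2 → PowerSeries kb) (D : ℕ) : Prop :=
  ∀ Δ : R2 K, Δ.totalDegree ≤ D → gp K τ Δ ≠ 0 → ∃ a b : n, a ≠ b ∧ ∃ c0 c1 : kb, ∃ j,
    W.ev Δ (W.im ((rep M MvPolynomial.X (elc (R2 K) a b c0 c1) - 1) j)) ≠ 0

end nrm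

section frame
variable (k kb K Ω : Type) [Field k] [Finite k] [Field kb] [Field K] [Field Ω] [Algebra k kb]
  [Algebra k K] [Algebra k Ω] [Algebra kb K] [Algebra kb Ω] [Algebra K Ω]
  [IsScalarTower k kb K] [IsScalarTower k kb Ω] [IsScalarTower k K Ω] [IsScalarTower kb K Ω]

/-- an automorphism that inverts a power of Frobenius on the constants -/
structure Frb where
  c : ℕ
  c_pos : 0 < c
  γ : Ω ≃ₐ[k] Ω
  γK : K ≃ₐ[k] K
  compat : ∀ x : K, γ (algebraMap K Ω x) = algebraMap K Ω (γK x)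
  frob : ∀ x : kb, γK (algebraMap kb K x) ^ Nat.card k ^ c = algebraMap kb K x
  orb : ∀ x : Ω, ∃ n, 0 < n ∧ (γ ^ n) x = x

variable {k kb K Ω}

namespace Frb
variable (Fr : Frb k kb K Ω)

/-- the exponent -/
noncomputable def Q : ℕ := Nat.card k ^ Fr.c

lemma two_le : 2 ≤ Fr.Q :=
  (two_le_card (K := k)).trans (Nat.le_self_pow Fr.c_pos.ne' _)

lemma symm_const (x : kb) : Fr.γK.symm (algebraMap kb K x) = algebraMap kb K (x ^ Fr.Q) := by
  rw [AlgEquiv.symm_apply_eq, map_pow, map_pow, Q, Fr.frob]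

lemma compat_pow (n : ℕ) (x : K) :
    (Fr.γ ^ n) (algebraMap K Ω x) = algebraMap K Ω ((Fr.γK ^ n) x) := by
  induction n with
  | zero => rfl
  | succ n ih => rw [pow_succ', pow_succ', AlgEquiv.mul_apply, AlgEquiv.mul_apply, ih, Fr.compat]

lemma frob_pow (n : ℕ) (x : kb) :
    (Fr.γK ^ n) (algebraMap kb K x) ^ Nat.card k ^ (Fr.c * n) = algebraMap kb K x := by
  induction n with
  | zero => simp
  | succ n ih =>
    rw [pow_succ', AlgEquiv.mul_apply, Nat.mul_succ, pow_add, pow_mul, ← map_pow, ih, Fr.frob]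

/-- the `(j + 1)`-st power -/
def pow (j : ℕ) : Frb k kb K Ω where
  c := Fr.c * (j + 1)
  c_pos := Nat.mul_pos Fr.c_pos j.succ_pos
  γ := Fr.γ ^ (j + 1)
  γK := Fr.γK ^ (j + 1)
  compat := Fr.compat_pow _
  frob := Fr.frob_pow _
  orb x := by
    obtain ⟨n, hn, h⟩ := Fr.orb x
    refine ⟨n, hn, ?_⟩
    rw [← pow_mul, mul_comm, pow_mul]
    induction j with
    | zero => simpa using h
    | succ j ih => rw [pow_succ, AlgEquiv.mul_apply, h, ih]

/-- the `kb`-linear Frobenius of `K` -/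
noncomputable def FK : K →ₐ[kb] K :=
  { ((G.frob k K ^ Fr.c : K →ₐ[k] K) : K →+* K).comp (Fr.γK : K →+* K) with
    commutes' := fun x => by
      change (G.frob k K ^ Fr.c) (Fr.γK (algebraMap kb K x)) = _
      rw [frob_pow_apply, Fr.frob] }

lemma FK_apply (x : K) : Fr.FK x = Fr.γK x ^ Fr.Q := frob_pow_apply _ _

/-- the `kb`-linear Frobenius of `Ω` -/
noncomputable def FO : Ω →ₐ[kb] Ω :=
  { ((G.frob k Ω ^ Fr.c : Ω →ₐ[k] Ω) : Ω →+* Ω).comp (Fr.γ : Ω →+* Ω) with
    commutes' := fun x => by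
      change (G.frob k Ω ^ Fr.c) (Fr.γ (algebraMap kb Ω x)) = _
      rw [frob_pow_apply, IsScalarTower.algebraMap_apply kb K Ω, Fr.compat, ← map_pow, Fr.frob] }

lemma FO_apply (x : Ω) : Fr.FO x = Fr.γ x ^ Fr.Q := frob_pow_apply _ _

lemma FO_compat (x : K) : Fr.FO (algebraMap K Ω x) = algebraMap K Ω (Fr.FK x) := by
  rw [FO_apply, FK_apply, Fr.compat, map_pow]

/-- transport of places along an automorphism that preserves the constants -/
def mv (e : K ≃ₐ[k] K) (he : ∀ (v : Place kb K) (x : kb), v.ord (e (algebraMap kb K x)) = 0)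
    (v : Place kb K) : Place kb K where
  ord x := v.ord (e x)
  ord_zero := by simp
  ord_mul hf hg := by rw [map_mul, v.ord_mul (by simpa using hf) (by simpa using hg)]
  ord_add hf hg h := by
    rw [map_add]
    exact v.ord_add (by simpa using hf) (by simpa using hg) (by rwa [← map_add, _root_.map_ne_zero])
  ord_const := he v
  surj := by
    obtain ⟨t, h0, h1⟩ := v.surj
    exact ⟨e.symm t, by simpa using h0, by simpa using h1⟩

lemma ord_const (v : Place kb K) (x : kb) : v.ord (Fr.γK (algebraMap kb K x)) = 0 := by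
  have h := congrArg v.ord (Fr.frob x)
  rw [v.ord_pow, v.ord_const] at h
  have := Fr.two_le
  exact (mul_eq_zero.mp h).resolve_left (by rw [Q] at this; omega)

/-- the data on `K` -/
noncomputable def toK : FrK kb K where
  Q := Fr.Q
  two_le := Fr.two_le
  F := Fr.FK
  π :=
    { toFun := mv Fr.γK.symm fun v x => by rw [symm_const, v.ord_const]
      invFun := mv Fr.γK Fr.ord_const
      left_inv := fun v => by ext x; simp [mv]
      right_inv := fun v => by ext x; simp [mv] }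
  ord_F v x := by
    change v.ord (Fr.γK.symm (Fr.FK x)) = _
    rw [FK_apply, map_pow, AlgEquiv.symm_apply_apply, v.ord_pow]

lemma π_ord (v : Place kb K) (x : K) : (Fr.toK.π v).ord x = v.ord (Fr.γK.symm x) := rfl

end Frb

variable (k Ω) in
/-- a Drinfeld module of rank `r` over `K`, acting on `Ω` -/
structure DM (θ : K) (r : ℕ) where
  g : ℕ → K
  φ : Ω →ₗ[k] Ω
  ne : g r ≠ 0
  dr : IsDr (algebraMap K Ω θ) r (fun i => algebraMap K Ω (g i)) φ

variable {θ : K} {r : ℕ}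

/-- the coefficients are fixed by `γ` -/
def DM.Fix (D : DM k Ω θ r) (Fr : Frb k kb K Ω) : Prop := Fr.γK θ = θ ∧ ∀ i, Fr.γK (D.g i) = D.g i

variable (kb) in
/-- the height of a module -/
noncomputable def DM.h (D : DM k Ω θ r) : ℚ := hJ kb (Nat.card k) r D.g

/-- at levels with large prime factors the geometric image contains the elementary matrices -/
def DM.BigK (D : DM k Ω θ r) : Prop :=
  ∃ d : ℕ, ∀ a : k[X], a.Monic → (∀ P : k[X], Irreducible P → P ∣ a → d ≤ P.natDegree) →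
    ∀ (E : Coord D.φ a (Fin r)) (i j : Fin r), i ≠ j → ∀ c : k[X],
      ∃ σ : Ω ≃ₐ[K] Ω, Act E σ (el i j c)

/-- `H` covers the geometric Galois group and `γ` -/
def Cov {φ : Ω →ₗ[k] Ω} {a : k[X]} (E : Coord φ a (Fin r)) (Fr : Frb k kb K Ω)
    (H : Subgroup (GL (Fin r) (AdjoinRoot a))) : Prop :=
  (∀ σ : Ω ≃ₐ[K] Ω, ∃ B ∈ Lifts H, Act E σ B) ∧ ∃ B ∈ Lifts H, Act E Fr.γ B

/-- saturated Frobenius stable modules are stable under the elementary matrices -/
def DM.Std (D : DM k Ω θ r) (Fr : Frb k kb K Ω) : Prop :=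
  ∀ τ : Fin 2 → PowerSeries kb, Adm k τ → ∀ (M j : ℕ)
    (N : Submodule (R2 K) (JJ (Fin r) M → R2 K)), IsSat (RingHom.ker (gp K τ)) N →
    (∀ x ∈ N, tau (Fr.pow j).toK.σ (Psi k θ r D.g (Fr.pow j).c M) x ∈ N) →
    ∀ a b : Fin r, a ≠ b → ∀ c0 c1 : kb, ∀ x ∈ N,
      x ᵥ* rep M MvPolynomial.X (elc (R2 K) a b c0 c1) ∈ N

end frame

section tens
variable {kb : Type} [Field kb] {S : Type} [CommRing S] [Algebra kb S]

/-- a coefficient of an element of `A ⊗ S` -/
noncomputable def cf (A : Type) [Field A] [Algebra kb A] (l : S →ₗ[kb] kb) : A ⊗[kb] S →ₗ[A] A :=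
  (TensorProduct.AlgebraTensorModule.rid kb A A).toLinearMap ∘ₗ l.baseChange A

variable (S) in
/-- action on the first factor -/
noncomputable def act {A A' : Type} [Field A] [Field A'] [Algebra kb A] [Algebra kb A']
    (f : A →ₐ[kb] A') : A ⊗[kb] S →ₐ[kb] A' ⊗[kb] S :=
  Algebra.TensorProduct.map f (AlgHom.id kb S)

variable {K Ω : Type} [Field K] [Field Ω] [Algebra kb K] [Algebra kb Ω] [Algebra K Ω]
  [IsScalarTower kb K Ω]

variable (K Ω S) in
/-- the inclusion -/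
noncomputable def inc : K ⊗[kb] S →ₐ[kb] Ω ⊗[kb] S := act S (IsScalarTower.toAlgHom kb K Ω)

variable (kb S) in
/-- the Galois action -/
noncomputable def gal (σ : Ω ≃ₐ[K] Ω) : Ω ⊗[kb] S →ₐ[kb] Ω ⊗[kb] S :=
  act S ((σ : Ω →ₐ[K] Ω).restrictScalars kb)

/-- all coefficients have valuation at least `a` -/
def Val.GGe (V : Val kb Ω) (x : Ω ⊗[kb] S) (a : ℚ) : Prop := ∀ l : S →ₗ[kb] kb, V.Ge (cf Ω l x) a

/-- the unit `z` with inverse `z'` is locally a rational unit times an almost scalar unit -/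
def Lat (z z' : Ω ⊗[kb] S) (η : Place kb K →₀ ℚ) : Prop :=
  (∀ v, 0 ≤ η v) ∧ ∀ v, ∃ u u' : K ⊗[kb] S, u * u' = 1 ∧ ∀ V : Val kb Ω, V.Over v → ∃ a : ℚ,
    V.GGe (z * inc S K Ω u') (a - η v) ∧ V.GGe (z' * inc S K Ω u) (-a - η v)

end tens

end Pool.Agent.Lib.MP_6adaea_nt.U
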