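import Pool.Agent.Lib.MP_6adaea_nt.U.Defs

/-!
More definitions: spans in a window, annihilators, prewindows.
-/

set_option linter.unusedSectionVars false

namespace Pool.Agent.Lib.MP_6adaea_nt.U
open Matrix Polynomial G
open scoped TensorProduct

section
variable {kb K : Type} [Field kb] [Field K] [Algebra kb K] {B : Type} [AddCommGroup B] [Module K B]
  {J : Type} [Fintype J]

/-- the image of the vectors of degree at most `e` -/
noncomputable def Wd.S (W : Wd kb K B J) (e : ℕ) : Submodule K B := (degLE K J e).map W.im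

/-- the preimage of `W.S e` under the Frobenius operator -/
noncomputable def Tw.Sg {W : Wd kb K B J} {Fr : FrK kb K} {Ψ : Matrix J J (R2 K)} {C0 : ℕ}
    (t : Tw W Fr Ψ C0) (e : ℕ) : Submodule K B := (W.S e).comap t.T

/-- the annihilator in the extension field -/
def ann (Ω : Type) [Field Ω] [Algebra K Ω] (N : Submodule K (J → K)) : Submodule Ω (J → Ω) where
  carrier := {η | ∀ x ∈ N, (fun j => algebraMap K Ω (x j)) ⬝ᵥ η = 0}
  zero_mem' := fun _ _ => dotProduct_zero _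
  add_mem' := fun ha hb x hx => by rw [dotProduct_add, ha x hx, hb x hx, add_zero]
  smul_mem' := fun c η h x hx => by rw [dotProduct_smul, h x hx, smul_zero]

/-- an invertible matrix that is a scalar on the annihilator of `N` is a scalar at `β i` -/
def ScalAt (Ω : Type) [Field Ω] [Algebra K Ω] [Algebra kb Ω] {n : Type} [Fintype n]
    [DecidableEq n] {M : ℕ} (N : Submodule K (JJ n M → K)) (β : Fin 2 → kb) (i : Fin 2) : Prop :=
  ∀ A A' : Matrix n n (Polynomial Ω), Cong (qd fun l => algebraMap kb Ω (β l)) (A * A') 1 →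
    Cong (qd fun l => algebraMap kb Ω (β l)) (A' * A) 1 →
    (∃ c : Ω, ∀ y ∈ ann Ω N, rep M (fun l => algebraMap kb Ω (β l)) A *ᵥ y = c • y) →
    Scal (A.map (eval (algebraMap kb Ω (β i))))

variable (kb K) in
/-- evaluation in `K ⊗ S` -/
noncomputable def evS {S : Type} [CommRing S] [Algebra kb S] (t : Fin 2 → S) :
    R2 K →ₐ[K] K ⊗[kb] S :=
  MvPolynomial.aeval fun i => 1 ⊗ₜ t i

end

section
variable {k kb K Ω : Type} [Field k] [Finite k] [Field kb] [Field K] [Field Ω] [Algebra k kb]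
  [Algebra k K] [Algebra k Ω] [Algebra kb K] [Algebra kb Ω] [Algebra K Ω]
  [IsScalarTower k kb K] [IsScalarTower k kb Ω] [IsScalarTower k K Ω] [IsScalarTower kb K Ω]
  {θ : K} {r : ℕ}

/-- a prewindow: a unimodular common eigenvector over a finite algebra -/
structure PW (D : DM k Ω θ r) (Fr : Frb k kb K Ω) (M : ℕ) (S : Type) [CommRing S]
    [Algebra k S] where
  t : Fin 2 → S
  a : k[X]
  monic : a.Monic
  E : Coord D.φ a (Fin r)
  dvd : qd t ∣ a.map (algebraMap k S)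
  w : JJ (Fin r) M → S
  uni : Ideal.span (Set.range w) = ⊤
  eigK : ∀ σ : Ω ≃ₐ[K] Ω, ∃ (B : Matrix (Fin r) (Fin r) k[X]) (χ : S), Act E σ B ∧
    rep M t (pmap (algebraMap k S) B) *ᵥ w = χ • w
  eigγ : ∃ (B : Matrix (Fin r) (Fin r) k[X]) (χ : S), Act E Fr.γ B ∧
    rep M t (pmap (algebraMap k S) B) *ᵥ w = χ • w

variable {D : DM k Ω θ r} {Fr : Frb k kb K Ω} {M : ℕ} {S : Type} [CommRing S] [Algebra k S]
  [Algebra kb S]

/-- the vector of periods -/
noncomputable def PW.Y (P : PW D Fr M S) : JJ (Fin r) M → Ω ⊗[kb] S :=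
  rep M (fun i => 1 ⊗ₜ P.t i) (pmap Algebra.TensorProduct.includeLeftRingHom (frame P.E)) *ᵥ
    fun j => 1 ⊗ₜ P.w j

/-- `z` transforms like the eigenvector -/
def PW.Eig (P : PW D Fr M S) (z : Ω ⊗[kb] S) : Prop :=
  ∀ (σ : Ω ≃ₐ[K] Ω) (B : Matrix (Fin r) (Fin r) k[X]) (χ : S), Act P.E σ B →
    rep M P.t (pmap (algebraMap k S) B) *ᵥ P.w = χ • P.w → gal kb S σ z = (1 ⊗ₜ χ) * z

/-- nondegeneracy of a prewindow -/
def PW.Kill (P : PW D Fr M S) (τ : Fin 2 → PowerSeries kb) (Dg : ℕ) : Prop :=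
  ∀ Δ : R2 K, Δ.totalDegree ≤ Dg → gp K τ Δ ≠ 0 → ∃ I : Ideal S,
    (∀ z : Ω ⊗[kb] S, inc S K Ω (evS kb K P.t Δ) * z = 0 →
      Algebra.TensorProduct.map (AlgHom.id kb Ω) (Ideal.Quotient.mkₐ kb I) z = 0) ∧
    ∃ a b : Fin r, a ≠ b ∧ ∃ c0 c1 : kb, ∃ j, (rep M P.t (elc S a b c0 c1) *ᵥ P.w - P.w) j ∉ I

end

/-- all indices are at most `C` -/
def Bdd {k Ω : Type} [Field k] [Field Ω] [Algebra k Ω] (L : Type) [Field L] [Algebra L Ω]
    (φ : Ω →ₗ[k] Ω) (r C : ℕ) : Prop :=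
  ∀ a : k[X], a ≠ 0 → ∀ (E : Coord φ a (Fin r))
    (ρ : (Ω ≃ₐ[L] Ω) →* GL (Fin r) (AdjoinRoot a)), IsRep E ρ → ρ.range.index ≤ C

end Pool.Agent.Lib.MP_6adaea_nt.U
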