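import Pool.Agent.Lib.MP_6adaea_nt.U.Defs2

/-!
Descent to the constants.
-/

set_option linter.unusedSectionVars false

namespace Pool.Agent.Lib.MP_6adaea_nt.U
open Matrix Polynomial G
open scoped TensorProduct

variable {k kb K Ω : Type} [Field k] [Finite k] [Field kb] [Field K] [Field Ω] [Algebra k kb]
  [Algebra k K] [Algebra k Ω] [Algebra kb K] [Algebra kb Ω] [Algebra K Ω]
  [IsScalarTower k kb K] [IsScalarTower k kb Ω] [IsScalarTower k K Ω] [IsScalarTower kb K Ω]
  [IsAlgClosed kb] [Algebra.IsAlgebraic k kb] [IsSepClosed Ω] [IsGalois K Ω] {θ : K} {r : ℕ}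

theorem desc_card {F J : Type} [Field F] [Fintype J] {x z : J → F} {j : J}
    [DecidablePred fun j => x j ≠ 0] [DecidablePred fun j => z j ≠ 0]
    (h1 : ∀ i, x i = 0 → z i = 0) (h2 : x j ≠ 0) (h3 : z j = 0) :
    (Finset.univ.filter fun j => z j ≠ 0).card < (Finset.univ.filter fun j => x j ≠ 0).card := by
  refine Finset.card_lt_card ⟨fun i hi => ?_, fun hs => ?_⟩
  · simp only [Finset.mem_filter, Finset.mem_univ, true_and] at hi ⊢
    exact fun h => hi (h1 i h)
  · have := hs (Finset.mem_filter.mpr ⟨Finset.mem_univ j, h2⟩)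
    exact (Finset.mem_filter.mp this).2 h3

open Classical in
theorem desc_min {F J : Type} [Field F] [Fintype J] (f : F →+* F) (W : Submodule F (J → F))
    (h : ∀ x ∈ W, (fun j => f (x j)) ∈ W) (n : ℕ) : ∀ x ∈ W, x ≠ 0 →
      (Finset.univ.filter fun j => x j ≠ 0).card = n →
      ∃ y ∈ W, y ≠ 0 ∧ (∀ j, f (y j) = y j) ∧ ∀ j, x j = 0 → y j = 0 := by
  induction n using Nat.strong_induction_on with
  | _ n ih =>
    intro x hx h0 hn
    obtain ⟨j, hj⟩ := Function.ne_iff.mp h0
    have hj : x j ≠ 0 := hj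
    obtain ⟨y, hy⟩ : ∃ y, y = (x j)⁻¹ • x := ⟨_, rfl⟩
    have y0 : y ∈ W := hy ▸ W.smul_mem _ hx
    have y1 : y j = 1 := by simp [hy, hj]
    have y2 : ∀ i, x i = 0 → y i = 0 := fun i hi => by simp [hy, hi]
    have y3 : ∀ i, x i = 0 → ((fun j => f (y j)) - y) i = 0 := fun i hi => by simp [y2 i hi]
    by_cases e : (fun j => f (y j)) - y = 0
    · refine ⟨y, y0, fun h => ?_, congrFun (sub_eq_zero.mp e), y2⟩
      rw [h] at y1
      exact zero_ne_one y1
    · obtain ⟨z, hz, z0, z1, z2⟩ := ih _ (hn ▸ desc_card y3 hj (by simp [y1])) _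
        (W.sub_mem (h y y0) y0) e rfl
      exact ⟨z, hz, z0, z1, fun i hi => z2 i (y3 i hi)⟩

theorem desc_map {F L J : Type} [CommRing F] [CommRing L] [Fintype J] (f : F →+* L)
    {x y : J → F} {R : Matrix J J F} (h : x ⬝ᵥ R *ᵥ y = 0) :
    (fun j => f (x j)) ⬝ᵥ (R.map f *ᵥ fun j => f (y j)) = 0 := by
  have := congrArg f h
  simpa only [mulVec, dotProduct, map_sum, map_mul, map_zero, Matrix.map_apply] using this

theorem desc_mulVec {F L J : Type} [CommRing F] [CommRing L] [Fintype J] (f : F →+* L)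
    (g : Matrix J J F) (y : J → F) :
    (g.map f *ᵥ fun j => f (y j)) = fun j => f ((g *ᵥ y) j) :=
  funext fun j => (RingHom.map_mulVec f g y j).symm

theorem desc_li {F L ι J : Type} [Field F] [Field L] [Finite J] (f : F →+* L) {v : ι → J → F}
    (h : LinearIndependent F v) : LinearIndependent L fun i j => f (v i j) := by
  let _ := f.toAlgebra
  exact linearIndependent_algebraMap_comp_iff.mpr h

theorem desc_span {K Ω J : Type} [Field K] [Field Ω] [Algebra K Ω] [Fintype J] [DecidableEq J]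
    {N : Submodule K (J → K)} (f : K →+* K) {P : Matrix J J K} (hP : IsUnit P.det)
    (hN : ∀ x ∈ N, (fun j => f (x j)) ᵥ* P ∈ N) {η : J → Ω}
    (h : ∀ x ∈ N, (fun i => algebraMap K Ω (((fun j => f (x j)) ᵥ* P) i)) ⬝ᵥ η = 0) :
    η ∈ ann Ω N := by
  have b := Module.finBasis K N
  have h1 : LinearIndependent K fun i => (fun j => f ((b i : J → K) j)) ᵥ* P :=
    (desc_li f (b.linearIndependent.map' N.subtype N.ker_subtype)).map' P.vecMulLinear
      (LinearMap.ker_eq_bot.mpr (vecMul_injective_of_isUnit ((isUnit_iff_isUnit_det P).mpr hP)))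
  have h2 : Submodule.span K (Set.range fun i => (fun j => f ((b i : J → K) j)) ᵥ* P) = N :=
    Submodule.eq_of_le_of_finrank_le
      (Submodule.span_le.mpr (Set.range_subset_iff.mpr fun i => hN _ (b i).2))
      (by rw [finrank_span_eq_card h1, Fintype.card_fin])
  intro x hx
  rw [← h2] at hx
  induction hx using Submodule.span_induction with
  | mem y hy =>
    obtain ⟨i, rfl⟩ := hy
    exact h _ (b i).2
  | zero => simp
  | add y z _ _ hy hz =>
    have : (fun j => algebraMap K Ω ((y + z) j)) =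
      (fun j => algebraMap K Ω (y j)) + fun j => algebraMap K Ω (z j) := funext fun j => map_add _ _ _
    rw [this, add_dotProduct, hy, hz, add_zero]
  | smul t y _ hy =>
    have : (fun j => algebraMap K Ω ((t • y) j)) =
      algebraMap K Ω t • fun j => algebraMap K Ω (y j) := funext fun j => map_mul _ _ _
    rw [this, smul_dotProduct, hy, smul_zero]

theorem desc_ent {k kb : Type} [Field k] [Field kb] [Algebra k kb] (L : IntermediateField k kb)
    {β : Fin 2 → kb} (hβ : ∀ i, β i ∈ L) (p : k[X]) :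
    ∀ a b, aeval (cm β) (p.map (algebraMap k kb)) a b ∈ L := by
  have h1 : ∀ a b, cm β a b ∈ L := by
    intro a b
    fin_cases a <;> fin_cases b
    exacts [hβ 0, L.zero_mem, L.one_mem, hβ 1]
  induction p using Polynomial.induction_on with
  | C c =>
    intro a b
    rw [Polynomial.map_C, aeval_C, algebraMap_matrix_apply]
    split_ifs
    exacts [L.algebraMap_mem c, L.zero_mem]
  | add p q hp hq =>
    intro a b
    rw [Polynomial.map_add, map_add]
    exact L.add_mem (hp a b) (hq a b)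
  | monomial n c ih =>
    intro a b
    rw [pow_succ, ← mul_assoc, Polynomial.map_mul, map_mul, Polynomial.map_X, aeval_X,
      Matrix.mul_apply]
    exact L.sum_mem fun i _ => L.mul_mem (ih a i) (h1 i b)

/-- Induction on the support: take `y ∈ W` nonzero of minimal support inside the support of `x`,
normalised to have a coordinate `1`; then `f y - y` has smaller support, so `y` is fixed. -/
theorem desc {F J : Type} [Field F] [Fintype J] (f : F →+* F) (W : Submodule F (J → F))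
    (h : ∀ x ∈ W, (fun j => f (x j)) ∈ W) :
    W ≤ Submodule.span F {x | x ∈ W ∧ ∀ j, f (x j) = x j} := by
  classical
  have key : ∀ n : ℕ, ∀ x ∈ W, (Finset.univ.filter fun j => x j ≠ 0).card = n →
      x ∈ Submodule.span F {x | x ∈ W ∧ ∀ j, f (x j) = x j} := by
    intro n
    induction n using Nat.strong_induction_on with
    | _ n ih =>
      intro x hx hn
      by_cases h0 : x = 0
      · rw [h0]
        exact Submodule.zero_mem _
      obtain ⟨y, hy, y0, y1, y2⟩ := desc_min f W h _ x hx h0 rfl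
      obtain ⟨j, hj⟩ := Function.ne_iff.mp y0
      have hj : y j ≠ 0 := hj
      have e : x = (x - (x j / y j) • y) + (x j / y j) • y := (sub_add_cancel _ _).symm
      rw [e]
      refine Submodule.add_mem _ (ih _ ?_ _ (W.sub_mem hx (W.smul_mem _ hy)) rfl)
        (Submodule.smul_mem _ _ (Submodule.subset_span ⟨hy, y1⟩))
      rw [← hn]
      refine desc_card (j := j) (fun i hi => ?_) (fun hx' => hj (y2 j hx')) ?_
      · simp [hi, y2 i hi]
      · simp [hj]
  exact fun x hx => key _ x hx rfl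

/-- `(FO ^ N) x = (γ ^ N) x ^ Q ^ N`; iterate until `γ` fixes `x`; then `x` is a root of
`X ^ Q' - X`, which splits over `kb` -/
theorem Frb.fixed (Fr : Frb k kb K Ω) {N : ℕ} (hN : 0 < N) {x : Ω} (h : (Fr.FO ^ N) x = x) :
    ∃ c : kb, x = algebraMap kb Ω c := by
  have h1 : ∀ (n : ℕ) (y : Ω), (Fr.FO ^ n) y = (Fr.γ ^ n) y ^ Fr.Q ^ n := by
    intro n
    induction n with
    | zero => simp
    | succ n ih =>
      intro y
      rw [pow_succ', AlgHom.mul_apply, ih, Fr.FO_apply, map_pow, ← pow_mul, ← pow_succ,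
        pow_succ' Fr.γ, AlgEquiv.mul_apply]
  obtain ⟨n, hn, h2⟩ := Fr.orb x
  have h3 : ∀ i, (Fr.FO ^ (N * i)) x = x := by
    intro i
    induction i with
    | zero => rfl
    | succ i ih => rw [Nat.mul_succ, pow_add, AlgHom.mul_apply, h, ih]
  have h4 : ∀ i, (Fr.γ ^ (i * n)) x = x := by
    intro i
    induction i with
    | zero => rw [zero_mul, pow_zero, AlgEquiv.one_apply]
    | succ i ih => rw [Nat.succ_mul, pow_add, AlgEquiv.mul_apply, h2, ih]
  have h5 := h3 n
  rw [h1, h4] at h5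
  have h6 : 1 < Fr.Q ^ (N * n) := Nat.one_lt_pow (Nat.mul_pos hN hn).ne' Fr.two_le
  have h7 : IsIntegral kb x := IsAlgebraic.isIntegral
    ⟨X ^ Fr.Q ^ (N * n) - X, FiniteField.X_pow_card_sub_X_ne_zero kb h6, by simp [h5]⟩
  obtain ⟨c, hc⟩ := minpoly.mem_range_of_degree_eq_one kb x
    (IsAlgClosed.degree_eq_one_of_irreducible kb (minpoly.irreducible h7))
  exact ⟨c, hc.symm⟩

variable {J : Type} [Fintype J] [DecidableEq J] {N : Submodule K (J → K)} {R : Matrix J J Ω}

theorem ann_gal (σ : Ω ≃ₐ[K] Ω) {g : Matrix J J kb}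
    (h : R.map σ = R * g.map (algebraMap kb Ω)) {y : J → kb}
    (hy : (R *ᵥ fun j => algebraMap kb Ω (y j)) ∈ ann Ω N) :
    (R *ᵥ fun j => algebraMap kb Ω ((g *ᵥ y) j)) ∈ ann Ω N := by
  intro x hx
  have h1 := desc_map (σ : Ω →+* Ω) (hy x hx)
  have h2 : ∀ c : kb, σ (algebraMap kb Ω c) = algebraMap kb Ω c := fun c => by
    rw [IsScalarTower.algebraMap_apply kb K Ω, AlgEquiv.commutes]
  simp only [RingHom.coe_coe, AlgEquiv.commutes, h2] at h1
  rw [h, ← mulVec_mulVec, desc_mulVec] at h1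
  exact h1

/-- The map `x ↦ F x ᵥ* P` preserves linear independence, so the image of `N` spans `N`. Hence
`y ↦ g *ᵥ FO y` preserves `Y = {y | R *ᵥ y ∈ ann N}`, and so does `FO ^ m`; use `desc`. -/
theorem desc_pt (Fr : Frb k kb K Ω) {P : Matrix J J K} (hP : IsUnit P.det)
    (hN : ∀ x ∈ N, (fun j => Fr.FK (x j)) ᵥ* P ∈ N) {g : Matrix J J kb} {m : ℕ} (hm : 0 < m)
    (hg : g ^ m = 1)
    (h : R.map Fr.FO = P.map (algebraMap K Ω) * R * g.map (algebraMap kb Ω)) :
    (∀ y : J → kb, (R *ᵥ fun j => algebraMap kb Ω (y j)) ∈ ann Ω N →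
      (R *ᵥ fun j => algebraMap kb Ω ((g *ᵥ y) j)) ∈ ann Ω N) ∧
    ∀ y : J → Ω, R *ᵥ y ∈ ann Ω N → y ∈ Submodule.span Ω
      {y' | R *ᵥ y' ∈ ann Ω N ∧ ∃ y0 : J → kb, y' = fun j => algebraMap kb Ω (y0 j)} := by
  have h1 : ∀ y : J → Ω, R *ᵥ y ∈ ann Ω N →
      R *ᵥ (g.map (algebraMap kb Ω) *ᵥ fun j => Fr.FO (y j)) ∈ ann Ω N := by
    intro y hy
    refine desc_span (Fr.FK : K →+* K) hP hN fun x hx => ?_
    have h2 := desc_map (Fr.FO : Ω →+* Ω) (hy x hx)
    simp only [RingHom.coe_coe, Fr.FO_compat] at h2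
    rw [h, ← mulVec_mulVec, ← mulVec_mulVec, dotProduct_mulVec] at h2
    rw [← h2]
    congr 1
    funext j
    exact RingHom.map_vecMul (algebraMap K Ω) P _ j
  refine ⟨fun y hy => ?_, fun y hy => ?_⟩
  · have h2 := h1 _ hy
    simp only [AlgHom.commutes] at h2
    rwa [desc_mulVec] at h2
  have h2 : ∀ (n : ℕ) (y : J → Ω), R *ᵥ y ∈ ann Ω N →
      R *ᵥ ((g ^ n).map (algebraMap kb Ω) *ᵥ fun j => (Fr.FO ^ n) (y j)) ∈ ann Ω N := by
    intro n
    induction n with
    | zero =>
      intro y hy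
      rw [pow_zero, pow_zero, Matrix.map_one _ (map_zero _) (map_one _), one_mulVec]
      exact hy
    | succ n ih =>
      intro y hy
      have h3 := h1 _ (ih y hy)
      have e : (fun j => Fr.FO (((g ^ n).map (algebraMap kb Ω) *ᵥ fun j => (Fr.FO ^ n) (y j)) j)) =
          (g ^ n).map (algebraMap kb Ω) *ᵥ fun j => (Fr.FO ^ (n + 1)) (y j) := by
        funext j
        simp only [mulVec, dotProduct, map_sum, map_mul, Matrix.map_apply, AlgHom.commutes,
          pow_succ' Fr.FO, AlgHom.mul_apply]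
      rw [e] at h3
      rw [pow_succ' g, Matrix.map_mul, ← mulVec_mulVec]
      exact h3
  have h3 := desc ((Fr.FO ^ m : Ω →ₐ[kb] Ω) : Ω →+* Ω) ((ann Ω N).comap R.mulVecLin)
    (fun x hx => by
      have h4 := h2 m x hx
      rw [hg, Matrix.map_one _ (map_zero _) (map_one _), one_mulVec] at h4
      exact h4) (x := y) hy
  refine Submodule.span_mono (fun z hz => ?_) h3
  choose c hc using fun j => Fr.fixed hm (x := z j) (hz.2 j)
  exact ⟨hz.1, c, funext hc⟩

/-- Let `k'` be the finite field generated by `β` and the coordinates of a finite spanning set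
of `Y`; take the vectors of `Y` with coordinates in `k'`. -/
theorem exists_fin_add {n : Type} [Fintype n] [DecidableEq n] {M : ℕ} (β : Fin 2 → kb)
    (Y : Submodule kb (JJ n M → kb)) : ∃ Y0 : AddSubgroup (JJ n M → kb),
      (Y0 : Set (JJ n M → kb)).Finite ∧ Submodule.span kb (Y0 : Set (JJ n M → kb)) = Y ∧
      ∀ B : Matrix n n k[X], (∀ y ∈ Y, rep M β (pmap (algebraMap k kb) B) *ᵥ y ∈ Y) →
        ∀ y ∈ Y0, rep M β (pmap (algebraMap k kb) B) *ᵥ y ∈ Y0 := by
  classical
  obtain ⟨s, hs⟩ : Y.FG := IsNoetherian.noetherian Y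
  obtain ⟨T, hT⟩ : ∃ T : Set kb, T = Set.range β ∪ ⋃ y ∈ s, Set.range y := ⟨_, rfl⟩
  have h0 : T.Finite := hT ▸ (Set.finite_range β).union
    (s.finite_toSet.biUnion fun y _ => Set.finite_range y)
  have := h0.to_subtype
  obtain ⟨L, hL⟩ : ∃ L, L = IntermediateField.adjoin k T := ⟨_, rfl⟩
  have : FiniteDimensional k L := hL ▸ IntermediateField.finiteDimensional_adjoin
    fun x _ => (Algebra.IsAlgebraic.isAlgebraic x).isIntegral
  have h1 : Finite L := Module.finite_of_finite k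
  have h2 : ∀ x ∈ T, x ∈ L := fun x hx => hL ▸ IntermediateField.subset_adjoin k T hx
  refine ⟨{ carrier := {y | y ∈ Y ∧ ∀ j, y j ∈ L}
            zero_mem' := ⟨Y.zero_mem, fun _ => L.zero_mem⟩
            add_mem' := fun ha hb => ⟨Y.add_mem ha.1 hb.1, fun j => L.add_mem (ha.2 j) (hb.2 j)⟩
            neg_mem' := fun ha => ⟨Y.neg_mem ha.1, fun j => L.neg_mem (ha.2 j)⟩ }, ?_, ?_, ?_⟩
  · exact (Set.Finite.pi' (t := fun _ => (L : Set kb)) fun _ => Set.toFinite _).subset
      fun y hy => hy.2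
  · refine le_antisymm (Submodule.span_le.mpr fun y hy => hy.1) (hs.symm.le.trans
      (Submodule.span_mono fun y hy => ⟨hs ▸ Submodule.subset_span hy, fun j => h2 _ ?_⟩))
    rw [hT]
    exact Or.inr (Set.mem_biUnion hy ⟨j, rfl⟩)
  · intro B hB y hy
    refine ⟨hB y hy.1, fun j => L.sum_mem fun i _ => L.mul_mem ?_ (hy.2 i)⟩
    change ∏ a, hat β (pmap (algebraMap k kb) B) (j a) (i a) ∈ L
    exact L.prod_mem fun a _ => desc_ent L (fun i => h2 _ (hT ▸ Or.inl ⟨i, rfl⟩)) _ _ _

/-- a linear map for which all elements of an additive subgroup are eigenvectors -/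
theorem scalar_of_add {F V : Type} [Field F] [AddCommGroup V] [Module F V] (f : V →ₗ[F] V)
    (Y : AddSubgroup V) (h : ∀ y ∈ Y, ∃ c : F, f y = c • y) :
    ∃ c : F, ∀ y ∈ Submodule.span F (Y : Set V), f y = c • y := by
  suffices H : ∃ c : F, ∀ y ∈ Y, f y = c • y by
    obtain ⟨c, hc⟩ := H
    refine ⟨c, fun y hy => ?_⟩
    induction hy using Submodule.span_induction with
    | mem y hy => exact hc y hy
    | zero => simp
    | add a b _ _ ha hb => rw [map_add, ha, hb, smul_add]
    | smul t a _ ha => rw [map_smul, ha, smul_comm]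
  by_cases h0 : ∀ y ∈ Y, y = 0
  · exact ⟨0, fun y hy => by rw [h0 y hy, map_zero, smul_zero]⟩
  push Not at h0
  obtain ⟨z, hz, z0⟩ := h0
  obtain ⟨c, hc⟩ := h z hz
  refine ⟨c, fun y hy => ?_⟩
  obtain ⟨a, ha⟩ := h y hy
  obtain ⟨b, hb⟩ := h _ (Y.add_mem hy hz)
  rw [map_add, ha, hc, smul_add] at hb
  have h1 : (a - b) • y = (b - c) • z := by
    rw [sub_smul, sub_smul, sub_eq_sub_iff_add_eq_add, hb, add_comm]
  by_cases e : a = b
  · rw [e, sub_self, zero_smul, eq_comm, smul_eq_zero, sub_eq_zero] at h1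
    rw [ha, e, h1.resolve_right z0]
  · have h2 : y = ((a - b)⁻¹ * (b - c)) • z := by
      rw [mul_smul, ← h1, inv_smul_smul₀ (sub_ne_zero.mpr e)]
    rw [h2, map_smul, hc, smul_comm]

end Pool.Agent.Lib.MP_6adaea_nt.U
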