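import Pool.Agent.Lib.MP_6adaea_nt.U.Dcp

/-!
Density of points on the curve.
-/

set_option linter.unusedSectionVars false

namespace Pool.Agent.Lib.MP_6adaea_nt.U
open Matrix Polynomial G
open scoped TensorProduct

variable {kb K : Type} [Field kb] [Field K] [Algebra kb K] {τ : Fin 2 → PowerSeries kb}


/-- Chevalley: a prime lying over `0` gives primes over `X - c` for all but finitely many `c`. -/
theorem dn_chev {R : Type} [CommRing R] (φ : kb[X] →+* R) (hφ : φ.FiniteType) [IsNoetherianRing R]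
    (P : Ideal R) [hP : P.IsPrime] (hinj : ∀ h : kb[X], φ h ∈ P → h = 0) {f : R} (hf : f ∉ P)
    {A : Set kb} (hA : A.Infinite) :
    ∃ c ∈ A, ∃ Q : Ideal R, Q.IsPrime ∧ P ≤ Q ∧ f ∉ Q ∧ φ (X - C c) ∈ Q := by
  classical
  have hs : Topology.IsConstructible
      (PrimeSpectrum.zeroLocus (P : Set R) ∩ (PrimeSpectrum.basicOpen f : Set (PrimeSpectrum R))) := by
    refine Topology.IsConstructible.inter ?_ PrimeSpectrum.isConstructible_basicOpen
    rw [← Topology.isConstructible_compl]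
    exact (PrimeSpectrum.isRetrocompact_zeroLocus_compl_of_fg
      (IsNoetherian.noetherian P)).isConstructible (PrimeSpectrum.isClosed_zeroLocus _).isOpen_compl
  have h1 := PrimeSpectrum.isConstructible_comap_image
    (RingHom.FinitePresentation.of_finiteType.1 hφ) hs
  obtain ⟨S, hS⟩ := PrimeSpectrum.exists_constructibleSetData_iff.2 h1
  have h2 : PrimeSpectrum.comap φ ⟨P, hP⟩ ∈ S.toSet := by
    rw [hS]
    exact ⟨⟨P, hP⟩, ⟨fun x hx => hx, hf⟩, rfl⟩
  simp only [PrimeSpectrum.ConstructibleSetData.toSet, Set.mem_iUnion] at h2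
  obtain ⟨B, hB, h3, h4⟩ := h2
  have hg : ∀ j, B.g j = 0 := fun j => hinj _ (h3 ⟨j, rfl⟩)
  have hf0 : B.f ≠ 0 := by
    intro h
    apply h4
    rw [h]
    simp
  obtain ⟨c, hcA, hc⟩ := hA.exists_notMem_finset B.f.roots.toFinset
  have hc' : ¬(X - C c ∣ B.f) := by
    rw [dvd_iff_isRoot]
    intro h
    exact hc (Multiset.mem_toFinset.2 ((mem_roots hf0).2 h))
  have hpr : (Ideal.span {X - C c} : Ideal kb[X]).IsPrime :=
    (Ideal.span_singleton_prime (X_sub_C_ne_zero c)).2 (prime_X_sub_C c)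
  have h5 : (⟨Ideal.span {X - C c}, hpr⟩ : PrimeSpectrum kb[X]) ∈ S.toSet := by
    simp only [PrimeSpectrum.ConstructibleSetData.toSet, Set.mem_iUnion]
    refine ⟨B, hB, ?_, ?_⟩
    · rintro _ ⟨j, rfl⟩
      rw [hg j]
      exact Ideal.zero_mem _
    · intro h
      exact hc' (Ideal.mem_span_singleton.1 (h rfl))
  rw [hS] at h5
  obtain ⟨Q, ⟨h6, h7⟩, h8⟩ := h5
  refine ⟨c, hcA, Q.asIdeal, Q.isPrime, fun x hx => h6 hx, h7, ?_⟩
  have h9 : X - C c ∈ (PrimeSpectrum.comap φ Q).asIdeal := by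
    rw [h8]
    exact Ideal.mem_span_singleton_self _
  exact h9

/-- Chevalley gives a prime above the kernel, not containing `f`, over `X - c` with `c ∈ A`;
the Nullstellensatz gives the point. -/
theorem dn0 [IsAlgClosed kb] {i : Fin 2} (hτ : ∀ c, τ i ≠ PowerSeries.C c) {A : Set kb}
    (hA : A.Infinite) {f : R2 kb} (hf : gp kb τ f ≠ 0) :
    ∃ β, OnC τ β ∧ β i ∈ A ∧ pt kb β f ≠ 0 := by
  let φ : kb[X] →ₐ[kb] R2 kb := aeval (MvPolynomial.X i)
  have hφ : (φ : kb[X] →+* R2 kb).FiniteType := by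
    have h1 : ((φ : kb[X] →+* R2 kb).comp (algebraMap kb kb[X])).FiniteType := by
      rw [AlgHom.comp_algebraMap]
      exact RingHom.finiteType_algebraMap.2 inferInstance
    exact RingHom.FiniteType.of_comp_finiteType h1
  have hP : (RingHom.ker (gp kb τ)).IsPrime := gp_prime
  have hinj : ∀ h : kb[X], (φ : kb[X] →+* R2 kb) h ∈ RingHom.ker (gp kb τ) → h = 0 := by
    intro h hh
    by_contra h0
    apply aeval_ne_zero hτ h0
    have h2 : gp kb τ (aeval (MvPolynomial.X i : R2 kb) h) = 0 := hh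
    rw [← aeval_algHom_apply] at h2
    have h3 : gp kb τ (MvPolynomial.X i) = τ i := by
      simp [gp]
    rwa [h3] at h2
  obtain ⟨c, hc, Q, hQ, h1, h2, h3⟩ := dn_chev (φ : kb[X] →+* R2 kb) hφ _ hinj hf hA
  rw [← MvPolynomial.IsPrime.vanishingIdeal_zeroLocus (K := kb) Q,
    MvPolynomial.mem_vanishingIdeal_iff] at h2
  push Not at h2
  obtain ⟨β, hβ, h4⟩ := h2
  have hpt : ∀ g : R2 kb, pt kb β g = MvPolynomial.aeval β g := fun g => rfl
  refine ⟨β, fun g hg => ?_, ?_, ?_⟩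
  · rw [hpt]
    exact hβ g (h1 hg)
  · have h5 := hβ _ h3
    have h6 : β i - c = 0 := by simpa [φ] using h5
    rwa [sub_eq_zero.1 h6]
  · rwa [hpt]

theorem dn_pt_ne {m : ℕ} {κ : Fin m → K} (hκ : LinearIndependent kb κ) (f0 : Fin m → R2 kb)
    (β : Fin 2 → kb) {j : Fin m} (hj : pt kb β (f0 j) ≠ 0) :
    pt K β (∑ i, MvPolynomial.C (κ i) * MvPolynomial.map (algebraMap kb K) (f0 i)) ≠ 0 := by
  intro h
  apply hj
  refine Fintype.linearIndependent_iff.1 hκ (fun i => pt kb β (f0 i)) ?_ j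
  rw [← h, map_sum]
  refine Finset.sum_congr rfl fun i _ => ?_
  rw [map_mul, pt_map, Algebra.smul_def, mul_comm]
  congr 1
  simp [pt]

theorem dn [IsAlgClosed kb] {i : Fin 2} (hτ : ∀ c, τ i ≠ PowerSeries.C c) {A : Set kb}
    (hA : A.Infinite) {f : R2 K} (hf : gp K τ f ≠ 0) :
    ∃ β, OnC τ β ∧ β i ∈ A ∧ pt K β f ≠ 0 := by
  obtain ⟨m, κ, f0, hκ, -, rfl⟩ := decomp kb f
  rw [Ne, gp_eq_zero_iff hκ] at hf
  push Not at hf
  obtain ⟨j, hj⟩ := hf
  obtain ⟨β, h1, h2, h3⟩ := dn0 hτ hA hj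
  exact ⟨β, h1, h2, dn_pt_ne hκ f0 β h3⟩

/-- the polynomials of degree `≤ D` vanishing on `T` -/
noncomputable def dnW (D : ℕ) (T : Finset (Fin 2 → kb)) :
    Submodule kb (MvPolynomial.restrictTotalDegree (Fin 2) kb D) where
  carrier := {f | ∀ β ∈ T, pt kb β f.1 = 0}
  add_mem' := fun {a b} ha hb β hβ => by
    rw [Submodule.coe_add, map_add, ha β hβ, hb β hβ, add_zero]
  zero_mem' := fun β _ => by simp
  smul_mem' := fun c a ha β hβ => by
    rw [Submodule.coe_smul, map_smul, ha β hβ, smul_zero]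

/-- the common kernels of finitely many evaluations on the polynomials over `kb` of degree
`≤ D` stabilise -/
theorem dn_fin (K : Type) [Field K] [Algebra kb K] [IsAlgClosed kb] {i : Fin 2}
    (hτ : ∀ c, τ i ≠ PowerSeries.C c) {A : Set kb} (hA : A.Infinite) (D : ℕ) :
    ∃ T : Finset (Fin 2 → kb), (∀ β ∈ T, OnC τ β ∧ β i ∈ A) ∧
      ∀ f : R2 K, f.totalDegree ≤ D → gp K τ f ≠ 0 → ∃ β ∈ T, pt K β f ≠ 0 := by
  classical
  obtain ⟨T, hT, hmin⟩ := (measure fun T : Finset (Fin 2 → kb) =>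
    Module.finrank kb (dnW D T)).wf.has_min {T | ∀ β ∈ T, OnC τ β ∧ β i ∈ A} ⟨∅, by simp⟩
  have key : ∀ g : R2 kb, g.totalDegree ≤ D → gp kb τ g ≠ 0 → ∃ β ∈ T, pt kb β g ≠ 0 := by
    intro g hD hg
    by_contra hne
    push Not at hne
    obtain ⟨β, h1, h2, h3⟩ := dn0 hτ hA hg
    apply hmin (insert β T)
    · intro γ hγ
      rcases Finset.mem_insert.1 hγ with rfl | hγ
      · exact ⟨h1, h2⟩
      · exact hT γ hγ
    · change Module.finrank kb (dnW D (insert β T)) < Module.finrank kb (dnW D T)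
      apply Submodule.finrank_lt_finrank_of_lt
      refine lt_of_le_of_ne (fun a ha γ hγ => ha γ (Finset.mem_insert_of_mem hγ)) fun h => ?_
      have h4 : (⟨g, (MvPolynomial.mem_restrictTotalDegree _ _ _).2 hD⟩ :
          MvPolynomial.restrictTotalDegree (Fin 2) kb D) ∈ dnW D T := hne
      rw [← h] at h4
      exact h3 (h4 β (Finset.mem_insert_self _ _))
  refine ⟨T, hT, fun f hD hf => ?_⟩
  obtain ⟨m, κ, f0, hκ, hd, e⟩ := decomp kb f
  rw [e, Ne, gp_eq_zero_iff hκ] at hf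
  push Not at hf
  obtain ⟨j, hj⟩ := hf
  obtain ⟨β, h1, h2⟩ := key _ ((hd j).trans hD) hj
  refine ⟨β, h1, ?_⟩
  rw [e]
  exact dn_pt_ne hκ f0 β h2

end Pool.Agent.Lib.MP_6adaea_nt.U
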