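import Pool.Agent.Lib.MP_6adaea_nt.U.Pot

/-!
Quotient norms and linear maps.
-/

set_option linter.unusedSectionVars false

namespace Pool.Agent.Lib.MP_6adaea_nt.U
open Matrix Polynomial G
open scoped TensorProduct

variable {kb K : Type} [Field kb] [Field K] [Algebra kb K] {B : Type} [AddCommGroup B]
  [Module K B] {B' : Type} [AddCommGroup B'] [Module K B']

private theorem push_nmem {ψ : B →ₗ[K] B'} {A S : Submodule K B}
    (h0 : A ⊓ LinearMap.ker ψ ≤ S) (h1 : S ≤ A) {b : B} (hb : b ∈ A) (hS : b ∉ S) :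
    ψ b ∉ S.map ψ := by
  rintro ⟨u, hu, e⟩
  have h2 : b - u ∈ S := h0 ⟨A.sub_mem hb (h1 hu), by
    rw [SetLike.mem_coe, LinearMap.mem_ker, map_sub, e, sub_self]⟩
  exact hS (by simpa using S.add_mem h2 hu)

private theorem push_map_sup (ψ : B →ₗ[K] B') (S : Submodule K B) (x : B) :
    (S ⊔ Submodule.span K {x}).map ψ = S.map ψ ⊔ Submodule.span K {ψ x} := by
  rw [Submodule.map_sup, Submodule.map_span, Set.image_singleton]

private theorem push_map_bot (ψ : B →ₗ[K] B') (A : Submodule K B) :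
    (A ⊓ LinearMap.ker ψ).map ψ = ⊥ := by
  rw [eq_bot_iff]
  rintro _ ⟨u, hu, rfl⟩
  exact hu.2

private theorem push_tot {α : Type} (c : α →₀ ℤ) : tot c = ∑ᶠ v, c v := by
  rw [tot, Finsupp.sum, finsum_eq_sum_of_support_subset (s := c.support)]
  intro v hv
  simpa using hv

/-- the quotient norm at one place -/
private theorem push_nrm {v : Place kb K} (N : Nrm v B) (ψ : B →ₗ[K] B') (A : Submodule K B)
    (hA : A.map ψ = ⊤) : ∃ N' : Nrm v B', ∀ x m, N'.Ge x m ↔ ∃ b ∈ A, ψ b = x ∧ N.Ge b m := by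
  have hs : ∀ x : B', ∃ b ∈ A, ψ b = x := fun x => by
    have : x ∈ A.map ψ := hA ▸ Submodule.mem_top
    exact this
  choose s hsA hs using hs
  set K0 := A ⊓ LinearMap.ker ψ with hK0
  have hn : ∀ {b : B}, ψ b ≠ 0 → b ∉ K0 := fun h h' => h h'.2
  have hn' : ∀ {x : B'}, x ≠ 0 → s x ∉ K0 := fun h => hn (by rwa [hs])
  have key : ∀ {x : B'}, x ≠ 0 → ∀ m, m ≤ N.del (s x) K0 ↔ ∃ b ∈ A, ψ b = x ∧ N.Ge b m := by
    intro x hx m
    rw [Nrm.le_del_iff (hn' hx)]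
    constructor
    · rintro ⟨u, hu, h⟩
      exact ⟨s x + u, A.add_mem (hsA x) hu.1, by
        rw [map_add, hs, LinearMap.mem_ker.1 hu.2, add_zero], h⟩
    · rintro ⟨b, hb, e, h⟩
      refine ⟨b - s x, ⟨A.sub_mem hb (hsA x), ?_⟩, by simpa using h⟩
      rw [SetLike.mem_coe, LinearMap.mem_ker, map_sub, e, hs, sub_self]
  refine ⟨⟨fun x => N.del (s x) K0, fun {f x} hf hx => ?_, fun {x y} hx hy hxy => ?_,
    fun S x hx => ?_⟩, fun x m => ?_⟩
  · have e : s (f • x) = f • s x + (s (f • x) - f • s x) := by abel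
    rw [e]
    refine Nrm.del_smul_add (hn' hx) hf ⟨A.sub_mem (hsA _) (A.smul_mem _ (hsA _)), ?_⟩
    rw [SetLike.mem_coe, LinearMap.mem_ker, map_sub, map_smul, hs, hs, sub_self]
  · obtain ⟨a, ha, ea, ga⟩ := (key hx _).1 (min_le_left (N.del (s x) K0) (N.del (s y) K0))
    obtain ⟨b, hb, eb, gb⟩ := (key hy _).1 (min_le_right (N.del (s x) K0) (N.del (s y) K0))
    exact (key hxy _).2 ⟨a + b, A.add_mem ha hb, by rw [map_add, ea, eb], ga.add gb⟩
  · have h1 : s x ∉ A ⊓ S.comap ψ := fun h => hx (by simpa [hs] using h.2)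
    refine ⟨N.del (s x) (A ⊓ S.comap ψ), ?_⟩
    rintro _ ⟨t, ht, rfl⟩
    have hxt : x + t ≠ 0 := fun h => hx (by
      rw [eq_neg_of_add_eq_zero_left h]; exact S.neg_mem ht)
    obtain ⟨b, hb, eb, gb⟩ := (key hxt _).1 le_rfl
    refine (Nrm.le_del_iff h1).2 ⟨b - s x, ⟨A.sub_mem hb (hsA x), ?_⟩, by simpa using gb⟩
    rw [SetLike.mem_coe, Submodule.mem_comap, map_sub, eb, hs, add_sub_cancel_left]
    exact ht
  · by_cases hx : x = 0
    · exact ⟨fun _ => ⟨0, A.zero_mem, by rw [map_zero, hx], N.ge_zero m⟩, fun _ => Or.inl hx⟩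
    · rw [Nrm.ge_iff hx]
      exact key hx m

private theorem push_del {v : Place kb K} {N : Nrm v B} {N' : Nrm v B'} {ψ : B →ₗ[K] B'}
    {A : Submodule K B} (h : ∀ x m, N'.Ge x m ↔ ∃ b ∈ A, ψ b = x ∧ N.Ge b m) {S : Submodule K B}
    (h0 : A ⊓ LinearMap.ker ψ ≤ S) (h1 : S ≤ A) {b : B} (hb : b ∈ A) (hS : b ∉ S) :
    N'.del (ψ b) (S.map ψ) = N.del b S := by
  refine eq_of_forall_le_iff fun m => ?_
  rw [Nrm.le_del_iff (push_nmem h0 h1 hb hS), Nrm.le_del_iff hS]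
  constructor
  · rintro ⟨_, ⟨u, hu, rfl⟩, g⟩
    obtain ⟨a, ha, ea, ga⟩ := (h _ _).1 g
    have h2 : a - b - u ∈ S := h0 ⟨A.sub_mem (A.sub_mem ha hb) (h1 hu), by
      rw [SetLike.mem_coe, LinearMap.mem_ker, map_sub, map_sub, ea]; abel⟩
    exact ⟨a - b, by simpa using S.add_mem h2 hu, by simpa using ga⟩
  · rintro ⟨u, hu, g⟩
    exact ⟨ψ u, ⟨u, hu, rfl⟩, (h _ _).2 ⟨b + u, A.add_mem hb (h1 hu), map_add _ _ _, g⟩⟩

variable [FiniteDimensional K B] [FiniteDimensional K B'] (hK : FF kb K)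
include hK

/-- `ν' (ψ b) = del b (A ⊓ ker ψ)` for `b ∈ A`; then `del' (ψ b) (S.map ψ) = del b S` for
`A ⊓ ker ψ ≤ S ≤ A`, and every subspace of `B'` has this form. -/
theorem exists_push (N : NFam kb K B) (ψ : B →ₗ[K] B') (A : Submodule K B) (hA : A.map ψ = ⊤) :
    ∃ N' : NFam kb K B',
      (∀ v x m, (N'.N v).Ge x m ↔ ∃ b ∈ A, ψ b = x ∧ (N.N v).Ge b m) ∧
      ∀ S, A ⊓ LinearMap.ker ψ ≤ S → S ≤ A →
        N'.ht (S.map ψ) = N.ht S - N.ht (A ⊓ LinearMap.ker ψ) := by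
  choose n hn using fun v => push_nrm (N.N v) ψ A hA
  have hae : ∀ (S : Submodule K B') (x : B'), x ∉ S → {v | (n v).del x S ≠ 0}.Finite := by
    intro S x hx
    obtain ⟨b, hb, rfl⟩ : x ∈ A.map ψ := hA ▸ Submodule.mem_top
    have h1 : b ∉ A ⊓ S.comap ψ := fun h => hx h.2
    have h2 : (A ⊓ S.comap ψ).map ψ = S := by
      rw [Submodule.map_inf_eq_map_inf_comap.symm, hA, top_inf_eq]
    have h0 : A ⊓ LinearMap.ker ψ ≤ A ⊓ S.comap ψ :=
      inf_le_inf_left _ (LinearMap.ker_le_comap ψ)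
    refine (N.ae _ b h1).subset fun v hv => ?_
    rw [Set.mem_ofPred_eq, ← push_del (hn v) h0 inf_le_left hb h1, h2]
    exact hv
  refine ⟨⟨n, hae⟩, hn, fun S h0 h1 => ?_⟩
  refine flag_ind h0 (fun T => (⟨n, hae⟩ : NFam kb K B').ht (T.map ψ) =
    N.ht T - N.ht (A ⊓ LinearMap.ker ψ)) ?_ fun T x t0 t1 hx hT ih => ?_
  · rw [push_map_bot, NFam.ht_bot hK, sub_self]
  · rw [push_map_sup, NFam.ht_sup hK _ (push_nmem t0 (t1.trans h1) (h1 hx) hT),
      NFam.ht_sup hK _ hT, ih]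
    have : (fun v => (n v).del (ψ x) (T.map ψ)) = fun v => (N.N v).del x T :=
      funext fun v => push_del (hn v) t0 (t1.trans h1) (h1 hx) hT
    change _ - ∑ᶠ v, (n v).del (ψ x) (T.map ψ) = _
    rw [this]
    ring

/-- `flag_ind` from `S ⊓ ker ψ` to `S`: `del' (ψ x) (S0.map ψ) ≥ del x S0 - c v` -/
theorem ht_map_le (N : NFam kb K B) (N' : NFam kb K B') (ψ : B →ₗ[K] B') (S : Submodule K B)
    (c : Place kb K →₀ ℤ)
    (h : ∀ v, ∀ b ∈ S, ∀ m, (N.N v).Ge b m → (N'.N v).Ge (ψ b) (m - c v)) :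
    N'.ht (S.map ψ) ≤ N.ht S - N.ht (S ⊓ LinearMap.ker ψ) +
      Module.finrank K (S.map ψ) * tot c := by
  refine flag_ind (S0 := S ⊓ LinearMap.ker ψ) inf_le_left
    (fun T => N'.ht (T.map ψ) ≤ N.ht T - N.ht (S ⊓ LinearMap.ker ψ) +
      Module.finrank K (T.map ψ) * tot c) ?_ fun T x t0 t1 hx hT ih => ?_
  · rw [push_map_bot, NFam.ht_bot hK]
    simp
  · have hn := push_nmem t0 t1 hx hT
    have hr : Module.finrank K (T.map ψ ⊔ Submodule.span K {ψ x} : Submodule K B') =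
        Module.finrank K (T.map ψ) + 1 := by
      have h1 := Submodule.finrank_sup_add_finrank_inf_eq (T.map ψ) (Submodule.span K {ψ x})
      have h2 : T.map ψ ⊓ Submodule.span K {ψ x} = ⊥ :=
        disjoint_iff.1 (Submodule.disjoint_span_singleton_of_notMem hn)
      have h3 : ψ x ≠ 0 := fun e => hn (e ▸ Submodule.zero_mem _)
      rw [h2, finrank_bot, finrank_span_singleton h3] at h1
      exact h1
    have f1 := N.ae T x hT
    have f2 := N'.ae _ _ hn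
    have f3 : (Function.support fun v => c v).Finite := c.hasFiniteSupport
    have hs : ∑ᶠ v, (N.N v).del x T ≤ ∑ᶠ v, (N'.N v).del (ψ x) (T.map ψ) + tot c := by
      rw [push_tot, ← finsum_add_distrib f2 f3]
      refine finsum_le_finsum' f1 ((f2.union f3).subset (Function.support_add _ _)) fun v => ?_
      obtain ⟨u, hu, g⟩ := (Nrm.le_del_iff (N := N.N v) hT).1 le_rfl
      have g' := h v _ (S.add_mem hx (t1 hu)) _ g
      rw [map_add] at g'
      have := (Nrm.le_del_iff hn).2 ⟨ψ u, ⟨u, hu, rfl⟩, g'⟩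
      dsimp only
      omega
    rw [push_map_sup, NFam.ht_sup hK _ hn, NFam.ht_sup hK _ hT, hr]
    push_cast
    linarith

/-- apply `ht_map_le` to `Y.mkQ ∘ f` and `S = ⊤` with the quotient norm from `exists_push` -/
theorem ht_comap_le (N : NFam kb K B) (f : B →ₗ[K] B) (hf : Function.Surjective f)
    (c : Place kb K →₀ ℤ) (hc : ∀ v, 0 ≤ c v)
    (h : ∀ v b m, (N.N v).Ge b m → (N.N v).Ge (f b) (m - c v)) (Y : Submodule K B) :
    N.ht (Y.comap f) ≤ N.ht Y + Module.finrank K B * tot c := by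
  have e1 : (⊤ : Submodule K B).map Y.mkQ = ⊤ := by rw [Submodule.map_top, Submodule.range_mkQ]
  obtain ⟨N', h1, h2⟩ := exists_push hK N Y.mkQ ⊤ e1
  have h3 := h2 ⊤ le_top le_rfl
  have h4 := ht_map_le hK N N' (Y.mkQ ∘ₗ f) ⊤ c fun v b _ m g =>
    (h1 v _ _).2 ⟨f b, Submodule.mem_top, rfl, h v b m g⟩
  have e2 : (⊤ : Submodule K B).map (Y.mkQ ∘ₗ f) = ⊤ := by
    rw [Submodule.map_comp, Submodule.map_top f, LinearMap.range_eq_top.2 hf, e1]
  rw [e2, top_inf_eq, LinearMap.ker_comp, Submodule.ker_mkQ, finrank_top] at h4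
  rw [e1, top_inf_eq, Submodule.ker_mkQ] at h3
  have h5 : (0 : ℤ) ≤ tot c := by rw [push_tot]; exact finsum_nonneg hc
  have h6 : (Module.finrank K (B ⧸ Y) : ℤ) ≤ Module.finrank K B := by
    exact_mod_cast Submodule.finrank_quotient_le Y
  have h7 := mul_le_mul_of_nonneg_right h6 h5
  linarith

end Pool.Agent.Lib.MP_6adaea_nt.U
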