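import Pool.Agent.Lib.MP_6adaea_nt.U.Orth
import Pool.Agent.Lib.MP_6adaea_nt.U.Push

/-!
Frobenius transport of norms and the lower bound for heights.
-/

set_option linter.unusedSectionVars false

namespace Pool.Agent.Lib.MP_6adaea_nt.U
open Matrix Polynomial G
open scoped TensorProduct

variable {kb K : Type} [Field kb] [Field K] [Algebra kb K] {B : Type} [AddCommGroup B]
  [Module K B] {B' : Type} [AddCommGroup B'] [Module K B']


variable [FiniteDimensional K B] {Fr : FrK kb K}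

theorem Low_T_eq (T : B →ₛₗ[Fr.σ] B) {ι : Type} [Fintype ι] (b : Module.Basis ι K B) (x : B) :
    T x = ∑ i, Fr.F (b.repr x i) • T (b i) := by
  conv_lhs => rw [← b.sum_repr x]
  rw [map_sum]
  exact Finset.sum_congr rfl fun i _ => map_smulₛₗ T _ _

theorem Low_ge_F {v : Place kb K} {c : K} {m : ℤ} (h : v.Ge c m) :
    (Fr.π v).Ge (Fr.F c) (Fr.Q * m) := by
  rcases h with rfl | h
  · simp
  · refine Place.Ge.of_le ?_
    rw [Fr.ord_F]
    exact mul_le_mul_of_nonneg_left h (Int.natCast_nonneg _)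

/-- the images of a basis span, so they form a basis -/
theorem exists_basis_T (T : B →ₛₗ[Fr.σ] B) (hT : Submodule.span K (Set.range T) = ⊤) {ι : Type}
    [Fintype ι] (b : Module.Basis ι K B) : ∃ b' : Module.Basis ι K B, ∀ i, b' i = T (b i) := by
  have h : ⊤ ≤ Submodule.span K (Set.range fun i => T (b i)) := by
    rw [← hT, Submodule.span_le]
    rintro _ ⟨x, rfl⟩
    rw [Low_T_eq T b x]
    exact Submodule.sum_mem _ fun i _ => Submodule.smul_mem _ _ (Submodule.subset_span ⟨i, rfl⟩)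
  exact ⟨basisOfTopLeSpanOfCardEqFinrank _ h (Module.finrank_eq_card_basis b).symm,
    fun i => congrFun (coe_basisOfTopLeSpanOfCardEqFinrank _ _ _) i⟩

theorem Low_repr (T : B →ₛₗ[Fr.σ] B) {ι : Type} [Fintype ι] {b b' : Module.Basis ι K B}
    (h : ∀ i, b' i = T (b i)) (x : B) (i : ι) : b'.repr (T x) i = Fr.F (b.repr x i) := by
  rw [Low_T_eq T b x]
  simp only [← h]
  exact congrFun (b'.repr_sum_self fun i => Fr.F (b.repr x i)) i

theorem T_inj (T : B →ₛₗ[Fr.σ] B) (hT : Submodule.span K (Set.range T) = ⊤) :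
    Function.Injective T := by
  let b := Module.finBasis K B
  obtain ⟨b', h⟩ := exists_basis_T T hT b
  refine (injective_iff_map_eq_zero T).2 fun x hx => b.ext_elem fun i => ?_
  have := Low_repr T h x i
  rw [hx, map_zero, Finsupp.zero_apply, eq_comm, map_eq_zero] at this
  simpa using this

theorem Low_finrank_le (T : B →ₛₗ[Fr.σ] B) (S : Submodule K B) :
    Module.finrank K (Submodule.span K (T '' S)) ≤ Module.finrank K S := by
  let c := Module.finBasis K S
  have h : Submodule.span K (T '' S) ≤ Submodule.span K (Set.range fun i => T (c i)) := by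
    rw [Submodule.span_le]
    rintro _ ⟨x, hx, rfl⟩
    have e : x = ∑ i, c.repr ⟨x, hx⟩ i • (c i : B) := by
      have := congrArg S.subtype (c.sum_repr ⟨x, hx⟩)
      rw [map_sum] at this
      exact this.symm
    rw [e, map_sum]
    refine Submodule.sum_mem _ fun i _ => ?_
    rw [map_smulₛₗ]
    exact Submodule.smul_mem _ _ (Submodule.subset_span ⟨i, rfl⟩)
  refine (Submodule.finrank_mono h).trans ?_
  exact (finrank_range_le_card (R := K) fun i => T (c i)).trans (Fintype.card_fin _).le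

theorem Low_span_sup (T : B →ₛₗ[Fr.σ] B) (S S' : Submodule K B) :
    Submodule.span K (T '' ↑(S ⊔ S')) =
      Submodule.span K (T '' S) ⊔ Submodule.span K (T '' S') := by
  refine le_antisymm ?_ (sup_le
    (Submodule.span_mono (Set.image_mono fun _ h => Submodule.mem_sup_left h))
    (Submodule.span_mono (Set.image_mono fun _ h => Submodule.mem_sup_right h)))
  rw [Submodule.span_le]
  rintro _ ⟨x, hx, rfl⟩
  obtain ⟨y, hy, z, hz, rfl⟩ := Submodule.mem_sup.1 hx
  rw [map_add]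
  exact Submodule.add_mem_sup (Submodule.subset_span ⟨y, hy, rfl⟩)
    (Submodule.subset_span ⟨z, hz, rfl⟩)

theorem Low_span_single (T : B →ₛₗ[Fr.σ] B) (x : B) :
    Submodule.span K (T '' ↑(Submodule.span K {x})) = Submodule.span K {T x} := by
  refine le_antisymm ?_ (Submodule.span_mono ?_)
  · rw [Submodule.span_le]
    rintro _ ⟨y, hy, rfl⟩
    obtain ⟨a, rfl⟩ := Submodule.mem_span_singleton.1 hy
    rw [map_smulₛₗ]
    exact Submodule.smul_mem _ _ (Submodule.mem_span_singleton_self _)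
  · rintro _ rfl
    exact ⟨x, Submodule.mem_span_singleton_self _, rfl⟩

theorem finrank_T (T : B →ₛₗ[Fr.σ] B) (hT : Submodule.span K (Set.range T) = ⊤)
    (S : Submodule K B) :
    Module.finrank K (Submodule.span K (T '' S)) = Module.finrank K S := by
  obtain ⟨S', hS⟩ := S.exists_isCompl
  have h1 := Low_span_sup T S S'
  rw [hS.sup_eq_top, Submodule.top_coe, Set.image_univ, hT] at h1
  have h2 := Submodule.finrank_add_le_finrank_add_finrank (Submodule.span K (T '' S))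
    (Submodule.span K (T '' S'))
  rw [← h1, finrank_top] at h2
  have h3 := Submodule.finrank_add_eq_of_isCompl hS
  have h4 := Low_finrank_le T S
  have h5 := Low_finrank_le T S'
  omega

theorem Low_ge_basis {v : Place kb K} {N : Nrm v B} {ι : Type} {b : Module.Basis ι K B}
    (h : N.Orth b) (i : ι) : N.Ge (b i) 0 := by
  classical
  refine (h _ _).2 fun j => ?_
  rw [b.repr_self, Finsupp.single_apply]
  split_ifs
  · exact v.ge_one
  · exact v.ge_zero _

theorem Low_fun_ge {v : Place kb K} {N : Nrm v B} {ι : Type} [Fintype ι]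
    {b : Module.Basis ι K B} (h : N.Orth b) (l : B →ₗ[K] K) (hl : ∀ i, v.Ge (l (b i)) 0) {y : B}
    {m : ℤ} (hy : N.Ge y m) : v.Ge (l y) m := by
  rw [← b.sum_repr y, map_sum]
  refine Place.Ge.sum fun i _ => ?_
  rw [map_smul, smul_eq_mul]
  simpa using ((h y m).1 hy i).mul (hl i)

theorem Low_orth (T : B →ₛₗ[Fr.σ] B) {v : Place kb K} {N1 : Nrm v B} {N2 : Nrm (Fr.π v) B}
    {ι κ : Type} [Fintype ι] [Fintype κ] {e e' : Module.Basis κ K B} {b b' : Module.Basis ι K B}
    (he : ∀ i, e' i = T (e i)) (hb : ∀ i, b' i = T (b i)) (h1 : N1.Orth e) (h2 : N2.Orth e')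
    (h3 : N1.Orth b) : N2.Orth b' := by
  intro y m
  constructor
  · intro hy i
    refine Low_fun_ge h2 (b'.coord i) (fun j => ?_) hy
    rw [Module.Basis.coord_apply, he, Low_repr T hb]
    simpa using Low_ge_F (Fr := Fr) ((h3 _ _).1 (Low_ge_basis h1 j) i)
  · intro hy
    rw [← b'.sum_repr y]
    refine Nrm.Ge.sum fun i _ => ?_
    have : N2.Ge (b' i) 0 := by
      refine (h2 _ _).2 fun j => ?_
      rw [hb, Low_repr T he]
      simpa using Low_ge_F (Fr := Fr) ((h1 _ _).1 (Low_ge_basis h3 i) j)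
    simpa using Nrm.Ge.smul (hy i) this

theorem Low_fun (T : B →ₛₗ[Fr.σ] B) {ι : Type} [Fintype ι] {b b' : Module.Basis ι K B}
    (h : ∀ i, b' i = T (b i)) (l : B →ₗ[K] K) :
    ∃ l' : B →ₗ[K] K, ∀ y, l' (T y) = Fr.F (l y) := by
  refine ⟨b'.constr K fun i => Fr.F (l (b i)), fun y => ?_⟩
  rw [Low_T_eq T b y]
  conv_rhs => rw [← b.sum_repr y]
  simp only [← h, map_sum, map_smul, smul_eq_mul, Module.Basis.constr_basis, map_mul]

theorem Low_ker (T : B →ₛₗ[Fr.σ] B) {l l' : B →ₗ[K] K} (h : ∀ y, l' (T y) = Fr.F (l y))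
    {S : Submodule K B} (hS : ∀ s ∈ S, l s = 0) {s : B} (hs : s ∈ Submodule.span K (T '' S)) :
    l' s = 0 := by
  refine (Submodule.span_le (p := LinearMap.ker l')).2 ?_ hs
  rintro _ ⟨y, hy, rfl⟩
  show l' (T y) = 0
  rw [h, hS y hy, map_zero]

theorem Low_notMem (T : B →ₛₗ[Fr.σ] B) (hT : Submodule.span K (Set.range T) = ⊤)
    {S : Submodule K B} {x : B} (hx : x ∉ S) : T x ∉ Submodule.span K (T '' S) := by
  obtain ⟨b', h⟩ := exists_basis_T T hT (Module.finBasis K B)
  obtain ⟨l, hl, hS⟩ := S.exists_le_ker_of_notMem hx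
  obtain ⟨l', hl'⟩ := Low_fun T h l
  intro hm
  have := Low_ker T hl' (fun s hs => hS hs) hm
  rw [hl', map_eq_zero] at this
  exact hl this

theorem Low_del (T : B →ₛₗ[Fr.σ] B) (hT : Submodule.span K (Set.range T) = ⊤) {v : Place kb K}
    {N1 : Nrm v B} {N2 : Nrm (Fr.π v) B} {ι : Type} [Fintype ι] {b b' : Module.Basis ι K B}
    (hb : ∀ i, b' i = T (b i)) (h1 : N1.Orth b) (h2 : N2.Orth b') {S : Submodule K B} {x : B}
    (hx : x ∉ S) : N2.del (T x) (Submodule.span K (T '' S)) = Fr.Q * N1.del x S := by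
  have hx' := Low_notMem T hT hx
  refine le_antisymm ?_ ?_
  · obtain ⟨l, l0, l1, l2, l3⟩ := Nrm.exists_fun (N := N1) hx
    obtain ⟨l', hl'⟩ := Low_fun T hb l
    obtain ⟨s, hs, h⟩ := (Nrm.le_del_iff (N := N2) hx').1 le_rfl
    have h3 := Low_fun_ge h2 l' (fun i => by
      rw [hb, hl']
      simpa using Low_ge_F (Fr := Fr) (l3 _ _ (Low_ge_basis h1 i))) h
    rw [map_add, Low_ker T hl' l0 hs, add_zero, hl'] at h3
    have h4 := h3.le ((map_ne_zero Fr.F).2 l1)
    rwa [Fr.ord_F, l2] at h4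
  · obtain ⟨s, hs, h⟩ := (Nrm.le_del_iff (N := N1) hx).1 le_rfl
    refine (Nrm.le_del_iff hx').2 ⟨T s, Submodule.subset_span ⟨s, hs, rfl⟩, ?_⟩
    rw [← map_add]
    refine (h2 _ _).2 fun i => ?_
    rw [Low_repr T hb]
    exact Low_ge_F ((h1 _ _).1 h i)

/-- At `π v` take the norm with orthonormal basis `T ∘ b`, `b` orthonormal at `v` (`F` of an
integral base change matrix is integral). One has `del'' (T x) (span (T '' S)) = Q * del x S`:
`≥` is clear, for `≤` transport the functional of `Nrm.exists_fun`. -/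
theorem exists_frob (hK : FF kb K) (N : NFam kb K B) (T : B →ₛₗ[Fr.σ] B)
    (hT : Submodule.span K (Set.range T) = ⊤) : ∃ N' : NFam kb K B,
      (∀ v (n : ℕ) (b : Module.Basis (Fin n) K B), (N.N v).Orth b → ∀ (c : Fin n → K) (m : ℤ),
        (N'.N (Fr.π v)).Ge (∑ i, c i • T (b i)) m ↔ ∀ i, (Fr.π v).Ge (c i) m) ∧
      ∀ S : Submodule K B, N'.ht (Submodule.span K (T '' S)) = Fr.Q * N.ht S := by
  have key : ∀ w, ∃ N2 : Nrm w B, ∀ v, Fr.π v = w → ∀ (n : ℕ) (b b' : Module.Basis (Fin n) K B),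
      (∀ i, b' i = T (b i)) → (N.N v).Orth b → N2.Orth b' := by
    intro w
    obtain ⟨v0, rfl⟩ := Fr.π.surjective w
    obtain ⟨e, he⟩ := (N.N v0).exists_orth
    obtain ⟨e', he'⟩ := exists_basis_T T hT e
    obtain ⟨N2, h2⟩ := exists_nrm (Fr.π v0) e'
    refine ⟨N2, fun v hv n b b' hb h3 => ?_⟩
    obtain rfl := Fr.π.injective hv
    exact Low_orth T he' hb he h2 h3
  choose N2 hN2 using key
  obtain ⟨b0', h0⟩ := exists_basis_T T hT (Module.finBasis K B)
  have hfin : {w | ¬(N2 w).Orth b0'}.Finite := by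
    refine ((N.orth_ae (Module.finBasis K B)).image Fr.π).subset fun w hw => ?_
    obtain ⟨v, rfl⟩ := Fr.π.surjective w
    exact ⟨v, fun h => hw (hN2 _ v rfl _ _ _ h0 h), rfl⟩
  refine ⟨⟨N2, ae_of_orth hK N2 b0' hfin⟩, fun v n b hb c m => ?_, fun S => ?_⟩
  · obtain ⟨b', h⟩ := exists_basis_T T hT b
    simp only [← h]
    exact (hN2 _ v rfl n b b' h hb).ge_sum_iff c m
  · set N' : NFam kb K B := ⟨N2, ae_of_orth hK N2 b0' hfin⟩ with hN'
    refine flag_ind (S0 := ⊥) bot_le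
      (fun S => N'.ht (Submodule.span K (T '' S)) = Fr.Q * N.ht S) ?_ ?_
    · simp [N'.ht_bot hK, N.ht_bot hK]
    · intro S x _ _ _ hx ih
      rw [Low_span_sup, Low_span_single, N'.ht_sup hK (Low_notMem T hT hx), N.ht_sup hK hx, ih,
        mul_sub, mul_finsum, ← finsum_comp_equiv Fr.π]
      congr 1
      refine finsum_congr fun v => ?_
      obtain ⟨e, he⟩ := (N.N v).exists_orth
      obtain ⟨e', he'⟩ := exists_basis_T T hT e
      exact Low_del T hT he' he (hN2 _ v rfl _ e e' he' he) hx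

namespace Th
variable {N : NFam kb K B} {C0 : ℕ} (t : Th N Fr C0)

theorem ge_T {v : Place kb K} {x : B} {m : ℤ} (h : (N.N v).Ge x m) :
    (N.N (Fr.π v)).Ge (t.T x) (Fr.Q * m + t.lo (Fr.π v)) := by
  obtain ⟨n, b, hb, h1⟩ := t.bnd v
  rw [Low_T_eq t.T b x]
  exact (h1 _ _).1 fun i => Low_ge_F ((hb x m).1 h i)

theorem ν_T_le (v : Place kb K) {x : B} (hx : x ≠ 0) :
    (N.N (Fr.π v)).ν (t.T x) ≤ Fr.Q * (N.N v).ν x + t.hi (Fr.π v) := by
  obtain ⟨n, b, hb, h1⟩ := t.bnd v
  have h2 := (h1 (fun i => Fr.F (b.repr x i)) ((N.N (Fr.π v)).ν (t.T x))).2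
    (by rw [← Low_T_eq t.T b x]; exact Nrm.ge_self _ _)
  have h3 : ¬(N.N v).Ge x ((N.N v).ν x + 1) := by
    rw [Nrm.ge_iff hx]
    omega
  rw [hb x, not_forall] at h3
  obtain ⟨i, hi⟩ := h3
  obtain ⟨h4, h5⟩ := Place.not_ge_iff.1 hi
  have h6 := (h2 i).le ((map_ne_zero Fr.F).2 h4)
  rw [Fr.ord_F] at h6
  have h7 : (Fr.Q : ℤ) * v.ord (b.repr x i) ≤ Fr.Q * (N.N v).ν x :=
    mul_le_mul_of_nonneg_left (by omega) (Int.natCast_nonneg _)
  omega

/-- `ht_map_le` for the identity between `N` and the family of `exists_frob` -/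
theorem ht_T_le (hK : FF kb K) (S : Submodule K B) :
    N.ht (Submodule.span K (t.T '' S)) ≤ Fr.Q * N.ht S + Module.finrank K S * C0 := by
  obtain ⟨N', h1, h2⟩ := exists_frob hK N t.T t.span
  have h3 := ht_map_le hK N' N LinearMap.id (Submodule.span K (t.T '' S)) (-t.lo) (by
    intro w y _ m hy
    obtain ⟨v, rfl⟩ := Fr.π.surjective w
    obtain ⟨n, b, hb, h4⟩ := t.bnd v
    obtain ⟨b', h⟩ := exists_basis_T t.T t.span b
    have e : y = ∑ i, b'.repr y i • t.T (b i) := by simp only [← h, b'.sum_repr]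
    rw [e] at hy
    have := (h4 _ _).1 ((h1 v n b hb _ m).1 hy)
    rw [← e] at this
    simpa using this)
  have h5 : tot (-t.lo) = -tot t.lo := by
    unfold tot
    rw [Finsupp.sum_neg_index fun _ => rfl, Finsupp.sum_neg]
  rw [Submodule.map_id, LinearMap.ker_id, inf_bot_eq, N'.ht_bot hK, h2, finrank_T t.T t.span,
    h5] at h3
  have h6 : (Module.finrank K S : ℤ) * -tot t.lo ≤ Module.finrank K S * C0 :=
    mul_le_mul_of_nonneg_left (by have := t.lo_ge; omega) (Int.natCast_nonneg _)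
  omega

theorem le_ht_T (hK : FF kb K) (S : Submodule K B) :
    Fr.Q * N.ht S - Module.finrank K S * C0 ≤ N.ht (Submodule.span K (t.T '' S)) := by
  obtain ⟨N', h1, h2⟩ := exists_frob hK N t.T t.span
  have h3 := ht_map_le hK N N' LinearMap.id (Submodule.span K (t.T '' S)) t.hi (by
    intro w y _ m hy
    obtain ⟨v, rfl⟩ := Fr.π.surjective w
    obtain ⟨n, b, hb, h4⟩ := t.bnd v
    obtain ⟨b', h⟩ := exists_basis_T t.T t.span b
    have e : y = ∑ i, b'.repr y i • t.T (b i) := by simp only [← h, b'.sum_repr]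
    rw [e] at hy
    have := (h1 v n b hb _ _).2 ((h4 _ _).2 hy)
    rw [← e] at this
    exact this)
  rw [Submodule.map_id, LinearMap.ker_id, inf_bot_eq, N.ht_bot hK, h2,
    finrank_T t.T t.span] at h3
  have h6 : (Module.finrank K S : ℤ) * tot t.hi ≤ Module.finrank K S * C0 :=
    mul_le_mul_of_nonneg_left t.hi_le (Int.natCast_nonneg _)
  omega

include t in
/-- apply `ht_T_le` to a subspace of minimal height (`ht_bdd`) -/
theorem low (hK : FF kb K) (S : Submodule K B) :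
    -(Module.finrank K B * C0 : ℤ) ≤ N.ht S := by
  obtain ⟨c, hc⟩ := N.ht_bdd hK
  obtain ⟨m, ⟨S0, rfl⟩, hm⟩ := Int.exists_least_of_bdd (P := fun z => ∃ S, N.ht S = z)
    ⟨c, fun z ⟨S, h⟩ => h ▸ hc S⟩ ⟨_, S, rfl⟩
  have h1 := hm _ ⟨S, rfl⟩
  have h2 := hm _ ⟨⊥, rfl⟩
  have h3 := (hm _ ⟨_, rfl⟩).trans (t.ht_T_le hK S0)
  rw [N.ht_bot hK] at h2
  have h4 : (Module.finrank K S0 : ℤ) * C0 ≤ Module.finrank K B * C0 :=
    mul_le_mul_of_nonneg_right (by exact_mod_cast S0.finrank_le) (Int.natCast_nonneg _)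
  have h5 : (Fr.Q : ℤ) * N.ht S0 ≤ 2 * N.ht S0 :=
    mul_le_mul_of_nonpos_right (by exact_mod_cast Fr.two_le) h2
  omega

theorem finrank_comap_le (S : Submodule K B) :
    Module.finrank K (S.comap t.T) ≤ Module.finrank K S := by
  rw [← finrank_T t.T t.span (S.comap t.T)]
  refine Submodule.finrank_mono (Submodule.span_le.2 ?_)
  rintro _ ⟨x, hx, rfl⟩
  exact hx

end Th

end Pool.Agent.Lib.MP_6adaea_nt.U
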