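import Pool.Agent.Lib.MP_6adaea_nt.U.Ang
import Pool.Agent.Lib.MP_6adaea_nt.U.Low

/-!
Small heights give small ramification.
-/

set_option linter.unusedSectionVars false

namespace Pool.Agent.Lib.MP_6adaea_nt.U
open Matrix Polynomial G
open scoped TensorProduct

variable {k kb K Ω : Type} [Field k] [Finite k] [Field kb] [Field K] [Field Ω] [Algebra k kb]
  [Algebra k K] [Algebra k Ω] [Algebra kb K] [Algebra kb Ω] [Algebra K Ω]
  [IsScalarTower k kb K] [IsScalarTower k kb Ω] [IsScalarTower k K Ω] [IsScalarTower kb K Ω]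
  [IsAlgClosed kb] [Algebra.IsAlgebraic k kb] [IsSepClosed Ω] [IsGalois K Ω] {θ : K} {r : ℕ}

theorem ex1_sum_le {α M : Type} [AddCommMonoid M] [LinearOrder M] [IsOrderedAddMonoid M]
    (c : α →₀ M) (hc : ∀ v, 0 ≤ c v) (U : Finset α) : ∑ v ∈ U, c v ≤ tot c := by
  classical
  rw [← Finset.sum_filter_ne_zero U]
  exact Finset.sum_le_sum_of_subset_of_nonneg
    (fun v hv => Finsupp.mem_support_iff.2 (Finset.mem_filter.1 hv).2) fun v _ _ => hc v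

theorem ex1_tot {α : Type} (π : α ≃ α) (s : α →₀ ℚ) (e d : α →₀ ℤ) (hs : ∀ v, 0 ≤ s v)
    (he : ∀ v, 0 ≤ e v) (hd : ∀ v, 0 ≤ d v) {Q : ℚ}
    (h : ∀ v, Q * s v ≤ s (π v) + 2 * e (π v) + 2 * d (π v)) :
    Q * tot s ≤ tot s + 2 * (tot e : ℤ) + 2 * (tot d : ℤ) := by
  have h1 := ex1_sum_le s hs (s.support.map π.toEmbedding)
  have h2 : ((∑ v ∈ s.support.map π.toEmbedding, e v : ℤ) : ℚ) ≤ (tot e : ℤ) :=
    Int.cast_le.2 (ex1_sum_le e he _)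
  have h3 : ((∑ v ∈ s.support.map π.toEmbedding, d v : ℤ) : ℚ) ≤ (tot d : ℤ) :=
    Int.cast_le.2 (ex1_sum_le d hd _)
  rw [Finset.sum_map] at h1 h2 h3
  rw [Int.cast_sum] at h2 h3
  have h4 : Q * tot s ≤ ∑ v ∈ s.support, (s (π v) + 2 * e (π v) + 2 * d (π v)) := by
    rw [tot, Finsupp.sum, Finset.mul_sum]
    exact Finset.sum_le_sum fun v _ => h v
  rw [Finset.sum_add_distrib, Finset.sum_add_distrib, ← Finset.mul_sum, ← Finset.mul_sum] at h4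
  simp only [Equiv.coe_toEmbedding] at h1 h2 h3
  linarith

section core

variable {B : Type} [AddCommGroup B] [Module K B] [FiniteDimensional K B]

/-- all angles between elements of `Y` that are not proportional are at most `s` -/
def ex1_A {v : Place kb K} (V : Val kb Ω) (N : Nrm v B) (Y : Set (B →ₗ[K] Ω)) (s : ℚ) : Prop :=
  ∀ η ∈ Y, ∀ η' ∈ Y, (∃ x y, η x * η' y - η y * η' x ≠ 0) → Ang V N η η' s

theorem ex1_max {v : Place kb K} {V : Val kb Ω} (hV : V.Over v) (N : Nrm v B)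
    {Y : Set (B →ₗ[K] Ω)} (hY : Y.Finite) :
    ∃ α : ℚ, 0 ≤ α ∧ ∀ s, 0 ≤ s → (ex1_A V N Y s ↔ α ≤ s) := by
  classical
  obtain ⟨b, hb⟩ := N.exists_orth
  have h1 : ∀ p : (B →ₗ[K] Ω) × (B →ₗ[K] Ω), ∃ α : ℚ, ∀ s, 0 ≤ s →
      (((∃ x y, p.1 x * p.2 y - p.1 y * p.2 x ≠ 0) → Ang V N p.1 p.2 s) ↔ α ≤ s) := fun p => by
    by_cases hp : ∃ x y, p.1 x * p.2 y - p.1 y * p.2 x ≠ 0
    · obtain ⟨α, -, h2, -⟩ := exists_ang hV hb hp
      exact ⟨α, fun s _ => ⟨fun h => (h2 s).1 (h hp), fun h _ => (h2 s).2 h⟩⟩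
    · exact ⟨0, fun s hs => ⟨fun _ => hs, fun _ h => absurd h hp⟩⟩
  choose f hf using h1
  refine ⟨(hY.prod hY).toFinset.fold max 0 f, (Finset.le_fold_max _).2 (Or.inl le_rfl),
    fun s hs => ?_⟩
  rw [Finset.fold_max_le]
  refine ⟨fun h => ⟨hs, fun p hp => ?_⟩, fun h η hη η' hη' => ?_⟩
  · rw [Set.Finite.mem_toFinset] at hp
    exact (hf p s hs).1 (h _ hp.1 _ hp.2)
  · exact (hf (η, η') s hs).2 (h.2 _ ((Set.Finite.mem_toFinset _).2 ⟨hη, hη'⟩))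

theorem ex1_ae (hK : FF kb K) (N : NFam kb K B) {Y : Set (B →ₗ[K] Ω)} (hY : Y.Finite) :
    {v : Place kb K | ∃ V : Val kb Ω, V.Over v ∧ ¬ex1_A V (N.N v) Y 0}.Finite := by
  let b := Module.finBasis K B
  have h1 : (⋃ η ∈ Y, ⋃ i, {v : Place kb K | ∃ V : Val kb Ω, V.Over v ∧
      V.ord (η (b i)) ≠ 0}).Finite :=
    hY.biUnion fun η _ => Set.finite_iUnion fun i => val_ae hK _
  have h2 : (⋃ η ∈ Y, ⋃ η' ∈ Y, ⋃ i, ⋃ j, {v : Place kb K | ∃ V : Val kb Ω, V.Over v ∧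
      V.ord (η (b i) * η' (b j) - η (b j) * η' (b i)) ≠ 0}).Finite :=
    hY.biUnion fun η _ => hY.biUnion fun η' _ => Set.finite_iUnion fun i =>
      Set.finite_iUnion fun j => val_ae hK _
  refine (((N.orth_ae b).union h1).union h2).subset ?_
  rintro v ⟨V, hV, hA⟩
  by_contra hn
  simp only [Set.mem_union, Set.mem_ofPred_eq, Set.mem_iUnion, not_or, not_not, not_exists,
    not_and] at hn
  refine hA fun η hη η' hη' hp => ?_
  obtain ⟨α, -, h3, h4⟩ := exists_ang hV hn.1.1 hp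
  exact (h3 0).2 (h4 (fun i => hn.1.2 η hη i V hV) (fun i => hn.1.2 η' hη' i V hV)
    fun i j => hn.2 η hη η' hη' i j V hV).le

theorem ex1_conj {v : Place kb K} {V V' : Val kb Ω} (hV : V.Over v) (hV' : V'.Over v)
    {N : Nrm v B} {Y : Set (B →ₗ[K] Ω)}
    (hG : ∀ σ : Ω ≃ₐ[K] Ω, ∀ η ∈ Y, σ.toLinearMap ∘ₗ η ∈ Y) {s : ℚ} (h : ex1_A V N Y s) :
    ex1_A V' N Y s := by
  obtain ⟨σ, hσ⟩ := Val.conj hV' hV
  have h0 : ∀ z m, V.Ge (σ z) m → V'.Ge z m := fun z m hz =>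
    hz.imp (fun h1 => (map_eq_zero σ).1 h1) fun h1 => hσ z ▸ h1
  have h1 : ∀ (η η' : B →ₗ[K] Ω) x y, (σ.toLinearMap ∘ₗ η) x * (σ.toLinearMap ∘ₗ η') y -
      (σ.toLinearMap ∘ₗ η) y * (σ.toLinearMap ∘ₗ η') x = σ (η x * η' y - η y * η' x) :=
    fun η η' x y => by
      rw [map_sub, map_mul, map_mul]
      rfl
  rintro η hη η' hη' ⟨x, y, hxy⟩
  obtain ⟨a, a', h2, h3, x', y', mx, my, h4, h5, h6, h7⟩ := h _ (hG σ η hη) _ (hG σ η' hη')
    ⟨x, y, by rw [h1]; exact (map_ne_zero σ).2 hxy⟩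
  rw [h1] at h6 h7
  exact ⟨a, a', fun x m hx => h0 _ _ (h2 x m hx), fun x m hx => h0 _ _ (h3 x m hx), x', y', mx, my,
    h4, h5, (map_ne_zero σ).1 h6, hσ _ ▸ h7⟩

theorem ex1_orth {v : Place kb K} {N : Nrm v B} {n : ℕ} {b : Module.Basis (Fin n) K B}
    (hb : N.Orth b) (i : Fin n) : N.Ge (b i) 0 := by
  refine (hb _ _).2 fun j => ?_
  rw [b.repr_self, Finsupp.single_apply]
  split_ifs
  · exact v.ge_one
  · exact v.ge_zero _

theorem ex1_core (hK : FF kb K) (Fr : Frb k kb K Ω) (N1 N2 : NFam kb K B)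
    (T : B →ₛₗ[Fr.toK.σ] B) (hT : Submodule.span K (Set.range T) = ⊤) (lo : Place kb K →₀ ℤ)
    (hle : ∀ v x m, (N1.N v).Ge x m → (N2.N v).Ge x m)
    (hge : ∀ v x m, (N1.N v).Ge x m →
      (N2.N (Fr.toK.π v)).Ge (T x) (Fr.toK.Q * m + lo (Fr.toK.π v)))
    {h : ℚ} (h1 : (N1.ht ⊤ : ℚ) ≤ h) (h2 : -(N2.ht ⊤ : ℚ) ≤ h)
    (h3 : -(Module.finrank K B * tot lo : ℤ) ≤ h) (h0 : 0 ≤ h) {Y : Set (B →ₗ[K] Ω)}
    (hY : Y.Finite) (hG : ∀ σ : Ω ≃ₐ[K] Ω, ∀ η ∈ Y, σ.toLinearMap ∘ₗ η ∈ Y)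
    (hF : ∀ η ∈ Y, ∃ ξ ∈ Y, ∀ x, ξ (T x) = Fr.FO (η x)) :
    ∃ s : Place kb K →₀ ℚ, (∀ v, 0 ≤ s v) ∧ tot s ≤ 12 * h ∧
      ∀ (v : Place kb K) (V : Val kb Ω), V.Over v → ex1_A V (N1.N v) Y (s v) := by
  choose V0 hV0 using fun v : Place kb K => exists_val (Ω := Ω) v
  choose α hα0 hα using fun v => ex1_max (hV0 v) (N1.N v) hY
  have hfin : (Function.support α).Finite := by
    refine (ex1_ae hK N1 hY).subset fun v hv => ⟨V0 v, hV0 v, fun hA => hv ?_⟩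
    exact le_antisymm ((hα v 0 le_rfl).1 hA) (hα0 v)
  have hall : ∀ (v : Place kb K) (V : Val kb Ω), V.Over v → ex1_A V (N1.N v) Y (α v) :=
    fun v V hV => ex1_conj (hV0 v) hV hG ((hα v _ (hα0 v)).2 le_rfl)
  refine ⟨Finsupp.ofSupportFinite α hfin, hα0, ?_, hall⟩
  obtain ⟨N3, hN3, hht⟩ := exists_frob hK N1 T hT
  have hbas : ∀ v, ∃ (n : ℕ) (b b' : Module.Basis (Fin n) K B), (N1.N v).Orth b ∧
      (N3.N (Fr.toK.π v)).Orth b' ∧ ∀ i, b' i = T (b i) := fun v => by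
    obtain ⟨b, hb⟩ := (N1.N v).exists_orth
    obtain ⟨b', hb'⟩ := exists_basis_T T hT b
    refine ⟨_, b, b', hb, fun x m => ?_, hb'⟩
    rw [← hN3 v _ b hb]
    simp only [← hb', b'.sum_repr]
  obtain ⟨e, he0, he, he'⟩ := idx hK N1 N2 0 fun v x m hx => by
    simpa using hle v x m hx
  obtain ⟨d, hd0, hd, hd'⟩ := idx hK N3 N2 lo fun w x m hx => by
    obtain ⟨v, rfl⟩ := Fr.toK.π.surjective w
    obtain ⟨n, b, b', hb, hb', hbb⟩ := hbas v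
    rw [← b'.sum_repr x]
    refine Nrm.Ge.sum fun i _ => Nrm.Ge.smul ((hb' x m).1 hx i) ?_
    have h4 := hge v _ _ (ex1_orth hb i)
    rwa [mul_zero, zero_add, ← hbb] at h4
  have hQ : (2 : ℚ) ≤ Fr.Q := by exact_mod_cast Fr.two_le
  have hstep : ∀ v, (Fr.Q : ℚ) * α v ≤
      α (Fr.toK.π v) + 2 * e (Fr.toK.π v) + 2 * d (Fr.toK.π v) := fun v => by
    have a1 : (0 : ℚ) ≤ e (Fr.toK.π v) := by exact_mod_cast he0 _
    have a2 : (0 : ℚ) ≤ d (Fr.toK.π v) := by exact_mod_cast hd0 _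
    have a3 := hα0 (Fr.toK.π v)
    rw [mul_comm, ← le_div_iff₀ (by linarith)]
    refine (hα v _ (div_nonneg (by linarith) (by linarith))).1 ?_
    rintro η hη η' hη' ⟨x, y, hxy⟩
    obtain ⟨V', hV', hF'⟩ := Fr.exists_val (hV0 v)
    obtain ⟨n, b, b', hb, hb', hbb⟩ := hbas v
    obtain ⟨ξ, hξ, e1⟩ := hF η hη
    obtain ⟨ξ', hξ', e2⟩ := hF η' hη'
    have a4 := hall _ V' hV' ξ hξ ξ' hξ' ⟨T x, T y, by
      rw [e1, e1, e2, e2, ← map_mul, ← map_mul, ← map_sub]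
      exact (map_ne_zero Fr.FO).2 hxy⟩
    have a5 := (Ang.change (lo := 0) (fun x m hx => by simpa using hle _ x m hx)
      (he' (Fr.toK.π v))).1 a4
    have a6 := (Ang.change (N := N3.N (Fr.toK.π v)) (fun x m hx => by
      rw [← b'.sum_repr x]
      refine Nrm.Ge.sum fun i _ => Nrm.Ge.smul ((hb' x m).1 hx i) ?_
      have h4 := hge v _ _ (ex1_orth hb i)
      rwa [mul_zero, zero_add, ← hbb] at h4) (hd' (Fr.toK.π v))).2 a5
    exact Ang.frob (hV0 v) hV' hb hb' (Fr.FO : Ω →+* Ω) (by have := Fr.two_le; omega) hF'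
      (fun i => by rw [hbb, e1]; rfl) (fun i => by rw [hbb, e2]; rfl) a6
  have hsum := ex1_tot Fr.toK.π (Finsupp.ofSupportFinite α hfin) e d hα0 he0 hd0 hstep
  have ht3 : N3.ht ⊤ = Fr.Q * N1.ht ⊤ := by
    have h4 := hht ⊤
    rwa [Submodule.top_coe, Set.image_univ, hT] at h4
  have ht0 : tot (0 : Place kb K →₀ ℤ) = 0 := Finsupp.sum_zero_index
  rw [he, hd, ht3, ht0] at hsum
  push_cast at hsum h3
  have h5 : (Fr.Q : ℚ) * N1.ht ⊤ ≤ Fr.Q * h := mul_le_mul_of_nonneg_left h1 (by linarith)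
  by_contra hn
  have h6 : 0 < (Fr.Q - 1 : ℚ) * (tot (Finsupp.ofSupportFinite α hfin) - 12 * h) :=
    mul_pos (by linarith) (by linarith)
  have h7 : 0 ≤ (Fr.Q - 2 : ℚ) * h := mul_nonneg (by linarith) h0
  nlinarith

end core

/-- the functional attached to a vector -/
noncomputable def ex1_dot (K : Type) [Field K] [Algebra K Ω] {J : Type} [Fintype J] (η : J → Ω) :
    (J → K) →ₗ[K] Ω where
  toFun x := (fun j => algebraMap K Ω (x j)) ⬝ᵥ η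
  map_add' x y := by simp [dotProduct, add_mul, Finset.sum_add_distrib]
  map_smul' c x := by simp [dotProduct, Finset.mul_sum, Algebra.smul_def, mul_assoc]

theorem ex1_dot_gal {J : Type} [Fintype J] (σ : Ω ≃ₐ[K] Ω) (η : J → Ω) (x : J → K) :
    σ (ex1_dot K η x) = ex1_dot K (fun j => σ (η j)) x := by
  simp [ex1_dot, dotProduct]

theorem ex1_dot_single {J : Type} [Fintype J] [DecidableEq J] (η : J → Ω) (j : J) :
    ex1_dot K η (Pi.single j 1) = η j := by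
  simp [ex1_dot, dotProduct, Pi.single_apply, apply_ite]

/-- View `η ∈ Y` as a functional on the quotient. Fix `V v` over `v` (`exists_val`), let `s v` be
the maximum of `0` and the angles (`exists_ang` for `N1`) of the pairs in `Y` that are not
proportional. By `Val.conj` and `hG` the bound holds for all `V` over `v`. Finite support:
`orth_ae`, `val_ae`. With `N''` from `exists_frob` for `N1`, `FQ`, with `idx` for `(N1, N2, 0)`
and `(N'', N2, lo)`, `Ang.change`, `Ang.frob` and `Frb.exists_val`: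
`Q * s v ≤ s (π v) + 2 * e (π v) + 2 * d (π v)`. Sum: `(Q - 1) * tot s ≤ (2 * Q + 8) * h`. -/
theorem ex1 (hK : FF kb K) (Fr : Frb k kb K Ω) {J : Type} [Fintype J] [DecidableEq J]
    {P : Matrix J J K} (hP : IsUnit P.det) {N : Submodule K (J → K)} {h : ℚ}
    (q : QD Fr.toK P N h) (Y : Set (J → Ω)) (hY : Y.Finite) (hann : ∀ η ∈ Y, η ∈ ann Ω N)
    (hG : ∀ σ : Ω ≃ₐ[K] Ω, ∀ η ∈ Y, (fun j => σ (η j)) ∈ Y)
    (hF : ∀ η ∈ Y, ∃ η' ∈ Y, (fun j => Fr.FO (η j)) = P.map (algebraMap K Ω) *ᵥ η') :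
    ∃ s : Place kb K →₀ ℚ, (∀ v, 0 ≤ s v) ∧ tot s ≤ 12 * h ∧
      ∀ (v : Place kb K) (V : Val kb Ω), V.Over v → ∀ σ ∈ V.inert K, ∀ η ∈ Y,
        (¬∃ c : Ω, (fun j => σ (η j)) = c • η) →
        ∃ u, V.Ge u 0 ∧ (∀ (τ : Ω ≃ₐ[K] Ω) (c : Ω), (fun j => τ (η j)) = c • η → τ u = u) ∧
          σ u ≠ u ∧ V.ord (σ u - u) ≤ s v := by
  have hex : ∀ η ∈ Y, ∃ l : ((J → K) ⧸ N) →ₗ[K] Ω, ∀ x, l (N.mkQ x) = ex1_dot K η x :=
    fun η hη => ⟨N.liftQ (ex1_dot K η) fun x hx => hann η hη x hx, fun _ => rfl⟩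
  let Y' : Set (((J → K) ⧸ N) →ₗ[K] Ω) := {l | ∃ η ∈ Y, ∀ x, l (N.mkQ x) = ex1_dot K η x}
  have hY' : Y'.Finite := by
    refine (hY.biUnion (t := fun η => {l : ((J → K) ⧸ N) →ₗ[K] Ω |
      ∀ x, l (N.mkQ x) = ex1_dot K η x}) fun η _ => Set.Subsingleton.finite ?_).subset ?_
    · intro l hl l' hl'
      refine LinearMap.ext fun y => ?_
      obtain ⟨x, rfl⟩ := N.mkQ_surjective y
      rw [hl x, hl' x]
    · rintro l ⟨η, hη, hl⟩
      exact Set.mem_biUnion hη hl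
  have hG' : ∀ σ : Ω ≃ₐ[K] Ω, ∀ l ∈ Y', σ.toLinearMap ∘ₗ l ∈ Y' := by
    rintro σ l ⟨η, hη, hl⟩
    exact ⟨_, hG σ η hη, fun x => by rw [← ex1_dot_gal, ← hl]; rfl⟩
  have hT : Submodule.span K (Set.range q.FQ) = ⊤ := by
    refine eq_top_iff.2 fun y _ => ?_
    obtain ⟨x, rfl⟩ := N.mkQ_surjective y
    have h1 : x = ∑ j, (x ᵥ* P⁻¹) j • P j := by
      rw [← Matrix.vecMul_eq_sum, vecMul_vecMul, nonsing_inv_mul _ hP, vecMul_one]
    rw [h1, map_sum]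
    refine Submodule.sum_mem _ fun j _ => ?_
    rw [map_smul]
    refine Submodule.smul_mem _ _ (Submodule.subset_span ⟨N.mkQ (Pi.single j 1), ?_⟩)
    have h2 : (fun i => Fr.toK.F ((Pi.single j 1 : J → K) i)) = Pi.single j 1 := by
      funext i
      simp [Pi.single_apply, apply_ite]
    rw [q.FQ_mk, h2, single_one_vecMul]
    rfl
  have hF' : ∀ l ∈ Y', ∃ ξ ∈ Y', ∀ x, ξ (q.FQ x) = Fr.FO (l x) := by
    rintro l ⟨η, hη, hl⟩
    obtain ⟨η', hη', h1⟩ := hF η hη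
    obtain ⟨ξ, hξ⟩ := hex η' hη'
    refine ⟨ξ, ⟨η', hη', hξ⟩, fun y => ?_⟩
    obtain ⟨x, rfl⟩ := N.mkQ_surjective y
    have h2 : Fr.FO (ex1_dot K η x) =
        (fun j => algebraMap K Ω (Fr.toK.F (x j))) ⬝ᵥ fun j => Fr.FO (η j) := by
      change Fr.FO (∑ j, algebraMap K Ω (x j) * η j) = ∑ j, _
      rw [map_sum]
      refine Finset.sum_congr rfl fun j _ => ?_
      rw [map_mul, Fr.FO_compat]
      rfl
    rw [q.FQ_mk, hξ, hl, h2, h1, dotProduct_mulVec]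
    change (fun j => algebraMap K Ω _) ⬝ᵥ η' = _
    congr 1
    funext j
    exact RingHom.map_vecMul (algebraMap K Ω) P _ j
  have h3 : -(Module.finrank K ((J → K) ⧸ N) * tot q.lo : ℤ) ≤ h := by
    have h4 : (Module.finrank K ((J → K) ⧸ N) : ℚ) ≤ Fintype.card J := by
      have h5 := N.finrank_quotient_le
      rw [Module.finrank_fintype_fun_eq_card] at h5
      exact_mod_cast h5
    have h6 := q.h3
    have h7 := q.h0
    have h8 : (0 : ℚ) ≤ Module.finrank K ((J → K) ⧸ N) := Nat.cast_nonneg _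
    push_cast at h6 ⊢
    rcases le_total 0 ((tot q.lo : ℤ) : ℚ) with h9 | h9
    · nlinarith [mul_nonneg h8 h9]
    · nlinarith [mul_le_mul_of_nonpos_right h4 h9]
  obtain ⟨s, hs0, hs, hA⟩ := ex1_core hK Fr q.N1 q.N2 q.FQ hT q.lo q.le q.ge q.h1 q.h2 h3 q.h0
    hY' hG' hF'
  refine ⟨s, hs0, hs, fun v V hV σ hσ η hη hn => ?_⟩
  obtain ⟨l, hl⟩ := hex η hη
  have hl' : l ∈ Y' := ⟨η, hη, hl⟩
  have hnd : ∃ x y, l x * (σ.toLinearMap ∘ₗ l) y - l y * (σ.toLinearMap ∘ₗ l) x ≠ 0 := by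
    by_contra h1
    have h2 : ∀ i j, η i * σ (η j) = η j * σ (η i) := fun i j => by
      by_contra h3
      refine h1 ⟨N.mkQ (Pi.single i 1), N.mkQ (Pi.single j 1), ?_⟩
      change l _ * σ (l _) - l _ * σ (l _) ≠ 0
      rw [hl, hl, ex1_dot_single, ex1_dot_single]
      exact sub_ne_zero.2 h3
    by_cases h4 : ∃ i, η i ≠ 0
    · obtain ⟨i, hi⟩ := h4
      refine hn ⟨σ (η i) / η i, funext fun j => ?_⟩
      rw [Pi.smul_apply, smul_eq_mul, div_mul_eq_mul_div, eq_div_iff hi, mul_comm, h2, mul_comm]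
    · refine hn ⟨0, funext fun j => ?_⟩
      rw [not_not.1 fun h5 => h4 ⟨j, h5⟩, map_zero, zero_smul, Pi.zero_apply]
  obtain ⟨x, x', h1, h2, h3, h4⟩ := Ang.exists_u hV hσ (hA v V hV l hl' _ (hG' σ l hl') hnd)
  refine ⟨_, h2, fun τ c hc => ?_, h3, h4⟩
  have h5 : ∀ y, τ (l y) = c * l y := fun y => by
    obtain ⟨z, rfl⟩ := N.mkQ_surjective y
    rw [hl, ex1_dot_gal, hc]
    exact dotProduct_smul c _ η
  have h6 : c ≠ 0 := by
    rintro rfl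
    exact h1 ((map_eq_zero τ).1 (by rw [h5, zero_mul]))
  rw [map_div₀, h5, h5, mul_div_mul_left _ _ h6]

end Pool.Agent.Lib.MP_6adaea_nt.U
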