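import Pool.Agent.Lib.MP_6adaea_nt.T.ExH
import Pool.Agent.Lib.MP_6adaea_nt.T.ExN
import Pool.Agent.Lib.MP_6adaea_nt.T.Zero

/-!
Small ramification bounds the height.
-/

set_option linter.unusedSectionVars false

namespace Pool.Agent.Lib.MP_6adaea_nt.U
open Matrix Polynomial G T
open scoped TensorProduct

variable {k kb K Ω : Type} [Field k] [Finite k] [Field kb] [Field K] [Field Ω] [Algebra k kb]
  [Algebra k K] [Algebra k Ω] [Algebra kb K] [Algebra kb Ω] [Algebra K Ω]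
  [IsScalarTower k kb K] [IsScalarTower k kb Ω] [IsScalarTower k K Ω] [IsScalarTower kb K Ω]
  [IsAlgClosed kb] [Algebra.IsAlgebraic k kb] [IsSepClosed Ω] [IsGalois K Ω] {θ : K} {r : ℕ}

theorem Ex2_tot_nonneg {α : Type} {s : α →₀ ℚ} (h : ∀ v, 0 ≤ s v) : 0 ≤ tot s :=
  Finset.sum_nonneg fun v _ => h v

theorem Ex2_tot_add {α : Type} (s t : α →₀ ℚ) : tot (s + t) = tot s + tot t :=
  Finsupp.sum_add_index' (fun _ => rfl) fun _ _ _ => rfl

theorem Ex2_field [IsFF kb K] (hr : 0 < r) (D : DM k Ω θ r) {a P : k[X]} (ha : a ≠ 0)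
    (hPa : P ∣ a) {G : Subgroup (Ω ≃ₐ[K] Ω)} (hG : G.Normal)
    (h : ∀ σ : Ω ≃ₐ[K] Ω, (∀ y, aeval D.φ a y = 0 → σ y = y) → σ ∈ G) :
    FiniteDimensional K (IntermediateField.fixedField (G ⊓ scalG D P)) ∧
      IsGalois K (IntermediateField.fixedField (G ⊓ scalG D P)) ∧
      Module.finrank K (IntermediateField.fixedField (G ⊓ scalG D P)) ≤
        (Nat.card k ^ (r * a.natDegree)) ^ (Nat.card k ^ (r * a.natDegree)) := by
  obtain ⟨h1, h2⟩ := tors_finite D.dr hr (by simpa using D.ne) ha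
  have h3 := scalG_normal D P
  obtain ⟨t1, t2, t3⟩ := fixed_facts (G ⊓ scalG D P) inferInstance h1.toFinset
    (fun σ y hy => by
      rw [Set.Finite.mem_toFinset, SetLike.mem_coe, mem_tors] at hy ⊢
      rw [← aut_comm D.dr, hy, map_zero])
    (fun σ hσ => by
      have h4 : ∀ y, aeval D.φ a y = 0 → σ y = y := fun y hy =>
        hσ y (h1.mem_toFinset.2 hy)
      refine ⟨h σ h4, 1, fun y hy => ?_⟩
      obtain ⟨b, rfl⟩ := hPa
      rw [Units.val_one, one_smul]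
      refine h4 y ?_
      rw [mul_comm, map_mul, Module.End.mul_apply, mem_tors.1 hy, map_zero])
  refine ⟨t1, t2, t3.trans ?_⟩
  have h5 : h1.toFinset.card ≤ Nat.card k ^ (r * a.natDegree) := by
    rw [← Set.ncard_eq_toFinset_card _ h1, ← Nat.card_coe_set_eq]
    exact h2
  exact (Nat.pow_le_pow_left h5 _).trans (Nat.pow_le_pow_right (pow_pos Nat.card_pos _) h5)

theorem Ex2_cast {d : ℕ} (hd : 0 < d) : ((Nat.card k ^ d - 1 : ℕ) : kb) ≠ 0 := by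
  obtain ⟨p, hp, -, hc, f, hf, e⟩ := exists_char k kb
  rw [Nat.cast_sub (pow_pos Nat.card_pos _), e, Nat.cast_pow, Nat.cast_pow, CharP.cast_eq_zero,
    zero_pow hf.ne', zero_pow hd.ne']
  simp

theorem Ex2_ram [IsFF kb K] (hB : Base kb θ) (hr : 0 < r) (D : DM k Ω θ r) {P : k[X]}
    (hP : Irreducible P) (hco : P.natDegree.Coprime r.factorial) (hP0 : aeval θ P ≠ 0)
    {G : Subgroup (Ω ≃ₐ[K] Ω)} (hG : G.Normal)
    (h2 : ∀ σ ∈ G, ∃ c : k[X], ∀ y, aeval D.φ P y = 0 → σ y = aeval D.φ c y)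
    {v : Place kb K} {b z : ℚ} (hb : 0 ≤ b) (hz : ((max 0 (v.ord (aeval θ P)) : ℤ) : ℚ) ≤ z)
    (h3 : ∀ V : Val kb Ω, V.Over v → ∀ σ ∈ V.inert K, σ ∉ G →
      ∃ u, V.Ge u 0 ∧ (∀ τ ∈ G, τ u = u) ∧ σ u ≠ u ∧ V.ord (σ u - u) ≤ b)
    {V : QVal Ω} (hV : V.Over v) {σ : Ω ≃ₐ[K] Ω} (hσ : σ ∈ V.stab K)
    (hx : ∃ x ∈ IntermediateField.fixedField (G ⊓ scalG D P), σ x ≠ x) :
    ∃ u ∈ IntermediateField.fixedField (G ⊓ scalG D P), V.Ge u 0 ∧ ¬V.Gt (σ u - u) (b + z) := by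
  have hz0 : (0 : ℚ) ≤ z := le_trans (by exact_mod_cast le_max_left _ _) hz
  by_cases h : σ ∈ G
  · obtain ⟨c, hc⟩ := h2 σ h
    have h4 : V.Gt (aeval (algebraMap K Ω θ) P) 0 := by
      by_contra h5
      obtain ⟨x, x1, x2⟩ := hx
      exact x2 ((IntermediateField.mem_fixedField_iff _ _).1 x1 σ
        ⟨h, mem_scalG hB hr D hV hP hco h5 hσ hc⟩)
    rw [aeval_algebraMap_apply, hV.gt_zero] at h4
    have h5 : (1 : ℚ) ≤ z := le_trans (by exact_mod_cast (h4.le hP0).trans (le_max_right _ _)) hz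
    have h6 := scalG_normal D P
    have h7 : (G ⊓ scalG D P).Normal := inferInstance
    obtain ⟨u, u1, u2, u3⟩ := tame_unit hV (IntermediateField.fixedField (G ⊓ scalG D P)) hσ
      (fun x hx => (IntermediateField.mem_fixedField_iff _ _).2 fun τ hτ => by
        have h8 := (IntermediateField.mem_fixedField_iff _ _).1 hx _ (h7.conj_mem' τ hτ σ)
        rw [AlgEquiv.mul_apply, AlgEquiv.mul_apply] at h8
        have h9 := congrArg σ h8
        rwa [← AlgEquiv.mul_apply σ σ⁻¹, mul_inv_cancel, AlgEquiv.one_apply] at h9)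
      (Ex2_cast (k := k) hP.natDegree_pos)
      (fun x hx => (IntermediateField.mem_fixedField_iff _ _).1 hx _
        ⟨pow_mem h _, 1, fun y hy => by rw [Units.val_one, one_smul, pow_fix D hP hc hy]⟩) hx
    exact ⟨u, u1, u2, fun h9 => u3 (h9.mono (by linarith))⟩
  · obtain ⟨u, u1, u2, u3, u4⟩ := h3 (ofQ V hV.ord_const) hV σ hσ h
    refine ⟨u, (IntermediateField.mem_fixedField_iff _ _).2 fun τ hτ => u2 τ hτ.1, u1,
      QVal.not_gt_iff.2 ⟨sub_ne_zero.2 u3, ?_⟩⟩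
    rw [ofQ_ord] at u4
    linarith

theorem Ex2_beta [IsFF kb K] (p : ℕ) [Fact p.Prime] [CharP kb p] {N : Type} [Field N]
    [Algebra kb N] [Algebra K N] [IsScalarTower kb K N] [FiniteDimensional K N] [IsGalois K N]
    {x y : K} {Z₁ Z₂ : Place kb K →₀ ℕ} (h1 : ∀ v, (Z₁ v : ℤ) = max 0 (v.ord x))
    (h2 : ∀ v, (Z₂ v : ℤ) = max 0 (v.ord y⁻¹)) {B : ℕ} (hB : Module.finrank K N ≤ B)
    (T : Finset (Place kb N)) :
    ∑ w ∈ T, (max 0 (-w.ord (algebraMap K N y)) + max 0 (w.ord (algebraMap K N x))) ≤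
      ((B * tot (Z₂ + Z₁) : ℕ) : ℤ) := by
  refine (sum_up p (Z₂ + Z₁) T _ fun w _ v e h => le_of_eq ?_).trans ?_
  · have he : (0 : ℤ) ≤ e := Int.natCast_nonneg e
    rw [Finsupp.add_apply, Nat.cast_add, h1, h2, h.2, h.2, v.ord_inv, mul_add,
      mul_max_of_nonneg _ _ he, mul_max_of_nonneg _ _ he, mul_zero, mul_neg]
  · exact_mod_cast Nat.mul_le_mul_right _ hB

theorem Ex2_down [IsFF kb K] (p : ℕ) [Fact p.Prime] [CharP kb p] {N : Type} [Field N]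
    [Algebra kb N] [Algebra K N] [IsScalarTower kb K N] [FiniteDimensional K N] [IsGalois K N]
    {q : ℕ} (hq : 1 < q) {g : ℕ → K} (hg : g r ≠ 0) {z : N} (hz : z ≠ 0) {B : ℚ}
    (h : ∀ T : Finset (Place kb N), ∑ w ∈ T,
      lam q r (fun i => algebraMap K N (g i) * z ^ ∑ j ∈ Finset.range i, q ^ j) w ≤ B) :
    hJ kb q r g ≤ B := by
  obtain ⟨s, e, h1, h2⟩ := exists_section (kb := kb) (K := K) p N
  refine hJ_le fun T => le_trans ?_ (h (T.map ⟨s, h1⟩))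
  rw [Finset.sum_map]
  exact Finset.sum_le_sum fun v _ => lam_twist (h2 v) hq g hg hz

theorem Ex2_arith {h c β B k0 k1 n t z : ℚ} (hc : 0 ≤ c) (hβ : 0 ≤ β) (hn : 0 ≤ n) (hk : 0 ≤ k0)
    (ht : 0 ≤ t) (hz : 0 ≤ z) (hB : n ≤ B) (h1 : h ≤ c * (β + k1))
    (h2 : k1 ≤ n * k0 + n ^ 2 * (t + z)) :
    h ≤ c * (β + B * k0 + B ^ 2 * z + B ^ 2) * (1 + t) := by
  have h3 : n ^ 2 ≤ B ^ 2 := pow_le_pow_left₀ hn hB 2
  have h4 : n * k0 ≤ B * k0 := mul_le_mul_of_nonneg_right hB hk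
  have h5 : n ^ 2 * (t + z) ≤ B ^ 2 * (t + z) := mul_le_mul_of_nonneg_right h3 (add_nonneg ht hz)
  have h6 : 0 ≤ B := hn.trans hB
  have h7 : 0 ≤ (β + B * k0 + B ^ 2 * z) * t := by positivity
  have h8 : 0 ≤ B ^ 2 := by positivity
  rw [mul_assoc]
  refine h1.trans (mul_le_mul_of_nonneg_left ?_ hc)
  nlinarith

/-- Take `m` from `exists_not_root`, `d1` so large that the hypotheses `hd`, `hM` of `ht_bound`
hold (`key_growth`), and some `F₀ : FFD kb K p` (`IsFF.exists_gen`, `IsFF.exists_ffd`). Let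
`N = fixedField (G ⊓ scalG D P)`, of degree at most `n ^ n`, `n = q ^ (r * deg a)` (`fixed_facts`
with the `a`-torsion, which contains the `P`-torsion), `Z₁`, `Z₂` the divisors of zeros of
`aeval θ P` and `θ⁻¹` (`exists_zdiv`). Apply `FFD.exists_ram` with `s + Z₁`: for `σ` in inertia that
moves `N`, either `σ ∉ G` (use the hypothesis with `ofQ`), or `σ ∈ G`, `σ ∉ scalG`, then
`Z₁ v ≥ 1` by `mem_scalG` and `tame_unit` applies with `n = Q - 1` (`pow_fix`). Then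
`exists_twist`, `sum_up` for `β`, `ht_bound`, `exists_section`, `lam_twist`, `hJ_le`. -/
theorem ex2 (hB : Base kb θ) (hr : 0 < r) : ∃ d1 : ℕ, ∀ a P : k[X], a.Monic → P.Monic →
    Irreducible P → P ∣ a → d1 ≤ P.natDegree → P.natDegree.Coprime r.factorial →
    ∃ C : ℚ, 0 ≤ C ∧ ∀ (D : DM k Ω θ r) (G : Subgroup (Ω ≃ₐ[K] Ω)), G.Normal →
      (∀ σ : Ω ≃ₐ[K] Ω, (∀ y, aeval D.φ a y = 0 → σ y = y) → σ ∈ G) →
      (∀ σ ∈ G, ∃ c : k[X], ∀ y, aeval D.φ P y = 0 → σ y = aeval D.φ c y) →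
      ∀ s : Place kb K →₀ ℚ, (∀ v, 0 ≤ s v) →
      (∀ (v : Place kb K) (V : Val kb Ω), V.Over v → ∀ σ ∈ V.inert K, σ ∉ G →
        ∃ u, V.Ge u 0 ∧ (∀ τ ∈ G, τ u = u) ∧ σ u ≠ u ∧ V.ord (σ u - u) ≤ s v) →
      D.h kb ≤ C * (1 + tot s) := by
  obtain ⟨p, hp, -, hc, -⟩ := exists_char k kb
  have hff := hB.isFF
  obtain ⟨m, hm⟩ := exists_not_root p hB.tr
  obtain ⟨n0, hn0⟩ := key_growth (32 * Nat.card k ^ (4 * r) * (8 * p ^ m)) r hr
  obtain ⟨t, ht, -⟩ := IsFF.exists_gen kb K p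
  obtain ⟨F₀, -⟩ := IsFF.exists_ffd kb ht
  refine ⟨max n0 (4 * r + 1), fun a P ha hPm hP hPa hd hco => ?_⟩
  have hP0 : aeval θ P ≠ 0 := fun h =>
    hP.ne_zero (transcendental_iff.1 (hB.tr.restrictScalars (algebraMap k kb).injective) P h)
  obtain ⟨Z₁, hZ₁⟩ := exists_zdiv (kb := kb) p (aeval θ P)
  obtain ⟨Z₂, hZ₂⟩ := exists_zdiv (kb := kb) p θ⁻¹
  obtain ⟨Z, hZ⟩ : ∃ Z : Place kb K →₀ ℚ, ∀ v, Z v = Z₁ v :=
    ⟨Z₁.mapRange Nat.cast Nat.cast_zero, fun _ => Finsupp.mapRange_apply⟩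
  have hZ0 : ∀ v, 0 ≤ Z v := fun v => by
    rw [hZ]
    exact Nat.cast_nonneg _
  have hZt := Ex2_tot_nonneg hZ0
  obtain ⟨B, hBd⟩ : ∃ B : ℕ,
      B = (Nat.card k ^ (r * a.natDegree)) ^ (Nat.card k ^ (r * a.natDegree)) := ⟨_, rfl⟩
  refine ⟨(1 + 2 * (Nat.card k : ℚ) ^ (r * P.natDegree) *
      ((Nat.card k : ℚ) ^ (2 * P.natDegree) * (8 * (p : ℚ) ^ m))) *
      (((B * tot (Z₂ + Z₁) : ℕ) : ℚ) + B * F₀.kap + (B : ℚ) ^ 2 * tot Z + (B : ℚ) ^ 2),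
    by positivity, fun D G hG h1 h2 s hs h3 => ?_⟩
  obtain ⟨f1, f2, f3⟩ := Ex2_field (kb := kb) hr D ha.ne_zero hPa hG h1
  rw [← hBd] at f3
  have hffN := IsFF.of_finite (k := kb) K (IntermediateField.fixedField (G ⊓ scalG D P))
  obtain ⟨F, hF⟩ := F₀.exists_ram p (E := Ω) (IntermediateField.fixedField (G ⊓ scalG D P)) (s + Z)
    (fun v => add_nonneg (hs v) (hZ0 v)) fun v V hV σ hσ ⟨x, hx⟩ => by
      obtain ⟨u, u1, u2, u3⟩ := Ex2_ram hB hr D hP hco hP0 hG h2 (hs v)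
        (z := Z v) (by rw [hZ, ← hZ₁, Int.cast_natCast]) (h3 v) hV hσ ⟨x, x.2, hx⟩
      exact ⟨⟨u, u1⟩, u2, u3⟩
  obtain ⟨z, φ, hz, hφ, hcard⟩ := exists_twist hB hr D hP.natDegree_pos
    (IntermediateField.fixedField (G ⊓ scalG D P)) fun x hx =>
      (IntermediateField.mem_fixedField_iff _ _).2 fun τ hτ => hx τ hτ.2
  have htow : IsScalarTower k kb (IntermediateField.fixedField (G ⊓ scalG D P)) :=
    IsScalarTower.of_algebraMap_eq fun c =>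
      Subtype.ext (IsScalarTower.algebraMap_apply k kb Ω c)
  have hb := ht_bound F hφ hr (mul_ne_zero (by simpa using D.ne) (pow_ne_zero _ hz)) (hm _) hPm hP
    (by omega) ((Nat.le_mul_of_pos_right _ (Nat.succ_pos _)).trans (hn0 _ (by omega)))
    (by rw [aeval_algebraMap_apply]; simpa using hP0) hcard (β := B * tot (Z₂ + Z₁))
    (fun T => by
      rw [aeval_algebraMap_apply]
      exact Ex2_beta p hZ₁ hZ₂ f3 T)
  refine Ex2_arith (n := Module.finrank K (IntermediateField.fixedField (G ⊓ scalG D P)))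
    (by positivity) (by positivity) (by positivity) (by positivity)
    (Ex2_tot_nonneg hs) hZt (by exact_mod_cast f3)
    (Ex2_down p Finite.one_lt_card D.ne hz hb) ?_
  rw [← Ex2_tot_add]
  exact hF

end Pool.Agent.Lib.MP_6adaea_nt.U
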