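import Pool.Agent.Lib.MP_6adaea_nt.U.RepL

/-!
Homogeneous functions.
-/

set_option linter.unusedSectionVars false

namespace Pool.Agent.Lib.MP_6adaea_nt.U
open Matrix Polynomial G
open scoped TensorProduct

variable {S S' : Type} [CommRing S] [CommRing S'] {n ι : Type} [Fintype n] [DecidableEq n]
  [Fintype ι] [DecidableEq ι]


theorem Hom.zero (d : ℕ) [Nonempty ι] : Hom d fun _ : Matrix ι ι S => (0 : S) := by
  induction d with
  | zero => exact Hom.const 0
  | succ d ih =>
    obtain ⟨i⟩ := ‹Nonempty ι›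
    have h := Hom.mul i i ih
    simp only [mul_zero] at h
    exact h

theorem Hom.congr {d : ℕ} {f f' : Matrix ι ι S → S} (h : Hom d f) (e : ∀ g, f' g = f g) :
    Hom d f' := (funext e : f' = f) ▸ h

theorem Hom.smul {d : ℕ} {f : Matrix ι ι S → S} (h : Hom d f) (c : S) :
    Hom d fun g => c * f g := by
  induction h with
  | const c0 => exact Hom.const _
  | mul i j _ ih => exact (Hom.mul i j ih).congr fun g => mul_left_comm _ _ _
  | add _ _ ih ih' => exact (Hom.add ih ih').congr fun g => mul_add _ _ _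

theorem Hom.sub {d : ℕ} {f f' : Matrix ι ι S → S} (h : Hom d f) (h' : Hom d f') :
    Hom d fun g => f g - f' g := by
  exact (Hom.add h (h'.smul (-1))).congr fun g => by ring

theorem Hom.entry (i j : ι) : Hom 1 fun g : Matrix ι ι S => g i j := by
  exact (Hom.mul i j (Hom.const 1)).congr fun g => (mul_one _).symm

theorem Hom.mul' {d d' : ℕ} {f f' : Matrix ι ι S → S} (h : Hom d f) (h' : Hom d' f') :
    Hom (d + d') fun g => f g * f' g := by
  induction h' with
  | const c => exact (h.smul c).congr fun g => mul_comm _ _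
  | mul i j _ ih => exact (Hom.mul i j ih).congr fun g => mul_left_comm _ _ _
  | add _ _ ih ih' => exact (Hom.add ih ih').congr fun g => mul_add _ _ _

theorem Hom.pow {d : ℕ} {f : Matrix ι ι S → S} (h : Hom d f) (m : ℕ) :
    Hom (m * d) fun g => f g ^ m := by
  induction m with
  | zero =>
    rw [zero_mul]
    exact (Hom.const 1).congr fun g => pow_zero _
  | succ m ih =>
    rw [Nat.succ_mul]
    exact (ih.mul' h).congr fun g => pow_succ _ _

theorem Hom.sum [Nonempty ι] {κ : Type} (s : Finset κ) {d : ℕ} {f : κ → Matrix ι ι S → S}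
    (h : ∀ i ∈ s, Hom d (f i)) : Hom d fun g => ∑ i ∈ s, f i g := by
  classical
  induction s using Finset.induction_on with
  | empty => exact (Hom.zero d).congr fun g => Finset.sum_empty
  | insert x s hx ih =>
    exact (Hom.add (h x (Finset.mem_insert_self _ _))
      (ih fun i hi => h i (Finset.mem_insert_of_mem hi))).congr fun g => Finset.sum_insert hx

theorem Hom.prod {κ : Type} (s : Finset κ) {d : κ → ℕ} {f : κ → Matrix ι ι S → S}
    (h : ∀ i ∈ s, Hom (d i) (f i)) : Hom (∑ i ∈ s, d i) fun g => ∏ i ∈ s, f i g := by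
  classical
  induction s using Finset.induction_on with
  | empty => exact (Hom.const 1).congr fun g => Finset.prod_empty
  | insert x s hx ih =>
    rw [Finset.sum_insert hx]
    exact ((h x (Finset.mem_insert_self _ _)).mul'
      (ih fun i hi => h i (Finset.mem_insert_of_mem hi))).congr fun g => Finset.prod_insert hx

theorem Hom.det [Nonempty ι] {d : ℕ} {A : Matrix ι ι S → Matrix n n S}
    (h : ∀ i j, Hom d fun g => A g i j) : Hom (Fintype.card n * d) fun g => (A g).det := by
  refine (Hom.sum Finset.univ (f := fun (σ : Equiv.Perm n) g =>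
    ((Equiv.Perm.sign σ : ℤ) : S) * ∏ i, A g (σ i) i) fun σ _ => ?_).congr
      fun g => Matrix.det_apply' _
  have h1 := Hom.prod Finset.univ (d := fun _ : n => d) (f := fun i g => A g (σ i) i)
    fun i _ => h _ _
  rw [Finset.sum_const, Finset.card_univ, smul_eq_mul] at h1
  exact h1.smul _

theorem Hom.adjugate [Nonempty ι] {d : ℕ} {A : Matrix ι ι S → Matrix n n S}
    (h : ∀ i j, Hom d fun g => A g i j) (i j : n) :
    Hom ((Fintype.card n - 1) * d) fun g => (A g).adjugate i j := by
  refine (Hom.sum Finset.univ (f := fun (σ : Equiv.Perm n) g =>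
    ((Equiv.Perm.sign σ : ℤ) : S) * ∏ x, (A g).updateRow j (Pi.single i 1) (σ x) x)
      fun σ _ => ?_).congr fun g => by rw [Matrix.adjugate_apply, Matrix.det_apply']
  have h1 := Hom.prod Finset.univ (d := fun x : n => if σ x = j then 0 else d)
    (f := fun x g => (A g).updateRow j (Pi.single i 1) (σ x) x) fun x _ => by
      by_cases hx : σ x = j
      · rw [if_pos hx]
        exact (Hom.const (Pi.single (M := fun _ => S) i 1 x)).congr fun g => by
          rw [hx, Matrix.updateRow_self]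
      · rw [if_neg hx]
        exact (h (σ x) x).congr fun g => by rw [Matrix.updateRow_ne hx]
  have h2 : (∑ x : n, if σ x = j then 0 else d) = (Fintype.card n - 1) * d := by
    rw [σ.sum_comp Finset.univ (fun y => if y = j then 0 else d) (by simp),
      ← Finset.add_sum_erase _ _ (Finset.mem_univ j), if_pos rfl, zero_add,
      Finset.sum_congr rfl fun y hy => if_neg (Finset.ne_of_mem_erase hy), Finset.sum_const,
      Finset.card_erase_of_mem (Finset.mem_univ j), Finset.card_univ, smul_eq_mul]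
  rw [h2] at h1
  exact h1.smul _

theorem Hom.exists_ten {d : ℕ} {f : Matrix ι ι S → S} (h : Hom d f) :
    ∃ l : (Fin d → ι) → (Fin d → ι) → S, ∀ g, f g = ∑ j, ∑ j', l j j' * ten d g j j' := by
  induction h with
  | const c => exact ⟨fun _ _ => c, fun g => by simp [ten]⟩
  | @mul d f i j _ ih =>
    obtain ⟨l, hl⟩ := ih
    refine ⟨fun J J' => if J 0 = i ∧ J' 0 = j then l (Fin.tail J) (Fin.tail J') else 0,
      fun g => ?_⟩
    have hs : ∀ F : (Fin (d + 1) → ι) → S,
        ∑ J, F J = ∑ x : ι, ∑ J : Fin d → ι, F (Fin.cons x J) := fun F => by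
      rw [← (Fin.consEquiv fun _ : Fin (d + 1) => ι).sum_comp, Fintype.sum_prod_type]
      rfl
    simp only [hs, ten, Matrix.of_apply, Fin.prod_univ_succ, Fin.cons_zero, Fin.cons_succ,
      Fin.tail_cons]
    rw [Finset.sum_eq_single i (fun x _ hx => by simp [hx]) (by simp), hl, Finset.mul_sum]
    refine Finset.sum_congr rfl fun J _ => ?_
    rw [Finset.sum_eq_single j (fun x _ hx => by simp [hx]) (by simp), Finset.mul_sum]
    refine Finset.sum_congr rfl fun J' _ => ?_
    rw [if_pos ⟨rfl, rfl⟩, ten, Matrix.of_apply]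
    ring
  | add _ _ ih ih' =>
    obtain ⟨l, hl⟩ := ih
    obtain ⟨l', hl'⟩ := ih'
    refine ⟨fun J J' => l J J' + l' J J', fun g => ?_⟩
    simp only [hl, hl', add_mul, Finset.sum_add_distrib]

theorem Hom.exists_map {d : ℕ} {f : Matrix ι ι S → S} (h : Hom d f) (φ : S →+* S') :
    ∃ f' : Matrix ι ι S' → S', Hom d f' ∧ ∀ g, f' (g.map φ) = φ (f g) := by
  induction h with
  | const c => exact ⟨fun _ => φ c, Hom.const _, fun _ => rfl⟩
  | mul i j _ ih =>
    obtain ⟨f', h1, h2⟩ := ih
    exact ⟨_, Hom.mul i j h1, fun g => by rw [map_mul, h2, Matrix.map_apply]⟩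
  | add _ _ ih ih' =>
    obtain ⟨f1, h1, h2⟩ := ih
    obtain ⟨f2, h3, h4⟩ := ih'
    exact ⟨_, Hom.add h1 h3, fun g => by rw [map_add, h2, h4]⟩

variable {k : Type} [Field k] [Algebra k S] {a : k[X]} {t : Fin 2 → S}

theorem Lifts.mul {H : Subgroup (GL n (AdjoinRoot a))} {A B : Matrix n n k[X]} (hA : A ∈ Lifts H)
    (hB : B ∈ Lifts H) : A * B ∈ Lifts H := by
  obtain ⟨h, hh, e⟩ := hA
  obtain ⟨h', hh', e'⟩ := hB
  exact ⟨h * h', H.mul_mem hh hh', by rw [Matrix.map_mul, e, e', Units.val_mul]⟩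

theorem Lifts.one (H : Subgroup (GL n (AdjoinRoot a))) : (1 : Matrix n n k[X]) ∈ Lifts H := by
  exact ⟨1, H.one_mem, by rw [Matrix.map_one _ (map_zero _) (map_one _), Units.val_one]⟩

theorem exists_lift {H : Subgroup (GL n (AdjoinRoot a))} {h : GL n (AdjoinRoot a)} (hh : h ∈ H) :
    ∃ B ∈ Lifts H, B.map (AdjoinRoot.mk a) = h.val := by
  choose B hB using fun i j => AdjoinRoot.mk_surjective (h.val i j)
  have e : (Matrix.of B).map (AdjoinRoot.mk a) = h.val := by
    ext i j
    exact hB i j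
  exact ⟨Matrix.of B, ⟨h, hh, e⟩, e⟩

/-- the jets form a monoid of invertible matrices -/
theorem exists_hats_monoid (ht : qd t ∣ a.map (algebraMap k S))
    (H : Subgroup (GL n (AdjoinRoot a))) :
    ∃ G : Submonoid (Matrix (n × Fin 2) (n × Fin 2) S),
      (G : Set (Matrix (n × Fin 2) (n × Fin 2) S)) = hats t H ∧ ∀ g ∈ G, IsUnit g := by
  refine ⟨⟨⟨hats t H, ?_⟩, ⟨1, Lifts.one H, by rw [pmap_one, hat_one]⟩⟩, rfl, ?_⟩
  · rintro _ _ ⟨A, hA, rfl⟩ ⟨B, hB, rfl⟩
    exact ⟨A * B, Lifts.mul hA hB, by rw [pmap_mul, hat_mul]⟩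
  · rintro _ ⟨B, ⟨h, hh, e⟩, rfl⟩
    obtain ⟨B', _, e'⟩ := exists_lift (H.inv_mem hh)
    have key : ∀ U V : Matrix n n k[X],
        U.map (AdjoinRoot.mk a) * V.map (AdjoinRoot.mk a) = 1 →
        hat t (pmap (algebraMap k S) U) * hat t (pmap (algebraMap k S) V) = 1 := by
      intro U V hUV
      have h1 : Cong a (U * V) 1 := by
        rw [cong_iff_map, Matrix.map_mul, hUV, Matrix.map_one _ (map_zero _) (map_one _)]
      rw [← hat_mul, ← pmap_mul, hat_congr ((h1.pmap (algebraMap k S)).of_dvd ht), pmap_one,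
        hat_one]
    exact ⟨⟨_, _, key B B' (by rw [e, e', Units.mul_inv]),
      key B' B (by rw [e, e', Units.inv_mul])⟩, rfl⟩

end Pool.Agent.Lib.MP_6adaea_nt.U
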