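import Pool.Agent.Lib.MP_6adaea_nt.U.Defs2
import Pool.Agent.Lib.MP_6adaea_nt.U.HomL
import Pool.Agent.Lib.MP_6adaea_nt.G.Coprime
import Pool.Agent.Lib.MP_6adaea_nt.U.RDefsEq

/-!
The frame matrix.
-/

set_option linter.unusedSectionVars false

namespace Pool.Agent.Lib.MP_6adaea_nt.U
open Matrix Polynomial G
open scoped TensorProduct

variable {k kb K Ω : Type} [Field k] [Finite k] [Field kb] [Field K] [Field Ω] [Algebra k kb]
  [Algebra k K] [Algebra k Ω] [Algebra kb K] [Algebra kb Ω] [Algebra K Ω]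
  [IsScalarTower k kb K] [IsScalarTower k kb Ω] [IsScalarTower k K Ω] [IsScalarTower kb K Ω]
  [IsAlgClosed kb] [Algebra.IsAlgebraic k kb] [IsSepClosed Ω] [IsGalois K Ω] {θ : K} {r : ℕ}

theorem frameL_fix (ψ : Ω →ₐ[k] Ω) (p : k[X]) :
    (p.map (algebraMap k Ω)).map (ψ : Ω →+* Ω) = p.map (algebraMap k Ω) := by
  rw [Polynomial.map_map, AlgHom.comp_algebraMap]

section act
variable {φ : Ω →ₗ[k] Ω} {a : k[X]} {E : Coord φ a (Fin r)}

theorem Act.mul {σ σ' : Ω → Ω} {B B' : Matrix (Fin r) (Fin r) k[X]} (h : Act E σ B)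
    (h' : Act E σ' B') : Act E (fun x => σ (σ' x)) (B * B') := by
  intro v
  beta_reduce
  rw [h', h, Matrix.map_mul, mulVec_mulVec]

theorem Act.pow {L : Type} [Field L] [Algebra L Ω] {σ : Ω ≃ₐ[L] Ω}
    {B : Matrix (Fin r) (Fin r) k[X]} (h : Act E σ B) (m : ℕ) : Act E ⇑(σ ^ m) (B ^ m) := by
  induction m with
  | zero =>
    intro v
    rw [pow_zero, pow_zero, Matrix.map_one _ (map_zero _) (map_one _), one_mulVec]
    rfl
  | succ m ih =>
    rw [pow_succ, pow_succ]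
    exact ih.mul h

theorem Act.congr {σ : Ω → Ω} {B B' : Matrix (Fin r) (Fin r) k[X]} (h : Act E σ B)
    (hB : Cong a B B') : Act E σ B' := by
  intro v
  rw [h, cong_iff_map.1 hB]

theorem Act.uniq {σ : Ω → Ω} {B B' : Matrix (Fin r) (Fin r) k[X]} (h : Act E σ B)
    (h' : Act E σ B') : Cong a B B' := by
  exact cong_iff_map.2 (Rep_uniq E fun v => (h v).symm.trans (h' v))

theorem act_one_iff {σ : Ω → Ω} : Act E σ 1 ↔ ∀ y, aeval φ a y = 0 → σ y = y := by
  simp only [Act, Matrix.map_one _ (map_zero (AdjoinRoot.mk a)) (map_one _), one_mulVec]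
  constructor
  · intro h y hy
    obtain ⟨v, rfl⟩ := (E.range y).1 hy
    exact h v
  · exact fun h v => h _ ((E.range _).2 ⟨v, rfl⟩)

theorem act_iff_of_isRep {L : Type} [Field L] [Algebra L Ω]
    {ρ : (Ω ≃ₐ[L] Ω) →* GL (Fin r) (AdjoinRoot a)} (h : IsRep E ρ) (σ : Ω ≃ₐ[L] Ω)
    (B : Matrix (Fin r) (Fin r) k[X]) : Act E σ B ↔ B.map (AdjoinRoot.mk a) = (ρ σ).val := by
  refine ⟨fun h' => Rep_uniq E fun v => (h' v).symm.trans (h σ v), fun h' v => ?_⟩
  rw [h']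
  exact h σ v

/-- an injective map of the finite torsion module has finite order -/
theorem Act.exists_pow (ha : a ≠ 0) {σ : Ω → Ω} (hσ : Function.Injective σ)
    {B : Matrix (Fin r) (Fin r) k[X]} (h : Act E σ B) : ∃ N, 0 < N ∧ Cong a (B ^ N) 1 := by
  have := finite_adjoinRoot ha
  have h1 : Function.Injective (B.map (AdjoinRoot.mk a)).mulVec := fun v w e =>
    E.inj (hσ (by rw [h, h, e]))
  obtain ⟨u, hu⟩ := mulVec_surjective_iff_isUnit.1 (Finite.injective_iff_surjective.1 h1)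
  obtain ⟨N, hN, h2⟩ := isOfFinOrder_iff_pow_eq_one.1 (isOfFinOrder_of_finite u)
  refine ⟨N, hN, cong_iff_map.2 ?_⟩
  have h3 := map_pow (AdjoinRoot.mk a).mapMatrix B N
  rw [RingHom.mapMatrix_apply, RingHom.mapMatrix_apply] at h3
  rw [h3, ← hu, ← Units.val_pow_eq_pow_val, h2, Units.val_one,
    Matrix.map_one _ (map_zero _) (map_one _)]

theorem exists_act (σ : Ω →+ Ω) (hσ : ∀ (c : k[X]) y, σ (aeval φ c y) = aeval φ c (σ y)) :
    ∃ B, Act E σ B := by
  obtain ⟨M, hM⟩ := Rep_mat E E σ hσ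
  choose B hB using fun i j => AdjoinRoot.mk_surjective (M i j)
  refine ⟨Matrix.of B, fun v => ?_⟩
  rw [hM]
  congr 2
  ext i j
  exact (hB i j).symm

/-- reduction of the level (`exists_coord_dvd`) -/
theorem exists_coord_act (ha : a ≠ 0) {b : k[X]} (hb : b ∣ a) (E : Coord φ a (Fin r)) :
    ∃ E' : Coord φ b (Fin r), ∀ (σ : Ω → Ω) (B : Matrix (Fin r) (Fin r) k[X]),
      (∀ (c : k[X]) y, σ (aeval φ c y) = aeval φ c (σ y)) → Act E σ B → Act E' σ B := by
  obtain ⟨b', hab⟩ := id hb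
  obtain ⟨E', hE⟩ := exists_coord_dvd ha hab E
  refine ⟨E', fun σ B hσ h w => ?_⟩
  choose v hv using fun i => fac_surjective hb (w i)
  obtain rfl : (fun i => fac hb (v i)) = w := funext hv
  rw [hE, hσ, h, ← hE]
  refine congrArg E'.e (funext fun i => ?_)
  have e : B.map (AdjoinRoot.mk b) = (B.map (AdjoinRoot.mk a)).map (fac hb) := by
    ext i j
    simp only [Matrix.map_apply, fac_mk]
  rw [e]
  exact RingHom.map_mulVec (fac hb) _ v i

/-- if `B` is a scalar modulo `P` then `σ` acts on the `P`-torsion by a scalar -/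
theorem Act.scal (ha : a ≠ 0) {P : k[X]} (hP : Irreducible P) (hPa : P ∣ a) {σ : Ω → Ω}
    (hσ : ∀ (c : k[X]) y, σ (aeval φ c y) = aeval φ c (σ y)) {B : Matrix (Fin r) (Fin r) k[X]}
    (h : Act E σ B) {z : Ω} (hz : aeval z P = 0) (hs : Scal (B.map (aeval z))) :
    ∃ c : k[X], ∀ y, aeval φ P y = 0 → σ y = aeval φ c y := by
  obtain ⟨E', hE⟩ := exists_coord_act ha hPa E
  obtain ⟨x, hx⟩ := hs
  obtain ⟨c, hc⟩ : ∃ c : k[X], ∀ _ : Fin r, aeval z c = x := by
    rcases isEmpty_or_nonempty (Fin r) with h0 | ⟨⟨i⟩⟩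
    · exact ⟨0, fun i => h0.elim i⟩
    · exact ⟨B i i, fun _ => by simpa using congrFun (congrFun hx i) i⟩
  have h1 : Cong P B (c • 1) := fun i j => by
    refine (hP.dvd_iff_aeval_eq_zero hz).1 ?_
    have h2 : aeval z (B i j) = _ := congrFun (congrFun hx i) j
    rw [map_sub, h2, sub_eq_zero]
    by_cases e : i = j
    · simp [e, hc j]
    · simp [e]
  refine ⟨c, fun y hy => ?_⟩
  obtain ⟨v, rfl⟩ := (E'.range y).1 hy
  rw [(hE σ B hσ h).congr h1 v, ← E'.smul]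
  congr 1
  have e : (c • (1 : Matrix (Fin r) (Fin r) k[X])).map (AdjoinRoot.mk P) =
      AdjoinRoot.mk P c • 1 := by
    ext i j
    by_cases e : i = j <;> simp [e]
  rw [e, smul_mulVec, one_mulVec]

/-- as `frame_aut` -/
theorem frame_act (σ : Ω →ₐ[k] Ω) (hσ : ∀ (c : k[X]) y, σ (aeval φ c y) = aeval φ c (σ y))
    {B : Matrix (Fin r) (Fin r) k[X]} (h : Act E σ B) :
    Cong (a.map (algebraMap k Ω)) (pmap (σ : Ω →+* Ω) (frame E))
      (frame E * pmap (algebraMap k Ω) B) := by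
  intro i j
  have h1 : σ (E.e (Pi.single j 1)) = ∑ l, aeval φ (B l j) (E.e (Pi.single l 1)) := by
    rw [h]
    simp only [← E.smul, ← map_sum]
    congr 1
    ext l
    simp [Pi.single_apply]
  have h2 : (frame E i j).map (σ : Ω →+* Ω) =
      (gen φ a (σ (E.e (Pi.single j 1)))).map (frob k Ω ^ (i : ℕ) : Ω →ₐ[k] Ω) := by
    have h3 := gen_map (ψ := (σ : Ω →+* Ω)) hσ a (E.e (Pi.single j 1))
    rw [RingHom.coe_coe] at h3
    rw [← h3]
    ext l
    simp only [frame, of_apply, coeff_map, RingHom.coe_coe, frob_pow_apply, map_pow]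
  have h5 : gen φ a (∑ l, aeval φ (B l j) (E.e (Pi.single l 1))) =
      ∑ l, gen φ a (aeval φ (B l j) (E.e (Pi.single l 1))) :=
    map_sum (AddMonoidHom.mk' (gen φ a) (gen_add a)) _ _
  change _ ∣ (frame E i j).map (σ : Ω →+* Ω) - _
  rw [h2, h1, h5, Polynomial.map_sum, mul_apply, ← Finset.sum_sub_distrib]
  refine Finset.dvd_sum fun l _ => ?_
  have h4 := Polynomial.map_dvd ((frob k Ω ^ (i : ℕ) : Ω →ₐ[k] Ω) : Ω →+* Ω)
    (gen_aeval ((E.range _).2 ⟨Pi.single l 1, rfl⟩) (B l j))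
  rw [frameL_fix, Polynomial.map_sub, Polynomial.map_mul, frameL_fix, mul_comm] at h4
  exact h4

end act

variable (D : DM k Ω θ r)

theorem DM.comm (σ : Ω →ₐ[k] Ω) (h0 : σ (algebraMap K Ω θ) = algebraMap K Ω θ)
    (h : ∀ i, σ (algebraMap K Ω (D.g i)) = algebraMap K Ω (D.g i)) (c : k[X]) (y : Ω) :
    σ (aeval D.φ c y) = aeval D.φ c (σ y) := by
  have h1 : ∀ x, σ (D.φ x) = D.φ (σ x) := fun x => by
    rw [D.dr x, D.dr (σ x)]
    simp only [map_add, map_mul, map_sum, map_pow, h0, h]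
  induction c using Polynomial.induction_on generalizing y with
  | C t => simp
  | add p q hp hq => simp [hp, hq]
  | monomial m t ih =>
    rw [pow_succ, ← mul_assoc, map_mul, aeval_X, Module.End.mul_apply, Module.End.mul_apply, ih,
      h1]

theorem DM.commK (σ : Ω ≃ₐ[K] Ω) (c : k[X]) (y : Ω) :
    σ (aeval D.φ c y) = aeval D.φ c (σ y) := aut_comm D.dr σ c y

theorem DM.Fix.comm {D : DM k Ω θ r} {Fr : Frb k kb K Ω} (h : D.Fix Fr) (c : k[X]) (y : Ω) :
    Fr.γ (aeval D.φ c y) = aeval D.φ c (Fr.γ y) := by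
  exact D.comm (Fr.γ : Ω →ₐ[k] Ω) ((Fr.compat θ).trans (congrArg _ h.1))
    (fun i => (Fr.compat _).trans (congrArg _ (h.2 i))) c y

theorem DM.Fix.pow {D : DM k Ω θ r} {Fr : Frb k kb K Ω} (h : D.Fix Fr) (j : ℕ) :
    D.Fix (Fr.pow j) := by
  have key : ∀ x, Fr.γK x = x → ∀ n : ℕ, (Fr.γK ^ n) x = x := fun x hx n => by
    induction n with
    | zero => rfl
    | succ n ih => rw [pow_succ, AlgEquiv.mul_apply, hx, ih]
  exact ⟨key _ h.1 _, fun i => key _ (h.2 i) _⟩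

theorem DM.Fix.ord {D : DM k Ω θ r} {Fr : Frb k kb K Ω} (h : D.Fix Fr) (v : Place kb K) :
    (Fr.toK.π v).ord θ = v.ord θ ∧ ∀ i, (Fr.toK.π v).ord (D.g i) = v.ord (D.g i) := by
  refine ⟨?_, fun i => ?_⟩
  · rw [Frb.π_ord, Fr.γK.symm_apply_eq.2 h.1.symm]
  · rw [Frb.π_ord, Fr.γK.symm_apply_eq.2 (h.2 i).symm]

variable {a : k[X]} (E : Coord D.φ a (Fin r))

theorem frameL_one : Cong (a.map (algebraMap k Ω)) (pmap (G.frob k Ω : Ω →ₐ[k] Ω) (frame E))
    (pmap (algebraMap K Ω) (Phi θ r D.g) * frame E) := by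
  intro i j
  let u : ℕ → Polynomial Ω := fun l =>
    (gen D.φ a (E.e (Pi.single j 1))).map (G.frob k Ω ^ l : Ω →ₐ[k] Ω)
  have e1 : pmap (G.frob k Ω : Ω →ₐ[k] Ω) (frame E) i j = u (i + 1) := by
    simp only [pmap, map_apply, frame, of_apply, u, Polynomial.map_map]
    rw [pow_succ']
    rfl
  have e2 : ∀ l, frame E l j = u l := fun l => rfl
  rw [e1, mul_apply]
  simp only [e2, pmap, map_apply, Phi, of_apply]
  by_cases hi : (i : ℕ) + 1 = r
  · obtain ⟨s, rfl⟩ : ∃ s, r = s + 1 := ⟨i, hi.symm⟩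
    have h0 : u 0 = gen D.φ a (E.e (Pi.single j 1)) := by
      ext l
      simp only [u, pow_zero, coeff_map]
      rfl
    have h1 : gen D.φ a (D.φ (E.e (Pi.single j 1))) =
        C (algebraMap K Ω θ) * gen D.φ a (E.e (Pi.single j 1)) +
          ∑ l ∈ Finset.Icc 1 (s + 1), C (algebraMap K Ω (D.g l)) * u l := gen_dr D.dr a _
    rw [gen_phi, (E.range _).2 ⟨_, rfl⟩, Finset.sum_Icc_succ_top (by omega),
      show Finset.Icc 1 s = Finset.Ico 1 (s + 1) from rfl, Finset.sum_Ico_eq_sum_range,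
      Nat.add_sub_cancel, Finset.sum_range, ← h0] at h1
    clear_value u
    have h2 : C (algebraMap K Ω (D.g (s + 1))⁻¹) * C (algebraMap K Ω (D.g (s + 1))) = 1 := by
      rw [← C_mul, ← map_mul, inv_mul_cancel₀ D.ne, map_one, C_1]
    simp only [hi, if_true, Fin.sum_univ_succ, Fin.val_zero, Fin.val_succ, Nat.succ_ne_zero,
      if_false, Polynomial.map_mul, Polynomial.map_sub, Polynomial.map_neg, map_C, map_X,
      mul_assoc, ← Finset.mul_sum, neg_mul, Finset.sum_neg_distrib]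
    simp only [add_comm 1, map_zero] at h1
    refine ⟨-(C (algebraMap K Ω (D.g (s + 1))⁻¹) * C (E.e (Pi.single j 1))), ?_⟩
    linear_combination (-C (algebraMap K Ω (D.g (s + 1))⁻¹)) * h1 - u (s + 1) * h2
  · have hi' : (i : ℕ) + 1 < r := lt_of_le_of_ne i.2 hi
    rw [Finset.sum_eq_single ⟨i + 1, hi'⟩]
    · simp [hi]
    · intro l _ hl
      have : ¬ (i : ℕ) + 1 = l := fun e => hl (Fin.ext e.symm)
      simp [hi, this]
    · simp

/-- `gen_phi`, `gen_dr` for `c = 1`, then induction -/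
theorem frame_frob (c : ℕ) : Cong (a.map (algebraMap k Ω))
    (pmap (G.frob k Ω ^ c : Ω →ₐ[k] Ω) (frame E))
    (pmap (algebraMap K Ω) (Phit k θ r D.g c) * frame E) := by
  induction c with
  | zero =>
    rw [Phit, pmap_one, one_mul, pow_zero]
    exact (pmap_id (frame E)).symm ▸ Cong.refl _ _
  | succ c ih =>
    have h1 := ih.pmap ((G.frob k Ω : Ω →ₐ[k] Ω) : Ω →+* Ω)
    have e : ((G.frob k Ω : Ω →ₐ[k] Ω) : Ω →+* Ω).comp (algebraMap K Ω) =
        (algebraMap K Ω).comp (G.frob k K : K →ₐ[k] K) := by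
      ext x
      have h2 := frob_pow_apply (k := k) 1 (algebraMap K Ω x)
      have h3 := frob_pow_apply (k := k) 1 x
      rw [pow_one] at h2 h3
      simp only [RingHom.comp_apply, RingHom.coe_coe, h2, h3, map_pow]
    rw [frameL_fix, pmap_pmap, pmap_mul, pmap_pmap, e, ← pmap_pmap _ (algebraMap K Ω)] at h1
    rw [Phit, pmap_mul, mul_assoc, pow_succ']
    exact h1.trans ((Cong.refl _ _).mul (frameL_one D E))

/-- `frame_coprime` and the adjugate -/
theorem frame_inv (hr : 0 < r) (ha : a ≠ 0) : ∃ A : Matrix (Fin r) (Fin r) (Polynomial Ω),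
    Cong (a.map (algebraMap k Ω)) (frame E * A) 1 ∧
      Cong (a.map (algebraMap k Ω)) (A * frame E) 1 := by
  obtain ⟨u, v, h⟩ := frame_coprime D.dr hr ((_root_.map_ne_zero _).2 D.ne) ha E
  have h1 : Cong (a.map (algebraMap k Ω)) (u • (frame E).det • (1 : Matrix (Fin r) (Fin r) _)) 1 :=
    fun i j => ⟨-(v * (1 : Matrix (Fin r) (Fin r) (Polynomial Ω)) i j), by
      simp only [Matrix.smul_apply, smul_eq_mul]
      linear_combination (1 : Matrix (Fin r) (Fin r) (Polynomial Ω)) i j * h⟩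
  exact ⟨u • (frame E).adjugate, by rwa [Matrix.mul_smul, mul_adjugate],
    by rwa [Matrix.smul_mul, adjugate_mul]⟩

variable {D E} {S : Type} [CommRing S] (i : Ω →+* S) {t : Fin 2 → S}
  (ht : qd t ∣ a.map (i.comp (algebraMap k Ω))) (M : ℕ)
include ht

theorem rep_frame_gal (σ : Ω ≃ₐ[K] Ω) {B : Matrix (Fin r) (Fin r) k[X]} (h : Act E σ B)
    (f : S →+* S) (hf : ∀ x, f (i x) = i (σ x)) (hft : ∀ l, f (t l) = t l) :
    (rep M t (pmap i (frame E))).map f =
      rep M t (pmap i (frame E)) * rep M t (pmap (i.comp (algebraMap k Ω)) B) := by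
  have h1 := (frame_act ((σ : Ω →ₐ[K] Ω).restrictScalars k) (D.commK σ) h).pmap i
  rw [Polynomial.map_map, pmap_mul, pmap_pmap, pmap_pmap] at h1
  have e : f.comp i = i.comp ((σ : Ω →ₐ[K] Ω).restrictScalars k : Ω →ₐ[k] Ω) := RingHom.ext hf
  rw [rep_map, funext hft, ← rep_mul, pmap_pmap, e]
  exact rep_congr M (h1.of_dvd ht)

theorem rep_frame_frob {Fr : Frb k kb K Ω} (hD : D.Fix Fr) {B : Matrix (Fin r) (Fin r) k[X]}
    (h : Act E Fr.γ B) (f : S →+* S) (hf : ∀ x, f (i x) = i (Fr.FO x))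
    (hft : ∀ l, f (t l) = t l) :
    (rep M t (pmap i (frame E))).map f =
      (Psi k θ r D.g Fr.c M).map (MvPolynomial.eval₂Hom (i.comp (algebraMap K Ω)) t) *
        rep M t (pmap i (frame E)) * rep M t (pmap (i.comp (algebraMap k Ω)) B) := by
  have h1 := (frame_act (Fr.γ : Ω →ₐ[k] Ω) hD.comm h).pmap
    ((G.frob k Ω ^ Fr.c : Ω →ₐ[k] Ω) : Ω →+* Ω)
  rw [frameL_fix, pmap_mul, pmap_pmap, pmap_pmap, AlgHom.comp_algebraMap] at h1
  have h2 := (h1.trans ((frame_frob D E Fr.c).mul (Cong.refl _ _))).pmap i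
  have e0 : f.comp i = i.comp (((G.frob k Ω ^ Fr.c : Ω →ₐ[k] Ω) : Ω →+* Ω).comp
      ((Fr.γ : Ω →ₐ[k] Ω) : Ω →+* Ω)) := RingHom.ext hf
  rw [Polynomial.map_map, pmap_mul, pmap_mul, pmap_pmap, pmap_pmap, pmap_pmap] at h2
  have e : (MvPolynomial.eval₂Hom (i.comp (algebraMap K Ω)) t).comp MvPolynomial.C =
      i.comp (algebraMap K Ω) := RingHom.ext fun x => MvPolynomial.eval₂Hom_C _ _ x
  have e' : (fun l => MvPolynomial.eval₂Hom (i.comp (algebraMap K Ω)) t (MvPolynomial.X l)) = t :=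
    funext fun l => MvPolynomial.eval₂Hom_X' _ _ l
  rw [rep_map, funext hft, Psi, rep_map, e', pmap_pmap, pmap_pmap, e, ← rep_mul, ← rep_mul, e0]
  exact rep_congr M (h2.of_dvd ht)

end Pool.Agent.Lib.MP_6adaea_nt.U
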