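import Pool.Agent.Lib.MP_6adaea_nt.W.FxA
import Pool.Agent.Lib.MP_6adaea_nt.W.FxB

/-!
One module without extra endomorphisms (layer 2, helper81).
-/

set_option linter.unusedSectionVars false

namespace Pool.Agent.Lib.MP_6adaea_nt.U
open Matrix Polynomial G
open scoped TensorProduct

variable {k kb K Ω : Type} [Field k] [Finite k] [Field kb] [Field K] [Field Ω] [Algebra k kb]
  [Algebra k K] [Algebra k Ω] [Algebra kb K] [Algebra kb Ω] [Algebra K Ω]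
  [IsScalarTower k kb K] [IsScalarTower k kb Ω] [IsScalarTower k K Ω] [IsScalarTower kb K Ω]
  [IsAlgClosed kb] [Algebra.IsAlgebraic k kb] [IsSepClosed Ω] [IsGalois K Ω] {θ : K} {r : ℕ}

theorem fx_thin (hB : Base kb θ) (hr : 2 ≤ r) (Fr : Frb k kb K Ω) (D : DM k Ω θ r)
    (hD : D.Fix Fr) (hE : EndA D.φ) (M : ℕ) : ∃ d, D.NoThin Fr M d :=
  W.thin hB hr Fr D hD hE M

theorem fx_thick (hB : Base kb θ) (hr : 2 ≤ r) (Fr : Frb k kb K Ω) (D : DM k Ω θ r)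
    (hD : D.Fix Fr) (hE : EndA D.φ) {τ : Fin 2 → PowerSeries kb} (hτ : Adm k τ) {M : ℕ}
    {w : JJ (Fin r) M → PowerSeries kb} (hw : Moved τ w) :
    ∃ (m : ℕ) (b : k[X]), b.Monic ∧ D.NoThick Fr τ w m b :=
  W.thick hB hr Fr D hD hE hτ hw

end Pool.Agent.Lib.MP_6adaea_nt.U
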