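import Pool.Agent.Lib.MP_6adaea_nt.U.Seq
import Pool.Agent.Lib.MP_6adaea_nt.U.Fx

/-!
The open image theorem and the uniform bound.
-/

set_option linter.unusedSectionVars false

namespace Pool.Agent.Lib.MP_6adaea_nt.U
open Matrix Polynomial G
open scoped TensorProduct

theorem thmQ (k L Ω : Type) [Field k] [Finite k] [Field L] [Field Ω] [Algebra k L] [Algebra k Ω]
    [Algebra L Ω] [IsScalarTower k L Ω] [IsSepClosed Ω] [IsGalois L Ω] [Algebra (RatFunc k) L]
    [IsScalarTower k (RatFunc k) L] [FiniteDimensional (RatFunc k) L] {r : ℕ} (hr : 2 ≤ r) :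
    ∃ N : ℕ, ∀ (g : ℕ → L) (φ : Ω →ₗ[k] Ω), g r ≠ 0 →
      IsDr (algebraMap L Ω (algebraMap (RatFunc k) L RatFunc.X)) r
        (fun i => algebraMap L Ω (g i)) φ → EndA φ → Bdd L φ r N := by
  have hfin : FiniteDimensional
      (IntermediateField.adjoin k {algebraMap (RatFunc k) L RatFunc.X}) L := by
    have h1 : ∀ x : RatFunc k, algebraMap (RatFunc k) L x ∈
        IntermediateField.adjoin k {algebraMap (RatFunc k) L RatFunc.X} := fun x => by
      have h2 := IntermediateField.adjoin_map k {RatFunc.X} (IsScalarTower.toAlgHom k (RatFunc k) L)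
      rw [RatFunc.adjoin_X, Set.image_singleton] at h2
      exact h2.le ⟨x, trivial, rfl⟩
    let _ := ((algebraMap (RatFunc k) L).codRestrict _ h1).toAlgebra
    have : IsScalarTower (RatFunc k)
      (IntermediateField.adjoin k {algebraMap (RatFunc k) L RatFunc.X}) L :=
      .of_algebraMap_eq fun _ => rfl
    exact Module.Finite.of_restrictScalars_finite (RatFunc k) _ L
  obtain ⟨kb, K, _, _, _, _, _, _, _, _, _, _, _, _, _, _, _, _, Fr, hB, hγ, -⟩ :=
    exists_frame k L Ω _ ((transcendental_algebraMap_iff (algebraMap (RatFunc k) L).injective).2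
      RatFunc.transcendental_X)
  obtain ⟨N, hN⟩ := thmU k L Ω hr
  refine ⟨N, fun g φ hg hφ hE => hN g φ hg hφ ?_⟩
  let D : DM k Ω (algebraMap L K (algebraMap (RatFunc k) L RatFunc.X)) r :=
    ⟨fun i => algebraMap L K (g i), φ, (_root_.map_ne_zero _).2 hg, by
      simpa only [← IsScalarTower.algebraMap_apply] using hφ⟩
  have hD : D.Fix Fr := ⟨hγ _, fun _ => hγ _⟩
  exact bdd_of_noLine hB hr Fr hγ D (fun _ => ⟨_, rfl⟩) (fx_thin hB hr Fr D hD hE)
    fun τ hτ M w hw => fx_thick hB hr Fr D hD hE hτ hw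

end Pool.Agent.Lib.MP_6adaea_nt.U
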