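import Pool.Agent.Lib.MP_6adaea_nt.U.GenS

/-!
Density of the image of `k[X]` at big points.
-/

set_option linter.unusedSectionVars false

namespace Pool.Agent.Lib.MP_6adaea_nt.U
open Matrix Polynomial G
open scoped TensorProduct

variable {S S' : Type} [CommRing S] [CommRing S'] {n ι : Type} [Fintype n] [DecidableEq n]
  [Fintype ι] [DecidableEq ι]


variable {k kb : Type} [Field k] [Finite k] [Field kb] [Algebra k kb] [Algebra.IsAlgebraic k kb]

/-- the condition on a point -/
def BigPt (k : Type) [Field k] {kb : Type} [Field kb] [Algebra k kb] (M : ℕ) (β : Fin 2 → kb) :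
    Prop :=
  (∀ i, M < (minpoly k (β i)).natDegree) ∧
    (β 0 = β 1 ∨ ∀ u ≤ M, β 1 ≠ β 0 ^ Nat.card k ^ u ∧ β 0 ≠ β 1 ^ Nat.card k ^ u)

theorem gd_chg {F : Type} [Field F] {M : ℕ} (P : MvPolynomial (Fin 2) F)
    (hP : P.totalDegree ≤ M) {a b c d : F} (hd : a * d - b * c ≠ 0) :
    ∃ Q : MvPolynomial (Fin 2) F, Q.totalDegree ≤ M ∧ (Q = 0 → P = 0) ∧
      ∀ u v, MvPolynomial.eval ![u, v] Q = MvPolynomial.eval ![a * u + b * v, c * u + d * v] P := by
  have hl : ∀ a b : F, (MvPolynomial.C a * MvPolynomial.X 0 + MvPolynomial.C b * MvPolynomial.X 1 :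
      MvPolynomial (Fin 2) F).totalDegree ≤ 1 := fun a b => by
    refine (MvPolynomial.totalDegree_add _ _).trans (max_le ?_ ?_) <;>
      exact (MvPolynomial.totalDegree_mul _ _).trans (by simp)
  let l : F → F → F → F → Fin 2 → MvPolynomial (Fin 2) F := fun a b c d =>
    ![MvPolynomial.C a * MvPolynomial.X 0 + MvPolynomial.C b * MvPolynomial.X 1,
      MvPolynomial.C c * MvPolynomial.X 0 + MvPolynomial.C d * MvPolynomial.X 1]
  refine ⟨MvPolynomial.aeval (l a b c d) P, ?_, fun h => ?_, fun u v => ?_⟩
  · rw [MvPolynomial.aeval_def, MvPolynomial.eval₂_eq']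
    refine MvPolynomial.totalDegree_finsetSum_le fun m hm => ?_
    refine (MvPolynomial.totalDegree_mul _ _).trans ?_
    rw [MvPolynomial.algebraMap_eq, MvPolynomial.totalDegree_C, zero_add]
    refine (MvPolynomial.totalDegree_finsetProd _ _).trans ?_
    refine le_trans ?_ ((MvPolynomial.le_totalDegree hm).trans hP)
    rw [Finsupp.sum_fintype _ _ (fun _ => rfl)]
    refine Finset.sum_le_sum fun i _ => (MvPolynomial.totalDegree_pow _ _).trans ?_
    have : (l a b c d i).totalDegree ≤ 1 := by
      fin_cases i
      · exact hl a b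
      · exact hl c d
    simpa using Nat.mul_le_mul_left (m i) this
  · set D := a * d - b * c with hD
    have h1 : (MvPolynomial.aeval (l (d / D) (-b / D) (-c / D) (a / D))).comp
        (MvPolynomial.aeval (l a b c d)) = AlgHom.id F (MvPolynomial (Fin 2) F) := by
      have e1 : a * (d / D) + b * (-c / D) = 1 := by field_simp; ring
      have e2 : a * (-b / D) + b * (a / D) = 0 := by field_simp; ring
      have e3 : c * (d / D) + d * (-c / D) = 0 := by field_simp; ring
      have e4 : c * (-b / D) + d * (a / D) = 1 := by field_simp; ring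
      generalize d / D = a', -b / D = b', -c / D = c', a / D = d' at e1 e2 e3 e4
      have f1 := congrArg (MvPolynomial.C : F → MvPolynomial (Fin 2) F) e1
      have f2 := congrArg (MvPolynomial.C : F → MvPolynomial (Fin 2) F) e2
      have f3 := congrArg (MvPolynomial.C : F → MvPolynomial (Fin 2) F) e3
      have f4 := congrArg (MvPolynomial.C : F → MvPolynomial (Fin 2) F) e4
      simp only [map_add, map_mul, map_one, map_zero] at f1 f2 f3 f4
      refine MvPolynomial.algHom_ext fun i => ?_
      fin_cases i
      · simp [l]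
        linear_combination MvPolynomial.X 0 * f1 + MvPolynomial.X 1 * f2
      · simp [l]
        linear_combination MvPolynomial.X 0 * f3 + MvPolynomial.X 1 * f4
    have h2 := DFunLike.congr_fun h1 P
    rw [AlgHom.comp_apply, h, map_zero] at h2
    exact h2.symm
  · have h1 : (MvPolynomial.aeval ![u, v]).comp (MvPolynomial.aeval (l a b c d)) =
        MvPolynomial.aeval (R := F) ![a * u + b * v, c * u + d * v] := by
      refine MvPolynomial.algHom_ext fun i => ?_
      fin_cases i <;> simp [l]
    simpa [MvPolynomial.coe_aeval_eq_eval] using DFunLike.congr_fun h1 P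

theorem gd_prod {F : Type} [Field F] {M : ℕ} (Q : MvPolynomial (Fin 2) F)
    (hQ : Q.totalDegree ≤ M) (A B : Finset F) (hA : M < A.card) (hB : M < B.card)
    (h : ∀ u ∈ A, ∀ v ∈ B, MvPolynomial.eval ![u, v] Q = 0) : Q = 0 := by
  refine MvPolynomial.eq_zero_of_eval_zero_at_prod_finset Q ![A, B] (fun i => ?_) fun x hx => ?_
  · refine ((MvPolynomial.degreeOf_le_totalDegree Q i).trans hQ).trans_lt ?_
    fin_cases i
    · exact hA
    · exact hB
  · have h1 : x = ![x 0, x 1] := by
      ext i
      fin_cases i <;> rfl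
    rw [h1]
    exact h _ (hx 0) _ (hx 1)

theorem gd_curve {F : Type} [Field F] {M N : ℕ} (Q : MvPolynomial (Fin 2) F)
    (hQ : Q.totalDegree ≤ M) (hN : M < N) (A : Finset F) (hA : M * N < A.card)
    (h : ∀ u ∈ A, MvPolynomial.eval ![u, u ^ N] Q = 0) : Q = 0 := by
  classical
  have hm : ∀ m ∈ Q.support, m 0 + m 1 ≤ M := fun m hm => by
    have h1 := (MvPolynomial.le_totalDegree hm).trans hQ
    rwa [Finsupp.sum_fintype _ _ (fun _ => rfl), Fin.sum_univ_two] at h1
  let R : F[X] := ∑ m ∈ Q.support, monomial (m 0 + N * m 1) (MvPolynomial.coeff m Q)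
  have hR : R = 0 := by
    refine eq_zero_of_natDegree_lt_card_of_eval_eq_zero' R A (fun u hu => ?_) ?_
    · rw [← h u hu, MvPolynomial.eval_eq', eval_finsetSum]
      refine Finset.sum_congr rfl fun m _ => ?_
      simp [Fin.prod_univ_two, pow_add, pow_mul]
    · refine lt_of_le_of_lt (natDegree_sum_le_of_forall_le _ _ fun m hm' => ?_) hA
      refine (natDegree_monomial_le _).trans ?_
      have h1 := hm m hm'
      nlinarith
  by_contra hne
  obtain ⟨m, hm0⟩ := MvPolynomial.support_nonempty.2 hne
  have h1 : R.coeff (m 0 + N * m 1) = MvPolynomial.coeff m Q := by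
    rw [finsetSum_coeff, Finset.sum_eq_single m]
    · simp
    · intro m' hm' hne'
      rw [coeff_monomial, if_neg]
      intro he
      apply hne'
      have a1 := hm m hm0
      have a2 := hm m' hm'
      have h0 : m' 0 = m 0 := by
        have := congrArg (· % N) he
        simp only [Nat.add_mul_mod_self_left] at this
        rwa [Nat.mod_eq_of_lt (by omega), Nat.mod_eq_of_lt (by omega)] at this
      have h1 : m' 1 = m 1 := by
        rw [h0] at he
        exact Nat.eq_of_mul_eq_mul_left (by omega) (Nat.add_left_cancel he)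
      ext i
      fin_cases i
      · exact h0
      · exact h1
    · intro h2
      exact absurd hm0 h2
  rw [hR, coeff_zero] at h1
  exact MvPolynomial.mem_support_iff.1 hm0 h1.symm

theorem gd_mem {β x : kb} (hx : x ∈ IntermediateField.adjoin k {β}) : ∃ c : k[X], aeval β c = x := by
  have h1 : x ∈ (IntermediateField.adjoin k {β}).toSubalgebra := hx
  rw [IntermediateField.adjoin_simple_toSubalgebra_of_isAlgebraic
    (Algebra.IsAlgebraic.isAlgebraic β), Algebra.adjoin_singleton_eq_range_aeval] at h1
  exact h1

theorem gd_mem' (β : kb) (c : k[X]) : aeval β c ∈ IntermediateField.adjoin k {β} :=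
  IntermediateField.algebra_adjoin_le_adjoin k {β} (aeval_mem_adjoin_singleton k β)

theorem gd_set (β : kb) (F : Type) [Field F] [Algebra kb F] :
    ∃ A : Finset F, A.card = Nat.card k ^ (minpoly k β).natDegree ∧
      ∀ u ∈ A, ∃ c : k[X], algebraMap kb F (aeval β c) = u := by
  classical
  have hi : IsIntegral k β := Algebra.IsIntegral.isIntegral β
  have := IntermediateField.adjoin.finiteDimensional hi
  have : Finite (IntermediateField.adjoin k {β}) := Module.finite_of_finite k
  have := Fintype.ofFinite (IntermediateField.adjoin k {β})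
  refine ⟨Finset.univ.image fun x : IntermediateField.adjoin k {β} => algebraMap kb F x, ?_, ?_⟩
  · have hinj : Function.Injective
        fun x : IntermediateField.adjoin k {β} => algebraMap kb F x :=
      (algebraMap kb F).injective.comp Subtype.val_injective
    rw [Finset.card_image_of_injective _ hinj, Finset.card_univ, ← Nat.card_eq_fintype_card, Module.natCard_eq_pow_finrank (K := k),
      IntermediateField.adjoin.finrank hi]
  · intro u hu
    obtain ⟨x, -, rfl⟩ := Finset.mem_image.1 hu
    obtain ⟨c, hc⟩ := gd_mem x.2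
    exact ⟨c, by rw [hc]⟩

theorem gd_fix (β : kb) : β ^ Nat.card k ^ (minpoly k β).natDegree = β := by
  have hi : IsIntegral k β := Algebra.IsIntegral.isIntegral β
  have := IntermediateField.adjoin.finiteDimensional hi
  have : Finite (IntermediateField.adjoin k {β}) := Module.finite_of_finite k
  have := Fintype.ofFinite (IntermediateField.adjoin k {β})
  have h1 := FiniteField.pow_card (IntermediateField.AdjoinSimple.gen k β)
  rw [← Nat.card_eq_fintype_card, Module.natCard_eq_pow_finrank (K := k),
    IntermediateField.adjoin.finrank hi] at h1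
  exact congrArg Subtype.val h1

theorem gd_conj {β γ : kb} (h : aeval γ (minpoly k β) = 0) :
    ∃ u < (minpoly k β).natDegree, γ = β ^ Nat.card k ^ u := by
  have hi : IsIntegral k β := Algebra.IsIntegral.isIntegral β
  have := IntermediateField.adjoin.finiteDimensional hi
  have : Finite (IntermediateField.adjoin k {β}) := Module.finite_of_finite k
  have := Fintype.ofFinite k
  let φ : IntermediateField.adjoin k {β} →ₐ[k] kb :=
    (IntermediateField.adjoin.powerBasis hi).lift γ (by
      rwa [IntermediateField.adjoin.powerBasis_gen, IntermediateField.minpoly_gen])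
  have h1 : φ (IntermediateField.AdjoinSimple.gen k β) = γ := by
    rw [← IntermediateField.adjoin.powerBasis_gen hi]
    exact PowerBasis.lift_gen _ _ _
  obtain ⟨u, hu⟩ := (FiniteField.bijective_frobeniusAlgHom_pow k
    (IntermediateField.adjoin k {β})).2 (φ.restrictNormal (IntermediateField.adjoin k {β}))
  refine ⟨u, u.2.trans_eq (IntermediateField.adjoin.finrank hi), ?_⟩
  have h2 := φ.restrictNormal_commutes (IntermediateField.adjoin k {β})
    (IntermediateField.AdjoinSimple.gen k β)
  rw [← hu, AlgHom.coe_pow, FiniteField.coe_frobeniusAlgHom, pow_iterate, map_pow] at h2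
  rw [← h1, Nat.card_eq_fintype_card]
  exact h2.symm

theorem gd_aeval_pow (β : kb) (u : ℕ) (c : k[X]) :
    aeval (β ^ Nat.card k ^ u) c = aeval β c ^ Nat.card k ^ u := by
  have := Fintype.ofFinite k
  have h1 : ∀ x : kb, (FiniteField.frobeniusAlgHom k kb ^ u) x = x ^ Nat.card k ^ u := fun x => by
    rw [AlgHom.coe_pow, FiniteField.coe_frobeniusAlgHom, pow_iterate, Nat.card_eq_fintype_card]
  rw [← h1, ← h1, aeval_algHom_apply]

/-- After a linear change of coordinates the points are `(c β, c' β)` (if `β 0 = β 1`) or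
`(c (β 0), c (β 1))`. In the first case and for different minimal polynomials they form a
product of two sets with more than `M` elements (Chinese remainder theorem; for the derivative
use `c + p * c2`, `p' β ≠ 0`). Otherwise `β 1 = β 0 ^ q ^ u`, `M < u`, `M < d - u`, the points are
`(x, x ^ q ^ u)`, `x ∈ k(β 0)`, and `P (x, x ^ q ^ u)` has degree `≤ M * q ^ u < q ^ d` with
distinct exponents. -/
theorem gd {M : ℕ} {β : Fin 2 → kb} (hβ : BigPt k M β) {F : Type} [Field F] [Algebra kb F]
    (P : MvPolynomial (Fin 2) F) (hP : P.totalDegree ≤ M)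
    (h : ∀ (c : k[X]) (c0 c1 : kb), qd β ∣ c.map (algebraMap k kb) - (C c0 + C c1 * X) →
      MvPolynomial.eval ![algebraMap kb F c0, algebraMap kb F c1] P = 0) : P = 0 := by
  have hi : ∀ x : kb, IsIntegral k x := fun x => Algebra.IsIntegral.isIntegral x
  have hq : 2 ≤ Nat.card k := Finite.one_lt_card
  have hlt : ∀ d : ℕ, M < d → M < Nat.card k ^ d := fun d hd =>
    hd.trans (Nat.lt_pow_self hq)
  obtain ⟨A, hA, hA'⟩ := gd_set (k := k) (β 0) F
  obtain ⟨B, hB, hB'⟩ := gd_set (k := k) (β 1) F
  have hMA : M < A.card := hA ▸ hlt _ (hβ.1 0)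
  have hMB : M < B.card := hB ▸ hlt _ (hβ.1 1)
  by_cases h01 : β 0 = β 1
  · obtain ⟨Q, h1, h2, h3⟩ := gd_chg P hP (a := 1) (b := -algebraMap kb F (β 0)) (c := 0) (d := 1)
      (by simp)
    refine h2 (gd_prod Q h1 A A hMA hMA fun u hu v hv => ?_)
    obtain ⟨a, rfl⟩ := hA' u hu
    obtain ⟨b, rfl⟩ := hA' v hv
    have hs : aeval (β 0) (derivative (minpoly k (β 0))) ≠ 0 :=
      (Algebra.IsSeparable.isSeparable k (β 0)).aeval_derivative_ne_zero (minpoly.aeval k (β 0))
    obtain ⟨e, he⟩ := gd_mem (k := k) (β := β 0)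
      (x := (aeval (β 0) b - aeval (β 0) (derivative a)) /
        aeval (β 0) (derivative (minpoly k (β 0))))
      (div_mem (sub_mem (gd_mem' _ _) (gd_mem' _ _)) (gd_mem' _ _))
    have h4 := h (a + minpoly k (β 0) * e) (aeval (β 0) a - β 0 * aeval (β 0) b) (aeval (β 0) b) (by
      set f := (a + minpoly k (β 0) * e).map (algebraMap k kb) -
        (C (aeval (β 0) a - β 0 * aeval (β 0) b) + C (aeval (β 0) b) * X) with hf
      have f0 : f.IsRoot (β 0) := by
        rw [IsRoot, hf, eval_sub, eval_map_algebraMap]
        simp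
        ring
      have f1 : (derivative f).eval (β 0) = 0 := by
        rw [hf, derivative_sub, derivative_map, eval_sub, eval_map_algebraMap]
        simp [he]
        field_simp
        ring
      obtain ⟨g, hg⟩ := dvd_iff_isRoot.2 f0
      have g0 : g.IsRoot (β 0) := by
        rw [hg] at f1
        simpa using f1
      rw [hg, qd, ← h01]
      exact mul_dvd_mul_left _ (dvd_iff_isRoot.2 g0))
    refine (h3 _ _).trans (Eq.trans ?_ h4)
    congr 2
    ext i
    fin_cases i
    · simp
      ring
    · simp
  have hne : β 0 - β 1 ≠ 0 := sub_ne_zero.2 h01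
  have hne' : algebraMap kb F (β 0) - algebraMap kb F (β 1) ≠ 0 := by
    rw [← map_sub]
    exact (_root_.map_ne_zero _).2 hne
  obtain ⟨Q, h1, h2, h3⟩ := gd_chg P hP
    (a := -algebraMap kb F (β 1) / (algebraMap kb F (β 0) - algebraMap kb F (β 1)))
    (b := algebraMap kb F (β 0) / (algebraMap kb F (β 0) - algebraMap kb F (β 1)))
    (c := 1 / (algebraMap kb F (β 0) - algebraMap kb F (β 1)))
    (d := -1 / (algebraMap kb F (β 0) - algebraMap kb F (β 1))) (by
      have : -algebraMap kb F (β 1) / (algebraMap kb F (β 0) - algebraMap kb F (β 1)) *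
          (-1 / (algebraMap kb F (β 0) - algebraMap kb F (β 1))) -
          algebraMap kb F (β 0) / (algebraMap kb F (β 0) - algebraMap kb F (β 1)) *
          (1 / (algebraMap kb F (β 0) - algebraMap kb F (β 1))) =
          -1 / (algebraMap kb F (β 0) - algebraMap kb F (β 1)) := by
        field_simp
        ring
      rw [this]
      exact div_ne_zero (by simp) hne')
  have h5 : ∀ c : k[X], MvPolynomial.eval
      ![algebraMap kb F (aeval (β 0) c), algebraMap kb F (aeval (β 1) c)] Q = 0 := fun c => by
    have h4 := h c ((β 0 * aeval (β 1) c - β 1 * aeval (β 0) c) / (β 0 - β 1))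
      ((aeval (β 0) c - aeval (β 1) c) / (β 0 - β 1)) (by
        refine (isCoprime_X_sub_C_of_isUnit_sub hne.isUnit).mul_dvd (dvd_iff_isRoot.2 ?_)
          (dvd_iff_isRoot.2 ?_) <;>
        · rw [IsRoot, eval_sub, eval_map_algebraMap]
          simp only [eval_add, eval_mul, eval_C, eval_X]
          field_simp
          ring)
    refine (h3 _ _).trans (Eq.trans ?_ h4)
    congr 2
    ext i
    fin_cases i
    · simp
      field_simp
      ring
    · simp
      field_simp
      ring
  refine h2 ?_
  by_cases hp : aeval (β 1) (minpoly k (β 0)) = 0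
  · obtain ⟨u, hu, hu'⟩ := gd_conj hp
    have h6 := hβ.2.resolve_left h01
    have h7 : M < u := by
      by_contra h7
      exact (h6 u (by omega)).1 hu'
    have h8 : M < (minpoly k (β 0)).natDegree - u := by
      by_contra h8
      refine (h6 _ (not_lt.1 h8)).2 ?_
      rw [hu', ← pow_mul, ← pow_add, Nat.add_sub_cancel' hu.le, gd_fix]
    refine gd_curve Q h1 (hlt u h7) A ?_ fun x hx => ?_
    · rw [hA, ← Nat.sub_add_cancel hu.le, pow_add]
      exact Nat.mul_lt_mul_of_pos_right (hlt _ h8) (by positivity)
    · obtain ⟨c, rfl⟩ := hA' x hx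
      rw [← h5 c, hu', gd_aeval_pow, map_pow]
  · have hc : IsCoprime (minpoly k (β 0)) (minpoly k (β 1)) := by
      refine ((minpoly.irreducible (hi (β 1))).coprime_iff_not_dvd.2 fun hd => hp ?_).symm
      obtain ⟨g, hg⟩ := hd
      rw [hg, map_mul, minpoly.aeval, zero_mul]
    obtain ⟨r, s, hrs⟩ := hc
    refine gd_prod Q h1 A B hMA hMB fun u hu v hv => ?_
    obtain ⟨a, rfl⟩ := hA' u hu
    obtain ⟨b, rfl⟩ := hB' v hv
    have e0 := congrArg (aeval (β 0)) hrs
    have e1 := congrArg (aeval (β 1)) hrs
    simp only [map_add, map_mul, minpoly.aeval, mul_zero, zero_add, add_zero, map_one] at e0 e1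
    have h6 := h5 (a * (s * minpoly k (β 1)) + b * (r * minpoly k (β 0)))
    simpa [e0, e1] using h6

/-- generic matrix over `MvPolynomial (Fin 2) F` (`rep_map`, `rep_deg` with `d1 = 0`), linear
functionals on `W`, `gd` -/
theorem gd_ext {M : ℕ} {β : Fin 2 → kb} (hβ : BigPt k M β) {F : Type} [Field F] [Algebra kb F]
    [Algebra k F] [IsScalarTower k kb F] {W : Type} [AddCommGroup W] [Module F W]
    (L : Matrix (JJ n M) (JJ n M) F →ₗ[F] W) (w0 : W) (a b : n)
    (h : ∀ c : k[X], L (rep M (fun i => algebraMap kb F (β i))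
      (el a b (c.map (algebraMap k F)))) = w0) (c : F[X]) :
    L (rep M (fun i => algebraMap kb F (β i)) (el a b c)) = w0 := by
  classical
  set t : Fin 2 → F := fun i => algebraMap kb F (β i) with ht
  let G : Matrix (JJ n M) (JJ n M) (MvPolynomial (Fin 2) F) :=
    rep M (fun i => MvPolynomial.C (t i))
      (el a b (C (MvPolynomial.X 0) + C (MvPolynomial.X 1) * X))
  have hG : ∀ x : Fin 2 → F,
      G.map (MvPolynomial.eval x) = rep M t (el a b (C (x 0) + C (x 1) * X)) := fun x => by
    rw [rep_map, pmap_el]
    simp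
  have hd : ∀ j j', (G j j').totalDegree ≤ M := fun j j' => by
    refine (rep_deg M _ (d1 := 0) (fun i => by simp) _ (d0 := 1) (d := 1) (fun i j m => ?_)
      (fun i j => ?_) j j').trans (by simp)
    · rw [el, Matrix.add_apply, coeff_add]
      refine (MvPolynomial.totalDegree_add _ _).trans (max_le ?_ ?_)
      · rw [Matrix.one_apply]
        split_ifs
        · rw [coeff_one]
          split_ifs <;> simp
        · simp
      · rw [Matrix.single_apply]
        split_ifs
        · rw [coeff_add, coeff_C, coeff_C_mul, coeff_X]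
          refine (MvPolynomial.totalDegree_add _ _).trans (max_le ?_ ?_) <;> split_ifs <;> simp
        · simp
    · rw [el, Matrix.add_apply]
      refine (natDegree_add_le _ _).trans (max_le ?_ ?_)
      · rw [Matrix.one_apply]
        split_ifs <;> simp
      · rw [Matrix.single_apply]
        split_ifs
        · compute_degree
        · simp
  obtain ⟨c0, c1, hc⟩ := exists_lin t c
  rw [rep_congr M (cong_el hc a b), ← sub_eq_zero, ← Module.forall_dual_apply_eq_zero_iff F]
  intro l
  let P : MvPolynomial (Fin 2) F :=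
    ∑ j, ∑ j', MvPolynomial.C (l (L (single j j' 1))) * G j j' - MvPolynomial.C (l w0)
  have hP : ∀ x : Fin 2 → F, MvPolynomial.eval x P =
      l (L (rep M t (el a b (C (x 0) + C (x 1) * X))) - w0) := fun x => by
    rw [← hG, map_sub l]
    conv_rhs => rw [matrix_eq_sum_single (G.map (MvPolynomial.eval x))]
    simp only [P, map_sub, map_sum, map_mul, MvPolynomial.eval_C]
    congr 1
    refine Finset.sum_congr rfl fun j _ => Finset.sum_congr rfl fun j' _ => ?_
    have : single j j' (G.map (MvPolynomial.eval x) j j') =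
        MvPolynomial.eval x (G j j') • single j j' (1 : F) := by
      rw [smul_single, smul_eq_mul, mul_one, map_apply]
    rw [this, map_smul, map_smul, smul_eq_mul, mul_comm]
  have h0 : P = 0 := by
    refine gd hβ P ?_ fun c c0 c1 hc => ?_
    · refine (MvPolynomial.totalDegree_sub_C_le _ _).trans
        (MvPolynomial.totalDegree_finsetSum_le fun j _ =>
          MvPolynomial.totalDegree_finsetSum_le fun j' _ => ?_)
      refine (MvPolynomial.totalDegree_mul _ _).trans ?_
      rw [MvPolynomial.totalDegree_C, zero_add]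
      exact hd j j'
    · have h1 := Polynomial.map_dvd (algebraMap kb F) hc
      rw [qd_map, Polynomial.map_sub, Polynomial.map_map, ← IsScalarTower.algebraMap_eq] at h1
      simp only [Polynomial.map_add, Polynomial.map_mul, map_C, map_X] at h1
      rw [hP]
      have h2 := h c
      rw [rep_congr M (cong_el h1 a b)] at h2
      simp only [Matrix.cons_val_zero, Matrix.cons_val_one]
      rw [h2, sub_self, map_zero]
  have h3 := hP ![c0, c1]
  rw [h0, map_zero] at h3
  exact h3.symm

end Pool.Agent.Lib.MP_6adaea_nt.U
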