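import Pool.Agent.Lib.MP_6adaea_nt.U.Defs2

/-!
Existence of the frame.
-/

set_option linter.unusedSectionVars false

namespace Pool.Agent.Lib.MP_6adaea_nt.U
open Matrix Polynomial G
open scoped TensorProduct

section gam
variable {k L Ω : Type} [Field k] [Field L] [Field Ω] [Algebra k L] [Algebra k Ω] [Algebra L Ω]
  [IsScalarTower k L Ω]

lemma gam_coeff {x : Ω} (hx : IsIntegral k x) (i : ℕ) : IsIntegral k ((minpoly L x).coeff i) :=
  isIntegral_coeff_of_dvd _ _ (minpoly.monic hx) (minpoly.monic hx.tower_top)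
    (minpoly.dvd_map_of_isScalarTower k L x) i

lemma gam_const {θ : L} (hθ : Transcendental k θ) {x : L}
    (hx : x ∈ IntermediateField.adjoin k {θ}) (hi : IsIntegral k x) :
    x ∈ Set.range (algebraMap k L) := by
  obtain ⟨r, s, h⟩ := (IntermediateField.mem_adjoin_simple_iff k x).1 hx
  by_cases hs : s = 0
  · exact ⟨0, by simp [h, hs]⟩
  have hs' : aeval θ s ≠ 0 := fun e => hθ ⟨s, hs, e⟩
  have hA : Transcendental (algebraicClosure k L) θ := hθ.extendScalars _
  set x' : algebraicClosure k L := ⟨x, mem_algebraicClosure_iff'.2 hi⟩ with hx'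
  have h0 : r.map (algebraMap k (algebraicClosure k L)) -
      C x' * s.map (algebraMap k (algebraicClosure k L)) = 0 := by
    by_contra h0
    refine hA ⟨_, h0, ?_⟩
    rw [map_sub, map_mul, aeval_map_algebraMap, aeval_map_algebraMap, aeval_C]
    change _ - x * _ = 0
    rw [h, div_mul_cancel₀ _ hs', sub_self]
  have h1 := congrArg (fun p => ((p.coeff s.natDegree : algebraicClosure k L) : L)) h0
  simp only [coeff_sub, coeff_C_mul, coeff_map, coeff_zero] at h1
  have h2 : algebraMap k L (r.coeff s.natDegree) - x * algebraMap k L (s.coeff s.natDegree) = 0 := h1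
  have h3 : algebraMap k L (s.coeff s.natDegree) ≠ 0 := by
    rw [_root_.map_ne_zero]; exact leadingCoeff_ne_zero.2 hs
  refine ⟨r.coeff s.natDegree / s.coeff s.natDegree, ?_⟩
  rw [map_div₀, div_eq_iff h3]
  exact sub_eq_zero.1 h2

lemma gam_pow [Finite k] {x : L} (hi : IsIntegral k x) {c : ℕ} (hc : (minpoly k x).natDegree ∣ c) :
    x ^ Nat.card k ^ c = x := by
  obtain ⟨m, rfl⟩ := hc
  have := IntermediateField.adjoin.finiteDimensional hi
  have : Finite (IntermediateField.adjoin k {x}) := Module.finite_of_finite k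
  have := Fintype.ofFinite (IntermediateField.adjoin k {x})
  have h := FiniteField.pow_card_pow (K := IntermediateField.adjoin k {x}) m
    (IntermediateField.AdjoinSimple.gen k x)
  rw [← Nat.card_eq_fintype_card, Module.natCard_eq_pow_finrank (K := k),
    IntermediateField.adjoin.finrank hi, ← pow_mul] at h
  exact congrArg Subtype.val h

lemma gam_exp [Finite k] {θ : L} (hθ : Transcendental k θ)
    [FiniteDimensional (IntermediateField.adjoin k {θ}) L] :
    ∃ c, 0 < c ∧ ∀ x : L, IsIntegral k x → x ^ Nat.card k ^ c = x := by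
  refine ⟨(Module.finrank (IntermediateField.adjoin k {θ}) L).factorial, Nat.factorial_pos _,
    fun x hx => gam_pow hx (Nat.dvd_factorial (minpoly.natDegree_pos hx) ?_)⟩
  have hm := minpoly.monic (A := IntermediateField.adjoin k {θ}) hx.tower_top
  obtain ⟨p, h1, h2, h3⟩ := lifts_and_natDegree_eq_and_monic
    (f := algebraMap k (IntermediateField.adjoin k {θ})) ((lifts_iff_coeff_lifts _).2 fun n => by
      obtain ⟨a, ha⟩ := gam_const hθ ((minpoly (IntermediateField.adjoin k {θ}) x).coeff n).2
        ((gam_coeff (L := IntermediateField.adjoin k {θ}) hx n).map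
          (IntermediateField.adjoin k {θ}).val)
      exact ⟨a, Subtype.ext ha⟩) hm
  refine le_trans ?_ (minpoly.natDegree_le (A := IntermediateField.adjoin k {θ}) x)
  rw [← h2]
  refine natDegree_le_natDegree (minpoly.min k x h3 ?_)
  rw [← aeval_map_algebraMap (IntermediateField.adjoin k {θ}), h1, minpoly.aeval]

lemma gam_one [Finite k] [IsGalois L Ω] {c : ℕ}
    (hc : ∀ x : L, IsIntegral k x → x ^ Nat.card k ^ c = x) {x : Ω} (hx : IsIntegral k x) :
    ∃ σ : Ω ≃ₐ[L] Ω, σ x = x ^ Nat.card k ^ c := by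
  refine minpoly.exists_algEquiv_of_root' hx.tower_top.isAlgebraic ?_
  have h := congrArg (G.frob k Ω ^ c : Ω →ₐ[k] Ω) (minpoly.aeval L x)
  rw [map_zero, aeval_eq_sum_range, map_sum] at h
  rw [aeval_eq_sum_range, ← h]
  refine Finset.sum_congr rfl fun i _ => ?_
  rw [Algebra.smul_def, Algebra.smul_def, map_mul, map_pow, frob_pow_apply, frob_pow_apply,
    ← map_pow, hc _ (gam_coeff hx i)]

lemma gam_all [Finite k] [IsGalois L Ω] {c : ℕ}
    (hc : ∀ x : L, IsIntegral k x → x ^ Nat.card k ^ c = x) :
    ∃ σ : Ω ≃ₐ[L] Ω, ∀ x, IsIntegral k x → σ x = x ^ Nat.card k ^ c := by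
  have key := CompactSpace.iInter_nonempty (X := Ω ≃ₐ[L] Ω) (ι := {x : Ω // IsIntegral k x})
    (t := fun x => {σ | σ x.1 = x.1 ^ Nat.card k ^ c}) (fun x => ?_) fun s => ?_
  · obtain ⟨σ, hσ⟩ := key
    exact ⟨σ, fun x hx => Set.mem_iInter.1 hσ ⟨x, hx⟩⟩
  · obtain ⟨σ₀, h₀⟩ := gam_one hc x.2
    have h1 := (MulAction.stabilizer (Ω ≃ₐ[L] Ω) x.1).isClosed_of_isOpen
      (stabilizer_isOpen_of_isIntegral x.1)
    convert h1.preimage (continuous_const_mul σ₀⁻¹) using 1
    ext σ
    simp only [Set.mem_ofPred_eq, Set.mem_preimage, SetLike.mem_coe, MulAction.mem_stabilizer_iff,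
      AlgEquiv.smul_def, AlgEquiv.mul_apply, ← h₀]
    exact (AlgEquiv.symm_apply_eq σ₀).symm
  · classical
    set F := IntermediateField.adjoin k ((fun x : {x : Ω // IsIntegral k x} => x.1) '' s) with hF
    have : FiniteDimensional k F := IntermediateField.finiteDimensional_adjoin (by
      rintro _ ⟨x, -, rfl⟩; exact x.2)
    have : Finite F := Module.finite_of_finite k
    obtain ⟨ζ, hζ⟩ := IsCyclic.exists_monoid_generator (α := Fˣ)
    obtain ⟨σ, hσ⟩ := gam_one hc (x := ((ζ : F) : Ω))
      ((Algebra.IsIntegral.isIntegral (R := k) (ζ : F)).map F.val)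
    refine ⟨σ, Set.mem_iInter₂.2 fun x hx => ?_⟩
    have hxF : x.1 ∈ F := IntermediateField.subset_adjoin _ _ ⟨x, hx, rfl⟩
    change σ x.1 = _
    by_cases h0 : x.1 = 0
    · rw [h0, map_zero, zero_pow (pow_ne_zero _ Nat.card_pos.ne')]
    obtain ⟨n, hn⟩ := hζ (Units.mk0 ⟨x.1, hxF⟩ fun e => h0 (congrArg Subtype.val e))
    have e : x.1 = ((ζ : F) : Ω) ^ n := by
      have := congrArg (fun u : Fˣ => ((u : F) : Ω)) hn
      simpa using this.symm
    rw [e, map_pow, hσ, ← pow_mul, ← pow_mul, mul_comm]

lemma gam_orb [IsGalois L Ω] (γ : Ω ≃ₐ[L] Ω) (x : Ω) : ∃ n, 0 < n ∧ (γ ^ n) x = x := by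
  have hx : IsIntegral L x := Algebra.IsIntegral.isIntegral x
  obtain ⟨a, b, hab, h⟩ := (rootSet_finite (minpoly L x) Ω).exists_lt_map_eq_of_forall_mem
    (f := fun n : ℕ => (γ ^ n) x) fun n => by
      rw [mem_rootSet_of_ne (minpoly.ne_zero hx), aeval_algHom_apply, minpoly.aeval, map_zero]
  obtain ⟨n, rfl⟩ := Nat.exists_eq_add_of_lt hab
  refine ⟨n + 1, n.succ_pos, (γ ^ a).injective ?_⟩
  rw [← AlgEquiv.mul_apply, ← pow_add, ← add_assoc]
  exact h.symm

end gam

/-- `kb` is the algebraic closure of `k` in `Ω`, `K = L(kb)`. Let `k'` be the finite field of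
constants of `L`, `card k' = q ^ c`. For each finite Galois subextension `k''` of `kb / k'` some
`σ ∈ Gal(Ω / L)` acts on `k''` as the inverse of the `q ^ c`-Frobenius, because the minimal
polynomial over `k'` of a generator stays irreducible over `L`; use compactness of the Galois
group (or build the automorphism of `K` by Zorn / a direct limit and extend it). -/
theorem exists_frame (k L Ω : Type) [Field k] [Finite k] [Field L] [Field Ω] [Algebra k L]
    [Algebra k Ω] [Algebra L Ω] [IsScalarTower k L Ω] [IsSepClosed Ω] [IsGalois L Ω] (θ : L)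
    (hθ : Transcendental k θ) [FiniteDimensional (IntermediateField.adjoin k {θ}) L] :
    ∃ (kb K : Type) (_ : Field kb) (_ : Field K) (_ : Algebra k kb) (_ : Algebra k K)
      (_ : Algebra kb K) (_ : Algebra kb Ω) (_ : Algebra K Ω) (_ : Algebra L K)
      (_ : IsScalarTower k kb K) (_ : IsScalarTower k kb Ω) (_ : IsScalarTower k K Ω)
      (_ : IsScalarTower kb K Ω) (_ : IsScalarTower L K Ω) (_ : IsAlgClosed kb)
      (_ : Algebra.IsAlgebraic k kb) (_ : IsGalois K Ω) (Fr : Frb k kb K Ω),
      Base kb (algebraMap L K θ) ∧ (∀ x : L, Fr.γK (algebraMap L K x) = algebraMap L K x) ∧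
      ∀ σ : Ω ≃ₐ[L] Ω, (∀ c : kb, σ (algebraMap kb Ω c) = algebraMap kb Ω c) →
        ∀ x : K, σ (algebraMap K Ω x) = algebraMap K Ω x := by
  obtain ⟨c, hc0, hc⟩ := gam_exp hθ
  obtain ⟨σ, hσ⟩ := gam_all (Ω := Ω) hc
  let kb := separableClosure k Ω
  let K := IntermediateField.adjoin L (kb : Set Ω)
  have hint : ∀ x ∈ kb, IsIntegral k x := fun x hx => IsSeparable.isIntegral hx
  let _ : Algebra kb K := (RingHom.codRestrict (algebraMap kb Ω) K fun x =>
    IntermediateField.subset_adjoin _ _ x.2).toAlgebra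
  have t1 : IsScalarTower kb K Ω := IsScalarTower.of_algebraMap_eq fun _ => rfl
  have t2 : IsScalarTower k kb K := IsScalarTower.of_algebraMap_eq fun x => Subtype.ext (by
    change algebraMap k Ω x = algebraMap kb Ω (algebraMap k kb x)
    rw [← IsScalarTower.algebraMap_apply])
  have t3 : IsScalarTower k K Ω := IsScalarTower.of_algebraMap_eq fun x => by
    rw [IsScalarTower.algebraMap_apply k L K, ← IsScalarTower.algebraMap_apply L K Ω,
      ← IsScalarTower.algebraMap_apply]
  have : PerfectField kb := Algebra.IsAlgebraic.perfectField k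
  have : IsSepClosed kb := IsSepClosure.sep_closed k
  have hK : ∀ (τ : Ω ≃ₐ[L] Ω), ∀ x ∈ K, τ x ∈ K := by
    intro τ x hx
    induction hx using IntermediateField.adjoin_induction with
    | mem x hx =>
      exact IntermediateField.subset_adjoin _ _
        (IsSeparable.map (τ.restrictScalars k : Ω →ₐ[k] Ω) τ.injective hx)
    | algebraMap x => rw [τ.commutes]; exact K.algebraMap_mem x
    | add x y _ _ h1 h2 => rw [map_add]; exact add_mem h1 h2
    | inv x _ h1 => rw [map_inv₀]; exact inv_mem h1
    | mul x y _ _ h1 h2 => rw [map_mul]; exact mul_mem h1 h2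
  let γK : K ≃ₐ[k] K :=
    { toFun := fun x => ⟨σ.symm x, hK _ _ x.2⟩
      invFun := fun x => ⟨σ x, hK _ _ x.2⟩
      left_inv := fun x => Subtype.ext (σ.apply_symm_apply _)
      right_inv := fun x => Subtype.ext (σ.symm_apply_apply _)
      map_mul' := fun x y => Subtype.ext (map_mul σ.symm _ _)
      map_add' := fun x y => Subtype.ext (map_add σ.symm _ _)
      commutes' := fun x => Subtype.ext ((σ.symm.restrictScalars k).commutes x) }
  have hpow : ∀ (n : ℕ) (x : Ω), (σ.symm.restrictScalars k ^ n) x = (σ.symm ^ n) x := by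
    intro n x
    induction n with
    | zero => rfl
    | succ n ih => rw [pow_succ', pow_succ', AlgEquiv.mul_apply, AlgEquiv.mul_apply, ih]; rfl
  refine ⟨kb, K, inferInstance, inferInstance, inferInstance, inferInstance, inferInstance,
    inferInstance, inferInstance, inferInstance, t2, inferInstance, t3, t1,
    inferInstance, inferInstance, inferInstance, inferInstance,
    ⟨c, hc0, σ.symm.restrictScalars k, γK, fun _ => rfl, fun x => Subtype.ext ?_, fun x => ?_⟩,
    ⟨?_, ?_⟩, fun x => Subtype.ext (σ.symm.commutes x), fun τ hτ x => ?_⟩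
  · change σ.symm (x : Ω) ^ Nat.card k ^ c = (x : Ω)
    rw [← map_pow, ← hσ _ (hint _ x.2), σ.symm_apply_apply]
  · simpa only [hpow] using gam_orb σ.symm x
  · exact ((transcendental_algebraMap_iff (algebraMap L K).injective).2 hθ).extendScalars _
  · set E := IntermediateField.adjoin k {θ} with hE
    set E' := IntermediateField.adjoin kb {algebraMap L K θ} with hE'
    have hEE : ∀ e ∈ E, algebraMap L K e ∈ E' := by
      intro e he
      induction he using IntermediateField.adjoin_induction with
      | mem x hx => rw [hx]; exact IntermediateField.mem_adjoin_simple_self _ _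
      | algebraMap x =>
        rw [← IsScalarTower.algebraMap_apply, IsScalarTower.algebraMap_apply k kb K]
        exact E'.algebraMap_mem _
      | add x y _ _ h1 h2 => rw [map_add]; exact add_mem h1 h2
      | inv x _ h1 => rw [map_inv₀]; exact inv_mem h1
      | mul x y _ _ h1 h2 => rw [map_mul]; exact mul_mem h1 h2
    let f : E →+* E' := RingHom.codRestrict ((algebraMap L K).comp (algebraMap E L)) E'
      fun e => hEE e e.2
    let b := Module.finBasis E L
    set T := IntermediateField.adjoin E' (Set.range fun i => algebraMap L K (b i)) with hT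
    have : FiniteDimensional E' T := IntermediateField.finiteDimensional_adjoin (by
      rintro _ ⟨i, rfl⟩
      exact (Algebra.IsIntegral.isIntegral (R := E) (b i)).map_of_comp_eq f (algebraMap L K) rfl)
    have htop : ∀ x (hx : x ∈ K), (⟨x, hx⟩ : K) ∈ T := by
      intro x hx
      induction hx using IntermediateField.adjoin_induction with
      | mem x hx => exact T.algebraMap_mem (algebraMap kb E' ⟨x, hx⟩)
      | algebraMap x =>
        change algebraMap L K x ∈ T
        rw [← b.sum_repr x, map_sum]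
        refine sum_mem fun i _ => ?_
        rw [Algebra.smul_def, map_mul]
        exact mul_mem (T.algebraMap_mem (f (b.repr x i)))
          (IntermediateField.subset_adjoin _ _ ⟨i, rfl⟩)
      | add x y _ _ h1 h2 => exact add_mem h1 h2
      | inv x _ h1 => exact inv_mem h1
      | mul x y _ _ h1 h2 => exact mul_mem h1 h2
    exact Module.Finite.of_surjective T.val.toLinearMap fun x => ⟨⟨x, htop x.1 x.2⟩, rfl⟩
  · obtain ⟨x, hx⟩ := x
    change τ x = x
    induction hx using IntermediateField.adjoin_induction with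
    | mem x hx => exact hτ ⟨x, hx⟩
    | algebraMap x => exact τ.commutes x
    | add x y _ _ h1 h2 => rw [map_add, h1, h2]
    | inv x _ h1 => rw [map_inv₀, h1]
    | mul x y _ _ h1 h2 => rw [map_mul, h1, h2]

end Pool.Agent.Lib.MP_6adaea_nt.U
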