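import Pool.Agent.Lib.MP_6adaea_nt.U.RDefs
import Pool.Agent.Lib.MP_6adaea_nt.G.G2
import Pool.Agent.Lib.MP_6adaea_nt.G.Curve

/-!
Homogeneous functions of jets at a double point.
-/

set_option linter.unusedSectionVars false

namespace Pool.Agent.Lib.MP_6adaea_nt.U
open Matrix Polynomial G TrivSqZeroExt

section grd
variable {B n : Type} [CommRing B] [Fintype n] [DecidableEq n] (A : ℕ → AddSubgroup B)
  [SetLike.GradedMonoid A]

lemma grd_det (M : Matrix n n B) (a b : n → ℕ) (h : ∀ i j, M i j ∈ A (a i + b j)) :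
    M.det ∈ A (∑ i, a i + ∑ i, b i) := by
  rw [det_apply']
  refine AddSubgroup.sum_mem _ fun σ _ => ?_
  have h1 := SetLike.prod_mem_graded A (fun i => a (σ i) + b i) (fun i => M (σ i) i)
    (F := Finset.univ) fun i _ => h _ _
  rw [Finset.sum_add_distrib, Equiv.sum_comp σ a] at h1
  rw [← zsmul_eq_mul]
  exact AddSubgroup.zsmul_mem _ h1 _

lemma grd_mul {d e : ℕ} {M N : Matrix n n B} (hM : ∀ i j, M i j ∈ A d) (hN : ∀ i j, N i j ∈ A e)
    (i j : n) : (M * N) i j ∈ A (d + e) := by
  rw [Matrix.mul_apply]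
  exact AddSubgroup.sum_mem _ fun l _ => SetLike.mul_mem_graded (hM _ _) (hN _ _)

lemma grd_one (i j : n) : (1 : Matrix n n B) i j ∈ A 0 := by
  rw [Matrix.one_apply]
  split_ifs
  exacts [SetLike.one_mem_graded A, zero_mem _]

lemma grd_pow {M : Matrix n n B} (hM : ∀ i j, M i j ∈ A 1) (m : ℕ) :
    ∀ i j, (M ^ m) i j ∈ A m := by
  induction m with
  | zero => simpa using grd_one A
  | succ m ih => rw [pow_succ]; exact grd_mul A ih hM

lemma grd_trace {d : ℕ} {M : Matrix n n B} (hM : ∀ i j, M i j ∈ A d) : M.trace ∈ A d :=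
  AddSubgroup.sum_mem _ fun i _ => hM i i

lemma grd_det' {M : Matrix n n B} (hM : ∀ i j, M i j ∈ A 1) : M.det ∈ A (Fintype.card n) := by
  simpa using grd_det A M (fun _ => 1) (fun _ => 0) hM

lemma grd_adj {M : Matrix n n B} (hM : ∀ i j, M i j ∈ A 1) (i j : n) :
    M.adjugate i j ∈ A (Fintype.card n - 1) := by
  rw [adjugate_apply]
  have := grd_det A (M.updateRow j (Pi.single i 1)) (fun l => if l = j then 0 else 1)
    (fun _ => 0) fun u v => by
      by_cases h : u = j
      · subst h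
        rw [updateRow_self, if_pos rfl, Pi.single_apply]
        split_ifs
        exacts [SetLike.one_mem_graded A, zero_mem _]
      · rw [updateRow_ne h, if_neg h]; exact hM u v
  convert this using 2
  rw [Finset.sum_ite, Finset.filter_ne']
  simp

lemma grd_hank {M : Matrix n n B} (hM : ∀ i j, M i j ∈ A 1) :
    hank M ∈ A (∑ i : Fin (Fintype.card n), (i : ℕ) + ∑ i : Fin (Fintype.card n), (i : ℕ)) :=
  grd_det A _ _ _ fun _ _ => grd_trace A (grd_pow A hM _)

lemma hank_map {B' : Type} [CommRing B'] (f : B →+* B') (M : Matrix n n B) :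
    f (hank M) = hank (M.map f) := by
  rw [hank, hank, RingHom.map_det]
  congr 1
  ext i j
  simp only [RingHom.mapMatrix_apply, Matrix.map_apply, of_apply]
  rw [← RingHom.mapMatrix_apply, ← map_pow]
  simp [trace]

end grd

section hom
variable {F ι : Type} [Field F] [Fintype ι] [DecidableEq ι]

lemma ghom_cmul {d : ℕ} {f : Matrix ι ι F → F} (h : Hom d f) (c : F) :
    Hom d fun g => c * f g := by
  induction h with
  | const c' => exact Hom.const (c * c')
  | mul i j _ ih => simpa only [mul_left_comm c] using Hom.mul i j ih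
  | add _ _ ih ih' => simpa only [mul_add] using Hom.add ih ih'

lemma ghom_mul {d e : ℕ} {f f' : Matrix ι ι F → F} (h : Hom d f) (h' : Hom e f') :
    Hom (d + e) fun g => f g * f' g := by
  induction h with
  | const c => simpa using ghom_cmul h' c
  | mul i j _ ih => simpa only [mul_assoc, Nat.add_right_comm] using Hom.mul i j ih
  | add _ _ ih ih' => simpa only [add_mul] using Hom.add ih ih'

lemma ghom_zero [Nonempty ι] (d : ℕ) : Hom d fun _ : Matrix ι ι F => (0 : F) := by
  obtain ⟨i⟩ := ‹Nonempty ι›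
  induction d with
  | zero => exact Hom.const 0
  | succ d ih => simpa using Hom.mul i i ih

lemma ghom_congr {d : ℕ} {f f' : Matrix ι ι F → F} (h : Hom d f) (e : ∀ g, f' g = f g) :
    Hom d f' := (funext e : f' = f) ▸ h

lemma ghom_entry (i j : ι) : Hom 1 fun g : Matrix ι ι F => g i j := by
  simpa using Hom.mul i j (Hom.const (1 : F))

variable (F ι) in
/-- homogeneous functions -/
def hA [Nonempty ι] (d : ℕ) : AddSubgroup (Matrix ι ι F → F) where
  carrier := {f | Hom d f}
  zero_mem' := ghom_zero d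
  add_mem' := Hom.add
  neg_mem' := fun {f} h => by
    have := ghom_cmul h (-1)
    simp only [neg_mul, one_mul] at this
    exact this

instance [Nonempty ι] : SetLike.GradedMonoid (hA F ι) where
  one_mem := Hom.const 1
  mul_mem := fun _ _ _ _ h h' => ghom_mul h h'

variable (F ι) in
/-- homogeneous functions with values in the dual numbers -/
def hD [Nonempty ι] (d : ℕ) : AddSubgroup (Matrix ι ι F → DualNumber F) where
  carrier := {f | (fun g => (f g).fst) ∈ hA F ι d ∧ (fun g => (f g).snd) ∈ hA F ι d}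
  zero_mem' := ⟨zero_mem _, zero_mem _⟩
  add_mem' := fun h h' => ⟨add_mem h.1 h'.1, add_mem h.2 h'.2⟩
  neg_mem' := fun h => ⟨neg_mem h.1, neg_mem h.2⟩

instance [Nonempty ι] : SetLike.GradedMonoid (hD F ι) where
  one_mem := ⟨Hom.const 1, Hom.const 0⟩
  mul_mem := fun _ _ f f' h h' => ⟨ghom_mul h.1 h'.1,
    ghom_congr (Hom.add (ghom_mul h.1 h'.2) (ghom_mul h.2 h'.1)) fun g => by simp [mul_comm]⟩

end hom

section jet
variable {F n : Type} [Field F] [Fintype n] [DecidableEq n]

/-- the matrix over the dual numbers read off from a jet -/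
def dnum (g : Matrix (n × Fin 2) (n × Fin 2) F) : Matrix n n (DualNumber F) :=
  Matrix.of fun i j => inl (g (i, 0) (j, 0)) + inr (g (i, 1) (j, 0))

/-- the value of a jet -/
def b0 (g : Matrix (n × Fin 2) (n × Fin 2) F) : Matrix n n F := Matrix.of fun i j => g (i, 0) (j, 0)

/-- the point `ζ + ε` -/
def ze (ζ : F) : DualNumber F := inl ζ + inr 1

lemma aeval_ze (ζ : F) (p : F[X]) :
    aeval (ze ζ) p = inl (p.eval ζ) + inr (p.derivative.eval ζ) := by
  induction p using Polynomial.induction_on with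
  | C c => ext <;> simp [algebraMap_eq_inl]
  | add p q hp hq => rw [map_add, hp, hq]; ext <;> simp
  | monomial m c ih =>
    rw [pow_succ, ← mul_assoc, map_mul, ih, derivative_mul (f := C c * X ^ m)]
    ext <;> simp [ze]; ring

lemma aeval_cm (ζ : F) (p : F[X]) :
    aeval (cm ![ζ, ζ]) p = !![p.eval ζ, 0; p.derivative.eval ζ, p.eval ζ] := by
  induction p using Polynomial.induction_on with
  | C c => ext i j; fin_cases i <;> fin_cases j <;> simp [Algebra.algebraMap_eq_smul_one]
  | add p q hp hq => rw [map_add, hp, hq]; ext i j; fin_cases i <;> fin_cases j <;> simp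
  | monomial m c ih =>
    rw [pow_succ, ← mul_assoc, map_mul, ih, derivative_mul (f := C c * X ^ m)]
    ext i j; fin_cases i <;> fin_cases j <;> simp [cm, Matrix.mul_apply, Fin.sum_univ_two]

lemma dn_hat (ζ : F) (A : Matrix n n F[X]) : dnum (hat ![ζ, ζ] A) = A.map (aeval (ze ζ)) := by
  ext1 i j
  simp [dnum, hat, aeval_cm, aeval_ze]

lemma b0_hat (ζ : F) (A : Matrix n n F[X]) : b0 (hat ![ζ, ζ] A) = A.map (eval ζ) := by
  ext1 i j
  simp [b0, hat, aeval_cm]

lemma qd_dvd {ζ : F} {p : F[X]} (h : aeval (ze ζ) p = 0) : qd ![ζ, ζ] ∣ p := by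
  rw [aeval_ze] at h
  have h1 : p.eval ζ = 0 := by simpa using congrArg fst h
  have h2 : p.derivative.eval ζ = 0 := by simpa using congrArg snd h
  obtain ⟨q, rfl⟩ := dvd_iff_isRoot.mpr h1
  have h3 : q.eval ζ = 0 := by simpa [derivative_mul] using h2
  exact mul_dvd_mul_left _ (dvd_iff_isRoot.mpr h3)

lemma exists_jet (ζ : F) (s : Matrix n n (DualNumber F)) (hs : s.det = 1) :
    ∃ A : Matrix n n F[X], qd ![ζ, ζ] ∣ A.det - 1 ∧ A.map (aeval (ze ζ)) = s := by
  have e : (Matrix.of fun i j => C (s i j).fst + (X - C ζ) * C (s i j).snd : Matrix n n F[X]).map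
      (aeval (ze ζ)) = s := by
    ext1 i j
    rw [Matrix.map_apply, aeval_ze]
    ext <;> simp
  refine ⟨_, qd_dvd ?_, e⟩
  rw [map_sub, map_one, AlgHom.map_det, AlgHom.mapMatrix_apply, e, hs, sub_self]

variable [Nonempty n]

lemma hom_big (l : Matrix n n F →ₗ[F] F) (Y : Matrix n n F) :
    Hom (1 + 0 + (Fintype.card n - 1)) fun g => l (b0 g * Y * (b0 g).adjugate) := by
  let M : Matrix n n (Matrix (n × Fin 2) (n × Fin 2) F → F) :=
    Matrix.of fun i j g => g (i, 0) (j, 0)
  have hM : ∀ i j, M i j ∈ hA F (n × Fin 2) 1 := fun i j => ghom_entry _ _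
  have hY : ∀ i j, (Y.map (Pi.constRingHom _ F)) i j ∈ hA F (n × Fin 2) 0 := fun i j =>
    Hom.const (Y i j)
  have h1 := grd_mul _ (grd_mul _ hM hY) (grd_adj _ hM)
  have h2 := AddSubgroup.sum_mem (hA F (n × Fin 2) _) (t := Finset.univ) fun (p : n × n) _ =>
    (ghom_cmul (h1 p.1 p.2) (l (single p.1 p.2 1)) : _ ∈ hA F (n × Fin 2) _)
  refine ghom_congr h2 fun g => ?_
  have e : b0 g * Y * (b0 g).adjugate =
      (M * Y.map (Pi.constRingHom _ F) * M.adjugate).map (Pi.evalRingHom (fun _ => F) g) := by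
    rw [Matrix.map_mul, Matrix.map_mul, ← RingHom.mapMatrix_apply _ M.adjugate,
      RingHom.map_adjugate]
    rfl
  rw [matrix_eq_sum_single (b0 g * Y * (b0 g).adjugate), ← Fintype.sum_prod_type', map_sum,
    Finset.sum_apply]
  refine Finset.sum_congr rfl fun p _ => ?_
  rw [mul_comm, ← smul_eq_mul (α := F), ← map_smul, smul_single, smul_eq_mul, mul_one, e]
  rfl

/-- the degree of `g2fun` -/
def g2deg (r : ℕ) : ℕ := (∑ i : Fin r, (i : ℕ) + ∑ i : Fin r, (i : ℕ)) + (1 + (r - 1) + r)

lemma hom_g2 : Hom (g2deg (Fintype.card n)) fun g : Matrix (n × Fin 2) (n × Fin 2) F =>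
    g2fun (dnum g) := by
  let M : Matrix n n (Matrix (n × Fin 2) (n × Fin 2) F → F) :=
    Matrix.of fun i j g => g (i, 0) (j, 0)
  have hM : ∀ i j, M i j ∈ hA F (n × Fin 2) 1 := fun i j => ghom_entry _ _
  let N : Matrix n n (Matrix (n × Fin 2) (n × Fin 2) F → DualNumber F) :=
    Matrix.of fun i j g => dnum g i j
  have hN : ∀ i j, N i j ∈ hD F (n × Fin 2) 1 := fun i j =>
    ⟨ghom_congr (ghom_entry (i, 0) (j, 0)) fun g => by simp [N, dnum],
      ghom_congr (ghom_entry (i, 1) (j, 0)) fun g => by simp [N, dnum]⟩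
  have h1 := SetLike.mul_mem_graded (grd_trace _ hN) (grd_trace _ (grd_adj _ hN))
  have h2 := grd_det' _ hN
  have h3 := SetLike.mul_mem_graded (grd_hank _ hM)
    (sub_mem (SetLike.mul_mem_graded h1.2 h2.1) (SetLike.mul_mem_graded h1.1 h2.2))
  refine ghom_congr h3 fun g => ?_
  have eN : N.map (Pi.evalRingHom (fun _ => DualNumber F) g) = dnum g := rfl
  have e1 : N.det g = (dnum g).det := by
    rw [← eN, ← RingHom.mapMatrix_apply, ← RingHom.map_det]; rfl
  have e2 : N.trace g = (dnum g).trace := by simp [trace, Finset.sum_apply, N]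
  have e3 : N.adjugate.trace g = (dnum g).adjugate.trace := by
    rw [← eN, ← RingHom.mapMatrix_apply, ← RingHom.map_adjugate]
    simp [trace, Finset.sum_apply]
  have e4 : hank M g = hank ((dnum g).map fst) := by
    have : (dnum g).map fst = M.map (Pi.evalRingHom (fun _ => F) g) := by
      ext i j; simp [dnum, M]
    rw [this]
    exact hank_map (Pi.evalRingHom (fun _ => F) g) M
  simp only [Pi.mul_apply, Pi.sub_apply, e1, e2, e3, e4, g2fun]

end jet

end Pool.Agent.Lib.MP_6adaea_nt.U
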