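import Pool.Agent.Lib.MP_6adaea_nt.U.Small
import Pool.Agent.Lib.MP_6adaea_nt.U.GrpA
import Pool.Agent.Lib.MP_6adaea_nt.G.Asm
import Pool.Agent.Lib.MP_6adaea_nt.G.BigLevel

/-!
The group theoretic conclusion.
-/

set_option linter.unusedSectionVars false

namespace Pool.Agent.Lib.MP_6adaea_nt.U
open Matrix Polynomial G
open scoped TensorProduct

open Filter TrivSqZeroExt

section aux
variable {n : Type} [Fintype n] [DecidableEq n]

lemma roots_comm {R : Type} [CommRing R] (h2 : IsUnit (2 : R) ∨ (2 : R) = 0) {σ : R}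
    (hσ : IsNilpotent σ) {H : Subgroup (GL n R)} (hH : Roots H {x | σ ∣ x}) :
    Roots ⁅H, H⁆ {x | σ ^ 5 ∣ x} := by
  rintro i j hij _ ⟨y, rfl⟩
  have hn : IsNilpotent (σ ^ 2) := hσ.pow_of_pos two_ne_zero
  have hu : IsUnit (1 + σ ^ 2) := hn.isUnit_one_add
  have ht : tor i j hu.unit ∈ H := tor_mem hH hij _ (by simp)
  have key : ∀ z, rt hij (σ ^ 2 * (2 + σ ^ 2) * (σ * z)) ∈ ⁅H, H⁆ := fun z => by
    have h1 := Subgroup.commutator_mem_commutator ht (hH hij (σ * z) (dvd_mul_right _ _))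
    rw [commutatorElement_def, tor_conj_rt, ← rt_neg, ← rt_add] at h1
    convert h1 using 2
    simp only [IsUnit.unit_spec]
    ring
  rcases h2 with h2 | h2
  · obtain ⟨v, hv⟩ := (hn.isUnit_add_left_of_commute h2 (Commute.all _ _)).exists_right_inv
    convert key (v * σ ^ 2 * y) using 2
    linear_combination (-σ ^ 5 * y) * hv
  · convert key y using 2
    linear_combination (-σ ^ 3 * y) * h2

variable {k : Type} [Field k]

lemma exists_sqfree (k : Type) [Field k] [Finite k] (d : ℕ) : ∃ s : k[X], s.Monic ∧ Squarefree s ∧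
    ∀ b : k[X], b ≠ 0 → (∀ P : k[X], Irreducible P → P ∣ b → P.natDegree ≤ d) → ∃ e, b ∣ s ^ e := by
  classical
  have hfin : {P : k[X] | P.Monic ∧ Irreducible P ∧ P.natDegree ≤ d}.Finite := by
    have : Finite (degreeLT k (d + 1)) := Finite.of_equiv _ (degreeLTEquiv k (d + 1)).symm.toEquiv
    refine (Set.toFinite (degreeLT k (d + 1) : Set k[X])).subset fun P hP => ?_
    exact mem_degreeLT.mpr (degree_lt_iff_coeff_zero _ _ |>.mpr fun m hm =>
      coeff_eq_zero_of_natDegree_lt (by have := hP.2.2; omega))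
  refine ⟨∏ P ∈ hfin.toFinset, P, monic_prod_of_monic _ _ fun P hP =>
    (hfin.mem_toFinset.mp hP).1, ?_, fun b hb h => ?_⟩
  · refine Finset.squarefree_prod_of_pairwise_isCoprime (fun P hP Q hQ hPQ => ?_) fun P hP =>
      (hfin.mem_toFinset.mp hP).2.1.squarefree
    have hP' := hfin.mem_toFinset.mp hP
    have hQ' := hfin.mem_toFinset.mp hQ
    refine (hP'.2.1.isRelPrime_iff_not_dvd).mpr fun hd => hPQ ?_
    exact eq_of_monic_of_associated hP'.1 hQ'.1 ((hP'.2.1.dvd_irreducible_iff_associated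
      hQ'.2.1).mp hd)
  · induction b using UniqueFactorizationMonoid.induction_on_prime with
    | h₁ => exact absurd rfl hb
    | h₂ u hu => exact ⟨0, hu.dvd⟩
    | h₃ b p hb' hp ih =>
      obtain ⟨e, he⟩ := ih hb' fun P hP hd => h P hP (hd.mul_left _)
      refine ⟨e + 1, ?_⟩
      rw [pow_succ']
      refine mul_dvd_mul ?_ he
      have hpa := normalize_associated p
      refine hpa.symm.dvd.trans (Finset.dvd_prod_of_mem _ (hfin.mem_toFinset.mpr
        ⟨monic_normalize hp.ne_zero, hpa.symm.irreducible hp.irreducible, ?_⟩))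
      rw [natDegree_eq_of_degree_eq (degree_eq_degree_of_associated hpa)]
      exact h p hp.irreducible (dvd_mul_right _ _)

lemma grp_exists_lift {a : k[X]} (h : GL n (AdjoinRoot a)) :
    ∃ B : Matrix n n k[X], B.map (AdjoinRoot.mk a) = h.val := by
  choose f hf using AdjoinRoot.mk_surjective (g := a)
  exact ⟨h.val.map f, by ext i j; simp [hf]⟩

variable {kb : Type} [Field kb] [Algebra k kb]

lemma big_of_thin [Nonempty n] [Infinite kb] {a P : k[X]} (hP : P ∣ a)
    {H : Subgroup (GL n (AdjoinRoot a))} (ι : AdjoinRoot P →ₐ[k] kb) {ζ : kb}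
    (hζ : ι (AdjoinRoot.root P) = ζ)
    (h : Dense (1 + 0 + (Fintype.card n - 1)) ![ζ, ζ] (hats ![ζ, ζ] H)) :
    Big ((H.map (red (fac hP))).map (red (ι : AdjoinRoot P →+* kb))) := by
  refine big_of_dense fun l Y hl s hs => ?_
  have := h _ (hom_big l Y) ?_ (s.map C) (by
    rw [← RingHom.mapMatrix_apply, ← RingHom.map_det, hs, map_one, sub_self]; exact dvd_zero _)
  · have e : (s.map C).map (eval ζ) = s := by ext i j; simp
    rwa [b0_hat, e] at this
  · rintro _ ⟨B, ⟨g, hg, hB⟩, rfl⟩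
    have e : b0 (hat ![ζ, ζ] (pmap (algebraMap k kb) B)) =
        (red (ι : AdjoinRoot P →+* kb) (red (fac hP) g)).val := by
      rw [b0_hat, red_val, red_val, ← hB]
      ext i j
      simp only [pmap, Matrix.map_apply, fac_mk, RingHom.coe_coe]
      rw [← AdjoinRoot.aeval_eq, ← aeval_algHom_apply, hζ, eval_map_algebraMap]
    rw [e]
    exact hl _ (Subgroup.mem_map_of_mem _ (Subgroup.mem_map_of_mem _ hg))

lemma aeval_ze_map (ζ : kb) (p : k[X]) :
    eval₂ ((algebraMap kb (DualNumber kb)).comp (algebraMap k kb)) (ze ζ) p =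
      aeval (ze ζ) (p.map (algebraMap k kb)) := by
  rw [aeval_def, eval₂_map]

lemma layer_of_thin [Nontrivial n] [Finite k] [Infinite kb] {a P b : k[X]} [Fact (Irreducible P)]
    {e : ℕ} (he : e ≠ 0) (ha : a = P ^ (e + 1) * b) (ha0 : a ≠ 0)
    {H : Subgroup (GL n (AdjoinRoot a))} (ι : AdjoinRoot P →ₐ[k] kb) {ζ : kb}
    (hζ : ι (AdjoinRoot.root P) = ζ) (hk : 3 < Nat.card k ^ P.natDegree)
    (hd : (H.map GeneralLinearGroup.det).index < Nat.card k ^ P.natDegree)
    (h0 : HasSL (H.map (red (fac ((dvd_pow_self P e.succ_ne_zero).trans (Dvd.intro _ ha.symm))))))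
    (h : Dense (g2deg (Fintype.card n)) ![ζ, ζ] (hats ![ζ, ζ] H)) :
    ∃ Y ∈ layer (locP P e) (H.map (red (fac (Dvd.intro _ ha.symm)))) 0, ¬Scal Y := by
  have hP : Irreducible P := Fact.out
  have := finite_adjoinRoot ha0
  have := finite_adjoinRoot hP.ne_zero
  have := finite_adjoinRoot (pow_ne_zero (e + 1) hP.ne_zero)
  rw [← card_adjoinRoot hP.ne_zero] at hk hd
  have hπ : (locP P e).π.comp (fac (Dvd.intro _ ha.symm)) =
      fac ((dvd_pow_self P e.succ_ne_zero).trans (Dvd.intro _ ha.symm)) :=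
    fac_comp _ (dvd_pow_self P e.succ_ne_zero)
  have hι : ∀ p : k[X], ι (AdjoinRoot.mk P p) = (p.map (algebraMap k kb)).eval ζ := fun p => by
    rw [← AdjoinRoot.aeval_eq, ← aeval_algHom_apply, hζ, eval_map_algebraMap]
  have hz : (P.map (algebraMap k kb)).eval ζ = 0 := by rw [← hι, AdjoinRoot.mk_self, map_zero]
  let Ψ : AdjoinRoot (P ^ (e + 1)) →+* DualNumber kb :=
    AdjoinRoot.lift ((algebraMap kb (DualNumber kb)).comp (algebraMap k kb)) (ze ζ) (by
      rw [aeval_ze_map, Polynomial.map_pow, map_pow, aeval_ze, hz, inl_zero, zero_add]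
      obtain ⟨e', rfl⟩ := Nat.exists_eq_succ_of_ne_zero he
      rw [pow_succ, pow_succ, mul_assoc, inr_mul_inr, mul_zero])
  have hΨ : ∀ p : k[X], Ψ (AdjoinRoot.mk _ p) = aeval (ze ζ) (p.map (algebraMap k kb)) :=
    fun p => by rw [← aeval_ze_map]; exact AdjoinRoot.lift_mk _ p
  refine g2 hk (locP P e) _ ?_ ((index_det_map_le (fac_units_surjective ha0 _) H).trans_lt hd) Ψ
    (ι : AdjoinRoot P →+* kb) (fun x => ?_) ?_ fun hg s hs => ?_
  · intro s hs
    obtain ⟨g, hg, rfl⟩ := h0 s hs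
    exact ⟨_, Subgroup.mem_map_of_mem _ hg, by rw [red_comp, hπ]⟩
  · obtain ⟨p, rfl⟩ := AdjoinRoot.mk_surjective x
    rw [hΨ, aeval_ze]
    change _ = ι (fac (dvd_pow_self P e.succ_ne_zero) (AdjoinRoot.mk _ p))
    rw [fac_mk, hι]
    simp
  · change Ψ (AdjoinRoot.mk _ P) ≠ 0
    rw [hΨ, aeval_ze]
    intro h'
    have h1 : (P.map (algebraMap k kb)).derivative.eval ζ = 0 := by simpa using congrArg snd h'
    have hs : (P.map (algebraMap k kb)).Separable := (PerfectField.separable_of_irreducible hP).map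
    exact hs.eval₂_derivative_ne_zero (RingHom.id kb) hz h1
  · obtain ⟨A, hA, rfl⟩ := exists_jet ζ s hs
    rw [← dn_hat]
    refine h _ hom_g2 ?_ A hA
    rintro _ ⟨B, ⟨g, hgH, hB⟩, rfl⟩
    rw [dn_hat]
    convert hg _ (Subgroup.mem_map_of_mem _ hgH) using 2
    rw [red_val, ← hB]
    ext1 i j
    simp only [pmap, Matrix.map_apply, fac_mk, hΨ]

end aux

theorem final_group (k kb : Type) [Field k] [Finite k] [Field kb] [Algebra k kb] [IsAlgClosed kb]
    [Algebra.IsAlgebraic k kb] {n : Type} [Fintype n] [DecidableEq n] [Nontrivial n] (C : ℕ)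
    (a : ℕ → k[X]) (H : ∀ i, Subgroup (GL n (AdjoinRoot (a i)))) (hm : ∀ i, (a i).Monic)
    (hdiv : ∀ b : k[X], b ≠ 0 → ∀ᶠ i in atTop, b ∣ a i)
    (hsq : ∀ i (P : k[X]), Irreducible P → P ∣ a i → P ^ 2 ∣ a i)
    (hdet : ∀ i, ((H i).map GeneralLinearGroup.det).index ≤ C) (hthin : ThinHyp k kb a H)
    (hloc : LocHyp k kb a H) (hthick : ThickHyp k kb a H) :
    ∃ N : ℕ, ∃ᶠ i in atTop, (H i).index ≤ N := by
  obtain ⟨d1, hA⟩ := assemble_block k n C
  obtain ⟨d2, h2⟩ := hthin (1 + 0 + (Fintype.card n - 1))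
  obtain ⟨d3, h3⟩ := hthin (g2deg (Fintype.card n))
  obtain ⟨d4, h4⟩ := hloc
  obtain ⟨s, hs, hs', hsb⟩ := exists_sqfree k (d1 + d2 + d3 + d4 + C + 3)
  obtain ⟨c, hc⟩ := small_group k kb C a H hm hdiv hdet hthick s hs hs'
  obtain ⟨N, hN⟩ := hA ((s ^ (c + 1)) ^ 5) (pow_ne_zero _ (pow_ne_zero _ hs.ne_zero))
  refine ⟨N, (hc.and_eventually (h2.and h3)).mono fun i ⟨hc, h2, h3⟩ => ?_⟩
  have ha0 := (hm i).ne_zero
  obtain ⟨b, c', hab, hbc, hb, hc'⟩ := exists_small_large ha0 (d1 + d2 + d3 + d4 + C + 3)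
  refine hN (a i) b c' ha0 hab hbc (H i) (hdet i)
    (fun P hP hd => by have := hc' P hP hd; omega) (fun P b' hP e ha hPm hPc hPb => ?_) ?_
  · have hdeg := hc' P hP.out hPc
    have hPa : P ∣ a i := (dvd_pow_self P e.succ_ne_zero).trans (Dvd.intro _ ha.symm)
    have hP2 := hsq i P hP.out hPa
    have he : e ≠ 0 := by
      rintro rfl
      rw [ha, zero_add, pow_one, sq] at hP2
      exact hPb ((mul_dvd_mul_iff_left hP.out.ne_zero).mp hP2)
    have hζ : ∀ ι : AdjoinRoot P →ₐ[k] kb, aeval (ι (AdjoinRoot.root P)) P = 0 := fun ι => by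
      rw [aeval_algHom_apply, AdjoinRoot.aeval_eq, AdjoinRoot.mk_self, map_zero]
    have h5 := h4 i P b' hPa (Dvd.intro_left _ ha.symm) hPm hP.out hPb (by omega) fun ι =>
      big_of_thin hPa ι rfl (h2 P hPm hP.out (by omega) hP2 _ (hζ ι))
    have h0 : HasSL ((H i).map (red (fac hPa))) := fun g hg =>
      Subgroup.map_mono inf_le_left (h5 g hg)
    have hq : P.natDegree < Nat.card k ^ P.natDegree := Nat.lt_pow_self Finite.one_lt_card
    have := finite_adjoinRoot hP.out.ne_zero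
    have : Module.Finite k (AdjoinRoot P) := Module.Finite.of_finite
    let ι : AdjoinRoot P →ₐ[k] kb := IsAlgClosed.lift
    refine ⟨h0, layer_of_thin he ha ha0 ι rfl (by omega) (by have := hdet i; omega) h0
      (h3 P hPm hP.out (by omega) hP2 _ (hζ ι)), ?_⟩
    obtain ⟨u, v, huv⟩ := exists_pair_ne n
    obtain ⟨g, ⟨hg, hg'⟩, e1⟩ := h5.roots huv 1 trivial
    refine ⟨g, hg, hg', fun hS => ?_⟩
    have := (scal_iff.mp hS).1 u v huv
    rw [← red_val, e1] at this
    simp [huv] at this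
  · have hb0 : b ≠ 0 := fun h => ha0 (by rw [hab, h, zero_mul])
    obtain ⟨e, he⟩ := hsb b hb0 hb
    have h6 := hc b (Dvd.intro _ hab.symm) ⟨e, he⟩
    rw [map_pow]
    refine roots_comm ?_ ?_ (h6.mono fun x hx => ?_)
    · by_cases h : (2 : k) = 0
      · right
        rw [← map_ofNat (algebraMap k (AdjoinRoot b)) 2, h, map_zero]
      · left
        rw [← map_ofNat (algebraMap k (AdjoinRoot b)) 2]
        exact (IsUnit.mk0 _ h).map _
    · refine ⟨e, ?_⟩
      rw [← map_pow, AdjoinRoot.mk_eq_zero, ← pow_mul, mul_comm, pow_mul]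
      exact he.trans (dvd_pow_self _ c.succ_ne_zero)
    · exact (_root_.map_dvd _ (pow_dvd_pow s c.le_succ)).trans hx

end Pool.Agent.Lib.MP_6adaea_nt.U
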