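import Pool.Agent.Lib.MP_6adaea_nt.U.RDefs
import Pool.Agent.Lib.MP_6adaea_nt.G.Goursat

/-!
Interface of the group block.
-/

set_option linter.unusedSectionVars false

namespace Pool.Agent.Lib.MP_6adaea_nt.U
open Matrix Polynomial G
open scoped TensorProduct

open Filter

variable (k kb : Type) [Field k] [Finite k] [Field kb] [Algebra k kb] [IsAlgClosed kb]
  [Algebra.IsAlgebraic k kb] {n : Type} [Fintype n] [DecidableEq n]

/-- density at the large primes -/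
def ThinHyp (a : ℕ → k[X]) (H : ∀ i, Subgroup (GL n (AdjoinRoot (a i)))) : Prop :=
  ∀ D, ∃ d, ∀ᶠ i in atTop, ∀ P : k[X], P.Monic → Irreducible P → d ≤ P.natDegree → P ^ 2 ∣ a i →
    ∀ ζ : kb, aeval ζ P = 0 → Dense D ![ζ, ζ] (hats ![ζ, ζ] (H i))

/-- the local input at the large primes -/
def LocHyp (a : ℕ → k[X]) (H : ∀ i, Subgroup (GL n (AdjoinRoot (a i)))) : Prop :=
  ∃ d, ∀ i (P b : k[X]) (hP : P ∣ a i) (hb : b ∣ a i), P.Monic → Irreducible P → ¬P ∣ b →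
    d ≤ P.natDegree →
    (∀ ι : AdjoinRoot P →ₐ[k] kb,
      Big (((H i).map (red (fac hP))).map (red (ι : AdjoinRoot P →+* kb)))) →
    HasSL ((H i ⊓ (red (fac hb)).ker).map (red (fac hP)))

/-- density at the small primes -/
def ThickHyp (a : ℕ → k[X]) (H : ∀ i, Subgroup (GL n (AdjoinRoot (a i)))) : Prop :=
  ∀ τ : Fin 2 → PowerSeries kb, Adm k τ →
    ∀ G : Submonoid (Matrix (n × Fin 2) (n × Fin 2) (PowerSeries kb)), (∀ g ∈ G, IsUnit g) →
    ∀ D, ¬Dense D τ (G : Set (Matrix (n × Fin 2) (n × Fin 2) (PowerSeries kb))) →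
    ∃ m, ∀ᶠ i in atTop, ∃ g ∈ hats τ (H i), ∀ h ∈ G, ¬XCong m g h

end Pool.Agent.Lib.MP_6adaea_nt.U
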