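import Pool.Agent.Lib.MP_6adaea_nt.T.LWild
import Pool.Agent.Lib.MP_6adaea_nt.T.LTor
import Pool.Agent.Lib.MP_6adaea_nt.T.Zero
import Pool.Agent.Lib.MP_6adaea_nt.G.Torus
import Pool.Agent.Lib.MP_6adaea_nt.G.Curve

/-!
Inertia at a large prime.
-/

set_option linter.unusedSectionVars false

namespace Pool.Agent.Lib.MP_6adaea_nt.U
open Matrix Polynomial G T
open scoped TensorProduct

variable {k kb K Ω : Type} [Field k] [Finite k] [Field kb] [Field K] [Field Ω] [Algebra k kb]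
  [Algebra k K] [Algebra k Ω] [Algebra kb K] [Algebra kb Ω] [Algebra K Ω]
  [IsScalarTower k kb K] [IsScalarTower k kb Ω] [IsScalarTower k K Ω] [IsScalarTower kb K Ω]
  [IsAlgClosed kb] [Algebra.IsAlgebraic k kb] [IsSepClosed Ω] [IsGalois K Ω] {θ : K} {r : ℕ}

theorem large_lift {φ : Ω →ₗ[k] Ω} {P : k[X]} {E : Coord φ P (Fin r)}
    {ρ : (Ω ≃ₐ[K] Ω) →* GL (Fin r) (AdjoinRoot P)} (hρ : IsRep E ρ) (ι : AdjoinRoot P →+* kb)
    {ζ : kb} (hι : ∀ c : k[X], ι (AdjoinRoot.mk P c) = aeval ζ c) (σ : Ω ≃ₐ[K] Ω) :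
    ∃ B : Matrix (Fin r) (Fin r) k[X], Act E σ B ∧ B.map (aeval ζ) = (ρ σ).val.map ι := by
  choose B hB using fun i j => AdjoinRoot.mk_surjective ((ρ σ).val i j)
  have e : (Matrix.of B).map (AdjoinRoot.mk P) = (ρ σ).val := by
    ext i j
    exact hB i j
  refine ⟨Matrix.of B, fun v => by rw [e]; exact hρ σ v, ?_⟩
  ext i j
  rw [Matrix.map_apply, Matrix.map_apply, Matrix.of_apply, ← hB, hι]

theorem large_unit {V : QVal Ω} {t : Ω} (ht : V.Ge t 0) {P b : k[X]} (h : IsCoprime P b)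
    (hP : V.Gt (aeval t P) 0) : ¬V.Gt (aeval t b) 0 := fun hb => by
  obtain ⟨u, w, e⟩ := h
  have h1 := ((ge_aeval ht u).mul_gt₀ hP).add ((ge_aeval ht w).mul_gt₀ hb)
  rw [← map_mul, ← map_mul, ← map_add, e, map_one] at h1
  simpa using h1.lt one_ne_zero

theorem large_top (V : QVal Ω) {W : Set Ω} (hW : W.Finite) {x0 : Ω} (h1 : x0 ∈ W) (h0 : x0 ≠ 0) :
    ∃ x ∈ W, x ≠ 0 ∧ ∀ y ∈ W, y ≠ 0 → V.ord y ≤ V.ord x := by
  obtain ⟨x, hx, hm⟩ := Set.exists_max_image {y ∈ W | y ≠ 0} V.ord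
    (hW.subset fun y hy => hy.1) ⟨x0, h1, h0⟩
  exact ⟨x, hx.1, hx.2, fun y hy hy' => hm y ⟨hy, hy'⟩⟩

/-- Let `h` be from `exists_zero_bound`, `D0 = n0 q r * h`, `B₁` from `torus (Fin r) D0 2 r !`,
`B₂` from `curve (Fin r) D0`, `d0 = B₁ + B₂ + D0 + 2`. Take a root `ζ` of `P` in `kb`, a zero `v`
of `θ - ζ` (`exists_zero`), `V` over `v` (`exists_qval`), so `rth kb V θ = ζ`, `γ` from
`exists_nm`, `ι = AdjoinRoot.liftAlgHom` at `ζ`. `aeval θ b` is a unit at `v` since `b`, `P` are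
coprime. Take a nonzero torsion point `x` of maximal order; it lies in the formal group by
`Nm.exists_small` (`all_ord`). Use `tor_data` with `torus` (`l = 1`, `card_adjoinRoot`,
`IsPrimitiveRoot.eq_orderOf`) or `wild_curve`, `good_fix` with `curve`. For `σ` choose a lift `B`
of `ρ σ`; then `Act E σ B` and `B.map (aeval ζ) = (ρ σ).val.map ι`. -/
theorem large_hasSL (hB : Base kb θ) (hr : 2 ≤ r) : ∃ d0 : ℕ, ∀ (D : DM k Ω θ r) (P b : k[X]),
    P.Monic → Irreducible P → b ≠ 0 → ¬P ∣ b → d0 ≤ P.natDegree →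
    ∀ (E : Coord D.φ P (Fin r)) (ρ : (Ω ≃ₐ[K] Ω) →* GL (Fin r) (AdjoinRoot P)), IsRep E ρ →
    ∀ H N : Subgroup (GL (Fin r) (AdjoinRoot P)), (∀ h ∈ H, ∀ ν ∈ N, h * ν * h⁻¹ ∈ N) →
    (∀ σ : Ω ≃ₐ[K] Ω, (∀ y, aeval D.φ b y = 0 → σ y = y) → ρ σ ∈ N) →
    (∀ ι : AdjoinRoot P →ₐ[k] kb, Big (H.map (red (ι : AdjoinRoot P →+* kb)))) → HasSL N := by
  obtain ⟨p, _, _, _, -⟩ := exists_char k kb
  have := hB.isFF
  have : Nontrivial (Fin r) := Fin.nontrivial_iff_two_le.mpr hr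
  obtain ⟨h, hh⟩ := exists_zero_bound (kb := kb) p θ
  obtain ⟨B₁, hB₁⟩ := torus (Fin r) (n0 (Nat.card k) r * h) 2 r.factorial
  obtain ⟨B₂, hB₂⟩ := curve (Fin r) (n0 (Nat.card k) r * h)
  refine ⟨B₁ + B₂ + n0 (Nat.card k) r * h + 2,
    fun D P b _ hP hb0 hPb hd E ρ hρ H N hN hfix hbig => ?_⟩
  have hr0 : 0 < r := by omega
  have hq : 1 < Nat.card k := Finite.one_lt_card
  have hQ : P.natDegree < Nat.card k ^ P.natDegree := Nat.lt_pow_self hq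
  have hdeg : 0 < P.natDegree := by omega
  obtain ⟨ζ, hζ⟩ := IsAlgClosed.exists_aeval_eq_zero kb P
    (natDegree_pos_iff_degree_pos.mp hdeg).ne'
  obtain ⟨v, hv⟩ := exists_zero p hB.tr ζ
  obtain ⟨V, hV⟩ := exists_qval Ω v
  have hres : V.HasRes kb := hV.hasRes
  have hgt : V.Gt (algebraMap K Ω θ - algebraMap kb Ω ζ) 0 := by
    rw [IsScalarTower.algebraMap_apply kb K Ω, ← map_sub]
    refine QVal.Gt.of_lt ?_
    rw [hV]
    exact_mod_cast hv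
  have hθ : V.Ge (algebraMap K Ω θ) 0 := by simpa using hgt.ge.add (hres.ge_const ζ)
  obtain rfl : rth kb V θ = ζ := hres.res_eq hgt
  obtain ⟨γ, hγ⟩ : ∃ γ, NmD D V γ := exists_nm k V hr0 (dm_ne D)
  have hord := ord_aeval_root hV hθ hP hζ
  have hPgt : V.Gt (aeval (algebraMap K Ω θ) P) 0 := by
    refine QVal.Gt.of_lt ?_
    rw [hord]
    exact_mod_cast hv
  have hbu : ¬V.Gt (aeval (algebraMap K Ω θ) b) 0 :=
    large_unit hθ (hP.coprime_iff_not_dvd.mpr hPb) hPgt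
  have hD : n0 (Nat.card k) r * V.ord (aeval (algebraMap K Ω θ) P) ≤
      (n0 (Nat.card k) r * h : ℕ) := by
    obtain ⟨Z, hZ, hZ'⟩ := hh (rth kb V θ)
    have h1 : Z v ≤ tot Z := by
      by_cases h2 : Z v = 0
      · omega
      · exact Finset.single_le_sum (f := fun a => Z a) (fun _ _ => Nat.zero_le _)
          (Finsupp.mem_support_iff.mpr h2)
    have h2 : v.ord (θ - algebraMap kb K (rth kb V θ)) ≤ h := by
      have := hZ v
      omega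
    rw [hord, Nat.cast_mul]
    exact mul_le_mul_of_nonneg_left (by exact_mod_cast h2) (Nat.cast_nonneg _)
  have hDQ : n0 (Nat.card k) r * h + 1 < Nat.card k ^ P.natDegree := by omega
  have : CharP Ω p := charP_of_injective_algebraMap (algebraMap k Ω).injective p
  have hu : ∃ u, u ≠ 0 ∧ V.ord u = -γ := by
    obtain ⟨t, ht, ht'⟩ := v.surj
    exact V.exists_ord_eq p ⟨algebraMap K Ω t, by simpa using ht, by rw [hV, ht', Int.cast_one]⟩ _
  obtain ⟨x0, hx0, hx0', hx0''⟩ := Nm.exists_small hres hγ D.dr (dm_ne D) (tr_theta hB) hθ hu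
    hP.ne_zero hPgt
  obtain ⟨x, hx, hx', htop⟩ := large_top V (tors_finite D.dr hr0 (dm_ne D) hP.ne_zero).1 hx0 hx0'
  have hxD : DpD V θ γ x := ⟨hθ, QVal.Gt.of_lt ((hx0''.lt hx0').trans_le (htop x0 hx0 hx0'))⟩
  have := Fact.mk hP
  have := finite_adjoinRoot hP.ne_zero
  have hc := card_adjoinRoot hP.ne_zero
  let ι : AdjoinRoot P →ₐ[k] kb := AdjoinRoot.liftAlgHom P (Algebra.ofId k kb) (rth kb V θ) hζ
  have hι : ∀ c : k[X], (ι : AdjoinRoot P →+* kb) (AdjoinRoot.mk P c) = aeval (rth kb V θ) c :=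
    fun c => AdjoinRoot.lift_mk (i := algebraMap k kb) hζ c
  by_cases hw : (∀ y ∈ tors D.φ P, DpD V θ γ y) ∧
      Nat.card (tors D.φ P ⊓ dG k V (V.ord x) : Submodule k Ω) = Nat.card k ^ P.natDegree
  · obtain ⟨c, hc1, hc2, hc3, hc4⟩ := wild_curve hB hr D hV hγ hP E hζ hw.1 htop hw.2 hD hDQ
    refine hB₂ (AdjoinRoot P) kb ι (by omega) H N hN (hbig ι) c hc1 (fun y => ?_) hc3 hc4
    obtain ⟨σ, hσ, h1, h2⟩ := hc2 (ι y) (by
      have := Fintype.ofFinite (AdjoinRoot P)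
      rw [← map_pow, ← hc, Nat.card_eq_fintype_card, FiniteField.pow_card])
    obtain ⟨B, hB1, hB2⟩ := large_lift hρ _ hι σ
    exact ⟨ρ σ, hfix σ fun z hz => good_fix hB hr0 D hV hγ hdeg hw.1 hbu hσ h1 hz,
      (h2 B hB1).symm.trans hB2⟩
  · obtain ⟨σ, ω, h1, h2, h3⟩ := tor_data hB hr0 D hV hγ hP E hζ hbu hx hx' hxD htop hw hD hDQ
    obtain ⟨B, hB1, hB2⟩ := large_lift hρ _ hι σ
    obtain ⟨h4, ε, ε', h5, h6, h7⟩ := h3 B hB1
    rw [hB2] at h4 h6 h7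
    refine hB₁ (AdjoinRoot P) kb ι (by omega) H N hN (hbig ι) (ρ σ) (hfix σ h1) ω 1
      (by rw [hc]; exact h2.pow_eq_one) ?_ (fun μ hμ => ?_) ε ε' h5 h6 h7
    · have h8 : 1 < (Nat.card k ^ P.natDegree) ^ r.factorial :=
        Nat.one_lt_pow r.factorial_ne_zero (by omega)
      rw [← h2.eq_orderOf, hc]
      omega
    · obtain ⟨e, he1, he2⟩ := h4 μ hμ
      exact ⟨e, he1, by rw [hc, one_mul, he2]⟩

end Pool.Agent.Lib.MP_6adaea_nt.U
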