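import Pool.Agent.Lib.MP_6adaea_nt.T.H90
import Pool.Agent.Lib.MP_6adaea_nt.T.QU
import Pool.Agent.Lib.MP_6adaea_nt.T.Poly2
import Pool.Agent.Lib.MP_6adaea_nt.T.Zero

/-!
Lattices in thick windows.
-/

set_option linter.unusedSectionVars false

namespace Pool.Agent.Lib.MP_6adaea_nt.U
open Matrix Polynomial G T
open scoped TensorProduct

variable {k kb K Ω : Type} [Field k] [Finite k] [Field kb] [Field K] [Field Ω] [Algebra k kb]
  [Algebra k K] [Algebra k Ω] [Algebra kb K] [Algebra kb Ω] [Algebra K Ω]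
  [IsScalarTower k kb K] [IsScalarTower k kb Ω] [IsScalarTower k K Ω] [IsScalarTower kb K Ω]
  [IsAlgClosed kb] [Algebra.IsAlgebraic k kb] [IsSepClosed Ω] [IsGalois K Ω] {θ : K} {r : ℕ}

theorem latk_gal_one {S : Type} [CommRing S] [Algebra kb S] (x : Ω ⊗[kb] S) :
    gal kb S (1 : Ω ≃ₐ[K] Ω) x = x := by
  induction x using TensorProduct.induction_on with
  | zero => exact map_zero _
  | tmul y s => rw [gal_tmul, AlgEquiv.one_apply]
  | add x y hx hy => rw [map_add, hx, hy]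

/-- the bounds transfer to a conjugate valuation -/
theorem latk_conj {S : Type} [CommRing S] [Algebra kb S] [Module.Finite kb S] {z z' : Ω ⊗[kb] S}
    (h : z * z' = 1) (hz : ∀ σ : Ω ≃ₐ[K] Ω, ∃ χ : S, gal kb S σ z = (1 ⊗ₜ χ) * z)
    {v : Place kb K} {V V' : Val kb Ω} (hV : V.Over v) (hV' : V'.Over v) (u u' : K ⊗[kb] S)
    {a b : ℚ} (h1 : V.GGe (z * inc S K Ω u') a) (h2 : V.GGe (z' * inc S K Ω u) b) :
    V'.GGe (z * inc S K Ω u') a ∧ V'.GGe (z' * inc S K Ω u) b := by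
  obtain ⟨σ, hσ⟩ := Val.conj hV hV'
  obtain ⟨χ, hχ⟩ := hz σ
  obtain ⟨χ', hχ'⟩ := hz σ⁻¹
  have one : ∀ s : S, V'.GGe ((1 : Ω) ⊗ₜ[kb] s) 0 := fun s =>
    gge_tmul (Or.inr (Val.ord_one (V := V')).ge) s
  have e1 : z = (1 ⊗ₜ χ') * gal kb S σ z := by
    have e := congrArg (gal kb S σ) hχ'
    rwa [← gal_mul, mul_inv_cancel, latk_gal_one, map_mul, gal_tmul, map_one] at e
  have e2 : z' = (1 ⊗ₜ χ) * gal kb S σ z' := by
    have e := congrArg (gal kb S σ) h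
    rw [map_mul, map_one, hχ] at e
    linear_combination (-z') * e + ((1 ⊗ₜ χ) * gal kb S σ z') * h
  constructor
  · have h3 := gge_mul (one χ') (gge_gal hσ h1)
    rwa [map_mul, gal_inc, ← mul_assoc, ← e1, zero_add] at h3
  · have h3 := gge_mul (one χ) (gge_gal hσ h2)
    rwa [map_mul, gal_inc, ← mul_assoc, ← e2, zero_add] at h3

/-- torsion points of the formal group have bounded order -/
theorem latk_ord [IsFF kb K] (hB : Base kb θ) (D : DM k Ω θ r) {v : Place kb K} {V : QVal Ω}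
    (hV : V.Over v) {γ : ℚ} (hN : NmD D V γ) {a : k[X]} (ha : a ≠ 0) {y : Ω} (h0 : y ≠ 0)
    (hy : y ∈ tors D.φ a) (hD : DpD V θ γ y) : V.ord y + γ ≤ v.ord (aeval θ a) := by
  obtain ⟨p, _, _, _, -⟩ := exists_char k Ω
  obtain ⟨t, ht0, ht⟩ := v.surj
  have hs := V.exists_ord_eq p
    ⟨algebraMap K Ω t, (_root_.map_ne_zero _).mpr ht0, by simp [hV t, ht]⟩
  have h1 := Nm.sum_le (kb := kb) hV.hasRes hN D.dr hD.1 (hs (-γ)) ha {y}
    (fun y' hy' => by
      rw [Finset.mem_singleton.1 hy']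
      exact ⟨h0, hy, hD.2.ge⟩)
  have h2 := h1.le fun e => tr_theta (k := k) (Ω := Ω) hB ⟨a, ha, e⟩
  rwa [Finset.sum_singleton, aeval_algebraMap_apply, hV] at h2

/-- `N = n0 q r`, `p ^ e ≥ r * (r + 1) ^ 2 + 2`. Let `Z` be the divisor of zeros of `aeval θ a`
(`exists_zdiv`), `n = q ^ (r * deg a)`, `η v = m * n ^ n * Z v`. Fix `v`, one `V` over `v`
(`exists_val`), `γ` from `exists_nm`, and let `Y` be the finset of `a`-torsion points in the
formal group (`DpD`). For `y ∈ Y` nonzero `0 < ord y + γ ≤ ord (aeval θ a) ≤ Z v` (`Nm.sum_le` for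
a singleton), so `hb` of `h90` holds with `β = Z v`; `qu_fix` gives the hypothesis on `χ`. Apply
`approx_unit` to `z * b'` and `z' * b`. Another `V'` over `v` is conjugate (`Val.conj`), and
`gal σ z = (1 ⊗ χ) * z`, `gal σ z' = (1 ⊗ χ') * z'` (take `χ'` from `σ⁻¹`), so the bounds transfer
(`gge_gal`, `gal_inc`, `gge_mul` with the inverse scalars). -/
theorem lat_thick (hB : Base kb θ) (hr : 0 < r) : ∃ N e : ℕ, (N : k) ≠ 0 ∧
    ∀ (a : k[X]) (m : ℕ), a.Monic → ∃ C : ℚ, ∀ (D : DM k Ω θ r) (S : Type) [CommRing S]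
      [Algebra kb S] [Module.Finite kb S] (x0 : S →ₐ[kb] kb), RingHom.ker x0 ^ m = ⊥ →
      ∀ z z' : Ω ⊗[kb] S, z * z' = 1 →
      (∀ σ : Ω ≃ₐ[K] Ω, ∃ χ : S, gal kb S σ z = (1 ⊗ₜ χ) * z ∧
        ((∀ y, aeval D.φ a y = 0 → (σ ^ (N * ringChar k ^ e)) y = y) →
          ∃ c : kb, χ = algebraMap kb S c)) →
      ∃ η : Place kb K →₀ ℚ, tot η ≤ C ∧ Lat z z' η := by
  classical
  obtain ⟨p, _, _, _, -⟩ := exists_char k kb
  have := hB.isFF
  refine ⟨n0 (Nat.card k) r, r * (r + 1) ^ 2 + 2, n0_ne k k r, fun a m ha => ?_⟩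
  have he : r * (r + 1) ^ 2 + 2 ≤ ringChar k ^ (r * (r + 1) ^ 2 + 2) := by
    rw [ringChar.eq k p]
    exact (Nat.lt_pow_self (Fact.out : p.Prime).one_lt).le
  obtain ⟨Z, hZ⟩ := exists_zdiv (kb := kb) p (aeval θ a)
  let n : ℕ := Nat.card k ^ (r * a.natDegree)
  let η : Place kb K →₀ ℚ :=
    Z.mapRange (fun x : ℕ => (m : ℚ) * ((n ^ n : ℕ) * (x : ℚ))) (by simp)
  refine ⟨tot η, fun D S _ _ _ x0 hm z z' h hz => ⟨η, le_rfl, fun v => ?_, fun v => ?_⟩⟩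
  · rw [Finsupp.mapRange_apply]
    positivity
  obtain ⟨V, hV⟩ := exists_val (Ω := Ω) v
  obtain ⟨γ, hN⟩ := exists_nm k (g := fun i => algebraMap K Ω (D.g i)) V.toQ hr (dm_ne D)
  obtain ⟨hfin, hcard⟩ := tors_finite D.dr hr (dm_ne D) ha.ne_zero
  let Y : Finset Ω := hfin.toFinset.filter (DpD V.toQ θ γ)
  have hY : ∀ y, y ∈ Y ↔ y ∈ tors D.φ a ∧ DpD V.toQ θ γ y := fun y => by
    rw [Finset.mem_filter, Set.Finite.mem_toFinset, SetLike.mem_coe]
  have hYσ : ∀ σ ∈ V.inert K, ∀ y ∈ Y, σ y ∈ Y := fun σ hσ y hy =>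
    (hY _).2 ⟨aut_tors D σ ((hY y).1 hy).1, ((hY y).1 hy).2.1,
      (QVal.gt_stab (V := V.toQ) hσ).2 ((hY y).1 hy).2.2⟩
  have hYc : Y.card ≤ n := by
    refine (Finset.card_filter_le _ _).trans (le_trans (le_of_eq ?_) hcard)
    rw [← Set.ncard_eq_toFinset_card _ hfin]
    rfl
  have hn : 0 < n := pow_pos Nat.card_pos _
  have hYn : ((Y.card ^ Y.card : ℕ) : ℚ) ≤ (n ^ n : ℕ) :=
    Nat.cast_le.2 ((Nat.pow_le_pow_left hYc _).trans (Nat.pow_le_pow_right hn hYc))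
  obtain ⟨b, b', c, hb, hfix, h1, h2⟩ := h90 (V := V) x0 hm (V.inert K) le_rfl Y hYσ
    (β := Z v) (Nat.cast_nonneg _) (fun σ hσ y hy hne => by
      obtain ⟨t1, t2⟩ := (hY y).1 hy
      obtain ⟨t3, t4⟩ := (hY _).1 (hYσ σ hσ y hy)
      have t5 := latk_ord hB D (V := V.toQ) hV hN ha.ne_zero (sub_ne_zero.2 hne) (sub_mem t3 t1)
        ⟨t2.1, t4.2.sub t2.2⟩
      have t6 := t2.2.lt (by rintro rfl; exact hne (map_zero σ))
      have t7 : ((v.ord (aeval θ a) : ℤ) : ℚ) ≤ Z v := by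
        have : v.ord (aeval θ a) ≤ Z v := (hZ v).ge.trans' (le_max_right _ _)
        exact_mod_cast this
      rw [Val.toQ_ord] at t5 t6
      linarith) h (fun σ hσ => by
      obtain ⟨χ, e, hχ⟩ := hz σ
      exact ⟨χ, e, fun hf => hχ fun y hy => qu_fix D hr (V := V.toQ) hV hN hσ ha.ne_zero
        (fun y t1 t2 => hf y ((hY y).2 ⟨t1, t2⟩)) he hy⟩)
  obtain ⟨u, u', hu, h3, h4⟩ := approx_unit p hV (z := z * b') (z' := z' * b)
    (by linear_combination (b * b') * h + hb) hfix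
  refine ⟨u, u', hu, fun V' hV' => ⟨c, latk_conj h (fun σ => (hz σ).imp fun _ t => t.1) hV hV' u u'
    ?_ ?_⟩⟩
  all_goals
    have hη : m * (((Y.card ^ Y.card : ℕ) : ℚ) * Z v) ≤ η v := by
      rw [Finsupp.mapRange_apply]
      gcongr
  · have h5 := gge_mul h3 h1
    rw [show z * b' * inc S K Ω u' * b = z * inc S K Ω u' by
      linear_combination (z * inc S K Ω u') * hb] at h5
    exact gge_mono h5 (by linarith)
  · have h5 := gge_mul h4 h2
    rw [show z' * b * inc S K Ω u * b' = z' * inc S K Ω u by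
      linear_combination (z' * inc S K Ω u) * hb] at h5
    exact gge_mono h5 (by linarith)

end Pool.Agent.Lib.MP_6adaea_nt.U
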