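import Pool.Agent.Lib.MP_6adaea_nt.U.RDefs

/-!
Basic facts on `hat`, `ten`, `rep`.
-/

set_option linter.unusedSectionVars false

namespace Pool.Agent.Lib.MP_6adaea_nt.U
open Matrix Polynomial G
open scoped TensorProduct

variable {S S' : Type} [CommRing S] [CommRing S'] {n ι : Type} [Fintype n] [DecidableEq n]
  [Fintype ι] [DecidableEq ι]


theorem qd_monic (t : Fin 2 → S) : (qd t).Monic := (monic_X_sub_C _).mul (monic_X_sub_C _)

theorem qd_map (f : S →+* S') (t : Fin 2 → S) : (qd t).map f = qd fun i => f (t i) := by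
  simp [qd]

private lemma repl_lin (t : Fin 2 → S) (f : S[X]) :
    ∃ (c0 c1 : S) (q : S[X]), f = qd t * q + (C c0 + C c1 * X) := by
  obtain ⟨g, hg⟩ := X_sub_C_dvd_sub_C_eval (a := t 0) (p := f)
  obtain ⟨q, hq⟩ := X_sub_C_dvd_sub_C_eval (a := t 1) (p := g)
  refine ⟨f.eval (t 0) - t 0 * g.eval (t 1), g.eval (t 1), q, ?_⟩
  rw [qd, map_sub, map_mul]
  linear_combination hg + (X - C (t 0)) * hq

private lemma repl_ae (t : Fin 2 → S) (c0 c1 : S) (q : S[X]) :
    aeval (cm t) (qd t * q + (C c0 + C c1 * X)) = !![c0 + c1 * t 0, 0; c1, c0 + c1 * t 1] := by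
  have h : aeval (cm t) (qd t) = 0 := by
    rw [qd, map_mul, map_sub, map_sub, aeval_X, aeval_C, aeval_C]
    ext i j
    fin_cases i <;> fin_cases j <;>
      simp [cm, Matrix.mul_apply, Fin.sum_univ_two, Matrix.algebraMap_matrix_apply]
  rw [map_add, map_mul, h, zero_mul, zero_add, map_add, map_mul, aeval_X, aeval_C, aeval_C,
    ← Algebra.smul_def]
  ext i j
  fin_cases i <;> fin_cases j <;> simp [cm, Matrix.algebraMap_matrix_apply]

private lemma repl_pow {σ : Type} (t : Fin 2 → MvPolynomial σ S) {d1 : ℕ}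
    (ht : ∀ i, (t i).totalDegree ≤ d1) (m : ℕ) (i j : Fin 2) :
    ((cm t ^ m) i j).totalDegree ≤ m * d1 := by
  have h1 : ∀ i j, (cm t i j).totalDegree ≤ d1 := fun i j => by
    fin_cases i <;> fin_cases j <;> simp [cm, ht]
  induction m generalizing i j with
  | zero =>
    rw [pow_zero, Matrix.one_apply]
    split_ifs <;> simp
  | succ m ih =>
    rw [pow_succ, Matrix.mul_apply, Nat.succ_mul]
    exact MvPolynomial.totalDegree_finsetSum_le fun l _ =>
      (MvPolynomial.totalDegree_mul _ _).trans (add_le_add (ih i l) (h1 l j))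

/-- divide by the monic polynomial `qd t`; the remainder is `c0 + c1 * X` -/
theorem aeval_cm_eq_zero_iff (t : Fin 2 → S) (f : S[X]) : aeval (cm t) f = 0 ↔ qd t ∣ f := by
  obtain ⟨c0, c1, q, rfl⟩ := repl_lin t f
  refine ⟨fun h => ?_, fun ⟨g, hg⟩ => ?_⟩
  · rw [repl_ae] at h
    have h1 : c1 = 0 := congrFun (congrFun h 1) 0
    have h0 : c0 + c1 * t 0 = 0 := congrFun (congrFun h 0) 0
    rw [h1, zero_mul, add_zero] at h0
    simp [h0, h1]
  · have := repl_ae t 0 0 g
    rw [hg]
    simp only [map_zero, zero_mul, add_zero] at this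
    rw [this]
    ext i j
    fin_cases i <;> fin_cases j <;> rfl

theorem exists_lin (t : Fin 2 → S) (f : S[X]) : ∃ c0 c1 : S, qd t ∣ f - (C c0 + C c1 * X) := by
  obtain ⟨c0, c1, q, rfl⟩ := repl_lin t f
  exact ⟨c0, c1, q, add_sub_cancel_right _ _⟩

theorem aeval_cm_00 (t : Fin 2 → S) (f : S[X]) : aeval (cm t) f 0 0 = f.eval (t 0) := by
  obtain ⟨c0, c1, q, rfl⟩ := repl_lin t f
  rw [repl_ae]
  simp [qd]

theorem aeval_cm_11 (t : Fin 2 → S) (f : S[X]) : aeval (cm t) f 1 1 = f.eval (t 1) := by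
  obtain ⟨c0, c1, q, rfl⟩ := repl_lin t f
  rw [repl_ae]
  simp [qd]

theorem aeval_cm_01 (t : Fin 2 → S) (f : S[X]) : aeval (cm t) f 0 1 = 0 := by
  obtain ⟨c0, c1, q, rfl⟩ := repl_lin t f
  rw [repl_ae]
  rfl

theorem aeval_cm_10 (t : Fin 2 → S) (f : S[X]) :
    (t 0 - t 1) * aeval (cm t) f 1 0 = f.eval (t 0) - f.eval (t 1) := by
  obtain ⟨c0, c1, q, rfl⟩ := repl_lin t f
  rw [repl_ae]
  simp [qd]
  ring

theorem aeval_cm_10' (z : S) (f : S[X]) : aeval (cm ![z, z]) f 1 0 = f.derivative.eval z := by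
  obtain ⟨c0, c1, q, rfl⟩ := repl_lin ![z, z] f
  rw [repl_ae]
  simp [qd, derivative_mul]

theorem pmap_mul (f : S →+* S') (A B : Matrix n n S[X]) : pmap f (A * B) = pmap f A * pmap f B := by
  exact Matrix.map_mul (f := mapRingHom f)

theorem pmap_one (f : S →+* S') : pmap f (1 : Matrix n n S[X]) = 1 := by
  exact Matrix.map_one _ (Polynomial.map_zero f) (Polynomial.map_one f)

theorem pmap_pow (f : S →+* S') (A : Matrix n n S[X]) (m : ℕ) : pmap f (A ^ m) = pmap f A ^ m := by
  induction m with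
  | zero => exact pmap_one f
  | succ m ih => rw [pow_succ, pow_succ, pmap_mul, ih]

theorem pmap_pmap {S'' : Type} [CommRing S''] (f : S →+* S') (g : S' →+* S'')
    (A : Matrix n n S[X]) : pmap g (pmap f A) = pmap (g.comp f) A := by
  exact Matrix.ext fun i j => Polynomial.map_map f g _

theorem pmap_id (A : Matrix n n S[X]) : pmap (RingHom.id S) A = A := by
  exact Matrix.ext fun i j => Polynomial.map_id

theorem pmap_det (f : S →+* S') (A : Matrix n n S[X]) : (pmap f A).det = A.det.map f := by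
  exact ((mapRingHom f).map_det A).symm

theorem pmap_el (f : S →+* S') (a b : n) (x : S[X]) : pmap f (el a b x) = el a b (x.map f) := by
  ext1 i j
  simp [pmap, el, Matrix.one_apply, Matrix.single_apply, apply_ite (Polynomial.map f)]

theorem pmap_elc {F : Type} [CommRing F] [Algebra F S] [Algebra F S'] (f : S →+* S')
    (hf : ∀ c : F, f (algebraMap F S c) = algebraMap F S' c) (a b : n) (c0 c1 : F) :
    pmap f (elc S a b c0 c1) = elc S' a b c0 c1 := by
  simp [elc, pmap_el, hf]

theorem el_mul {a b : n} (h : a ≠ b) (x y : S[X]) : el a b x * el a b y = el a b (x + y) := by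
  simp only [el, mul_add, add_mul, one_mul, mul_one, single_add]
  rw [single_mul_single_of_ne _ _ _ _ h.symm]
  abel

theorem el_zero (a b : n) : el a b (0 : S[X]) = 1 := by
  simp [el]

theorem el_det {a b : n} (h : a ≠ b) (x : S[X]) : (el a b x).det = 1 := by
  exact det_transvection_of_ne a b h x

theorem Cong.refl (a : S[X]) (A : Matrix n n S[X]) : Cong a A A := by
  exact fun i j => by simp

theorem Cong.symm {a : S[X]} {A B : Matrix n n S[X]} (h : Cong a A B) : Cong a B A := by
  exact fun i j => dvd_sub_comm.1 (h i j)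

theorem Cong.trans {a : S[X]} {A B D : Matrix n n S[X]} (h : Cong a A B) (h' : Cong a B D) :
    Cong a A D := by
  exact fun i j => by simpa using dvd_add (h i j) (h' i j)

theorem Cong.mul {a : S[X]} {A B A' B' : Matrix n n S[X]} (h : Cong a A A') (h' : Cong a B B') :
    Cong a (A * B) (A' * B') := by
  intro i j
  rw [Matrix.mul_apply, Matrix.mul_apply, ← Finset.sum_sub_distrib]
  refine Finset.dvd_sum fun l _ => ?_
  rw [show A i l * B l j - A' i l * B' l j =
    (A i l - A' i l) * B l j + A' i l * (B l j - B' l j) by ring]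
  exact dvd_add ((h i l).mul_right _) ((h' l j).mul_left _)

theorem Cong.of_dvd {a b : S[X]} {A B : Matrix n n S[X]} (hb : b ∣ a) (h : Cong a A B) :
    Cong b A B := fun i j => hb.trans (h i j)

theorem Cong.pmap {a : S[X]} {A B : Matrix n n S[X]} (h : Cong a A B) (f : S →+* S') :
    Cong (a.map f) (pmap f A) (pmap f B) := by
  intro i j
  simpa [U.pmap] using Polynomial.map_dvd f (h i j)

theorem Cong.det {a : S[X]} {A B : Matrix n n S[X]} (h : Cong a A B) : a ∣ A.det - B.det := by
  rw [← AdjoinRoot.mk_eq_mk, RingHom.map_det, RingHom.map_det]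
  exact congrArg _ (Matrix.ext fun i j => AdjoinRoot.mk_eq_mk.2 (h i j))

theorem cong_iff_map {a : S[X]} {A B : Matrix n n S[X]} :
    Cong a A B ↔ A.map (AdjoinRoot.mk a) = B.map (AdjoinRoot.mk a) := by
  exact ⟨fun h => Matrix.ext fun i j => AdjoinRoot.mk_eq_mk.2 (h i j),
    fun h i j => AdjoinRoot.mk_eq_mk.1 (congrFun (congrFun h i) j)⟩

theorem cong_el {a x y : S[X]} (h : a ∣ x - y) (i j : n) : Cong a (el i j x) (el i j y) := by
  intro l m
  simp only [el, Matrix.add_apply, add_sub_add_left_eq_sub, Matrix.single_apply]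
  split_ifs
  · exact h
  · simp

theorem hat_one (t : Fin 2 → S) : hat t (1 : Matrix n n S[X]) = 1 := by
  ext x y
  simp only [hat, of_apply, Matrix.one_apply, Prod.ext_iff]
  by_cases h : x.1 = y.1 <;> simp [h, Matrix.one_apply]

theorem hat_mul (t : Fin 2 → S) (A B : Matrix n n S[X]) : hat t (A * B) = hat t A * hat t B := by
  ext x y
  simp only [hat, of_apply, Matrix.mul_apply, map_sum, map_mul, Matrix.sum_apply,
    Fintype.sum_prod_type]

theorem hat_add (t : Fin 2 → S) (A B : Matrix n n S[X]) : hat t (A + B) = hat t A + hat t B := by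
  ext x y
  simp [hat]

theorem hat_map (f : S →+* S') (t : Fin 2 → S) (A : Matrix n n S[X]) :
    (hat t A).map f = hat (fun i => f (t i)) (pmap f A) := by
  ext x y
  simp only [hat, pmap, of_apply, Matrix.map_apply]
  obtain ⟨c0, c1, q, h⟩ := repl_lin t (A x.1 y.1)
  rw [h, repl_ae, Polynomial.map_add, Polynomial.map_mul, Polynomial.map_add, Polynomial.map_mul,
    map_C, map_C, map_X, qd_map, repl_ae]
  generalize x.2 = i
  generalize y.2 = j
  fin_cases i <;> fin_cases j <;> simp

theorem hat_congr {t : Fin 2 → S} {A B : Matrix n n S[X]} (h : Cong (qd t) A B) :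
    hat t A = hat t B := by
  ext x y
  have := (aeval_cm_eq_zero_iff t _).2 (h x.1 y.1)
  rw [map_sub, sub_eq_zero] at this
  simp only [hat, of_apply, this]

theorem ten_one (M : ℕ) : ten M (1 : Matrix ι ι S) = 1 := by
  ext j j'
  simp only [ten, of_apply, Matrix.one_apply, funext_iff]
  rw [Finset.prod_ite_zero]
  simp

theorem ten_mul (M : ℕ) (g h : Matrix ι ι S) : ten M (g * h) = ten M g * ten M h := by
  ext j j'
  simp only [ten, of_apply, Matrix.mul_apply, ← Finset.prod_mul_distrib]
  rw [Fintype.prod_sum]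

theorem ten_map (f : S →+* S') (M : ℕ) (g : Matrix ι ι S) :
    (ten M g).map f = ten M (g.map f) := by
  ext j j'
  simp [ten]

theorem ten_smul (M : ℕ) (c : S) (g : Matrix ι ι S) : ten M (c • g) = c ^ M • ten M g := by
  ext j j'
  simp [ten, Finset.prod_mul_distrib]

theorem rep_one (M : ℕ) (t : Fin 2 → S) : rep M t (1 : Matrix n n S[X]) = 1 := by
  rw [rep, hat_one, ten_one]

theorem rep_mul (M : ℕ) (t : Fin 2 → S) (A B : Matrix n n S[X]) :
    rep M t (A * B) = rep M t A * rep M t B := by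
  rw [rep, hat_mul, ten_mul, rep, rep]

theorem rep_pow (M : ℕ) (t : Fin 2 → S) (A : Matrix n n S[X]) (m : ℕ) :
    rep M t (A ^ m) = rep M t A ^ m := by
  induction m with
  | zero => exact rep_one M t
  | succ m ih => rw [pow_succ, pow_succ, rep_mul, ih]

theorem rep_map (f : S →+* S') (M : ℕ) (t : Fin 2 → S) (A : Matrix n n S[X]) :
    (rep M t A).map f = rep M (fun i => f (t i)) (pmap f A) := by
  rw [rep, ten_map, hat_map, rep]

theorem rep_congr (M : ℕ) {t : Fin 2 → S} {A B : Matrix n n S[X]} (h : Cong (qd t) A B) :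
    rep M t A = rep M t B := by
  rw [rep, hat_congr h, rep]

/-- if all coefficients have total degree at most `d0`, the degree is at most `d` and the `t i`
have total degree at most one -/
theorem rep_deg {σ : Type} (M : ℕ) (t : Fin 2 → MvPolynomial σ S) {d1 : ℕ}
    (ht : ∀ i, (t i).totalDegree ≤ d1) (A : Matrix n n (MvPolynomial σ S)[X]) {d0 d : ℕ}
    (h0 : ∀ i j m, ((A i j).coeff m).totalDegree ≤ d0) (h : ∀ i j, (A i j).natDegree ≤ d)
    (j j' : JJ n M) : (rep M t A j j').totalDegree ≤ M * (d0 + d * d1) := by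
  have key : ∀ x y, (hat t A x y).totalDegree ≤ d0 + d * d1 := fun x y => by
    simp only [hat, of_apply]
    rw [aeval_eq_sum_range (p := A x.1 y.1), Matrix.sum_apply]
    refine MvPolynomial.totalDegree_finsetSum_le fun m hm => ?_
    rw [Matrix.smul_apply, smul_eq_mul]
    exact (MvPolynomial.totalDegree_mul _ _).trans (add_le_add (h0 _ _ m)
      ((repl_pow t ht m _ _).trans (Nat.mul_le_mul_right _
        ((Nat.lt_succ_iff.1 (Finset.mem_range.1 hm)).trans (h _ _)))))
  refine (MvPolynomial.totalDegree_finsetProd Finset.univ fun a => hat t A (j a) (j' a)).trans ?_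
  simpa using Finset.sum_le_card_nsmul Finset.univ _ _ fun a _ => key (j a) (j' a)

end Pool.Agent.Lib.MP_6adaea_nt.U
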