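import Pool.Agent.Lib.MP_6adaea_nt.U.Defs2
import Pool.Agent.Lib.MP_6adaea_nt.U.RepL
import Pool.Agent.Lib.MP_6adaea_nt.U.RDefsEq

/-!
The Frobenius matrix.
-/

set_option linter.unusedSectionVars false

namespace Pool.Agent.Lib.MP_6adaea_nt.U
open Matrix Polynomial G
open scoped TensorProduct

variable {k kb K : Type} [Field k] [Finite k] [Field kb] [Field K] [Algebra k K] [Algebra kb K]
  {θ : K} {r : ℕ} {g : ℕ → K}

private theorem psi_Phi_deg (i j : Fin r) : (Phi θ r g i j).natDegree ≤ 1 := by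
  simp only [Phi, of_apply]
  split_ifs
  · exact (natDegree_C_mul_le _ _).trans (natDegree_X_sub_C_le _)
  · exact (natDegree_C_mul_le _ _).trans (by simp)
  · simp
  · simp

theorem Phit_deg (c : ℕ) (i j : Fin r) : (Phit k θ r g c i j).natDegree ≤ c := by
  induction c generalizing i j with
  | zero =>
    rw [Phit, one_apply]
    split_ifs <;> simp
  | succ c ih =>
    rw [Phit, mul_apply]
    exact natDegree_sum_le_of_forall_le _ _ fun m _ => natDegree_mul_le.trans
      (add_le_add (natDegree_map_le.trans (ih i m)) (psi_Phi_deg m j))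

/-- the adjugate of the companion matrix, up to a constant -/
private noncomputable def psiA (θ : K) (r : ℕ) (g : ℕ → K) : Matrix (Fin r) (Fin r) K[X] :=
  Matrix.of fun i m => if (i : ℕ) = 0 then C (g (m + 1)) else if (m : ℕ) + 1 = i then X - C θ else 0

private theorem psi_A_deg (i j : Fin r) : (psiA θ r g i j).natDegree ≤ 1 := by
  simp only [psiA, of_apply]
  split_ifs
  · simp
  · exact natDegree_X_sub_C_le _
  · simp

private theorem psi_A_mul (hg : g r ≠ 0) :
    psiA θ r g * Phi θ r g = (X - C θ : K[X]) • (1 : Matrix (Fin r) (Fin r) K[X]) := by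
  refine Matrix.ext fun i j => ?_
  obtain ⟨s, rfl⟩ : ∃ s, r = s + 1 := ⟨r - 1, by have := i.2; omega⟩
  rw [mul_apply, Matrix.smul_apply, one_apply, smul_eq_mul]
  simp only [psiA, Phi, of_apply]
  induction i using Fin.cases with
  | zero =>
    simp only [Fin.val_zero, if_true]
    rw [Fin.sum_univ_castSucc]
    simp only [Fin.val_last, if_true, Fin.val_castSucc]
    rw [← mul_assoc, ← C_mul, mul_inv_cancel₀ hg, C_1, one_mul]
    induction j using Fin.cases with
    | zero =>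
      rw [Finset.sum_eq_zero fun m _ => by
        rw [if_neg (by have := m.2; omega), if_neg (by simp), mul_zero]]
      simp
    | succ j =>
      rw [Finset.sum_eq_single j (fun m _ hm => by
        rw [if_neg (by have := m.2; omega), if_neg (by simpa [Fin.ext_iff] using hm), mul_zero])
        (by simp), if_neg (by have := j.2; omega), if_pos (by simp), if_neg (by simp),
        if_neg (Fin.succ_ne_zero j).symm]
      simp
  | succ i =>
    simp only [Fin.val_succ, Nat.add_one_ne_zero, if_false]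
    rw [Finset.sum_eq_single i.castSucc (fun m _ hm => by
      rw [if_neg (by simpa [Fin.ext_iff] using hm), zero_mul]) (by simp)]
    simp only [Fin.val_castSucc, if_true]
    rw [if_neg (by have := i.2; omega)]
    simp only [Fin.ext_iff, Fin.val_succ]

private theorem psi_pmap_smul {S S' n : Type} [CommRing S] [CommRing S'] [Fintype n]
    [DecidableEq n] (f : S →+* S') (p : S[X]) :
    pmap f (p • (1 : Matrix n n S[X])) = p.map f • (1 : Matrix n n S'[X]) := by
  refine Matrix.ext fun i j => ?_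
  simp only [pmap, map_apply, Matrix.smul_apply, one_apply, smul_eq_mul]
  split_ifs <;> simp

private theorem psi_frob (y : K) : frob k K y = y ^ Nat.card k := by
  simpa using frob_pow_apply (k := k) 1 y

/-- for `c = 1`: row `0` of the inverse is `(g 1, …, g r)`, row `i + 1` is `(X - θ) • e_i` -/
theorem Phit_inv (hg : g r ≠ 0) (c : ℕ) : ∃ A : Matrix (Fin r) (Fin r) K[X],
    (∀ i j, (A i j).natDegree ≤ c) ∧ A * Phit k θ r g c =
      (∏ i ∈ Finset.range c, (X - C (θ ^ Nat.card k ^ i))) • (1 : Matrix (Fin r) (Fin r) K[X]) := by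
  induction c with
  | zero =>
    refine ⟨1, fun i j => ?_, by simp [Phit]⟩
    rw [one_apply]
    split_ifs <;> simp
  | succ c ih =>
    obtain ⟨A, hA, hA'⟩ := ih
    refine ⟨psiA θ r g * pmap (frob k K : K →+* K) A, fun i j => ?_, ?_⟩
    · rw [mul_apply, add_comm]
      exact natDegree_sum_le_of_forall_le _ _ fun m _ => natDegree_mul_le.trans
        (add_le_add (psi_A_deg i m) (natDegree_map_le.trans (hA m j)))
    · rw [Phit, Matrix.mul_assoc, ← Matrix.mul_assoc (pmap _ A), ← pmap_mul, hA', psi_pmap_smul,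
        Matrix.smul_mul, Matrix.one_mul, Matrix.mul_smul, psi_A_mul hg, smul_smul,
        Finset.prod_range_succ', Polynomial.map_prod]
      simp only [Polynomial.map_sub, map_X, map_C, RingHom.coe_coe, psi_frob, pow_zero, pow_one,
        pow_succ, pow_mul]

theorem Psi_deg (c M : ℕ) (j j' : JJ (Fin r) M) :
    (Psi k θ r g c M j j').totalDegree ≤ 2 * c * M := by
  refine (rep_deg M MvPolynomial.X (d1 := 1) (fun i => (MvPolynomial.totalDegree_X i).le) _
    (d0 := 0) (d := c) (fun i j m => ?_)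
    (fun i j => natDegree_map_le.trans (Phit_deg c i j)) j j').trans (by nlinarith)
  simp only [coeff_map, MvPolynomial.totalDegree_C, le_refl]

theorem dlt_deg (c M : ℕ) : (dlt k θ c M).totalDegree ≤ 2 * c * M := by
  refine (MvPolynomial.totalDegree_pow _ _).trans ?_
  rw [mul_comm]
  refine Nat.mul_le_mul_right _ ((MvPolynomial.totalDegree_finsetProd _ _).trans ?_)
  refine (Finset.sum_le_card_nsmul _ _ 2 fun i _ => ?_).trans (by simp [mul_comm])
  refine (MvPolynomial.totalDegree_finsetProd _ _).trans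
    ((Finset.sum_le_card_nsmul _ _ 1 fun l _ => ?_).trans (by simp))
  exact (MvPolynomial.totalDegree_sub_C_le _ _).trans (MvPolynomial.totalDegree_X l).le

private theorem psi_cd_mul {p p' : (R2 K)[X]} {d d' : ℕ} (h : ∀ m, (p.coeff m).totalDegree ≤ d)
    (h' : ∀ m, (p'.coeff m).totalDegree ≤ d') (m : ℕ) :
    ((p * p').coeff m).totalDegree ≤ d + d' := by
  rw [coeff_mul]
  exact (MvPolynomial.totalDegree_finsetSum _ _).trans (Finset.sup_le fun x _ =>
    (MvPolynomial.totalDegree_mul _ _).trans (add_le_add (h _) (h' _)))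

/-- the conjugate linear factor -/
private noncomputable def psiU (x : K) : (R2 K)[X] :=
  C (MvPolynomial.X 0 + MvPolynomial.X 1 - MvPolynomial.C x) - X

private theorem psi_U_cd (x : K) (m : ℕ) : ((psiU x).coeff m).totalDegree ≤ 1 := by
  rw [psiU, coeff_sub, coeff_C, coeff_X]
  refine (MvPolynomial.totalDegree_sub _ _).trans (max_le ?_ ?_)
  · split_ifs
    · refine (MvPolynomial.totalDegree_sub_C_le _ _).trans
        ((MvPolynomial.totalDegree_add _ _).trans ?_)
      simp [MvPolynomial.totalDegree_X]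
    · simp
  · split_ifs <;> simp

private theorem psi_U_prod (x : ℕ → K) (c : ℕ) :
    (∀ m, ((∏ i ∈ Finset.range c, psiU (x i)).coeff m).totalDegree ≤ c) ∧
      (∏ i ∈ Finset.range c, psiU (x i)).natDegree ≤ c := by
  induction c with
  | zero =>
    refine ⟨fun m => ?_, by simp⟩
    rw [Finset.prod_range_zero, coeff_one]
    split_ifs <;> simp
  | succ c ih =>
    rw [Finset.prod_range_succ]
    refine ⟨psi_cd_mul ih.1 (psi_U_cd _), natDegree_mul_le.trans (add_le_add ih.2 ?_)⟩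
    exact (natDegree_sub_le _ _).trans (max_le (by simp) natDegree_X_le)

private theorem psi_U_cong (x : ℕ → K) (c : ℕ) :
    qd (MvPolynomial.X : Fin 2 → R2 K) ∣ (∏ i ∈ Finset.range c, psiU (x i)) *
      (∏ i ∈ Finset.range c, (X - C (x i))).map MvPolynomial.C -
      C (∏ i ∈ Finset.range c, ∏ l : Fin 2, (MvPolynomial.X l - MvPolynomial.C (x i))) := by
  rw [← AdjoinRoot.mk_eq_mk, Polynomial.map_prod, ← Finset.prod_mul_distrib, map_prod C,
    map_prod, map_prod]
  refine Finset.prod_congr rfl fun i _ => AdjoinRoot.mk_eq_mk.2 ⟨-1, ?_⟩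
  simp only [psiU, qd, Fin.prod_univ_two, Polynomial.map_sub, map_X, map_C, map_sub, map_add,
    map_mul]
  ring

private theorem psi_rep_smul {S n : Type} [CommRing S] [Fintype n] [DecidableEq n] (M : ℕ)
    (t : Fin 2 → S) (δ : S) :
    rep M t ((C δ : S[X]) • (1 : Matrix n n S[X])) = δ ^ M • (1 : Matrix _ _ S) := by
  have h : hat t ((C δ : S[X]) • (1 : Matrix n n S[X])) = δ • hat t (1 : Matrix n n S[X]) := by
    refine Matrix.ext fun x y => ?_
    simp only [hat, of_apply, Matrix.smul_apply, smul_eq_mul, map_mul, aeval_C]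
    rw [← Algebra.smul_def, Matrix.smul_apply, smul_eq_mul]
  rw [rep, h, hat_one, ten_smul, ten_one]

/-- Multiply the matrix of `Phit_inv` by `∏ (C (t 0 + t 1 - θ_i) - X)`, because
`(t 0 + t 1 - θ - X) * (X - θ) ≡ (t 0 - θ) * (t 1 - θ)` mod `qd t`; `ten_smul`. For the degree
use `rep_deg` with `d0 = c`, `d = 2 * c`, `d1 = 1`. -/
theorem Psi_inv (hg : g r ≠ 0) (c M : ℕ) :
    ∃ Ψ' : Matrix (JJ (Fin r) M) (JJ (Fin r) M) (R2 K), (∀ j j', (Ψ' j j').totalDegree ≤ 3 * c * M) ∧
      Ψ' * Psi k θ r g c M = dlt k θ c M • (1 : Matrix _ _ (R2 K)) := by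
  obtain ⟨A, hA, hA'⟩ := Phit_inv (k := k) (θ := θ) hg c
  obtain ⟨u1, u2⟩ := psi_U_prod (fun i => θ ^ Nat.card k ^ i) c
  refine ⟨rep M MvPolynomial.X ((∏ i ∈ Finset.range c, psiU (θ ^ Nat.card k ^ i)) •
    pmap MvPolynomial.C A), fun j j' => ?_, ?_⟩
  · refine (rep_deg M MvPolynomial.X (d1 := 1) (fun i => (MvPolynomial.totalDegree_X i).le) _
      (d0 := c + 0) (d := c + c) (fun i j m => ?_) (fun i j => ?_) j j').trans (le_of_eq (by ring))
    · refine psi_cd_mul u1 (fun m => ?_) m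
      rw [pmap, map_apply, coeff_map, MvPolynomial.totalDegree_C]
    · exact natDegree_mul_le.trans (add_le_add u2 (natDegree_map_le.trans (hA i j)))
  · rw [Psi, ← rep_mul, Matrix.smul_mul, ← pmap_mul, hA', psi_pmap_smul, smul_smul, dlt,
      ← psi_rep_smul M MvPolynomial.X]
    refine rep_congr M fun i j => ?_
    rw [Matrix.smul_apply, Matrix.smul_apply, ← sub_smul, smul_eq_mul]
    exact (psi_U_cong (fun i => θ ^ Nat.card k ^ i) c).mul_right _

theorem pt_dlt (hθ : Transcendental kb θ) (c M : ℕ) (β : Fin 2 → kb) :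
    pt K β (dlt k θ c M) ≠ 0 := by
  rw [dlt, map_pow, map_prod]
  refine pow_ne_zero _ (Finset.prod_ne_zero_iff.2 fun i _ => ?_)
  rw [map_prod]
  refine Finset.prod_ne_zero_iff.2 fun l _ h => ?_
  rw [map_sub, pt, MvPolynomial.aeval_X, MvPolynomial.aeval_C, sub_eq_zero] at h
  refine hθ.pow (pow_pos (Nat.card_pos (α := k)) i) ?_
  rw [Algebra.algebraMap_self_apply] at h
  rw [← h]
  exact isAlgebraic_algebraMap _

theorem Wd.unit_dlt {B J : Type} [AddCommGroup B] [Module K B] (W : Wd kb K B J)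
    (hθ : Transcendental kb θ) (c M : ℕ) : IsUnit (W.ev (dlt k θ c M)) := by
  have hm : ∀ a b : R2 K, IsUnit (W.ev a) → IsUnit (W.ev b) → IsUnit (W.ev (a * b)) :=
    fun a b ha hb => by
      rw [map_mul]
      exact ha.mul hb
  have h1 : IsUnit (W.ev 1) := by
    rw [map_one]
    exact isUnit_one
  rw [dlt, map_pow]
  refine IsUnit.pow _ (Finset.prod_induction _ (fun x => IsUnit (W.ev x)) hm h1 fun i _ => ?_)
  exact Finset.prod_induction _ (fun x => IsUnit (W.ev x)) hm h1 fun l _ =>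
    W.unit l _ (hθ.pow (pow_pos (Nat.card_pos (α := k)) i))

theorem isUnit_det_Psi (hθ : Transcendental kb θ) (hg : g r ≠ 0) (c M : ℕ) (β : Fin 2 → kb) :
    IsUnit ((Psi k θ r g c M).map (pt K β)).det := by
  obtain ⟨Ψ', -, h⟩ := Psi_inv (k := k) (θ := θ) hg c M
  have h1 := congrArg (fun A => pt K β (Matrix.det A)) h
  simp only [det_mul, det_smul, det_one, mul_one, map_mul, map_pow] at h1
  rw [isUnit_iff_ne_zero, ← AlgHom.mapMatrix_apply, ← AlgHom.map_det]
  intro h0
  rw [h0, mul_zero] at h1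
  exact pow_ne_zero _ (pt_dlt hθ c M β) h1.symm

theorem lam_nonneg (q r : ℕ) (g : ℕ → K) (v : Place kb K) : 0 ≤ lam q r g v := by
  exact (Finset.le_fold_max _).2 (Or.inl le_rfl)

theorem le_lam (q : ℕ) (v : Place kb K) {i : ℕ} (hi : i ∈ Finset.Icc 1 r) (h : g i ≠ 0) :
    (v.ord (g r) : ℚ) / (q ^ r - 1) - (v.ord (g i) : ℚ) / (q ^ i - 1) ≤ lam q r g v := by
  exact (Finset.le_fold_max _).2 (Or.inr ⟨i, hi, by rw [if_neg h]⟩)

theorem lam_fin (hK : FF kb K) (q r : ℕ) (g : ℕ → K) :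
    {v : Place kb K | lam q r g v ≠ 0}.Finite := by
  refine ((Finset.range (r + 1)).finite_toSet.biUnion fun i _ => hK.fin (g i)).subset
    fun v hv => ?_
  by_contra h
  simp only [Set.mem_iUnion, Set.mem_ofPred_eq, not_exists, not_not, Finset.coe_range,
    Set.mem_Iio] at h
  refine hv (le_antisymm ((Finset.fold_max_le _).2 ⟨le_rfl, fun i hi => ?_⟩) (lam_nonneg q r g v))
  rw [h r (by omega), h i (by have := (Finset.mem_Icc.1 hi).2; omega)]
  simp

theorem hJ_nonneg (q r : ℕ) (g : ℕ → K) : 0 ≤ hJ kb q r g := by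
  exact finsum_nonneg fun v => lam_nonneg q r g v

/-- elements of order at least `a` -/
private def psiG (v : Place kb K) (a : ℚ) : AddSubgroup K where
  carrier := {x | x = 0 ∨ a ≤ v.ord x}
  zero_mem' := Or.inl rfl
  neg_mem' := fun {x} hx => by simpa using hx
  add_mem' := fun {x y} hx hy => by
    have h : ∀ z : K, (z = 0 ∨ a ≤ v.ord z) ↔ v.Ge z ⌈a⌉ := fun z => by
      rw [Place.Ge, Int.ceil_le]
    exact (h _).2 (((h _).1 hx).add ((h _).1 hy))

private theorem psi_G_mul {v : Place kb K} {a b : ℚ} {x y : K} (hx : x ∈ psiG v a)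
    (hy : y ∈ psiG v b) : x * y ∈ psiG v (a + b) := by
  by_cases h0 : x = 0
  · exact Or.inl (by rw [h0, zero_mul])
  by_cases h1 : y = 0
  · exact Or.inl (by rw [h1, mul_zero])
  refine Or.inr ?_
  rw [v.ord_mul h0 h1, Int.cast_add]
  exact add_le_add (hx.resolve_left h0) (hy.resolve_left h1)

private theorem psi_G_one (v : Place kb K) : (1 : K) ∈ psiG v 0 := Or.inr (by simp)

private theorem psi_G_pow {v : Place kb K} {a : ℚ} {x : K} (hx : x ∈ psiG v a) {n : ℕ}
    (hn : n ≠ 0) : x ^ n ∈ psiG v (n * a) := by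
  rcases hx with rfl | hx
  · exact Or.inl (zero_pow hn)
  · refine Or.inr ?_
    rw [v.ord_pow, Int.cast_mul, Int.cast_natCast]
    exact mul_le_mul_of_nonneg_left hx (Nat.cast_nonneg n)

private theorem psi_P_mul {v : Place kb K} {a b : ℚ} {p p' : K[X]}
    (h : ∀ m, p.coeff m ∈ psiG v a) (h' : ∀ m, p'.coeff m ∈ psiG v b) (m : ℕ) :
    (p * p').coeff m ∈ psiG v (a + b) := by
  rw [coeff_mul]
  exact sum_mem fun x _ => psi_G_mul (h _) (h' _)

private theorem psi_M_mul {v : Place kb K} {a b : ℚ} {p p' : R2 K}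
    (h : ∀ m, p.coeff m ∈ psiG v a) (h' : ∀ m, p'.coeff m ∈ psiG v b) (m : Fin 2 →₀ ℕ) :
    (p * p').coeff m ∈ psiG v (a + b) := by
  classical
  rw [MvPolynomial.coeff_mul]
  exact sum_mem fun x _ => psi_G_mul (h _) (h' _)

private theorem psi_M_C {v : Place kb K} {a : ℚ} {x : K} (h : x ∈ psiG v a) (m : Fin 2 →₀ ℕ) :
    (MvPolynomial.C x : R2 K).coeff m ∈ psiG v a := by
  classical
  rw [MvPolynomial.coeff_C]
  split_ifs
  exacts [h, zero_mem _]

private theorem psi_M_X (v : Place kb K) (l : Fin 2) (m : Fin 2 →₀ ℕ) :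
    (MvPolynomial.X l : R2 K).coeff m ∈ psiG v 0 := by
  classical
  rw [MvPolynomial.coeff_X]
  split_ifs
  exacts [psi_G_one v, zero_mem _]

private theorem psi_M_prod {v : Place kb K} {ι : Type} (s : Finset ι) (a : ι → ℚ) (p : ι → R2 K)
    (h : ∀ i m, (p i).coeff m ∈ psiG v (a i)) :
    ∀ m, (∏ i ∈ s, p i).coeff m ∈ psiG v (∑ i ∈ s, a i) := by
  induction s using Finset.cons_induction with
  | empty => exact psi_M_C (psi_G_one v)
  | cons i s hi ih =>
    rw [Finset.prod_cons, Finset.sum_cons]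
    exact psi_M_mul (h i) ih

private theorem psi_cm_pow (v : Place kb K) (n : ℕ) : ∀ (x y : Fin 2) (m : Fin 2 →₀ ℕ),
    ((cm (MvPolynomial.X : Fin 2 → R2 K) ^ n) x y).coeff m ∈ psiG v 0 := by
  have h0 : ∀ m, (0 : R2 K).coeff m ∈ psiG v 0 := fun m => zero_mem _
  have h1 : ∀ m, (1 : R2 K).coeff m ∈ psiG v 0 := psi_M_C (psi_G_one v)
  induction n with
  | zero =>
    intro x y
    rw [pow_zero, one_apply]
    split_ifs
    exacts [h1, h0]
  | succ n ih =>
    intro x y m
    rw [pow_succ, mul_apply, MvPolynomial.coeff_sum]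
    refine sum_mem fun z _ => ?_
    rw [← add_zero (0 : ℚ)]
    refine psi_M_mul (ih x z) ?_ m
    fin_cases z <;> fin_cases y
    exacts [psi_M_X v 0, h0, h1, psi_M_X v 1]

private theorem psi_aeval {v : Place kb K} {a : ℚ} {p : K[X]} (h : ∀ m, p.coeff m ∈ psiG v a)
    (x y : Fin 2) (m : Fin 2 →₀ ℕ) :
    (aeval (cm (MvPolynomial.X : Fin 2 → R2 K)) (p.map (MvPolynomial.C : K →+* R2 K)) x y).coeff m
      ∈ psiG v a := by
  rw [aeval_eq_sum_range, Matrix.sum_apply, MvPolynomial.coeff_sum]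
  refine sum_mem fun i _ => ?_
  rw [Matrix.smul_apply, smul_eq_mul, coeff_map, ← add_zero a]
  exact psi_M_mul (psi_M_C (h i)) (psi_cm_pow v i x y) m

private theorem psi_Phi_ord (v : Place kb K) (q ω : ℚ) (hg : g r ≠ 0)
    (h0 : (1 - q ^ r) * ω ≤ -v.ord (g r))
    (h1 : θ ≠ 0 → (1 - q ^ r) * ω ≤ v.ord θ - v.ord (g r))
    (h2 : ∀ i ∈ Finset.Ico 1 r, g i ≠ 0 → (q ^ i - q ^ r) * ω ≤ v.ord (g i) - v.ord (g r))
    (i j : Fin r) (m : ℕ) :
    (Phi θ r g i j).coeff m ∈ psiG v ((q ^ (j : ℕ) - q ^ ((i : ℕ) + 1)) * ω) := by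
  have key : ∀ (x : K) (a : ℚ), (x ≠ 0 → a ≤ v.ord x - v.ord (g r)) → (g r)⁻¹ * x ∈ psiG v a := by
    intro x a hx
    by_cases h : x = 0
    · exact Or.inl (by rw [h, mul_zero])
    · refine Or.inr ?_
      rw [v.ord_mul (inv_ne_zero hg) h, v.ord_inv]
      push_cast
      linarith [hx h]
  simp only [Phi, of_apply]
  split_ifs with a1 a2 a3
  · rw [a1, a2, pow_zero, coeff_C_mul, coeff_sub, coeff_X, coeff_C, mul_sub]
    refine sub_mem ?_ ?_
    · split_ifs
      · exact key _ _ fun _ => by simpa using h0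
      · exact Or.inl (mul_zero _)
    · split_ifs
      · exact key _ _ h1
      · exact Or.inl (mul_zero _)
  · rw [a1, coeff_C_mul, coeff_neg, coeff_C, mul_neg]
    refine neg_mem ?_
    split_ifs
    · exact key _ _ (h2 j (Finset.mem_Ico.2 ⟨by omega, j.2⟩))
    · exact Or.inl (mul_zero _)
  · rw [a3, sub_self, zero_mul, coeff_one]
    split_ifs
    exacts [psi_G_one v, zero_mem _]
  · exact zero_mem _

/-- If `(q ^ j - q ^ r) * ω ≤ ord` of the coefficients of the last row of `Phi` then every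
coefficient of `Phit c i j` has `ord ≥ (q ^ j - q ^ (i + c)) * ω` (induction on `c`). The entries
of `cm X ^ m` have coefficients in `ℕ`. -/
theorem Psi_ord (v : Place kb K) (ω : ℚ) (hg : g r ≠ 0)
    (h0 : (1 - (Nat.card k : ℚ) ^ r) * ω ≤ -v.ord (g r))
    (h1 : θ ≠ 0 → (1 - (Nat.card k : ℚ) ^ r) * ω ≤ v.ord θ - v.ord (g r))
    (h2 : ∀ i ∈ Finset.Ico 1 r, g i ≠ 0 →
      ((Nat.card k : ℚ) ^ i - Nat.card k ^ r) * ω ≤ v.ord (g i) - v.ord (g r))
    (c M : ℕ) (j j' : JJ (Fin r) M) (α : Fin 2 →₀ ℕ) (h : (Psi k θ r g c M j j').coeff α ≠ 0) :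
    ω * ∑ a, (Nat.card k : ℚ) ^ ((j' a).1 : ℕ) -
      Nat.card k ^ c * (ω * ∑ a, (Nat.card k : ℚ) ^ ((j a).1 : ℕ)) ≤
      v.ord ((Psi k θ r g c M j j').coeff α) := by
  have key : ∀ (c : ℕ) (i j : Fin r) (m : ℕ), (Phit k θ r g c i j).coeff m ∈
      psiG v (((Nat.card k : ℚ) ^ (j : ℕ) - Nat.card k ^ ((i : ℕ) + c)) * ω) := by
    intro c
    induction c with
    | zero =>
      intro i j m
      rw [Phit, one_apply]
      split_ifs with hij
      · rw [hij, add_zero, sub_self, zero_mul, coeff_one]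
        split_ifs
        exacts [psi_G_one v, zero_mem _]
      · exact zero_mem _
    | succ c ih =>
      intro i j m
      rw [Phit, mul_apply, finsetSum_coeff]
      refine sum_mem fun l _ => ?_
      have h3 := psi_P_mul (p := pmap (frob k K : K →+* K) (Phit k θ r g c) i l) (fun m => by
        rw [pmap, map_apply, coeff_map, RingHom.coe_coe, psi_frob]
        exact psi_G_pow (ih i l m) (Nat.card_pos (α := k)).ne') (psi_Phi_ord v _ ω hg h0 h1 h2 l j) m
      convert h3 using 2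
      ring
  have h3 := (psi_M_prod Finset.univ _ _ (fun a => psi_aeval (key c (j a).1 (j' a).1) (j a).2
    (j' a).2) α).resolve_left h
  refine le_trans (le_of_eq ?_) h3
  rw [Finset.mul_sum, Finset.mul_sum, Finset.mul_sum, ← Finset.sum_sub_distrib]
  exact Finset.sum_congr rfl fun a _ => by ring

/-- `ω v = ord (g r) / (q ^ r - 1) + lam v + max 0 (-ord θ)`, `wt v j = ω v * ∑ q ^ (j a).1` -/
theorem psi_wt (hK : FF kb K) (θ : K) (hr : 0 < r) (M : ℕ) : ∃ C1 : ℚ, 0 ≤ C1 ∧
    ∀ g : ℕ → K, g r ≠ 0 → ∃ wt : Place kb K → JJ (Fin r) M → ℚ,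
      (∀ j, {v | wt v j ≠ 0}.Finite) ∧
      (∀ v v' : Place kb K, v.ord θ = v'.ord θ → (∀ i, v.ord (g i) = v'.ord (g i)) →
        wt v = wt v') ∧
      (∀ (c : ℕ) (v : Place kb K) j j' α, (Psi k θ r g c M j j').coeff α ≠ 0 →
        wt v j' - (Nat.card k ^ c : ℕ) * wt v j ≤ v.ord ((Psi k θ r g c M j j').coeff α)) ∧
      ∀ j, ∑ᶠ v, wt v j ≤ C1 * (hJ kb (Nat.card k) r g + 1) := by
  have hq : (2 : ℚ) ≤ Nat.card k := by exact_mod_cast two_le_card (K := k)
  set q : ℚ := (Nat.card k : ℚ) with hq'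
  have hT : 0 ≤ ∑ᶠ v : Place kb K, max (0 : ℚ) (-v.ord θ) :=
    finsum_nonneg fun v => le_max_left _ _
  set T := ∑ᶠ v : Place kb K, max (0 : ℚ) (-v.ord θ) with hT'
  have hqr : ∀ i : ℕ, 0 < i → 1 ≤ q ^ i - 1 := fun i hi => by
    have := le_self_pow₀ (a := q) (by linarith) hi.ne'
    linarith
  refine ⟨M * q ^ r * (1 + T), by positivity, fun g hg => ?_⟩
  let ω : Place kb K → ℚ := fun v =>
    (v.ord (g r) : ℚ) * (q ^ r - 1)⁻¹ + lam (Nat.card k) r g v + max (0 : ℚ) (-v.ord θ)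
  have f1 : Function.HasFiniteSupport fun v : Place kb K => (v.ord (g r) : ℚ) * (q ^ r - 1)⁻¹ :=
    (hK.fin (g r)).subset fun v hv h => hv (by simp [h])
  have f2 : Function.HasFiniteSupport (lam (kb := kb) (Nat.card k) r g) := lam_fin hK _ r g
  have f3 : Function.HasFiniteSupport fun v : Place kb K => max (0 : ℚ) (-v.ord θ) :=
    (hK.fin θ).subset fun v hv h => hv (by simp [h])
  have f4 : Function.HasFiniteSupport ω := (f1.add f2).add f3
  refine ⟨fun v j => ω v * ∑ a, q ^ ((j a).1 : ℕ), fun j => f4.subset fun v hv h => hv ?_,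
    fun v v' e1 e2 => ?_, fun c v j j' α h => ?_, fun j => ?_⟩
  · simp only [h, zero_mul]
  · simp only [ω, lam, e1, e2]
  · have a0 := hqr r hr
    have a1 := lam_nonneg (Nat.card k) r g v
    have a2 := le_max_left (0 : ℚ) (-v.ord θ)
    have a3 := le_max_right (0 : ℚ) (-v.ord θ)
    obtain ⟨A, hA⟩ : ∃ A : ℚ, A = (v.ord (g r) : ℚ) * (q ^ r - 1)⁻¹ := ⟨_, rfl⟩
    have a4 : (v.ord (g r) : ℚ) = (q ^ r - 1) * A := by
      rw [hA]
      field_simp
    have a5 : ω v = A + lam (Nat.card k) r g v + max (0 : ℚ) (-v.ord θ) := by rw [hA]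
    rw [Nat.cast_pow]
    refine Psi_ord v (ω v) hg ?_ (fun _ => ?_) (fun i hi hgi => ?_) c M j j' α h
    · rw [a5, a4]
      nlinarith [mul_nonneg (zero_le_one.trans a0) (add_nonneg a1 a2)]
    · rw [a5, a4]
      nlinarith [mul_nonneg (zero_le_one.trans a0) a1, mul_nonneg (sub_nonneg.2 a0) a2]
    · obtain ⟨i1, i2⟩ := Finset.mem_Ico.1 hi
      have b0 := hqr i i1
      have b1 := le_lam (Nat.card k) v (Finset.mem_Icc.2 ⟨i1, i2.le⟩) hgi
      rw [div_eq_mul_inv, ← hq', ← hA] at b1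
      obtain ⟨B, hB⟩ : ∃ B : ℚ, B = (v.ord (g i) : ℚ) / (q ^ i - 1) := ⟨_, rfl⟩
      have b2 : (v.ord (g i) : ℚ) = (q ^ i - 1) * B := by
        rw [hB]
        field_simp
      have b3 : 2 * q ^ i ≤ q ^ r := by
        have := pow_le_pow_right₀ (a := q) (by linarith) (Nat.succ_le_of_lt i2)
        rw [pow_succ] at this
        nlinarith
      rw [← hB] at b1
      rw [a5, a4, b2]
      nlinarith [mul_nonneg (zero_le_one.trans b0) (sub_nonneg.2 b1),
        mul_nonneg (sub_nonneg.2 b3) (add_nonneg a1 a2), mul_nonneg (zero_le_one.trans b0) a2]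
  · have a0 : ∑ᶠ v : Place kb K, (v.ord (g r) : ℚ) = 0 := by
      have := (Int.castAddHom ℚ).map_finsum (f := fun v : Place kb K => v.ord (g r)) (hK.fin (g r))
      rw [hK.prod, map_zero] at this
      exact this.symm
    have a1 : ∑ᶠ v, ω v = hJ kb (Nat.card k) r g + T := by
      refine (finsum_add_distrib (f1.add f2) f3).trans (congrArg (· + T) ?_)
      refine (finsum_add_distrib f1 f2).trans ?_
      rw [← finsum_mul, a0, zero_mul, zero_add, hJ]
    have a2 : ∑ a, q ^ ((j a).1 : ℕ) ≤ M * q ^ r := by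
      refine (Finset.sum_le_card_nsmul _ _ (q ^ r) fun a _ =>
        pow_le_pow_right₀ (by linarith) (j a).1.2.le).trans (by simp)
    have a3 := hJ_nonneg (kb := kb) (Nat.card k) r g
    have a4 : (0 : ℚ) ≤ M * q ^ r := by positivity
    rw [← finsum_mul, a1]
    nlinarith [mul_le_mul_of_nonneg_left a2 (add_nonneg a3 hT), mul_nonneg a4 (mul_nonneg a3 hT)]

end Pool.Agent.Lib.MP_6adaea_nt.U
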