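import Pool.Agent.Lib.MP_6adaea_nt.U.Desc
import Pool.Agent.Lib.MP_6adaea_nt.U.Psi
import Pool.Agent.Lib.MP_6adaea_nt.U.FFun
import Pool.Agent.Lib.MP_6adaea_nt.G.Tors

/-!
Northcott property and twists.
-/

set_option linter.unusedSectionVars false

namespace Pool.Agent.Lib.MP_6adaea_nt.U
open Matrix Polynomial G
open scoped TensorProduct

variable {k kb K Ω : Type} [Field k] [Finite k] [Field kb] [Field K] [Field Ω] [Algebra k kb]
  [Algebra k K] [Algebra k Ω] [Algebra kb K] [Algebra kb Ω] [Algebra K Ω]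
  [IsScalarTower k kb K] [IsScalarTower k kb Ω] [IsScalarTower k K Ω] [IsScalarTower kb K Ω]
  [IsAlgClosed kb] [Algebra.IsAlgebraic k kb] [IsSepClosed Ω] [IsGalois K Ω] {θ : K} {r : ℕ}

private theorem nc_tot_add {α : Type} (D E : α →₀ ℕ) : tot (D + E) = tot D + tot E :=
  Finsupp.sum_add_index' (fun _ => rfl) fun _ _ _ => rfl

private theorem nc_tot_smul {α : Type} (n : ℕ) (D : α →₀ ℕ) : tot (n • D) = n * tot D := by
  induction n with
  | zero => simp [tot]
  | succ n ih => rw [succ_nsmul, nc_tot_add, ih, Nat.succ_mul]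

private theorem nc_span (hK : FF kb K) (n : ℕ) : ∀ D : Place kb K →₀ ℕ, tot D = n →
    ∃ s : Finset K, s.card ≤ n + 1 ∧ ∀ f : K, (∀ v : Place kb K, v.Ge f (-(D v : ℤ))) →
      f ∈ Submodule.span kb (s : Set K) := by
  classical
  induction n with
  | zero =>
    intro D hD
    have h0 : ∀ v, D v = 0 := fun v => by
      by_contra h
      have h1 := Finset.single_le_sum (f := fun v => D v) (fun _ _ => Nat.zero_le _)
        (Finsupp.mem_support_iff.2 h)
      have h2 : ∑ v ∈ D.support, D v = 0 := hD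
      omega
    refine ⟨{1}, by simp, fun f hf => ?_⟩
    obtain ⟨c, rfl⟩ := hK.const f fun v => by simpa [h0 v] using hf v
    rw [Algebra.algebraMap_eq_smul_one]
    exact Submodule.smul_mem _ _ (Submodule.subset_span (by simp))
  | succ n ih =>
    intro D hD
    obtain ⟨v, hv⟩ : ∃ v, D v ≠ 0 := by
      by_contra h
      push Not at h
      rw [show D = 0 from Finsupp.ext h] at hD
      simp [tot] at hD
    have h1 : D = (D - Finsupp.single v 1) + Finsupp.single v 1 := by
      ext u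
      by_cases hu : u = v
      · subst hu
        simp only [Finsupp.add_apply, Finsupp.tsub_apply, Finsupp.single_eq_same]
        omega
      · simp [Finsupp.single_eq_of_ne hu]
    obtain ⟨s, hs, h2⟩ := ih (D - Finsupp.single v 1) (by
      rw [h1, nc_tot_add] at hD
      have : tot (Finsupp.single v 1) = 1 := Finsupp.sum_single_index rfl
      omega)
    have h3 : ∀ f : K, (∀ u : Place kb K, u.Ge f (-(D u : ℤ))) → v.Ge f (1 - D v) →
        f ∈ Submodule.span kb (s : Set K) := fun f hf hf' => h2 f fun u => by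
      by_cases hu : u = v
      · subst hu
        refine hf'.mono ?_
        simp only [Finsupp.tsub_apply, Finsupp.single_eq_same]
        omega
      · simpa [Finsupp.single_eq_of_ne hu] using hf u
    by_cases h4 : ∃ x : K, (∀ u : Place kb K, u.Ge x (-(D u : ℤ))) ∧ ¬ v.Ge x (1 - D v)
    · obtain ⟨x, hx, hx'⟩ := h4
      obtain ⟨hx0, hx1⟩ := Place.not_ge_iff.1 hx'
      have hx2 := (hx v).le hx0
      refine ⟨insert x s, (Finset.card_insert_le _ _).trans (by omega), fun f hf => ?_⟩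
      obtain ⟨c, hc⟩ := hK.res v (f * x⁻¹) (by
        rw [Place.ge_mul_iff (inv_ne_zero hx0), Place.ord_inv]
        exact (hf v).mono (by omega))
      have h5 : f - c • x ∈ Submodule.span kb (s : Set K) := by
        refine h3 _ (fun u => (hf u).sub ((hx u).smul c)) ?_
        have h6 := (hc.mul (v.ge_ord x)).mono (m' := 1 - D v) (by omega)
        rwa [sub_mul, inv_mul_cancel_right₀ hx0, ← Algebra.smul_def] at h6
      rw [← sub_add_cancel f (c • x), Finset.coe_insert]
      exact add_mem (Submodule.span_mono (Set.subset_insert _ _) h5)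
        (Submodule.smul_mem _ _ (Submodule.subset_span (Set.mem_insert _ _)))
    · push Not at h4
      exact ⟨s, by omega, fun f hf => h3 f hf (h4 f hf)⟩

private theorem nc_pole (hK : FF kb K) (x : K) :
    ∃ D : Place kb K →₀ ℕ, ∀ v, D v = (-v.ord x).toNat :=
  ⟨Finsupp.ofSupportFinite (fun v => (-v.ord x).toNat) ((hK.fin x).subset fun v hv h => hv (by
    simp [h])), fun _ => rfl⟩

private theorem nc_roots {F : Type} [Field F] {m : ℕ} (hm : 0 < m) (a : F) :
    {z : F | z ^ m = a}.Finite := by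
  classical
  exact (nthRoots m a).toFinset.finite_toSet.subset fun _ hz =>
    Multiset.mem_toFinset.2 ((mem_nthRoots hm).2 hz)

/-- `dim {f | ∀ v, ord f ≥ -D v} ≤ tot D + 1` by induction on `tot D` (`res`, `const`) -/
theorem card_le_of_poles (hK : FF kb K) (D : Place kb K →₀ ℕ) {ι : Type} [Fintype ι] {f : ι → K}
    (hf : LinearIndependent kb f) (h : ∀ i (v : Place kb K), v.Ge (f i) (-(D v : ℤ))) :
    Fintype.card ι ≤ tot D + 1 := by
  obtain ⟨s, hs, h1⟩ := nc_span hK _ D rfl
  have h2 := linearIndependent_le_span_aux' f hf (s : Set K) (by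
    rintro _ ⟨i, rfl⟩
    exact h1 _ (h i))
  simp only [Finset.coe_sort_coe, Fintype.card_coe] at h2
  exact h2.trans hs

/-- For `n ≥ C + deg θ` the `x ^ i * θ ^ j`, `i, j ≤ n`, are dependent over `kb`. The space of
relations is stable under `c ↦ c ^ Q` (apply `γK.symm`), so by `desc` there is a relation with
coefficients in the finite set `c ^ Q = c`. Each relation has finitely many solutions `x`. -/
theorem northcott (hB : Base kb θ) (Fr : Frb k kb K Ω) (hθ : Fr.γK θ = θ) (C : ℕ) :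
    {x : K | Fr.γK x = x ∧ ∃ D : Place kb K →₀ ℕ, tot D ≤ C ∧
      ∀ v : Place kb K, v.Ge x (-(D v : ℤ))}.Finite := by
  classical
  have hK := (hB.ff k)
  obtain ⟨E, hE⟩ := nc_pole hK θ
  have hE' : ∀ v : Place kb K, v.Ge θ (-(E v : ℤ)) := fun v => Place.Ge.of_le (by rw [hE]; omega)
  obtain ⟨n, hn⟩ : ∃ n, n = C + tot E + 1 := ⟨_, rfl⟩
  have hF : {c : kb | c ^ Fr.Q = c}.Finite := by
    have h0 : (X ^ Fr.Q - X : kb[X]) ≠ 0 := FiniteField.X_pow_card_sub_X_ne_zero kb Fr.two_le
    refine (X ^ Fr.Q - X : kb[X]).roots.toFinset.finite_toSet.subset fun c hc => ?_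
    rw [Finset.mem_coe, Multiset.mem_toFinset, mem_roots h0, IsRoot, eval_sub, eval_pow, eval_X,
      sub_eq_zero]
    exact hc
  have hF' : {c : Fin (n + 1) × Fin (n + 1) → kb | (∀ j, c j ∈ {c : kb | c ^ Fr.Q = c}) ∧
      c ≠ 0}.Finite := (Set.Finite.pi' fun _ => hF).subset fun _ hc => hc.1
  refine (hF'.biUnion (t := fun c => {x : K | ∑ j, c j • (x ^ (j.1 : ℕ) * θ ^ (j.2 : ℕ)) = 0})
    fun c hc => ?_).subset ?_
  · let P : K[X] := ∑ i : Fin (n + 1), monomial i
      (aeval θ (∑ j : Fin (n + 1), monomial j (c (i, j)) : kb[X]))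
    have hP : P ≠ 0 := fun h0 => hc.2 (funext fun ⟨i, j⟩ => by
      have h1 := congrArg (fun p : K[X] => p.coeff i) h0
      simp only [P, finsetSum_coeff, coeff_monomial, Fin.val_inj, Finset.sum_ite_eq',
        Finset.mem_univ, if_true, coeff_zero] at h1
      have h2 := congrArg (fun p : kb[X] => p.coeff j) (transcendental_iff.1 hB.tr _ h1)
      simpa only [finsetSum_coeff, coeff_monomial, Fin.val_inj, Finset.sum_ite_eq',
        Finset.mem_univ, if_true, coeff_zero, Pi.zero_apply] using h2)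
    refine P.roots.toFinset.finite_toSet.subset fun x hx => ?_
    rw [Finset.mem_coe, Multiset.mem_toFinset, mem_roots hP, IsRoot, ← Set.mem_ofPred_eq.mp hx,
      Fintype.sum_prod_type]
    simp only [P, eval_finsetSum, eval_monomial, map_sum, aeval_monomial, Algebra.smul_def]
    exact Finset.sum_congr rfl fun i _ => Finset.sum_congr rfl fun j _ => by ring
  · rintro x ⟨hx, D, hD, hxD⟩
    let W : Submodule kb (Fin (n + 1) × Fin (n + 1) → kb) := LinearMap.ker
      (Fintype.linearCombination kb fun j : Fin (n + 1) × Fin (n + 1) =>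
        x ^ (j.1 : ℕ) * θ ^ (j.2 : ℕ))
    have hW : ∀ c, c ∈ W ↔ ∑ j, c j • (x ^ (j.1 : ℕ) * θ ^ (j.2 : ℕ)) = 0 := fun c => by
      rw [LinearMap.mem_ker, Fintype.linearCombination_apply]
    have h1 : ¬ LinearIndependent kb fun j : Fin (n + 1) × Fin (n + 1) =>
        x ^ (j.1 : ℕ) * θ ^ (j.2 : ℕ) := fun h => by
      have h2 := card_le_of_poles hK (n • D + n • E) h fun j v => by
        refine (((hxD v).pow j.1).mul ((hE' v).pow j.2)).mono ?_
        have a1 : ((j.1 : ℕ) : ℤ) ≤ n := by exact_mod_cast Nat.lt_succ_iff.1 j.1.2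
        have a2 : ((j.2 : ℕ) : ℤ) ≤ n := by exact_mod_cast Nat.lt_succ_iff.1 j.2.2
        have a3 := mul_le_mul_of_nonneg_right a1 (Int.natCast_nonneg (D v))
        have a4 := mul_le_mul_of_nonneg_right a2 (Int.natCast_nonneg (E v))
        simp only [Finsupp.add_apply, Finsupp.smul_apply, smul_eq_mul]
        push_cast
        linarith
      rw [nc_tot_add, nc_tot_smul, nc_tot_smul, Fintype.card_prod, Fintype.card_fin] at h2
      nlinarith
    obtain ⟨c, hc, j, hj⟩ := Fintype.not_linearIndependent_iff.1 h1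
    have hx' : Fr.γK.symm x = x := by rw [AlgEquiv.symm_apply_eq, hx]
    have hθ' : Fr.γK.symm θ = θ := by rw [AlgEquiv.symm_apply_eq, hθ]
    have hf : ∀ y : kb, ((G.frob k kb ^ Fr.c : kb →ₐ[k] kb) : kb →+* kb) y = y ^ Fr.Q :=
      fun y => frob_pow_apply _ _
    have h2 := desc ((G.frob k kb ^ Fr.c : kb →ₐ[k] kb) : kb →+* kb) W (fun y hy => by
      rw [hW] at hy ⊢
      have h3 := congrArg Fr.γK.symm hy
      simpa only [map_sum, Algebra.smul_def, map_mul, map_pow, hx', hθ', Fr.symm_const, map_zero,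
        hf] using h3) ((hW c).2 hc)
    by_contra h3
    refine hj (congrFun ((Submodule.span_le (p := ⊥)).2 (fun y hy => ?_) h2) j)
    by_contra h4
    exact h3 (Set.mem_biUnion (x := y) ⟨fun l => (hf _).symm.trans (hy.2 l), h4⟩ ((hW y).1 hy.1))

/-- the invariants `g i ^ (q ^ r - 1) / g r ^ (q ^ i - 1)` have poles of order at most
`⌊(q ^ r - 1) * (q ^ i - 1) * lam v⌋` -/
theorem nc (hB : Base kb θ) (hr : 0 < r) (Fr : Frb k kb K Ω) (C : ℚ) :
    ∃ T : Set (Fin r → Ω), T.Finite ∧ ∀ D : DM k Ω θ r, D.Fix Fr → D.h kb ≤ C →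
      ∃ u : Ω, u ^ (Nat.card k ^ r - 1) * algebraMap K Ω (D.g r) = 1 ∧
        (fun i : Fin r => algebraMap K Ω (D.g (i + 1)) * u ^ (Nat.card k ^ ((i : ℕ) + 1) - 1)) ∈ T := by
  by_cases hθ : Fr.γK θ = θ
  swap
  · exact ⟨∅, Set.finite_empty, fun D h => absurd h.1 hθ⟩
  have hK := (hB.ff k)
  have hq : 2 ≤ Nat.card k := two_le_card
  have hp : ∀ i, 0 < i → 1 < Nat.card k ^ i := fun i hi => Nat.one_lt_pow hi.ne' hq
  have hm : 0 < Nat.card k ^ r - 1 := Nat.sub_pos_of_lt (hp r hr)
  have hN := (northcott hB Fr hθ ⌈((Nat.card k : ℚ) ^ r) ^ 2 * C⌉₊).image (algebraMap K Ω)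
  refine ⟨_, Set.Finite.pi' fun _ : Fin r => hN.biUnion fun a _ => nc_roots hm a,
    fun D hD hC => ?_⟩
  have hg : algebraMap K Ω (D.g r) ≠ 0 := (_root_.map_ne_zero _).2 D.ne
  have hz : NeZero ((Nat.card k ^ r - 1 : ℕ) : Ω) := ⟨by
    have := Fintype.ofFinite k
    have h0 : (Nat.card k : Ω) = 0 := by
      rw [← map_natCast (algebraMap k Ω), Nat.card_eq_fintype_card, FiniteField.cast_card_eq_zero,
        map_zero]
    rw [Nat.cast_sub (hp r hr).le, Nat.cast_pow, h0, zero_pow hr.ne']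
    simp⟩
  obtain ⟨u, hu⟩ := IsSepClosed.exists_pow_nat_eq (algebraMap K Ω (D.g r))⁻¹ (Nat.card k ^ r - 1)
  refine ⟨u, by rw [hu, inv_mul_cancel₀ hg], fun i => ?_⟩
  obtain ⟨J, hJ'⟩ : ∃ J, J = D.g (i + 1) ^ (Nat.card k ^ r - 1) *
    (D.g r)⁻¹ ^ (Nat.card k ^ ((i : ℕ) + 1) - 1) := ⟨_, rfl⟩
  obtain ⟨E, hE⟩ := nc_pole hK J
  refine Set.mem_biUnion (x := algebraMap K Ω J) ⟨J, ⟨?_, E, ?_, fun v => Place.Ge.of_le (by
    rw [hE]; omega)⟩, rfl⟩ ?_
  · rw [hJ', map_mul, map_pow, map_pow, map_inv₀, hD.2, hD.2]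
  · have h1 : ∀ v, (E v : ℚ) ≤ ((Nat.card k : ℚ) ^ r) ^ 2 * lam (Nat.card k) r D.g v := fun v => by
      have h2 := lam_nonneg (Nat.card k) r D.g v
      have h3 : (0 : ℚ) ≤ ((Nat.card k : ℚ) ^ r) ^ 2 * lam (Nat.card k) r D.g v := by positivity
      by_cases h0 : D.g (i + 1) = 0
      · rw [hE, hJ', h0, zero_pow hm.ne', zero_mul]
        simpa using h3
      have h4 := le_lam (Nat.card k) v (Finset.mem_Icc.2 ⟨Nat.le_add_left 1 i, i.2⟩) h0
      have b1 : (1 : ℚ) < (Nat.card k : ℚ) ^ r := by exact_mod_cast hp r hr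
      have b2 : (1 : ℚ) < (Nat.card k : ℚ) ^ ((i : ℕ) + 1) := by
        exact_mod_cast hp _ (Nat.succ_pos _)
      have b3 : (Nat.card k : ℚ) ^ ((i : ℕ) + 1) ≤ (Nat.card k : ℚ) ^ r := by
        exact_mod_cast Nat.pow_le_pow_right (by omega) i.2
      have h5 : ((v.ord J : ℤ) : ℚ) = ((Nat.card k : ℚ) ^ r - 1) * v.ord (D.g (i + 1)) -
          ((Nat.card k : ℚ) ^ ((i : ℕ) + 1) - 1) * v.ord (D.g r) := by
        rw [hJ', v.ord_mul (pow_ne_zero _ h0) (pow_ne_zero _ (inv_ne_zero D.ne)), v.ord_pow,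
          v.ord_pow, v.ord_inv, Nat.cast_sub (hp r hr).le,
          Nat.cast_sub (hp (i + 1) (Nat.succ_pos _)).le]
        push_cast
        ring
      generalize (Nat.card k : ℚ) ^ r = A at *
      generalize (Nat.card k : ℚ) ^ ((i : ℕ) + 1) = B at *
      rw [div_sub_div _ _ (by linarith) (by linarith),
        div_le_iff₀ (mul_pos (by linarith) (by linarith))] at h4
      have h6 : lam (Nat.card k) r D.g v * ((A - 1) * (B - 1)) ≤
          lam (Nat.card k) r D.g v * A ^ 2 := mul_le_mul_of_nonneg_left (by nlinarith) h2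
      have h7 : ((-v.ord J : ℤ) : ℚ) ≤ A ^ 2 * lam (Nat.card k) r D.g v := by
        push_cast
        linarith
      rw [hE]
      rcases le_total (-v.ord J) 0 with h8 | h8
      · rwa [Int.toNat_of_nonpos h8, Nat.cast_zero]
      · rwa [← Int.cast_natCast, Int.toNat_of_nonneg h8]
    have h2 : ((tot E : ℕ) : ℚ) ≤ ((Nat.card k : ℚ) ^ r) ^ 2 * C := by
      have hfin := lam_fin hK (Nat.card k) r D.g
      classical
      have h3 : D.h kb = ∑ v ∈ hfin.toFinset ∪ E.support, lam (Nat.card k) r D.g v :=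
        finsum_eq_sum_of_support_subset _ fun v hv => by
          rw [Finset.coe_union]
          exact Or.inl (hfin.mem_toFinset.2 hv)
      calc ((tot E : ℕ) : ℚ) = ∑ v ∈ E.support, (E v : ℚ) := Nat.cast_sum _ _
        _ ≤ ∑ v ∈ hfin.toFinset ∪ E.support, (E v : ℚ) :=
          Finset.sum_le_sum_of_subset_of_nonneg Finset.subset_union_right fun _ _ _ => by positivity
        _ ≤ _ := Finset.sum_le_sum fun v _ => h1 v
        _ = ((Nat.card k : ℚ) ^ r) ^ 2 * D.h kb := by rw [h3, Finset.mul_sum]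
        _ ≤ _ := mul_le_mul_of_nonneg_left hC (by positivity)
    exact_mod_cast h2.trans (Nat.le_ceil _)
  · rw [Set.mem_ofPred_eq, hJ', mul_pow, ← pow_mul, mul_comm (_ - 1), pow_mul, hu]
    simp only [map_mul, map_pow, map_inv₀]

/-- The stabiliser of `w` has index at most `n`; on it the two representations agree in the
coordinates `w * E'.e`. -/
theorem twist {L : Type} [Field L] [Algebra L Ω] {φ φ' : Ω →ₗ[k] Ω} {w : Ω} (hw : w ≠ 0)
    (h : ∀ x, φ (w * x) = w * φ' x)
    (hφ : ∀ (σ : Ω ≃ₐ[L] Ω) (c : k[X]) y, σ (aeval φ c y) = aeval φ c (σ y)) {n : ℕ} (hn : 0 < n)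
    {x : L} (hx : w ^ n = algebraMap L Ω x) {C : ℕ} (hC : Bdd L φ r C) : Bdd L φ' r (n * C) := by
  classical
  intro a ha E' ρ' hρ'
  have h1 : ∀ (c : k[X]) y, aeval φ c (w * y) = w * aeval φ' c y := fun c => by
    induction c using Polynomial.induction_on with
    | C t => simp
    | add p q hp hq => simp [hp, hq, mul_add]
    | monomial m t ih =>
      intro y
      rw [pow_succ, ← mul_assoc, map_mul (aeval φ), map_mul (aeval φ'), aeval_X, aeval_X,
        Module.End.mul_apply, Module.End.mul_apply, h, ih]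
  let E : Coord φ a (Fin r) :=
    { e := (AddMonoidHom.mulLeft w).comp E'.e
      inj := (mul_right_injective₀ hw).comp E'.inj
      range := fun y => by
        obtain ⟨z, rfl⟩ : ∃ z, y = w * z := ⟨w⁻¹ * y, (mul_inv_cancel_left₀ hw y).symm⟩
        rw [h1, mul_eq_zero_iff_left hw, E'.range]
        exact exists_congr fun v => (mul_right_inj' hw).symm
      smul := fun c v => by
        change w * _ = aeval φ c (w * _)
        rw [h1, E'.smul] }
  obtain ⟨ρ, hρ⟩ := exists_rep hφ E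
  have h2 := hC a ha E ρ hρ
  have hf : Finite (AdjoinRoot a) := Nat.finite_of_card_ne_zero (by
    rw [card_adjoinRoot ha]
    exact (pow_pos Nat.card_pos _).ne')
  let H := MulAction.stabilizer (Ω ≃ₐ[L] Ω) w
  have h3 : H.map ρ ≤ ρ'.range := by
    rintro _ ⟨σ, hσ, rfl⟩
    refine ⟨σ, Units.ext (Rep_uniq E fun v => ?_)⟩
    have h4 : σ w = w := hσ
    rw [← hρ]
    change w * _ = σ (w * _)
    rw [map_mul, h4, hρ']
  have h5 : MulAction.orbit (Ω ≃ₐ[L] Ω) w ⊆ ((nthRoots n (algebraMap L Ω x)).toFinset : Set Ω) := by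
    rintro _ ⟨σ, rfl⟩
    rw [Finset.mem_coe, Multiset.mem_toFinset, mem_nthRoots hn]
    change σ w ^ n = _
    rw [← map_pow, hx, AlgEquiv.commutes]
  have h6 : H.index ≤ n := by
    rw [MulAction.index_stabilizer]
    refine (Set.ncard_le_ncard h5).trans ?_
    rw [Set.ncard_coe_finset]
    exact (Multiset.toFinset_card_le _).trans (card_nthRoots _ _)
  have h7 : H.FiniteIndex := ⟨by
    rw [MulAction.index_stabilizer]
    exact Set.ncard_ne_zero_of_mem (MulAction.mem_orbit_self w) ((Finset.finite_toSet _).subset h5)⟩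
  calc ρ'.range.index ≤ (H.map ρ).index := Subgroup.index_antitone h3
    _ = (H ⊔ ρ.ker).index * ρ.range.index := Subgroup.index_map _ _
    _ ≤ n * C := Nat.mul_le_mul ((Subgroup.index_antitone le_sup_left).trans h6) h2

end Pool.Agent.Lib.MP_6adaea_nt.U
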