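import Pool.Agent.Lib.MP_6adaea_nt.U.PL
import Pool.Agent.Lib.MP_6adaea_nt.U.GenS
import Pool.Agent.Lib.MP_6adaea_nt.U.Dcp

/-!
Power series lemmas for thick windows.
-/

set_option linter.unusedSectionVars false

namespace Pool.Agent.Lib.MP_6adaea_nt.U
open Matrix Polynomial G
open scoped TensorProduct

variable {k kb : Type} [Field k] [Finite k] [Field kb] [Algebra k kb]

/-- the quotient of the power series ring -/
abbrev Sm (kb : Type) [Field kb] (m : ℕ) : Type :=
  PowerSeries kb ⧸ Ideal.span {(PowerSeries.X : PowerSeries kb) ^ m}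

private theorem thA_trunc {A : Type} [CommRing A] (m : ℕ) (f : PowerSeries A) :
    PowerSeries.X ^ m ∣ f - (PowerSeries.trunc m f : PowerSeries A) :=
  ⟨_, sub_eq_of_eq_add (PowerSeries.eq_X_pow_mul_shift_add_trunc m f)⟩

private theorem thA_span (m : ℕ) : Submodule.span kb (Set.range fun i : Fin m =>
    (Ideal.Quotient.mk _ (PowerSeries.X ^ (i : ℕ)) : Sm kb m)) = ⊤ := by
  refine eq_top_iff.2 fun x _ => ?_
  obtain ⟨f, rfl⟩ := Ideal.Quotient.mk_surjective x
  have h : PowerSeries.X ^ m ∣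
      f - ∑ i : Fin m, PowerSeries.coeff i f • (PowerSeries.X : PowerSeries kb) ^ (i : ℕ) := by
    refine PowerSeries.X_pow_dvd_iff.2 fun j hj => ?_
    rw [map_sub, map_sum, Finset.sum_eq_single (⟨j, hj⟩ : Fin m)]
    · simp
    · intro b _ hb
      have : j ≠ b := fun e => hb (Fin.ext e.symm)
      simp [PowerSeries.coeff_X_pow, this]
    · simp
  rw [Ideal.Quotient.eq.2 (Ideal.mem_span_singleton.2 h), ← Ideal.Quotient.mkₐ_eq_mk kb, map_sum]
  refine Submodule.sum_mem _ fun i _ => ?_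
  rw [map_smul]
  exact Submodule.smul_mem _ _ (Submodule.subset_span ⟨i, rfl⟩)

instance Sm.finite (m : ℕ) : Module.Finite kb (Sm kb m) := by
  exact ⟨Submodule.fg_def.2 ⟨_, Set.finite_range _, thA_span m⟩⟩

theorem Sm.finrank_le (m : ℕ) : Module.finrank kb (Sm kb m) ≤ m := by
  simpa using finrank_le_of_span_eq_top (thA_span (kb := kb) m)

theorem Sm.exists_aug {m : ℕ} (hm : 0 < m) : ∃ x0 : Sm kb m →ₐ[kb] kb,
    (∀ f, x0 (Ideal.Quotient.mk _ f) = PowerSeries.constantCoeff f) ∧ RingHom.ker x0 ^ m = ⊥ := by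
  let c : PowerSeries kb →ₐ[kb] kb :=
    { (PowerSeries.constantCoeff : PowerSeries kb →+* kb) with commutes' := fun x => by simp }
  refine ⟨Ideal.Quotient.liftₐ _ c fun a ha => ?_, fun f => rfl, ?_⟩
  · obtain ⟨b, rfl⟩ := Ideal.mem_span_singleton.1 ha
    change PowerSeries.constantCoeff _ = 0
    simp [hm.ne']
  · refine eq_bot_iff.2 ((Ideal.pow_right_mono
      (J := Ideal.span {(Ideal.Quotient.mk _ PowerSeries.X : Sm kb m)}) ?_ m).trans ?_)
    · intro x hx
      obtain ⟨f, rfl⟩ := Ideal.Quotient.mk_surjective x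
      exact Ideal.mem_span_singleton.2 (map_dvd _ (PowerSeries.X_dvd_iff.2 hx))
    · rw [Ideal.span_singleton_pow, ← map_pow,
        Ideal.Quotient.eq_zero_iff_mem.2 (Ideal.mem_span_singleton_self _)]
      simp

/-- with `c` the constant term, `(l ^ N - c ^ N) ^ p ^ e = l ^ (N * p ^ e) - 1`, and
`l ^ N - c ^ N = (l - c) * unit` -/
theorem const_of_pow {l : PowerSeries kb} {N e m : ℕ} (hN : (N : k) ≠ 0) (hm : 0 < m)
    (h : PowerSeries.X ^ (m * ringChar k ^ e) ∣ l ^ (N * ringChar k ^ e) - 1) :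
    PowerSeries.X ^ m ∣ l - PowerSeries.C (PowerSeries.constantCoeff l) := by
  have : Fact (ringChar k).Prime := ⟨CharP.char_is_prime k _⟩
  have : CharP kb (ringChar k) := charP_of_injective_algebraMap (algebraMap k kb).injective _
  have : CharP (PowerSeries kb) (ringChar k) :=
    charP_of_injective_algebraMap (algebraMap kb (PowerSeries kb)).injective _
  have hq : ringChar k ^ e ≠ 0 := pow_ne_zero _ (Fact.out : (ringChar k).Prime).ne_zero
  set c := PowerSeries.constantCoeff l with hc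
  have h1 : c ^ (N * ringChar k ^ e) = 1 := by
    have := PowerSeries.X_dvd_iff.1 ((dvd_pow_self _ (mul_ne_zero hm.ne' hq)).trans h)
    rwa [map_sub, map_pow, map_one, sub_eq_zero] at this
  have hN0 : N ≠ 0 := by
    rintro rfl
    exact hN Nat.cast_zero
  have hc0 : c ≠ 0 := by
    intro h0
    rw [h0, zero_pow (mul_ne_zero hN0 hq)] at h1
    exact zero_ne_one h1
  have h2 : (PowerSeries.X ^ m) ^ ringChar k ^ e ∣ (l ^ N - PowerSeries.C c ^ N) ^ ringChar k ^ e := by
    rwa [sub_pow_char_pow, ← pow_mul, ← pow_mul, ← pow_mul, ← map_pow, h1, map_one]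
  rw [IsIntegrallyClosed.pow_dvd_pow_iff hq, ← geom_sum₂_mul] at h2
  refine (IsUnit.dvd_mul_left ?_).1 h2
  rw [PowerSeries.isUnit_iff_constantCoeff, map_sum, isUnit_iff_ne_zero,
    Finset.sum_congr rfl (g := fun _ => c ^ (N - 1))]
  · rw [Finset.sum_const, Finset.card_range, nsmul_eq_mul]
    refine mul_ne_zero ?_ (pow_ne_zero _ hc0)
    rw [← map_natCast (algebraMap k kb)]
    exact (_root_.map_ne_zero _).2 hN
  · intro i hi
    rw [map_mul, map_pow, map_pow, PowerSeries.constantCoeff_C, ← hc, ← pow_add]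
    congr 1
    have := Finset.mem_range.1 hi
    omega

/-- with `s` the product of the minimal polynomials of the constant terms, `b = s ^ (2 * m)` -/
theorem exists_level [Algebra.IsAlgebraic k kb] (τ : Fin 2 → PowerSeries kb) (m : ℕ) :
    ∃ b : k[X], b.Monic ∧
      qd (fun i => (Ideal.Quotient.mk _ (τ i) : Sm kb m)) ∣ b.map (algebraMap k (Sm kb m)) := by
  have hm : ∀ i, (minpoly k (PowerSeries.constantCoeff (τ i))).Monic := fun i =>
    minpoly.monic (Algebra.IsIntegral.isIntegral _)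
  have key : ∀ i, X - C (Ideal.Quotient.mk _ (τ i) : Sm kb m) ∣
      (minpoly k (PowerSeries.constantCoeff (τ i)) ^ m).map (algebraMap k (Sm kb m)) := by
    intro i
    let c : PowerSeries kb →ₐ[k] kb :=
      { (PowerSeries.constantCoeff : PowerSeries kb →+* kb) with
        commutes' := fun x => by simp [PowerSeries.algebraMap_apply] }
    have h1 : PowerSeries.X ∣ aeval (τ i) (minpoly k (PowerSeries.constantCoeff (τ i))) := by
      rw [PowerSeries.X_dvd_iff]
      exact (aeval_algHom_apply c (τ i) _).symm.trans (minpoly.aeval k _)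
    rw [dvd_iff_isRoot, IsRoot, eval_map_algebraMap, ← Ideal.Quotient.mkₐ_eq_mk k,
      aeval_algHom_apply, map_pow, Ideal.Quotient.mkₐ_eq_mk, Ideal.Quotient.eq_zero_iff_mem]
    exact Ideal.mem_span_singleton.2 (pow_dvd_pow_of_dvd h1 m)
  refine ⟨_, ((hm 0).pow m).mul ((hm 1).pow m), ?_⟩
  rw [Polynomial.map_mul]
  exact mul_dvd_mul (key 0) (key 1)

private theorem thA_ev {A T : Type} [CommRing A] [CommRing T] (ψ : A[X] →+* T) {m : ℕ}
    (h : ψ X ^ m = 0) {p q : A[X]}
    (hpq : PowerSeries.X ^ m ∣ (p : PowerSeries A) - (q : PowerSeries A)) : ψ p = ψ q := by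
  have : (X : A[X]) ^ m ∣ p - q := by
    refine Polynomial.X_pow_dvd_iff.2 fun d hd => ?_
    simpa using PowerSeries.X_pow_dvd_iff.1 hpq d hd
  obtain ⟨c, hc⟩ := this
  rw [← sub_eq_zero, ← map_sub, hc, map_mul, map_pow, h, zero_mul]

private theorem thA_lT {Ω S : Type} [Field Ω] [Algebra kb Ω] [CommRing S] [Algebra kb S] (s : S)
    (z : Ω ⊗[kb] S) : (LinearMap.mulLeft kb s).lTensor Ω z = (1 ⊗ₜ s) * z := by
  induction z with
  | zero => simp
  | tmul a b => simp
  | add a b ha hb => rw [map_add, ha, hb, mul_add]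

private theorem thA_exact {o m : ℕ} (h : o ≤ m) : Function.Exact
    (LinearMap.mulLeft kb (Ideal.Quotient.mk _ (PowerSeries.X ^ (m - o)) : Sm kb m))
    (LinearMap.mulLeft kb (Ideal.Quotient.mk _ (PowerSeries.X ^ o) : Sm kb m)) := by
  intro y
  obtain ⟨f, rfl⟩ := Ideal.Quotient.mk_surjective y
  have e : (PowerSeries.X : PowerSeries kb) ^ m = PowerSeries.X ^ o * PowerSeries.X ^ (m - o) := by
    rw [← pow_add, Nat.add_sub_cancel' h]
  constructor
  · intro h0
    rw [LinearMap.mulLeft_apply, ← map_mul, Ideal.Quotient.eq_zero_iff_mem,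
      Ideal.mem_span_singleton, e,
      mul_dvd_mul_iff_left (pow_ne_zero _ PowerSeries.X_ne_zero)] at h0
    obtain ⟨c, rfl⟩ := h0
    exact ⟨Ideal.Quotient.mk _ c, by rw [LinearMap.mulLeft_apply, map_mul]⟩
  · rintro ⟨x, hx⟩
    rw [← hx, LinearMap.mulLeft_apply, LinearMap.mulLeft_apply, ← mul_assoc, ← map_mul, ← e,
      Ideal.Quotient.eq_zero_iff_mem.2 (Ideal.mem_span_singleton_self _), zero_mul]

private theorem thA_zero {Ω S : Type} [Field Ω] [Algebra kb Ω] [CommRing S] [Algebra kb S]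
    {s t : S} (he : Function.Exact (LinearMap.mulLeft kb s) (LinearMap.mulLeft kb t))
    {I : Ideal S} (h : s ∈ I) {z : Ω ⊗[kb] S} (hz : (1 ⊗ₜ t) * z = 0) :
    Algebra.TensorProduct.map (AlgHom.id kb Ω) (Ideal.Quotient.mkₐ kb I) z = 0 := by
  rw [← thA_lT] at hz
  obtain ⟨w, rfl⟩ := (Module.Flat.lTensor_exact Ω he z).1 hz
  rw [thA_lT, map_mul, Algebra.TensorProduct.map_tmul, Ideal.Quotient.mkₐ_eq_mk,
    Ideal.Quotient.eq_zero_iff_mem.2 h, TensorProduct.tmul_zero, zero_mul]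

private theorem thA_gen {K Ω S : Type} [Field K] [Field Ω] [Algebra kb K] [Algebra kb Ω]
    [Algebra K Ω] [IsScalarTower kb K Ω] [CommRing S] [Algebra kb S] {m : ℕ}
    (π : PowerSeries kb →ₐ[kb] S) (hπ : π (PowerSeries.X ^ m) = 0) (τ : Fin 2 → PowerSeries kb)
    {Δ : R2 K} {o : ℕ} (h : ¬PowerSeries.X ^ (o + 1) ∣ gp K τ Δ) (z : Ω ⊗[kb] S)
    (hz : inc S K Ω (evS kb K (fun i => π (τ i)) Δ) * z = 0) :
    (1 ⊗ₜ π (PowerSeries.X ^ o)) * z = 0 := by
  let ψ : K[X] →+* Ω ⊗[kb] S := eval₂RingHom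
    (Algebra.TensorProduct.includeLeftRingHom.comp (algebraMap K Ω))
    ((1 : Ω) ⊗ₜ[kb] π PowerSeries.X)
  have hX : ∀ j, ψ X ^ j = 1 ⊗ₜ π (PowerSeries.X ^ j) := by
    intro j
    simp [ψ]
  have hXm : ψ X ^ m = 0 := by rw [hX, hπ, TensorProduct.tmul_zero]
  have hmap : ∀ p : kb[X], ψ (p.map (algebraMap kb K)) = 1 ⊗ₜ π (p : PowerSeries kb) := by
    intro p
    induction p using Polynomial.induction_on' with
    | add p q hp hq =>
      rw [Polynomial.map_add, map_add, hp, hq, coe_add, map_add, TensorProduct.tmul_add]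
    | monomial n c =>
      rw [← C_mul_X_pow_eq_monomial, Polynomial.map_mul, Polynomial.map_pow, map_C, map_X, map_mul,
        map_pow, hX, coe_mul, coe_pow, coe_C, coe_X, ← PowerSeries.smul_eq_C_mul, map_smul,
        TensorProduct.tmul_smul, Algebra.smul_def]
      congr 1
      simp [ψ, ← IsScalarTower.algebraMap_apply]
  have hrel : ∀ f : R2 K, ∃ p : K[X], PowerSeries.X ^ m ∣ gp K τ f - (p : PowerSeries K) ∧
      inc S K Ω (evS kb K (fun i => π (τ i)) f) = ψ p := by
    intro f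
    induction f using MvPolynomial.induction_on with
    | C a => exact ⟨C a, by simp [gp], by simp [ψ, inc, act, evS]⟩
    | add p q hp hq =>
      obtain ⟨p', h1, h2⟩ := hp
      obtain ⟨q', h3, h4⟩ := hq
      refine ⟨p' + q', ?_, by rw [map_add, map_add, map_add, h2, h4]⟩
      rw [map_add, coe_add, add_sub_add_comm]
      exact dvd_add h1 h3
    | mul_X p i hp =>
      obtain ⟨p', h1, h2⟩ := hp
      refine ⟨p' * (PowerSeries.trunc m (τ i)).map (algebraMap kb K), ?_, ?_⟩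
      · have h3 := map_dvd (PowerSeries.map (algebraMap kb K)) (thA_trunc m (τ i))
        rw [map_pow, PowerSeries.map_X, map_sub, ← Polynomial.polynomial_map_coe] at h3
        have h4 : gp K τ (MvPolynomial.X i) = PowerSeries.map (algebraMap kb K) (τ i) := by
          simp [gp]
        rw [map_mul, h4, coe_mul]
        convert dvd_add (h1.mul_right (PowerSeries.map (algebraMap kb K) (τ i)))
          (h3.mul_left (p' : PowerSeries K)) using 1
        ring
      · obtain ⟨c, hc⟩ := thA_trunc m (τ i)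
        have h5 : π (PowerSeries.trunc m (τ i) : PowerSeries kb) = π (τ i) := by
          rw [eq_comm, ← sub_eq_zero, ← map_sub, hc, map_mul, hπ, zero_mul]
        rw [map_mul, map_mul, map_mul, h2, hmap, h5]
        simp [inc, act, evS]
  obtain ⟨p, hp, hp'⟩ := hrel Δ
  have h0 : gp K τ Δ ≠ 0 := fun e => h (e ▸ dvd_zero _)
  obtain ⟨n, u, hu⟩ := IsDiscreteValuationRing.associated_pow_irreducible h0
    PowerSeries.X_irreducible
  have hn : n ≤ o := by
    by_contra hlt
    have h6 : o + 1 ≤ n := by omega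
    exact h ((pow_dvd_pow _ h6).trans ⟨(u⁻¹ : (PowerSeries K)ˣ), by rw [← hu]; simp⟩)
  have h1 : ψ (p * PowerSeries.trunc m (u : PowerSeries K)) = ψ (X ^ n) := by
    refine thA_ev ψ hXm ?_
    rw [coe_mul, coe_pow, coe_X, ← hu]
    convert (dvd_add (hp.mul_right (u : PowerSeries K))
      ((thA_trunc m (u : PowerSeries K)).mul_left (p : PowerSeries K))).neg_right using 1
    ring
  rw [← hX, ← Nat.sub_add_cancel hn, pow_add, mul_assoc, ← map_pow ψ X n, ← h1, map_mul,
    mul_comm (ψ p), mul_assoc, ← hp', hz, mul_zero, mul_zero]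

/-- `Δ τ = X ^ o' * unit` in `K⟦X⟧` with `o' ≤ o`; there is a ring map from `K⟦X⟧` to
`Ω ⊗ Sm m` (through polynomials modulo `X ^ m`), or argue with truncated inverses -/
theorem kill_Sm {K Ω : Type} [Field K] [Field Ω] [Algebra kb K] [Algebra kb Ω] [Algebra K Ω]
    [IsScalarTower kb K Ω] (τ : Fin 2 → PowerSeries kb) {Δ : R2 K} {o m m' : ℕ}
    (h : ¬PowerSeries.X ^ (o + 1) ∣ gp K τ Δ) (hm : m' + o ≤ m) (z : Ω ⊗[kb] Sm kb m)
    (hz : inc (Sm kb m) K Ω (evS kb K (fun i => Ideal.Quotient.mk _ (τ i)) Δ) * z = 0) :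
    Algebra.TensorProduct.map (AlgHom.id kb Ω)
      (Ideal.Quotient.mkₐ kb
        (Ideal.span {(Ideal.Quotient.mk _ (PowerSeries.X ^ m') : Sm kb m)})) z = 0 := by
  have h2 := thA_gen (S := Sm kb m)
    (Ideal.Quotient.mkₐ kb (Ideal.span {(PowerSeries.X : PowerSeries kb) ^ m}))
    (Ideal.Quotient.eq_zero_iff_mem.2 (Ideal.mem_span_singleton_self _)) τ h z hz
  have h3 : (Ideal.Quotient.mk _ (PowerSeries.X ^ (m - o)) : Sm kb m) ∈
      Ideal.span {(Ideal.Quotient.mk _ (PowerSeries.X ^ m') : Sm kb m)} :=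
    Ideal.mem_span_singleton.2 (map_dvd _ (pow_dvd_pow _ (by omega)))
  exact thA_zero (thA_exact (kb := kb) (o := o) (m := m) (by omega)) h3 h2

/-- `pl` over the fraction field (`Hom.exists_map`), `stab_fix`, and normalisation of `w` -/
theorem pl_series [Infinite kb] {n : Type} [Fintype n] [DecidableEq n]
    {τ : Fin 2 → PowerSeries kb}
    (G : Submonoid (Matrix (n × Fin 2) (n × Fin 2) (PowerSeries kb))) (hG : ∀ g ∈ G, IsUnit g)
    {D : ℕ} (hD : ¬Dense D τ (G : Set (Matrix (n × Fin 2) (n × Fin 2) (PowerSeries kb)))) :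
    ∃ (M : ℕ) (w : JJ n M → PowerSeries kb), (∃ j, IsUnit (w j)) ∧
      (∀ g ∈ G, ∃ χ : PowerSeries kb, ten M g *ᵥ w = χ • w) ∧
      ∃ a b : n, a ≠ b ∧ ∃ c0 c1 : kb, rep M τ (elc (PowerSeries kb) a b c0 c1) *ᵥ w ≠ w := by
  classical
  simp only [Dense, not_forall] at hD
  obtain ⟨f, hf, h0, s, hs, hfs⟩ := hD
  let F := FractionRing (PowerSeries kb)
  let φ : PowerSeries kb →+* F := algebraMap _ _
  have hφ : Function.Injective φ := IsFractionRing.injective _ _
  obtain ⟨f', hf', hff⟩ := hf.exists_map φ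
  obtain ⟨M, -, w', h1, h2⟩ := pl (G.map (φ.mapMatrix (m := n × Fin 2)).toMonoidHom)
    (by rintro _ ⟨g, hg, rfl⟩; exact (hG g hg).map _) hf'
    (by rintro _ ⟨g, hg, rfl⟩; exact (hff g).trans (by rw [h0 g hg, map_zero]))
    (s := (hat τ s).map φ) (by rw [hff]; exact (map_ne_zero_iff φ hφ).2 hfs)
  obtain ⟨b, hb⟩ := IsLocalization.exist_integer_multiples_of_finite
    (nonZeroDivisors (PowerSeries kb)) w'
  choose w0 hw0 using hb
  have hb0 : φ b ≠ 0 := (map_ne_zero_iff φ hφ).2 (nonZeroDivisors.coe_ne_zero b)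
  obtain ⟨j1, hj1⟩ : ∃ j, w' j ≠ 0 := by
    by_contra hn
    push Not at hn
    exact h2 (by rw [funext hn]; exact mulVec_zero _)
  have : Nonempty (JJ n M) := ⟨j1⟩
  obtain ⟨j0, hj0⟩ := Finite.exists_min fun j => IsDiscreteValuationRing.addVal _ (w0 j)
  choose w hw using fun j => IsDiscreteValuationRing.addVal_le_iff_dvd.1 (hj0 j)
  have hd : w0 j0 ≠ 0 := by
    intro e
    have := hw0 j1
    rw [hw j1, e, zero_mul, map_zero, Algebra.smul_def] at this
    exact mul_ne_zero hb0 hj1 this.symm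
  have hw1 : w j0 = 1 := mul_left_cancel₀ hd (by rw [← hw, mul_one])
  have hd' : φ (w0 j0) ≠ 0 := (map_ne_zero_iff φ hφ).2 hd
  have hc : φ ∘ w = ((φ (w0 j0))⁻¹ * φ b) • w' := by
    funext j
    have := hw0 j
    rw [hw j, map_mul, Algebra.smul_def] at this
    rw [Pi.smul_apply, smul_eq_mul, mul_assoc, ← this, inv_mul_cancel_left₀ hd']
    rfl
  have hc0 : (φ (w0 j0))⁻¹ * φ b ≠ 0 := mul_ne_zero (inv_ne_zero hd') hb0
  refine ⟨M, w, ⟨j0, hw1 ▸ isUnit_one⟩, fun g hg => ?_, ?_⟩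
  · obtain ⟨χ, hχ⟩ := h1 _ ⟨g, hg, rfl⟩
    have h3 : ∀ j, φ ((ten M g *ᵥ w) j) = χ * φ (w j) := by
      intro j
      rw [RingHom.map_mulVec, ten_map, hc, mulVec_smul]
      erw [hχ]
      rw [smul_comm, ← hc]
      rfl
    refine ⟨(ten M g *ᵥ w) j0, funext fun j => hφ ?_⟩
    rw [Pi.smul_apply, smul_eq_mul, map_mul, h3, h3, hw1, map_one, mul_one]
  · by_contra hn
    push Not at hn
    have h4 := stab_fix (F := kb) (t := fun i => φ (τ i)) F (w := φ ∘ w) (fun a b hab c0 c1 => by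
      funext j
      rw [← pmap_elc φ (fun c => (IsScalarTower.algebraMap_apply kb _ F c).symm), ← rep_map,
        ← RingHom.map_mulVec, hn a b hab]
      rfl) (s := pmap φ s) (by
        have := Polynomial.map_dvd φ hs
        rwa [qd_map, Polynomial.map_sub, Polynomial.map_one, ← pmap_det] at this)
    rw [rep, ← hat_map, hc, mulVec_smul] at h4
    exact h2 (smul_right_injective _ hc0 h4)

end Pool.Agent.Lib.MP_6adaea_nt.U
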