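import Pool.Agent.Lib.MP_6adaea_nt.U.Win
import Pool.Agent.Lib.MP_6adaea_nt.U.LatK
import Pool.Agent.Lib.MP_6adaea_nt.U.ThickA

/-!
Density at the small primes.
-/

set_option linter.unusedSectionVars false

namespace Pool.Agent.Lib.MP_6adaea_nt.U
open Matrix Polynomial G
open scoped TensorProduct

variable {k kb K Ω : Type} [Field k] [Finite k] [Field kb] [Field K] [Field Ω] [Algebra k kb]
  [Algebra k K] [Algebra k Ω] [Algebra kb K] [Algebra kb Ω] [Algebra K Ω]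
  [IsScalarTower k kb K] [IsScalarTower k kb Ω] [IsScalarTower k K Ω] [IsScalarTower kb K Ω]
  [IsAlgClosed kb] [Algebra.IsAlgebraic k kb] [IsSepClosed Ω] [IsGalois K Ω] {θ : K} {r : ℕ}

theorem thick_mulVec_pow {S J : Type} [CommRing S] [Fintype J] [DecidableEq J]
    {A : Matrix J J S} {w : J → S} {χ : S} (h : A *ᵥ w = χ • w) (n : ℕ) :
    (A ^ n) *ᵥ w = χ ^ n • w := by
  induction n with
  | zero => simp
  | succ n ih => rw [pow_succ, ← mulVec_mulVec, h, mulVec_smul, ih, smul_smul, pow_succ']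

theorem thick_mk_eq {n : ℕ} {x y : PowerSeries kb} :
    (Ideal.Quotient.mk _ x : Sm kb n) = Ideal.Quotient.mk _ y ↔ PowerSeries.X ^ n ∣ x - y := by
  rw [Ideal.Quotient.eq, Ideal.mem_span_singleton]

theorem thick_map_mulVec {S S' J : Type} [CommRing S] [CommRing S'] [Fintype J] (f : S →+* S')
    (A : Matrix J J S) (w : J → S) :
    A.map f *ᵥ (fun j => f (w j)) = fun j => f ((A *ᵥ w) j) :=
  funext fun j => (RingHom.map_mulVec f A w j).symm

theorem thick_eig {τ : Fin 2 → PowerSeries kb} {M m n : ℕ} (hn : n ≤ m)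
    {B : Matrix (Fin r) (Fin r) k[X]} {h : Matrix (Fin r × Fin 2) (Fin r × Fin 2) (PowerSeries kb)}
    (hc : XCong m (hat τ (pmap (algebraMap k (PowerSeries kb)) B)) h)
    {w : JJ (Fin r) M → PowerSeries kb} {χ : PowerSeries kb} (hχ : ten M h *ᵥ w = χ • w) :
    rep M (fun i => (Ideal.Quotient.mk _ (τ i) : Sm kb n)) (pmap (algebraMap k (Sm kb n)) B) *ᵥ
        (fun j => (Ideal.Quotient.mk _ (w j) : Sm kb n)) =
      (Ideal.Quotient.mk _ χ : Sm kb n) • fun j => (Ideal.Quotient.mk _ (w j) : Sm kb n) := by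
  have h1 : hat (fun i => (Ideal.Quotient.mk _ (τ i) : Sm kb n)) (pmap (algebraMap k (Sm kb n)) B) =
      h.map (Ideal.Quotient.mk _) := by
    have e : algebraMap k (Sm kb n) =
        (Ideal.Quotient.mk _).comp (algebraMap k (PowerSeries kb)) := rfl
    rw [e, ← pmap_pmap, ← hat_map]
    ext i j
    exact thick_mk_eq.2 ((pow_dvd_pow _ hn).trans (hc i j))
  rw [rep, h1, ← ten_map, thick_map_mulVec, hχ]
  ext j
  simp

theorem thick_dvd {τ : Fin 2 → PowerSeries kb} {m n : ℕ} (hn : n ≤ m) {b : k[X]}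
    (h : qd (fun i => (Ideal.Quotient.mk _ (τ i) : Sm kb m)) ∣ b.map (algebraMap k (Sm kb m))) :
    qd (fun i => (Ideal.Quotient.mk _ (τ i) : Sm kb n)) ∣ b.map (algebraMap k (Sm kb n)) := by
  have hle : Ideal.span {(PowerSeries.X : PowerSeries kb) ^ m} ≤
      Ideal.span {(PowerSeries.X : PowerSeries kb) ^ n} :=
    Ideal.span_singleton_le_span_singleton.2 (pow_dvd_pow _ hn)
  have h1 := Polynomial.map_dvd (Ideal.Quotient.factor hle) h
  rw [qd_map, Polynomial.map_map] at h1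
  exact h1

theorem thick_aeval (τ : Fin 2 → PowerSeries kb) (n : ℕ) (f : R2 kb) :
    MvPolynomial.aeval (fun i => (Ideal.Quotient.mk _ (τ i) : Sm kb n)) f =
      Ideal.Quotient.mk _ (gp kb τ f) := by
  have h := MvPolynomial.comp_aeval_apply (R := kb) τ
    (Ideal.Quotient.mkₐ kb (Ideal.span {(PowerSeries.X : PowerSeries kb) ^ n})) f
  have e : gp kb τ f = MvPolynomial.aeval τ f := by
    simp [gp]
  rw [e]
  exact h.symm

theorem thick_notMem {m' n : ℕ} (hn : m' ≤ n) {x : PowerSeries kb}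
    (hx : ¬PowerSeries.X ^ m' ∣ x) :
    (Ideal.Quotient.mk _ x : Sm kb n) ∉
      Ideal.span {(Ideal.Quotient.mk _ (PowerSeries.X ^ m') : Sm kb n)} := by
  intro h
  obtain ⟨c, hc⟩ := Ideal.mem_span_singleton.1 h
  obtain ⟨c, rfl⟩ := Ideal.Quotient.mk_surjective c
  rw [← map_mul, thick_mk_eq] at hc
  have h1 := dvd_add ((pow_dvd_pow _ hn).trans hc) (dvd_mul_right (PowerSeries.X ^ m') c)
  rw [sub_add_cancel] at h1
  exact hx h1

theorem thick_exists_not_dvd {x : PowerSeries kb} (hx : x ≠ 0) :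
    ∃ m, ¬PowerSeries.X ^ m ∣ x := by
  by_contra h
  push Not at h
  refine hx (PowerSeries.ext fun n => ?_)
  rw [map_zero]
  exact PowerSeries.X_pow_dvd_iff.1 (h (n + 1)) n n.lt_succ_self

/-- `pl_series` gives `M`, `w`; let `X ^ m'` not divide an entry of `rep e *ᵥ w - w`, `o` from
`ord_bound` for `Dg`, `m1 = m' + o + 1`, `S = Sm kb m1`, `m = m1 * p ^ e`, `b` from `exists_level`
for `m`. Reduce `E` to level `b`. If `σ ^ (N * p ^ e)` fixes the `b`-torsion then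
`χ ^ (N * p ^ e) ≡ 1` mod `X ^ m`; `const_of_pow`, `lat_thick`, `kill_Sm`, `ht_win`. -/
theorem ht_thick (hB : Base kb θ) (hr : 0 < r) (Fr : Frb k kb K Ω) {τ : Fin 2 → PowerSeries kb}
    (hτ : Adm k τ) (G : Submonoid (Matrix (Fin r × Fin 2) (Fin r × Fin 2) (PowerSeries kb)))
    (hG : ∀ g ∈ G, IsUnit g) {Dg : ℕ}
    (hD : ¬Dense Dg τ (G : Set (Matrix (Fin r × Fin 2) (Fin r × Fin 2) (PowerSeries kb)))) :
    ∃ (m : ℕ) (b : k[X]) (C : ℚ), b ≠ 0 ∧ ∀ D : DM k Ω θ r, D.Fix Fr → D.Std Fr → C < D.h kb →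
      ∀ a : k[X], a.Monic → b ∣ a →
      ∀ (E : Coord D.φ a (Fin r)) (H : Subgroup (GL (Fin r) (AdjoinRoot a))), Cov E Fr H →
      ∃ g ∈ hats τ H, ∀ h ∈ G, ¬XCong m g h := by
  obtain ⟨M, w, ⟨j0, hj0⟩, hw, a0, b0, hab, c0, c1, hne⟩ := pl_series G hG hD
  obtain ⟨j1, hj1⟩ : ∃ j, (rep M τ (elc (PowerSeries kb) a0 b0 c0 c1) *ᵥ w - w) j ≠ 0 :=
    Function.ne_iff.1 (sub_ne_zero.2 hne)
  obtain ⟨m', hm'⟩ := thick_exists_not_dvd hj1
  obtain ⟨Dw, hwin⟩ := ht_win hB hr Fr hτ M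
  obtain ⟨o, ho⟩ := ord_bound K τ Dw
  obtain ⟨N, e, hN, hlat⟩ := lat_thick (k := k) (Ω := Ω) hB hr
  obtain ⟨m1, hm1⟩ : ∃ m1, m1 = m' + o + 1 := ⟨_, rfl⟩
  have hpos : 0 < m1 := by omega
  have hp : 0 < ringChar k ^ e :=
    pow_pos (Nat.pos_of_ne_zero (CharP.char_ne_zero_of_finite k (ringChar k))) e
  have hle : m1 ≤ m1 * ringChar k ^ e := Nat.le_mul_of_pos_right _ hp
  obtain ⟨b, hb, hbd⟩ := exists_level (k := k) τ (m1 * ringChar k ^ e)
  obtain ⟨Cη, hCη⟩ := hlat b m1 hb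
  obtain ⟨C, hC⟩ := hwin m1 Cη
  obtain ⟨x0, -, hx0⟩ := Sm.exists_aug (kb := kb) hpos
  refine ⟨m1 * ringChar k ^ e, b, C, hb.ne_zero, fun D hF hS hlt a ha hba E H hcov => ?_⟩
  by_contra hcon
  push Not at hcon
  have key : ∀ B ∈ Lifts H, ∃ χ : PowerSeries kb, ∀ n ≤ m1 * ringChar k ^ e,
      rep M (fun i => (Ideal.Quotient.mk _ (τ i) : Sm kb n)) (pmap (algebraMap k (Sm kb n)) B) *ᵥ
        (fun j => (Ideal.Quotient.mk _ (w j) : Sm kb n)) =
      (Ideal.Quotient.mk _ χ : Sm kb n) • fun j => (Ideal.Quotient.mk _ (w j) : Sm kb n) := by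
    intro B hB'
    obtain ⟨h, hh, hc⟩ := hcon _ ⟨B, hB', rfl⟩
    obtain ⟨χ, hχ⟩ := hw h hh
    exact ⟨χ, fun n hn => thick_eig hn hc hχ⟩
  obtain ⟨E', hE'⟩ := exists_coord_act ha.ne_zero hba E
  let P : PW D Fr M (Sm kb m1) :=
    { t := fun i => Ideal.Quotient.mk _ (τ i)
      a := b
      monic := hb
      E := E'
      dvd := thick_dvd hle hbd
      w := fun j => Ideal.Quotient.mk _ (w j)
      uni := Ideal.eq_top_of_isUnit_mem _ (Ideal.subset_span ⟨j0, rfl⟩) (hj0.map _)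
      eigK := fun σ => by
        obtain ⟨B, hB1, hB2⟩ := hcov.1 σ
        obtain ⟨χ, hχ⟩ := key B hB1
        exact ⟨B, _, hE' σ B (D.commK σ) hB2, hχ m1 hle⟩
      eigγ := by
        obtain ⟨B, hB1, hB2⟩ := hcov.2
        obtain ⟨χ, hχ⟩ := key B hB1
        exact ⟨B, _, hE' _ B hF.comm hB2, hχ m1 hle⟩ }
  refine hlt.not_ge (hC D hF hS (Sm kb m1) (Sm.finrank_le m1) x0 P (fun f hf => ?_)
    (fun Δ h1 h2 => ?_) fun z z' hz hEig => hCη D (Sm kb m1) x0 hx0 z z' hz fun σ => ?_)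
  · change MvPolynomial.aeval (fun i => (Ideal.Quotient.mk _ (τ i) : Sm kb m1)) f = 0
    rw [thick_aeval, hf, map_zero]
  · refine ⟨Ideal.span {(Ideal.Quotient.mk _ (PowerSeries.X ^ m') : Sm kb m1)},
      fun z hz => kill_Sm τ (ho Δ h1 h2) (by omega) z hz, a0, b0, hab, c0, c1, j1, ?_⟩
    have h3 : (rep M P.t (elc (Sm kb m1) a0 b0 c0 c1) *ᵥ P.w - P.w) j1 =
        Ideal.Quotient.mk _ ((rep M τ (elc (PowerSeries kb) a0 b0 c0 c1) *ᵥ w - w) j1) := by
      have h4 : elc (Sm kb m1) a0 b0 c0 c1 = pmap (Ideal.Quotient.mk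
          (Ideal.span {(PowerSeries.X : PowerSeries kb) ^ m1})) (elc (PowerSeries kb) a0 b0 c0 c1) :=
        (pmap_elc _ (fun _ => rfl) a0 b0 c0 c1).symm
      rw [h4]
      change (rep M (fun i => (Ideal.Quotient.mk _ (τ i) : Sm kb m1)) _ *ᵥ
        (fun j => (Ideal.Quotient.mk _ (w j) : Sm kb m1))) j1 - Ideal.Quotient.mk _ (w j1) = _
      rw [← rep_map, thick_map_mulVec, Pi.sub_apply, map_sub]
    rw [h3]
    exact thick_notMem (by omega) hm'
  · obtain ⟨B, hB1, hB2⟩ := hcov.1 σ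
    obtain ⟨χ, hχ⟩ := key B hB1
    have hA : Act E' σ B := hE' σ B (D.commK σ) hB2
    refine ⟨_, hEig σ B _ hA (hχ m1 hle), fun hfix => ⟨PowerSeries.constantCoeff χ, ?_⟩⟩
    have h1 : Cong b (B ^ (N * ringChar k ^ e)) 1 := (hA.pow _).uniq (act_one_iff.2 hfix)
    have h2 := rep_congr M ((h1.pmap (algebraMap k (Sm kb (m1 * ringChar k ^ e)))).of_dvd hbd)
    rw [pmap_one, rep_one, pmap_pow, rep_pow] at h2
    have h3 := congrFun (thick_mulVec_pow (hχ _ le_rfl) (N * ringChar k ^ e)) j0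
    rw [h2, one_mulVec, Pi.smul_apply, smul_eq_mul, ← map_pow, ← map_mul, eq_comm,
      thick_mk_eq, ← sub_one_mul, hj0.dvd_mul_right] at h3
    exact thick_mk_eq.2 (const_of_pow hN hpos h3)

end Pool.Agent.Lib.MP_6adaea_nt.U
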