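import Pool.Agent.Lib.MP_6adaea_nt.U.Thin
import Pool.Agent.Lib.MP_6adaea_nt.U.Thick
import Pool.Agent.Lib.MP_6adaea_nt.U.Grp
import Pool.Agent.Lib.MP_6adaea_nt.U.Large
import Pool.Agent.Lib.MP_6adaea_nt.U.Gam
import Pool.Agent.Lib.MP_6adaea_nt.U.NC
import Pool.Agent.Lib.MP_6adaea_nt.U.BigK
import Pool.Agent.Lib.MP_6adaea_nt.G.Det

/-!
The uniform bound.
-/

set_option linter.unusedSectionVars false

namespace Pool.Agent.Lib.MP_6adaea_nt.U
open Matrix Polynomial G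
open scoped TensorProduct

variable {k kb K Ω : Type} [Field k] [Finite k] [Field kb] [Field K] [Field Ω] [Algebra k kb]
  [Algebra k K] [Algebra k Ω] [Algebra kb K] [Algebra kb Ω] [Algebra K Ω]
  [IsScalarTower k kb K] [IsScalarTower k kb Ω] [IsScalarTower k K Ω] [IsScalarTower kb K Ω]
  [IsAlgClosed kb] [Algebra.IsAlgebraic k kb] [IsSepClosed Ω] [IsGalois K Ω] {θ : K} {r : ℕ}

open Filter

/-- levels that are eventually divisible by everything -/
theorem exists_levels (k : Type) [Field k] [Finite k] (a : ℕ → k[X]) (ha : ∀ i, a i ≠ 0) :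
    ∃ a' : ℕ → k[X], (∀ i, (a' i).Monic) ∧ (∀ i, a i ∣ a' i) ∧
      (∀ b : k[X], b ≠ 0 → ∀ᶠ i in atTop, b ∣ a' i) ∧
      ∀ i (P : k[X]), Irreducible P → P ∣ a' i → P ^ 2 ∣ a' i := by
  have : Countable k[X] := Cardinal.mk_le_aleph0_iff.1 (Polynomial.cardinalMk_le_max.trans
    (max_le (Cardinal.mk_le_aleph0_iff.2 inferInstance) le_rfl))
  have : Nonempty {b : k[X] // b ≠ 0} := ⟨⟨1, one_ne_zero⟩⟩
  obtain ⟨b, hb⟩ := exists_surjective_nat {b : k[X] // b ≠ 0}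
  let c : ℕ → k[X] := fun i => a i * ∏ j ∈ Finset.range (i + 1), (b j).1
  have hc : ∀ i, c i ≠ 0 := fun i =>
    mul_ne_zero (ha i) (Finset.prod_ne_zero_iff.2 fun j _ => (b j).2)
  have h1 : ∀ i, c i ∣ (c i * C (c i).leadingCoeff⁻¹) ^ 2 := fun i =>
    (dvd_mul_right _ _).trans (dvd_pow_self _ two_ne_zero)
  refine ⟨fun i => (c i * C (c i).leadingCoeff⁻¹) ^ 2,
    fun i => (monic_mul_leadingCoeff_inv (hc i)).pow 2, fun i => (dvd_mul_right _ _).trans (h1 i),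
    fun b' hb' => ?_, fun i P hP h => pow_dvd_pow_of_dvd (hP.prime.dvd_of_dvd_pow h) 2⟩
  obtain ⟨j, hj⟩ := hb ⟨b', hb'⟩
  refine (eventually_ge_atTop j).mono fun i hi => (Dvd.dvd.mul_left ?_ _).trans (h1 i)
  rw [show b' = (b j).1 from congrArg Subtype.val hj.symm]
  exact Finset.dvd_prod_of_mem (fun j => (b j).1) (Finset.mem_range.2 (Nat.lt_succ_of_le hi))

/-- units lift along surjections of finite rings -/
private theorem main_units {R S : Type} [Ring R] [Ring S] [Finite R] (f : R →+* S)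
    (hf : Function.Surjective f) (u : Sˣ) : ∃ w : Rˣ, f w = u := by
  obtain ⟨m, hm⟩ := hf u
  obtain ⟨i, p, hp⟩ : ∃ i p : ℕ, m ^ (i + (p + 1)) = m ^ i := by
    obtain ⟨i, j, hij, h⟩ := Finite.exists_ne_map_eq_of_infinite fun i : ℕ => m ^ i
    rcases lt_or_gt_of_ne hij with h1 | h1
    · obtain ⟨p, rfl⟩ := Nat.exists_eq_add_of_lt h1
      exact ⟨i, p, h.symm⟩
    · obtain ⟨p, rfl⟩ := Nat.exists_eq_add_of_lt h1
      exact ⟨j, p, h⟩
  have h1 : ∀ t, m ^ (i + (p + 1) * t) = m ^ i := fun t => by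
    induction t with
    | zero => rfl
    | succ t ih => rw [mul_add_one, ← add_assoc, pow_add, ih, ← pow_add, hp]
  obtain ⟨M, hM⟩ : ∃ M, (p + 1) * (i + 1) = i + M + 1 := ⟨p * (i + 1), by ring⟩
  have h2 : m ^ (i + M + 1) * m ^ (i + M + 1) = m ^ (i + M + 1) := by
    have h2 := congrArg (· * m ^ (M + 1)) (h1 (i + 1))
    simp only [hM, ← pow_add] at h2 ⊢
    convert h2 using 2 <;> ring
  have h3 : f (m ^ (i + M + 1)) = 1 := by
    have h4 := congrArg f h2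
    rw [map_mul, map_pow, hm, ← Units.val_pow_eq_pow_val] at h4
    rw [map_pow, hm, ← Units.val_pow_eq_pow_val]
    exact (Units.mul_right_inj _).1 (h4.trans (mul_one _).symm)
  have key : ∀ a b e : R, a * b = e → e * b = b * e → e * e = e →
      (a * e + 1 - e) * (b * e + 1 - e) = 1 := fun a b e k1 k2 k3 => by
    have k4 : e * (b * e) = b * e := by rw [← mul_assoc, k2, mul_assoc, k3]
    simp only [mul_add, add_mul, mul_sub, sub_mul, mul_assoc, k3, k4, mul_one, one_mul]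
    rw [← mul_assoc, k1, k3]
    abel
  refine ⟨⟨_, _, key m (m ^ (i + M)) _ (pow_succ' _ _).symm (pow_mul_comm _ _ _) h2,
    key _ _ _ (pow_succ _ _).symm (pow_mul_comm' _ _) h2⟩, ?_⟩
  simp only [map_sub, map_add, map_mul, map_one, h3, hm, mul_one, add_sub_cancel_right]

/-- the index does not decrease with the level -/
theorem index_le_of_dvd {L : Type} [Field L] [Algebra L Ω] {φ : Ω →ₗ[k] Ω}
    (hφ : ∀ (σ : Ω ≃ₐ[L] Ω) (c : k[X]) y, σ (aeval φ c y) = aeval φ c (σ y)) {a b : k[X]}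
    (ha : a ≠ 0) (hb : b ∣ a) {E : Coord φ a (Fin r)} {E' : Coord φ b (Fin r)}
    {ρ : (Ω ≃ₐ[L] Ω) →* GL (Fin r) (AdjoinRoot a)} {ρ' : (Ω ≃ₐ[L] Ω) →* GL (Fin r) (AdjoinRoot b)}
    (h : IsRep E ρ) (h' : IsRep E' ρ') : ρ'.range.index ≤ ρ.range.index := by
  obtain ⟨b', hab⟩ := id hb
  obtain ⟨E'', hE⟩ := exists_coord_dvd ha hab E
  have := finite_adjoinRoot ha
  rw [h'.index_eq (h.red hφ hE), ← MonoidHom.map_range]
  refine Nat.le_of_dvd (Nat.pos_of_ne_zero Subgroup.index_ne_zero_of_finite)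
    (Subgroup.index_map_dvd _ fun u => ?_)
  obtain ⟨w, hw⟩ := main_units (fac hb).mapMatrix (fun M => by
    choose N hN using fun i j => fac_surjective hb (M i j)
    exact ⟨Matrix.of N, Matrix.ext hN⟩) u
  exact ⟨w, Units.ext hw⟩

variable {L : Type} [Field L] [Algebra L K] [Algebra L Ω] [IsScalarTower L K Ω] [Algebra k L]
  [IsScalarTower k L Ω] [Algebra (RatFunc k) L] [IsScalarTower k (RatFunc k) L]
  [FiniteDimensional (RatFunc k) L] [IsGalois L Ω]

/-- standard modules of large height have uniformly bounded index -/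
theorem large_height (hB : Base kb (algebraMap L K (algebraMap (RatFunc k) L RatFunc.X)))
    (hr : 2 ≤ r) (Fr : Frb k kb K Ω) (hγ : ∀ x : L, Fr.γK (algebraMap L K x) = algebraMap L K x) :
    ∃ (C : ℚ) (N : ℕ), ∀ D : DM k Ω (algebraMap L K (algebraMap (RatFunc k) L RatFunc.X)) r,
      (∀ i, D.g i ∈ Set.range (algebraMap L K)) → D.Std Fr → C < D.h kb → Bdd L D.φ r N := by
  by_contra hcon
  push Not at hcon
  choose D hDL hStd hh hN using fun i : ℕ => hcon i i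
  simp only [Bdd, not_forall, not_le] at hN
  choose a ha E₀ ρ₀ hρ₀ hi using hN
  obtain ⟨a', hm, hd, hdiv, hsq⟩ := exists_levels k a ha
  have hr0 : 0 < r := by omega
  have : Nontrivial (Fin r) := Fin.nontrivial_iff_two_le.2 hr
  choose g hg using hDL
  have hdr : ∀ i, IsDr (algebraMap L Ω (algebraMap (RatFunc k) L RatFunc.X)) r
      (fun j => algebraMap L Ω (g i j)) (D i).φ := fun i => by
    simpa only [IsScalarTower.algebraMap_apply L K Ω, hg] using (D i).dr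
  have hg0 : ∀ i, g i r ≠ 0 := fun i h => (D i).ne (by rw [← hg, h, map_zero])
  have hc := fun i => aut_comm (hdr i)
  have hfix : ∀ i, (D i).Fix Fr := fun i => ⟨hγ _, fun j => by rw [← hg, hγ]⟩
  have hθ : Transcendental k (algebraMap L Ω (algebraMap (RatFunc k) L RatFunc.X)) :=
    (transcendental_algebraMap_iff (algebraMap L Ω).injective).2
      ((transcendental_algebraMap_iff (algebraMap (RatFunc k) L).injective).2
        RatFunc.transcendental_X)
  have hE := fun i => exists_coord (hdr i) hr0 ((_root_.map_ne_zero _).2 (hg0 i)) hθ (hm i).ne_zero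
  have E := fun i => (hE i).some
  choose ρ hρ using fun i => exists_rep (hc i) (E i)
  have hcov : ∀ i, Cov (E i) Fr (ρ i).range := fun i => by
    have h1 : ∀ σ : Ω ≃ₐ[L] Ω, ∃ B ∈ Lifts (ρ i).range, Act (E i) σ B := fun σ => by
      choose B hB using fun x y => AdjoinRoot.mk_surjective ((ρ i σ).val x y)
      exact ⟨Matrix.of B, ⟨_, ⟨σ, rfl⟩, Matrix.ext hB⟩,
        (act_iff_of_isRep (hρ i) σ _).2 (Matrix.ext hB)⟩
    exact ⟨fun σ => h1 (σ.restrictScalars L), h1 (AlgEquiv.ofRingEquiv (f := Fr.γ.toRingEquiv)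
      fun x => by
        rw [IsScalarTower.algebraMap_apply L K Ω]
        exact (Fr.compat _).trans (congrArg _ (hγ x)))⟩
  have hbig : ∀ C : ℚ, ∀ᶠ i in atTop, C < (D i).h kb := fun C =>
    ((tendsto_natCast_atTop_atTop (R := ℚ)).eventually_ge_atTop C).mono fun i h =>
      h.trans_lt (hh i)
  refine (final_group k kb _ a' (fun i => (ρ i).range) hm hdiv hsq
    (fun i => det_index L hr0 (hg0 i) (hdr i) (hm i) (hρ i)) (fun Dg => ?_) ?_
    fun τ hτ G hG Dg hD => ?_).elim fun N hN => ?_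
  rotate_right
  · obtain ⟨i, h1, h2⟩ := (hN.and_eventually (eventually_ge_atTop N)).exists
    exact (((hi i).trans_le (index_le_of_dvd (hc i) (hm i).ne_zero (hd i) (hρ i) (hρ₀ i))).trans_le
      h1).not_ge h2
  · obtain ⟨d, C, h⟩ := ht_thin hB hr0 Fr Dg
    exact ⟨d, (hbig C).mono fun i h1 P h2 h3 h4 h5 =>
      h (D i) (hfix i) (hStd i) h1 _ P (hm i) h2 h3 h4 h5 (E i) _ (hcov i)⟩
  · obtain ⟨d, h⟩ := large_hasSL (k := k) (Ω := Ω) hB hr
    refine ⟨d, fun i P b hP hb h1 h2 h3 h4 h5 => ?_⟩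
    obtain ⟨P', hP'⟩ := id hP
    obtain ⟨b', hb'⟩ := id hb
    obtain ⟨EP, hEP⟩ := exists_coord_dvd (hm i).ne_zero hP' (E i)
    obtain ⟨Eb, hEb⟩ := exists_coord_dvd (hm i).ne_zero hb' (E i)
    refine h (D i) P b h1 h2 (ne_zero_of_dvd_ne_zero (hm i).ne_zero hb) h3 h4 EP
      (((red (fac hP)).comp (ρ i)).comp (MonoidHom.mk' (fun σ : Ω ≃ₐ[K] Ω => σ.restrictScalars L)
        fun _ _ => rfl)) (fun σ => (hρ i).red (hc i) hEP (σ.restrictScalars L)) _ _ ?_
      (fun σ hσ => ⟨_, ⟨⟨_, rfl⟩, (((hρ i).red (hc i) hEb).eq_one_iff _).2 hσ⟩, rfl⟩) h5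
    rintro _ ⟨x, hx, rfl⟩ _ ⟨y, hy, rfl⟩
    refine ⟨x * y * x⁻¹,
      ⟨(ρ i).range.mul_mem ((ρ i).range.mul_mem hx hy.1) ((ρ i).range.inv_mem hx),
      (MonoidHom.normal_ker _).conj_mem y hy.2 x⟩, by simp only [map_mul, map_inv]⟩
  · obtain ⟨m, b, C, hb, h⟩ := ht_thick hB hr0 Fr hτ G hG hD
    exact ⟨m, ((hbig C).and (hdiv b hb)).mono fun i h1 =>
      h (D i) (hfix i) (hStd i) h1.1 _ (hm i) h1.2 (E i) _ (hcov i)⟩

/-- modules of bounded height -/
theorem small_height {θ : L} (hB : Base kb (algebraMap L K θ)) (hr : 0 < r) (Fr : Frb k kb K Ω)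
    (hγ : ∀ x : L, Fr.γK (algebraMap L K x) = algebraMap L K x) (C : ℚ) :
    ∃ N : ℕ, ∀ D : DM k Ω (algebraMap L K θ) r, (∀ i, D.g i ∈ Set.range (algebraMap L K)) →
      D.h kb ≤ C → (∃ C', Bdd L D.φ r C') → Bdd L D.φ r N := by
  obtain ⟨T, hT, h⟩ := nc hB hr Fr C
  have hq : ∀ i, 0 < i → 0 < Nat.card k ^ i - 1 := fun i hi =>
    Nat.sub_pos_of_lt (Nat.one_lt_pow hi.ne' Finite.one_lt_card)
  have key : ∀ t : Fin r → Ω, ∃ N : ℕ, ∀ (D : DM k Ω (algebraMap L K θ) r) (u : Ω),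
      (∀ i, D.g i ∈ Set.range (algebraMap L K)) →
      u ^ (Nat.card k ^ r - 1) * algebraMap K Ω (D.g r) = 1 →
      (fun i : Fin r => algebraMap K Ω (D.g (i + 1)) * u ^ (Nat.card k ^ ((i : ℕ) + 1) - 1)) = t →
      (∃ C', Bdd L D.φ r C') → Bdd L D.φ r N := fun t => by
    by_cases h0 : ∃ (D : DM k Ω (algebraMap L K θ) r) (u : Ω),
      (∀ i, D.g i ∈ Set.range (algebraMap L K)) ∧
      u ^ (Nat.card k ^ r - 1) * algebraMap K Ω (D.g r) = 1 ∧
      (fun i : Fin r => algebraMap K Ω (D.g (i + 1)) * u ^ (Nat.card k ^ ((i : ℕ) + 1) - 1)) = t ∧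
      ∃ C', Bdd L D.φ r C'
    swap
    · exact ⟨0, fun D u h1 h2 h3 h4 => absurd ⟨D, u, h1, h2, h3, h4⟩ h0⟩
    obtain ⟨D₀, u₀, k1, k2, k3, C₀, k4⟩ := h0
    refine ⟨(Nat.card k ^ r - 1) * C₀, fun D u h1 h2 h3 _ => ?_⟩
    have hu : u ≠ 0 := fun e => by simp [e, (hq r hr).ne'] at h2
    have hu₀ : u₀ ≠ 0 := fun e => by simp [e, (hq r hr).ne'] at k2
    choose g₀ hg₀ using k1
    obtain ⟨x, hx⟩ := h1 r
    refine twist (w := u₀ / u) (div_ne_zero hu₀ hu) (fun y => ?_)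
      (aut_comm (θ := θ) (r := r) (g := g₀) (by
        simpa only [IsScalarTower.algebraMap_apply L K Ω, hg₀] using D₀.dr))
      (hq r hr) (x := x / g₀ r) ?_ k4
    · rw [D₀.dr, D.dr, mul_add, mul_left_comm, Finset.mul_sum]
      refine congrArg _ (Finset.sum_congr rfl fun i hi => ?_)
      obtain ⟨i1, i2⟩ := Finset.mem_Icc.1 hi
      obtain ⟨j, rfl⟩ : ∃ j, i = j + 1 := ⟨i - 1, by omega⟩
      have e := congrFun (k3.trans h3.symm) ⟨j, i2⟩
      obtain ⟨n, hn⟩ : ∃ n, Nat.card k ^ (j + 1) = n + 1 :=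
        ⟨_, (Nat.sub_add_cancel (Nat.one_le_pow _ _ Nat.card_pos)).symm⟩
      simp only [hn, Nat.add_sub_cancel] at e ⊢
      rw [mul_pow, div_pow]
      field_simp
      linear_combination u₀ * u * y ^ (n + 1) * e
    · rw [map_div₀, IsScalarTower.algebraMap_apply L K Ω, IsScalarTower.algebraMap_apply L K Ω, hx,
        hg₀, div_pow, div_eq_div_iff (pow_ne_zero _ hu) ((_root_.map_ne_zero _).2 D₀.ne), k2, mul_comm, h2]
  choose N hN using key
  obtain ⟨M, hM⟩ := (hT.image N).bddAbove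
  refine ⟨M, fun D h1 h2 h3 => ?_⟩
  obtain ⟨u, h4, h5⟩ := h D ⟨hγ _, fun i => by
    obtain ⟨x, hx⟩ := h1 i
    rw [← hx, hγ]⟩ h2
  exact fun a ha E ρ hρ => (hN _ D u h1 h4 rfl h3 a ha E ρ hρ).trans (hM ⟨_, h5, rfl⟩)

theorem thmU (k L Ω : Type) [Field k] [Finite k] [Field L] [Field Ω] [Algebra k L] [Algebra k Ω]
    [Algebra L Ω] [IsScalarTower k L Ω] [IsSepClosed Ω] [IsGalois L Ω] [Algebra (RatFunc k) L]
    [IsScalarTower k (RatFunc k) L] [FiniteDimensional (RatFunc k) L] {r : ℕ} (hr : 2 ≤ r) :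
    ∃ N : ℕ, ∀ (g : ℕ → L) (φ : Ω →ₗ[k] Ω), g r ≠ 0 →
      IsDr (algebraMap L Ω (algebraMap (RatFunc k) L RatFunc.X)) r
        (fun i => algebraMap L Ω (g i)) φ → (∃ C, Bdd L φ r C) → Bdd L φ r N := by
  have hfin : FiniteDimensional
      (IntermediateField.adjoin k {algebraMap (RatFunc k) L RatFunc.X}) L := by
    have h1 : ∀ x : RatFunc k, algebraMap (RatFunc k) L x ∈
        IntermediateField.adjoin k {algebraMap (RatFunc k) L RatFunc.X} := fun x => by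
      have h2 := IntermediateField.adjoin_map k {RatFunc.X} (IsScalarTower.toAlgHom k (RatFunc k) L)
      rw [RatFunc.adjoin_X, Set.image_singleton] at h2
      exact h2.le ⟨x, trivial, rfl⟩
    let _ := ((algebraMap (RatFunc k) L).codRestrict _ h1).toAlgebra
    have : IsScalarTower (RatFunc k)
      (IntermediateField.adjoin k {algebraMap (RatFunc k) L RatFunc.X}) L :=
      .of_algebraMap_eq fun _ => rfl
    exact Module.Finite.of_restrictScalars_finite (RatFunc k) _ L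
  obtain ⟨kb, K, _, _, _, _, _, _, _, _, _, _, _, _, _, _, _, _, Fr, hB, hγ, hK⟩ :=
    exists_frame k L Ω _ ((transcendental_algebraMap_iff (algebraMap (RatFunc k) L).injective).2
      RatFunc.transcendental_X)
  have hr0 : 0 < r := by omega
  obtain ⟨C, N₁, h₁⟩ := large_height hB hr Fr hγ
  obtain ⟨N₂, h₂⟩ := small_height hB hr0 Fr hγ C
  refine ⟨max N₁ N₂, fun g φ hg hφ ⟨C', hC⟩ a ha E ρ hρ => ?_⟩
  let D : DM k Ω (algebraMap L K (algebraMap (RatFunc k) L RatFunc.X)) r :=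
    ⟨fun i => algebraMap L K (g i), φ, (_root_.map_ne_zero _).2 hg, by
      simpa only [← IsScalarTower.algebraMap_apply] using hφ⟩
  rcases lt_or_ge C (D.h kb) with h | h
  · exact (h₁ D (fun _ => ⟨_, rfl⟩) (std_of_big hB hr0 ⟨hγ _, fun _ => hγ _⟩
      (bigK_of_bdd D (aut_comm hφ) hK hC)) h a ha E ρ hρ).trans (le_max_left _ _)
  · exact (h₂ D (fun _ => ⟨_, rfl⟩) h ⟨C', hC⟩ a ha E ρ hρ).trans (le_max_right _ _)

end Pool.Agent.Lib.MP_6adaea_nt.U
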