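import Pool.Agent.Lib.MP_6adaea_nt.U.Defs2

/-!
Absence of nonstandard eigenvectors.
-/

set_option linter.unusedSectionVars false

namespace Pool.Agent.Lib.MP_6adaea_nt.U
open Matrix Polynomial G
open scoped TensorProduct

variable {k kb K Ω : Type} [Field k] [Finite k] [Field kb] [Field K] [Field Ω] [Algebra k kb]
  [Algebra k K] [Algebra k Ω] [Algebra kb K] [Algebra kb Ω] [Algebra K Ω]
  [IsScalarTower k kb K] [IsScalarTower k kb Ω] [IsScalarTower k K Ω] [IsScalarTower kb K Ω]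
  [IsAlgClosed kb] [Algebra.IsAlgebraic k kb] [IsSepClosed Ω] [IsGalois K Ω] {θ : K} {r : ℕ}

/-- eigenvectors at primes of degree at least `d` are fixed by the elementary matrices -/
def DM.NoThin (D : DM k Ω θ r) (Fr : Frb k kb K Ω) (M d : ℕ) : Prop :=
  ∀ a P : k[X], a.Monic → P.Monic → Irreducible P → d ≤ P.natDegree → P ^ 2 ∣ a →
    ∀ (E : Coord D.φ a (Fin r)) (ζ : kb), aeval ζ P = 0 → ∀ w : JJ (Fin r) M → kb,
    (∀ σ : Ω ≃ₐ[K] Ω, ∃ (B : Matrix (Fin r) (Fin r) k[X]) (χ : kb), Act E σ B ∧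
      rep M ![ζ, ζ] (pmap (algebraMap k kb) B) *ᵥ w = χ • w) →
    (∃ (B : Matrix (Fin r) (Fin r) k[X]) (χ : kb), Act E Fr.γ B ∧
      rep M ![ζ, ζ] (pmap (algebraMap k kb) B) *ᵥ w = χ • w) →
    ∀ i j : Fin r, i ≠ j → ∀ c0 c1 : kb, rep M ![ζ, ζ] (elc kb i j c0 c1) *ᵥ w = w

/-- `w` is an eigenvector of `B` modulo `X ^ m` -/
def EigX (τ : Fin 2 → PowerSeries kb) {M : ℕ} (w : JJ (Fin r) M → PowerSeries kb) (m : ℕ)
    (B : Matrix (Fin r) (Fin r) k[X]) : Prop :=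
  ∃ χ : PowerSeries kb, ∀ j, (PowerSeries.X : PowerSeries kb) ^ m ∣
    (rep M τ (pmap (algebraMap k (PowerSeries kb)) B) *ᵥ w - χ • w) j

/-- `w` is not an eigenvector modulo `X ^ m` at level `b` -/
def DM.NoThick (D : DM k Ω θ r) (Fr : Frb k kb K Ω) (τ : Fin 2 → PowerSeries kb) {M : ℕ}
    (w : JJ (Fin r) M → PowerSeries kb) (m : ℕ) (b : k[X]) : Prop :=
  ∀ E : Coord D.φ b (Fin r), (∀ σ : Ω ≃ₐ[K] Ω, ∃ B, Act E σ B ∧ EigX τ w m B) →
    (∃ B, Act E Fr.γ B ∧ EigX τ w m B) → False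

/-- `w` is primitive and is moved by an elementary matrix -/
def Moved (τ : Fin 2 → PowerSeries kb) {M : ℕ} (w : JJ (Fin r) M → PowerSeries kb) : Prop :=
  (∃ j, IsUnit (w j)) ∧ ∃ a b : Fin r, a ≠ b ∧ ∃ c0 c1 : kb,
    rep M τ (elc (PowerSeries kb) a b c0 c1) *ᵥ w ≠ w

/-- every `q`-polynomial that commutes with `φ` comes from `k[X]` -/
def EndA {k Ω : Type} [Field k] [Field Ω] [Algebra k Ω] (φ : Ω →ₗ[k] Ω) : Prop :=
  ∀ (m : ℕ) (u : ℕ → Ω) (f : Ω → Ω),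
    (∀ x, f x = ∑ i ∈ Finset.range m, u i * x ^ Nat.card k ^ i) → (∀ x, f (φ x) = φ (f x)) →
    ∃ a : k[X], ∀ x, f x = aeval φ a x

end Pool.Agent.Lib.MP_6adaea_nt.U
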