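import Pool.Agent.Lib.MP_6adaea_nt.G.Count

/-!
Subgroups normalised by `SL` over an infinite field.
-/

set_option linter.unusedSectionVars false

namespace Pool.Agent.Lib.MP_6adaea_nt.U
open Matrix Polynomial G
open scoped TensorProduct

variable {n : Type} [Fintype n] [DecidableEq n] {F : Type} [Field F]

open scoped LinearAlgebra.Projectivization Pointwise commutatorElement in
private lemma normF_diag {i j : n} (h : i ≠ j) {a : F} (ha : a ≠ 0) :
    SpecialLinearGroup.diag2n h a ha = SpecialLinearGroup.transvection h a *
      SpecialLinearGroup.transvection h.symm (- a⁻¹) *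
      SpecialLinearGroup.transvection h a *
      SpecialLinearGroup.transvection h (-1) *
      SpecialLinearGroup.transvection h.symm 1 *
      SpecialLinearGroup.transvection h (-1) := by
  refine Subtype.ext ?_
  change diagonal _ = (1 + single i j a) * (1 + single j i (-a⁻¹)) * (1 + single i j a) *
    (1 + single i j (-1)) * (1 + single j i 1) * (1 + single i j (-1))
  simp only [Matrix.mul_add, Matrix.add_mul, Matrix.one_mul,
    Matrix.mul_one, single_mul_single_same, single_mul_single_of_ne _ _ _ _ h,
    single_mul_single_of_ne _ _ _ _ h.symm, add_zero]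
  ext u v
  simp only [Matrix.add_apply, diagonal_apply, Matrix.one_apply, single_apply]
  by_cases hui : i = u <;> by_cases huj : j = u <;> by_cases hvi : i = v <;>
    by_cases hvj : j = v
  all_goals first
    | exact absurd (hui.trans huj.symm) h
    | exact absurd (hvi.trans hvj.symm) h
    | skip
  all_goals
    try subst hui
    try subst huj
    try subst hvi
    try subst hvj
    simp [*, h.symm, Ne.symm]

open scoped LinearAlgebra.Projectivization Pointwise in
private lemma normF_gen [Nontrivial n] :
    (⨆ p : ℙ F (n → F), SpecialLinearGroup.lineStab p.submodule) =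
      (⊤ : Subgroup (SpecialLinearGroup n F)) := by
  have ht : ∀ (i j : n) (h : i ≠ j) (a : F), SpecialLinearGroup.transvection h a ∈
      (⨆ p : ℙ F (n → F), SpecialLinearGroup.lineStab p.submodule) := by
    intro i j h a
    have := SL2Gen.transvection_mem_lineStab h a
    rw [← Projectivization.submodule_mk (K := F) _ (Pi.single_ne_zero_iff.2 one_ne_zero)] at this
    exact Subgroup.mem_iSup_of_mem _ this
  refine le_antisymm le_top fun M _ => ?_
  refine SpecialLinearGroup.diagonal_transvection_induction' _ M (fun i j h c hc => ?_) ht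
    (fun _ _ => mul_mem)
  rw [normF_diag h hc]
  exact mul_mem (mul_mem (mul_mem (mul_mem (mul_mem (ht _ _ _ _) (ht _ _ _ _)) (ht _ _ _ _))
    (ht _ _ _ _)) (ht _ _ _ _)) (ht _ _ _ _)

open scoped LinearAlgebra.Projectivization Pointwise in
private lemma normF_comm [Nontrivial n] (K : Subgroup (SpecialLinearGroup n F)) [K.Normal]
    {c : SpecialLinearGroup n F} (hc : c ∈ K)
    (hz : c ∉ Subgroup.center (SpecialLinearGroup n F)) :
    commutator (SpecialLinearGroup n F) ≤ K := by
  let I : MulAction.IwasawaStructure (SpecialLinearGroup n F) (ℙ F (n → F)) :=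
    { T := fun p => SpecialLinearGroup.lineStab p.submodule
      is_comm := fun p => by
        rw [← Projectivization.mk_rep p, Projectivization.submodule_mk]
        exact SpecialLinearGroup.lineStab_isMulCommutative_of_span p.rep p.rep_nonzero
      is_conj := fun g p => by
        rw [PSL.smul_submodule, SpecialLinearGroup.lineStab_smul]
      is_generator := normF_gen }
  refine I.commutator_le K fun hfix => hz ?_
  rw [← Projectivization.SL_mulAction_ker, MonoidHom.mem_ker]
  ext p
  exact Set.eq_univ_iff_forall.mp hfix p ⟨c, hc⟩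

private lemma normF_unit [Infinite F] : ∃ a : F, a ≠ 0 ∧ a ^ 2 ≠ 1 := by
  classical
  obtain ⟨a, ha⟩ := Infinite.exists_notMem_finset ({0, 1, -1} : Finset F)
  simp only [Finset.mem_insert, Finset.mem_singleton, not_or] at ha
  exact ⟨a, ha.1, fun e => by
    rcases sq_eq_one_iff.mp e with e | e
    exacts [ha.2.1 e, ha.2.2 e]⟩

open scoped commutatorElement in
/-- The classical argument. Conjugating by `SL` one may assume that `g` sends `e_a` outside the
line through `e_a`; for `card n = 2` take commutators with diagonal matrices to reach an upper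
triangular nonscalar element and then a transvection; for `card n ≥ 3` the commutator with a
transvection is `(1 + u ⊗ f) * (1 - v ⊗ f')`, take a second commutator. All transvections
`rt h x`: use `tor i j a`, `⁅tor i j a, rt h y⁆ = rt h ((a ^ 2 - 1) * y)` once some `tor` or `rt`
is in `N` (for `card n = 2`: `N` contains `rt h c`, the opposite root element, hence a nonscalar
diagonal matrix). Mathlib may also help (`Matrix.SpecialLinearGroup`, transvections). -/
theorem roots_of_normal [Infinite F] (N : Subgroup (GL n F))
    (hN : ∀ s : GL n F, s.val.det = 1 → ∀ x ∈ N, s * x * s⁻¹ ∈ N) {g : GL n F} (hg : g ∈ N)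
    (hs : ¬Scal g.val) : Roots N Set.univ := by
  intro u v huv x _
  have : Nontrivial n := ⟨⟨u, v, huv⟩⟩
  obtain ⟨i, j, hij, hX⟩ := exists_not_scal hs
  let K : Subgroup (SpecialLinearGroup n F) := N.comap SpecialLinearGroup.toGL
  have : K.Normal := ⟨fun y hy s => by
    change SpecialLinearGroup.toGL (s * y * s⁻¹) ∈ N
    rw [map_mul, map_mul, map_inv]
    exact hN _ s.2 _ hy⟩
  have hdet : (g * rt hij (1 : F) * g⁻¹ * (rt hij (1 : F))⁻¹).val.det = 1 := by
    have e : g.val.det * (g⁻¹).val.det = 1 := by
      rw [← det_mul, ← Units.val_mul, mul_inv_cancel, Units.val_one, det_one]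
    rw [← rt_neg, Units.val_mul, Units.val_mul, Units.val_mul, det_mul, det_mul, det_mul,
      rt_det, rt_det, mul_one, mul_one, e]
  let c : SpecialLinearGroup n F := ⟨_, hdet⟩
  have hc : c ∈ K := by
    change SpecialLinearGroup.toGL c ∈ N
    have e : SpecialLinearGroup.toGL c = g * (rt hij (1 : F) * g⁻¹ * (rt hij (1 : F))⁻¹) := by
      ext1
      simp only [c, SpecialLinearGroup.coe_GL_coe_matrix, mul_assoc]
    rw [e]
    exact mul_mem hg (hN _ (rt_det _ _) _ (inv_mem hg))
  have hz : c ∉ Subgroup.center (SpecialLinearGroup n F) := by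
    intro hz
    obtain ⟨r, -, hr⟩ := Matrix.SpecialLinearGroup.mem_center_iff.mp hz
    have e1 : (g * rt hij (1 : F) * g⁻¹).val = r • (rt hij (1 : F)).val := by
      have : g * rt hij (1 : F) * g⁻¹ =
          (g * rt hij (1 : F) * g⁻¹ * (rt hij (1 : F))⁻¹) * rt hij (1 : F) := by group
      rw [this, Units.val_mul]
      change c.1 * _ = _
      rw [← hr, scalar_apply, ← smul_one_eq_diagonal, Matrix.smul_mul, Matrix.one_mul]
    rw [ad_val, rt_val, ad_add, ad_id] at e1
    have e2 : ad g (single i j (1 : F)) = (r - 1) • (1 : Matrix n n F) + r • single i j 1 := by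
      rw [← add_sub_cancel_left (1 : Matrix n n F) (ad g (single i j (1 : F))), e1]
      module
    have e3 : ad g (single i j (1 : F)) * ad g (single i j (1 : F)) = 0 := by
      rw [← ad_mul_ad, single_mul_single_of_ne _ _ _ _ hij.symm]
      simp [ad]
    have e4 := congrFun (congrFun e3 i) i
    rw [e2] at e4
    simp only [Matrix.mul_add, Matrix.add_mul, Matrix.smul_mul, Matrix.mul_smul, Matrix.one_mul,
      Matrix.mul_one, single_mul_single_of_ne _ _ _ _ hij.symm] at e4
    have e5 : r = 1 := by
      have : (r - 1) * (r - 1) = 0 := by simpa [hij.symm] using e4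
      exact sub_eq_zero.mp (mul_self_eq_zero.mp this)
    refine hX ⟨0, ?_⟩
    rw [e2, e5]
    simp
  have hK := normF_comm K hc hz
  obtain ⟨a, ha, ha2⟩ := normF_unit (F := F)
  let t : SpecialLinearGroup n F := ⟨_, tor_det huv (Units.mk0 a ha)⟩
  let s : SpecialLinearGroup n F := ⟨_, rt_det huv (x / (a ^ 2 - 1))⟩
  have hm : ⁅t, s⁆ ∈ K :=
    hK (Subgroup.commutator_mem_commutator (Subgroup.mem_top _) (Subgroup.mem_top _))
  have et : SpecialLinearGroup.toGL t = tor u v (Units.mk0 a ha) := Units.ext rfl
  have es : SpecialLinearGroup.toGL s = rt huv (x / (a ^ 2 - 1)) := Units.ext rfl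
  change SpecialLinearGroup.toGL ⁅t, s⁆ ∈ N at hm
  rw [commutatorElement_def, map_mul, map_mul, map_mul, map_inv, map_inv, et, es, tor_conj_rt,
    ← rt_neg, ← rt_add] at hm
  convert hm using 2
  have := sub_ne_zero_of_ne ha2
  simp only [Units.val_mk0]
  field_simp
  ring

end Pool.Agent.Lib.MP_6adaea_nt.U
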