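import Pool.Agent.Lib.MP_6adaea_nt.U.Defs2

/-!
Norms at one place.
-/

set_option linter.unusedSectionVars false

namespace Pool.Agent.Lib.MP_6adaea_nt.U
open Matrix Polynomial G
open scoped TensorProduct

variable {kb K : Type} [Field kb] [Field K] [Algebra kb K] {B : Type} [AddCommGroup B]
  [Module K B] {B' : Type} [AddCommGroup B'] [Module K B']


namespace Nrm
variable {v : Place kb K} (N : Nrm v B)

theorem ge_zero (m : ℤ) : N.Ge 0 m := Or.inl rfl

theorem ge_self (b : B) : N.Ge b (N.ν b) := Or.inr le_rfl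

variable {N}

theorem ge_iff {b : B} (hb : b ≠ 0) {m : ℤ} : N.Ge b m ↔ m ≤ N.ν b := by simp [Ge, hb]

theorem Ge.mono {b : B} {m m' : ℤ} (h : N.Ge b m) (hm : m' ≤ m) : N.Ge b m' := h.imp id hm.trans

theorem Ge.add {a b : B} {m : ℤ} (ha : N.Ge a m) (hb : N.Ge b m) : N.Ge (a + b) m := by
  by_cases h0 : a = 0
  · simpa [h0] using hb
  by_cases h1 : b = 0
  · simpa [h1] using ha
  by_cases h2 : a + b = 0
  · exact Or.inl h2
  exact Or.inr ((le_min ((ge_iff h0).1 ha) ((ge_iff h1).1 hb)).trans (N.add h0 h1 h2))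

theorem Ge.smul {f : K} {b : B} {a m : ℤ} (hf : v.Ge f a) (hb : N.Ge b m) :
    N.Ge (f • b) (a + m) := by
  by_cases h0 : f = 0
  · exact Or.inl (by simp [h0])
  by_cases h1 : b = 0
  · exact Or.inl (by simp [h1])
  refine Or.inr ?_
  rw [N.smul h0 h1]
  exact add_le_add (hf.le h0) ((ge_iff h1).1 hb)

theorem Ge.neg {b : B} {m : ℤ} (hb : N.Ge b m) : N.Ge (-b) m := by
  have h := Ge.smul (v.ge_one.neg) hb
  simpa using h

theorem Ge.sub {a b : B} {m : ℤ} (ha : N.Ge a m) (hb : N.Ge b m) : N.Ge (a - b) m := by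
  rw [sub_eq_add_neg]
  exact ha.add hb.neg

theorem Ge.sum {ι : Type} {s : Finset ι} {f : ι → B} {m : ℤ} (h : ∀ i ∈ s, N.Ge (f i) m) :
    N.Ge (∑ i ∈ s, f i) m := by
  classical
  induction s using Finset.induction_on with
  | empty => simpa using N.ge_zero m
  | insert a s ha ih =>
    rw [Finset.sum_insert ha]
    exact (h a (Finset.mem_insert_self _ _)).add
      (ih fun i hi => h i (Finset.mem_insert_of_mem hi))

theorem ge_smul_iff {f : K} (hf : f ≠ 0) {b : B} {m : ℤ} :
    N.Ge (f • b) (v.ord f + m) ↔ N.Ge b m := by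
  by_cases h1 : b = 0
  · simp [h1, Ge]
  rw [ge_iff (smul_ne_zero hf h1), ge_iff h1, N.smul hf h1]
  omega

variable {S S' : Submodule K B} {x y : B}

private theorem nrm_add_ne (hx : x ∉ S) {s : B} (hs : s ∈ S) : x + s ≠ 0 := fun h =>
  hx ((S.add_mem_iff_left hs).1 (h ▸ S.zero_mem))

theorem le_del (hx : x ∉ S) {s : B} (hs : s ∈ S) : N.ν (x + s) ≤ N.del x S := by
  exact le_csSup (N.bdd S x hx) ⟨s, hs, rfl⟩

theorem exists_del (hx : x ∉ S) : ∃ s ∈ S, N.ν (x + s) = N.del x S := by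
  exact Int.csSup_mem (Set.Nonempty.image _ ⟨0, S.zero_mem⟩) (N.bdd S x hx)

theorem le_del_iff (hx : x ∉ S) {m : ℤ} : m ≤ N.del x S ↔ ∃ s ∈ S, N.Ge (x + s) m := by
  constructor
  · intro h
    obtain ⟨s, hs, e⟩ := exists_del (N := N) hx
    exact ⟨s, hs, Or.inr (e ▸ h)⟩
  · rintro ⟨s, hs, h⟩
    exact ((ge_iff (nrm_add_ne hx hs)).1 h).trans (le_del hx hs)

theorem del_bot (x : B) : N.del x ⊥ = N.ν x := by
  simp [del]

theorem del_smul_add (hx : x ∉ S) {f : K} (hf : f ≠ 0) {s : B} (hs : s ∈ S) :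
    N.del (f • x + s) S = v.ord f + N.del x S := by
  have hx' : f • x + s ∉ S := fun h => hx ((S.smul_mem_iff hf).1 ((S.add_mem_iff_left hs).1 h))
  apply le_antisymm
  · obtain ⟨s', hs', e⟩ := exists_del (N := N) hx'
    have hm : f⁻¹ • (s + s') ∈ S := S.smul_mem _ (S.add_mem hs hs')
    have e2 : f • x + s + s' = f • (x + f⁻¹ • (s + s')) := by
      rw [smul_add f, smul_inv_smul₀ hf, add_assoc]
    rw [← e, e2, N.smul hf (nrm_add_ne hx hm)]
    have := le_del (N := N) hx hm
    omega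
  · obtain ⟨s', hs', e⟩ := exists_del (N := N) hx
    have hm : f • s' - s ∈ S := S.sub_mem (S.smul_mem _ hs') hs
    have h := le_del (N := N) hx' hm
    have e2 : f • x + s + (f • s' - s) = f • (x + s') := by
      rw [smul_add]; abel
    rwa [e2, N.smul hf (nrm_add_ne hx hs'), e] at h

theorem del_mono (h : S ≤ S') (hx : x ∉ S') : N.del x S ≤ N.del x S' := by
  obtain ⟨s, hs, e⟩ := exists_del (N := N) (fun h' => hx (h h') : x ∉ S)
  exact e ▸ le_del hx (h hs)

private theorem nrm_exch (hx : x ∉ S) (hy : y ∉ S ⊔ Submodule.span K {x}) :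
    x ∉ S ⊔ Submodule.span K {y} := by
  intro h
  obtain ⟨s, hs, z, hz, e⟩ := Submodule.mem_sup.1 h
  obtain ⟨f, rfl⟩ := Submodule.mem_span_singleton.1 hz
  by_cases h0 : f = 0
  · exact hx (by rw [← e]; simpa [h0] using hs)
  apply hy
  rw [← Submodule.smul_mem_iff _ h0, show f • y = x - s by rw [← e]; abel]
  exact Submodule.sub_mem _ (Submodule.mem_sup_right (Submodule.mem_span_singleton_self _))
    (Submodule.mem_sup_left hs)

private theorem nrm_exch_le (hx : x ∉ S) (hy : y ∉ S ⊔ Submodule.span K {x}) :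
    N.del x S + N.del y (S ⊔ Submodule.span K {x}) ≤
      N.del y S + N.del x (S ⊔ Submodule.span K {y}) := by
  have hy0 : y ∉ S := fun h => hy (Submodule.mem_sup_left h)
  have hx' := nrm_exch hx hy
  have had := del_mono (N := N) (le_sup_left : S ≤ S ⊔ Submodule.span K {y}) hx'
  obtain ⟨w, hw, ec⟩ := exists_del (N := N) hy
  obtain ⟨s, hs, z, hz, rfl⟩ := Submodule.mem_sup.1 hw
  obtain ⟨f, rfl⟩ := Submodule.mem_span_singleton.1 hz
  by_cases h0 : f = 0
  · rw [h0, zero_smul, add_zero] at ec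
    have := le_del (N := N) hy0 hs
    omega
  have hm : f⁻¹ • (y + s) ∈ S ⊔ Submodule.span K {y} :=
    Submodule.smul_mem _ _ (Submodule.add_mem _
      (Submodule.mem_sup_right (Submodule.mem_span_singleton_self _)) (Submodule.mem_sup_left hs))
  have h1 := le_del (N := N) hx' hm
  have e1 : y + (s + f • x) = f • (x + f⁻¹ • (y + s)) := by
    rw [smul_add f, smul_inv_smul₀ h0]; abel
  have h2 : N.ν (y + (s + f • x)) = v.ord f + N.ν (x + f⁻¹ • (y + s)) := by
    rw [e1, N.smul h0 (nrm_add_ne hx' hm)]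
  obtain ⟨s0, hs0, ea⟩ := exists_del (N := N) hx
  have h3 : min (N.ν (y + (s + f • x))) (v.ord f + N.ν (x + s0)) ≤ N.del y S := by
    refine (le_del_iff hy0).2 ⟨s - f • s0, S.sub_mem hs (S.smul_mem _ hs0), ?_⟩
    have e2 : y + (s - f • s0) = y + (s + f • x) - f • (x + s0) := by
      rw [smul_add]; abel
    rw [e2]
    exact ((N.ge_self _).mono (min_le_left _ _)).sub
      ((Ge.smul (v.ge_ord f) (N.ge_self _)).mono (min_le_right _ _))
  omega

/-- Scale `x`, `y` so that `del x S = del y S = 0`; put `c = del y (S + x) ≥ 0`,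
`d = del x (S + y) ≥ 0`. If `c > 0` is attained at `y + f • x + s` then `ord f = 0`, so `d ≥ c`;
by symmetry `c = d`. -/
theorem exchange (hx : x ∉ S) (hy : y ∉ S ⊔ Submodule.span K {x}) :
    N.del x S + N.del y (S ⊔ Submodule.span K {x}) =
      N.del y S + N.del x (S ⊔ Submodule.span K {y}) := by
  have hy0 : y ∉ S := fun h => hy (Submodule.mem_sup_left h)
  have hx' := nrm_exch hx hy
  exact le_antisymm (nrm_exch_le hx hy) (nrm_exch_le hy0 hx')

/-- if `z` attains its distance from `S` then it is orthogonal to `S` -/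
theorem ge_add_iff (hx : x ∉ S) (h : N.ν x = N.del x S) {s : B} (hs : s ∈ S) (f : K) {m : ℤ} :
    N.Ge (s + f • x) m ↔ N.Ge s m ∧ v.Ge f (m - N.ν x) := by
  constructor
  · intro hg
    have hf : v.Ge f (m - N.ν x) := by
      by_cases h0 : f = 0
      · exact Or.inl h0
      have hx' : f • x ∉ S := fun h' => hx ((S.smul_mem_iff h0).1 h')
      have h1 := le_del (N := N) hx' hs
      have h2 := del_smul_add (N := N) hx h0 S.zero_mem
      rw [add_zero] at h2
      rw [add_comm, ge_iff (nrm_add_ne hx' hs)] at hg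
      exact Or.inr (by omega)
    refine ⟨?_, hf⟩
    have h3 := Ge.smul hf (N.ge_self x)
    rw [sub_add_cancel] at h3
    simpa using hg.sub h3
  · rintro ⟨h1, h2⟩
    have h3 := Ge.smul h2 (N.ge_self x)
    rw [sub_add_cancel] at h3
    exact h1.add h3

/-- Hahn-Banach. Start on `S + x` and extend step by step, sending a vector that attains its
distance from the current domain to zero (`ge_add_iff`). -/
theorem exists_fun [FiniteDimensional K B] (hx : x ∉ S) : ∃ l : B →ₗ[K] K, (∀ s ∈ S, l s = 0) ∧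
    l x ≠ 0 ∧ v.ord (l x) = N.del x S ∧ ∀ y m, N.Ge y m → v.Ge (l y) m := by
  obtain ⟨T, ⟨hST, hxT, hd⟩, hmax⟩ := (wellFounded_gt (α := Submodule K B)).has_min
    {T | S ≤ T ∧ x ∉ T ∧ N.del x T = N.del x S} ⟨S, le_rfl, hx, rfl⟩
  have htop : ∀ y, y ∈ T ⊔ Submodule.span K {x} := by
    intro y0
    by_contra hy0
    obtain ⟨s, hs, e⟩ := exists_del (N := N) hy0
    have hy : y0 + s ∉ T ⊔ Submodule.span K {x} := fun h =>
      hy0 ((Submodule.add_mem_iff_left _ hs).1 h)
    have hyT : y0 + s ∉ T := fun h => hy (Submodule.mem_sup_left h)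
    have e1 := del_smul_add (N := N) hy0 one_ne_zero hs
    rw [one_smul, v.ord_one, zero_add] at e1
    have e2 := del_mono (N := N) (le_sup_left : T ≤ T ⊔ Submodule.span K {x}) hy
    have e3 := le_del (N := N) hyT T.zero_mem
    rw [add_zero] at e3
    have e4 := exchange (N := N) hxT hy
    refine hmax (T ⊔ Submodule.span K {y0 + s})
      ⟨hST.trans le_sup_left, nrm_exch hxT hy, by omega⟩ ?_
    refine lt_of_le_of_ne le_sup_left fun h => hyT ?_
    rw [h]
    exact Submodule.mem_sup_right (Submodule.mem_span_singleton_self _)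
  obtain ⟨l, hl, hker⟩ := Submodule.exists_le_ker_of_notMem hxT
  obtain ⟨t, ht0, ht⟩ := v.surj
  have hlx : ((t ^ N.del x S / l x) • l) x = t ^ N.del x S := by
    rw [LinearMap.smul_apply, smul_eq_mul, div_mul_cancel₀ _ hl]
  have hlT : ∀ s ∈ T, ((t ^ N.del x S / l x) • l) s = 0 := fun s hs => by
    rw [LinearMap.smul_apply, LinearMap.mem_ker.1 (hker hs), smul_zero]
  have hord : v.ord (t ^ N.del x S) = N.del x S := by rw [v.ord_zpow, ht, mul_one]
  refine ⟨(t ^ N.del x S / l x) • l, fun s hs => hlT s (hST hs), ?_, ?_, ?_⟩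
  · rw [hlx]; exact zpow_ne_zero _ ht0
  · rw [hlx, hord]
  · intro y m hy
    obtain ⟨s, hs, z, hz, rfl⟩ := Submodule.mem_sup.1 (htop y)
    obtain ⟨f, rfl⟩ := Submodule.mem_span_singleton.1 hz
    rw [map_add, hlT s hs, zero_add, map_smul, hlx, smul_eq_mul]
    by_cases h0 : f = 0
    · exact Or.inl (by simp [h0])
    have hx' : f • x ∉ T := fun h' => hxT ((T.smul_mem_iff h0).1 h')
    have h1 := le_del (N := N) hx' hs
    have h2 := del_smul_add (N := N) hxT h0 T.zero_mem
    rw [add_zero] at h2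
    rw [add_comm, ge_iff (nrm_add_ne hx' hs)] at hy
    refine Or.inr ?_
    rw [v.ord_mul h0 (zpow_ne_zero _ ht0), hord]
    omega

end Nrm

end Pool.Agent.Lib.MP_6adaea_nt.U
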