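import Pool.Agent.Lib.MP_6adaea_nt.U.Pot

/-!
Orthonormal bases, the local index.
-/

set_option linter.unusedSectionVars false

namespace Pool.Agent.Lib.MP_6adaea_nt.U
open Matrix Polynomial G
open scoped TensorProduct

variable {kb K : Type} [Field kb] [Field K] [Algebra kb K] {B : Type} [AddCommGroup B]
  [Module K B] {B' : Type} [AddCommGroup B'] [Module K B']

theorem orth_fun {S : Submodule K B} {x : B} (hx : x ∉ S) :
    ∃ l : B →ₗ[K] K, l x ≠ 0 ∧ ∀ s ∈ S, l (x + s) = l x := by
  obtain ⟨l, hl, hS⟩ := Submodule.exists_dual_map_eq_bot_of_notMem hx inferInstance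
  refine ⟨l, hl, fun s hs => ?_⟩
  have : l s ∈ S.map l := ⟨s, hs, rfl⟩
  rw [hS, Submodule.mem_bot] at this
  rw [map_add, this, add_zero]

theorem orth_ge_fun {v : Place kb K} {ι : Type} [Fintype ι] (b : Module.Basis ι K B)
    (l : B →ₗ[K] K) {c m : ℤ} (hc : ∀ i, v.Ge (l (b i)) c) {y : B}
    (hy : ∀ i, v.Ge (b.repr y i) m) : v.Ge (l y) (m + c) := by
  rw [← b.sum_repr y, map_sum]
  refine Place.Ge.sum fun i _ => ?_
  rw [map_smul, smul_eq_mul]
  exact (hy i).mul (hc i)

/-- `ν x = min_i ord (b.repr x i)` over the nonzero coordinates. For `bdd` take a functional `l`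
with `l S = 0`, `l x = 1`. -/
theorem exists_nrm (v : Place kb K) {ι : Type} [Fintype ι] (b : Module.Basis ι K B) :
    ∃ N : Nrm v B, N.Orth b := by
  classical
  have h : ∀ x : B, x ≠ 0 → ∃ n : ℤ, ∀ m, m ≤ n ↔ ∀ i, v.Ge (b.repr x i) m := fun x hx => by
    have hne : (Finset.univ.filter fun i => b.repr x i ≠ 0).Nonempty := by
      by_contra hc
      refine hx (b.repr.injective (Finsupp.ext fun i => ?_))
      by_contra h0
      exact hc ⟨i, Finset.mem_filter.2 ⟨Finset.mem_univ _, by simpa using h0⟩⟩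
    obtain ⟨i, hi, hmin⟩ := Finset.exists_min_image _ (fun i => v.ord (b.repr x i)) hne
    refine ⟨v.ord (b.repr x i), fun m => ⟨fun hm j => ?_, fun hm =>
      (hm i).le (Finset.mem_filter.1 hi).2⟩⟩
    by_cases h0 : b.repr x j = 0
    · exact Or.inl h0
    · exact Or.inr (hm.trans (hmin j (Finset.mem_filter.2 ⟨Finset.mem_univ _, h0⟩)))
  choose! ν hν using h
  refine ⟨⟨ν, fun {f x} hf hx => ?_, fun {x y} hx hy hxy => ?_, fun S x hx => ?_⟩,
    fun x m => ?_⟩
  · refine eq_of_forall_le_iff fun m => ?_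
    rw [hν _ (smul_ne_zero hf hx), ← sub_le_iff_le_add', hν _ hx]
    refine forall_congr' fun i => ?_
    rw [map_smul, Finsupp.smul_apply, smul_eq_mul, mul_comm, Place.ge_mul_iff hf]
  · refine (hν _ hxy _).2 fun i => ?_
    rw [map_add, Finsupp.add_apply]
    exact ((hν _ hx _).1 (min_le_left _ _) i).add ((hν _ hy _).1 (min_le_right _ _) i)
  · obtain ⟨l, hl, hS⟩ := orth_fun hx
    obtain ⟨c, hc⟩ := (Set.finite_range fun i => v.ord (l (b i))).bddBelow
    refine ⟨v.ord (l x) - c, ?_⟩
    rintro _ ⟨s, hs, rfl⟩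
    have h0 : x + s ≠ 0 := fun h => hl (by rw [← hS s hs, h, map_zero])
    have := orth_ge_fun b l (fun i => Place.Ge.of_le (hc ⟨i, rfl⟩)) ((hν _ h0 _).1 le_rfl)
    rw [hS s hs] at this
    exact le_sub_iff_add_le.2 (this.le hl)
  · by_cases hx : x = 0
    · simp [hx, Nrm.Ge]
    · exact (Nrm.ge_iff hx).trans (hν x hx m)

variable [FiniteDimensional K B]

/-- build the basis along a flag with `Nrm.ge_add_iff`, scaling to `ν = 0` -/
theorem Nrm.exists_orth {v : Place kb K} (N : Nrm v B) :
    ∃ b : Module.Basis (Fin (Module.finrank K B)) K B, N.Orth b := by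
  have h := flag_ind (K := K) (B := B) (S0 := ⊥) (S1 := ⊤) bot_le
    (fun S => ∃ (n : ℕ) (w : Fin n → B), Submodule.span K (Set.range w) = S ∧
      ∀ (c : Fin n → K) (m : ℤ), N.Ge (∑ i, c i • w i) m ↔ ∀ i, v.Ge (c i) m)
    ⟨0, Fin.elim0, by simp, fun c m => by simp [Nrm.Ge]⟩ (by
      rintro S x - - - hx ⟨n, w, hw, h⟩
      obtain ⟨s, hs, hd⟩ := N.exists_del hx
      obtain ⟨t, ht0, ht⟩ := v.exists_ord_eq (-N.del x S)
      have hxs : x + s ≠ 0 := fun h => hx (by
        rw [eq_neg_of_add_eq_zero_left h]; exact S.neg_mem hs)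
      have hz : t • x + t • s ∉ S := fun h =>
        hx ((S.smul_mem_iff ht0).1 ((S.add_mem_iff_left (S.smul_mem t hs)).1 h))
      have hν : N.ν (t • x + t • s) = 0 := by
        rw [← smul_add, N.smul ht0 hxs, ht, hd, neg_add_cancel]
      have hdel : N.del (t • x + t • s) S = 0 := by
        rw [Nrm.del_smul_add hx ht0 (S.smul_mem t hs), ht, neg_add_cancel]
      refine ⟨n + 1, Fin.cons (t • x + t • s) w, ?_, fun c m => ?_⟩
      · rw [Fin.range_cons, Submodule.span_insert, hw, sup_comm]
        refine le_antisymm (sup_le le_sup_left ?_) (sup_le le_sup_left ?_)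
        · rw [Submodule.span_singleton_le_iff_mem]
          exact add_mem (Submodule.mem_sup_right (Submodule.smul_mem _ _
            (Submodule.mem_span_singleton_self x))) (Submodule.mem_sup_left (S.smul_mem t hs))
        · rw [Submodule.span_singleton_le_iff_mem]
          have e : x = t⁻¹ • (t • x + t • s) - s := by
            rw [← smul_add, inv_smul_smul₀ ht0, add_sub_cancel_right]
          rw [e]
          refine sub_mem (Submodule.mem_sup_right (Submodule.smul_mem _ _ ?_))
            (Submodule.mem_sup_left hs)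
          rw [← e]
          exact Submodule.mem_span_singleton_self _
      · have hm : ∑ i : Fin n, c i.succ • w i ∈ S := hw ▸ Submodule.sum_mem _ fun i _ =>
          Submodule.smul_mem _ _ (Submodule.subset_span ⟨i, rfl⟩)
        rw [Fin.sum_univ_succ, Fin.forall_fin_succ, add_comm]
        simp only [Fin.cons_zero, Fin.cons_succ]
        rw [Nrm.ge_add_iff hz (hν.trans hdel.symm) hm, hν, sub_zero, h, and_comm])
  obtain ⟨n, w, hw, h⟩ := h
  have hli : LinearIndependent K w := Fintype.linearIndependent_iff.2 fun c hc i => by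
    by_contra h0
    have := ((h c (v.ord (c i) + 1)).1 (Or.inl hc) i).le h0
    omega
  let b := Module.Basis.mk hli hw.ge
  obtain rfl : n = Module.finrank K B := by simpa using (Module.finrank_eq_card_basis b).symm
  refine ⟨b, fun x m => ?_⟩
  rw [← h]
  conv_lhs => rw [← b.sum_repr x]
  simp [b]

theorem Nrm.Orth.ge_sum_iff {v : Place kb K} {N : Nrm v B} {ι : Type} [Fintype ι]
    {b : Module.Basis ι K B} (h : N.Orth b) (c : ι → K) (m : ℤ) :
    N.Ge (∑ i, c i • b i) m ↔ ∀ i, v.Ge (c i) m := by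
  rw [h, b.repr_sum_self]

/-- `ν (b i) = 0` and `del (b i) (ker (coord i)) = 0` for almost all places -/
theorem NFam.orth_ae (N : NFam kb K B) {ι : Type} [Fintype ι] (b : Module.Basis ι K B) :
    {v | ¬(N.N v).Orth b}.Finite := by
  have h1 : ∀ i, b i ∉ (⊥ : Submodule K B) := fun i => by simpa using b.ne_zero i
  have h2 : ∀ i, b i ∉ LinearMap.ker (b.coord i) := fun i => by simp
  refine ((Set.finite_iUnion fun i => N.ae _ _ (h1 i)).union
    (Set.finite_iUnion fun i => N.ae _ _ (h2 i))).subset fun v hv => ?_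
  by_contra hc
  simp only [Set.mem_union, Set.mem_iUnion, Set.mem_ofPred_eq, not_or, not_exists, not_not] at hc
  refine hv fun x m => ⟨fun hx i => ?_, fun hx => ?_⟩
  · by_cases h0 : b.repr x i = 0
    · exact Or.inl h0
    have hs : x - b.repr x i • b i ∈ LinearMap.ker (b.coord i) := by simp
    have hx0 : x ∉ LinearMap.ker (b.coord i) := by simpa using h0
    have e := Nrm.del_smul_add (N := N.N v) (h2 i) h0 hs
    rw [add_sub_cancel, hc.2 i, add_zero] at e
    have h3 := Nrm.le_del (N := N.N v) hx0 (zero_mem _)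
    rw [add_zero, e] at h3
    have h4 : x ≠ 0 := fun h => hx0 (h ▸ zero_mem _)
    exact Or.inr (((Nrm.ge_iff h4).1 hx).trans h3)
  · rw [← b.sum_repr x]
    refine Nrm.Ge.sum fun i _ => ?_
    have h3 := hc.1 i
    rw [Nrm.del_bot] at h3
    simpa [h3] using Nrm.Ge.smul (hx i) ((N.N v).ge_self (b i))

/-- Take a functional `l` with `l S = 0`, `l x = 1`. At almost all places the numbers `l (b i)`
and the coordinates of `x` are integral, so `0 ≤ ν x ≤ del x S ≤ 0`. -/
theorem ae_of_orth (hK : FF kb K) (N : ∀ v : Place kb K, Nrm v B) {ι : Type} [Fintype ι]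
    (b : Module.Basis ι K B) (h : {v | ¬(N v).Orth b}.Finite) (S : Submodule K B) (x : B)
    (hx : x ∉ S) : {v | (N v).del x S ≠ 0}.Finite := by
  obtain ⟨l, hl, hS⟩ := orth_fun hx
  refine (((h.union (hK.fin (l x))).union (Set.finite_iUnion fun i => hK.fin (l (b i)))).union
    (Set.finite_iUnion fun i => hK.fin (b.repr x i))).subset fun v hv => ?_
  by_contra hc
  simp only [Set.mem_union, Set.mem_iUnion, Set.mem_ofPred_eq, not_or, not_exists, not_not] at hc
  obtain ⟨⟨⟨ho, h1⟩, h2⟩, h3⟩ := hc
  refine hv (le_antisymm ?_ ?_)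
  · obtain ⟨s, hs, hd⟩ := (N v).exists_del hx
    have := orth_ge_fun b l (fun i => Place.Ge.of_le (h2 i).ge)
      ((ho _ _).1 ((N v).ge_self (x + s)))
    rw [hS s hs, hd, add_zero] at this
    exact (this.le hl).trans h1.le
  · exact (Nrm.le_del_iff hx).2 ⟨0, zero_mem _, by
      rw [add_zero]; exact (ho _ _).2 fun i => Place.Ge.of_le (h3 i).ge⟩

theorem orth_tot (c : Place kb K →₀ ℤ) : tot c = ∑ᶠ v, c v :=
  (finsum_eq_sum_of_support_subset c (s := c.support) (by simp)).symm

/-- For each place `pot` applies to `ε S x = del₂ x S - del₁ x S - lo v ≥ 0`; let `e v` be the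
value of the potential at `⊤`. A flag that starts with `x` shows `ν₂ x - ν₁ x - lo v ≤ e v`; a
fixed flag gives the finite support and the sum. -/
theorem idx (hK : FF kb K) (N1 N2 : NFam kb K B) (lo : Place kb K →₀ ℤ)
    (h : ∀ v x m, (N1.N v).Ge x m → (N2.N v).Ge x (m + lo v)) :
    ∃ e : Place kb K →₀ ℤ, (∀ v, 0 ≤ e v) ∧
      tot e = N1.ht ⊤ - N2.ht ⊤ - Module.finrank K B * tot lo ∧
      ∀ v x m, (N2.N v).Ge x m → (N1.N v).Ge x (m - lo v - e v) := by
  have hp := fun v : Place kb K => pot (K := K) (B := B)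
    (fun S x => (N2.N v).del x S - (N1.N v).del x S - lo v)
    (fun S x hx f hf s hs => by
      rw [Nrm.del_smul_add hx hf hs, Nrm.del_smul_add hx hf hs]; ring)
    (fun S x y hx hy => by
      have h1 := Nrm.exchange (N := N1.N v) hx hy
      have h2 := Nrm.exchange (N := N2.N v) hx hy
      omega)
  choose H H0 HS using hp
  have mono : ∀ v S, H v S ≤ H v ⊤ := fun v S =>
    flag_ind (le_top : S ≤ ⊤) (fun T => H v S ≤ H v T) le_rfl fun T x _ _ _ hx hT => by
      rw [HS v T x hx]
      obtain ⟨s, hs, hd⟩ := (N1.N v).exists_del hx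
      have := (Nrm.le_del_iff hx).2 ⟨s, hs, h v _ _ ((N1.N v).ge_self (x + s))⟩
      omega
  have key := flag_ind (K := K) (B := B) (S0 := ⊥) (S1 := ⊤) bot_le
    (fun S => (Function.support fun v => H v S).Finite ∧
      ∑ᶠ v, H v S = N1.ht S - N2.ht S - Module.finrank K S * tot lo)
    ⟨by simp [H0], by simp [H0, N1.ht_bot hK, N2.ht_bot hK]⟩ (by
      rintro S x - - - hx ⟨hf, hs⟩
      have f1 : (Function.support fun v => (N1.N v).del x S).Finite := N1.ae S x hx
      have f2 : (Function.support fun v => (N2.N v).del x S).Finite := N2.ae S x hx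
      have f3 : (Function.support fun v => lo v).Finite := lo.hasFiniteSupport
      have f4 : (Function.support fun v => (N2.N v).del x S - (N1.N v).del x S).Finite :=
        (f2.union f1).subset (Function.support_sub _ _)
      have f5 : (Function.support fun v => (N2.N v).del x S - (N1.N v).del x S - lo v).Finite :=
        (f4.union f3).subset (Function.support_sub _ _)
      have hr : Module.finrank K ↥(S ⊔ Submodule.span K {x}) = Module.finrank K S + 1 := by
        have h1 := Submodule.finrank_sup_add_finrank_inf_eq S (Submodule.span K {x})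
        have h0 : x ≠ 0 := fun h => hx (h ▸ zero_mem _)
        rw [((Submodule.disjoint_span_singleton' h0).2 hx).eq_bot, finrank_span_singleton h0,
          finrank_bot, add_zero] at h1
        exact h1
      simp only [HS _ S x hx]
      refine ⟨(hf.union f5).subset (Function.support_add _ _), ?_⟩
      rw [finsum_add_distrib hf f5, finsum_sub_distrib f4 f3, finsum_sub_distrib f2 f1, hs,
        N1.ht_sup hK hx, N2.ht_sup hK hx, hr, orth_tot]
      push_cast
      ring)
  refine ⟨Finsupp.ofSupportFinite _ key.1, fun v => (H0 v).ge.trans (mono v ⊥), ?_,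
    fun v x m hx => ?_⟩
  · have h1 := key.2
    rw [finrank_top] at h1
    exact (orth_tot _).trans h1
  · by_cases h0 : x = 0
    · exact Or.inl h0
    have h1 := mono v (⊥ ⊔ Submodule.span K {x})
    rw [HS v ⊥ x (by simpa using h0), H0, Nrm.del_bot, Nrm.del_bot] at h1
    have h2 := (Nrm.ge_iff h0).1 hx
    refine Or.inr ?_
    change m - lo v - H v ⊤ ≤ _
    omega

end Pool.Agent.Lib.MP_6adaea_nt.U
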