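import Pool.Agent.Lib.MP_6adaea_nt.U.HomL

/-!
Pluecker vectors and eigenvalues.
-/

set_option linter.unusedSectionVars false

namespace Pool.Agent.Lib.MP_6adaea_nt.U
open Matrix Polynomial G
open scoped TensorProduct

variable {S S' : Type} [CommRing S] [CommRing S'] {n ι : Type} [Fintype n] [DecidableEq n]
  [Fintype ι] [DecidableEq ι]


theorem PL_minor {F Z : Type} [Field F] [Fintype Z] {ρ : ℕ} (e : Fin ρ → Z → F)
    (he : LinearIndependent F e) :
    ∃ z : Fin ρ → Z, (Matrix.of fun a b => e a (z b)).det ≠ 0 := by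
  have h1 : (Matrix.of e).rank = Fintype.card (Fin ρ) := LinearIndependent.rank_matrix he
  rw [rank_eq_finrank_span_cols, Fintype.card_fin] at h1
  obtain ⟨f, hf, -, hl⟩ := Submodule.exists_fun_fin_finrank_span_eq F (Set.range (Matrix.of e).col)
  choose z hz using hf
  refine ⟨fun b => z (Fin.cast h1.symm b), ?_⟩
  have h2 : LinearIndependent F (Matrix.of fun a (b : Fin ρ) => e a (z (Fin.cast h1.symm b))).col := by
    have h3 := hl.comp (Fin.cast h1.symm) (Fin.cast_injective _)
    have h4 : f ∘ Fin.cast h1.symm =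
        (Matrix.of fun a (b : Fin ρ) => e a (z (Fin.cast h1.symm b))).col :=
      funext fun b => (hz _).symm
    rwa [h4] at h3
  exact ((isUnit_iff_isUnit_det _).1 (linearIndependent_cols_iff_isUnit.1 h2)).ne_zero

/-- Cramer: if the families `u` and `e` of vectors have the same maximal minors and `e` is
independent then every `u a` lies in the span of `e` -/
theorem mem_span_of_minors {F Z : Type} [Field F] [Fintype Z] {ρ : ℕ} (e u : Fin ρ → Z → F)
    (he : LinearIndependent F e)
    (h : ∀ z : Fin ρ → Z, (Matrix.of fun a b => u a (z b)).det = (Matrix.of fun a b => e a (z b)).det)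
    (a : Fin ρ) : u a ∈ Submodule.span F (Set.range e) := by
  obtain ⟨z, hz⟩ := PL_minor e he
  set E := Matrix.of fun a b => e a (z b) with hE
  set U := Matrix.of fun a b => u a (z b) with hU
  have key : ∀ y, (U * E.adjugate) *ᵥ (fun a => e a y) = E.det • fun a => u a y := fun y => by
    have h1 : ∀ (v : Fin ρ → Z → F) (b : Fin ρ),
        (Matrix.of fun a b => v a (z b)).updateCol b (fun a => v a y) =
          Matrix.of fun a b' => v a (Function.update z b y b') := fun v b => by
      ext a b'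
      by_cases hb : b' = b
      · subst hb
        simp
      · simp [updateCol_ne hb, Function.update_of_ne hb]
    have h2 : cramer U (fun a => u a y) = cramer E fun a => e a y := by
      funext b
      rw [cramer_apply, cramer_apply, hU, hE, h1, h1, h]
    rw [← mulVec_mulVec, ← cramer_eq_adjugate_mulVec, ← h2, mulVec_cramer, hU, h z]
  refine (Submodule.mem_span_range_iff_exists_fun F).2
    ⟨fun a' => E.det⁻¹ * (U * E.adjugate) a a', funext fun y => ?_⟩
  have h3 := congrFun (key y) a
  rw [mulVec, dotProduct, Pi.smul_apply, smul_eq_mul] at h3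
  simp only [Finset.sum_apply, Pi.smul_apply, smul_eq_mul, mul_assoc]
  rw [← Finset.mul_sum, h3, inv_mul_cancel_left₀ hz]

theorem PL_det {J : Type} [Fintype J] {ρ : ℕ} (T : Matrix J J S) (e : Fin ρ → Matrix J J S)
    (j j' : Fin ρ → J) : (Matrix.of fun a b => (T * e a) (j b) (j' b)).det =
      ∑ y : Fin ρ → J, (∏ b, T (j b) (y b)) * (Matrix.of fun a b => e a (y b) (j' b)).det := by
  classical
  simp only [det_apply', of_apply, mul_apply, Finset.prod_univ_sum, Fintype.piFinset_univ,
    Finset.mul_sum, Finset.prod_mul_distrib]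
  rw [Finset.sum_comm]
  refine Finset.sum_congr rfl fun y _ => Finset.sum_congr rfl fun σ _ => ?_
  ring

/-- regrouping of the tensor factors -/
def PL_eq (ι : Type) (ρ D : ℕ) : (Fin (ρ * D) → ι) ≃ (Fin ρ → Fin D → ι) :=
  (Equiv.arrowCongr finProdFinEquiv.symm (Equiv.refl ι)).trans (Equiv.curry _ _ _)

theorem PL_ten {ρ D : ℕ} (g : Matrix ι ι S) (e : Fin ρ → Matrix (Fin D → ι) (Fin D → ι) S)
    (j' : Fin ρ → Fin D → ι) (x : Fin (ρ * D) → ι) :
    (ten (ρ * D) g *ᵥ fun y => (Matrix.of fun a b => e a (PL_eq ι ρ D y b) (j' b)).det) x =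
      (Matrix.of fun a b => (ten D g * e a) (PL_eq ι ρ D x b) (j' b)).det := by
  rw [PL_det, ← (PL_eq ι ρ D).sum_comp, mulVec, dotProduct]
  refine Finset.sum_congr rfl fun y _ => ?_
  congr 1
  rw [ten, of_apply, ← finProdFinEquiv.prod_comp, Fintype.prod_prod_type]
  rfl

/-- Let `E` be the span of the `ten D g`, `g ∈ G`, with basis `e a`, `a < ρ`, and
`w j' j = det (e a (j b) (j' b))`, reindexed by `finProdFinEquiv`. By multilinearity
`ten (ρ * D) g *ᵥ w j'` is the same determinant for the matrices `ten D g * e a`. If `ten s` fixed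
all `w j'` then `ten D s * E ⊆ E` (`mem_span_of_minors`), and `1 ∈ E`, so `f s = 0`. -/
theorem pl {F : Type} [Field F] (G : Submonoid (Matrix ι ι F)) (hG : ∀ g ∈ G, IsUnit g) {D : ℕ}
    {f : Matrix ι ι F → F} (hf : Hom D f) (h0 : ∀ g ∈ G, f g = 0) {s : Matrix ι ι F}
    (hs : f s ≠ 0) : ∃ M ≤ (Fintype.card ι ^ D) ^ 2 * D, ∃ w : (Fin M → ι) → F,
      (∀ g ∈ G, ∃ χ : F, ten M g *ᵥ w = χ • w) ∧ ten M s *ᵥ w ≠ w := by
  obtain ⟨l, hl⟩ := hf.exists_ten
  obtain ⟨E, hE⟩ : ∃ E, E = Submodule.span F (ten D '' (G : Set (Matrix ι ι F))) := ⟨_, rfl⟩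
  obtain ⟨ρ, e, hρ, he1, he2, he3⟩ : ∃ (ρ : ℕ) (e : Fin ρ → Matrix (Fin D → ι) (Fin D → ι) F),
      ρ ≤ (Fintype.card ι ^ D) ^ 2 ∧ (∀ a, e a ∈ ten D '' (G : Set (Matrix ι ι F))) ∧
        Submodule.span F (Set.range e) = E ∧ LinearIndependent F e := by
    obtain ⟨e, he1, he2, he3⟩ := Submodule.exists_fun_fin_finrank_span_eq F
      (ten D '' (G : Set (Matrix ι ι F)))
    refine ⟨_, e, (Submodule.finrank_le _).trans_eq ?_, he1, he2.trans hE.symm, he3⟩
    rw [Module.finrank_matrix, Module.finrank_self, mul_one, Fintype.card_fun, Fintype.card_fin, sq]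
  refine ⟨ρ * D, Nat.mul_le_mul_right _ hρ, ?_⟩
  by_contra hc
  push Not at hc
  have hw : ∀ j' : Fin ρ → Fin D → ι, ∀ g ∈ G, ∃ χ : F,
      (ten (ρ * D) g *ᵥ fun y => (Matrix.of fun a b => e a (PL_eq ι ρ D y b) (j' b)).det) =
        χ • fun y => (Matrix.of fun a b => e a (PL_eq ι ρ D y b) (j' b)).det := by
    intro j' g hg
    have h1 : ∀ a, ∃ c : Fin ρ → F, ∑ a', c a' • e a' = ten D g * e a := fun a => by
      rw [← Submodule.mem_span_range_iff_exists_fun, he2]
      obtain ⟨g', hg', h2⟩ := he1 a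
      rw [← h2, ← ten_mul, hE]
      exact Submodule.subset_span ⟨_, G.mul_mem hg hg', rfl⟩
    choose c hc using h1
    refine ⟨(Matrix.of c).det, funext fun x => ?_⟩
    rw [PL_ten, Pi.smul_apply, smul_eq_mul, ← det_mul]
    congr 1
    ext a b
    rw [of_apply, ← hc, mul_apply, Matrix.sum_apply]
    rfl
  have hli : LinearIndependent F fun a (z : (Fin D → ι) × (Fin D → ι)) => e a z.1 z.2 := by
    rw [Fintype.linearIndependent_iff] at he3 ⊢
    refine fun c hc => he3 c ?_
    ext i j
    simpa [Matrix.sum_apply] using congrFun hc (i, j)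
  have hs1 : ∀ a, ten D s * e a ∈ E := fun a => by
    have h1 := mem_span_of_minors _ (fun a z => (ten D s * e a) z.1 z.2) hli (fun z => by
      have h2 := congrFun (hc _ (hw fun b => (z b).2)) ((PL_eq ι ρ D).symm fun b => (z b).1)
      rwa [PL_ten, Equiv.apply_symm_apply] at h2) a
    obtain ⟨c, hc⟩ := (Submodule.mem_span_range_iff_exists_fun F).1 h1
    rw [← he2, Submodule.mem_span_range_iff_exists_fun]
    refine ⟨c, ?_⟩
    ext i j
    simpa [Matrix.sum_apply] using congrFun hc (i, j)
  have hs2 : ten D s ∈ E := by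
    have h1 : ten D (1 : Matrix ι ι F) ∈ E :=
      hE ▸ Submodule.subset_span ⟨_, G.one_mem, rfl⟩
    rw [← he2, Submodule.mem_span_range_iff_exists_fun] at h1
    obtain ⟨c, hc⟩ := h1
    rw [← mul_one s, ten_mul, ← hc, Finset.mul_sum]
    exact E.sum_mem fun a _ => by rw [mul_smul_comm]; exact E.smul_mem _ (hs1 a)
  have key : ∀ A ∈ E, ∑ j, ∑ j', l j j' * A j j' = 0 := fun A hA => by
    rw [hE] at hA
    induction hA using Submodule.span_induction with
    | mem A hA =>
      obtain ⟨g, hg, rfl⟩ := hA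
      rw [← hl, h0 g hg]
    | zero => simp
    | add A B _ _ hA hB => simp [mul_add, Finset.sum_add_distrib, hA, hB]
    | smul c A _ hA =>
      simp only [Matrix.smul_apply, smul_eq_mul, mul_left_comm _ c, ← Finset.mul_sum, hA, mul_zero]
  exact hs ((hl s).trans (key _ hs2))

theorem PL_aeval {J : Type} {g : Matrix ι ι S} {W : Matrix ι J S} {μ : S} (h : g * W = μ • W)
    (p : S[X]) : aeval g p * W = p.eval μ • W := by
  induction p using Polynomial.induction_on with
  | C a => rw [aeval_C, eval_C, Algebra.algebraMap_eq_smul_one, Matrix.smul_mul, Matrix.one_mul]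
  | add p q hp hq => rw [map_add, Matrix.add_mul, hp, hq, eval_add, add_smul]
  | monomial m a ih =>
    rw [pow_succ, ← mul_assoc, map_mul, aeval_X, Matrix.mul_assoc, h, Matrix.mul_smul, ih,
      eval_mul_X, smul_smul, mul_comm]

theorem PL_eig {F J : Type} [Field F] [IsAlgClosed F] [Fintype J] (g : Matrix ι ι F)
    (T : Matrix J J F) {W : Matrix ι J F} (hW : W ≠ 0) {χ : F} (h : g * W * T = χ • W) :
    ∃ (W' : Matrix ι J F) (μ : F), W' ≠ 0 ∧ g * W' * T = χ • W' ∧ g * W' = μ • W' := by
  let V : Submodule F (Matrix ι J F) :=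
    { carrier := {W | g * W * T = χ • W}
      add_mem' := fun {a b} ha hb => by
        rw [Set.mem_ofPred_eq] at ha hb ⊢
        rw [Matrix.mul_add, Matrix.add_mul, ha, hb, smul_add]
      zero_mem' := by simp
      smul_mem' := fun c a ha => by
        rw [Set.mem_ofPred_eq] at ha ⊢
        rw [Matrix.mul_smul, Matrix.smul_mul, ha, smul_comm] }
  let A : Module.End F V :=
    { toFun := fun x => ⟨g * x.1, by
        have h1 : g * x.1 * T = χ • x.1 := x.2
        change g * (g * x.1) * T = χ • (g * x.1)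
        rw [Matrix.mul_assoc, h1, Matrix.mul_smul]⟩
      map_add' := fun x y => Subtype.ext (Matrix.mul_add _ _ _)
      map_smul' := fun c x => Subtype.ext (Matrix.mul_smul _ _ _) }
  have : Nontrivial V := ⟨⟨⟨W, h⟩, 0, fun e => hW (congrArg Subtype.val e)⟩⟩
  obtain ⟨μ, hμ⟩ := Module.End.exists_eigenvalue A
  obtain ⟨x, hx⟩ := hμ.exists_hasEigenvector
  exact ⟨x.1, μ, fun e => hx.2 (Subtype.ext e), x.2, congrArg Subtype.val hx.apply_eq_smul⟩

/-- `ten M g` is the product of the commuting operators that act by `g` on one factor; they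
preserve the eigenspace, have a common eigenvector there and are killed by `p` -/
theorem eig_ten {F : Type} [Field F] [IsAlgClosed F] {g : Matrix ι ι F} {p : F[X]}
    (hp : aeval g p = 0) {M : ℕ} {w : (Fin M → ι) → F} (hw : w ≠ 0) {χ : F}
    (h : ten M g *ᵥ w = χ • w) : ∃ μ : Fin M → F, (∀ l, p.IsRoot (μ l)) ∧ χ = ∏ l, μ l := by
  induction M generalizing χ with
  | zero =>
    refine ⟨Fin.elim0, fun l => l.elim0, ?_⟩
    have h1 : ten 0 g = 1 := by
      ext i j
      rw [Subsingleton.elim i j, one_apply_eq]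
      simp [ten]
    rw [h1, one_mulVec] at h
    rw [Fin.prod_univ_zero]
    exact smul_left_injective F hw (h.symm.trans (one_smul F w).symm)
  | succ M ih =>
    obtain ⟨W, μ, h0, h1, h2⟩ := PL_eig g (ten M g)ᵀ
      (W := Matrix.of fun i y => w (Fin.cons i y)) (χ := χ)
      (fun e => hw (funext fun x => by
        have h1 := congrFun (congrFun e (x 0)) (Fin.tail x)
        rwa [of_apply, Fin.cons_self_tail] at h1))
      (by
        ext i x
        have h1 := congrFun h (Fin.cons i x)
        rw [mulVec, dotProduct, ← (Fin.consEquiv fun _ => ι).sum_comp, Fintype.sum_prod_type,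
          Finset.sum_comm] at h1
        refine Eq.trans ?_ h1
        simp only [mul_apply, Finset.sum_mul, ten, of_apply, transpose_apply, Fin.prod_univ_succ,
          Fin.consEquiv, Equiv.coe_fn_mk, Fin.cons_zero, Fin.cons_succ]
        refine Finset.sum_congr rfl fun y _ => Finset.sum_congr rfl fun i' _ => ?_
        ring)
    have hμ : p.IsRoot μ := by
      have h3 := PL_aeval h2 p
      rw [hp, Matrix.zero_mul] at h3
      exact (smul_eq_zero.1 h3.symm).resolve_right h0
    rw [h2, Matrix.smul_mul] at h1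
    by_cases hz : μ = 0
    · rw [hz, zero_smul] at h1
      refine ⟨fun _ => μ, fun _ => hμ, ?_⟩
      rw [Fin.prod_univ_succ, hz, zero_mul]
      exact (smul_eq_zero.1 h1.symm).resolve_right h0
    · obtain ⟨i, hi⟩ := Function.ne_iff.1 h0
      obtain ⟨ν, h3, h4⟩ := ih (w := W i) (χ := μ⁻¹ * χ) hi (funext fun x => by
        have h3 := congrFun (congrFun h1 i) x
        simp only [Matrix.smul_apply, smul_eq_mul, mul_apply, transpose_apply] at h3
        rw [Pi.smul_apply, smul_eq_mul, mul_assoc, ← h3, inv_mul_cancel_left₀ hz, mulVec, dotProduct]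
        exact Finset.sum_congr rfl fun y _ => mul_comm _ _)
      refine ⟨Fin.cons μ ν, fun l => Fin.cases hμ h3 l, ?_⟩
      rw [Fin.prod_cons, ← h4, mul_inv_cancel_left₀ hz]

/-- `hat ![z, z]` is an algebra map; with `c = charpoly (B z)` the matrix `aeval B c` is divisible
by `X - z`, so its square is divisible by `qd` -/
theorem eig_rep {F : Type} [Field F] [IsAlgClosed F] (z : F) (B : Matrix n n F[X]) {M : ℕ}
    {w : JJ n M → F} (hw : w ≠ 0) {χ : F} (h : rep M ![z, z] B *ᵥ w = χ • w) :
    ∃ μ : Fin M → F, (∀ l, (B.map (eval z)).charpoly.IsRoot (μ l)) ∧ χ = ∏ l, μ l := by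
  let H : Matrix n n F[X] →ₐ[F] Matrix (n × Fin 2) (n × Fin 2) F :=
    (compAlgEquiv n (Fin 2) F F).toAlgHom.comp (aeval (cm ![z, z])).mapMatrix
  have hH : ∀ A, H A = hat ![z, z] A := fun _ => rfl
  set c := (B.map (eval z)).charpoly with hc
  have h1 : ∀ i j, X - C z ∣ aeval B c i j := fun i j => by
    have h2 : (aeval z : F[X] →ₐ[F] F).mapMatrix (aeval B c) = 0 := by
      rw [← aeval_algHom_apply, hc, AlgHom.mapMatrix_apply, coe_aeval_eq_eval]
      exact aeval_self_charpoly _
    have h3 := congrFun (congrFun h2 i) j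
    rw [AlgHom.mapMatrix_apply, map_apply, coe_aeval_eq_eval] at h3
    exact dvd_iff_isRoot.2 h3
  have h2 : aeval (hat ![z, z] B) (c * c) = 0 := by
    rw [← hH, aeval_algHom_apply, hH, map_mul]
    ext x y
    rw [hat, of_apply, (aeval_cm_eq_zero_iff _ _).2 ?_]
    · rfl
    · rw [mul_apply]
      exact Finset.dvd_sum fun j _ => mul_dvd_mul (h1 _ _) (h1 _ _)
  obtain ⟨μ, h3, h4⟩ := eig_ten h2 hw h
  exact ⟨μ, fun l => by simpa using h3 l, h4⟩

end Pool.Agent.Lib.MP_6adaea_nt.U
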