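import Pool.Agent.Lib.MP_6adaea_nt.U.Nrm

/-!
The height as a potential.
-/

set_option linter.unusedSectionVars false

namespace Pool.Agent.Lib.MP_6adaea_nt.U
open Matrix Polynomial G
open scoped TensorProduct

variable {kb K : Type} [Field kb] [Field K] [Algebra kb K] {B : Type} [AddCommGroup B]
  [Module K B] {B' : Type} [AddCommGroup B'] [Module K B']


theorem pot_mem {S : Submodule K B} {x y : B} (hy : y ∈ S ⊔ Submodule.span K {x}) :
    ∃ f : K, ∃ s ∈ S, y = f • x + s := by
  obtain ⟨s, hs, z, hz, rfl⟩ := Submodule.mem_sup.1 hy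
  obtain ⟨f, rfl⟩ := Submodule.mem_span_singleton.1 hz
  exact ⟨f, s, hs, add_comm _ _⟩

theorem pot_mem' {S : Submodule K B} {x y : B} (hy : y ∈ S ⊔ Submodule.span K {x}) (hn : y ∉ S) :
    ∃ f : K, f ≠ 0 ∧ ∃ s ∈ S, y = f • x + s := by
  obtain ⟨f, s, hs, rfl⟩ := pot_mem hy
  exact ⟨f, fun h => hn (by simpa [h] using hs), s, hs, rfl⟩

theorem pot_self (S : Submodule K B) (x : B) : x ∈ S ⊔ Submodule.span K {x} :=
  Submodule.mem_sup_right (Submodule.mem_span_singleton_self x)

theorem pot_le {S T : Submodule K B} {x : B} (h : S ≤ T) (hx : x ∈ T) :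
    S ⊔ Submodule.span K {x} ≤ T :=
  sup_le h ((Submodule.span_singleton_le_iff_mem _ _).2 hx)

theorem pot_exch {S : Submodule K B} {x y : B} (hy : y ∈ S ⊔ Submodule.span K {x}) (hn : y ∉ S) :
    S ⊔ Submodule.span K {y} = S ⊔ Submodule.span K {x} := by
  refine le_antisymm (pot_le le_sup_left hy) (pot_le le_sup_left ?_)
  obtain ⟨f, hf, s, hs, e⟩ := pot_mem' hy hn
  have : x = f⁻¹ • (y - s) := by rw [e, add_sub_cancel_right, smul_smul, inv_mul_cancel₀ hf, one_smul]
  rw [this]
  exact Submodule.smul_mem _ _ (Submodule.sub_mem _ (pot_self S y) (Submodule.mem_sup_left hs))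

theorem pot_notMem {S : Submodule K B} {x y : B} (hx : x ∉ S)
    (hy : y ∉ S ⊔ Submodule.span K {x}) : x ∉ S ⊔ Submodule.span K {y} := fun h =>
  hy (pot_exch h hx ▸ pot_self S y)

theorem pot_inf {S S' : Submodule K B} {a : B} (ha : a ∈ S)
    (h : S ≤ S' ⊔ Submodule.span K {a}) : S ⊓ S' ⊔ Submodule.span K {a} = S := by
  refine le_antisymm (pot_le inf_le_left ha) fun z hz => ?_
  obtain ⟨f, s, hs, e⟩ := pot_mem (h hz)
  have hs' : s ∈ S := by
    have : s = z - f • a := by rw [e]; abel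
    rw [this]
    exact S.sub_mem hz (S.smul_mem f ha)
  rw [e]
  exact Submodule.add_mem _ (Submodule.smul_mem _ _ (pot_self _ a))
    (Submodule.mem_sup_left ⟨hs', hs⟩)

theorem pot_wd [FiniteDimensional K B] (ε : Submodule K B → B → ℤ)
    (h1 : ∀ S x, x ∉ S → ∀ f : K, f ≠ 0 → ∀ s ∈ S, ε S (f • x + s) = ε S x)
    (h2 : ∀ S x y, x ∉ S → y ∉ S ⊔ Submodule.span K {x} →
      ε S x + ε (S ⊔ Submodule.span K {x}) y = ε S y + ε (S ⊔ Submodule.span K {y}) x)
    {n : ℕ} {H : Submodule K B → ℤ}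
    (hH : ∀ (S : Submodule K B) (x : B), Module.finrank K S < n → x ∉ S →
      H (S ⊔ Submodule.span K {x}) = H S + ε S x)
    {S S' : Submodule K B} {x x' : B} (hx : x ∉ S) (hx' : x' ∉ S')
    (hS : Module.finrank K S = n) (hS' : Module.finrank K S' = n)
    (e : S ⊔ Submodule.span K {x} = S' ⊔ Submodule.span K {x'}) :
    H S + ε S x = H S' + ε S' x' := by
  have key : ∀ {U : Submodule K B} {u w : B}, u ∉ U → w ∈ U ⊔ Submodule.span K {u} → w ∉ U →
      ε U w = ε U u := by
    intro U u w hu hw hn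
    obtain ⟨f, hf, s, hs, rfl⟩ := pot_mem' hw hn
    exact h1 U u hu f hf s hs
  by_cases hle : S ≤ S'
  · obtain rfl : S = S' := Submodule.eq_of_le_of_finrank_eq hle (hS.trans hS'.symm)
    rw [key hx (e ▸ pot_self S x') hx']
  · have hge : ¬S' ≤ S := fun h =>
      hle (Submodule.eq_of_le_of_finrank_eq h (hS'.trans hS.symm)).ge
    obtain ⟨a, ha, ha'⟩ := SetLike.not_le_iff_exists.1 hle
    obtain ⟨b, hb, hb'⟩ := SetLike.not_le_iff_exists.1 hge
    have haT : a ∈ S' ⊔ Submodule.span K {x'} := e ▸ Submodule.mem_sup_left ha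
    have hbT : b ∈ S ⊔ Submodule.span K {x} := e ▸ Submodule.mem_sup_left hb
    have e1 : S ⊓ S' ⊔ Submodule.span K {a} = S :=
      pot_inf ha (by rw [pot_exch haT ha', ← e]; exact le_sup_left)
    have e2 : S ⊓ S' ⊔ Submodule.span K {b} = S' := by
      rw [inf_comm]
      exact pot_inf hb (by rw [pot_exch hbT hb', e]; exact le_sup_left)
    have ha0 : a ∉ S ⊓ S' := fun h => ha' h.2
    have hb0 : b ∉ S ⊓ S' := fun h => hb' h.1
    have hr : Module.finrank K (S ⊓ S' : Submodule K B) < n := by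
      have := Submodule.finrank_sup_span_singleton ha0
      rw [e1] at this
      omega
    have i1 := hH _ a hr ha0
    have i2 := hH _ b hr hb0
    have i3 := h2 (S ⊓ S') a b ha0 (by rwa [e1])
    rw [e1] at i1
    rw [e2] at i2
    rw [e1, e2, key hx hbT hb', key hx' haT ha'] at i3
    omega

/-- Induction on the dimension: for `S` of dimension `n + 1` the number `H S' + ε S' x` does not
depend on the hyperplane `S'` and `x ∈ S \ S'`. For two hyperplanes use `S0 = S' ⊓ S''`,
`S' = S0 + x'`, `S'' = S0 + x''`. -/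
theorem pot [FiniteDimensional K B] (ε : Submodule K B → B → ℤ)
    (h1 : ∀ S x, x ∉ S → ∀ f : K, f ≠ 0 → ∀ s ∈ S, ε S (f • x + s) = ε S x)
    (h2 : ∀ S x y, x ∉ S → y ∉ S ⊔ Submodule.span K {x} →
      ε S x + ε (S ⊔ Submodule.span K {x}) y = ε S y + ε (S ⊔ Submodule.span K {y}) x) :
    ∃ H : Submodule K B → ℤ, H ⊥ = 0 ∧
      ∀ S x, x ∉ S → H (S ⊔ Submodule.span K {x}) = H S + ε S x := by
  classical
  have main : ∀ n : ℕ, ∃ H : Submodule K B → ℤ, H ⊥ = 0 ∧
      ∀ (S : Submodule K B) (x : B), Module.finrank K S < n → x ∉ S →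
        H (S ⊔ Submodule.span K {x}) = H S + ε S x := by
    intro n
    induction n with
    | zero => exact ⟨fun _ => 0, rfl, fun S x h => absurd h (Nat.not_lt_zero _)⟩
    | succ n ih =>
      obtain ⟨H, h0, hH⟩ := ih
      have ex : ∀ T : Submodule K B, ∃ z : ℤ, (Module.finrank K T ≠ n + 1 → z = H T) ∧
          ∀ (S : Submodule K B) (x : B), Module.finrank K S = n → x ∉ S →
            T = S ⊔ Submodule.span K {x} →
            z = H S + ε S x := by
        intro T
        by_cases hT : ∃ (S : Submodule K B) (x : B), Module.finrank K S = n ∧ x ∉ S ∧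
            T = S ⊔ Submodule.span K {x}
        · obtain ⟨S, x, hS, hx, rfl⟩ := hT
          refine ⟨H S + ε S x, fun h => absurd ?_ h, fun S' x' hS' hx' e =>
            pot_wd ε h1 h2 hH hx hx' hS hS' e⟩
          rw [Submodule.finrank_sup_span_singleton hx, hS]
        · exact ⟨H T, fun _ => rfl, fun S x hS hx e => absurd ⟨S, x, hS, hx, e⟩ hT⟩
      choose H' hA hB using ex
      refine ⟨H', ?_, fun S x hS hx => ?_⟩
      · rw [hA ⊥ (by simp), h0]
      · rw [hA S (by omega)]
        rcases Nat.lt_succ_iff_lt_or_eq.1 hS with h | h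
        · rw [hA _ (by rw [Submodule.finrank_sup_span_singleton hx]; omega)]
          exact hH S x h hx
        · exact hB _ S x h hx rfl
  obtain ⟨H, h0, hH⟩ := main (Module.finrank K B + 1)
  exact ⟨H, h0, fun S x hx => hH S x (Nat.lt_succ_of_le S.finrank_le) hx⟩

/-- induction along a flag from `S0` to `S1` -/
theorem flag_ind [FiniteDimensional K B] {S0 S1 : Submodule K B} (h : S0 ≤ S1)
    (p : Submodule K B → Prop) (h0 : p S0)
    (hs : ∀ S x, S0 ≤ S → S ≤ S1 → x ∈ S1 → x ∉ S → p S → p (S ⊔ Submodule.span K {x})) :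
    p S1 := by
  have main : ∀ (k : ℕ) (S : Submodule K B), S0 ≤ S → S ≤ S1 →
      Module.finrank K S1 ≤ Module.finrank K S + k → p S → p S1 := by
    intro k
    induction k with
    | zero =>
      intro S _ h2 h3 hp
      exact Submodule.eq_of_le_of_finrank_le h2 h3 ▸ hp
    | succ k ih =>
      intro S h1 h2 h3 hp
      by_cases hle : S1 ≤ S
      · exact le_antisymm h2 hle ▸ hp
      · obtain ⟨x, hx, hx'⟩ := SetLike.not_le_iff_exists.1 hle
        refine ih _ (h1.trans le_sup_left) (pot_le h2 hx) ?_ (hs S x h1 h2 hx hx' hp)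
        rw [Submodule.finrank_sup_span_singleton hx']
        omega
  exact main (Module.finrank K S1) S0 le_rfl h (Nat.le_add_left _ _) h0

namespace NFam
variable [FiniteDimensional K B] (hK : FF kb K) (N : NFam kb K B)
include hK

/-- `Classical.epsilon_spec` and `pot` with the product formula -/
theorem ht_spec : N.ht ⊥ = 0 ∧ ∀ S x, x ∉ S →
    N.ht (S ⊔ Submodule.span K {x}) = N.ht S - ∑ᶠ v, (N.N v).del x S := by
  refine Classical.epsilon_spec (p := fun H : Submodule K B → ℤ => H ⊥ = 0 ∧ ∀ S x, x ∉ S →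
    H (S ⊔ Submodule.span K {x}) = H S - ∑ᶠ v, (N.N v).del x S) ?_
  obtain ⟨H, h0, hH⟩ := pot (fun (S : Submodule K B) x => -∑ᶠ v, (N.N v).del x S)
    (fun S x hx f hf s hs => by
      simp only [Nrm.del_smul_add hx hf hs]
      rw [finsum_add_distrib (hK.fin f) (N.ae S x hx), hK.prod f, zero_add])
    (fun S x y hx hy => by
      have hy0 : y ∉ S := fun h => hy (Submodule.mem_sup_left h)
      rw [← neg_add, ← neg_add, ← finsum_add_distrib (N.ae S x hx) (N.ae _ y hy),
        ← finsum_add_distrib (N.ae S y hy0) (N.ae _ x (pot_notMem hx hy))]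
      simp only [Nrm.exchange hx hy])
  exact ⟨H, h0, fun S x hx => by rw [hH S x hx, sub_eq_add_neg]⟩

theorem ht_bot : N.ht ⊥ = 0 := (N.ht_spec hK).1

theorem ht_sup {S : Submodule K B} {x : B} (hx : x ∉ S) :
    N.ht (S ⊔ Submodule.span K {x}) = N.ht S - ∑ᶠ v, (N.N v).del x S := (N.ht_spec hK).2 S x hx

theorem fin_ν {x : B} (hx : x ≠ 0) : {v | (N.N v).ν x ≠ 0}.Finite := by
  simpa only [Nrm.del_bot] using N.ae ⊥ x (by simpa using hx)

/-- `del x S ≥ ν x` -/
theorem ht_span_le {ι : Type} [Fintype ι] (x : ι → B) {H : ℚ} (hH : 0 ≤ H)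
    (h : ∀ i, x i ≠ 0 → -((∑ᶠ v, (N.N v).ν (x i) : ℤ) : ℚ) ≤ H) :
    (N.ht (Submodule.span K (Set.range x)) : ℚ) ≤ Fintype.card ι * H := by
  classical
  have main : ∀ s : Finset ι, (N.ht (Submodule.span K (x '' s)) : ℚ) ≤ s.card * H := by
    intro s
    induction s using Finset.induction_on with
    | empty => simp [N.ht_bot hK]
    | insert i s hi ih =>
      rw [Finset.coe_insert, Set.image_insert_eq, Submodule.span_insert, sup_comm,
        Finset.card_insert_of_notMem hi]
      push_cast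
      by_cases hx : x i ∈ Submodule.span K (x '' s)
      · rw [sup_eq_left.2 ((Submodule.span_singleton_le_iff_mem _ _).2 hx)]
        linarith
      · have hx0 : x i ≠ 0 := fun e => hx (e ▸ Submodule.zero_mem _)
        have h1 : ∑ᶠ v, (N.N v).ν (x i) ≤ ∑ᶠ v, (N.N v).del (x i) (Submodule.span K (x '' s)) :=
          finsum_le_finsum' (N.fin_ν hK hx0) (N.ae _ _ hx) fun v => by
            simpa using Nrm.le_del (N := N.N v) hx (Submodule.zero_mem _)
        have h2 : ((∑ᶠ v, (N.N v).ν (x i) : ℤ) : ℚ) ≤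
            ((∑ᶠ v, (N.N v).del (x i) (Submodule.span K (x '' s)) : ℤ) : ℚ) := Int.cast_le.2 h1
        have h3 := h i hx0
        rw [N.ht_sup hK hx, Int.cast_sub]
        linarith
  simpa using main Finset.univ

/-- `flag_ind` from `S ⊓ S'` to `S'` and `del_mono` -/
theorem ht_submod (S S' : Submodule K B) : N.ht (S ⊔ S') + N.ht (S ⊓ S') ≤ N.ht S + N.ht S' := by
  refine flag_ind (S0 := S ⊓ S') (S1 := S') inf_le_right
    (fun U => N.ht (S ⊔ U) + N.ht (S ⊓ S') ≤ N.ht S + N.ht U) (by simp) fun U x h0 h1 hx hxU ih => ?_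
  have hx2 : x ∉ S ⊔ U := fun h => by
    obtain ⟨s, hs, u, hu, rfl⟩ := Submodule.mem_sup.1 h
    have : s ∈ S' := by simpa using S'.sub_mem hx (h1 hu)
    exact hxU (U.add_mem (h0 ⟨hs, this⟩) hu)
  have h3 : ∑ᶠ v, (N.N v).del x U ≤ ∑ᶠ v, (N.N v).del x (S ⊔ U) :=
    finsum_le_finsum' (N.ae _ _ hxU) (N.ae _ _ hx2) fun v => Nrm.del_mono le_sup_right hx2
  rw [← sup_assoc, N.ht_sup hK hx2, N.ht_sup hK hxU]
  omega

/-- Fix a basis `b`; `c v = max 0 (max_i del (b i) (ker (coord i)))` has finite support. If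
`x ∈ S` has `i`-th coordinate one and `S' = S ⊓ ker (coord i)` then `del x S' ≤ c v`. -/
theorem ht_bdd : ∃ c : ℤ, ∀ S, c ≤ N.ht S := by
  classical
  let b := Module.finBasis K B
  have hb : ∀ i, b i ∉ LinearMap.ker (b.coord i) := fun i => by simp
  obtain ⟨C, hC0, hC⟩ : ∃ C : ℤ, 0 ≤ C ∧
      ∀ i, ∑ᶠ v, (N.N v).del (b i) (LinearMap.ker (b.coord i)) ≤ C :=
    ⟨∑ i, |∑ᶠ v, (N.N v).del (b i) (LinearMap.ker (b.coord i))|,
      Finset.sum_nonneg fun _ _ => abs_nonneg _, fun i => (le_abs_self _).trans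
        (Finset.single_le_sum (f := fun i => |∑ᶠ v, (N.N v).del (b i) (LinearMap.ker (b.coord i))|)
          (fun _ _ => abs_nonneg _) (Finset.mem_univ i))⟩
  have main : ∀ (n : ℕ) (S : Submodule K B), Module.finrank K S ≤ n → -(n * C) ≤ N.ht S := by
    intro n
    induction n with
    | zero =>
      intro S hS
      rw [Submodule.finrank_eq_zero.1 (Nat.le_zero.1 hS), N.ht_bot hK]
      simp
    | succ n ih =>
      intro S hS
      by_cases h0 : S = ⊥
      · rw [h0, N.ht_bot hK, neg_nonpos]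
        exact mul_nonneg (Nat.cast_nonneg _) hC0
      · obtain ⟨y, hy, hy0⟩ := Submodule.exists_mem_ne_zero_of_ne_bot h0
        obtain ⟨i, hi⟩ : ∃ i, b.coord i y ≠ 0 := by
          by_contra hn
          push Not at hn
          exact hy0 (b.forall_coord_eq_zero_iff.1 hn)
        obtain ⟨x, hx, hx1⟩ : ∃ x ∈ S, b.coord i x = 1 :=
          ⟨(b.coord i y)⁻¹ • y, S.smul_mem _ hy, by
            rw [map_smul, smul_eq_mul, inv_mul_cancel₀ hi]⟩
        have hxk : x ∉ LinearMap.ker (b.coord i) := by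
          rw [LinearMap.mem_ker, hx1]
          exact one_ne_zero
        have hx' : x ∉ S ⊓ LinearMap.ker (b.coord i) := fun h => hxk h.2
        have e : S ⊓ LinearMap.ker (b.coord i) ⊔ Submodule.span K {x} = S := by
          refine pot_inf hx fun z _ => ?_
          have : z = (z - b.coord i z • x) + b.coord i z • x := by abel
          rw [this]
          refine Submodule.add_mem _ (Submodule.mem_sup_left ?_)
            (Submodule.smul_mem _ _ (pot_self _ x))
          rw [LinearMap.mem_ker, map_sub, map_smul, hx1, smul_eq_mul, mul_one, sub_self]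
        have hr := Submodule.finrank_sup_span_singleton hx'
        have hh := N.ht_sup hK hx'
        rw [e] at hr hh
        have h1 := ih (S ⊓ LinearMap.ker (b.coord i)) (by omega)
        have hd : ∀ v, (N.N v).del x (LinearMap.ker (b.coord i)) =
            (N.N v).del (b i) (LinearMap.ker (b.coord i)) := fun v => by
          have hs : x - b i ∈ LinearMap.ker (b.coord i) := by
            rw [LinearMap.mem_ker, map_sub, hx1]
            simp
          have := Nrm.del_smul_add (N := N.N v) (hb i) (one_ne_zero (α := K)) hs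
          simpa using this
        have h2 : ∑ᶠ v, (N.N v).del x (S ⊓ LinearMap.ker (b.coord i)) ≤
            ∑ᶠ v, (N.N v).del (b i) (LinearMap.ker (b.coord i)) :=
          finsum_le_finsum' (N.ae _ _ hx') (N.ae _ _ (hb i)) fun v =>
            (Nrm.del_mono inf_le_right hxk).trans (hd v).le
        have h3 := hC i
        push_cast
        linarith
  exact ⟨_, fun S => main (Module.finrank K B) S S.finrank_le⟩

end NFam

end Pool.Agent.Lib.MP_6adaea_nt.U
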