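import Pool.Agent.Lib.MP_6adaea_nt.U.Desc
import Pool.Agent.Lib.MP_6adaea_nt.U.Dn
import Pool.Agent.Lib.MP_6adaea_nt.U.Sat
import Pool.Agent.Lib.MP_6adaea_nt.U.GD
import Pool.Agent.Lib.MP_6adaea_nt.U.FrameL
import Pool.Agent.Lib.MP_6adaea_nt.U.Psi

/-!
Big image implies standard.
-/

set_option linter.unusedSectionVars false

namespace Pool.Agent.Lib.MP_6adaea_nt.U
open Matrix Polynomial G
open scoped TensorProduct

variable {k kb K Ω : Type} [Field k] [Finite k] [Field kb] [Field K] [Field Ω] [Algebra k kb]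
  [Algebra k K] [Algebra k Ω] [Algebra kb K] [Algebra kb Ω] [Algebra K Ω]
  [IsScalarTower k kb K] [IsScalarTower k kb Ω] [IsScalarTower k K Ω] [IsScalarTower kb K Ω]
  [IsAlgClosed kb] [Algebra.IsAlgebraic k kb] [IsSepClosed Ω] [IsGalois K Ω] {θ : K} {r : ℕ}

private theorem std_rep_const (M : ℕ) (β : Fin 2 → kb) (B : Matrix (Fin r) (Fin r) k[X]) :
    (rep M β (pmap (algebraMap k kb) B)).map (algebraMap kb Ω) =
      rep M (fun l => algebraMap kb Ω (β l))
        (pmap ((RingHom.id Ω).comp (algebraMap k Ω)) B) := by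
  rw [rep_map, pmap_pmap, ← IsScalarTower.algebraMap_eq, RingHom.id_comp]

private theorem std_pt (β : Fin 2 → kb) (f : R2 K) : algebraMap K Ω (pt K β f) =
    MvPolynomial.eval₂Hom ((RingHom.id Ω).comp (algebraMap K Ω))
      (fun l => algebraMap kb Ω (β l)) f := by
  have : (algebraMap K Ω).comp (pt K β : R2 K →+* K) =
      MvPolynomial.eval₂Hom ((RingHom.id Ω).comp (algebraMap K Ω))
        (fun l => algebraMap kb Ω (β l)) := by
    refine MvPolynomial.ringHom_ext (fun c => ?_) fun l => ?_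
    · simp [pt]
    · simp [pt, ← IsScalarTower.algebraMap_apply]
  exact RingHom.congr_fun this f

/-- `R = rep β (frame E)`, `Y = {y | R *ᵥ y ∈ ann N}` is spanned by constant vectors (`desc_pt`,
`rep_frame_frob`, `Act.exists_pow`), which are moved into `Y` by `el a b c`, `c ∈ k[X]`
(`ann_gal`, `rep_frame_gal`). By `gd_ext` and `gen_rep`, `Y` is stable under all `s`; conjugate
with `frame_inv`. -/
theorem pt_stable (hB : Base kb θ) (hr : 0 < r) {D : DM k Ω θ r} {Fr : Frb k kb K Ω}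
    (hD : D.Fix Fr) {M : ℕ} {β : Fin 2 → kb} (hβ : BigPt k M β) {a : k[X]} (ha : a ≠ 0)
    (hq : qd β ∣ a.map (algebraMap k kb)) (E : Coord D.φ a (Fin r))
    (hE : ∀ i j : Fin r, i ≠ j → ∀ c : k[X], ∃ σ : Ω ≃ₐ[K] Ω, Act E σ (el i j c))
    {N : Submodule K (JJ (Fin r) M → K)}
    (hN : ∀ x ∈ N, (fun j => Fr.FK (x j)) ᵥ* (Psi k θ r D.g Fr.c M).map (pt K β) ∈ N)
    {s : Matrix (Fin r) (Fin r) (Polynomial Ω)}
    (hs : qd (fun l => algebraMap kb Ω (β l)) ∣ s.det - 1) :
    ∀ y ∈ ann Ω N, rep M (fun l => algebraMap kb Ω (β l)) s *ᵥ y ∈ ann Ω N := by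
  set β' : Fin 2 → Ω := fun l => algebraMap kb Ω (β l) with hβ'
  have ht0 : qd β' ∣ a.map (algebraMap k Ω) := by
    have := Polynomial.map_dvd (algebraMap kb Ω) hq
    rwa [qd_map, Polynomial.map_map, ← IsScalarTower.algebraMap_eq] at this
  have ht : qd β' ∣ a.map ((RingHom.id Ω).comp (algebraMap k Ω)) := by rwa [RingHom.id_comp]
  obtain ⟨B, hBγ⟩ : ∃ B, Act E Fr.γ B :=
    exists_act (E := E) (Fr.γ : Ω →+ Ω) fun c y => hD.comm c y
  obtain ⟨m, hm, hBm⟩ := Act.exists_pow ha Fr.γ.injective hBγ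
  have hg : rep M β (pmap (algebraMap k kb) B) ^ m = 1 := by
    rw [← rep_pow, ← pmap_pow, rep_congr M ((hBm.pmap (algebraMap k kb)).of_dvd hq), pmap_one,
      rep_one]
  have hfr := rep_frame_frob (RingHom.id Ω) ht M hD hBγ (Fr.FO : Ω →+* Ω) (fun _ => rfl)
    fun l => Fr.FO.commutes (β l)
  rw [pmap_id, ← std_rep_const] at hfr
  set R := rep M β' (frame E) with hR
  have hfr' : R.map Fr.FO = ((Psi k θ r D.g Fr.c M).map (pt K β)).map (algebraMap K Ω) * R *
      (rep M β (pmap (algebraMap k kb) B)).map (algebraMap kb Ω) := by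
    refine hfr.trans ?_
    congr 2
    ext i j
    exact (std_pt β _).symm
  have hsp := (desc_pt Fr (isUnit_det_Psi hB.tr D.ne Fr.c M β) hN hm hg hfr').2
  let Y : Submodule Ω (JJ (Fin r) M → Ω) := (ann Ω N).comap R.mulVecLin
  have hY : ∀ y, y ∈ Y ↔ R *ᵥ y ∈ ann Ω N := fun _ => Iff.rfl
  have h1 : ∀ i j : Fin r, i ≠ j → ∀ c : Polynomial Ω, ∀ y ∈ Y, rep M β' (el i j c) *ᵥ y ∈ Y := by
    intro i j hij c y hy
    have hy' := hsp y hy
    refine (Submodule.span_le (p := Y.comap (rep M β' (el i j c)).mulVecLin)).2 ?_ hy'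
    rintro _ ⟨h0, y0, rfl⟩
    let L : Matrix (JJ (Fin r) M) (JJ (Fin r) M) Ω →ₗ[Ω] (JJ (Fin r) M → Ω) ⧸ Y :=
      { toFun := fun A => Y.mkQ (A *ᵥ fun l => algebraMap kb Ω (y0 l))
        map_add' := fun A A' => by rw [add_mulVec, map_add]
        map_smul' := fun z A => by rw [smul_mulVec, map_smul, RingHom.id_apply] }
    refine (Submodule.Quotient.mk_eq_zero Y).1 (gd_ext hβ L 0 i j (fun c' => ?_) c)
    obtain ⟨σ, hσ⟩ := hE i j hij c'
    have h2 := rep_frame_gal (RingHom.id Ω) ht M σ hσ (σ : Ω →+* Ω) (fun _ => rfl) fun l => by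
      change σ (algebraMap kb Ω (β l)) = algebraMap kb Ω (β l)
      rw [IsScalarTower.algebraMap_apply kb K Ω, AlgEquiv.commutes]
    rw [pmap_id, ← std_rep_const] at h2
    have h3 := ann_gal σ h2 h0
    refine (Submodule.Quotient.mk_eq_zero Y).2 ((hY _).2 ?_)
    convert h3 using 2
    funext l
    rw [RingHom.map_mulVec, std_rep_const, pmap_el, RingHom.id_comp]
    rfl
  obtain ⟨A, hA1, hA2⟩ := frame_inv D E hr ha
  have e1 : R * rep M β' A = 1 := by
    rw [hR, ← rep_mul, rep_congr M (hA1.of_dvd ht0), rep_one]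
  have hdet : qd β' ∣ (A * s * frame E).det - 1 := by
    have h4 := (hA2.of_dvd ht0).det
    rw [det_one, det_mul] at h4
    have h5 : (A * s * frame E).det - 1 =
        (A.det * (frame E).det - 1) * s.det + (s.det - 1) := by
      rw [det_mul, det_mul]; ring
    rw [h5]
    exact dvd_add (h4.mul_right _) hs
  intro y hy
  have h6 : rep M β' A *ᵥ y ∈ Y := by rwa [hY, mulVec_mulVec, e1, one_mulVec]
  have h7 := stab_sub (F := kb) Ω (Y := Y) (fun i j hij c0 c1 => h1 i j hij _) hdet _ h6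
  rwa [hY, mulVec_mulVec, mulVec_mulVec, rep_mul, rep_mul, ← hR, ← Matrix.mul_assoc,
    ← Matrix.mul_assoc, e1, Matrix.one_mul, Matrix.mul_assoc, e1, Matrix.mul_one] at h7

theorem qd_dvd_minpoly (β : Fin 2 → kb) :
    qd β ∣ (minpoly k (β 0) * minpoly k (β 1)).map (algebraMap k kb) := by
  have h : ∀ x : kb, X - C x ∣ (minpoly k x).map (algebraMap k kb) := fun x => by
    rw [dvd_iff_isRoot, IsRoot.def, eval_map_algebraMap, minpoly.aeval]
  rw [Polynomial.map_mul]
  exact mul_dvd_mul (h _) (h _)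

/-- a polynomial outside the prime ideal whose nonvanishing forces bigness -/
theorem exists_bigPt {τ : Fin 2 → PowerSeries kb} (hτ : Adm k τ) (M d : ℕ) :
    ∃ h : R2 K, gp K τ h ≠ 0 ∧ ∀ β, OnC τ β → pt K β h ≠ 0 →
      BigPt k M β ∧ ∀ i, d ≤ (minpoly k (β i)).natDegree := by
  obtain ⟨h0, hh0, hd⟩ := exists_deg_poly k kb (max d (M + 1))
  have gX : ∀ i, gp kb τ (MvPolynomial.X i) = τ i := fun i => by simp [gp]
  have pX : ∀ (β : Fin 2 → kb) i, pt kb β (MvPolynomial.X i) = β i := fun β i => by simp [pt]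
  obtain ⟨h1, g1, p1⟩ : ∃ h1 : R2 kb, gp kb τ h1 ≠ 0 ∧ ∀ β, OnC τ β → pt kb β h1 ≠ 0 →
      β 0 = β 1 ∨ ∀ u ≤ M, β 1 ≠ β 0 ^ Nat.card k ^ u ∧ β 0 ≠ β 1 ^ Nat.card k ^ u := by
    rcases hτ.2 with h | h
    · refine ⟨1, by simp, fun β hβ _ => Or.inl ?_⟩
      have := hβ (MvPolynomial.X 0 - MvPolynomial.X 1) (by rw [map_sub, gX, gX, h, sub_self])
      rwa [map_sub, pX, pX, sub_eq_zero] at this
    · refine ⟨∏ u ∈ Finset.range (M + 1),
        ((MvPolynomial.X 1 - MvPolynomial.X 0 ^ Nat.card k ^ u) *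
          (MvPolynomial.X 0 - MvPolynomial.X 1 ^ Nat.card k ^ u)), ?_, fun β _ hβ => Or.inr ?_⟩
      · rw [map_prod, Finset.prod_ne_zero_iff]
        intro u _
        rw [map_mul, map_sub, map_sub, map_pow, map_pow, gX, gX]
        exact mul_ne_zero (sub_ne_zero.2 (h u).1) (sub_ne_zero.2 (h u).2)
      · intro u hu
        rw [map_prod, Finset.prod_ne_zero_iff] at hβ
        have := hβ u (Finset.mem_range.2 (Nat.lt_succ_of_le hu))
        rw [map_mul, map_sub, map_sub, map_pow, map_pow, pX, pX, mul_ne_zero_iff] at this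
        exact ⟨sub_ne_zero.1 this.1, sub_ne_zero.1 this.2⟩
  refine ⟨MvPolynomial.map (algebraMap kb K)
    ((∏ i : Fin 2, aeval (MvPolynomial.X i : R2 kb) h0) * h1), ?_, fun β hβ hp => ?_⟩
  · rw [gp_map, map_ne_zero_iff _ (PowerSeries.map_injective _ (algebraMap kb K).injective),
      map_mul, map_prod]
    refine mul_ne_zero (Finset.prod_ne_zero_iff.2 fun i _ => ?_) g1
    rw [← aeval_algHom_apply, gX]
    exact aeval_ne_zero (hτ.1 i) hh0
  · rw [pt_map, _root_.map_ne_zero, map_mul, map_prod, mul_ne_zero_iff,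
      Finset.prod_ne_zero_iff] at hp
    have h2 : ∀ i, max d (M + 1) ≤ (minpoly k (β i)).natDegree := fun i => by
      have := hp.1 i (Finset.mem_univ _)
      rw [← aeval_algHom_apply, pX, coe_aeval_eq_eval] at this
      exact hd _ this
    exact ⟨⟨fun i => (le_max_right _ _).trans (h2 i), p1 β hβ hp.2⟩,
      fun i => (le_max_left _ _).trans (h2 i)⟩

/-- Cramer data for `N` (`exists_gen`, `exists_cram`). If an entry `f` of `x ᵥ* rep e ᵥ* Z` is
not in the prime ideal take a point with `f * Δ * h ≠ 0` (`dn`), the level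
`minpoly β 0 * minpoly β 1`, and use `pt_stable`, `Cram.at_pt`, `ann_eq_span`. -/
theorem std_of_big (hB : Base kb θ) (hr : 0 < r) {D : DM k Ω θ r} {Fr : Frb k kb K Ω}
    (hD : D.Fix Fr) (h : D.BigK) : D.Std Fr := by
  intro τ hτ M j N hN hT a b hab c0 c1 x hx
  obtain ⟨s, e, hs, rfl⟩ := hN.exists_gen
  obtain ⟨Cr⟩ := exists_cram (gp_prime (τ := τ)) hs
  rw [Cr.mem]
  intro j0
  by_contra hf
  obtain ⟨d, hd⟩ := h
  obtain ⟨h0, hh0, hbig⟩ := exists_bigPt (K := K) hτ M d
  obtain ⟨β, hβ, -, hp⟩ := dn (hτ.1 0) Set.infinite_univ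
    (f := ((x ᵥ* rep M MvPolynomial.X (elc (R2 K) a b c0 c1)) ᵥ* Cr.Z) j0 * Cr.Δ * h0) (by
      rw [map_mul, map_mul]
      exact mul_ne_zero (mul_ne_zero hf Cr.notMem) hh0)
  rw [map_mul, map_mul, mul_ne_zero_iff, mul_ne_zero_iff] at hp
  obtain ⟨⟨hp1, hp2⟩, hp3⟩ := hp
  obtain ⟨hb1, hb2⟩ := hbig β hβ hp3
  have hint : ∀ i, IsIntegral k (β i) := fun i => Algebra.IsIntegral.isIntegral _
  have hmon : (minpoly k (β 0) * minpoly k (β 1)).Monic :=
    (minpoly.monic (hint 0)).mul (minpoly.monic (hint 1))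
  have hθ : Transcendental k (algebraMap K Ω θ) :=
    (transcendental_algebraMap_iff (algebraMap K Ω).injective).2 (hB.tr.of_tower_top k)
  obtain ⟨E⟩ := exists_coord D.dr hr ((_root_.map_ne_zero _).2 D.ne) hθ hmon.ne_zero
  have hE := hd _ hmon (fun P hP hPd => by
    have h1 : ∀ i, P ∣ minpoly k (β i) → d ≤ P.natDegree := fun i hi => (hb2 i).trans
      (natDegree_le_of_dvd (hP.associated_of_dvd (minpoly.irreducible (hint i)) hi).symm.dvd
        hP.ne_zero)
    exact (hP.prime.dvd_or_dvd hPd).elim (h1 0) (h1 1)) E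
  have hat := Cr.at_pt (β := β) (fun f hf => hβ.pt hf) hp2
  set Nβ := Submodule.span K ((fun (y : JJ (Fin r) M → R2 K) j => pt K β (y j)) '' s) with hNβ
  have hsat : ∀ z ∈ sat (RingHom.ker (gp K τ)) s, (fun l => pt K β (z l)) ∈ Nβ := fun z hz => by
    rw [hat]
    funext l
    exact (RingHom.map_vecMul (pt K β : R2 K →+* K) Cr.Z z l).symm.trans
      (hβ.pt ((Cr.mem z).1 hz l))
  have hF : ∀ z ∈ Nβ, (fun l => (Fr.pow j).FK (z l)) ᵥ*
      (Psi k θ r D.g (Fr.pow j).c M).map (pt K β) ∈ Nβ := by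
    intro z hz
    induction hz using Submodule.span_induction with
    | mem z hz =>
      obtain ⟨y, hy, rfl⟩ := hz
      convert hsat _ (hT y (subset_sat s hy)) using 1
      funext l
      refine Eq.trans ?_ (RingHom.map_vecMul (pt K β : R2 K →+* K) _ _ l).symm
      congr 1
      funext l'
      exact (pt_map_F (Fr.pow j).FK β (y l')).symm
    | zero =>
      have : (fun l : JJ (Fin r) M => (Fr.pow j).FK ((0 : JJ (Fin r) M → K) l)) = 0 :=
        funext fun _ => map_zero _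
      rw [this, zero_vecMul]
      exact zero_mem _
    | add y z _ _ hy hz =>
      have : (fun l => (Fr.pow j).FK ((y + z) l)) =
          (fun l => (Fr.pow j).FK (y l)) + fun l => (Fr.pow j).FK (z l) :=
        funext fun _ => map_add _ _ _
      rw [this, add_vecMul]
      exact add_mem hy hz
    | smul c y _ hy =>
      have : (fun l => (Fr.pow j).FK ((c • y) l)) =
          (Fr.pow j).FK c • fun l => (Fr.pow j).FK (y l) :=
        funext fun _ => map_mul _ _ _
      rw [this, smul_vecMul]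
      exact Submodule.smul_mem _ _ hy
  have hst := pt_stable hB hr (hD.pow j) hb1 hmon.ne_zero (qd_dvd_minpoly β) E hE hF
    (s := elc Ω a b c0 c1) (by rw [elc, el_det hab, sub_self]; exact dvd_zero _)
    (fun i => algebraMap K Ω (Cr.Z.map (pt K β) i j0))
    (by rw [ann_eq_span hat]; exact Submodule.subset_span ⟨j0, rfl⟩) _ (hsat x hx)
  let ψ : R2 K →+* Ω := (algebraMap K Ω).comp (pt K β : R2 K →+* K)
  have hψ : (rep M MvPolynomial.X (elc (R2 K) a b c0 c1)).map ψ =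
      rep M (fun l => algebraMap kb Ω (β l)) (elc Ω a b c0 c1) := by
    rw [rep_map, pmap_elc ψ fun c => by
      change algebraMap K Ω (pt K β (algebraMap kb (R2 K) c)) = _
      rw [IsScalarTower.algebraMap_apply kb K (R2 K), AlgHom.commutes, Algebra.algebraMap_self,
        RingHom.id_apply, ← IsScalarTower.algebraMap_apply]]
    congr 1
    funext l
    simp [ψ, pt, ← IsScalarTower.algebraMap_apply]
  apply hp1
  rw [← _root_.map_eq_zero (algebraMap K Ω), ← hst, dotProduct_mulVec, ← hψ]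
  refine (RingHom.map_vecMul ψ _ _ j0).trans ?_
  change (ψ ∘ (x ᵥ* rep M MvPolynomial.X (elc (R2 K) a b c0 c1))) ⬝ᵥ _ = _
  congr 1
  funext l
  exact RingHom.map_vecMul ψ _ _ l

end Pool.Agent.Lib.MP_6adaea_nt.U
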