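import Pool.Agent.Lib.MP_6adaea_nt.U.Desc
import Pool.Agent.Lib.MP_6adaea_nt.U.Ex1
import Pool.Agent.Lib.MP_6adaea_nt.U.Ex2
import Pool.Agent.Lib.MP_6adaea_nt.U.Std

/-!
The bound at one point.
-/

set_option linter.unusedSectionVars false

namespace Pool.Agent.Lib.MP_6adaea_nt.U
open Matrix Polynomial G
open scoped TensorProduct

variable {k kb K Ω : Type} [Field k] [Finite k] [Field kb] [Field K] [Field Ω] [Algebra k kb]
  [Algebra k K] [Algebra k Ω] [Algebra kb K] [Algebra kb Ω] [Algebra K Ω]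
  [IsScalarTower k kb K] [IsScalarTower k kb Ω] [IsScalarTower k K Ω] [IsScalarTower kb K Ω]
  [IsAlgClosed kb] [Algebra.IsAlgebraic k kb] [IsSepClosed Ω] [IsGalois K Ω] {θ : K} {r : ℕ}

theorem Pt_conj {S n : Type} [CommRing S] [Fintype n] [DecidableEq n] {q : S[X]}
    {X X' B B' : Matrix n n S[X]} (h1 : Cong q (X * X') 1) (h2 : Cong q (X' * X) 1)
    (h3 : Cong q (B * B') 1) : Cong q (X * B * X' * (X * B' * X')) 1 := by
  have e1 : X * B * X' * (X * B' * X') = X * (B * (X' * X) * B') * X' := by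
    simp only [Matrix.mul_assoc]
  have e2 : Cong q (B * (X' * X) * B') 1 := by
    have := ((Cong.refl q B).mul h2).mul (Cong.refl q B')
    rw [Matrix.mul_one] at this
    exact this.trans h3
  have e3 := ((Cong.refl q X).mul e2).mul (Cong.refl q X')
  rw [Matrix.mul_one] at e3
  rw [e1]
  exact e3.trans h1

theorem Pt_eval {S n : Type} [CommRing S] [Fintype n] [DecidableEq n] {t : Fin 2 → S}
    {A : Matrix n n S[X]} (h : Cong (qd t) A 1) (i : Fin 2) : A.map (evalRingHom (t i)) = 1 := by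
  have h0 : eval (t i) (qd t) = 0 := by
    fin_cases i <;> simp [qd]
  rw [← Matrix.map_one (evalRingHom (t i)) (map_zero _) (map_one _)]
  ext a b
  obtain ⟨c, hc⟩ := h a b
  have := congrArg (eval (t i)) hc
  rw [eval_mul, h0, zero_mul, eval_sub, sub_eq_zero] at this
  exact this

theorem Pt_scal {S n : Type} [CommRing S] [Fintype n] [DecidableEq n] {t : Fin 2 → S}
    {X X' B : Matrix n n S[X]} (h2 : Cong (qd t) (X' * X) 1) (i : Fin 2)
    (h : Scal ((X * B * X').map (eval (t i)))) : Scal (B.map (eval (t i))) := by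
  obtain ⟨c, hc⟩ := h
  have e1 := Pt_eval h2 i
  change (X * B * X').map (evalRingHom (t i)) = _ at hc
  rw [Matrix.map_mul] at e1
  rw [Matrix.map_mul, Matrix.map_mul] at hc
  refine ⟨c, ?_⟩
  change B.map (evalRingHom (t i)) = _
  have e2 := congrArg (fun Z => X'.map (evalRingHom (t i)) * Z * X.map (evalRingHom (t i))) hc
  simp only [Matrix.mul_smul, Matrix.smul_mul, Matrix.mul_one, ← Matrix.mul_assoc, e1,
    Matrix.one_mul] at e2
  rwa [Matrix.mul_assoc, e1, Matrix.mul_one] at e2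

/-- the automorphisms for which all elements of `Y` are eigenvectors -/
def Pt_grp (K : Type) {Ω J : Type} [Field K] [Field Ω] [Algebra K Ω] (Y : Set (J → Ω)) :
    Subgroup (Ω ≃ₐ[K] Ω) where
  carrier := {σ | ∀ η ∈ Y, ∃ c : Ω, (fun j => σ (η j)) = c • η}
  one_mem' := fun η _ => ⟨1, by ext j; simp⟩
  mul_mem' := by
    intro σ τ hσ hτ η hη
    obtain ⟨c, hc⟩ := hσ η hη
    obtain ⟨d, hd⟩ := hτ η hη
    refine ⟨σ d * c, funext fun j => ?_⟩
    have h1 : σ (η j) = c * η j := congrFun hc j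
    have h2 : τ (η j) = d * η j := congrFun hd j
    rw [AlgEquiv.mul_apply, h2, map_mul, h1, Pi.smul_apply, smul_eq_mul, mul_assoc]
  inv_mem' := by
    intro σ hσ η hη
    obtain ⟨c, hc⟩ := hσ η hη
    refine ⟨(σ⁻¹ c)⁻¹, funext fun j => ?_⟩
    have h1 : σ (η j) = c * η j := congrFun hc j
    have h2 : η j = σ⁻¹ c * σ⁻¹ (η j) := by
      rw [← map_mul, ← h1, ← AlgEquiv.mul_apply, inv_mul_cancel, AlgEquiv.one_apply]
    rw [Pi.smul_apply, smul_eq_mul]
    by_cases h0 : σ⁻¹ c = 0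
    · rw [h0, zero_mul] at h2
      rw [h2, map_zero, mul_zero]
    · rw [eq_inv_mul_iff_mul_eq₀ h0, ← h2]

theorem Pt_normal {K Ω J : Type} [Field K] [Field Ω] [Algebra K Ω] {Y : Set (J → Ω)}
    (hG : ∀ σ : Ω ≃ₐ[K] Ω, ∀ η ∈ Y, (fun j => σ (η j)) ∈ Y) : (Pt_grp K Y).Normal := by
  refine ⟨fun σ hσ τ η hη => ?_⟩
  obtain ⟨c, hc⟩ := hσ _ (hG τ⁻¹ η hη)
  refine ⟨τ c, funext fun j => ?_⟩
  have h1 : σ (τ⁻¹ (η j)) = c * τ⁻¹ (η j) := congrFun hc j
  rw [AlgEquiv.mul_apply, AlgEquiv.mul_apply, h1, map_mul, ← AlgEquiv.mul_apply τ τ⁻¹,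
    mul_inv_cancel, AlgEquiv.one_apply, Pi.smul_apply, smul_eq_mul]

/-- the map from constant vectors -/
def Pt_im (kb : Type) {Ω J : Type} [Field kb] [Field Ω] [Algebra kb Ω] [Fintype J]
    (R : Matrix J J Ω) : (J → kb) →ₗ[kb] (J → Ω) where
  toFun y := R *ᵥ fun j => algebraMap kb Ω (y j)
  map_add' x y := by
    rw [← Matrix.mulVec_add]
    congr 1
    ext j
    simp
  map_smul' c x := by
    rw [RingHom.id_apply, ← Matrix.mulVec_smul]
    congr 1
    ext j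
    simp [Algebra.smul_def]

theorem Pt_im_map {kb Ω J : Type} [Field kb] [Field Ω] [Algebra kb Ω] [Fintype J]
    (R : Matrix J J Ω) (f : Ω →+* Ω) (hf : ∀ x, f (algebraMap kb Ω x) = algebraMap kb Ω x)
    (y : J → kb) : (fun j => f (Pt_im kb R y j)) = Pt_im kb (R.map f) y := by
  ext j
  change f ((R *ᵥ _) j) = (R.map f *ᵥ _) j
  rw [RingHom.map_mulVec]
  exact congrArg (fun w => (R.map f *ᵥ w) j) (_root_.funext fun j => hf _)

theorem Pt_im_mul {kb Ω J : Type} [Field kb] [Field Ω] [Algebra kb Ω] [Fintype J]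
    (R : Matrix J J Ω) (g : Matrix J J kb) (y : J → kb) :
    Pt_im kb (R * g.map (algebraMap kb Ω)) y = Pt_im kb R (g *ᵥ y) := by
  change _ *ᵥ _ = R *ᵥ _
  rw [← Matrix.mulVec_mulVec]
  congr 1
  ext j
  rw [RingHom.map_mulVec]
  rfl

theorem Pt_im_left {kb Ω J : Type} [Field kb] [Field Ω] [Algebra kb Ω] [Fintype J]
    (Q R : Matrix J J Ω) (y : J → kb) : Pt_im kb (Q * R) y = Q *ᵥ Pt_im kb R y :=
  (Matrix.mulVec_mulVec _ _ _).symm

/-- Level `a = minpoly β 0 * minpoly β 1`, `R = rep β (frame E)`, `Y0` from `exists_fin_add` for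
the constant vectors `y` with `R *ᵥ y ∈ ann N`, `Y = R *ᵥ Y0`. `G` is the group of the `σ` for
which all `η ∈ Y` are eigenvectors. For `σ ∈ G` with matrix `B` apply `scalar_of_add`, `desc_pt`
and `ScalAt` to `A = X * B * X'`, then `Act.scal`. Combine `ex1` and `ex2`. -/
theorem pt_bound (hB : Base kb θ) (hr : 0 < r) : ∃ d1 : ℕ, ∀ (β : Fin 2 → kb) (i : Fin 2),
    d1 ≤ (minpoly k (β i)).natDegree → (minpoly k (β i)).natDegree.Coprime r.factorial →
    ∃ C : ℚ, 0 ≤ C ∧ ∀ (M : ℕ) (Fr : Frb k kb K Ω) (D : DM k Ω θ r), D.Fix Fr →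
      ∀ (N : Submodule K (JJ (Fin r) M → K)) (h : ℚ),
        QD Fr.toK ((Psi k θ r D.g Fr.c M).map (pt K β)) N h → ScalAt Ω N β i →
        D.h kb ≤ C * (1 + h) := by
  obtain ⟨d1, h2⟩ := ex2 (k := k) (Ω := Ω) hB hr
  refine ⟨d1, fun β i hd hc => ?_⟩
  have hint : ∀ l, IsIntegral k (β l) := fun l => (Algebra.IsAlgebraic.isAlgebraic _).isIntegral
  have hqa := qd_dvd_minpoly (k := k) β
  have ham : (minpoly k (β 0) * minpoly k (β 1)).Monic :=
    (minpoly.monic (hint 0)).mul (minpoly.monic (hint 1))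
  have hPa : minpoly k (β i) ∣ minpoly k (β 0) * minpoly k (β 1) := by
    fin_cases i
    · exact dvd_mul_right _ _
    · exact dvd_mul_left _ _
  generalize minpoly k (β 0) * minpoly k (β 1) = a at hqa ham hPa
  have hP := minpoly.irreducible (hint i)
  obtain ⟨C, hC, h3⟩ := h2 a _ ham (minpoly.monic (hint i)) hP hPa hd hc
  refine ⟨12 * C, by positivity, fun M Fr D hD N h q hS => ?_⟩
  have ha := ham.ne_zero
  have hN : ∀ x ∈ N, (fun j => Fr.FK (x j)) ᵥ* (Psi k θ r D.g Fr.c M).map (pt K β) ∈ N := by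
    intro x hx
    have h4 := q.FQ_mk x
    rw [Submodule.mkQ_apply, (Submodule.Quotient.mk_eq_zero N).2 hx, map_zero] at h4
    exact (Submodule.Quotient.mk_eq_zero N).1 h4.symm
  have hθ : Transcendental k (algebraMap K Ω θ) :=
    (transcendental_algebraMap_iff (algebraMap K Ω).injective).2
      (Transcendental.of_tower_top k hB.tr)
  obtain ⟨E⟩ := exists_coord D.dr hr ((_root_.map_ne_zero _).2 D.ne) hθ ha
  have hkk : (algebraMap kb Ω).comp (algebraMap k kb) = algebraMap k Ω :=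
    (IsScalarTower.algebraMap_eq k kb Ω).symm
  obtain ⟨t, ht⟩ : ∃ t : Fin 2 → Ω, t = fun l => algebraMap kb Ω (β l) := ⟨_, rfl⟩
  have hq : qd t ∣ a.map (algebraMap k Ω) := by
    have := Polynomial.map_dvd (algebraMap kb Ω) hqa
    rwa [qd_map, Polynomial.map_map, hkk, ← ht] at this
  have hq' : qd t ∣ a.map ((RingHom.id Ω).comp (algebraMap k Ω)) := hq
  have hg : ∀ B : Matrix (Fin r) (Fin r) k[X],
      (rep M β (pmap (algebraMap k kb) B)).map (algebraMap kb Ω) =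
        rep M t (pmap (algebraMap k Ω) B) := by
    intro B
    rw [rep_map, pmap_pmap, hkk, ht]
  have hfix : ∀ (σ : Ω ≃ₐ[K] Ω) (x : kb), σ (algebraMap kb Ω x) = algebraMap kb Ω x := by
    intro σ x
    rw [IsScalarTower.algebraMap_apply kb K Ω, AlgEquiv.commutes]
  obtain ⟨R, hR⟩ : ∃ R, R = rep M t (frame E) := ⟨_, rfl⟩
  have hgal : ∀ (σ : Ω ≃ₐ[K] Ω) B, Act E σ B →
      R.map σ = R * (rep M β (pmap (algebraMap k kb) B)).map (algebraMap kb Ω) := by
    intro σ B hσ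
    have := rep_frame_gal (RingHom.id Ω) hq' M σ hσ (σ : Ω →+* Ω) (fun _ => rfl)
      (fun l => by rw [ht]; exact hfix σ _)
    rw [pmap_id] at this
    rw [hg, hR]
    exact this
  have hact : ∀ σ : Ω ≃ₐ[K] Ω, ∃ B, Act E σ B := fun σ =>
    exists_act (E := E) (σ : Ω →+* Ω).toAddMonoidHom (D.commK σ)
  obtain ⟨Bγ, hγ⟩ : ∃ B, Act E Fr.γ B :=
    exists_act (E := E) (Fr.γ : Ω →+* Ω).toAddMonoidHom hD.comm
  have hfr : R.map Fr.FO = ((Psi k θ r D.g Fr.c M).map (pt K β)).map (algebraMap K Ω) * R *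
      (rep M β (pmap (algebraMap k kb) Bγ)).map (algebraMap kb Ω) := by
    have := rep_frame_frob (RingHom.id Ω) hq' M hD hγ (Fr.FO : Ω →+* Ω) (fun _ => rfl)
      (fun l => by rw [ht]; exact Fr.FO.commutes _)
    rw [pmap_id] at this
    have e1 : MvPolynomial.eval₂Hom ((RingHom.id Ω).comp (algebraMap K Ω)) t =
        (algebraMap K Ω).comp (pt K β : R2 K →+* K) := by
      refine MvPolynomial.ringHom_ext (fun x => ?_) (fun l => ?_)
      · simp [pt]
      · simp [pt, ht, ← IsScalarTower.algebraMap_apply]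
    rw [e1] at this
    rw [hg, hR]
    exact this
  obtain ⟨m, hm, hBm⟩ := hγ.exists_pow ha Fr.γ.injective
  have hgm : rep M β (pmap (algebraMap k kb) Bγ) ^ m = 1 := by
    rw [← rep_pow, ← pmap_pow, rep_congr M ((hBm.pmap (algebraMap k kb)).of_dvd hqa), pmap_one,
      rep_one]
  have hU := isUnit_det_Psi (k := k) hB.tr D.ne Fr.c M β
  obtain ⟨hd1, hd2⟩ := desc_pt Fr hU hN hm hgm hfr
  obtain ⟨Y0, hfin, hspan, hst⟩ := exists_fin_add (k := k) β
    (((ann Ω N).restrictScalars kb).comap (Pt_im kb R))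
  have hY0 : ∀ y ∈ Y0, Pt_im kb R y ∈ ann Ω N := fun y hy =>
    (hspan.le (Submodule.subset_span hy) :)
  have hmove : ∀ (σ : Ω ≃ₐ[K] Ω) B, Act E σ B → ∀ y, (fun j => σ (Pt_im kb R y j)) =
      Pt_im kb R (rep M β (pmap (algebraMap k kb) B) *ᵥ y) := by
    intro σ B hσ y
    rw [← Pt_im_mul, ← hgal σ B hσ]
    exact Pt_im_map R (σ : Ω →+* Ω) (hfix σ) y
  have hG : ∀ σ : Ω ≃ₐ[K] Ω, ∀ η ∈ Pt_im kb R '' (Y0 : Set (JJ (Fin r) M → kb)),
      (fun j => σ (η j)) ∈ Pt_im kb R '' (Y0 : Set (JJ (Fin r) M → kb)) := by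
    rintro σ _ ⟨y, hy, rfl⟩
    obtain ⟨B, hσ⟩ := hact σ
    exact ⟨_, hst B (fun y hy => ann_gal σ (hgal σ B hσ) hy) y hy, (hmove σ B hσ y).symm⟩
  obtain ⟨s, hs0, hs1, hs2⟩ := ex1 (hB.ff k) Fr hU q (Pt_im kb R '' (Y0 : Set (JJ (Fin r) M → kb)))
    (hfin.image _) (by rintro _ ⟨y, hy, rfl⟩; exact hY0 y hy) hG (by
      rintro _ ⟨y, hy, rfl⟩
      refine ⟨_, ⟨_, hst Bγ hd1 y hy, rfl⟩, ?_⟩
      rw [← Pt_im_mul, ← Pt_im_left, ← Matrix.mul_assoc, ← hfr]
      exact Pt_im_map R (Fr.FO : Ω →+* Ω) Fr.FO.commutes y)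
  refine (h3 D (Pt_grp K _) (Pt_normal hG) ?_ ?_ s hs0 ?_).trans ?_
  · rintro σ hσ _ ⟨y, -, rfl⟩
    refine ⟨1, ?_⟩
    rw [hmove σ 1 (act_one_iff.2 hσ), pmap_one, rep_one, Matrix.one_mulVec, one_smul]
  · intro σ hσ
    obtain ⟨B, hB1⟩ := hact σ
    obtain ⟨B', hB2⟩ := hact σ⁻¹
    obtain ⟨X', hX1, hX2⟩ := frame_inv D E hr ha
    have hX1' := hX1.of_dvd hq
    have hX2' := hX2.of_dvd hq
    have hBB : Cong (qd t) (pmap (algebraMap k Ω) B * pmap (algebraMap k Ω) B') 1 := by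
      have := ((hB1.mul hB2).uniq (act_one_iff.2 fun y _ => σ.apply_symm_apply y)).pmap
        (algebraMap k Ω)
      rw [pmap_mul, pmap_one] at this
      exact this.of_dvd hq
    have hBB' : Cong (qd t) (pmap (algebraMap k Ω) B' * pmap (algebraMap k Ω) B) 1 := by
      have := ((hB2.mul hB1).uniq (act_one_iff.2 fun y _ => σ.symm_apply_apply y)).pmap
        (algebraMap k Ω)
      rw [pmap_mul, pmap_one] at this
      exact this.of_dvd hq
    obtain ⟨c, hc⟩ := scalar_of_add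
      (rep M t (frame E * pmap (algebraMap k Ω) B * X')).mulVecLin
      (Y0.map (Pt_im kb R).toAddMonoidHom) (by
        rintro _ ⟨y, hy, rfl⟩
        obtain ⟨c, hc⟩ := hσ _ ⟨y, hy, rfl⟩
        refine ⟨c, Eq.trans ?_ hc⟩
        rw [hmove σ B hB1, ← Pt_im_mul, hg]
        change _ *ᵥ Pt_im kb R y = _
        rw [← Pt_im_left, hR, ← rep_mul, ← rep_mul, Matrix.mul_assoc,
          rep_congr M ((Cong.refl _ _).mul hX2'), Matrix.mul_one])
    have hsc := hS (frame E * pmap (algebraMap k Ω) B * X')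
      (frame E * pmap (algebraMap k Ω) B' * X') (ht ▸ Pt_conj hX1' hX2' hBB)
      (ht ▸ Pt_conj hX1' hX2' hBB') ⟨c, fun η hη => ht ▸ hc η (by
        have e1 : R *ᵥ (rep M t X' *ᵥ η) = η := by
          rw [Matrix.mulVec_mulVec, hR, ← rep_mul, rep_congr M hX1', rep_one, Matrix.one_mulVec]
        have e2 := Submodule.mem_map_of_mem (f := R.mulVecLin) (hd2 _ (e1.symm ▸ hη))
        rw [Matrix.mulVecLin_apply, e1, Submodule.map_span] at e2
        refine Submodule.span_le.2 ?_ e2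
        rintro _ ⟨_, ⟨h5, y0, rfl⟩, rfl⟩
        have e3 := Submodule.mem_map_of_mem (f := Pt_im kb R) (hspan.ge (show y0 ∈ _ from h5))
        rw [Submodule.map_span] at e3
        exact Submodule.span_le_restrictScalars kb Ω _ e3)⟩
    have hsc2 := Pt_scal hX2' i (by rw [ht]; exact hsc)
    refine hB1.scal ha hP hPa (D.commK σ) (z := t i) ?_ ?_
    · rw [ht, aeval_algebraMap_apply, minpoly.aeval, map_zero]
    · convert hsc2 using 1
      ext a b
      exact (eval_map_algebraMap _ _).symm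
  · intro v V hV σ hσ hσG
    obtain ⟨η, hη⟩ := not_forall.1 hσG
    obtain ⟨hη1, hη2⟩ := Classical.not_imp.1 hη
    obtain ⟨u, h4, h5, h6⟩ := hs2 v V hV σ hσ η hη1 hη2
    exact ⟨u, h4, fun τ hτ => (hτ η hη1).elim (h5 τ), h6⟩
  · have := q.h0
    nlinarith

end Pool.Agent.Lib.MP_6adaea_nt.U
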