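import Pool.Agent.Lib.MP_6adaea_nt.U.WdL

/-!
The multiplier `f0`.
-/

set_option linter.unusedSectionVars false

namespace Pool.Agent.Lib.MP_6adaea_nt.U
open Matrix Polynomial G
open scoped TensorProduct

variable {kb K : Type} [Field kb] [Field K] [Algebra kb K] {B : Type} [AddCommGroup B]
  [Module K B] {B' : Type} [AddCommGroup B'] [Module K B']

variable {J : Type} [Fintype J] [DecidableEq J] {W : Wd kb K B J} {Fr : FrK kb K}
  {Ψ Ψ' : Matrix J J (R2 K)} {C0 : ℕ}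


/-- coordinates of a polynomial -/
noncomputable def HS.cop (Hs : HS Fr) (μ : ℕ) (f : R2 K) : R2 K :=
  ∑ α ∈ f.support, MvPolynomial.monomial α (Hs.co μ (f.coeff α))

theorem HS.coeff_cop (Hs : HS Fr) (μ : ℕ) (f : R2 K) (α : Fin 2 →₀ ℕ) :
    (Hs.cop μ f).coeff α = Hs.co μ (f.coeff α) := by
  classical
  unfold HS.cop
  rw [MvPolynomial.coeff_sum]
  simp only [MvPolynomial.coeff_monomial]
  rw [Finset.sum_ite_eq']
  split_ifs with h
  · rfl
  · rw [MvPolynomial.notMem_support_iff.1 h, map_zero]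

theorem HS.cop_deg (Hs : HS Fr) (μ : ℕ) (f : R2 K) : (Hs.cop μ f).totalDegree ≤ f.totalDegree := by
  refine MvPolynomial.totalDegree_le_of_support_subset fun α hα => ?_
  rw [MvPolynomial.mem_support_iff] at hα ⊢
  intro h
  rw [Hs.coeff_cop, h, map_zero] at hα
  exact hα rfl

theorem HS.sum_cop (Hs : HS Fr) (f : R2 K) : f = ∑ μ ∈ Finset.range Fr.Q,
    MvPolynomial.C (Hs.bs μ) * MvPolynomial.map Fr.σ (Hs.cop μ f) := by
  ext α
  rw [MvPolynomial.coeff_sum]
  simp only [MvPolynomial.coeff_C_mul, MvPolynomial.coeff_map, Hs.coeff_cop]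
  exact Hs.sum _

/-- coordinates in a basis `T ∘ b` -/
theorem HS.uniq_T [FiniteDimensional K B] (Hs : HS Fr) (T : B →ₛₗ[Fr.σ] B)
    (hT : Submodule.span K (Set.range T) = ⊤) (x : ℕ → B)
    (h : ∑ μ ∈ Finset.range Fr.Q, Hs.bs μ • T (x μ) = 0) : ∀ μ < Fr.Q, x μ = 0 := by
  obtain ⟨b', hb'⟩ := exists_basis_T T hT (Module.finBasis K B)
  have h1 : ∀ y i, b'.repr (T y) i = Fr.F ((Module.finBasis K B).repr y i) := fun y i => by
    have h2 : T y = ∑ j, Fr.F ((Module.finBasis K B).repr y j) • b' j := by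
      conv_lhs => rw [← (Module.finBasis K B).sum_repr y, map_sum]
      exact Finset.sum_congr rfl fun j _ => by rw [map_smulₛₗ, hb']; rfl
    rw [h2, b'.repr_sum_self]
  intro μ hμ
  refine (Module.finBasis K B).ext_elem fun i => ?_
  rw [map_zero, Finsupp.zero_apply]
  refine Hs.uniq (fun μ => (Module.finBasis K B).repr (x μ) i) ?_ μ hμ
  have h3 := congrArg (fun y => b'.repr y i) h
  simpa only [map_sum, map_smul, Finsupp.finsetSum_apply, Finsupp.smul_apply, smul_eq_mul, h1,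
    map_zero, Finsupp.zero_apply] using h3

/-- If `T b = im x` then `δ • x = (x ᵥ* Ψ') ᵥ* Ψ`; expand `x ᵥ* Ψ'` and `δ` with `sum_cop` and
compare with `uniq_T`. -/
theorem Tw.cop_mem [FiniteDimensional K B] (Hs : HS Fr) (t : Tw W Fr Ψ C0) {δ : R2 K}
    (h : Ψ' * Ψ = δ • (1 : Matrix J J (R2 K))) {c : ℕ} (hΨ' : ∀ i j, (Ψ' i j).totalDegree ≤ c)
    {μ : ℕ} (hμ : μ < Fr.Q) {e : ℕ} {b : B} (hb : b ∈ t.Sg e) :
    W.ev (Hs.cop μ δ) b ∈ W.S (e + c) := by
  obtain ⟨x, hx, hxb⟩ := Submodule.mem_map.1 (Submodule.mem_comap.1 hb)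
  have hz : ∀ j, ((x ᵥ* Ψ') j).totalDegree ≤ e + c := fun j =>
    MvPolynomial.totalDegree_finsetSum_le fun i _ =>
      (MvPolynomial.totalDegree_mul _ _).trans (add_le_add (mem_degLE.1 hx i) (hΨ' i j))
  have h1 : (x ᵥ* Ψ') ᵥ* Ψ = δ • x := by
    rw [vecMul_vecMul, h, vecMul_smul, vecMul_one]
  have h2 : x ᵥ* Ψ' = ∑ ν ∈ Finset.range Fr.Q,
      Hs.bs ν • fun j => MvPolynomial.map Fr.σ (Hs.cop ν ((x ᵥ* Ψ') j)) := by
    funext j
    rw [Finset.sum_apply]
    refine (Hs.sum_cop _).trans (Finset.sum_congr rfl fun ν _ => ?_)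
    rw [Pi.smul_apply, MvPolynomial.smul_eq_C_mul]
  have h3 : W.im (δ • x) = ∑ ν ∈ Finset.range Fr.Q,
      Hs.bs ν • t.T (W.im fun j => Hs.cop ν ((x ᵥ* Ψ') j)) := by
    rw [← h1]
    conv_lhs => rw [h2, sum_vecMul, map_sum]
    refine Finset.sum_congr rfl fun ν _ => ?_
    rw [smul_vecMul, map_smul, t.T_im]
    rfl
  have h4 : W.im (δ • x) = ∑ ν ∈ Finset.range Fr.Q, Hs.bs ν • t.T (W.ev (Hs.cop ν δ) b) := by
    rw [W.im_smul, hxb]
    conv_lhs => rw [Hs.sum_cop δ, map_sum, LinearMap.sum_apply]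
    refine Finset.sum_congr rfl fun ν _ => ?_
    rw [← MvPolynomial.smul_eq_C_mul, map_smul, LinearMap.smul_apply, t.T_ev']
  have h5 := Hs.uniq_T t.T t.span
    (fun ν => W.ev (Hs.cop ν δ) b - W.im fun j => Hs.cop ν ((x ᵥ* Ψ') j)) (by
      simp only [map_sub, smul_sub, Finset.sum_sub_distrib]
      rw [← h3, ← h4, sub_self]) μ hμ
  rw [sub_eq_zero.1 h5]
  exact Submodule.mem_map.2 ⟨_, mem_degLE.2 fun j => (Hs.cop_deg μ _).trans (hz j), rfl⟩

/-- a determinant times a linear form is a polynomial in the parameters -/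
theorem quota_poly [FiniteDimensional K B] (s : Finset ℕ) (E : ℕ → Module.End K B) (r : ℕ → K) :
    ∃ p : MvPolynomial ℕ K, ∀ a : ℕ → K, MvPolynomial.eval a p =
      LinearMap.det (∑ μ ∈ s, a μ • E μ) * ∑ μ ∈ s, a μ * r μ := by
  classical
  refine ⟨(Matrix.of fun i j => ∑ μ ∈ s, MvPolynomial.X μ * MvPolynomial.C
    (LinearMap.toMatrix (Module.finBasis K B) (Module.finBasis K B) (E μ) i j)).det *
      ∑ μ ∈ s, MvPolynomial.X μ * MvPolynomial.C (r μ), fun a => ?_⟩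
  rw [map_mul, RingHom.map_det, ← LinearMap.det_toMatrix (Module.finBasis K B)]
  congr 1
  · congr 1
    ext i j
    simp [Matrix.sum_apply]
  · simp

theorem quota_pt (β : Fin 2 → kb) (f : R2 K) :
    pt K β (MvPolynomial.map Fr.σ f) = Fr.F (pt K β f) := by
  induction f using MvPolynomial.induction_on with
  | C x => simp [pt]
  | add f g hf hg => simp only [map_add, hf, hg]
  | mul_X f i hf =>
    simp only [map_mul, hf, MvPolynomial.map_X]
    simp [pt]

/-- `f0 = ∑ a μ • cop μ δ` with `a μ ∈ kb`. The polynomial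
`det (∑ a μ * ev (map F (cop μ δ))) * ∑ a μ * pt β (map F (cop μ δ))` in `a` does not vanish at
`a = bs`, so not at some point of `kb` (`MvPolynomial.funext_set`). If `ev (map F f0)` is
injective so is `ev f0` (`T_ev'`, `T_inj`); `pt β (map F f) = F (pt β f)`. -/
theorem exists_f0 [Infinite kb] (hK : FF kb K) (Hs : HS Fr) (δ : R2 K) :
    ∃ c0 : Place kb K →₀ ℤ, (∀ v, 0 ≤ c0 v) ∧
    ∀ (B : Type) [AddCommGroup B] [Module K B] [FiniteDimensional K B] (W : Wd kb K B J)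
      (Ψ Ψ' : Matrix J J (R2 K)) (C0 : ℕ) (t : Tw W Fr Ψ C0) (c : ℕ),
      Ψ' * Ψ = δ • (1 : Matrix J J (R2 K)) → (∀ i j, (Ψ' i j).totalDegree ≤ c) →
      IsUnit (W.ev δ) → ∀ β : Fin 2 → kb, pt K β δ ≠ 0 →
      ∃ f0 : R2 K, f0.totalDegree ≤ δ.totalDegree ∧ IsUnit (W.ev f0) ∧ pt K β f0 ≠ 0 ∧
        (∀ (v : Place kb K) α, v.Ge (f0.coeff α) (-c0 v)) ∧
        ∀ e, ∀ b ∈ t.Sg e, W.ev f0 b ∈ W.S (e + c) := by
  classical
  have hfin : ∀ x : K, (Function.support fun v : Place kb K => |v.ord x|).Finite := fun x =>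
    (hK.fin x).subset fun v hv => abs_ne_zero.1 hv
  refine ⟨∑ μ ∈ Finset.range Fr.Q, ∑ α ∈ δ.support,
    Finsupp.ofSupportFinite _ (hfin (Hs.co μ (δ.coeff α))), fun v => ?_, ?_⟩
  · simp only [Finsupp.finsetSum_apply, Finsupp.ofSupportFinite_coe]
    exact Finset.sum_nonneg fun _ _ => Finset.sum_nonneg fun _ _ => abs_nonneg _
  intro B _ _ _ W Ψ Ψ' C0 t c h hΨ' hδ β hβ
  obtain ⟨p, hp⟩ := quota_poly (Finset.range Fr.Q)
    (fun μ => W.ev (MvPolynomial.map Fr.σ (Hs.cop μ δ)))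
    (fun μ => pt K β (MvPolynomial.map Fr.σ (Hs.cop μ δ)))
  have hq : ∀ a : ℕ → K, MvPolynomial.eval a p =
      LinearMap.det (W.ev (∑ μ ∈ Finset.range Fr.Q, a μ • MvPolynomial.map Fr.σ (Hs.cop μ δ))) *
        pt K β (∑ μ ∈ Finset.range Fr.Q, a μ • MvPolynomial.map Fr.σ (Hs.cop μ δ)) := fun a => by
    simp only [hp, map_sum, map_smul, smul_eq_mul]
  have hp0 : p ≠ 0 := fun h0 => by
    have h1 := hq Hs.bs
    simp only [MvPolynomial.smul_eq_C_mul] at h1
    rw [← Hs.sum_cop δ, h0, map_zero] at h1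
    exact mul_ne_zero ((LinearMap.isUnit_det _ hδ).ne_zero) hβ h1.symm
  obtain ⟨a, ha⟩ : ∃ a : ℕ → kb, MvPolynomial.eval (fun μ => algebraMap kb K (a μ)) p ≠ 0 := by
    by_contra h0
    push Not at h0
    refine hp0 (MvPolynomial.funext_set (fun _ => Set.range (algebraMap kb K))
      (fun _ => Set.infinite_range_of_injective (algebraMap kb K).injective) fun x hx => ?_)
    choose a ha using fun μ => hx μ (Set.mem_univ μ)
    rw [map_zero, ← h0 a]
    exact congrArg (fun y => MvPolynomial.eval y p) (funext fun μ => (ha μ).symm)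
  have hm : MvPolynomial.map Fr.σ
      (∑ μ ∈ Finset.range Fr.Q, algebraMap kb K (a μ) • Hs.cop μ δ) =
      ∑ μ ∈ Finset.range Fr.Q, algebraMap kb K (a μ) • MvPolynomial.map Fr.σ (Hs.cop μ δ) := by
    rw [map_sum]
    refine Finset.sum_congr rfl fun μ _ => ?_
    rw [MvPolynomial.smul_eq_C_mul, MvPolynomial.smul_eq_C_mul, map_mul, MvPolynomial.map_C]
    exact congrArg (fun y => MvPolynomial.C y * _) (Fr.F.commutes (a μ))
  rw [hq, ← hm] at ha
  refine ⟨∑ μ ∈ Finset.range Fr.Q, algebraMap kb K (a μ) • Hs.cop μ δ,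
    MvPolynomial.totalDegree_finsetSum_le fun μ _ =>
      (MvPolynomial.totalDegree_smul_le _ _).trans (Hs.cop_deg μ δ), ?_, fun h0 => ?_,
    fun v α => ?_, fun e b hb => ?_⟩
  · rw [LinearMap.isUnit_iff_ker_eq_bot, LinearMap.ker_eq_bot']
    intro b hb
    have h1 := t.T_ev' (∑ μ ∈ Finset.range Fr.Q, algebraMap kb K (a μ) • Hs.cop μ δ) b
    rw [hb, map_zero] at h1
    have h2 := (LinearMap.isUnit_iff_ker_eq_bot _).1
      ((LinearMap.isUnit_iff_isUnit_det _).2 (left_ne_zero_of_mul ha).isUnit)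
    exact T_inj t.T t.span ((LinearMap.ker_eq_bot'.1 h2 _ h1.symm).trans (map_zero _).symm)
  · exact right_ne_zero_of_mul ha (by rw [quota_pt, h0, map_zero])
  · rw [MvPolynomial.coeff_sum]
    refine Place.Ge.sum fun μ hμ => ?_
    rw [MvPolynomial.coeff_smul, Hs.coeff_cop, smul_eq_mul]
    by_cases hα : α ∈ δ.support
    · refine ((v.ge_const _).mul (v.ge_ord _)).mono ?_
      simp only [Finsupp.finsetSum_apply, Finsupp.ofSupportFinite_coe]
      have h1 : |v.ord (Hs.co μ (δ.coeff α))| ≤ ∑ α ∈ δ.support, |v.ord (Hs.co μ (δ.coeff α))| :=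
        Finset.single_le_sum (f := fun α => |v.ord (Hs.co μ (δ.coeff α))|)
          (fun _ _ => abs_nonneg _) hα
      have h2 : ∑ α ∈ δ.support, |v.ord (Hs.co μ (δ.coeff α))| ≤
          ∑ μ ∈ Finset.range Fr.Q, ∑ α ∈ δ.support, |v.ord (Hs.co μ (δ.coeff α))| :=
        Finset.single_le_sum (f := fun μ => ∑ α ∈ δ.support, |v.ord (Hs.co μ (δ.coeff α))|)
          (fun _ _ => Finset.sum_nonneg fun _ _ => abs_nonneg _) hμ
      have h3 := neg_abs_le (v.ord (Hs.co μ (δ.coeff α)))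
      omega
    · rw [MvPolynomial.notMem_support_iff.1 hα, map_zero, mul_zero]
      exact v.ge_zero _
  · rw [map_sum, LinearMap.sum_apply]
    refine Submodule.sum_mem _ fun μ hμ => ?_
    rw [map_smul, LinearMap.smul_apply]
    exact Submodule.smul_mem _ _ (t.cop_mem Hs h hΨ' (Finset.mem_range.1 hμ) hb)

end Pool.Agent.Lib.MP_6adaea_nt.U
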