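import Pool.Agent.Lib.MP_6adaea_nt.T.Lay
import Pool.Agent.Lib.MP_6adaea_nt.T.Zero

/-!
Rounding in thin windows.
-/

set_option linter.unusedSectionVars false

namespace Pool.Agent.Lib.MP_6adaea_nt.U
open Matrix Polynomial G T
open scoped TensorProduct

variable {k kb K Ω : Type} [Field k] [Finite k] [Field kb] [Field K] [Field Ω] [Algebra k kb]
  [Algebra k K] [Algebra k Ω] [Algebra kb K] [Algebra kb Ω] [Algebra K Ω]
  [IsScalarTower k kb K] [IsScalarTower k kb Ω] [IsScalarTower k K Ω] [IsScalarTower kb K Ω]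
  [IsAlgClosed kb] [Algebra.IsAlgebraic k kb] [IsSepClosed Ω] [IsGalois K Ω] {θ : K} {r : ℕ}

variable (k) in
include k in
theorem rp_den [IsFF kb K] {v : Place kb K} {V : QVal Ω} (hV : V.Over v) {z : Ω} (hz : z ≠ 0)
    (h : ∀ σ : Ω ≃ₐ[K] Ω, ∃ c : kb, σ z = algebraMap kb Ω c * z) :
    ∃ L : ℕ, (L : kb) ≠ 0 ∧ ∃ m : ℤ, L * V.ord z = m := by
  classical
  obtain ⟨p, _, _, _, f, hf, hq⟩ := exists_char k kb
  have h1 : ∀ c : kb, ∃ n : ℕ, (n : kb) ≠ 0 ∧ (c ≠ 0 → c ^ n = 1) := fun c => by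
    have hi : IsIntegral k c := Algebra.IsIntegral.isIntegral c
    have h2 := root_pow (minpoly.irreducible hi) (minpoly.aeval k c)
    have h3 : 1 ≤ Nat.card k ^ (minpoly k c).natDegree := Nat.one_le_pow _ _ Nat.card_pos
    refine ⟨Nat.card k ^ (minpoly k c).natDegree - 1, ?_, fun h0 => ?_⟩
    · rw [Nat.cast_sub h3, hq, Nat.cast_pow, Nat.cast_pow, CharP.cast_eq_zero, zero_pow hf.ne',
        zero_pow (minpoly.natDegree_pos hi).ne']
      simp
    · apply mul_right_cancel₀ h0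
      rw [← pow_succ, Nat.sub_add_cancel h3, h2, one_mul]
  choose n n1 n2 using h1
  have hi : IsIntegral K z := Algebra.IsIntegral.isIntegral z
  have h2 : {c : kb | aeval (algebraMap kb Ω c * z) (minpoly K z) = 0}.Finite := by
    refine Set.Finite.of_finite_image (f := fun c => algebraMap kb Ω c * z)
      (((minpoly K z).rootSet_finite Ω).subset ?_) fun a _ b _ e =>
        (algebraMap kb Ω).injective (mul_right_cancel₀ hz e)
    rintro _ ⟨c, hc, rfl⟩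
    exact mem_rootSet.2 ⟨minpoly.ne_zero hi, hc⟩
  refine ⟨∏ c ∈ h2.toFinset, n c, by
    rw [Nat.cast_prod]
    exact Finset.prod_ne_zero_iff.2 fun c _ => n1 c, ?_⟩
  obtain ⟨y, hy⟩ := (InfiniteGalois.mem_range_algebraMap_iff_fixed
    (k := K) (z ^ ∏ c ∈ h2.toFinset, n c)).2 fun σ => by
      obtain ⟨c, hc⟩ := h σ
      have h3 : c ∈ h2.toFinset := h2.mem_toFinset.2 (by
        change aeval (algebraMap kb Ω c * z) (minpoly K z) = 0
        rw [← hc, aeval_algHom_apply, minpoly.aeval, map_zero])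
      have h4 : c ≠ 0 := by
        rintro rfl
        rw [map_zero, zero_mul] at hc
        exact hz (by simpa using hc)
      obtain ⟨e, he⟩ := Finset.dvd_prod_of_mem n h3
      rw [map_pow, hc, mul_pow, ← map_pow, he, pow_mul c, n2 c h4, one_pow, map_one, one_mul]
  exact ⟨v.ord y, by rw [← V.ord_pow, ← hy, hV]⟩

theorem rp_arith {q d h c ρ : ℕ} (hq : 2 ≤ q) (hd : 0 < d) (hc : c < h) {w : ℚ} (hw : 0 ≤ w) :
    0 ≤ w * (q : ℚ) ^ (d * c + ρ) / (((q : ℚ) ^ d) ^ h - 1) ∧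
      w * (q : ℚ) ^ (d * c + ρ) / (((q : ℚ) ^ d) ^ h - 1) ≤ 2 * (w * q ^ ρ / q ^ d) := by
  have h1 : (2 : ℚ) ≤ q := by exact_mod_cast hq
  have h2 : (2 : ℚ) ≤ (q : ℚ) ^ d := h1.trans (le_self_pow₀ (by linarith) hd.ne')
  have h3 : (2 : ℚ) ≤ ((q : ℚ) ^ d) ^ h := h2.trans (le_self_pow₀ (by linarith) (by omega))
  have h4 : ((q : ℚ) ^ d) ^ (c + 1) ≤ ((q : ℚ) ^ d) ^ h := pow_le_pow_right₀ (by linarith) hc
  refine ⟨div_nonneg (by positivity) (by linarith), ?_⟩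
  rw [pow_add, pow_mul, div_le_iff₀ (by linarith), ← mul_div_assoc, div_mul_eq_mul_div,
    le_div_iff₀ (by linarith)]
  have h5 : 0 ≤ w * (q : ℚ) ^ ρ := by positivity
  rw [pow_succ] at h4
  nlinarith [mul_le_mul_of_nonneg_left h4 h5, mul_le_mul_of_nonneg_left h3 h5]

theorem rp_geom {q : ℕ} (hq : 2 ≤ q) (d : ℕ) : ∑ ρ ∈ Finset.range d, (q : ℚ) ^ ρ ≤ q ^ d := by
  have h1 : (2 : ℚ) ≤ q := by exact_mod_cast hq
  induction d with
  | zero => simp
  | succ d ih =>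
    rw [Finset.sum_range_succ, pow_succ]
    have : (0 : ℚ) ≤ q ^ d := by positivity
    nlinarith

theorem rp_tot {α : Type} (Z : α →₀ ℕ) (a : ℚ) :
    tot (a • Z.mapRange (Nat.cast : ℕ → ℚ) Nat.cast_zero) = a * (tot Z : ℕ) := by
  rw [tot, tot, Finsupp.sum_smul_index' fun _ => rfl, Finsupp.sum_mapRange_index (by simp)]
  simp [Finsupp.sum, Finset.mul_sum]

theorem rp_tot_sum {α ι : Type} (s : Finset ι) (f : ι → α →₀ ℚ) :
    tot (∑ i ∈ s, f i) = ∑ i ∈ s, tot (f i) :=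
  (Finsupp.sum_finsetSum_index (fun _ => rfl) fun _ _ _ => rfl).symm

/-- The local estimate. Let `n0 = n0 q r`, `a i = ord (z i)`, `Q = q ^ d`. For all `σ` in inertia
`tch σ (a i) = lam ^ q ^ (s * i)` (`tch_eq`). Some power `z i ^ n i` with `n i` prime to `p` is
fixed by the Galois group (the eigenvalues are algebraic over `k` of bounded degree; or: the
characters `σ ↦ σ (z i) / z i` take values in `kbˣ`, and `z i` has finitely many conjugates), so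
there is `L` prime to `p`, divisible by all `Q ^ h - 1`, `h ≤ r`, with `L * a i ∈ ℤ`, `i = 0` and
`i`. Take `σ` from `exists_gen` for `L`: then `tch σ x = tch σ y` with `L * x`, `L * y` integers
implies `x - y ∈ ℤ`. So `a i ≡ q ^ (s * i) * a 0` and by `ts` (`m = 1`) `n0 * a 0 ≡ ε` where
`ε = ∑ l, x l` and each `x l` is `0` or lies in `[0, 2 * n0 * E * q ^ ρ / Q]`,
`E = ord (θ - rth)`, `ζ = rth ^ q ^ ρ`. Hence
`a i - a 0 ≡ ((q ^ (s * i) - 1) / n0) * ε` modulo `ℤ`. -/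
theorem rp_loc (hB : Base kb θ) (hr : 0 < r) {s : ℕ}
    (hs : n0 (Nat.card k) r ∣ Nat.card k ^ s - 1) {M : ℕ} (D : DM k Ω θ r) {P : k[X]}
    (hP : Irreducible P) (E : Coord D.φ P (Fin r)) {ζ : kb} (hζ : aeval ζ P = 0) {z0 z : Ω}
    (h0 : z0 ≠ 0) (hz : z ≠ 0) (i : ℕ)
    (h : ∀ σ : Ω ≃ₐ[K] Ω, ∃ (B : Matrix (Fin r) (Fin r) k[X]) (μ : Fin M → kb), Act E σ B ∧
        (∀ l, (B.map (aeval ζ)).charpoly.IsRoot (μ l)) ∧
        σ z0 = algebraMap kb Ω (∏ l, μ l) * z0 ∧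
        σ z = algebraMap kb Ω ((∏ l, μ l) ^ Nat.card k ^ (s * i)) * z)
    {v : Place kb K} {V : QVal Ω} (hV : V.Over v) {η : ℚ} (hη : 0 ≤ η)
    (hb : ∀ (c : kb) (ρ : ℕ), ρ < P.natDegree → ζ = c ^ Nat.card k ^ ρ →
      (v.ord (θ - algebraMap kb K c) : ℚ) * Nat.card k ^ ρ / Nat.card k ^ P.natDegree ≤ η) :
    ∃ n : ℤ, |V.ord z - V.ord z0 - n| ≤ 2 * M * Nat.card k ^ (s * i) * η := by
  have := hB.isFF
  obtain ⟨p, _, _, _, f, hf, hq⟩ := exists_char k kb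
  have hq2 : 2 ≤ Nat.card k := Finite.one_lt_card
  have hd : 0 < P.natDegree := hP.natDegree_pos
  have hR := hV.hasRes
  have hall := all_ord hV
  obtain ⟨L₀, l0, m₀, e0⟩ := rp_den k hV h0 fun σ => let ⟨_, _, _, _, e, _⟩ := h σ; ⟨_, e⟩
  obtain ⟨L₁, l1, m₁, e1⟩ := rp_den k hV hz fun σ => let ⟨_, _, _, _, _, e⟩ := h σ; ⟨_, e⟩
  have l2 : ((n0 (Nat.card k ^ P.natDegree) r : ℕ) : kb) ≠ 0 := by
    rw [n0, Nat.cast_prod]
    refine Finset.prod_ne_zero_iff.2 fun j hj => ?_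
    rw [Nat.cast_sub (Nat.one_le_pow _ _ (by positivity)), hq, Nat.cast_pow, Nat.cast_pow,
      Nat.cast_pow, CharP.cast_eq_zero, zero_pow hf.ne', zero_pow hd.ne',
      zero_pow (Nat.one_le_iff_ne_zero.1 (Finset.mem_Icc.1 hj).1)]
    simp
  obtain ⟨L, hL⟩ : ∃ L, L = L₀ * L₁ * n0 (Nat.card k ^ P.natDegree) r := ⟨_, rfl⟩
  have l3 : (L : kb) ≠ 0 := by
    rw [hL, Nat.cast_mul, Nat.cast_mul]
    exact mul_ne_zero (mul_ne_zero l0 l1) l2
  have l4 : (L : ℚ) ≠ 0 := by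
    rintro e
    rw [Nat.cast_eq_zero.1 e] at l3
    exact l3 Nat.cast_zero
  obtain ⟨σ, hσ, ω, hω, hg⟩ := exists_gen hV l3
  obtain ⟨B, μ, hA, hμ, z1, z2⟩ := h σ
  have t0 : V.tch kb σ (V.ord z0) = ∏ l, μ l := hR.tch_eq hσ h0 (by simp [z1])
  have t1 : V.tch kb σ (V.ord z) = (∏ l, μ l) ^ Nat.card k ^ (s * i) :=
    hR.tch_eq hσ hz (by rw [z2, sub_self]; exact V.gt_zero _)
  have tz : V.tch kb σ 0 = 1 := by simpa using hR.tch_int hV hσ 0
  have key : ∀ l, ∃ x : ℚ, 0 ≤ x ∧ x ≤ 2 * (n0 (Nat.card k) r * η) ∧ (∃ n : ℤ, L * x = n) ∧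
      μ l ^ n0 (Nat.card k) r = V.tch kb σ x := fun l => by
    rcases ts hB D hr hV hσ (one_mul _) hP E (by rwa [pow_one]) hζ (hμ l) with
      e | ⟨w, j, c, ρ, j0, j1, j2, j3, j4, j5, j6⟩
    · exact ⟨0, le_rfl, by positivity, ⟨0, by simp⟩, by rw [e, tz]⟩
    obtain ⟨a1, a2⟩ := rp_arith (ρ := ρ) hq2 hd j2 (Nat.cast_nonneg (α := ℚ) w)
    refine ⟨_, a1, a2.trans (mul_le_mul_of_nonneg_left ?_ (by norm_num)), ?_, j6⟩
    · have a3 := mul_le_mul_of_nonneg_left (hb _ ρ j3 j4)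
        (Nat.cast_nonneg (α := ℚ) (n0 (Nat.card k) r))
      refine le_trans ?_ a3
      rw [← mul_div_assoc, ← mul_assoc]
      have a4 : (w : ℚ) ≤ n0 (Nat.card k) r * v.ord (θ - algebraMap kb K (rth kb V θ)) := by
        exact_mod_cast j5
      gcongr
    · obtain ⟨u, hu⟩ := dvd_n0 (q := Nat.card k ^ P.natDegree) (Finset.mem_Icc.2 ⟨j0, j1⟩)
      have a3 : 1 < (Nat.card k ^ P.natDegree) ^ j :=
        Nat.one_lt_pow j0.ne' (Nat.one_lt_pow hd.ne' hq2)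
      have a4 : (((Nat.card k : ℚ) ^ P.natDegree) ^ j - 1) ≠ 0 :=
        sub_ne_zero.2 (by exact_mod_cast a3.ne')
      refine ⟨L₀ * L₁ * u * w * Nat.card k ^ (P.natDegree * c + ρ), ?_⟩
      rw [hL, hu]
      push_cast [Nat.cast_sub a3.le]
      field_simp
  choose x x0 x1 x2 x3 using key
  choose n hn using x2
  have t2 : ∀ S : Finset (Fin M), V.tch kb σ (∑ l ∈ S, x l) = (∏ l ∈ S, μ l) ^ n0 (Nat.card k) r :=
    fun S => by
      induction S using Finset.induction_on with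
      | empty => simpa using tz
      | insert a S ha ih =>
        rw [Finset.sum_insert ha, Finset.prod_insert ha, hR.tch_add hall hσ, ih, mul_pow, x3]
  obtain ⟨u, hu⟩ : n0 (Nat.card k) r ∣ Nat.card k ^ (s * i) - 1 := by
    refine hs.trans ?_
    rw [pow_mul]
    simpa using Nat.sub_dvd_pow_sub_pow (Nat.card k ^ s) 1 i
  have hu' : Nat.card k ^ (s * i) = n0 (Nat.card k) r * u + 1 := by
    have : 1 ≤ Nat.card k ^ (s * i) := Nat.one_le_pow _ _ (by omega)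
    omega
  have t3 : V.tch kb σ (V.ord z - V.ord z0 - u * ∑ l, x l) = 1 := by
    have a1 := hR.tch_add hall hσ (V.ord z - V.ord z0 - u * ∑ l, x l) (u * ∑ l, x l + V.ord z0)
    have a2 := hR.tch_zsmul hall hσ u (∑ l, x l)
    rw [Int.cast_natCast, zpow_natCast, t2, ← pow_mul] at a2
    have a3 : V.tch kb σ (u * ∑ l, x l + V.ord z0) = V.tch kb σ (V.ord z) := by
      rw [hR.tch_add hall hσ, a2, t0, t1, hu', pow_succ]
    rw [a3, show V.ord z - V.ord z0 - u * ∑ l, x l + (u * ∑ l, x l + V.ord z0) = V.ord z by ring]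
      at a1
    exact (mul_eq_right₀ (hR.tch_ne_zero hσ _)).1 a1.symm
  obtain ⟨N, hN⟩ : ∃ N : ℤ, L * (V.ord z - V.ord z0 - u * ∑ l, x l) = N := by
    refine ⟨L₀ * n0 (Nat.card k ^ P.natDegree) r * m₁ - L₁ * n0 (Nat.card k ^ P.natDegree) r * m₀ -
      u * ∑ l, n l, ?_⟩
    push_cast
    rw [← e0, ← e1, mul_sub, mul_left_comm (L : ℚ), Finset.mul_sum _ x]
    simp only [hn]
    rw [hL]
    push_cast
    ring
  have a1 : V.ord z - V.ord z0 - u * ∑ l, x l = N / L := by rw [← hN]; field_simp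
  rw [a1, hg, hω.zpow_eq_one_iff_dvd] at t3
  obtain ⟨N', rfl⟩ := t3
  refine ⟨N', ?_⟩
  have a2 : V.ord z - V.ord z0 - N' = u * ∑ l, x l := by
    rw [Int.cast_mul, Int.cast_natCast, mul_div_cancel_left₀ _ l4] at a1
    linarith
  have a3 : ∑ l, x l ≤ M * (2 * (n0 (Nat.card k) r * η)) := by
    simpa using Finset.sum_le_sum fun l (_ : l ∈ Finset.univ) => x1 l
  have a4 : (Nat.card k : ℚ) ^ (s * i) = n0 (Nat.card k) r * u + 1 := by exact_mod_cast hu'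
  rw [a2, abs_of_nonneg (mul_nonneg (Nat.cast_nonneg u) (Finset.sum_nonneg fun l _ => x0 l)), a4]
  have a5 := mul_le_mul_of_nonneg_left a3 (Nat.cast_nonneg (α := ℚ) u)
  have a6 : 0 ≤ (M : ℚ) * η := by positivity
  nlinarith

/-- `s = totient (n0 q r)` (`Nat.ModEq.pow_totient`). For `ρ < d` let `c ρ` be the unique element
with `c ρ ^ q ^ ρ = ζ` and `Z ρ` the divisor of zeros of `θ - c ρ` (`exists_zero_bound`);
`η = 2 * M * q ^ (s * m) * ∑ ρ < d, q ^ ρ / q ^ d • Z ρ`, and `∑ ρ < d, q ^ ρ ≤ q ^ d`. The orders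
of the `z i` do not depend on `V` over `v` (`Val.conj`). -/
theorem rp (hB : Base kb θ) (hr : 0 < r) : ∃ s : ℕ, 0 < s ∧ ∀ M m : ℕ, ∃ C : ℚ,
    ∀ (D : DM k Ω θ r) (P : k[X]), P.Monic → Irreducible P →
      ∀ (E : Coord D.φ P (Fin r)) (ζ : kb), aeval ζ P = 0 → ∀ z : ℕ → Ω, (∀ i < m, z i ≠ 0) →
      (∀ σ : Ω ≃ₐ[K] Ω, ∃ (B : Matrix (Fin r) (Fin r) k[X]) (μ : Fin M → kb), Act E σ B ∧
        (∀ l, (B.map (aeval ζ)).charpoly.IsRoot (μ l)) ∧
        ∀ i < m, σ (z i) = algebraMap kb Ω ((∏ l, μ l) ^ Nat.card k ^ (s * i)) * z i) →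
      ∃ η : Place kb K →₀ ℚ, (∀ v, 0 ≤ η v) ∧ tot η ≤ C ∧ ∀ v, ∀ i < m, ∃ n : ℤ,
        ∀ V : Val kb Ω, V.Over v → |V.ord (z i) - V.ord (z 0) - n| ≤ η v := by
  have := hB.isFF
  obtain ⟨p, hp, _, _, f, hf, hq⟩ := exists_char k kb
  have hq2 : 2 ≤ Nat.card k := Finite.one_lt_card
  have hc : Nat.Coprime (Nat.card k) (n0 (Nat.card k) r) := by
    have h1 : ¬p ∣ n0 (Nat.card k) r := fun e => n0_ne k k r ((CharP.cast_eq_zero_iff k p _).2 e)
    have h2 := ((Nat.Prime.coprime_iff_not_dvd hp.out).2 h1).pow_left f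
    rwa [← hq] at h2
  have hs : n0 (Nat.card k) r ∣ Nat.card k ^ (n0 (Nat.card k) r).totient - 1 :=
    (Nat.modEq_iff_dvd' (Nat.one_le_pow _ _ (by omega))).1 (Nat.ModEq.pow_totient hc).symm
  refine ⟨_, Nat.totient_pos.2 (n0_pos hq2 r), fun M m => ?_⟩
  generalize (n0 (Nat.card k) r).totient = s at hs
  obtain ⟨b, hb⟩ := exists_zero_bound (kb := kb) p θ
  choose Z Z1 Z2 using hb
  refine ⟨2 * M * Nat.card k ^ (s * m) * b, fun D P _ hP E ζ hζ z hz h => ?_⟩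
  choose c hc using fun ρ : ℕ =>
    IsAlgClosed.exists_pow_nat_eq ζ (n := Nat.card k ^ ρ) (by positivity)
  have hu : ∀ (ρ : ℕ) (a : kb), ζ = a ^ Nat.card k ^ ρ → a = c ρ := fun ρ a e => by
    have h1 : (a - c ρ) ^ Nat.card k ^ ρ = 0 := by
      have h2 := hc ρ
      rw [hq, ← pow_mul] at h2 e ⊢
      rw [sub_pow_char_pow, ← e, h2, sub_self]
    exact sub_eq_zero.1 (pow_eq_zero_iff (by positivity) |>.1 h1)
  obtain ⟨A, hA⟩ : ∃ A : ℚ, A = 2 * M * Nat.card k ^ (s * m) := ⟨_, rfl⟩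
  have hA0 : 0 ≤ A := by rw [hA]; positivity
  let η : Place kb K → ℚ := fun v => ∑ ρ ∈ Finset.range P.natDegree,
    (Z (c ρ) v : ℚ) * Nat.card k ^ ρ / Nat.card k ^ P.natDegree
  have hη : ∀ v, 0 ≤ η v := fun v => Finset.sum_nonneg fun _ _ => by positivity
  have he : ∀ v, (∑ ρ ∈ Finset.range P.natDegree,
      (A * ((Nat.card k : ℚ) ^ ρ / Nat.card k ^ P.natDegree)) •
        (Z (c ρ)).mapRange (Nat.cast : ℕ → ℚ) Nat.cast_zero) v = A * η v := fun v => by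
    rw [Finsupp.finsetSum_apply, Finset.mul_sum]
    refine Finset.sum_congr rfl fun ρ _ => ?_
    rw [Finsupp.smul_apply, Finsupp.mapRange_apply, smul_eq_mul]
    ring
  refine ⟨_, fun v => (he v).ge.trans' (mul_nonneg hA0 (hη v)), ?_, fun v i hi => ?_⟩
  · rw [rp_tot_sum, ← hA]
    have h1 : (0 : ℚ) < Nat.card k ^ P.natDegree := by positivity
    calc _ ≤ ∑ ρ ∈ Finset.range P.natDegree,
          A * ((Nat.card k : ℚ) ^ ρ / Nat.card k ^ P.natDegree) * b := by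
          refine Finset.sum_le_sum fun ρ _ => ?_
          rw [rp_tot]
          exact mul_le_mul_of_nonneg_left (by exact_mod_cast Z2 _) (by positivity)
      _ = A * ((∑ ρ ∈ Finset.range P.natDegree, (Nat.card k : ℚ) ^ ρ) /
          Nat.card k ^ P.natDegree) * b := by
          rw [Finset.sum_div, Finset.mul_sum, Finset.sum_mul]
      _ ≤ A * 1 * b := by
          gcongr
          exact (div_le_one h1).2 (rp_geom hq2 _)
      _ = _ := by rw [mul_one]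
  obtain ⟨V₀, hV₀⟩ := exists_val (Ω := Ω) v
  obtain ⟨n, hn⟩ := rp_loc hB hr hs (M := M) D hP E hζ (hz 0 (by omega)) (hz i hi) i
    (fun σ => by
      obtain ⟨B, μ, h1, h2, h3⟩ := h σ
      exact ⟨B, μ, h1, h2, by simpa using h3 0 (by omega), h3 i hi⟩)
    (V := V₀.toQ) hV₀ (hη v) fun a ρ h1 h2 => by
      refine le_trans ?_ (Finset.single_le_sum (f := fun ρ => (Z (c ρ) v : ℚ) * Nat.card k ^ ρ /
        Nat.card k ^ P.natDegree) (fun _ _ => by positivity) (Finset.mem_range.2 h1))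
      have h3 : v.ord (θ - algebraMap kb K a) ≤ Z (c ρ) v := by
        rw [Z1, hu ρ a h2]
        exact le_max_right _ _
      have h4 : (v.ord (θ - algebraMap kb K a) : ℚ) ≤ Z (c ρ) v := by exact_mod_cast h3
      gcongr
  refine ⟨n, fun V hV => ?_⟩
  obtain ⟨σ, hσ⟩ := Val.conj hV₀ hV
  obtain ⟨B, μ, -, -, h3⟩ := h σ
  have h4 : ∀ j < m, V.ord (z j) = V₀.ord (z j) := fun j hj => by
    have h5 : σ (z j) ≠ 0 := by simpa using hz j hj
    rw [← hσ, h3 j hj] at *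
    rw [V.ord_mul (left_ne_zero_of_mul h5) (hz j hj), V.ord_const, zero_add]
  rw [h4 i hi, h4 0 (by omega), he]
  refine hn.trans (mul_le_mul_of_nonneg_right ?_ (hη v))
  rw [hA]
  have h5 : (1 : ℚ) ≤ Nat.card k := by exact_mod_cast hq2.trans' one_le_two
  gcongr

end Pool.Agent.Lib.MP_6adaea_nt.U
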