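import Pool.Agent.Lib.MP_6adaea_nt.U.NoL
import Pool.Agent.Lib.MP_6adaea_nt.U.Main

/-!
From the absence of eigenvectors to a bound for the index.
-/

set_option linter.unusedSectionVars false

namespace Pool.Agent.Lib.MP_6adaea_nt.U
open Matrix Polynomial G
open scoped TensorProduct

variable {k kb K Ω : Type} [Field k] [Finite k] [Field kb] [Field K] [Field Ω] [Algebra k kb]
  [Algebra k K] [Algebra k Ω] [Algebra kb K] [Algebra kb Ω] [Algebra K Ω]
  [IsScalarTower k kb K] [IsScalarTower k kb Ω] [IsScalarTower k K Ω] [IsScalarTower kb K Ω]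
  [IsAlgClosed kb] [Algebra.IsAlgebraic k kb] [IsSepClosed Ω] [IsGalois K Ω] {θ : K} {r : ℕ}

open Filter

theorem dense_of_noThin {D : DM k Ω θ r} {Fr : Frb k kb K Ω} {Dg d : ℕ}
    (h : ∀ M ≤ (Fintype.card (Fin r × Fin 2) ^ Dg) ^ 2 * Dg, D.NoThin Fr M d) {a P : k[X]}
    (ha : a.Monic) (hP : P.Monic) (hP' : Irreducible P) (hd : d ≤ P.natDegree) (h2 : P ^ 2 ∣ a)
    (E : Coord D.φ a (Fin r)) (H : Subgroup (GL (Fin r) (AdjoinRoot a))) (hH : Cov E Fr H)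
    (ζ : kb) (hζ : aeval ζ P = 0) : Dense Dg ![ζ, ζ] (hats ![ζ, ζ] H) := by
  intro f hf h0 s hs
  by_contra hne
  have hq : qd ![ζ, ζ] ∣ a.map (algebraMap k kb) := by
    have h1 : X - C ζ ∣ P.map (algebraMap k kb) := by
      rw [dvd_iff_isRoot, IsRoot, eval_map_algebraMap, hζ]
    refine dvd_trans ?_ (Polynomial.map_dvd _ h2)
    rw [Polynomial.map_pow, sq]
    exact mul_dvd_mul h1 h1
  obtain ⟨G, hG, hU⟩ := exists_hats_monoid hq H
  obtain ⟨M, hM, w, hw, hsw⟩ := pl G hU hf (fun g hg => h0 g (hG ▸ hg)) hne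
  have key : ∀ B ∈ Lifts H, ∃ χ : kb, rep M ![ζ, ζ] (pmap (algebraMap k kb) B) *ᵥ w = χ • w :=
    fun B hB => hw _ (by rw [← SetLike.mem_coe, hG]; exact ⟨B, hB, rfl⟩)
  refine hsw (stab_fix (F := kb) kb (h M hM a P ha hP hP' hd h2 E ζ hζ w (fun σ => ?_) ?_) hs)
  · obtain ⟨B, hB, hA⟩ := hH.1 σ
    obtain ⟨χ, hχ⟩ := key B hB
    exact ⟨B, χ, hA, hχ⟩
  · obtain ⟨B, hB, hA⟩ := hH.2
    obtain ⟨χ, hχ⟩ := key B hB
    exact ⟨B, χ, hA, hχ⟩

theorem eigX_of_xcong {τ : Fin 2 → PowerSeries kb} {M : ℕ} {w : JJ (Fin r) M → PowerSeries kb}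
    {m : ℕ} {B : Matrix (Fin r) (Fin r) k[X]}
    {h : Matrix (Fin r × Fin 2) (Fin r × Fin 2) (PowerSeries kb)} {χ : PowerSeries kb}
    (hh : ten M h *ᵥ w = χ • w)
    (hc : XCong m (hat τ (pmap (algebraMap k (PowerSeries kb)) B)) h) : EigX τ w m B := by
  refine ⟨χ, fun j => ?_⟩
  let I : Ideal (PowerSeries kb) := Ideal.span {(PowerSeries.X : PowerSeries kb) ^ m}
  rw [← Ideal.mem_span_singleton, ← Ideal.Quotient.eq_zero_iff_mem]
  have e : (hat τ (pmap (algebraMap k (PowerSeries kb)) B)).map (Ideal.Quotient.mk I) =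
      h.map (Ideal.Quotient.mk I) := by
    ext x y
    exact Ideal.Quotient.eq.mpr (Ideal.mem_span_singleton.mpr (hc x y))
  rw [← hh, Pi.sub_apply, map_sub, RingHom.map_mulVec, RingHom.map_mulVec, rep, ten_map, ten_map, e,
    sub_self]

theorem exists_of_noThick {D : DM k Ω θ r} {Fr : Frb k kb K Ω} (hD : D.Fix Fr)
    {τ : Fin 2 → PowerSeries kb} {M : ℕ} {w : JJ (Fin r) M → PowerSeries kb} {m : ℕ} {b : k[X]}
    (h : D.NoThick Fr τ w m b)
    {G : Submonoid (Matrix (Fin r × Fin 2) (Fin r × Fin 2) (PowerSeries kb))}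
    (hG : ∀ g ∈ G, ∃ χ : PowerSeries kb, ten M g *ᵥ w = χ • w) {a : k[X]} (ha : a ≠ 0)
    (hb : b ∣ a) (E : Coord D.φ a (Fin r)) (H : Subgroup (GL (Fin r) (AdjoinRoot a)))
    (hH : Cov E Fr H) : ∃ g ∈ hats τ H, ∀ h ∈ G, ¬XCong m g h := by
  by_contra hc
  push Not at hc
  have key : ∀ B ∈ Lifts H, EigX τ w m B := fun B hB => by
    obtain ⟨g, hg, hx⟩ := hc _ ⟨B, hB, rfl⟩
    obtain ⟨χ, hχ⟩ := hG g hg
    exact eigX_of_xcong hχ hx
  obtain ⟨E', hE'⟩ := exists_coord_act ha hb E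
  refine h E' (fun σ => ?_) ?_
  · obtain ⟨B, hB, hA⟩ := hH.1 σ
    exact ⟨B, hE' _ _ (D.commK σ) hA, key B hB⟩
  · obtain ⟨B, hB, hA⟩ := hH.2
    exact ⟨B, hE' _ _ hD.comm hA, key B hB⟩

variable {L : Type} [Field L] [Algebra L K] [Algebra L Ω] [IsScalarTower L K Ω] [Algebra k L]
  [IsScalarTower k L Ω] [Algebra (RatFunc k) L] [IsScalarTower k (RatFunc k) L]
  [FiniteDimensional (RatFunc k) L] [IsGalois L Ω]

theorem bdd_of_noLine (hB : Base kb (algebraMap L K (algebraMap (RatFunc k) L RatFunc.X)))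
    (hr : 2 ≤ r) (Fr : Frb k kb K Ω) (hγ : ∀ x : L, Fr.γK (algebraMap L K x) = algebraMap L K x)
    (D : DM k Ω (algebraMap L K (algebraMap (RatFunc k) L RatFunc.X)) r)
    (hg : ∀ i, D.g i ∈ Set.range (algebraMap L K)) (hthin : ∀ M, ∃ d, D.NoThin Fr M d)
    (hthick : ∀ τ : Fin 2 → PowerSeries kb, Adm k τ →
      ∀ (M : ℕ) (w : JJ (Fin r) M → PowerSeries kb), Moved τ w →
      ∃ (m : ℕ) (b : k[X]), b.Monic ∧ D.NoThick Fr τ w m b) : ∃ C, Bdd L D.φ r C := by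
  by_contra hcon
  push Not at hcon
  simp only [Bdd, not_forall, not_le] at hcon
  choose a ha E₀ ρ₀ hρ₀ hi using hcon
  obtain ⟨a', hm, hd, hdiv, hsq⟩ := exists_levels k a ha
  have hr0 : 0 < r := by omega
  have : Nontrivial (Fin r) := Fin.nontrivial_iff_two_le.2 hr
  choose g hg using hg
  have hdr : IsDr (algebraMap L Ω (algebraMap (RatFunc k) L RatFunc.X)) r
      (fun j => algebraMap L Ω (g j)) D.φ := by
    simpa only [IsScalarTower.algebraMap_apply L K Ω, hg] using D.dr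
  have hg0 : g r ≠ 0 := fun h => D.ne (by rw [← hg, h, map_zero])
  have hc := aut_comm hdr
  have hfix : D.Fix Fr := ⟨hγ _, fun j => by rw [← hg, hγ]⟩
  have hθ : Transcendental k (algebraMap L Ω (algebraMap (RatFunc k) L RatFunc.X)) :=
    (transcendental_algebraMap_iff (algebraMap L Ω).injective).2
      ((transcendental_algebraMap_iff (algebraMap (RatFunc k) L).injective).2
        RatFunc.transcendental_X)
  have hE := fun i => exists_coord hdr hr0 ((_root_.map_ne_zero _).2 hg0) hθ (hm i).ne_zero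
  have E := fun i => (hE i).some
  choose ρ hρ using fun i => exists_rep hc (E i)
  have hcov : ∀ i, Cov (E i) Fr (ρ i).range := fun i => by
    have h1 : ∀ σ : Ω ≃ₐ[L] Ω, ∃ B ∈ Lifts (ρ i).range, Act (E i) σ B := fun σ => by
      choose B hB using fun x y => AdjoinRoot.mk_surjective ((ρ i σ).val x y)
      exact ⟨Matrix.of B, ⟨_, ⟨σ, rfl⟩, Matrix.ext hB⟩,
        (act_iff_of_isRep (hρ i) σ _).2 (Matrix.ext hB)⟩
    exact ⟨fun σ => h1 (σ.restrictScalars L), h1 (AlgEquiv.ofRingEquiv (f := Fr.γ.toRingEquiv)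
      fun x => by
        rw [IsScalarTower.algebraMap_apply L K Ω]
        exact (Fr.compat _).trans (congrArg _ (hγ x)))⟩
  refine (final_group k kb _ a' (fun i => (ρ i).range) hm hdiv hsq
    (fun i => det_index L hr0 hg0 hdr (hm i) (hρ i)) (fun Dg => ?_) ?_
    fun τ hτ G hG Dg hD => ?_).elim fun N hN => ?_
  rotate_right
  · obtain ⟨i, h1, h2⟩ := (hN.and_eventually (eventually_ge_atTop N)).exists
    exact (((hi i).trans_le (index_le_of_dvd hc (hm i).ne_zero (hd i) (hρ i) (hρ₀ i))).trans_le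
      h1).not_ge h2
  · choose d hd using hthin
    refine ⟨(Finset.range ((Fintype.card (Fin r × Fin 2) ^ Dg) ^ 2 * Dg + 1)).sup d,
      Eventually.of_forall fun i P h2 h3 h4 h5 =>
        dense_of_noThin (fun M hM a P k1 k2 k3 k4 => hd M a P k1 k2 k3 ?_) (hm i) h2 h3 h4 h5
          (E i) _ (hcov i)⟩
    exact (Finset.le_sup (f := d) (Finset.mem_range.2 (Nat.lt_succ_of_le hM))).trans k4
  · obtain ⟨d, h⟩ := large_hasSL (k := k) (Ω := Ω) hB hr
    refine ⟨d, fun i P b hP hb h1 h2 h3 h4 h5 => ?_⟩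
    obtain ⟨P', hP'⟩ := id hP
    obtain ⟨b', hb'⟩ := id hb
    obtain ⟨EP, hEP⟩ := exists_coord_dvd (hm i).ne_zero hP' (E i)
    obtain ⟨Eb, hEb⟩ := exists_coord_dvd (hm i).ne_zero hb' (E i)
    refine h D P b h1 h2 (ne_zero_of_dvd_ne_zero (hm i).ne_zero hb) h3 h4 EP
      (((red (fac hP)).comp (ρ i)).comp (MonoidHom.mk' (fun σ : Ω ≃ₐ[K] Ω => σ.restrictScalars L)
        fun _ _ => rfl)) (fun σ => (hρ i).red hc hEP (σ.restrictScalars L)) _ _ ?_
      (fun σ hσ => ⟨_, ⟨⟨_, rfl⟩, (((hρ i).red hc hEb).eq_one_iff _).2 hσ⟩, rfl⟩) h5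
    rintro _ ⟨x, hx, rfl⟩ _ ⟨y, hy, rfl⟩
    refine ⟨x * y * x⁻¹,
      ⟨(ρ i).range.mul_mem ((ρ i).range.mul_mem hx hy.1) ((ρ i).range.inv_mem hx),
      (MonoidHom.normal_ker _).conj_mem y hy.2 x⟩, by simp only [map_mul, map_inv]⟩
  · obtain ⟨M, w, h1, h2, h3⟩ := pl_series G hG hD
    obtain ⟨m, b, hb, h⟩ := hthick τ hτ M w ⟨h1, h3⟩
    exact ⟨m, (hdiv b hb.ne_zero).mono fun i hi =>
      exists_of_noThick hfix h h2 (hm i).ne_zero hi (E i) _ (hcov i)⟩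

end Pool.Agent.Lib.MP_6adaea_nt.U
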