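import Pool.Agent.Lib.MP_6adaea_nt.U.IGrp
import Pool.Agent.Lib.MP_6adaea_nt.S.Rel
import Pool.Agent.Lib.MP_6adaea_nt.S.Ulim

/-!
The small primes (helper82).
-/

set_option linter.unusedSectionVars false

namespace Pool.Agent.Lib.MP_6adaea_nt.S
open Matrix Polynomial G

lemma exists_factors {k : Type} [Field k] {s : k[X]} (hs : s.Monic) (hs' : Squarefree s) :
    ∃ (ι : Type) (_ : Fintype ι) (P : ι → k[X]), (∀ i, Irreducible (P i)) ∧
      (Pairwise fun i j => IsCoprime (P i) (P j)) ∧ ∏ i, P i = s := by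
  classical
  open UniqueFactorizationMonoid in
  have h1 : ∀ i : (normalizedFactors s).toFinset, Irreducible i.1 := fun i =>
    irreducible_of_normalized_factor _ (Multiset.mem_toFinset.1 i.2)
  open UniqueFactorizationMonoid in
  refine ⟨(normalizedFactors s).toFinset, inferInstance, fun i => i.1, h1, fun i j hij => ?_, ?_⟩
  · refine (h1 i).coprime_iff_not_dvd.2 fun h => hij (Subtype.ext ?_)
    exact UniqueFactorizationMonoid.normalizedFactors_eq_of_dvd s _ (Multiset.mem_toFinset.1 i.2) _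
      (Multiset.mem_toFinset.1 j.2) h
  · rw [Finset.prod_coe_sort _ fun x => x, Finset.prod, Multiset.map_id', Multiset.toFinset_val,
      Multiset.dedup_eq_self.2 ((UniqueFactorizationMonoid.squarefree_iff_nodup_normalizedFactors
        hs.ne_zero).1 hs'), UniqueFactorizationMonoid.prod_normalizedFactors_eq hs.ne_zero,
      hs.normalize_eq_self]

lemma unit_of_cong {ι : Type} {κ : ι → Type} [∀ i, Field (κ i)] {x : RR κ}
    (h : pi0 κ ∣ x - 1) : IsUnit x := by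
  obtain ⟨y, hy⟩ := h
  refine Pi.isUnit_iff.2 fun i => PowerSeries.isUnit_iff_constantCoeff.2 ?_
  rw [eq_add_of_sub_eq hy]
  simp

variable {n : Type} [Fintype n] [DecidableEq n]

lemma Cong.det {R : Type} [CommRing R] {v : R} {A B : Matrix n n R} (h : Cong v A B) :
    v ∣ A.det - B.det := by
  rw [← Ideal.mem_span_singleton, ← Ideal.Quotient.eq, RingHom.map_det, RingHom.map_det]
  congr 1
  ext i j
  exact Ideal.Quotient.eq.2 (Ideal.mem_span_singleton.2 (h i j))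

lemma Cong.map {R S : Type} [CommRing R] [CommRing S] (f : R →+* S) {v : R} {A B : Matrix n n R}
    (h : Cong v A B) : Cong (f v) (A.map f) (B.map f) := fun i j => by
  simpa using map_dvd f (h i j)

lemma Jet.xcong {ι : Type} [Fintype ι] {κ : ι → Type} [∀ i, Field (κ i)] {F : Type} [Field F]
    {f g : RR κ →+* PowerSeries F} {δ : RR κ → PowerSeries F} (h : Jet f g δ) (hf : Good f)
    (hg : Good g) (m : ℕ) {A B : Matrix n n (RR κ)} (hc : Cong (pi0 κ ^ (2 * m)) A B) :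
    U.XCong m (h.hat A) (h.hat B) := by
  intro x y
  obtain ⟨z, hz⟩ := hc x.1 y.1
  have e : h.hat A x y - h.hat B x y = h.hom (pi0 κ ^ m * (pi0 κ ^ m * z)) x.2 y.2 := by
    rw [← mul_assoc, ← pow_add, ← two_mul, ← hz, map_sub]
    rfl
  have key : ∀ a b : Fin 2, (PowerSeries.X : PowerSeries F) ^ m ∣
      h.hom (pi0 κ ^ m * (pi0 κ ^ m * z)) a b := by
    simp only [Fin.forall_fin_two]
    refine ⟨⟨good_dvd hf m (dvd_mul_right _ _), dvd_zero _⟩, ?_, good_dvd hg m (dvd_mul_right _ _)⟩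
    show _ ∣ δ _
    rw [h.mul]
    exact ((good_dvd hf m (dvd_mul_right _ _)).mul_left _).add
      ((good_dvd hg m dvd_rfl).mul_right _)
  rw [e]
  exact key _ _

variable {k ι : Type} [Field k] [Finite k] [Fintype ι] {P : ι → k[X]}
  [∀ i, Fact (Irreducible (P i))]

lemma Jet.hat_emb {F : Type} [Field F] [Algebra k F] {f g : RR (kap P) →+* PowerSeries F}
    {δ : RR (kap P) → PowerSeries F} (h : Jet f g δ) (hf : Lin P f) (hg : Lin P g)
    (h1 : δ (emb P X) = 1) (h0 : ∀ c : k, δ (emb P (C c)) = 0) (B : Matrix n n k[X]) :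
    U.hat ![f (emb P X), g (emb P X)] (U.pmap (algebraMap k (PowerSeries F)) B) =
      h.hat (B.map (emb P)) := by
  have e : (aeval (U.cm ![f (emb P X), g (emb P X)]) :
      (PowerSeries F)[X] →ₐ[PowerSeries F] _).toRingHom.comp
      (mapRingHom (algebraMap k (PowerSeries F))) = h.hom.comp (emb P) := by
    refine Polynomial.ringHom_ext (fun c => ?_) ?_
    · ext1 a b
      fin_cases a <;> fin_cases b <;> simp [Jet.hom, hf c, hg c, h0 c, algebraMap_matrix_apply]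
    · simp [Jet.hom, h1, U.cm]
  ext1 x y
  exact congrFun (congrFun (DFunLike.congr_fun e (B x.1 y.1)) x.2) y.2

lemma proj_surj {b : k[X]} {π : RR (kap P) →+* AdjoinRoot b}
    (h : ∀ a, π (emb P a) = AdjoinRoot.mk b a) : Function.Surjective π := fun y => by
  obtain ⟨x, rfl⟩ := AdjoinRoot.mk_surjective y
  exact ⟨_, h x⟩

lemma exists_lifted (hP : Pairwise fun i j => IsCoprime (P i) (P j)) {a : k[X]} (ha : a ≠ 0)
    (H : Subgroup (GL n (AdjoinRoot a))) {m : ℕ} (hm : (∏ i, P i) ^ m ∣ a) {C : ℕ}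
    (hC : (H.map GeneralLinearGroup.det).index ≤ C) :
    ∃ K : Subgroup (GL n (RR (kap P))),
      (∀ g ∈ K, ∃ B ∈ U.Lifts H, Cong (pi0 _ ^ m) g.val (B.map (emb P))) ∧
      (1 ≤ m → ∀ B ∈ U.Lifts H, ∃ g ∈ K, g.val = B.map (emb P)) ∧
      (1 ≤ m → ∀ u : Fin (C + 1) → (RR (kap P))ˣ, ∃ l l', l ≠ l' ∧ ∃ g ∈ K,
        pi0 (kap P) ^ m ∣ (u l : RR (kap P)) - u l' * g.val.det) := by
  obtain ⟨π, h1, h2⟩ := exists_proj P hP m
  have hl : ∀ h : GL n (AdjoinRoot a), ∃ B : Matrix n n k[X], B.map (AdjoinRoot.mk a) = h.val :=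
    fun h => by
      choose B hB using fun i j => AdjoinRoot.mk_surjective (h.val i j)
      exact ⟨Matrix.of B, Matrix.ext hB⟩
  have hr : ∀ (h : GL n (AdjoinRoot a)) (B : Matrix n n k[X]), B.map (AdjoinRoot.mk a) = h.val →
      (B.map (emb P)).map π = (red (fac hm) h).val := fun h B hB => by
    ext i j
    rw [red_val, ← hB]
    simp [h1]
  have h3 : 1 ≤ m → ∀ h ∈ H, ∀ B : Matrix n n k[X], B.map (AdjoinRoot.mk a) = h.val →
      ∃ g : GL n (RR (kap P)), red π g = red (fac hm) h ∧ g.val = B.map (emb P) := by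
    intro h0 h hh B hB
    have e : IsUnit (π (B.map (emb P)).det) := by
      rw [RingHom.map_det, RingHom.mapMatrix_apply, hr h B hB]
      exact (GeneralLinearGroup.det (red (fac hm) h)).isUnit
    obtain ⟨y, hy⟩ := e.exists_right_inv
    obtain ⟨z, rfl⟩ := proj_surj h1 y
    have e2 : IsUnit (B.map (emb P)) := (isUnit_iff_isUnit_det _).2 (isUnit_of_mul_isUnit_left
      (unit_of_cong (x := _ * z) ((dvd_pow_self _ (by omega)).trans
        ((h2 _).1 (by rw [map_sub, map_mul, hy, map_one, sub_self])))))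
    exact ⟨e2.unit, Units.ext (hr h B hB), rfl⟩
  refine ⟨(H.map (red (fac hm))).comap (red π), ?_, ?_, ?_⟩
  · rintro g ⟨h, hh, e⟩
    obtain ⟨B, hB⟩ := hl h
    refine ⟨B, ⟨h, hh, hB⟩, fun i j => (h2 _).1 ?_⟩
    have := congrFun (congrFun ((hr h B hB).trans (congrArg Units.val e)) i) j
    rw [map_sub, sub_eq_zero]
    exact this.symm
  · rintro h0 B ⟨h, hh, hB⟩
    obtain ⟨g, hg, e⟩ := h3 h0 h hh B hB
    exact ⟨g, ⟨h, hh, hg.symm⟩, e⟩
  · intro h0 u
    have := finite_adjoinRoot ha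
    have := finite_adjoinRoot (ne_zero_of_dvd_ne_zero ha hm)
    set D := (H.map (red (fac hm))).map GeneralLinearGroup.det with hD
    have h4 : D.index ≤ C := (index_det_map_le (fac_units_surjective ha hm) H).trans hC
    have := Fintype.ofFinite (_ ⧸ D)
    obtain ⟨l', l, hne, e⟩ := Fintype.exists_ne_map_eq_of_card_lt
      (fun l => (QuotientGroup.mk (Units.map π.toMonoidHom (u l)) : _ ⧸ D)) (by
        rw [← Nat.card_eq_fintype_card, Fintype.card_fin]
        exact Nat.lt_succ_of_le h4)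
    obtain ⟨_, ⟨h, hh, rfl⟩, e'⟩ := QuotientGroup.eq.1 e
    obtain ⟨B, hB⟩ := hl h
    obtain ⟨g, hg, -⟩ := h3 h0 h hh B hB
    refine ⟨l, l', hne.symm, g, ⟨h, hh, hg.symm⟩, (h2 _).1 ?_⟩
    have e3 := congrArg Units.val (eq_inv_mul_iff_mul_eq.1 e')
    rw [← hg] at e3
    rw [map_sub, map_mul, ← red_det, sub_eq_zero]
    exact e3.symm

end Pool.Agent.Lib.MP_6adaea_nt.S

namespace Pool.Agent.Lib.MP_6adaea_nt.U
open Matrix Polynomial G
open scoped TensorProduct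

open Filter

theorem small_group (k kb : Type) [Field k] [Finite k] [Field kb] [Algebra k kb] [IsAlgClosed kb]
    [Algebra.IsAlgebraic k kb] {n : Type} [Fintype n] [DecidableEq n] [Nontrivial n] (C : ℕ)
    (a : ℕ → k[X]) (H : ∀ i, Subgroup (GL n (AdjoinRoot (a i)))) (hm : ∀ i, (a i).Monic)
    (hdiv : ∀ b : k[X], b ≠ 0 → ∀ᶠ i in atTop, b ∣ a i)
    (hdet : ∀ i, ((H i).map GeneralLinearGroup.det).index ≤ C) (hthick : ThickHyp k kb a H)
    (s : k[X]) (hs : s.Monic) (hs' : Squarefree s) :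
    ∃ c : ℕ, ∃ᶠ i in atTop, ∀ (b : k[X]) (hb : b ∣ a i), (∃ e, b ∣ s ^ e) →
      Roots ((H i).map (red (fac hb))) {x | AdjoinRoot.mk b (s ^ c) ∣ x} := by
  classical
  obtain ⟨ι, _, P, hI, hP, rfl⟩ := S.exists_factors hs hs'
  have : ∀ i, Fact (Irreducible (P i)) := fun i => ⟨hI i⟩
  have : ∀ i, Finite (S.kap P i) := fun i => finite_adjoinRoot (hI i).ne_zero
  let m : ℕ → ℕ := fun i => Nat.findGreatest (fun e => (∏ j, P j) ^ e ∣ a i) i
  have hm1 : ∀ i, (∏ j, P j) ^ m i ∣ a i := fun i =>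
    Nat.findGreatest_spec (P := fun e => (∏ j, P j) ^ e ∣ a i) (Nat.zero_le i) (by simp)
  let V : Ultrafilter ℕ := Ultrafilter.of atTop
  have hV : (V : Filter ℕ) ≤ atTop := Ultrafilter.of_le _
  have hm2 : ∀ N, ∀ᶠ i in (V : Filter ℕ), N ≤ m i := fun N =>
    (((hdiv _ (pow_ne_zero N hs.ne_zero)).and (eventually_ge_atTop N)).mono fun i hi =>
      Nat.le_findGreatest hi.2 hi.1).filter_mono hV
  choose K hK1 hK2 hK3 using fun i => S.exists_lifted hP (hm i).ne_zero (H i) (hm1 i) (hdet i)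
  obtain ⟨Γ, hΓ⟩ := S.ulim (S.kap P) V K
  have hD : S.Den P kb Γ := by
    intro f g κ h hf hg lf lg h1 h0 hA d
    by_contra hc
    obtain ⟨e, he⟩ := hthick _ hA (Γ.toSubmonoid.map (h.hat.toMonoidHom.comp (Units.coeHom _)))
      (by rintro _ ⟨γ, -, rfl⟩; exact γ.isUnit.map h.hat) d fun hd => hc (by
        convert hd using 1
        ext y
        exact ⟨fun ⟨γ, hγ, e⟩ => ⟨γ, hγ, e.symm⟩, fun ⟨γ, hγ, e⟩ => ⟨γ, hγ, e.symm⟩⟩)
    obtain ⟨i, ⟨_, ⟨B, hB, rfl⟩, h2⟩, h3, h4⟩ :=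
      ((he.filter_mono hV).and ((hm2 1).and (hΓ (2 * e)))).exists
    obtain ⟨g', hg', e1⟩ := hK2 i h3 B hB
    obtain ⟨γ, hγ, e2⟩ := h4.2 g' hg'
    refine h2 _ ⟨γ, hγ, rfl⟩ ?_
    rw [h.hat_emb lf lg h1 h0, ← e1]
    exact h.xcong hf hg e e2.symm
  obtain ⟨c, N, hc⟩ := hD.core hP C fun N u => by
    obtain ⟨i, h1, h2, h3⟩ := ((hm2 1).and ((hm2 N).and (hΓ N))).exists
    obtain ⟨l, l', hl, g, hg, e⟩ := hK3 i h1 u
    obtain ⟨γ, hγ, e2⟩ := h3.2 g hg
    refine ⟨l, l', hl, γ, hγ, ?_⟩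
    convert ((pow_dvd_pow _ h2).trans e).sub (e2.det.mul_left (u l')) using 1
    ring
  refine ⟨c, ((((hm2 N).and (hΓ N)).mono ?_).frequently).filter_mono hV⟩
  rintro i ⟨h1, h2, -⟩ b hb ⟨e, he⟩
  obtain ⟨π, h3, -⟩ := S.exists_proj P hP e
  obtain ⟨u, hu⟩ := S.emb_pi P hP
  have h4 : ∀ x, ((fac he).comp π) (S.emb P x) = AdjoinRoot.mk b x := fun x => by simp [h3]
  generalize (fac he).comp π = π' at h4
  have h5 : AdjoinRoot.mk b (∏ j, P j) = π' u * π' (S.pi0 _) := by rw [← h4, hu, map_mul]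
  refine (hc _ π' (S.proj_surj h4) ⟨e, ?_⟩ _ fun γ hγ => ?_).mono fun x hx => ?_
  · have h6 : (π' u * π' (S.pi0 _)) ^ e = 0 := by
      rw [← h5, ← map_pow, AdjoinRoot.mk_eq_zero]
      exact he
    rw [mul_pow] at h6
    exact ((u.isUnit.map π').pow e).mul_right_eq_zero.1 h6
  · obtain ⟨g, hg, e1⟩ := h2 γ hγ
    obtain ⟨B, ⟨h, hh, hB⟩, e2⟩ := hK1 i g hg
    refine ⟨_, Subgroup.mem_map_of_mem _ hh, ?_⟩
    convert (e1.trans (e2.of_dvd (pow_dvd_pow _ h1))).map π' using 1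
    ext u v
    rw [red_val, ← hB]
    simp [h4]
  · refine Dvd.dvd.trans ?_ hx
    rw [map_pow, h5, mul_pow]
    exact dvd_mul_left _ _

end Pool.Agent.Lib.MP_6adaea_nt.U
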