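import Pool.Agent.Lib.MP_6adaea_nt.U.Defs2
import Pool.Agent.Lib.MP_6adaea_nt.U.Valu

/-!
Tensor products with a finite algebra.
-/

set_option linter.unusedSectionVars false

namespace Pool.Agent.Lib.MP_6adaea_nt.U
open Matrix Polynomial G
open scoped TensorProduct

variable {kb K Ω : Type} [Field kb] [Field K] [Field Ω] [Algebra kb K] [Algebra kb Ω]
  [Algebra K Ω] [IsScalarTower kb K Ω] {S : Type} [CommRing S] [Algebra kb S]


theorem cf_tmul {A : Type} [Field A] [Algebra kb A] (l : S →ₗ[kb] kb) (x : A) (s : S) :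
    cf A l (x ⊗ₜ s) = l s • x := by
  simp [cf]

theorem act_tmul {A A' : Type} [Field A] [Field A'] [Algebra kb A] [Algebra kb A']
    (f : A →ₐ[kb] A') (x : A) (s : S) : act S f (x ⊗ₜ s) = f x ⊗ₜ s := rfl

theorem inc_tmul (x : K) (s : S) : inc S K Ω (x ⊗ₜ s) = algebraMap K Ω x ⊗ₜ[kb] s := rfl

theorem gal_tmul (σ : Ω ≃ₐ[K] Ω) (x : Ω) (s : S) : gal kb S σ (x ⊗ₜ s) = σ x ⊗ₜ s := rfl

theorem cf_act {A A' : Type} [Field A] [Field A'] [Algebra kb A] [Algebra kb A']
    (f : A →ₐ[kb] A') (l : S →ₗ[kb] kb) (x : A ⊗[kb] S) : cf A' l (act S f x) = f (cf A l x) := by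
  induction x using TensorProduct.induction_on with
  | zero => simp
  | tmul x s => rw [act_tmul, cf_tmul, cf_tmul, map_smul]
  | add x y hx hy => simp only [map_add, hx, hy]

theorem sum_cf {A : Type} [Field A] [Algebra kb A] {ι : Type} [Fintype ι]
    (b : Module.Basis ι kb S) (x : A ⊗[kb] S) : x = ∑ i, cf A (b.coord i) x ⊗ₜ b i := by
  induction x using TensorProduct.induction_on with
  | zero => simp
  | tmul x s =>
    simp only [cf_tmul, TensorProduct.smul_tmul, Module.Basis.coord_apply]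
    rw [← TensorProduct.tmul_sum, b.sum_repr]
  | add x y hx hy =>
    simp only [map_add, TensorProduct.add_tmul, Finset.sum_add_distrib]
    rw [← hx, ← hy]

theorem eq_of_cf {A : Type} [Field A] [Algebra kb A] {x y : A ⊗[kb] S}
    (h : ∀ l : S →ₗ[kb] kb, cf A l x = cf A l y) : x = y := by
  let b := Module.Free.chooseBasis kb S
  have key : ∀ (z : A ⊗[kb] S) i,
      (Algebra.TensorProduct.basis A b).repr z i = cf A (b.coord i) z := by
    intro z i
    induction z using TensorProduct.induction_on with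
    | zero => simp
    | tmul x s =>
      rw [cf_tmul, Algebra.TensorProduct.basis_repr_tmul]
      simp [Algebra.smul_def, mul_comm]
    | add x y hx hy => simp only [map_add, Finsupp.add_apply, hx, hy]
  exact (Algebra.TensorProduct.basis A b).ext_elem fun i => by rw [key, key, h]

theorem act_injective {A A' : Type} [Field A] [Field A'] [Algebra kb A] [Algebra kb A']
    (f : A →ₐ[kb] A') : Function.Injective (act S f) := by
  intro x y h
  refine eq_of_cf fun l => f.toRingHom.injective ?_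
  change f _ = f _
  rw [← cf_act, ← cf_act, h]

theorem one_tmul_injective (A : Type) [Field A] [Algebra kb A] :
    Function.Injective fun s : S => (1 ⊗ₜ s : A ⊗[kb] S) := by
  exact Algebra.TensorProduct.includeRight_injective (algebraMap kb A).injective

theorem gal_inc (σ : Ω ≃ₐ[K] Ω) (x : K ⊗[kb] S) : gal kb S σ (inc S K Ω x) = inc S K Ω x := by
  induction x using TensorProduct.induction_on with
  | zero => simp
  | tmul x s => rw [inc_tmul, gal_tmul, AlgEquiv.commutes]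
  | add x y hx hy => simp only [map_add, hx, hy]

variable [Module.Finite kb S]

theorem exists_inc [IsGalois K Ω] {x : Ω ⊗[kb] S} (h : ∀ σ : Ω ≃ₐ[K] Ω, gal kb S σ x = x) :
    ∃ y, inc S K Ω y = x := by
  let b := Module.finBasis kb S
  have hc : ∀ i, ∃ c : K, algebraMap K Ω c = cf Ω (b.coord i) x := fun i => by
    refine (InfiniteGalois.mem_range_algebraMap_iff_fixed _).mpr fun σ => ?_
    have := cf_act ((σ : Ω →ₐ[K] Ω).restrictScalars kb) (b.coord i) x
    rw [show act S ((σ : Ω →ₐ[K] Ω).restrictScalars kb) x = x from h σ] at this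
    exact this.symm
  choose c hc using hc
  refine ⟨∑ i, c i ⊗ₜ b i, ?_⟩
  rw [map_sum]
  simp only [inc_tmul, hc]
  exact (sum_cf b x).symm

/-- `Ω ⊗ S` is Artinian; avoid finitely many proper `kb`-subspaces of `J → kb` -/
theorem exists_unit_comb [Infinite kb] {J : Type} [Fintype J] {Y : J → Ω ⊗[kb] S}
    (h : Ideal.span (Set.range Y) = ⊤) : ∃ c : J → kb, IsUnit (∑ j, c j • Y j) := by
  classical
  have : IsArtinianRing (Ω ⊗[kb] S) := IsArtinianRing.of_finite Ω _
  let φ : (J → kb) →ₗ[kb] Ω ⊗[kb] S := Fintype.linearCombination kb Y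
  let p : MaximalSpectrum (Ω ⊗[kb] S) → Submodule kb (J → kb) := fun M =>
    (M.asIdeal.restrictScalars kb).comap φ
  have hp : ∀ M, p M ≠ ⊤ := by
    intro M hM
    apply M.isMaximal.ne_top
    rw [eq_top_iff, ← h, Ideal.span_le]
    rintro _ ⟨j, rfl⟩
    have : Pi.single j 1 ∈ p M := hM ▸ Submodule.mem_top
    simpa [p, φ] using this
  obtain ⟨c, hc⟩ := Submodule.exists_forall_notMem_of_forall_ne_top p hp
  refine ⟨c, ?_⟩
  by_contra hu
  obtain ⟨M, hM, hm⟩ := exists_max_ideal_of_mem_nonunits hu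
  exact hc ⟨M, hM⟩ hm

variable {V : Val kb Ω}

theorem Val.gge_iff {ι : Type} [Fintype ι] (b : Module.Basis ι kb S) {x : Ω ⊗[kb] S} {a : ℚ} :
    V.GGe x a ↔ ∀ i, V.Ge (cf Ω (b.coord i) x) a := by
  refine ⟨fun h i => h _, fun h l => ?_⟩
  rw [sum_cf b x, map_sum]
  refine Val.Ge.sum fun i _ => ?_
  rw [cf_tmul, Algebra.smul_def]
  simpa using (Val.ge_const (V := V) (l (b i))).mul (h i)

theorem Val.GGe.mono {x : Ω ⊗[kb] S} {a a' : ℚ} (h : V.GGe x a) (ha : a' ≤ a) : V.GGe x a' :=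
  fun l => (h l).mono ha

theorem Val.GGe.add {x y : Ω ⊗[kb] S} {a : ℚ} (hx : V.GGe x a) (hy : V.GGe y a) :
    V.GGe (x + y) a := by
  intro l
  rw [map_add]
  exact (hx l).add (hy l)

theorem Val.gge_tmul {x : Ω} {a : ℚ} (h : V.Ge x a) (s : S) : V.GGe (x ⊗ₜ[kb] s) a := by
  intro l
  rw [cf_tmul, Algebra.smul_def]
  simpa using (Val.ge_const (V := V) (l s)).mul h

theorem Val.GGe.mul {x y : Ω ⊗[kb] S} {a a' : ℚ} (hx : V.GGe x a) (hy : V.GGe y a') :
    V.GGe (x * y) (a + a') := by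
  let b := Module.finBasis kb S
  intro l
  rw [sum_cf b x, sum_cf b y, Finset.sum_mul_sum, map_sum]
  refine Val.Ge.sum fun i _ => ?_
  rw [map_sum]
  refine Val.Ge.sum fun j _ => ?_
  rw [Algebra.TensorProduct.tmul_mul_tmul]
  exact Val.gge_tmul ((hx _).mul (hy _)) _ l

theorem gge_ae [IsAlgClosed kb] [IsGalois K Ω] (hK : FF kb K) (x : Ω ⊗[kb] S) :
    {v : Place kb K | ∃ V : Val kb Ω, V.Over v ∧ ¬V.GGe x 0}.Finite := by
  let b := Module.finBasis kb S
  refine (Set.finite_iUnion fun i => val_ae hK (cf Ω (b.coord i) x)).subset ?_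
  rintro v ⟨V, hV, hx⟩
  rw [Val.gge_iff b, not_forall] at hx
  obtain ⟨i, hi⟩ := hx
  exact Set.mem_iUnion.mpr ⟨i, V, hV, fun h => hi (Or.inr h.ge)⟩

theorem tens_coord {m : ℕ} (i : Fin m) : (Pi.basisFun kb (Fin m)).coord i = LinearMap.proj i := by
  ext j
  simp

theorem tens_ext {A : Type} [Field A] [Algebra kb A] {m : ℕ} {x y : A ⊗[kb] (Fin m → kb)}
    (h : ∀ i, cf A (LinearMap.proj i) x = cf A (LinearMap.proj i) y) : x = y := by
  rw [sum_cf (Pi.basisFun kb (Fin m)) x, sum_cf (Pi.basisFun kb (Fin m)) y]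
  simp only [tens_coord, h]

theorem tens_one {A : Type} [Field A] [Algebra kb A] {m : ℕ} (i : Fin m) :
    cf A (LinearMap.proj i) (1 : A ⊗[kb] (Fin m → kb)) = 1 := by
  rw [Algebra.TensorProduct.one_def, cf_tmul]
  simp

theorem tens_mul {A : Type} [Field A] [Algebra kb A] {m : ℕ} (i : Fin m)
    (x y : A ⊗[kb] (Fin m → kb)) :
    cf A (LinearMap.proj i) (x * y) = cf A (LinearMap.proj i) x * cf A (LinearMap.proj i) y := by
  induction x using TensorProduct.induction_on with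
  | zero => simp
  | add x x' hx hx' => simp only [add_mul, map_add, hx, hx']
  | tmul x s =>
    induction y using TensorProduct.induction_on with
    | zero => simp
    | add y y' hy hy' => simp only [mul_add, map_add, hy, hy']
    | tmul y s' =>
      rw [Algebra.TensorProduct.tmul_mul_tmul, cf_tmul, cf_tmul, cf_tmul, smul_mul_smul_comm]
      rfl

theorem tens_diag {A : Type} [Field A] [Algebra kb A] {m : ℕ} (i : Fin m) (c : Fin m → A) :
    cf A (LinearMap.proj i) (∑ j, c j ⊗ₜ[kb] (Pi.single j 1 : Fin m → kb)) = c i := by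
  rw [map_sum, Finset.sum_eq_single i]
  · rw [cf_tmul]; simp
  · intro j _ hj
    rw [cf_tmul]; simp [Pi.single_eq_of_ne' hj]
  · simp

/-- take `u = ∑ π ^ (n i) ⊗ e i` -/
theorem lat_pi {m : ℕ} (i0 : Fin m) {z z' : Ω ⊗[kb] (Fin m → kb)} (hz : z * z' = 1)
    {η : Place kb K →₀ ℚ} (h0 : ∀ v, 0 ≤ η v)
    (h : ∀ v i, ∃ n : ℤ, ∀ V : Val kb Ω, V.Over v →
      |V.ord (cf Ω (LinearMap.proj i) z) - V.ord (cf Ω (LinearMap.proj i0) z) - n| ≤ η v) :
    Lat z z' η := by
  classical
  refine ⟨h0, fun v => ?_⟩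
  choose n hn using h v
  obtain ⟨t, ht0, ht1⟩ := v.surj
  refine ⟨∑ i, (t ^ n i) ⊗ₜ Pi.single i 1, ∑ i, (t ^ (-n i)) ⊗ₜ Pi.single i 1, ?_,
    fun V hV => ?_⟩
  · refine tens_ext fun i => ?_
    rw [tens_mul, tens_diag, tens_diag, tens_one, ← zpow_add₀ ht0, add_neg_cancel, zpow_zero]
  refine ⟨V.ord (cf Ω (LinearMap.proj i0) z), ?_, ?_⟩
  all_goals
    refine (Val.gge_iff (Pi.basisFun kb (Fin m))).mpr fun i => ?_
    have hzz : cf Ω (LinearMap.proj i) z * cf Ω (LinearMap.proj i) z' = 1 := by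
      rw [← tens_mul, hz, tens_one]
    have h1 := left_ne_zero_of_mul_eq_one hzz
    have h2 := right_ne_zero_of_mul_eq_one hzz
    have h3 := V.ord_mul h1 h2
    rw [hzz, Val.ord_one] at h3
    have h4 : ∀ k : ℤ, algebraMap K Ω (t ^ k) ≠ 0 := fun k =>
      (_root_.map_ne_zero _).mpr (zpow_ne_zero _ ht0)
    have h5 : ∀ k : ℤ, V.ord (algebraMap K Ω (t ^ k)) = k := fun k => by
      rw [hV, v.ord_zpow, ht1, mul_one]
    have h6 := abs_le.mp (hn i V hV)
    rw [tens_coord, tens_mul, inc, cf_act, tens_diag]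
    refine Or.inr ?_
    change _ ≤ V.ord (_ * algebraMap K Ω _)
  · rw [V.ord_mul h1 (h4 _), h5]
    push_cast
    linarith [h6.1]
  · rw [V.ord_mul h2 (h4 _), h5]
    linarith [h6.2]

end Pool.Agent.Lib.MP_6adaea_nt.U
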