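import Pool.Agent.Lib.MP_6adaea_nt.U.Win
import Pool.Agent.Lib.MP_6adaea_nt.U.Rp
import Pool.Agent.Lib.MP_6adaea_nt.U.PL

/-!
Density at the large primes.
-/

set_option linter.unusedSectionVars false

namespace Pool.Agent.Lib.MP_6adaea_nt.U
open Matrix Polynomial G
open scoped TensorProduct

variable {k kb K Ω : Type} [Field k] [Finite k] [Field kb] [Field K] [Field Ω] [Algebra k kb]
  [Algebra k K] [Algebra k Ω] [Algebra kb K] [Algebra kb Ω] [Algebra K Ω]
  [IsScalarTower k kb K] [IsScalarTower k kb Ω] [IsScalarTower k K Ω] [IsScalarTower kb K Ω]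
  [IsAlgClosed kb] [Algebra.IsAlgebraic k kb] [IsSepClosed Ω] [IsGalois K Ω] {θ : K} {r : ℕ}

private theorem Thin_diag {A R : Type} [Field R] [CommRing A] [Algebra R A] (x : A)
    (t : Fin 2 → A) (ht : ∀ l, t l = x) (f : R2 R) :
    MvPolynomial.aeval t f =
      Polynomial.aeval x (MvPolynomial.aeval (fun _ : Fin 2 => (X : Polynomial R)) f) := by
  have h : (MvPolynomial.aeval t : R2 R →ₐ[R] A) =
      (Polynomial.aeval x).comp (MvPolynomial.aeval fun _ : Fin 2 => (X : Polynomial R)) := by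
    ext l
    simp [ht]
  rw [h]
  rfl

private theorem Thin_gp {R : Type} [Field R] [Algebra kb R] (f : R2 R) :
    gp R (![PowerSeries.X, PowerSeries.X] : Fin 2 → PowerSeries kb) f = 0 ↔
      MvPolynomial.aeval (fun _ : Fin 2 => (X : Polynomial R)) f = 0 := by
  have h := Thin_diag (PowerSeries.X : PowerSeries R)
    (fun i => PowerSeries.map (algebraMap kb R)
      ((![PowerSeries.X, PowerSeries.X] : Fin 2 → PowerSeries kb) i))
    (fun l => by fin_cases l <;> simp) f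
  have h2 : ∀ p : Polynomial R, Polynomial.aeval (PowerSeries.X : PowerSeries R) p = ↑p :=
    fun p => by rw [← Polynomial.eval₂_C_X_eq_coe, aeval_def]; rfl
  rw [gp, h, h2, Polynomial.coe_eq_zero_iff]

private theorem Thin_adm :
    Adm k (![PowerSeries.X, PowerSeries.X] : Fin 2 → PowerSeries kb) := by
  refine ⟨fun i c h => ?_, Or.inl rfl⟩
  have h1 : (PowerSeries.X : PowerSeries kb) = PowerSeries.C c := by
    fin_cases i <;> exact h
  have h2 := congrArg (PowerSeries.coeff 1) h1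
  simp at h2

private theorem Thin_ne {P : k[X]} (hP : Irreducible P) {ζ : kb} (hζ : aeval ζ P = 0) {a b : ℕ}
    (hab : a < b) (hb : b < P.natDegree) : ζ ^ Nat.card k ^ a ≠ ζ ^ Nat.card k ^ b := by
  intro h
  obtain ⟨c, rfl⟩ := Nat.exists_eq_add_of_lt hab
  have h1 : (G.frob k kb ^ a) ζ = (G.frob k kb ^ a) (ζ ^ Nat.card k ^ (c + 1)) := by
    rw [frob_pow_apply, frob_pow_apply, h, ← pow_mul, ← pow_add]
    congr 2
    omega
  have h2 : ζ = ζ ^ Nat.card k ^ (c + 1) := (G.frob k kb ^ a : kb →ₐ[k] kb).injective h1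
  have h3 : P ∣ X ^ Nat.card k ^ (c + 1) - X := by
    rw [← hP.dvd_iff_aeval_eq_zero hζ, map_sub, map_pow, aeval_X, ← h2, sub_self]
  have h4 := Nat.le_of_dvd (Nat.succ_pos c) (hP.natDegree_dvd_of_dvd_X_pow_card_pow_sub_X h3)
  omega

private theorem Thin_dvd {a P : k[X]} (h : P ^ 2 ∣ a) {ζ : kb} (hζ : aeval ζ P = 0) :
    qd ![ζ, ζ] ∣ a.map (algebraMap k kb) := by
  have h1 : X - C ζ ∣ P.map (algebraMap k kb) := by
    rw [dvd_iff_isRoot, IsRoot.def, eval_map_algebraMap, hζ]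
  have h2 : qd ![ζ, ζ] = (X - C ζ) ^ 2 := by simp [qd, sq]
  rw [h2]
  refine (pow_dvd_pow_of_dvd h1 2).trans ?_
  rw [← Polynomial.map_pow]
  exact Polynomial.map_dvd _ h

private theorem Thin_map {S S' n : Type} [CommRing S] [CommRing S'] [Fintype n] [DecidableEq n]
    (f : S →+* S') (M : ℕ) (t : Fin 2 → S) (A : Matrix n n (Polynomial S)) (w : JJ n M → S)
    (j : JJ n M) : (rep M (fun l => f (t l)) (pmap f A) *ᵥ fun j => f (w j)) j =
      f ((rep M t A *ᵥ w) j) := by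
  rw [← rep_map, RingHom.map_mulVec]
  rfl

/-- the componentwise Frobenius twists -/
private noncomputable def Thin_Phi (k kb : Type) [Field k] [Finite k] [Field kb] [Algebra k kb]
    (s m : ℕ) : kb →+* (Fin m → kb) :=
  RingHom.pi fun i => ((G.frob k kb ^ (s * i) : kb →ₐ[k] kb) : kb →+* kb)

private theorem Thin_Phi_apply (s m : ℕ) (x : kb) (i : Fin m) :
    Thin_Phi k kb s m x i = x ^ Nat.card k ^ (s * i) := frob_pow_apply _ _

private theorem Thin_Phi_comp (s m : ℕ) :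
    (Thin_Phi k kb s m).comp (algebraMap k kb) = algebraMap k (Fin m → kb) := by
  ext x i
  exact (G.frob k kb ^ (s * i) : kb →ₐ[k] kb).commutes x

private theorem Thin_eig (s m : ℕ) {M : ℕ} {t : Fin 2 → kb} {w : JJ (Fin r) M → kb}
    {B : Matrix (Fin r) (Fin r) k[X]} {χ : kb}
    (h : rep M t (pmap (algebraMap k kb) B) *ᵥ w = χ • w) :
    rep M (fun l => Thin_Phi k kb s m (t l)) (pmap (algebraMap k (Fin m → kb)) B) *ᵥ
      (fun j => Thin_Phi k kb s m (w j)) =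
        Thin_Phi k kb s m χ • fun j => Thin_Phi k kb s m (w j) := by
  funext j
  rw [← Thin_Phi_comp s m, ← pmap_pmap, Thin_map, h, Pi.smul_apply, Pi.smul_apply, smul_eq_mul,
    smul_eq_mul, map_mul]

/-- the projection of `Ω ⊗ (Fin m → kb)` to one factor -/
private noncomputable def Thin_pr (kb Ω : Type) [Field kb] [Field Ω] [Algebra kb Ω] {m : ℕ}
    (i : Fin m) : Ω ⊗[kb] (Fin m → kb) →ₐ[kb] Ω :=
  Algebra.TensorProduct.productMap (AlgHom.id kb Ω)
    ((Algebra.ofId kb Ω).comp (Pi.evalAlgHom kb (fun _ : Fin m => kb) i))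

private theorem Thin_pr_tmul {m : ℕ} (i : Fin m) (x : Ω) (u : Fin m → kb) :
    Thin_pr kb Ω i (x ⊗ₜ u) = x * algebraMap kb Ω (u i) := rfl

private theorem Thin_pr_cf {m : ℕ} (i : Fin m) (z : Ω ⊗[kb] (Fin m → kb)) :
    cf Ω (LinearMap.proj i) z = Thin_pr kb Ω i z := by
  induction z using TensorProduct.induction_on with
  | zero => simp
  | tmul x u => rw [cf_tmul, Thin_pr_tmul, Algebra.smul_def, mul_comm]; rfl
  | add x y hx hy => rw [map_add, map_add, hx, hy]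

private theorem Thin_pr_gal {m : ℕ} (i : Fin m) (σ : Ω ≃ₐ[K] Ω) (z : Ω ⊗[kb] (Fin m → kb)) :
    Thin_pr kb Ω i (gal kb (Fin m → kb) σ z) = σ (Thin_pr kb Ω i z) := by
  induction z using TensorProduct.induction_on with
  | zero => simp
  | tmul x u =>
    rw [gal_tmul, Thin_pr_tmul, Thin_pr_tmul, map_mul, IsScalarTower.algebraMap_apply kb K Ω,
      AlgEquiv.commutes]
  | add x y hx hy => rw [map_add, map_add, map_add, map_add, hx, hy]

private theorem Thin_pr_ev {m : ℕ} (i : Fin m) (t : Fin 2 → Fin m → kb) (Δ : R2 K) :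
    Thin_pr kb Ω i (inc (Fin m → kb) K Ω (evS kb K t Δ)) =
      algebraMap K Ω (MvPolynomial.aeval (fun l => algebraMap kb K (t l i)) Δ) := by
  induction Δ using MvPolynomial.induction_on with
  | C c =>
    rw [MvPolynomial.algHom_C, MvPolynomial.algHom_C, Algebra.TensorProduct.algebraMap_apply,
      inc_tmul, Thin_pr_tmul]
    simp
  | add p p' hp hp' => simp only [map_add, hp, hp']
  | mul_X p l hp =>
    simp only [map_mul, hp]
    congr 1
    rw [evS, MvPolynomial.aeval_X, MvPolynomial.aeval_X, inc_tmul, Thin_pr_tmul, map_one, one_mul,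
      ← IsScalarTower.algebraMap_apply]

private theorem Thin_pr_quot {m : ℕ} (i : Fin m) (z : Ω ⊗[kb] (Fin m → kb)) :
    Algebra.TensorProduct.map (AlgHom.id kb Ω)
      (Ideal.Quotient.mkₐ kb (RingHom.ker (Pi.evalRingHom (fun _ : Fin m => kb) i))) z =
      Thin_pr kb Ω i z ⊗ₜ 1 := by
  induction z using TensorProduct.induction_on with
  | zero => simp
  | tmul x u =>
    have h : Ideal.Quotient.mkₐ kb (RingHom.ker (Pi.evalRingHom (fun _ : Fin m => kb) i)) u =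
        u i • 1 := by
      rw [← map_one (Ideal.Quotient.mkₐ kb (RingHom.ker (Pi.evalRingHom (fun _ : Fin m => kb) i))),
        ← map_smul, Ideal.Quotient.mkₐ_eq_mk, Ideal.Quotient.eq, RingHom.mem_ker]
      simp
    rw [Algebra.TensorProduct.map_tmul, h, TensorProduct.tmul_smul, TensorProduct.smul_tmul',
      Thin_pr_tmul, Algebra.smul_def, mul_comm]
    rfl
  | add x y hx hy => rw [map_add, map_add, hx, hy, TensorProduct.add_tmul]

private theorem Thin_kill {s m Dg : ℕ} (hs : 0 < s) (hm : Dg < m) {P : k[X]} (hP : Irreducible P)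
    (hd : s * m ≤ P.natDegree) {ζ : kb} (hζ : aeval ζ P = 0) (Δ : R2 K) (hΔ : Δ.totalDegree ≤ Dg)
    (h0 : gp K (![PowerSeries.X, PowerSeries.X] : Fin 2 → PowerSeries kb) Δ ≠ 0) :
    ∃ i : Fin m, MvPolynomial.aeval
      (fun l => algebraMap kb K (Thin_Phi k kb s m (![ζ, ζ] l) i)) Δ ≠ 0 := by
  by_contra hc
  push Not at hc
  apply h0
  rw [Thin_gp]
  refine Polynomial.eq_zero_of_natDegree_lt_card_of_eval_eq_zero _
    (f := fun i : Fin m => algebraMap kb K (ζ ^ Nat.card k ^ (s * i))) ?_ ?_ ?_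
  · intro i j hij
    have h1 := (algebraMap kb K).injective hij
    have hlt : ∀ u : Fin m, s * u < P.natDegree := fun u =>
      lt_of_lt_of_le (Nat.mul_lt_mul_of_pos_left u.2 hs) hd
    rcases lt_trichotomy i j with h | h | h
    · exact absurd h1 (Thin_ne hP hζ (Nat.mul_lt_mul_of_pos_left h hs) (hlt j))
    · exact h
    · exact absurd h1.symm (Thin_ne hP hζ (Nat.mul_lt_mul_of_pos_left h hs) (hlt i))
  · intro i
    rw [← hc i, Thin_diag (algebraMap kb K (ζ ^ Nat.card k ^ (s * i))) _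
      (fun l => by fin_cases l <;> simp [Thin_Phi_apply]), coe_aeval_eq_eval]
  · have := MvPolynomial.aeval_natDegree_le Δ hΔ (fun _ : Fin 2 => (X : Polynomial K)) (n := 1)
      (fun _ => natDegree_X_le)
    rw [Fintype.card_fin]
    omega

private theorem Thin_elc (s m : ℕ) (i : Fin m) {M : ℕ} (t : Fin 2 → kb) (w : JJ (Fin r) M → kb)
    (a b : Fin r) (c0 c1 : kb) (j : JJ (Fin r) M) :
    (rep M (fun l => Thin_Phi k kb s m (t l))
      (elc (Fin m → kb) a b (Thin_Phi k kb s m c0 i) (Thin_Phi k kb s m c1 i)) *ᵥ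
        (fun j => Thin_Phi k kb s m (w j))) j i =
      Thin_Phi k kb s m ((rep M t (elc kb a b c0 c1) *ᵥ w) j) i := by
  have h1 := Thin_map (Pi.evalRingHom (fun _ : Fin m => kb) i) M
    (fun l => Thin_Phi k kb s m (t l))
    (elc (Fin m → kb) a b (Thin_Phi k kb s m c0 i) (Thin_Phi k kb s m c1 i))
    (fun j => Thin_Phi k kb s m (w j)) j
  have h2 := Thin_map ((Pi.evalRingHom (fun _ : Fin m => kb) i).comp (Thin_Phi k kb s m)) M t
    (elc kb a b c0 c1) w j
  rw [pmap_elc _ (fun _ => rfl)] at h1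
  have h3 : pmap ((Pi.evalRingHom (fun _ : Fin m => kb) i).comp (Thin_Phi k kb s m))
      (elc kb a b c0 c1) = elc kb a b (Thin_Phi k kb s m c0 i) (Thin_Phi k kb s m c1 i) := by
    rw [elc, elc, pmap_el]
    simp
  rw [h3] at h2
  exact h1.symm.trans h2

/-- `τ = (X, X)`, `S = Fin m → kb` with `m = Dg + 1`, `t = (ζ ^ q ^ (s * i))_i`,
`w = (w ^ q ^ (s * i))_i`, `d = s * m`. The `ζ ^ q ^ (s * i)` are distinct, so one of them is not
a root of `Δ (X, X)`; `I` is the kernel of that projection. `rp` (level `P`, `exists_coord_act`,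
`eig_rep`) and `lat_pi` give the lattice. -/
theorem thin_win (hB : Base kb θ) (hr : 0 < r) (Fr : Frb k kb K Ω) (M : ℕ) : ∃ (d : ℕ) (C : ℚ),
    ∀ D : DM k Ω θ r, D.Fix Fr → D.Std Fr → ∀ a P : k[X], a.Monic → P.Monic → Irreducible P →
      d ≤ P.natDegree → P ^ 2 ∣ a → ∀ (E : Coord D.φ a (Fin r)) (ζ : kb), aeval ζ P = 0 →
      ∀ w : JJ (Fin r) M → kb,
      (∀ σ : Ω ≃ₐ[K] Ω, ∃ (B : Matrix (Fin r) (Fin r) k[X]) (χ : kb), Act E σ B ∧
        rep M ![ζ, ζ] (pmap (algebraMap k kb) B) *ᵥ w = χ • w) →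
      (∃ (B : Matrix (Fin r) (Fin r) k[X]) (χ : kb), Act E Fr.γ B ∧
        rep M ![ζ, ζ] (pmap (algebraMap k kb) B) *ᵥ w = χ • w) →
      (∃ i j : Fin r, i ≠ j ∧ ∃ c0 c1 : kb, rep M ![ζ, ζ] (elc kb i j c0 c1) *ᵥ w ≠ w) →
      D.h kb ≤ C := by
  obtain ⟨Dg, hDg⟩ := ht_win hB hr Fr (Thin_adm (k := k) (kb := kb)) M
  obtain ⟨s, hs, hrp⟩ := rp (k := k) (Ω := Ω) hB hr
  obtain ⟨Cη, hCη⟩ := hrp M (Dg + 1)
  obtain ⟨C, hC⟩ := hDg (Dg + 1) Cη
  refine ⟨s * (Dg + 1), C, ?_⟩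
  intro D hF hS a P ha hPm hP hd hPa E ζ hζ w hK hγ hel
  obtain ⟨i1, j1, hij, c0, c1, hne⟩ := hel
  have hw : w ≠ 0 := by
    rintro rfl
    exact hne (Matrix.mulVec_zero _)
  let Φ := Thin_Phi k kb s (Dg + 1)
  let W : PW D Fr M (Fin (Dg + 1) → kb) :=
    { t := fun l => Φ (![ζ, ζ] l)
      a := a
      monic := ha
      E := E
      dvd := by
        rw [← qd_map, ← Thin_Phi_comp s (Dg + 1), ← Polynomial.map_map]
        exact Polynomial.map_dvd _ (Thin_dvd hPa hζ)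
      w := fun j => Φ (w j)
      uni := by
        obtain ⟨j, hj⟩ := Function.ne_iff.mp hw
        exact Ideal.eq_top_of_isUnit_mem _ (Ideal.subset_span ⟨j, rfl⟩)
          ((IsUnit.mk0 (w j) hj).map Φ)
      eigK := fun σ => by
        obtain ⟨B, χ, h1, h2⟩ := hK σ
        exact ⟨B, Φ χ, h1, Thin_eig s (Dg + 1) h2⟩
      eigγ := by
        obtain ⟨B, χ, h1, h2⟩ := hγ
        exact ⟨B, Φ χ, h1, Thin_eig s (Dg + 1) h2⟩ }
  refine hC D hF hS (Fin (Dg + 1) → kb) (by simp) (Pi.evalAlgHom kb (fun _ => kb) 0) W ?_ ?_ ?_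
  · intro f hf
    rw [Thin_gp] at hf
    rw [Thin_diag (Φ ζ) W.t (fun l => by fin_cases l <;> rfl), hf, map_zero]
  · intro Δ hΔ h0
    obtain ⟨i, hi⟩ := Thin_kill hs (Nat.lt_succ_self Dg) hP hd hζ Δ hΔ h0
    refine ⟨RingHom.ker (Pi.evalRingHom (fun _ => kb) i), fun z hz => ?_, i1, j1, hij,
      Φ c0 i, Φ c1 i, ?_⟩
    · have h1 := congrArg (Thin_pr kb Ω i) hz
      rw [map_mul, map_zero, Thin_pr_ev] at h1
      have h2 : Thin_pr kb Ω i z = 0 :=
        (mul_eq_zero.mp h1).resolve_left ((_root_.map_ne_zero _).mpr hi)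
      rw [Thin_pr_quot, h2, TensorProduct.zero_tmul]
    · obtain ⟨j, hj⟩ := Function.ne_iff.mp hne
      refine ⟨j, fun hmem => hj ?_⟩
      rw [RingHom.mem_ker, Pi.sub_apply, map_sub, sub_eq_zero] at hmem
      have h1 := (Thin_elc (k := k) s (Dg + 1) i ![ζ, ζ] w i1 j1 c0 c1 j).symm.trans hmem
      exact ((Pi.evalRingHom (fun _ => kb) i).comp Φ).injective h1
  · intro z z' hz hE
    obtain ⟨E', hE'⟩ := exists_coord_act ha.ne_zero ((dvd_pow_self P two_ne_zero).trans hPa) E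
    obtain ⟨η, h0, h1, h2⟩ := hCη D P hPm hP E' ζ hζ
      (fun i => if h : i < Dg + 1 then Thin_pr kb Ω ⟨i, h⟩ z else 0)
      (fun i hi => by
        have h3 := congrArg (Thin_pr kb Ω ⟨i, hi⟩) hz
        rw [map_mul, map_one] at h3
        simp only [dif_pos hi]
        exact left_ne_zero_of_mul_eq_one h3)
      (fun σ => by
        obtain ⟨B, χ, h3, h4⟩ := hK σ
        obtain ⟨μ, h5, h6⟩ := eig_rep ζ _ hw h4
        refine ⟨B, μ, hE' σ B (D.commK σ) h3, fun l => ?_, fun i hi => ?_⟩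
        · have h7 : (pmap (algebraMap k kb) B).map (eval ζ) = B.map (aeval ζ) := by
            ext u v
            simp [pmap, eval_map_algebraMap]
          rw [← h7]
          exact h5 l
        · have h7 := congrArg (Thin_pr kb Ω ⟨i, hi⟩) (hE σ B (Φ χ) h3 (Thin_eig s (Dg + 1) h4))
          rw [Thin_pr_gal, map_mul, Thin_pr_tmul, one_mul, Thin_Phi_apply, h6] at h7
          simp only [dif_pos hi]
          exact h7)
    refine ⟨η, h1, lat_pi 0 hz h0 fun v i => ?_⟩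
    obtain ⟨n, hn⟩ := h2 v i i.2
    refine ⟨n, fun V hV => ?_⟩
    have h3 := hn V hV
    simp only [dif_pos i.2, dif_pos (Nat.succ_pos Dg)] at h3
    rw [Thin_pr_cf, Thin_pr_cf]
    exact h3

/-- `pl`, `exists_hats_monoid`, `stab_fix` and `thin_win` for finitely many `M` -/
theorem ht_thin (hB : Base kb θ) (hr : 0 < r) (Fr : Frb k kb K Ω) (Dg : ℕ) : ∃ (d : ℕ) (C : ℚ),
    ∀ D : DM k Ω θ r, D.Fix Fr → D.Std Fr → C < D.h kb → ∀ a P : k[X], a.Monic → P.Monic →
      Irreducible P → d ≤ P.natDegree → P ^ 2 ∣ a →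
      ∀ (E : Coord D.φ a (Fin r)) (H : Subgroup (GL (Fin r) (AdjoinRoot a))), Cov E Fr H →
      ∀ ζ : kb, aeval ζ P = 0 → Dense Dg ![ζ, ζ] (hats ![ζ, ζ] H) := by
  choose d C hdC using fun M => thin_win hB hr Fr M
  let N := (Fintype.card (Fin r × Fin 2) ^ Dg) ^ 2 * Dg
  refine ⟨(Finset.range (N + 1)).sup d,
    (Finset.range (N + 1)).sup' Finset.nonempty_range_add_one C, ?_⟩
  intro D hF hS hC a P ha hPm hP hd hPa E H hH ζ hζ f hf h0 s hs
  by_contra hne
  obtain ⟨G, hG, hGu⟩ := exists_hats_monoid (Thin_dvd hPa hζ) H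
  obtain ⟨M, hM, w, hw, hsw⟩ := pl G hGu hf (fun g hg => h0 g (hG ▸ hg)) hne
  have hMN : M ∈ Finset.range (N + 1) := Finset.mem_range.mpr (Nat.lt_succ_of_le hM)
  have he : ∀ B ∈ Lifts H, ∃ χ : kb, rep M ![ζ, ζ] (pmap (algebraMap k kb) B) *ᵥ w = χ • w := by
    intro B hB'
    refine hw _ ?_
    rw [← SetLike.mem_coe, hG]
    exact ⟨B, hB', rfl⟩
  refine absurd (hdC M D hF hS a P ha hPm hP ((Finset.le_sup hMN).trans hd) hPa E ζ hζ w
    (fun σ => ?_) ?_ ?_) (not_le.mpr ((Finset.le_sup' C hMN).trans_lt hC))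
  · obtain ⟨B, h1, h2⟩ := hH.1 σ
    obtain ⟨χ, h3⟩ := he B h1
    exact ⟨B, χ, h2, h3⟩
  · obtain ⟨B, h1, h2⟩ := hH.2
    obtain ⟨χ, h3⟩ := he B h1
    exact ⟨B, χ, h2, h3⟩
  · by_contra hc
    push Not at hc
    exact hsw (stab_fix (F := kb) kb hc hs)

end Pool.Agent.Lib.MP_6adaea_nt.U
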