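import Pool.Agent.Lib.MP_6adaea_nt.U.Low

/-!
Basic facts on windows.
-/

set_option linter.unusedSectionVars false

namespace Pool.Agent.Lib.MP_6adaea_nt.U
open Matrix Polynomial G
open scoped TensorProduct

variable {kb K : Type} [Field kb] [Field K] [Algebra kb K] {B : Type} [AddCommGroup B]
  [Module K B] {B' : Type} [AddCommGroup B'] [Module K B']

variable {J : Type} [Fintype J] [DecidableEq J] {W : Wd kb K B J} {Fr : FrK kb K}
  {Ψ Ψ' : Matrix J J (R2 K)} {C0 : ℕ}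


theorem mem_degLE {e : ℕ} {x : J → R2 K} : x ∈ degLE K J e ↔ ∀ j, (x j).totalDegree ≤ e := by
  simp [degLE, Submodule.mem_pi, MvPolynomial.mem_restrictTotalDegree]

theorem Wd.im_apply (W : Wd kb K B J) (x : J → R2 K) : W.im x = ∑ j, W.ev (x j) (W.y j) := rfl

theorem Wd.im_smul (W : Wd kb K B J) (f : R2 K) (x : J → R2 K) :
    W.im (f • x) = W.ev f (W.im x) := by
  simp [Wd.im_apply, map_sum]

theorem Wd.im_single (W : Wd kb K B J) (j : J) : W.im (Pi.single j 1) = W.y j := by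
  rw [Wd.im_apply, Finset.sum_eq_single j]
  · simp
  · intro i _ hi
    simp [hi]
  · simp

theorem wdl_pow (W : Wd kb K B J) {v : Place kb K} (i : Fin 2) (n : ℕ) {m : ℤ} {b : B}
    (hb : (W.N.N v).Ge b m) : (W.N.N v).Ge (W.ev (MvPolynomial.X i ^ n) b) m := by
  induction n with
  | zero => simpa using hb
  | succ n ih =>
    rw [pow_succ', map_mul, Module.End.mul_apply]
    exact W.ev_ge i v _ m ih

theorem wdl_mon (W : Wd kb K B J) {v : Place kb K} (n n' : ℕ) {m : ℤ} {b : B}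
    (hb : (W.N.N v).Ge b m) :
    (W.N.N v).Ge (W.ev (MvPolynomial.X 0 ^ n * MvPolynomial.X 1 ^ n') b) m := by
  rw [map_mul, Module.End.mul_apply]
  exact wdl_pow W 0 n (wdl_pow W 1 n' hb)

theorem wdl_ev (W : Wd kb K B J) (f : R2 K) (b : B) : W.ev f b = ∑ α ∈ f.support,
    f.coeff α • W.ev (MvPolynomial.X 0 ^ α 0 * MvPolynomial.X 1 ^ α 1) b := by
  conv_lhs => rw [f.as_sum, map_sum, LinearMap.sum_apply]
  refine Finset.sum_congr rfl fun α _ => ?_
  rw [MvPolynomial.monomial_eq, Finsupp.prod_fintype _ _ fun _ => pow_zero _, Fin.prod_univ_two,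
    MvPolynomial.C_mul', map_smul, LinearMap.smul_apply]

theorem Wd.ev_bound (W : Wd kb K B J) {v : Place kb K} {f : R2 K} {a m : ℤ} {b : B}
    (hf : ∀ α, v.Ge (f.coeff α) a) (hb : (W.N.N v).Ge b m) : (W.N.N v).Ge (W.ev f b) (a + m) := by
  rw [wdl_ev]
  exact Nrm.Ge.sum fun α _ => Nrm.Ge.smul (hf α) (wdl_mon W _ _ hb)

theorem wdl_mono : Monotone (degLE K J) := fun _ _ h _ hx =>
  mem_degLE.2 fun j => (mem_degLE.1 hx j).trans h

theorem Wd.S_mono (W : Wd kb K B J) : Monotone W.S := by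
  exact fun _ _ h => Submodule.map_mono (wdl_mono h)

theorem Wd.rel_mono (W : Wd kb K B J) : Monotone W.rel := by
  exact fun _ _ h => inf_le_inf_right _ (wdl_mono h)

theorem Tw.T_ev' (t : Tw W Fr Ψ C0) (f : R2 K) (b : B) :
    t.T (W.ev f b) = W.ev (MvPolynomial.map Fr.σ f) (t.T b) := by
  induction f using MvPolynomial.induction_on generalizing b with
  | C a =>
    rw [MvPolynomial.map_C, ← MvPolynomial.algebraMap_eq,
      AlgHom.commutes, AlgHom.commutes, Module.algebraMap_end_apply, Module.algebraMap_end_apply,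
      map_smulₛₗ]
  | add p q hp hq => simp only [map_add, LinearMap.add_apply, hp, hq]
  | mul_X p i hp =>
    rw [map_mul, map_mul, MvPolynomial.map_X, map_mul, Module.End.mul_apply, Module.End.mul_apply,
      hp, t.T_ev]

theorem Tw.T_im (t : Tw W Fr Ψ C0) (x : J → R2 K) : t.T (W.im x) = W.im (tau Fr.σ Ψ x) := by
  simp only [Wd.im_apply, map_sum, t.T_ev', t.T_y, tau, vecMul, dotProduct, map_mul,
    LinearMap.sum_apply, Module.End.mul_apply]
  exact Finset.sum_comm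

theorem tau_deg {F : K →+* K} {c e : ℕ} (hΨ : ∀ i j, (Ψ i j).totalDegree ≤ c) {x : J → R2 K}
    (hx : x ∈ degLE K J e) : tau F Ψ x ∈ degLE K J (e + c) := by
  refine mem_degLE.2 fun j => MvPolynomial.totalDegree_finsetSum_le fun i _ =>
    (MvPolynomial.totalDegree_mul _ _).trans (add_le_add (le_trans ?_ (mem_degLE.1 hx i)) (hΨ i j))
  exact Finset.sup_mono (MvPolynomial.support_map_subset _ _)

theorem Tw.tau_rel (t : Tw W Fr Ψ C0) {c e : ℕ} (hΨ : ∀ i j, (Ψ i j).totalDegree ≤ c)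
    {x : J → R2 K} (hx : x ∈ W.rel e) : tau Fr.σ Ψ x ∈ W.rel (e + c) := by
  refine ⟨tau_deg hΨ hx.1, ?_⟩
  have h : W.im x = 0 := hx.2
  change W.im _ = 0
  rw [← t.T_im, h, map_zero]

theorem Tw.S_le_Sg (t : Tw W Fr Ψ C0) {c : ℕ} (hΨ : ∀ i j, (Ψ i j).totalDegree ≤ c) (e : ℕ) :
    W.S e ≤ t.Sg (e + c) := by
  rintro _ ⟨x, hx, rfl⟩
  exact ⟨_, tau_deg hΨ hx, (t.T_im x).symm⟩

/-- the spanning family -/
noncomputable def wdl_z (W : Wd kb K B J) (e : ℕ) (i : J × Fin (e + 1) × Fin (e + 1)) : B :=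
  if (i.2.1 : ℕ) + i.2.2 ≤ e then
    W.ev (MvPolynomial.X 0 ^ (i.2.1 : ℕ) * MvPolynomial.X 1 ^ (i.2.2 : ℕ)) (W.y i.1) else 0

theorem wdl_span (W : Wd kb K B J) (e : ℕ) :
    W.S e = Submodule.span K (Set.range (wdl_z W e)) := by
  refine le_antisymm ?_ (Submodule.span_le.2 ?_)
  · rintro _ ⟨x, hx, rfl⟩
    refine Submodule.sum_mem _ fun j _ => ?_
    rw [wdl_ev]
    refine Submodule.sum_mem _ fun α hα => Submodule.smul_mem _ _ (Submodule.subset_span ?_)
    have h := (MvPolynomial.le_totalDegree hα).trans (mem_degLE.1 hx j)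
    rw [Finsupp.sum_fintype _ _ fun _ => rfl, Fin.sum_univ_two] at h
    exact ⟨(j, ⟨α 0, by omega⟩, ⟨α 1, by omega⟩), if_pos h⟩
  · rintro _ ⟨⟨j, a, b⟩, rfl⟩
    unfold wdl_z
    split_ifs with h
    · refine ⟨(MvPolynomial.X 0 ^ (a : ℕ) * MvPolynomial.X 1 ^ (b : ℕ) : R2 K) •
        (Pi.single j 1 : J → R2 K), mem_degLE.2 fun i => ?_, by rw [W.im_smul, W.im_single]⟩
      by_cases hi : i = j
      · subst hi
        rw [Pi.smul_apply, Pi.single_eq_same, smul_eq_mul, mul_one]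
        refine (MvPolynomial.totalDegree_mul _ _).trans ?_
        rwa [MvPolynomial.totalDegree_X_pow, MvPolynomial.totalDegree_X_pow]
      · simp [hi]
    · exact zero_mem _

theorem wdl_card (e : ℕ) :
    Fintype.card (J × Fin (e + 1) × Fin (e + 1)) = Fintype.card J * (e + 1) ^ 2 := by
  simp [sq]

/-- `W.S e` is spanned by the vectors `ev (X 0 ^ a * X 1 ^ b) (y j)` with `a + b ≤ e`; index them
by `J × Fin (e + 1) × Fin (e + 1)`, with `0` when `a + b > e` -/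
theorem Wd.finrank_S [FiniteDimensional K B] (W : Wd kb K B J) (e : ℕ) :
    Module.finrank K (W.S e) ≤ Fintype.card J * (e + 1) ^ 2 := by
  rw [wdl_span, ← wdl_card]
  exact finrank_range_le_card _

theorem Wd.ht_S [FiniteDimensional K B] (hK : FF kb K) (W : Wd kb K B J) (e : ℕ) {H : ℚ}
    (hH : 0 ≤ H) (h : ∀ j, W.y j ≠ 0 → -((∑ᶠ v, (W.N.N v).ν (W.y j) : ℤ) : ℚ) ≤ H) :
    (W.N.ht (W.S e) : ℚ) ≤ (Fintype.card J * (e + 1) ^ 2 : ℕ) * H := by
  rw [wdl_span, ← wdl_card]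
  refine W.N.ht_span_le hK _ hH fun i hi => ?_
  unfold wdl_z at hi ⊢
  split_ifs at hi ⊢ with h1
  · have h2 : W.y i.1 ≠ 0 := fun h0 => hi (by rw [h0, map_zero])
    refine le_trans (neg_le_neg (Int.cast_le.2 ?_)) (h _ h2)
    exact finsum_le_finsum' (W.N.fin_ν hK h2) (W.N.fin_ν hK hi) fun v =>
      (Nrm.ge_iff hi).1 (wdl_mon W _ _ ((W.N.N v).ge_self _))
  · exact absurd rfl hi

/-- Let `N v` be the minimum of `ν (y j) + wt v j` over `y j ≠ 0`. From `T_y`, `ev_bound` (use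
the ceiling) and `ν_T_le`: `N (π v) ≤ Q * N v + hi (π v)`. Sum over `v`. -/
theorem Tw.h0 [FiniteDimensional K B] (hK : FF kb K) (t : Tw W Fr Ψ C0) (wt : Place kb K → J → ℚ)
    (hfin : ∀ j, {v | wt v j ≠ 0}.Finite) (hπ : ∀ v, wt (Fr.π v) = wt v)
    (hΨ : ∀ (v : Place kb K) j j' α, (Ψ j j').coeff α ≠ 0 →
      wt v j' - Fr.Q * wt v j ≤ v.ord ((Ψ j j').coeff α)) {j : J} (hj : W.y j ≠ 0) :
    -((∑ᶠ v, (W.N.N v).ν (W.y j) : ℤ) : ℚ) ≤ ∑ᶠ v, wt v j + C0 := by
  classical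
  have hI : (Finset.univ.filter fun i => W.y i ≠ 0).Nonempty := ⟨j, by simpa using hj⟩
  choose mn hmn hle using fun v : Place kb K =>
    Finset.exists_min_image _ (fun i => ((W.N.N v).ν (W.y i) : ℚ) + wt v i) hI
  simp only [Finset.mem_filter, Finset.mem_univ, true_and] at hmn hle
  let N : Place kb K → ℚ := fun v => ((W.N.N v).ν (W.y (mn v)) : ℚ) + wt v (mn v)
  have hf : ∀ i, W.y i ≠ 0 →
      (fun v => (((W.N.N v).ν (W.y i) : ℤ) : ℚ)).HasFiniteSupport := fun i hi =>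
    (W.N.fin_ν hK hi).subset fun v hv h0 => hv (by simp only [h0, Int.cast_zero])
  have hN : N.HasFiniteSupport := by
    refine (Set.Finite.biUnion (Set.toFinite {i | W.y i ≠ 0}) fun i hi =>
      (hf i hi).union (hfin i)).subset fun v hv => Set.mem_biUnion (hmn v) ?_
    by_contra hc
    simp only [Set.mem_union, Function.mem_support, Set.mem_ofPred_eq, not_or, not_not] at hc
    exact hv (by simp only [N, hc.1, hc.2, add_zero])
  have hh : (fun v => ((t.hi v : ℤ) : ℚ)).support ⊆ t.hi.support := fun v hv => by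
    simpa using hv
  have hh' : (fun v => ((t.hi v : ℤ) : ℚ)).HasFiniteSupport := (Finset.finite_toSet _).subset hh
  have key : ∀ v, N (Fr.π v) ≤ Fr.Q * N v + t.hi (Fr.π v) := fun v => by
    have h1 : t.T (W.y (mn v)) ≠ 0 := fun h0 =>
      hmn v (T_inj t.T t.span (h0.trans (map_zero _).symm))
    have h2 : (W.N.N (Fr.π v)).Ge (t.T (W.y (mn v))) ⌈N (Fr.π v) - Fr.Q * wt v (mn v)⌉ := by
      rw [t.T_y]
      refine Nrm.Ge.sum fun i _ => ?_
      by_cases hi : W.y i = 0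
      · rw [hi, map_zero]
        exact Nrm.ge_zero _ _
      · refine (W.ev_bound (a := ⌈wt v i - Fr.Q * wt v (mn v)⌉) (fun α => ?_)
          ((W.N.N (Fr.π v)).ge_self _)).mono ?_
        · refine (em (_ = _)).imp id fun hα => Int.ceil_le.2 ?_
          have := hΨ (Fr.π v) (mn v) i α hα
          rwa [hπ] at this
        · rw [← Int.ceil_add_intCast]
          refine Int.ceil_mono ?_
          have h3 : N (Fr.π v) ≤ _ := hle (Fr.π v) i hi
          rw [hπ] at h3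
          linarith
    have h3 : (⌈N (Fr.π v) - Fr.Q * wt v (mn v)⌉ : ℤ) ≤ _ :=
      ((Nrm.ge_iff h1).1 h2).trans (t.toTh.ν_T_le v (hmn v))
    have h4 := Int.ceil_le.1 h3
    push_cast at h4
    simp only [N] at h4 ⊢
    linarith
  have hQ : (fun v => (Fr.Q : ℚ) * N v).HasFiniteSupport :=
    hN.subset fun v hv h0 => hv (by simp only [h0, mul_zero])
  have hh2 : (fun v => ((t.hi (Fr.π v) : ℤ) : ℚ)).HasFiniteSupport :=
    hh'.comp_of_injective (g := Fr.π) Fr.π.injective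
  have h1 := finsum_le_finsum' (f := fun v => N (Fr.π v))
    (g := fun v => Fr.Q * N v + t.hi (Fr.π v)) (hN.comp_of_injective Fr.π.injective)
    (hQ.add hh2) key
  rw [finsum_add_distrib hQ hh2, ← mul_finsum' _ _ hN, finsum_comp_equiv Fr.π (f := N),
    finsum_comp_equiv Fr.π (f := fun v => ((t.hi v : ℤ) : ℚ)),
    finsum_eq_sum_of_support_subset _ hh] at h1
  have h2 : ∑ v ∈ t.hi.support, ((t.hi v : ℤ) : ℚ) ≤ C0 := by
    have h3 : ∑ v ∈ t.hi.support, t.hi v ≤ C0 := t.hi_le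
    exact_mod_cast h3
  have h3 := finsum_le_finsum' (f := N) (g := fun v => ((W.N.N v).ν (W.y j) : ℚ) + wt v j) hN
    ((hf j hj).add (hfin j)) fun v => hle v j hj
  rw [finsum_add_distrib (hf j hj) (hfin j)] at h3
  have h4 : ((∑ᶠ v, (W.N.N v).ν (W.y j) : ℤ) : ℚ) = ∑ᶠ v, (((W.N.N v).ν (W.y j) : ℤ) : ℚ) :=
    (Int.castAddHom ℚ).map_finsum (W.N.fin_ν hK hj)
  have h5 : (2 : ℚ) ≤ Fr.Q := by exact_mod_cast Fr.two_le
  have h6 : (0 : ℚ) ≤ C0 := Nat.cast_nonneg _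
  have h7 : -(C0 : ℚ) ≤ ∑ᶠ v, N v := by
    by_contra hc
    nlinarith
  rw [h4]
  linarith

end Pool.Agent.Lib.MP_6adaea_nt.U
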