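import Pool.Agent.Lib.MP_6adaea_nt.U.Tens
import Pool.Agent.Lib.MP_6adaea_nt.U.Orth

/-!
The norms of a window.
-/

set_option linter.unusedSectionVars false

namespace Pool.Agent.Lib.MP_6adaea_nt.U
open Matrix Polynomial G
open scoped TensorProduct

variable {k kb K Ω : Type} [Field k] [Finite k] [Field kb] [Field K] [Field Ω] [Algebra k kb]
  [Algebra k K] [Algebra k Ω] [Algebra kb K] [Algebra kb Ω] [Algebra K Ω]
  [IsScalarTower k kb K] [IsScalarTower k kb Ω] [IsScalarTower k K Ω] [IsScalarTower kb K Ω]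
  [IsAlgClosed kb] [Algebra.IsAlgebraic k kb] [IsSepClosed Ω] [IsGalois K Ω] {θ : K} {r : ℕ}

variable {S : Type} [CommRing S] [Algebra kb S] [Module.Finite kb S]

section win2aux

lemma win2_cf_one {A : Type} [Field A] [Algebra kb A] (x0 : S →ₐ[kb] kb) :
    cf A x0.toLinearMap 1 = 1 := by
  rw [Algebra.TensorProduct.one_def, cf_tmul]
  simp

lemma win2_cf_mul {A : Type} [Field A] [Algebra kb A] (x0 : S →ₐ[kb] kb) (x y : A ⊗[kb] S) :
    cf A x0.toLinearMap (x * y) = cf A x0.toLinearMap x * cf A x0.toLinearMap y := by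
  induction x with
  | zero => simp
  | add a b ha hb => rw [add_mul, map_add, map_add, ha, hb, add_mul]
  | tmul a s =>
    induction y with
    | zero => simp
    | add a b ha hb => rw [mul_add, map_add, map_add, ha, hb, mul_add]
    | tmul b t =>
      rw [Algebra.TensorProduct.tmul_mul_tmul, cf_tmul, cf_tmul, cf_tmul, smul_mul_smul_comm]
      simp

lemma win2_cf_inc (l : S →ₗ[kb] kb) (x : K ⊗[kb] S) :
    cf Ω l (inc S K Ω x) = algebraMap K Ω (cf K l x) := cf_act _ l x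

lemma win2_ceil {V : Val kb Ω} {v : Place kb K} (hV : V.Over v) {x : K ⊗[kb] S} {a : ℚ} {m : ℤ}
    (h : V.GGe (inc S K Ω x) a) (hm : m ≤ ⌈a⌉) : V.GGe (inc S K Ω x) m := by
  intro l
  have := h l
  rw [win2_cf_inc] at this ⊢
  refine this.imp id fun h1 => ?_
  rw [hV] at h1 ⊢
  exact_mod_cast hm.trans (Int.ceil_le.2 h1)

lemma win2_frob {V V' : Val kb Ω} {F : Ω →ₐ[kb] Ω} {Q : ℕ} (hF : ∀ x, V'.ord (F x) = Q * V.ord x)
    {x : Ω ⊗[kb] S} {a : ℚ} (h : V.GGe x a) : V'.GGe (act S F x) (Q * a) := by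
  intro l
  rw [cf_act]
  rcases h l with h1 | h1
  · exact Or.inl (by rw [h1, map_zero])
  · exact Or.inr (by rw [hF]; exact mul_le_mul_of_nonneg_left h1 (Nat.cast_nonneg Q))

lemma win2_one {V : Val kb Ω} (s : S) : V.GGe ((1 : Ω) ⊗ₜ[kb] s) 0 :=
  Val.gge_tmul (Or.inr Val.ord_one.ge) s

lemma win2_repr {ι : Type} (b : Module.Basis ι kb S) (x : K ⊗[kb] S) (i : ι) :
    (Algebra.TensorProduct.basis K b).repr x i = cf K (b.coord i) x := by
  induction x with
  | zero => simp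
  | add a b ha hb => rw [map_add, map_add, Finsupp.add_apply, ha, hb]
  | tmul a s =>
    rw [Algebra.TensorProduct.basis_repr_tmul, cf_tmul]
    simp [Algebra.smul_def, mul_comm]

lemma win2_kge {V : Val kb Ω} {v : Place kb K} (hV : V.Over v) {ι : Type} [Fintype ι]
    (b : Module.Basis ι kb S) (x : K ⊗[kb] S) (m : ℤ) :
    (∀ i, v.Ge ((Algebra.TensorProduct.basis K b).repr x i) m) ↔ V.GGe (inc S K Ω x) m := by
  rw [Val.gge_iff b]
  simp only [win2_repr, win2_cf_inc, hV.ge_iff]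

/-- multiplication by a unit -/
noncomputable def win2_mul {u u' : K ⊗[kb] S} (h : u * u' = 1) :
    (K ⊗[kb] S) ≃ₗ[K] (K ⊗[kb] S) where
  toFun x := u' * x
  invFun x := u * x
  map_add' := mul_add u'
  map_smul' c x := mul_smul_comm c u' x
  left_inv x := by simp only [← mul_assoc, h, one_mul]
  right_inv x := by simp only [← mul_assoc, mul_comm u' u, h, one_mul]

lemma win2_smul (c : K) (x : K ⊗[kb] S) : c • x = (c ⊗ₜ[kb] (1 : S)) * x := by
  rw [Algebra.smul_def]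
  rfl

lemma win2_unit (s : S) {x : K} (hx : Transcendental kb x) :
    IsUnit ((1 : K) ⊗ₜ[kb] s - algebraMap K (K ⊗[kb] S) x) := by
  have hs : IsIntegral kb s := Algebra.IsIntegral.isIntegral s
  have h1 := sub_dvd_eval_sub ((1 : K) ⊗ₜ[kb] s) (algebraMap K (K ⊗[kb] S) x)
    ((minpoly kb s).map (algebraMap kb (K ⊗[kb] S)))
  rw [eval_map_algebraMap, eval_map_algebraMap, aeval_algebraMap_apply] at h1
  have h2 : aeval ((1 : K) ⊗ₜ[kb] s) (minpoly kb s) = 0 := by
    have := aeval_algHom_apply (Algebra.TensorProduct.includeRight : S →ₐ[kb] K ⊗[kb] S) s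
      (minpoly kb s)
    rwa [minpoly.aeval, map_zero] at this
  rw [h2, zero_sub, dvd_neg] at h1
  refine isUnit_of_dvd_unit h1 (IsUnit.map _ (Ne.isUnit fun h => hx ⟨_, minpoly.ne_zero hs, h⟩))

lemma win2_isUnit {μ : K ⊗[kb] S} {w : Ω ⊗[kb] S} (h : w * inc S K Ω μ = 1) :
    ∃ μ', μ * μ' = 1 := by
  have h1 : Function.Injective (LinearMap.mulLeft K μ) := by
    rw [injective_iff_map_eq_zero]
    intro x hx
    refine act_injective (IsScalarTower.toAlgHom kb K Ω) ?_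
    have h2 : inc S K Ω μ * inc S K Ω x = 0 := by
      rw [← map_mul]
      exact (congrArg _ hx).trans (map_zero _)
    change inc S K Ω x = inc S K Ω 0
    rw [map_zero, ← one_mul (inc S K Ω x), ← h, mul_assoc, h2, mul_zero]
  exact LinearMap.injective_iff_surjective.1 h1 1

lemma win2_act_inc (Fr : Frb k kb K Ω) (x : K ⊗[kb] S) :
    inc S K Ω (act S Fr.FK x) = act S Fr.FO (inc S K Ω x) := by
  induction x with
  | zero => simp
  | add a b ha hb => simp only [map_add, ha, hb]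
  | tmul a s => rw [act_tmul, inc_tmul, inc_tmul, act_tmul, Fr.FO_compat]

lemma win2_tot_add {α M : Type} [AddCommMonoid M] (a b : α →₀ M) : tot (a + b) = tot a + tot b :=
  Finsupp.sum_add_index' (fun _ => rfl) fun _ _ _ => rfl

lemma win2_tot_sub {α M : Type} [AddCommGroup M] (a b : α →₀ M) : tot (a - b) = tot a - tot b :=
  Finsupp.sum_sub_index fun _ _ _ => rfl

lemma win2_tot_smul {α : Type} (c : ℚ) (a : α →₀ ℚ) : tot (c • a) = c * tot a := by
  rw [tot, Finsupp.sum_smul_index' fun _ => rfl, tot, Finsupp.mul_sum]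
  rfl

lemma win2_tot_floor {α : Type} (a : α →₀ ℚ) :
    ((tot (a.mapRange Int.floor Int.floor_zero) : ℤ) : ℚ) ≤ tot a := by
  rw [tot, Finsupp.sum_mapRange_index fun _ => rfl, tot, Finsupp.sum, Finsupp.sum, Int.cast_sum]
  exact Finset.sum_le_sum fun i _ => Int.floor_le _

lemma win2_div (hK : FF kb K) (x : K) :
    ∃ m : Place kb K →₀ ℤ, (∀ v, m v = v.ord x) ∧ tot m = 0 := by
  refine ⟨Finsupp.ofSupportFinite (fun v => v.ord x) (hK.fin x), fun _ => rfl, ?_⟩
  rw [← hK.prod x, tot, Finsupp.sum]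
  exact (finsum_eq_sum_of_support_subset _ (by simp [Finsupp.ofSupportFinite])).symm

end win2aux

/-- Scale `u v` so that `x0 (u v)` has order zero; then `a = V (x0 z)` works with the same `η`
after doubling: `V.GGe (z * u') (a - 2 * η)`. -/
theorem Lat.norm (x0 : S →ₐ[kb] kb) {z z' : Ω ⊗[kb] S} (hz : z * z' = 1) {η : Place kb K →₀ ℚ}
    (h : Lat z z' η) (v : Place kb K) : ∃ u u' : K ⊗[kb] S, u * u' = 1 ∧
      ∀ V : Val kb Ω, V.Over v →
        V.GGe (z * inc S K Ω u') (V.ord (cf Ω x0.toLinearMap z) - 2 * η v) ∧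
        V.GGe (z' * inc S K Ω u) (-V.ord (cf Ω x0.toLinearMap z) - 2 * η v) := by
  obtain ⟨u, u', hu, H⟩ := h.2 v
  obtain ⟨c, hc⟩ : ∃ c, c = cf K x0.toLinearMap u := ⟨_, rfl⟩
  obtain ⟨c', hc'⟩ : ∃ c', c' = cf K x0.toLinearMap u' := ⟨_, rfl⟩
  have hcc : c * c' = 1 := by rw [hc, hc', ← win2_cf_mul, hu, win2_cf_one]
  have hX : cf Ω x0.toLinearMap z * cf Ω x0.toLinearMap z' = 1 := by
    rw [← win2_cf_mul, hz, win2_cf_one]
  refine ⟨(c' ⊗ₜ 1) * u, (c ⊗ₜ 1) * u', ?_, fun V hV => ?_⟩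
  · rw [mul_mul_mul_comm, hu, mul_one, Algebra.TensorProduct.tmul_mul_tmul, mul_comm, hcc, mul_one]
    rfl
  obtain ⟨a, h1, h2⟩ := H V hV
  have hcc' : algebraMap K Ω c * algebraMap K Ω c' = 1 := by rw [← map_mul, hcc, map_one]
  have n1 := left_ne_zero_of_mul_eq_one hX
  have n2 := right_ne_zero_of_mul_eq_one hX
  have n3 := left_ne_zero_of_mul_eq_one hcc'
  have n4 := right_ne_zero_of_mul_eq_one hcc'
  have e1 := V.ord_mul n1 n2
  have e2 := V.ord_mul n3 n4
  rw [hX, Val.ord_one] at e1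
  rw [hcc', Val.ord_one] at e2
  have h3 := h1 x0.toLinearMap
  have h4 := h2 x0.toLinearMap
  rw [win2_cf_mul, win2_cf_inc, ← hc', Val.ge_iff (mul_ne_zero n1 n4), V.ord_mul n1 n4] at h3
  rw [win2_cf_mul, win2_cf_inc, ← hc, Val.ge_iff (mul_ne_zero n2 n3), V.ord_mul n2 n3] at h4
  constructor
  · rw [map_mul, inc_tmul, mul_left_comm]
    exact ((Val.gge_tmul (Val.ge_ord _) 1).mul h1).mono (by linarith)
  · rw [map_mul, inc_tmul, mul_left_comm]
    exact ((Val.gge_tmul (Val.ge_ord _) 1).mul h2).mono (by linarith)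

/-- The norm at `v` has the orthonormal basis `u' v * (1 ⊗ b i)` (`exists_nrm`); at almost all
places `u v`, `u' v` are integral (`gge_ae`, `val_ae`). `T b = μ * F b`, and
`u (π v) * μ * F (u' v) = F (z * u' v) * χ⁻¹ * (z' * u (π v))`. With `m = ord (x0 μ)`:
`lo (π v) = m (π v) - ⌊2 * Q * η v + 2 * η (π v)⌋`, `hi` with the plus sign. -/
theorem win_norm (hK : FF kb K) (x0 : S →ₐ[kb] kb) {z z' : Ω ⊗[kb] S} (hz : z * z' = 1)
    {η : Place kb K →₀ ℚ} (h : Lat z z' η) (t : Fin 2 → S) {J : Type} [Fintype J]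
    (y : J → K ⊗[kb] S) : ∃ W : Wd kb K (K ⊗[kb] S) J,
      (∀ f b, W.ev f b = evS kb K t f * b) ∧ W.y = y ∧
      ∀ (Fr : Frb k kb K Ω) (μ : K ⊗[kb] S) (χ : Sˣ) (Ψ : Matrix J J (R2 K)),
        inc S K Ω μ * ((1 ⊗ₜ (χ : S)) * z) = act S Fr.FO z →
        (∀ l, μ * act S Fr.FK (y l) = ∑ l', evS kb K t (Ψ l l') * y l') →
        Nonempty (Tw W Fr.toK Ψ ⌈2 * (Fr.Q + 1) * tot η⌉₊) := by
  choose u u' hu H using h.norm x0 hz
  obtain ⟨b⟩ : Nonempty (Module.Basis (Fin (Module.finrank kb S)) kb S) := ⟨Module.finBasis kb S⟩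
  obtain ⟨bK, hbK⟩ : ∃ bK, bK = Algebra.TensorProduct.basis K b := ⟨_, rfl⟩
  have bKi : ∀ i, bK i = 1 ⊗ₜ b i := fun i => by rw [hbK, Algebra.TensorProduct.basis_apply]
  choose N hN using fun v => exists_nrm v (bK.map (win2_mul (hu v)))
  have hge : ∀ v (V : Val kb Ω), V.Over v → ∀ x m,
      (N v).Ge x m ↔ V.GGe (inc S K Ω (u v * x)) m := fun v V hV x m => by
    rw [hN v x m, ← win2_kge hV b, ← hbK]
    rfl
  have hae : {v | ¬(N v).Orth bK}.Finite := by
    refine (((η.support.finite_toSet.union (val_ae hK (cf Ω x0.toLinearMap z))).union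
      (gge_ae hK z)).union (gge_ae hK z')).subset fun v hv => ?_
    by_contra hc
    simp only [Set.mem_union, Finset.mem_coe, Finsupp.mem_support_iff, Set.mem_ofPred_eq, not_or,
      not_exists, not_and, not_not] at hc
    obtain ⟨⟨⟨c1, c2⟩, c3⟩, c4⟩ := hc
    obtain ⟨V, hV⟩ := exists_val (Ω := Ω) v
    obtain ⟨h1, h2⟩ := H v V hV
    rw [c1, c2 V hV] at h1 h2
    have h3 := (c4 V hV).mul h1
    have h4 := (c3 V hV).mul h2
    rw [← mul_assoc, mul_comm z', hz, one_mul] at h3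
    rw [← mul_assoc, hz, one_mul] at h4
    refine hv fun x m => ?_
    rw [hge v V hV, hbK, win2_kge hV b, map_mul]
    refine ⟨fun h5 => ?_, fun h5 => (h4.mul h5).mono (by simp)⟩
    have h6 := h3.mul h5
    rw [← mul_assoc, ← map_mul, mul_comm (u' v), hu, map_one, one_mul] at h6
    exact h6.mono (by simp)
  have evX : ∀ i, evS kb K t (MvPolynomial.X i) = 1 ⊗ₜ t i := fun i => MvPolynomial.aeval_X _ _
  refine ⟨{ N := ⟨N, ae_of_orth hK N bK hae⟩
            ev := (Algebra.lmul K (K ⊗[kb] S)).comp (evS kb K t)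
            y := y
            ev_ge := fun i v x m hx => ?_
            unit := fun i x hx => ?_ }, fun _ _ => rfl, rfl, fun Fr μ χ Ψ hμ hΨ => ?_⟩
  · obtain ⟨V, hV⟩ := exists_val (Ω := Ω) v
    change (N v).Ge (evS kb K t (MvPolynomial.X i) * x) m
    rw [hge v V hV] at hx ⊢
    rw [evX, mul_left_comm, map_mul, inc_tmul, map_one]
    exact ((win2_one _).mul hx).mono (by simp)
  · refine IsUnit.map (Algebra.lmul K (K ⊗[kb] S)) (?_ : IsUnit (evS kb K t _))
    rw [map_sub, evX]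
    exact (congrArg (fun w => IsUnit (_ - w)) (MvPolynomial.aeval_C _ _)).mpr (win2_unit _ hx)
  have hχ : ((1 : Ω) ⊗ₜ[kb] (χ : S)) * ((1 : Ω) ⊗ₜ[kb] ((χ⁻¹ : Sˣ) : S)) = 1 := by
    rw [Algebra.TensorProduct.tmul_mul_tmul, mul_one, Units.mul_inv]
    rfl
  have hFz : act S Fr.FO z * act S Fr.FO z' = 1 := by rw [← map_mul, hz, map_one]
  have hμ1 : inc S K Ω μ = act S Fr.FO z * ((1 : Ω) ⊗ₜ[kb] ((χ⁻¹ : Sˣ) : S)) * z' := by
    rw [← hμ]
    linear_combination (-(inc S K Ω μ) * z * z') * hχ - inc S K Ω μ * hz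
  obtain ⟨μ', hμ'⟩ := win2_isUnit (μ := μ) (w := act S Fr.FO z' * ((1 ⊗ₜ (χ : S)) * z)) (by
    rw [mul_assoc, mul_comm _ (inc S K Ω μ), hμ, mul_comm, hFz])
  obtain ⟨md, hmd, md0⟩ := win2_div hK (cf K x0.toLinearMap μ)
  obtain ⟨ρ, hρ⟩ : ∃ ρ : Place kb K →₀ ℚ,
    ρ = (2 * Fr.Q : ℚ) • η.equivMapDomain Fr.toK.π + (2 : ℚ) • η := ⟨_, rfl⟩
  have hρ1 : ∀ v, ρ (Fr.toK.π v) = 2 * Fr.Q * η v + 2 * η (Fr.toK.π v) := fun v => by simp [hρ]
  have hρ2 : tot (ρ.mapRange Int.floor Int.floor_zero) ≤ (⌈2 * (Fr.Q + 1) * tot η⌉₊ : ℕ) := by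
    have h1 := win2_tot_floor ρ
    have h2 : tot (η.equivMapDomain Fr.toK.π) = tot η := Finsupp.sum_equivMapDomain _ _ _
    have h3 : tot ρ = 2 * (Fr.Q + 1) * tot η := by
      rw [hρ, win2_tot_add, win2_tot_smul, win2_tot_smul, h2]
      ring
    have h4 := (h1.trans h3.le).trans (Nat.le_ceil _)
    exact_mod_cast h4
  have hb1 : ∀ s : S, act S Fr.FK (1 ⊗ₜ s) = 1 ⊗ₜ s := fun s => by rw [act_tmul, map_one]
  refine ⟨{ T := { toFun := fun x => μ * act S Fr.FK x
                   map_add' := fun x y => by rw [map_add, mul_add]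
                   map_smul' := fun c x => ?_ }
            span := ?_
            lo := md - ρ.mapRange Int.floor Int.floor_zero
            hi := md + ρ.mapRange Int.floor Int.floor_zero
            bnd := fun v => ⟨_, bK.map (win2_mul (hu v)), hN v, fun c m => ?_⟩
            lo_ge := by rw [win2_tot_sub, md0]; linarith
            hi_le := by rw [win2_tot_add, md0]; linarith
            T_ev := fun i x => ?_
            T_y := hΨ }⟩
  · rw [win2_smul, map_mul, act_tmul, win2_smul, mul_left_comm]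
    rfl
  · refine eq_top_iff.2 fun x _ => ?_
    have e : x = ∑ i, bK.repr (μ' * x) i • (μ * act S Fr.FK (bK i)) := by
      simp only [bKi, hb1, ← mul_smul_comm, ← Finset.mul_sum]
      simp only [← bKi]
      rw [bK.sum_repr, ← mul_assoc, hμ', one_mul]
    rw [e]
    exact Submodule.sum_mem _ fun i _ => Submodule.smul_mem _ _ (Submodule.subset_span ⟨_, rfl⟩)
  · obtain ⟨V, hV⟩ := exists_val (Ω := Ω) v
    obtain ⟨V', hV', hF⟩ := Fr.exists_val hV
    obtain ⟨x, hx⟩ : ∃ x, x = ∑ i, c i • bK i := ⟨_, rfl⟩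
    have e1 : ∑ i, c i • (μ * act S Fr.FK (u' v * bK i)) = μ * act S Fr.FK (u' v) * x := by
      rw [hx, Finset.mul_sum]
      refine Finset.sum_congr rfl fun i _ => ?_
      rw [map_mul, bKi, hb1, mul_smul_comm, mul_assoc]
    have e2 : ∀ m : ℤ, (∀ i, (Fr.toK.π v).Ge (c i) m) ↔ V'.GGe (inc S K Ω x) m := fun m => by
      rw [← win2_kge hV' b, ← hbK, hx]
      simp only [Module.Basis.repr_sum_self]
    have hX : cf Ω x0.toLinearMap z * cf Ω x0.toLinearMap z' = 1 := by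
      rw [← win2_cf_mul, hz, win2_cf_one]
    have n1 := left_ne_zero_of_mul_eq_one hX
    have n2 : algebraMap K Ω (cf K x0.toLinearMap μ) ≠ 0 := by
      refine (_root_.map_ne_zero _).2 (left_ne_zero_of_mul_eq_one (b := cf K x0.toLinearMap μ') ?_)
      rw [← win2_cf_mul, hμ', win2_cf_one]
    have n3 : algebraMap kb Ω (x0 χ) ≠ 0 := (_root_.map_ne_zero _).2 (χ.isUnit.map x0).ne_zero
    have e3 := congrArg (fun w => V'.ord (cf Ω x0.toLinearMap w)) hμ
    simp only [win2_cf_mul, win2_cf_inc, cf_act, cf_tmul, AlgHom.toLinearMap_apply,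
      ← Algebra.algebraMap_eq_smul_one] at e3
    rw [V'.ord_mul n2 (mul_ne_zero n3 n1), V'.ord_mul n3 n1, V'.ord_const, hF, hV', ← hmd] at e3
    obtain ⟨a1, a2⟩ := H v V hV
    obtain ⟨a3, a4⟩ := H _ V' hV'
    have g1 := ((win2_frob hF a1).mul (win2_one ((χ⁻¹ : Sˣ) : S))).mul a4
    have g2 := ((win2_frob hF a2).mul (win2_one (χ : S))).mul a3
    have hu1 : inc S K Ω (u v) * inc S K Ω (u' v) = 1 := by rw [← map_mul, hu, map_one]
    have hu2 : inc S K Ω (u (Fr.toK.π v)) * inc S K Ω (u' (Fr.toK.π v)) = 1 := by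
      rw [← map_mul, hu, map_one]
    have e4 : inc S K Ω (u (Fr.toK.π v) * (μ * act S Fr.FK (u' v) * x)) =
        act S Fr.FO (z * inc S K Ω (u' v)) * (1 ⊗ₜ ((χ⁻¹ : Sˣ) : S)) *
          (z' * inc S K Ω (u (Fr.toK.π v))) * inc S K Ω x := by
      rw [map_mul, map_mul, map_mul, win2_act_inc, hμ1, map_mul]
      ring
    have e5 : act S Fr.FO (z' * inc S K Ω (u v)) * (1 ⊗ₜ (χ : S)) *
        (z * inc S K Ω (u' (Fr.toK.π v))) * (act S Fr.FO (z * inc S K Ω (u' v)) *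
          (1 ⊗ₜ ((χ⁻¹ : Sˣ) : S)) * (z' * inc S K Ω (u (Fr.toK.π v)))) = 1 := by
      have e6 : act S Fr.FO (z' * inc S K Ω (u v)) * act S Fr.FO (z * inc S K Ω (u' v)) = 1 := by
        rw [← map_mul, mul_mul_mul_comm, hu1, mul_comm z', hz, mul_one, map_one]
      calc _ = (act S Fr.FO (z' * inc S K Ω (u v)) * act S Fr.FO (z * inc S K Ω (u' v))) *
            (((1 : Ω) ⊗ₜ[kb] (χ : S)) * ((1 : Ω) ⊗ₜ[kb] ((χ⁻¹ : Sˣ) : S))) * (z * z') *
            (inc S K Ω (u (Fr.toK.π v)) * inc S K Ω (u' (Fr.toK.π v))) := by ring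
        _ = 1 := by rw [e6, hχ, hz, hu2]; simp
    have fl := hρ1 v
    change ((∀ i, (Fr.toK.π v).Ge (c i) m) → (N _).Ge
        (∑ i, c i • (μ * act S Fr.FK (u' v * bK i))) _) ∧
      ((N _).Ge (∑ i, c i • (μ * act S Fr.FK (u' v * bK i))) m → _)
    rw [e1, e2, e2, hge _ V' hV', hge _ V' hV']
    simp only [Finsupp.sub_apply, Finsupp.add_apply, Finsupp.mapRange_apply]
    constructor
    · intro h5
      refine win2_ceil hV' (a := (m + md (Fr.toK.π v) : ℤ) - ρ (Fr.toK.π v)) ?_ ?_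
      · rw [e4]
        refine (g1.mul h5).mono (le_of_eq ?_)
        push_cast
        linear_combination e3 - fl
      · rw [sub_eq_add_neg (_ : ℚ), Int.ceil_intCast_add, Int.ceil_neg]
        omega
    · intro h5
      refine win2_ceil hV' (a := (m - md (Fr.toK.π v) : ℤ) - ρ (Fr.toK.π v)) ?_ ?_
      · have g3 := g2.mul h5
        rw [e4, ← mul_assoc, e5, one_mul] at g3
        refine g3.mono (le_of_eq ?_)
        push_cast
        linear_combination -e3 - fl
      · rw [sub_eq_add_neg (_ : ℚ), Int.ceil_intCast_add, Int.ceil_neg]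
        omega
  · change μ * act S Fr.FK (evS kb K t (MvPolynomial.X i) * x) =
      evS kb K t (MvPolynomial.X i) * (μ * act S Fr.FK x)
    rw [evX, map_mul, hb1, mul_left_comm]

end Pool.Agent.Lib.MP_6adaea_nt.U
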