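import Pool.Agent.Lib.MP_6adaea_nt.U.Win1
import Pool.Agent.Lib.MP_6adaea_nt.U.Win2
import Pool.Agent.Lib.MP_6adaea_nt.U.Core

/-!
The height bound for prewindows.
-/

set_option linter.unusedSectionVars false

namespace Pool.Agent.Lib.MP_6adaea_nt.U
open Matrix Polynomial G
open scoped TensorProduct

variable {k kb K Ω : Type} [Field k] [Finite k] [Field kb] [Field K] [Field Ω] [Algebra k kb]
  [Algebra k K] [Algebra k Ω] [Algebra kb K] [Algebra kb Ω] [Algebra K Ω]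
  [IsScalarTower k kb K] [IsScalarTower k kb Ω] [IsScalarTower k K Ω] [IsScalarTower kb K Ω]
  [IsAlgClosed kb] [Algebra.IsAlgebraic k kb] [IsSepClosed Ω] [IsGalois K Ω] {θ : K} {r : ℕ}

theorem Th.exists_mono {B : Type} [AddCommGroup B] [Module K B] {J : Type} [Fintype J]
    {W : Wd kb K B J} {Fr : FrK kb K} {Ψ : Matrix J J (R2 K)} {C0 C1 : ℕ} (h : C0 ≤ C1)
    (t : Tw W Fr Ψ C0) : Nonempty (Tw W Fr Ψ C1) := by
  exact ⟨⟨⟨t.T, t.span, t.lo, t.hi, t.bnd, (neg_le_neg (Nat.cast_le.2 h)).trans t.lo_ge,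
    t.hi_le.trans (Nat.cast_le.2 h)⟩, t.T_ev, t.T_y⟩⟩

theorem ht_win (hB : Base kb θ) (hr : 0 < r) (Fr : Frb k kb K Ω) {τ : Fin 2 → PowerSeries kb}
    (hτ : Adm k τ) (M : ℕ) : ∃ Dg : ℕ, ∀ (n : ℕ) (Cη : ℚ), ∃ C : ℚ,
      ∀ D : DM k Ω θ r, D.Fix Fr → D.Std Fr →
      ∀ (S : Type) [CommRing S] [Algebra k S] [Algebra kb S] [IsScalarTower k kb S]
        [Module.Finite kb S], Module.finrank kb S ≤ n → (S →ₐ[kb] kb) → ∀ P : PW D Fr M S,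
      (∀ f : R2 kb, gp kb τ f = 0 → MvPolynomial.aeval P.t f = 0) → P.Kill τ Dg →
      (∀ z z' : Ω ⊗[kb] S, z * z' = 1 → P.Eig z →
        ∃ η : Place kb K →₀ ℚ, tot η ≤ Cη ∧ Lat z z' η) →
      D.h kb ≤ C := by
  obtain ⟨Dg, h⟩ := ht_main (Ω := Ω) hB hr Fr hτ M
  refine ⟨Dg, fun n Cη => ?_⟩
  obtain ⟨C, hC⟩ := h n fun j => ⌈2 * (((Fr.pow j).Q : ℚ) + 1) * Cη⌉₊
  refine ⟨C, fun D hD hS S _ _ _ _ _ hn x0 P h1 hK hη => ?_⟩
  obtain ⟨z, z', y, hz, hy, hE, hμ⟩ := win_unit hr hD P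
  obtain ⟨η, hη1, hL⟩ := hη z z' hz hE
  obtain ⟨W, hev, hWy, hT⟩ := win_norm (k := k) (hB.ff k) x0 hz hL P.t y
  refine hC D hD hS (K ⊗[kb] S) ?_ W ?_ ?_ ?_
  · rw [Module.finrank_baseChange]
    exact hn
  · intro f hf
    refine LinearMap.ext fun b => ?_
    rw [hev, evS_eq_zero h1 hf, zero_mul, LinearMap.zero_apply]
  · intro j
    obtain ⟨μ, χ, e1, e2⟩ := hμ j
    obtain ⟨t⟩ := hT (Fr.pow j) μ χ _ e1 e2
    refine Th.exists_mono (Nat.ceil_mono ?_) t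
    exact mul_le_mul_of_nonneg_left hη1 (by positivity)
  · exact win_nondeg hr P hK W hev (by rw [hWy]; exact hy)

end Pool.Agent.Lib.MP_6adaea_nt.U
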