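import Pool.Agent.Lib.MP_6adaea_nt.U.Tens
import Pool.Agent.Lib.MP_6adaea_nt.U.FrameL
import Pool.Agent.Lib.MP_6adaea_nt.U.GenS

/-!
The unit of a prewindow.
-/

set_option linter.unusedSectionVars false

namespace Pool.Agent.Lib.MP_6adaea_nt.U
open Matrix Polynomial G
open scoped TensorProduct

variable {k kb K Ω : Type} [Field k] [Finite k] [Field kb] [Field K] [Field Ω] [Algebra k kb]
  [Algebra k K] [Algebra k Ω] [Algebra kb K] [Algebra kb Ω] [Algebra K Ω]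
  [IsScalarTower k kb K] [IsScalarTower k kb Ω] [IsScalarTower k K Ω] [IsScalarTower kb K Ω]
  [IsAlgClosed kb] [Algebra.IsAlgebraic k kb] [IsSepClosed Ω] [IsGalois K Ω] {θ : K} {r : ℕ}

variable {D : DM k Ω θ r} {Fr : Frb k kb K Ω} {M : ℕ} {S : Type} [CommRing S] [Algebra k S]
  [Algebra kb S] [IsScalarTower k kb S] [Module.Finite kb S]


private theorem win1_comp (k kb Ω : Type) [Field k] [Field kb] [Field Ω] [Algebra k kb]
    [Algebra k Ω] [Algebra kb Ω] [IsScalarTower k kb Ω] (S : Type) [CommRing S] [Algebra k S]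
    [Algebra kb S] [IsScalarTower k kb S] :
    (Algebra.TensorProduct.includeRight (R := kb) (A := Ω) (B := S) : S →+* Ω ⊗[kb] S).comp
      (algebraMap k S) =
    (Algebra.TensorProduct.includeLeftRingHom : Ω →+* Ω ⊗[kb] S).comp (algebraMap k Ω) := by
  ext c
  change (1 : Ω) ⊗ₜ[kb] algebraMap k S c = algebraMap k Ω c ⊗ₜ[kb] (1 : S)
  rw [IsScalarTower.algebraMap_apply k kb S, IsScalarTower.algebraMap_apply k kb Ω,
    Algebra.algebraMap_eq_smul_one (A := S), Algebra.algebraMap_eq_smul_one (A := Ω),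
    TensorProduct.smul_tmul]

private theorem win1_dvd (P : PW D Fr M S) :
    qd (fun i => ((1 : Ω) ⊗ₜ[kb] P.t i : Ω ⊗[kb] S)) ∣
      P.a.map ((Algebra.TensorProduct.includeLeftRingHom : Ω →+* Ω ⊗[kb] S).comp
        (algebraMap k Ω)) := by
  have h := Polynomial.map_dvd
    (Algebra.TensorProduct.includeRight (R := kb) (A := Ω) (B := S) : S →+* Ω ⊗[kb] S) P.dvd
  rw [qd_map, Polynomial.map_map, win1_comp] at h
  exact h

private theorem win1_mv {R R' J : Type} [CommRing R] [CommRing R'] [Fintype J] (f : R →+* R')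
    (A : Matrix J J R) (w : J → R) (j : J) :
    f ((A *ᵥ w) j) = (A.map f *ᵥ fun l => f (w l)) j := RingHom.map_mulVec f A w j

private theorem win1_eig (P : PW D Fr M S) {B : Matrix (Fin r) (Fin r) k[X]} {χ : S}
    (h : rep M P.t (pmap (algebraMap k S) B) *ᵥ P.w = χ • P.w) :
    rep M (fun i => ((1 : Ω) ⊗ₜ[kb] P.t i : Ω ⊗[kb] S))
      (pmap ((Algebra.TensorProduct.includeLeftRingHom : Ω →+* Ω ⊗[kb] S).comp
        (algebraMap k Ω)) B) *ᵥ (fun j => ((1 : Ω) ⊗ₜ[kb] P.w j : Ω ⊗[kb] S)) =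
      ((1 : Ω) ⊗ₜ[kb] χ : Ω ⊗[kb] S) • fun j => ((1 : Ω) ⊗ₜ[kb] P.w j : Ω ⊗[kb] S) := by
  ext j
  have h1 := win1_mv
    (Algebra.TensorProduct.includeRight (R := kb) (A := Ω) (B := S) : S →+* Ω ⊗[kb] S)
    (rep M P.t (pmap (algebraMap k S) B)) P.w j
  rw [h, rep_map, pmap_pmap, win1_comp] at h1
  refine h1.symm.trans ?_
  rw [Pi.smul_apply, Pi.smul_apply, smul_eq_mul, smul_eq_mul, map_mul]
  rfl

private theorem win1_gal (P : PW D Fr M S) (σ : Ω ≃ₐ[K] Ω) {B : Matrix (Fin r) (Fin r) k[X]}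
    {χ : S} (hB : Act P.E σ B) (h : rep M P.t (pmap (algebraMap k S) B) *ᵥ P.w = χ • P.w)
    (j : JJ (Fin r) M) : gal kb S σ (P.Y j) = (1 ⊗ₜ χ) * P.Y j := by
  have h1 := rep_frame_gal (Algebra.TensorProduct.includeLeftRingHom : Ω →+* Ω ⊗[kb] S)
    (win1_dvd P) M σ hB (gal kb S σ : Ω ⊗[kb] S →+* Ω ⊗[kb] S) (fun x => rfl)
    (fun l => by
      change gal kb S σ _ = _
      rw [gal_tmul, map_one])
  have h2 := win1_mv (gal kb S σ : Ω ⊗[kb] S →+* Ω ⊗[kb] S)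
    (rep M (fun i => ((1 : Ω) ⊗ₜ[kb] P.t i : Ω ⊗[kb] S))
      (pmap Algebra.TensorProduct.includeLeftRingHom (frame P.E)))
    (fun j => ((1 : Ω) ⊗ₜ[kb] P.w j : Ω ⊗[kb] S)) j
  have h3 : (fun l => (gal kb S σ : Ω ⊗[kb] S →+* Ω ⊗[kb] S)
      ((1 : Ω) ⊗ₜ[kb] P.w l : Ω ⊗[kb] S)) = fun l => ((1 : Ω) ⊗ₜ[kb] P.w l : Ω ⊗[kb] S) := by
    ext l
    change gal kb S σ _ = _
    rw [gal_tmul, map_one]
  rw [h1, h3, ← mulVec_mulVec, win1_eig P h, mulVec_smul] at h2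
  exact h2

private theorem win1_ev (t : Fin 2 → S) (f : R2 K) :
    MvPolynomial.eval₂Hom ((Algebra.TensorProduct.includeLeftRingHom : Ω →+* Ω ⊗[kb] S).comp
      (algebraMap K Ω)) (fun i => ((1 : Ω) ⊗ₜ[kb] t i : Ω ⊗[kb] S)) f =
      inc S K Ω (evS kb K t f) := by
  induction f using MvPolynomial.induction_on with
  | C c =>
    rw [MvPolynomial.eval₂Hom_C, evS, MvPolynomial.aeval_C]
    rfl
  | add p q hp hq => rw [map_add, map_add, map_add, hp, hq]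
  | mul_X p i hp =>
    rw [map_mul, map_mul, map_mul, hp, MvPolynomial.eval₂Hom_X', evS, MvPolynomial.aeval_X,
      inc_tmul, map_one]

private theorem win1_frob {Fr' : Frb k kb K Ω} (hD : D.Fix Fr') (P : PW D Fr M S)
    {B : Matrix (Fin r) (Fin r) k[X]} {χ : S} (hB : Act P.E Fr'.γ B)
    (h : rep M P.t (pmap (algebraMap k S) B) *ᵥ P.w = χ • P.w) (j : JJ (Fin r) M) :
    act S Fr'.FO (P.Y j) =
      (1 ⊗ₜ χ) * ∑ l, inc S K Ω (evS kb K P.t (Psi k θ r D.g Fr'.c M j l)) * P.Y l := by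
  have h1 := rep_frame_frob (Algebra.TensorProduct.includeLeftRingHom : Ω →+* Ω ⊗[kb] S)
    (win1_dvd P) M hD hB (act S Fr'.FO : Ω ⊗[kb] S →+* Ω ⊗[kb] S) (fun x => rfl)
    (fun l => by
      change act S Fr'.FO _ = _
      rw [act_tmul, map_one])
  have h2 := win1_mv (act S Fr'.FO : Ω ⊗[kb] S →+* Ω ⊗[kb] S)
    (rep M (fun i => ((1 : Ω) ⊗ₜ[kb] P.t i : Ω ⊗[kb] S))
      (pmap Algebra.TensorProduct.includeLeftRingHom (frame P.E)))
    (fun j => ((1 : Ω) ⊗ₜ[kb] P.w j : Ω ⊗[kb] S)) j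
  have h3 : (fun l => (act S Fr'.FO : Ω ⊗[kb] S →+* Ω ⊗[kb] S)
      ((1 : Ω) ⊗ₜ[kb] P.w l : Ω ⊗[kb] S)) = fun l => ((1 : Ω) ⊗ₜ[kb] P.w l : Ω ⊗[kb] S) := by
    ext l
    change act S Fr'.FO _ = _
    rw [act_tmul, map_one]
  rw [h1, h3, ← mulVec_mulVec, win1_eig P h, mulVec_smul, ← mulVec_mulVec] at h2
  refine h2.trans ?_
  rw [Pi.smul_apply, smul_eq_mul]
  congr 1
  refine Finset.sum_congr rfl fun l _ => ?_
  rw [← win1_ev]
  rfl

private theorem win1_inv (hr : 0 < r) (P : PW D Fr M S) :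
    ∃ A : Matrix (Fin r) (Fin r) (Polynomial Ω), ∀ {T : Type} [CommRing T] (i : Ω →+* T)
      (t : Fin 2 → T), qd t ∣ P.a.map (i.comp (algebraMap k Ω)) →
      Cong (qd t) (pmap i (frame P.E) * pmap i A) 1 ∧
        Cong (qd t) (pmap i A * pmap i (frame P.E)) 1 := by
  obtain ⟨A, h1, h2⟩ := frame_inv D P.E hr P.monic.ne_zero
  refine ⟨A, fun i t ht => ?_⟩
  have h3 := h1.pmap i
  have h4 := h2.pmap i
  rw [Polynomial.map_map, pmap_mul, pmap_one] at h3 h4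
  exact ⟨h3.of_dvd ht, h4.of_dvd ht⟩

private theorem win1_uni (hr : 0 < r) (P : PW D Fr M S) : Ideal.span (Set.range P.Y) = ⊤ := by
  obtain ⟨A, hA⟩ := win1_inv hr P
  have h1 := rep_congr M (hA _ _ (win1_dvd P)).2
  rw [rep_mul, rep_one] at h1
  have h2 : ∀ j, ((1 : Ω) ⊗ₜ[kb] P.w j : Ω ⊗[kb] S) ∈ Ideal.span (Set.range P.Y) := by
    intro j
    have h3 : rep M (fun i => ((1 : Ω) ⊗ₜ[kb] P.t i : Ω ⊗[kb] S))
        (pmap Algebra.TensorProduct.includeLeftRingHom A) *ᵥ P.Y =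
        fun j => ((1 : Ω) ⊗ₜ[kb] P.w j : Ω ⊗[kb] S) := by
      rw [PW.Y, mulVec_mulVec, h1, one_mulVec]
    rw [← congrFun h3 j]
    exact Ideal.sum_mem _ fun l _ => Ideal.mul_mem_left _ _ (Ideal.subset_span ⟨l, rfl⟩)
  have h4 := congrArg (Ideal.map
    (Algebra.TensorProduct.includeRight (R := kb) (A := Ω) (B := S) : S →+* Ω ⊗[kb] S)) P.uni
  rw [Ideal.map_top, Ideal.map_span] at h4
  rw [eq_top_iff, ← h4, Ideal.span_le]
  rintro _ ⟨_, ⟨j, rfl⟩, rfl⟩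
  exact h2 j

private theorem win1_pow (P : PW D Fr M S) {B : Matrix (Fin r) (Fin r) k[X]} {χ : S}
    (h : rep M P.t (pmap (algebraMap k S) B) *ᵥ P.w = χ • P.w) (n : ℕ) :
    rep M P.t (pmap (algebraMap k S) (B ^ n)) *ᵥ P.w = χ ^ n • P.w := by
  induction n with
  | zero => rw [pow_zero, pow_zero, pmap_one, rep_one, one_mulVec, one_smul]
  | succ n ih =>
    rw [pow_succ, pmap_mul, rep_mul, ← mulVec_mulVec, h, mulVec_smul, ih, smul_smul, pow_succ']

private theorem win1_unit (P : PW D Fr M S) {B : Matrix (Fin r) (Fin r) k[X]} {χ : S}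
    (hB : Act P.E Fr.γ B) (h : rep M P.t (pmap (algebraMap k S) B) *ᵥ P.w = χ • P.w) :
    IsUnit χ := by
  obtain ⟨N, hN, hc⟩ := hB.exists_pow P.monic.ne_zero Fr.γ.injective
  have h1 := win1_pow P h N
  rw [rep_congr M ((hc.pmap (algebraMap k S)).of_dvd P.dvd), pmap_one, rep_one, one_mulVec] at h1
  have h2 : ∀ x ∈ Ideal.span (Set.range P.w), χ ^ N * x = x := by
    intro x hx
    induction hx using Submodule.span_induction with
    | mem x hx =>
      obtain ⟨j, rfl⟩ := hx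
      exact (congrFun h1 j).symm
    | zero => rw [mul_zero]
    | add x y _ _ hx hy => rw [mul_add, hx, hy]
    | smul c x _ hx => rw [smul_eq_mul, mul_left_comm, hx]
  have h3 := h2 1 (P.uni ▸ Submodule.mem_top)
  rw [mul_one] at h3
  exact IsUnit.of_pow_eq_one h3 hN.ne'

private theorem win1_compat (Fr' : Frb k kb K Ω) (x : K ⊗[kb] S) :
    inc S K Ω (act S Fr'.FK x) = act S Fr'.FO (inc S K Ω x) := by
  induction x using TensorProduct.induction_on with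
  | zero => simp only [map_zero]
  | tmul a s => rw [act_tmul, inc_tmul, inc_tmul, act_tmul, Fr'.FO_compat]
  | add x y hx hy => simp only [map_add, hx, hy]

/-- `Y` is unimodular (`frame_inv`), `z = ∑ c j • Y j` is a unit (`exists_unit_comb`),
`gal σ Y = χ * Y` (`rep_frame_gal`), so `y = z' * Y` is rational (`exists_inc`). For `γ ^ (j + 1)`
use `B ^ (j + 1)`, `χ ^ (j + 1)` and `rep_frame_frob`; `μ = ∑ c l • (Ψ *ᵥ y) l`. `χ` is a unit
because `B` has finite order (`Act.exists_pow`) and `w` is unimodular. -/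
theorem win_unit (hr : 0 < r) (hD : D.Fix Fr) (P : PW D Fr M S) :
    ∃ (z z' : Ω ⊗[kb] S) (y : JJ (Fin r) M → K ⊗[kb] S), z * z' = 1 ∧
      (∀ j, z * inc S K Ω (y j) = P.Y j) ∧ P.Eig z ∧
      ∀ j : ℕ, ∃ (μ : K ⊗[kb] S) (χ : Sˣ),
        inc S K Ω μ * ((1 ⊗ₜ (χ : S)) * z) = act S (Fr.pow j).FO z ∧
        ∀ l, μ * act S (Fr.pow j).FK (y l) =
          ∑ l', evS kb K P.t (Psi k θ r D.g (Fr.pow j).c M l l') * y l' := by
  obtain ⟨c, hc⟩ := exists_unit_comb (win1_uni hr P)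
  obtain ⟨z', hz'⟩ := hc.exists_right_inv
  set z := ∑ j, c j • P.Y j with hz
  have hE : P.Eig z := by
    intro σ B χ hB h
    rw [hz, map_sum, Finset.mul_sum]
    refine Finset.sum_congr rfl fun j _ => ?_
    rw [map_smul, win1_gal P σ hB h, mul_smul_comm]
  have hy : ∀ j, ∃ y, inc S K Ω y = z' * P.Y j := by
    intro j
    refine exists_inc fun σ => ?_
    obtain ⟨B, χ, hB, h⟩ := P.eigK σ
    have h1 := congrArg (gal kb S σ) hz'
    rw [map_mul, map_one, hE σ B χ hB h] at h1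
    rw [map_mul, win1_gal P σ hB h]
    linear_combination (z' * P.Y j) * h1 - (gal kb S σ z' * (1 ⊗ₜ χ) * P.Y j) * hz'
  choose y hy using hy
  have hY : ∀ j, z * inc S K Ω (y j) = P.Y j := fun j => by
    rw [hy, ← mul_assoc, hz', one_mul]
  refine ⟨z, z', y, hz', hY, hE, fun j => ?_⟩
  obtain ⟨B, χ, hB, h⟩ := P.eigγ
  obtain ⟨u, rfl⟩ := win1_unit P hB h
  have h1 := win1_frob (hD.pow j) P (hB.pow (j + 1)) (win1_pow P h (j + 1))
  rw [← Units.val_pow_eq_pow_val] at h1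
  generalize u ^ (j + 1) = χ at h1
  have h2 : ∀ l, inc S K Ω (∑ l', evS kb K P.t (Psi k θ r D.g (Fr.pow j).c M l l') * y l') *
      ((1 ⊗ₜ (χ : S)) * z) = act S (Fr.pow j).FO (P.Y l) := by
    intro l
    rw [h1, map_sum, mul_left_comm, Finset.sum_mul]
    congr 1
    refine Finset.sum_congr rfl fun l' _ => ?_
    rw [map_mul, ← hY, mul_assoc, mul_comm z]
  have h3 : inc S K Ω (∑ l, c l • ∑ l', evS kb K P.t (Psi k θ r D.g (Fr.pow j).c M l l') * y l') *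
      ((1 ⊗ₜ (χ : S)) * z) = act S (Fr.pow j).FO z := by
    rw [map_sum, Finset.sum_mul]
    conv_rhs => rw [hz, map_sum]
    refine Finset.sum_congr rfl fun l _ => ?_
    rw [map_smul, map_smul, smul_mul_assoc, h2]
  refine ⟨_, χ, h3, fun l => ?_⟩
  apply act_injective (IsScalarTower.toAlgHom kb K Ω)
  have hu : IsUnit (((1 : Ω) ⊗ₜ[kb] (χ : S) : Ω ⊗[kb] S) * z) :=
    (χ.isUnit.map (Algebra.TensorProduct.includeRight (R := kb) (A := Ω) (B := S))).mul hc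
  refine hu.mul_right_cancel ?_
  change inc S K Ω _ * _ = inc S K Ω _ * _
  rw [h2, map_mul, mul_right_comm, h3, win1_compat, ← map_mul, hY]

/-- If `ev Δ (im row) = 0` for all elementary matrices then the image of `Y` in `Ω ⊗ S / I` is
fixed by them; `stab_conj` over `Ω ⊗ S / I` and `one_tmul_injective`. -/
theorem win_nondeg (hr : 0 < r) (P : PW D Fr M S) {τ : Fin 2 → PowerSeries kb} {Dg : ℕ}
    (hK : P.Kill τ Dg) {z : Ω ⊗[kb] S} (W : Wd kb K (K ⊗[kb] S) (JJ (Fin r) M))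
    (hev : ∀ f b, W.ev f b = evS kb K P.t f * b) (hy : ∀ j, z * inc S K Ω (W.y j) = P.Y j) :
    Nondeg W τ Dg := by
  intro Δ hΔ hτ
  obtain ⟨I, hI, a, b, hab, c0, c1, j, hj⟩ := hK Δ hΔ hτ
  by_contra hcon
  push Not at hcon
  apply hj
  have : Module.Finite kb (S ⧸ I) := Module.Finite.quotient kb I
  let π : Ω ⊗[kb] S →+* Ω ⊗[kb] (S ⧸ I) :=
    (Algebra.TensorProduct.map (AlgHom.id kb Ω) (Ideal.Quotient.mkₐ kb I) :
      Ω ⊗[kb] S →ₐ[kb] Ω ⊗[kb] (S ⧸ I))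
  let tq : Fin 2 → Ω ⊗[kb] (S ⧸ I) := fun i => π ((1 : Ω) ⊗ₜ[kb] P.t i)
  let iq : Ω →+* Ω ⊗[kb] (S ⧸ I) := π.comp Algebra.TensorProduct.includeLeftRingHom
  let wq : JJ (Fin r) M → Ω ⊗[kb] (S ⧸ I) := fun l => π ((1 : Ω) ⊗ₜ[kb] P.w l)
  have hπ : ∀ c : kb, π (algebraMap kb _ c) = algebraMap kb _ c := fun c =>
    (Algebra.TensorProduct.map (AlgHom.id kb Ω) (Ideal.Quotient.mkₐ kb I)).commutes c
  have hd : qd tq ∣ P.a.map (iq.comp (algebraMap k Ω)) := by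
    have h := Polynomial.map_dvd π (win1_dvd P)
    rw [qd_map, Polynomial.map_map] at h
    exact h
  obtain ⟨A, hA⟩ := win1_inv hr P
  obtain ⟨hA1, hA2⟩ := hA iq tq hd
  have hYq : rep M tq (pmap iq (frame P.E)) *ᵥ wq = fun l => π (P.Y l) := by
    ext l
    rw [PW.Y, win1_mv π, rep_map, pmap_pmap]
  have hfix : ∀ a b : Fin r, a ≠ b → ∀ c0 c1 : kb,
      rep M tq (elc (Ω ⊗[kb] (S ⧸ I)) a b c0 c1) *ᵥ (rep M tq (pmap iq (frame P.E)) *ᵥ wq) =
        rep M tq (pmap iq (frame P.E)) *ᵥ wq := by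
    intro a b hab c0 c1
    rw [hYq]
    ext l
    let e : R2 K →+* Ω ⊗[kb] S :=
      (inc (kb := kb) S K Ω : K ⊗[kb] S →+* Ω ⊗[kb] S).comp
        (evS kb K P.t : R2 K →+* K ⊗[kb] S)
    have he : ∀ f, e f = inc S K Ω (evS kb K P.t f) := fun f => rfl
    have h1 := hcon a b hab c0 c1 l
    rw [hev] at h1
    have h2 : z * inc S K Ω (W.im ((rep M MvPolynomial.X (elc (R2 K) a b c0 c1) - 1) l)) =
        (((rep M MvPolynomial.X (elc (R2 K) a b c0 c1) - 1).map e) *ᵥ P.Y) l := by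
      change z * inc S K Ω (∑ l', W.ev _ (W.y l')) = ∑ l', _
      rw [map_sum, Finset.mul_sum]
      refine Finset.sum_congr rfl fun l' _ => ?_
      rw [hev, map_mul, mul_left_comm, hy]
      rfl
    have h3 := hI (z * inc S K Ω (W.im ((rep M MvPolynomial.X (elc (R2 K) a b c0 c1) - 1) l)))
      (by rw [mul_left_comm, ← map_mul, h1, map_zero, mul_zero])
    change π _ = 0 at h3
    have h4 : ∀ c : kb, e (algebraMap kb _ c) = algebraMap kb _ c := fun c => by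
      rw [he, IsScalarTower.algebraMap_apply kb K (R2 K), AlgHom.commutes,
        ← IsScalarTower.algebraMap_apply kb K (K ⊗[kb] S), AlgHom.commutes]
    have h5 : (fun i => π (e (MvPolynomial.X i))) = tq := by
      ext i
      rw [he, evS, MvPolynomial.aeval_X, inc_tmul, map_one]
    rw [h2, Matrix.map_sub _ (map_sub e), Matrix.map_one _ (map_zero e) (map_one e), sub_mulVec,
      one_mulVec, Pi.sub_apply, map_sub, sub_eq_zero, win1_mv π, rep_map, rep_map,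
      pmap_elc e h4, pmap_elc π hπ, h5] at h3
    exact h3
  have h6 := stab_conj (F := kb) Ω hA1 hA2 hfix (s := elc (Ω ⊗[kb] (S ⧸ I)) a b c0 c1)
    (by rw [elc, el_det hab, sub_self]; exact dvd_zero _)
  let ρ : S →+* Ω ⊗[kb] (S ⧸ I) :=
    π.comp (Algebra.TensorProduct.includeRight (R := kb) (A := Ω) (B := S) : S →+* Ω ⊗[kb] S)
  have hρ : ∀ c : kb, ρ (algebraMap kb _ c) = algebraMap kb _ c := fun c => by
    change π ((Algebra.TensorProduct.includeRight (R := kb) (A := Ω) (B := S)) _) = _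
    rw [AlgHom.commutes, hπ]
  have h7 : ρ ((rep M P.t (elc S a b c0 c1) *ᵥ P.w - P.w) j) = 0 := by
    rw [Pi.sub_apply, map_sub, win1_mv ρ, rep_map, pmap_elc ρ hρ, sub_eq_zero]
    exact congrFun h6 j
  rw [← Ideal.Quotient.eq_zero_iff_mem]
  apply one_tmul_injective (kb := kb) Ω
  change _ = (1 : Ω) ⊗ₜ[kb] (0 : S ⧸ I)
  rw [TensorProduct.tmul_zero]
  exact h7

end Pool.Agent.Lib.MP_6adaea_nt.U
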